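import Pool.Agent.Lib.MP_f11a48_ag.CG.SpecA
import Pool.Agent.Lib.MP_f11a48_ag.CF.Mono

/-!
# Module BLK: direct sums of systems
-/

set_option autoImplicit false
set_option linter.unusedSectionVars false

namespace Pool.Agent.Lib.MPf11a48.CG.BlkM

open Polynomial Matrix
open scoped PowerSeries
open Pool.Agent.Lib.MPf11a48.GL2T Pool.Agent.Lib.MPf11a48.GF

theorem isG_zero {μ μ' : Type} {u : μ → ℚ⟦X⟧} (hu : IsG u) {y : μ' → ℚ⟦X⟧}
    (hy : ∀ i, y i = 0 ∨ ∃ j, y i = u j) : IsG y := by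
  obtain ⟨C, hC⟩ := hu
  refine ⟨C, fun n => ?_⟩
  obtain ⟨q, h0, h1, h2, h3⟩ := hC n
  refine ⟨q, h0, h1, fun i k hk => ?_, fun i => ?_⟩
  · rcases hy i with h | ⟨j, h⟩
    · exact ⟨0, by rw [h]; simp⟩
    · rw [h]
      exact h2 j k hk
  · rcases hy i with h | ⟨j, h⟩
    · rw [h]
      simp
    · rw [h]
      exact h3 j

variable {ι σ : Type} [Fintype ι] [DecidableEq ι] [Fintype σ] [DecidableEq σ]

/-- the product over the other indices -/
noncomputable def co {R : Type} [CommRing R] (T : σ → R) (a : σ) : R :=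
  ∏ c ∈ Finset.univ.erase a, T c

theorem co_mul {R : Type} [CommRing R] (T : σ → R) (a : σ) : co T a * T a = ∏ c, T c := by
  rw [co, mul_comm]
  exact Finset.mul_prod_erase Finset.univ T (Finset.mem_univ a)

theorem zq_mul (p q : ℤ[X]) : zq (p * q) = zq p * zq q := Polynomial.map_mul _

theorem zq_zero : zq (0 : ℤ[X]) = 0 := Polynomial.map_zero _

theorem isG_block (Y : σ → Matrix ι ι ℚ⟦X⟧) (hY : ∀ a, IsG fun v : ι × ι => Y a v.1 v.2) :
    IsG fun v : (ι × σ) × (ι × σ) => blockDiagonal Y v.1 v.2 := by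
  refine isG_zero (CF.MonoM.isG_fin (fun a (v : ι × ι) => Y a v.1 v.2) hY) fun v => ?_
  obtain ⟨⟨i, a⟩, ⟨j, b⟩⟩ := v
  change blockDiagonal Y (i, a) (j, b) = 0 ∨ ∃ w : σ × ι × ι, blockDiagonal Y (i, a) (j, b) = _
  by_cases h : a = b
  · subst h
    right
    exact ⟨(a, i, j), by rw [blockDiagonal_apply_eq]⟩
  · left
    rw [blockDiagonal_apply_ne _ _ _ h]

theorem map_block (N : Matrix ι ι ℚ) :
    (blockDiagonal fun _ : σ => N).map (PowerSeries.C : ℚ →+* ℚ⟦X⟧) =
      blockDiagonal fun _ : σ => N.map (PowerSeries.C : ℚ →+* ℚ⟦X⟧) := by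
  rw [blockDiagonal_map]
  exact map_zero _

end Pool.Agent.Lib.MPf11a48.CG.BlkM

namespace Pool.Agent.Lib.MPf11a48.CG

open Polynomial Matrix
open scoped PowerSeries
open Pool.Agent.Lib.MPf11a48.GL2T Pool.Agent.Lib.MPf11a48.GF

open BlkM in
theorem specBlk : SpecBlk := by
  intro ι σ _ _ _ _ T B N ψ₀ Y h
  refine ⟨∏ a, T a, blockDiagonal fun a => (B a).map fun p => co T a * p, ?_, ?_, ?_, ?_⟩
  · exact Finset.prod_ne_zero_iff.2 fun a _ => (h a).ne
  · rintro ⟨i, a⟩ ⟨j, b⟩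
    rw [map_block, ← blockDiagonal_mul]
    by_cases hab : a = b
    · subst hab
      rw [blockDiagonal_apply_eq, blockDiagonal_apply_eq]
      have h1 := (h a).sol i j
      have h2 : ((X * zq (∏ c, T c) : ℚ[X]) : ℚ⟦X⟧) =
          ((zq (co T a) : ℚ[X]) : ℚ⟦X⟧) * ((X * zq (T a) : ℚ[X]) : ℚ⟦X⟧) := by
        rw [← co_mul T a, zq_mul, ← Polynomial.coe_mul]
        congr 1
        ring
      have h3 : ((zq (∏ c, T c) : ℚ[X]) : ℚ⟦X⟧) =
          ((zq (co T a) : ℚ[X]) : ℚ⟦X⟧) * ((zq (T a) : ℚ[X]) : ℚ⟦X⟧) := by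
        rw [← co_mul T a, zq_mul, ← Polynomial.coe_mul]
      have h4 : ∑ k : ι × σ, ((X * zq ((blockDiagonal fun a => (B a).map fun p => co T a * p)
          (j, a) k) : ℚ[X]) : ℚ⟦X⟧) * blockDiagonal Y (i, a) k =
          ∑ k, ((zq (co T a) : ℚ[X]) : ℚ⟦X⟧) * (((X * zq (B a j k) : ℚ[X]) : ℚ⟦X⟧) * Y a i k) := by
        rw [Fintype.sum_prod_type]
        refine Finset.sum_congr rfl fun k _ => ?_
        rw [Finset.sum_eq_single a]
        · rw [blockDiagonal_apply_eq, blockDiagonal_apply_eq, ← mul_assoc, ← Polynomial.coe_mul]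
          congr 2
          rw [Matrix.map_apply, zq_mul]
          ring
        · intro c _ hc
          rw [blockDiagonal_apply_ne Y _ _ (Ne.symm hc), mul_zero]
        · intro h
          exact absurd (Finset.mem_univ _) h
      rw [h2, h3, h4, mul_assoc, h1, mul_sub, Finset.mul_sum, mul_assoc]
    · rw [blockDiagonal_apply_ne _ _ _ hab, blockDiagonal_apply_ne _ _ _ hab, map_zero, mul_zero,
        mul_zero, sub_zero]
      refine (Finset.sum_eq_zero ?_).symm
      rintro ⟨k, c⟩ _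
      by_cases hc : a = c
      · subst hc
        rw [blockDiagonal_apply_ne _ _ _ (Ne.symm hab), zq_zero, mul_zero,
          Polynomial.coe_zero, zero_mul]
      · rw [blockDiagonal_apply_ne Y _ _ hc, mul_zero]
  · exact isG_block Y fun a => (h a).g
  · choose D hD hq using fun a => (h a).pol
    refine ⟨∏ a, D a, Finset.prod_ne_zero_iff.2 fun a _ => hD a, ?_⟩
    rintro ⟨i, a⟩ ⟨j, b⟩
    rw [map_block, blockDiagonal_transpose, ← blockDiagonal_mul, ← blockDiagonal_mul]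
    by_cases hab : a = b
    · subst hab
      obtain ⟨q, hq⟩ := hq a i j
      refine ⟨co D a * q, ?_⟩
      rw [blockDiagonal_apply_eq, Polynomial.coe_mul, ← hq, ← co_mul D a, Polynomial.coe_mul,
        mul_assoc]
    · refine ⟨0, ?_⟩
      rw [blockDiagonal_apply_ne _ _ _ hab, mul_zero, Polynomial.coe_zero]

end Pool.Agent.Lib.MPf11a48.CG
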