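import Pool.Agent.Lib.MP_f11a48_ag.CG.SpecP

/-!
# Module BNM: common denominators of the binomial coefficients of a nilpotent matrix

With `L = lcm(1, …, n)`, all `bn N a`, `a ≤ n`, lie in the ring `ℤ[N / L]`, which is spanned by
`(N / L) ^ j`, `j < e`, if `N ^ e = 0`.
-/

set_option autoImplicit false

namespace Pool.Agent.Lib.MPf11a48.CG

namespace BnmM

variable {ι : Type} [Fintype ι] [DecidableEq ι]

/-- the matrices with integral entries -/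
def IR (ι : Type) [Fintype ι] [DecidableEq ι] : Subring (Matrix ι ι ℚ) :=
  (Int.castRingHom ℚ).mapMatrix.range

theorem mem_IR {M : Matrix ι ι ℚ} : M ∈ IR ι ↔ ∀ i j, ∃ z : ℤ, M i j = z := by
  constructor
  · rintro ⟨Z, rfl⟩ i j
    exact ⟨Z i j, rfl⟩
  · intro h
    choose Z hZ using h
    refine ⟨Matrix.of Z, ?_⟩
    ext i j
    exact (hZ i j).symm

theorem nsmul_mem_IR {M : Matrix ι ι ℚ} (h : M ∈ IR ι) (k : ℕ) : (k : ℚ) • M ∈ IR ι := by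
  rw [Nat.cast_smul_eq_nsmul]
  exact nsmul_mem h k

/-- the ring `ℤ[N / L]` -/
noncomputable def SL (L : ℕ) (N : Matrix ι ι ℚ) : Subalgebra ℤ (Matrix ι ι ℚ) :=
  Algebra.adjoin ℤ {(L : ℚ)⁻¹ • N}

theorem bn_succ' (N : Matrix ι ι ℚ) (a : ℕ) :
    ((a + 1 : ℕ) : ℚ) • bn N (a + 1) = bn N a * (N - (a : ℚ) • (1 : Matrix ι ι ℚ)) := by
  rw [bn, smul_smul, mul_inv_cancel₀ (by positivity), one_smul]

theorem step (N : Matrix ι ι ℚ) (L n : ℕ) (hL : 0 < L) (h : ∀ k, 1 ≤ k → k ≤ n → k ∣ L) :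
    ∀ a, a + 1 ≤ n → ∃ c ∈ SL L N, ((a + 1 : ℕ) : ℚ) • bn N (a + 1) = (L : ℚ) • c := by
  have hL' : (L : ℚ) ≠ 0 := by positivity
  have hN : (L : ℚ)⁻¹ • N ∈ SL L N := Algebra.subset_adjoin rfl
  intro a
  induction a with
  | zero =>
    intro _
    refine ⟨(L : ℚ)⁻¹ • N, hN, ?_⟩
    rw [smul_smul, mul_inv_cancel₀ hL', one_smul, bn_succ', bn]
    simp
  | succ a ih =>
    intro ha
    obtain ⟨c, hc, hce⟩ := ih (by omega)
    obtain ⟨z, hz⟩ := h (a + 1) (by omega) (by omega)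
    have ha1 : ((a + 1 : ℕ) : ℚ) ≠ 0 := by positivity
    refine ⟨c * ((z : ℤ) • ((L : ℚ)⁻¹ • N) - 1),
      (SL L N).mul_mem hc ((SL L N).sub_mem ((SL L N).smul_mem hN _) (SL L N).one_mem), ?_⟩
    rw [bn_succ' N (a + 1)]
    have h1 : bn N (a + 1) = (L : ℚ) • ((((a + 1 : ℕ) : ℚ))⁻¹ • c) := by
      rw [smul_comm, ← hce, smul_smul, inv_mul_cancel₀ ha1, one_smul]
    rw [h1, Matrix.smul_mul]
    congr 1
    rw [Matrix.smul_mul, ← Matrix.mul_smul]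
    congr 1
    rw [smul_sub, smul_smul, inv_mul_cancel₀ ha1, one_smul]
    congr 1
    rw [← Int.cast_smul_eq_zsmul ℚ, smul_smul]
    congr 1
    rw [hz]
    have hz0 : (z : ℚ) ≠ 0 := by
      rintro h0
      have : z = 0 := by exact_mod_cast h0
      rw [this, mul_zero] at hz
      omega
    push_cast
    push_cast at ha1
    field_simp

theorem bn_mem (N : Matrix ι ι ℚ) (L n : ℕ) (hL : 0 < L) (h : ∀ k, 1 ≤ k → k ≤ n → k ∣ L)
    (a : ℕ) (ha : a ≤ n) : bn N a ∈ SL L N := by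
  cases a with
  | zero =>
    rw [bn]
    exact (SL L N).one_mem
  | succ a =>
    obtain ⟨c, hc, hce⟩ := step N L n hL h a ha
    obtain ⟨z, hz⟩ := h (a + 1) (by omega) ha
    have ha1 : ((a + 1 : ℕ) : ℚ) ≠ 0 := by positivity
    have h1 : bn N (a + 1) = (z : ℤ) • c := by
      have h2 : ((a + 1 : ℕ) : ℚ) • bn N (a + 1) = ((a + 1 : ℕ) : ℚ) • ((z : ℤ) • c) := by
        rw [hce, ← Int.cast_smul_eq_zsmul ℚ, smul_smul, hz]
        push_cast
        rfl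
      exact smul_right_injective _ ha1 h2
    rw [h1]
    exact (SL L N).smul_mem hc _

theorem int_of_mem (N : Matrix ι ι ℚ) (L D e : ℕ) (hL : 0 < L) (he : N ^ e = 0)
    (hD : (D : ℚ) • N ∈ IR ι) {s : Matrix ι ι ℚ} (hs : s ∈ SL L N) :
    ((L ^ e * D ^ e : ℕ) : ℚ) • s ∈ IR ι := by
  rw [SL, Algebra.adjoin_singleton_eq_range_aeval] at hs
  obtain ⟨p, rfl⟩ := hs
  change ((L ^ e * D ^ e : ℕ) : ℚ) • Polynomial.aeval ((L : ℚ)⁻¹ • N) p ∈ IR ι
  rw [Polynomial.aeval_eq_sum_range, Finset.smul_sum]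
  refine Subring.sum_mem _ fun i _ => ?_
  rw [smul_comm]
  refine Subring.zsmul_mem _ ?_ _
  rw [smul_pow]
  rcases le_or_gt e i with hi | hi
  · rw [pow_eq_zero_of_le hi he, smul_zero, smul_zero]
    exact Subring.zero_mem _
  · have hL' : (L : ℚ) ≠ 0 := by positivity
    have h1 : ((L ^ e * D ^ e : ℕ) : ℚ) • ((L : ℚ)⁻¹ ^ i • N ^ i) =
        ((L ^ (e - i) * D ^ (e - i) : ℕ) : ℚ) • ((D : ℚ) • N) ^ i := by
      rw [smul_pow, smul_smul, smul_smul]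
      congr 1
      obtain ⟨r, hr⟩ : ∃ r, e = r + i := ⟨e - i, by omega⟩
      rw [hr, Nat.add_sub_cancel]
      push_cast
      rw [pow_add, pow_add, inv_pow]
      field_simp
    rw [h1]
    exact nsmul_mem_IR (Subring.pow_mem _ hD _) _

theorem exists_den (N : Matrix ι ι ℚ) : ∃ D : ℕ, 0 < D ∧ (D : ℚ) • N ∈ IR ι := by
  refine ⟨∏ p : ι × ι, (N p.1 p.2).den, Finset.prod_pos fun p _ => (N p.1 p.2).den_pos, ?_⟩
  rw [mem_IR]
  intro i j
  obtain ⟨m, hm⟩ := Finset.dvd_prod_of_mem (fun p : ι × ι => (N p.1 p.2).den)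
    (Finset.mem_univ (i, j))
  refine ⟨m * (N i j).num, ?_⟩
  rw [hm, Matrix.smul_apply, smul_eq_mul]
  push_cast
  have h1 : ((N i j).den : ℚ) * N i j = (N i j).num := by
    rw [mul_comm]
    exact Rat.mul_den_eq_num _
  calc ((N i j).den : ℚ) * m * N i j = m * (((N i j).den : ℚ) * N i j) := by ring
    _ = _ := by rw [h1]

theorem lcm_le (n : ℕ) : Nat.lcmUpto n ≤ ⌈Real.exp (Real.log 4 + 4)⌉₊ ^ n := by
  have h1 := Chebyshev.psi_le_const_mul_self (x := n) (Nat.cast_nonneg n)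
  rw [Chebyshev.psi_eq_log_lcmUpto] at h1
  have h2 : (0 : ℝ) < Nat.lcmUpto n := Nat.cast_pos.2 (Nat.lcmUpto_pos n)
  rw [Real.log_le_iff_le_exp h2, mul_comm, Real.exp_nat_mul] at h1
  have h3 : Real.exp (Real.log 4 + 4) ^ n ≤ ((⌈Real.exp (Real.log 4 + 4)⌉₊ : ℕ) : ℝ) ^ n :=
    pow_le_pow_left₀ (Real.exp_pos _).le (Nat.le_ceil _) n
  exact_mod_cast h1.trans h3

end BnmM

theorem specBnm : SpecBnm := by
  intro ι _ _ N hN
  obtain ⟨e, he⟩ := hN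
  obtain ⟨D, hD0, hD⟩ := BnmM.exists_den N
  obtain ⟨B, hB⟩ : ∃ B : ℕ, B = ⌈Real.exp (Real.log 4 + 4)⌉₊ := ⟨_, rfl⟩
  have hB0 : 0 < B := by
    rw [hB]
    exact Nat.ceil_pos.2 (Real.exp_pos _)
  refine ⟨B ^ e * D ^ e, fun n => ⟨Nat.lcmUpto n ^ e * D ^ e, ?_, ?_, ?_⟩⟩
  · have := Nat.lcmUpto_pos n
    positivity
  · have h1 : Nat.lcmUpto n ≤ B ^ n := by
      rw [hB]
      exact BnmM.lcm_le n
    calc Nat.lcmUpto n ^ e * D ^ e ≤ (B ^ n) ^ e * D ^ e :=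
          Nat.mul_le_mul_right _ (Nat.pow_le_pow_left h1 e)
      _ ≤ (B ^ e) ^ (n + 1) * (D ^ e) ^ (n + 1) := by
          refine Nat.mul_le_mul ?_ ?_
          · rw [← pow_mul, ← pow_mul]
            exact Nat.pow_le_pow_right hB0 (by nlinarith)
          · exact Nat.le_self_pow (Nat.succ_ne_zero n) _
      _ = _ := by rw [mul_pow]
  · intro a ha i j
    have h1 := BnmM.bn_mem N (Nat.lcmUpto n) n (Nat.lcmUpto_pos n)
      (fun k hk hkn => Finset.dvd_lcm (f := id) (Finset.mem_Icc.2 ⟨hk, hkn⟩)) a ha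
    have h2 := BnmM.int_of_mem N _ D e (Nat.lcmUpto_pos n) he hD h1
    rw [BnmM.mem_IR] at h2
    obtain ⟨z, hz⟩ := h2 i j
    exact ⟨z, hz⟩

end Pool.Agent.Lib.MPf11a48.CG
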