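import Pool.Agent.Lib.MP_f11a48_ag.CG.Spec3

/-!
# Module EXQ: the action of `exp (-t N)` on tensors is polynomial in `t`
-/

set_option autoImplicit false

namespace Pool.Agent.Lib.MPf11a48.CG.ExqM

open Matrix
open Pool.Agent.Lib.MPf11a48.K3 (cx)
open Pool.Agent.Lib.MPf11a48.K3.KCurM (gl)

variable {ι : Type} [Fintype ι] [DecidableEq ι]

/-- the exponential of a nilpotent matrix -/
theorem exp_nil {N : Matrix ι ι ℂ} {m : ℕ} (hN : N ^ m = 0) (t : ℂ) :
    NormedSpace.exp (t • N) = ∑ n ∈ Finset.range m, ((n.factorial : ℂ)⁻¹ * t ^ n) • N ^ n := by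
  rw [NormedSpace.exp_eq_tsum ℂ]
  change ∑' n : ℕ, ((n.factorial : ℂ)⁻¹) • (t • N) ^ n = _
  rw [tsum_eq_sum (s := Finset.range m)]
  · refine Finset.sum_congr rfl fun n _ => ?_
    rw [smul_pow, smul_smul]
  · intro n hn
    have h1 : m ≤ n := not_lt.1 fun h => hn (Finset.mem_range.2 h)
    rw [smul_pow, pow_eq_zero_of_le h1 hN, smul_zero, smul_zero]

/-- polynomial functions with coefficients in `k` -/
def Pk (k : Subfield ℂ) (f : ℂ → ℂ) : Prop :=
  ∃ p : Polynomial k, ∀ t, f t = Polynomial.aeval t p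

theorem Pk.const {k : Subfield ℂ} {a : ℂ} (ha : a ∈ k) : Pk k fun _ => a :=
  ⟨Polynomial.C ⟨a, ha⟩, fun t => by rw [Polynomial.aeval_C]; rfl⟩

theorem Pk.id (k : Subfield ℂ) : Pk k fun t => t :=
  ⟨Polynomial.X, fun t => by rw [Polynomial.aeval_X]⟩

theorem Pk.mul {k : Subfield ℂ} {f g : ℂ → ℂ} (hf : Pk k f) (hg : Pk k g) :
    Pk k fun t => f t * g t := by
  obtain ⟨p, hp⟩ := hf
  obtain ⟨q, hq⟩ := hg
  exact ⟨p * q, fun t => by rw [map_mul, ← hp, ← hq]⟩

theorem Pk.pow {k : Subfield ℂ} {f : ℂ → ℂ} (hf : Pk k f) (n : ℕ) : Pk k fun t => f t ^ n := by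
  obtain ⟨p, hp⟩ := hf
  exact ⟨p ^ n, fun t => by rw [map_pow, ← hp]⟩

theorem Pk.sum {k : Subfield ℂ} {I : Type} (s : Finset I) {f : I → ℂ → ℂ} (hf : ∀ i, Pk k (f i)) :
    Pk k fun t => ∑ i ∈ s, f i t := by
  choose p hp using hf
  exact ⟨∑ i ∈ s, p i, fun t => by rw [map_sum]; exact Finset.sum_congr rfl fun i _ => hp i t⟩

theorem Pk.prod {k : Subfield ℂ} {I : Type} (s : Finset I) {f : I → ℂ → ℂ} (hf : ∀ i, Pk k (f i)) :
    Pk k fun t => ∏ i ∈ s, f i t := by
  choose p hp using hf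
  exact ⟨∏ i ∈ s, p i, fun t => by rw [map_prod]; exact Finset.prod_congr rfl fun i _ => hp i t⟩

theorem cx_pow_mem (k : Subfield ℂ) (N : Matrix ι ι ℚ) (n : ℕ) (i j : ι) :
    ((-cx N) ^ n) i j ∈ k := by
  have h1 : (-cx N) ^ n = cx ((-N) ^ n) := by
    have e : (-cx N) = (Rat.castHom ℂ).mapMatrix (-N) := by
      ext i j
      simp [cx]
    rw [e, ← map_pow]
    rfl
  rw [h1]
  exact SubfieldClass.ratCast_mem k _

end Pool.Agent.Lib.MPf11a48.CG.ExqM

namespace Pool.Agent.Lib.MPf11a48.CG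

open Matrix
open Pool.Agent.Lib.MPf11a48.K3 (cx)
open Pool.Agent.Lib.MPf11a48.K3.KCurM (gl)

open ExqM in
theorem specExq : SpecExq := by
  classical
  intro ι κ _ _ _ _ N M k hN hM
  have hgl : ∀ t : ℂ, ((gl (cx N) t)⁻¹).1 = NormedSpace.exp (t • (-cx N)) := fun t => rfl
  by_cases h0 : N = 0
  · refine ⟨0, fun J J' _ => ∏ x, M (J x) (J' x), fun _ => rfl, fun J J' _ =>
      prod_mem fun x _ => hM _ _, fun t J J' => ?_⟩
    have h1 : ((gl (cx N) t)⁻¹).1 = 1 := by
      have e : cx (0 : Matrix ι ι ℚ) = 0 := by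
        ext i j
        simp [cx]
      rw [hgl, h0, e, neg_zero, smul_zero, NormedSpace.exp_zero]
    rw [h1, Matrix.one_mul, Fin.sum_univ_one]
    simp
  · obtain ⟨m, hm⟩ := hN
    have hm' : (-cx N) ^ m = 0 := by
      have e : (-cx N) = (Rat.castHom ℂ).mapMatrix (-N) := by
        ext i j
        simp [cx]
      rw [e, ← map_pow, neg_pow, hm, mul_zero, map_zero]
    have hE : ∀ i j, Pk k fun t => ((gl (cx N) t)⁻¹).1 i j := by
      intro i j
      have h1 : (fun t : ℂ => ((gl (cx N) t)⁻¹).1 i j) = fun t => ∑ n ∈ Finset.range m,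
          (n.factorial : ℂ)⁻¹ * t ^ n * ((-cx N) ^ n) i j := by
        funext t
        rw [hgl, exp_nil hm', Matrix.sum_apply]
        rfl
      rw [h1]
      refine Pk.sum _ fun n => ((Pk.const ?_).mul ((Pk.id k).pow n)).mul
        (Pk.const (cx_pow_mem k N n i j))
      exact inv_mem (natCast_mem k _)
    have hP : ∀ J J' : κ → ι, Pk k fun t => ∏ x, ((gl (cx N) t)⁻¹.1 * M) (J x) (J' x) := by
      intro J J'
      refine Pk.prod _ fun x => ?_
      have h1 : (fun t : ℂ => ((gl (cx N) t)⁻¹.1 * M) (J x) (J' x)) = fun t =>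
          ∑ l, ((gl (cx N) t)⁻¹).1 (J x) l * M l (J' x) := by
        funext t
        rw [Matrix.mul_apply]
      rw [h1]
      exact Pk.sum _ fun l => (hE _ _).mul (Pk.const (hM _ _))
    choose p hp using hP
    let d := ∑ x : (κ → ι) × (κ → ι), (p x.1 x.2).natDegree
    refine ⟨d, fun J J' j => (p J J').coeff j, fun h => absurd h h0, fun J J' j =>
      SetLike.coe_mem _, fun t J J' => ?_⟩
    have hd : (p J J').natDegree ≤ d := Finset.single_le_sum
      (f := fun x : (κ → ι) × (κ → ι) => (p x.1 x.2).natDegree) (fun _ _ => Nat.zero_le _)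
      (Finset.mem_univ (J, J'))
    refine (hp J J' t).trans ?_
    rw [Polynomial.aeval_eq_sum_range' (Nat.lt_succ_of_le hd),
      Finset.sum_range (fun i => (p J J').coeff i • t ^ i)]
    rfl

end Pool.Agent.Lib.MPf11a48.CG
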