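import Pool.Agent.Lib.MP_f11a48_ag.CG.SpecA
import Pool.Agent.Lib.MP_f11a48_ag.CG.Exq
import Pool.Agent.Lib.MP_f11a48_ag.GF.Eval

/-!
# Module PNM: the matrix `(1 + m x) ^ (-N)`
-/

set_option autoImplicit false

namespace Pool.Agent.Lib.MPf11a48.CG

open Polynomial Matrix
open scoped PowerSeries
open Pool.Agent.Lib.MPf11a48.GF
open Pool.Agent.Lib.MPf11a48.CF (vm)
open Pool.Agent.Lib.MPf11a48.K3 (cx)

namespace PnmM

variable {ι : Type} [Fintype ι] [DecidableEq ι]

/-- constant matrices -/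
noncomputable abbrev MC (N : Matrix ι ι ℚ) : Matrix ι ι ℚ⟦X⟧ :=
  N.map (PowerSeries.C : ℚ →+* ℚ⟦X⟧)

/-- the derivative of a matrix -/
noncomputable def dM (M : Matrix ι ι ℚ⟦X⟧) : Matrix ι ι ℚ⟦X⟧ :=
  M.map (PowerSeries.derivative ℚ)

/-- the power series `1 + m x` -/
noncomputable def ox (m : ℕ) : ℚ⟦X⟧ := 1 + PowerSeries.C (m : ℚ) * PowerSeries.X

omit [DecidableEq ι] in
theorem dM_mul (A B : Matrix ι ι ℚ⟦X⟧) : dM (A * B) = dM A * B + A * dM B := by
  ext1 i j
  simp only [dM, map_apply, Matrix.mul_apply, Matrix.add_apply, map_sum, Derivation.leibniz,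
    smul_eq_mul]
  rw [← Finset.sum_add_distrib]
  exact Finset.sum_congr rfl fun k _ => by ring

omit [DecidableEq ι] in
theorem coeff_MC_mul (N : Matrix ι ι ℚ) (M : Matrix ι ι ℚ⟦X⟧) (i j : ι) (a : ℕ) :
    PowerSeries.coeff a ((MC N * M) i j) = ∑ k, N i k * PowerSeries.coeff a (M k j) := by
  simp only [Matrix.mul_apply, map_sum, map_apply, PowerSeries.coeff_C_mul]

omit [DecidableEq ι] in
theorem coeff_mul_MC (N : Matrix ι ι ℚ) (M : Matrix ι ι ℚ⟦X⟧) (i j : ι) (a : ℕ) :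
    PowerSeries.coeff a ((M * MC N) i j) = ∑ k, PowerSeries.coeff a (M i k) * N k j := by
  simp only [Matrix.mul_apply, map_sum, map_apply, PowerSeries.coeff_mul_C]

theorem bn_succ (N : Matrix ι ι ℚ) (a : ℕ) :
    ((a + 1 : ℕ) : ℚ) • bn N (a + 1) = bn N a * (N - (a : ℚ) • (1 : Matrix ι ι ℚ)) := by
  rw [bn, smul_smul, mul_inv_cancel₀ (by positivity), one_smul]

theorem bn_comm (N : Matrix ι ι ℚ) (a : ℕ) : N * bn N a = bn N a * N := by
  induction a with
  | zero => rw [bn, mul_one, one_mul]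
  | succ a ih =>
    rw [bn, Matrix.mul_smul, Matrix.smul_mul, ← Matrix.mul_assoc, ih, Matrix.mul_assoc,
      Matrix.mul_assoc]
    congr 2
    rw [Matrix.mul_sub, Matrix.sub_mul, Matrix.mul_smul, Matrix.smul_mul, mul_one, one_mul]

theorem pm_comm (m : ℕ) (N : Matrix ι ι ℚ) : MC N * pm m N = pm m N * MC N := by
  ext1 i j
  ext a
  rw [coeff_MC_mul, coeff_mul_MC]
  simp only [pm, PowerSeries.coeff_mk]
  have h1 : N * bn (-N) a = bn (-N) a * N := by
    have h2 := bn_comm (-N) a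
    rw [Matrix.neg_mul, Matrix.mul_neg, neg_inj] at h2
    exact h2
  have h3 := congrFun (congrFun h1 i) j
  rw [Matrix.mul_apply, Matrix.mul_apply] at h3
  calc ∑ k, N i k * (bn (-N) a k j * (m : ℚ) ^ a) = (∑ k, N i k * bn (-N) a k j) * (m : ℚ) ^ a := by
        rw [Finset.sum_mul]
        exact Finset.sum_congr rfl fun k _ => by ring
    _ = (∑ k, bn (-N) a i k * N k j) * (m : ℚ) ^ a := by rw [h3]
    _ = _ := by
        rw [Finset.sum_mul]
        exact Finset.sum_congr rfl fun k _ => by ring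

theorem coeff_X_deriv (f : ℚ⟦X⟧) (a : ℕ) :
    PowerSeries.coeff a (PowerSeries.X * PowerSeries.derivative ℚ f) =
      a * PowerSeries.coeff a f := by
  cases a with
  | zero => simp
  | succ a =>
    rw [PowerSeries.coeff_succ_X_mul, PowerSeries.coeff_derivative]
    push_cast
    ring

theorem pm_ode (m : ℕ) (N : Matrix ι ι ℚ) (i j : ι) :
    ox m * PowerSeries.derivative ℚ (pm m N i j) =
      -(PowerSeries.C (m : ℚ) * (MC N * pm m N) i j) := by
  ext a
  rw [pm_comm, ox, add_mul, one_mul, mul_assoc, map_add, map_neg, PowerSeries.coeff_C_mul,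
    PowerSeries.coeff_C_mul, coeff_X_deriv, PowerSeries.coeff_derivative, coeff_mul_MC]
  simp only [pm, PowerSeries.coeff_mk]
  have h1 := congrFun (congrFun (bn_succ (-N) a) i) j
  rw [Matrix.smul_apply, smul_eq_mul, Matrix.mul_sub, Matrix.sub_apply, Matrix.mul_smul,
    mul_one, Matrix.smul_apply, smul_eq_mul, Matrix.mul_neg, Matrix.neg_apply,
    Matrix.mul_apply] at h1
  push_cast at h1
  have h2 : ∑ k, bn (-N) a i k * (m : ℚ) ^ a * N k j =
      (∑ k, bn (-N) a i k * N k j) * (m : ℚ) ^ a := by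
    rw [Finset.sum_mul]
    exact Finset.sum_congr rfl fun k _ => by ring
  rw [h2]
  have h3 : (∑ k, bn (-N) a i k * N k j) =
      -(((a : ℚ) + 1) * bn (-N) (a + 1) i j) - a * bn (-N) a i j := by
    linarith
  rw [h3, pow_succ]
  ring

theorem pm_dM (m : ℕ) (N : Matrix ι ι ℚ) :
    ox m • dM (pm m N) = -(PowerSeries.C (m : ℚ) • (MC N * pm m N)) := by
  ext1 i j
  rw [Matrix.smul_apply, smul_eq_mul, Matrix.neg_apply, Matrix.smul_apply, smul_eq_mul]
  exact pm_ode m N i j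

omit [Fintype ι] [DecidableEq ι] in
theorem MC_neg (N : Matrix ι ι ℚ) : MC (-N) = -MC N := by
  ext1 i j
  simp [MC]

theorem ox_ne (m : ℕ) : ox m ≠ 0 := by
  intro h
  have h1 := congrArg (PowerSeries.coeff 0) h
  simp [ox] at h1

omit [Fintype ι] in
/-- a matrix with derivative zero -/
theorem eq_one {m : ℕ} {M : Matrix ι ι ℚ⟦X⟧} (h : ox m • dM M = 0)
    (h0 : ∀ i j, PowerSeries.constantCoeff (M i j) = (1 : Matrix ι ι ℚ) i j) : M = 1 := by
  ext1 i j
  have h1 : PowerSeries.derivative ℚ (M i j) = 0 := by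
    have h2 := congrFun (congrFun h i) j
    rw [Matrix.smul_apply, smul_eq_mul, Matrix.zero_apply] at h2
    exact (mul_eq_zero.1 h2).resolve_left (ox_ne m)
  have h3 : M i j = PowerSeries.C ((1 : Matrix ι ι ℚ) i j) := by
    apply PowerSeries.derivative.ext
    · rw [h1, PowerSeries.derivative_C]
    · rw [h0, PowerSeries.constantCoeff_C]
  rw [h3]
  by_cases hij : i = j
  · subst hij; simp
  · simp [hij]

theorem pm_zero_coeff (m : ℕ) (N : Matrix ι ι ℚ) (i j : ι) :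
    PowerSeries.constantCoeff (pm m N i j) = (1 : Matrix ι ι ℚ) i j := by
  rw [← PowerSeries.coeff_zero_eq_constantCoeff_apply, pm, PowerSeries.coeff_mk, bn, pow_zero,
    mul_one]

theorem const_mul {A B : Matrix ι ι ℚ⟦X⟧}
    (hA : ∀ i j, PowerSeries.constantCoeff (A i j) = (1 : Matrix ι ι ℚ) i j)
    (hB : ∀ i j, PowerSeries.constantCoeff (B i j) = (1 : Matrix ι ι ℚ) i j) (i j : ι) :
    PowerSeries.constantCoeff ((A * B) i j) = (1 : Matrix ι ι ℚ) i j := by
  rw [Matrix.mul_apply, map_sum]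
  simp only [map_mul, hA, hB]
  rw [← Matrix.mul_apply, one_mul]

/-- a solution with constant term one is the inverse of `pm m (-N)` -/
theorem mul_sol {m : ℕ} {N : Matrix ι ι ℚ} {E : Matrix ι ι ℚ⟦X⟧}
    (h : ox m • dM E = -(PowerSeries.C (m : ℚ) • (MC N * E)))
    (h0 : ∀ i j, PowerSeries.constantCoeff (E i j) = (1 : Matrix ι ι ℚ) i j) :
    pm m (-N) * E = 1 := by
  apply eq_one (m := m)
  · have h1 := pm_dM m (-N)
    rw [MC_neg, Matrix.neg_mul, smul_neg, neg_neg] at h1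
    have h2 := pm_comm m (-N)
    rw [MC_neg, Matrix.neg_mul, Matrix.mul_neg, neg_inj] at h2
    rw [dM_mul, smul_add, ← Matrix.smul_mul, ← Matrix.mul_smul, h1, h, Matrix.smul_mul,
      Matrix.mul_neg, Matrix.mul_smul, h2, Matrix.mul_assoc, add_neg_cancel]
  · exact const_mul (pm_zero_coeff m (-N)) h0

theorem pm_neg_mul (m : ℕ) (N : Matrix ι ι ℚ) : pm m (-N) * pm m N = 1 :=
  mul_sol (pm_dM m N) (pm_zero_coeff m N)

theorem eq_pm {m : ℕ} {N : Matrix ι ι ℚ} {E : Matrix ι ι ℚ⟦X⟧}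
    (h : ox m • dM E = -(PowerSeries.C (m : ℚ) • (MC N * E)))
    (h0 : ∀ i j, PowerSeries.constantCoeff (E i j) = (1 : Matrix ι ι ℚ) i j) :
    E = pm m N := by
  have h1 := mul_sol h h0
  have h2 : pm m N * pm m (-N) = 1 := mul_eq_one_comm.1 (pm_neg_mul m N)
  calc E = pm m N * pm m (-N) * E := by rw [h2, one_mul]
    _ = pm m N := by rw [Matrix.mul_assoc, h1, mul_one]

theorem bn_form {N ψ₀ : Matrix ι ι ℚ} (h : Nᵀ * ψ₀ + ψ₀ * N = 0) (a : ℕ) :
    (bn (-N) a)ᵀ * ψ₀ = ψ₀ * bn N a := by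
  induction a with
  | zero => simp [bn]
  | succ a ih =>
    have h1 : (-N)ᵀ * ψ₀ = ψ₀ * N := by
      rw [transpose_neg, Matrix.neg_mul]
      exact neg_eq_of_add_eq_zero_right h
    rw [bn, bn, transpose_smul, transpose_mul, transpose_sub, transpose_smul, transpose_one,
      Matrix.smul_mul, Matrix.mul_smul]
    congr 1
    rw [Matrix.mul_assoc, ih]
    have h2 : bn N a * (N - (a : ℚ) • (1 : Matrix ι ι ℚ)) =
        (N - (a : ℚ) • (1 : Matrix ι ι ℚ)) * bn N a := by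
      rw [Matrix.mul_sub, Matrix.sub_mul, bn_comm, Matrix.mul_smul, Matrix.smul_mul, mul_one,
        one_mul]
    rw [h2, ← Matrix.mul_assoc, ← Matrix.mul_assoc]
    congr 1
    rw [Matrix.sub_mul, Matrix.mul_sub, h1, Matrix.smul_mul, Matrix.mul_smul, one_mul, mul_one]

theorem pm_form {N ψ₀ : Matrix ι ι ℚ} (m : ℕ) (h : Nᵀ * ψ₀ + ψ₀ * N = 0) :
    (pm m N)ᵀ * MC ψ₀ * pm m N = MC ψ₀ := by
  have h1 : (pm m N)ᵀ * MC ψ₀ = MC ψ₀ * pm m (-N) := by
    ext1 i j
    ext a
    rw [coeff_MC_mul, coeff_mul_MC]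
    have h2 := congrFun (congrFun (bn_form h a) i) j
    rw [Matrix.mul_apply, Matrix.mul_apply] at h2
    simp only [pm, PowerSeries.coeff_mk, transpose_apply, neg_neg]
    calc ∑ k, bn (-N) a k i * (m : ℚ) ^ a * ψ₀ k j =
        (∑ k, (bn (-N) a)ᵀ i k * ψ₀ k j) * (m : ℚ) ^ a := by
          rw [Finset.sum_mul]
          exact Finset.sum_congr rfl fun k _ => by rw [transpose_apply]; ring
      _ = (∑ k, ψ₀ i k * bn N a k j) * (m : ℚ) ^ a := by rw [h2]
      _ = _ := by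
          rw [Finset.sum_mul]
          exact Finset.sum_congr rfl fun k _ => by ring
  rw [h1, Matrix.mul_assoc, pm_neg_mul, mul_one]

theorem pm_det (m : ℕ) (N : Matrix ι ι ℚ) : (pm m N).det ≠ 0 := by
  intro h
  have h1 := congrArg det (pm_neg_mul m N)
  rw [det_mul, h, mul_zero, det_one] at h1
  exact zero_ne_one h1

theorem pm_at_zero (N : Matrix ι ι ℚ) : pm 0 N = 1 := by
  ext1 i j
  ext a
  rw [pm, PowerSeries.coeff_mk]
  cases a with
  | zero =>
    rw [pow_zero, mul_one, bn]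
    by_cases hij : i = j
    · subst hij; simp
    · simp [hij]
  | succ a =>
    rw [Nat.cast_zero, zero_pow (Nat.succ_ne_zero a), mul_zero]
    by_cases hij : i = j
    · subst hij; simp [PowerSeries.coeff_one]
    · simp [hij]

/-! ### the size of the coefficients -/

theorem bn_le (N : Matrix ι ι ℚ) (a : ℕ) (i j : ι) :
    |bn N a i j| ≤ (∑ k, ∑ l, |N k l| + 1) ^ a := by
  set S := ∑ k, ∑ l, |N k l| with hS
  have hS0 : 0 ≤ S := Finset.sum_nonneg fun _ _ => Finset.sum_nonneg fun _ _ => abs_nonneg _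
  induction a generalizing j with
  | zero =>
    rw [bn, pow_zero]
    by_cases hij : i = j
    · subst hij; simp
    · simp [hij]
  | succ a ih =>
    rw [bn, Matrix.smul_apply, smul_eq_mul, abs_mul, Matrix.mul_apply]
    have h1 : |∑ k, bn N a i k * (N - (a : ℚ) • (1 : Matrix ι ι ℚ)) k j| ≤
        (S + 1) ^ a * (S + a) := by
      refine (Finset.abs_sum_le_sum_abs _ _).trans ?_
      calc ∑ k, |bn N a i k * (N - (a : ℚ) • (1 : Matrix ι ι ℚ)) k j| ≤
          ∑ k, (S + 1) ^ a * (|N k j| + a * (1 : Matrix ι ι ℚ) k j) := by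
            refine Finset.sum_le_sum fun k _ => ?_
            rw [abs_mul]
            refine mul_le_mul (ih k) ?_ (abs_nonneg _) (by positivity)
            rw [Matrix.sub_apply, Matrix.smul_apply, smul_eq_mul]
            refine (abs_sub _ _).trans (add_le_add le_rfl (le_of_eq ?_))
            rw [abs_of_nonneg]
            by_cases hk : k = j
            · subst hk; simp
            · simp [hk]
        _ = (S + 1) ^ a * (∑ k, |N k j| + a) := by
            rw [← Finset.mul_sum, Finset.sum_add_distrib, ← Finset.mul_sum]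
            congr 3
            simp [Matrix.one_apply]
        _ ≤ _ := by
            refine mul_le_mul_of_nonneg_left (add_le_add ?_ le_rfl) (by positivity)
            rw [hS]
            refine Finset.sum_le_sum fun k _ => ?_
            exact Finset.single_le_sum (f := fun l => |N k l|) (fun _ _ => abs_nonneg _)
              (Finset.mem_univ j)
    have h2 : |(((a + 1 : ℕ) : ℚ))⁻¹| = ((a : ℚ) + 1)⁻¹ := by
      rw [abs_of_nonneg (by positivity)]
      push_cast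
      rfl
    rw [h2]
    calc ((a : ℚ) + 1)⁻¹ * |∑ k, bn N a i k * (N - (a : ℚ) • (1 : Matrix ι ι ℚ)) k j| ≤
        ((a : ℚ) + 1)⁻¹ * ((S + 1) ^ a * (S + a)) := by gcongr
      _ ≤ ((a : ℚ) + 1)⁻¹ * ((S + 1) ^ a * ((S + 1) * (a + 1))) := by
          have h3 : S + a ≤ (S + 1) * (a + 1) := by nlinarith [Nat.cast_nonneg (α := ℚ) a]
          gcongr
      _ = (S + 1) ^ (a + 1) := by
          have h4 : (a : ℚ) + 1 ≠ 0 := by positivity
          rw [pow_succ, mul_left_comm, mul_comm (S + 1) ((a : ℚ) + 1), inv_mul_cancel_left₀ h4]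

theorem isG (hBnm : SpecBnm) (m : ℕ) {N : Matrix ι ι ℚ} (hN : IsNilpotent N) :
    IsG fun v : ι × ι => pm m N v.1 v.2 := by
  obtain ⟨C, hC⟩ := hBnm ι (-N) hN.neg
  obtain ⟨K, hK⟩ := exists_nat_ge (∑ k, ∑ l, |(-N) k l| + 1)
  refine ⟨C + K * (m + 1) + 1, fun n => ?_⟩
  obtain ⟨q, hq0, hq, hint⟩ := hC n
  refine ⟨q, hq0, hq.trans (Nat.pow_le_pow_left (by omega) _), ?_, ?_⟩
  · rintro ⟨i, j⟩ k hk
    obtain ⟨z, hz⟩ := hint k hk i j
    refine ⟨z * m ^ k, ?_⟩
    simp only [pm, PowerSeries.coeff_mk]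
    push_cast
    rw [← hz]
    ring
  · rintro ⟨i, j⟩
    simp only [pm, PowerSeries.coeff_mk]
    have h1 := bn_le (-N) n i j
    have h2 : (∑ k, ∑ l, |(-N) k l| + 1) ^ n ≤ (K : ℚ) ^ n := by
      refine pow_le_pow_left₀ ?_ hK n
      exact add_nonneg (Finset.sum_nonneg fun _ _ => Finset.sum_nonneg fun _ _ => abs_nonneg _)
        zero_le_one
    rw [abs_mul, abs_of_nonneg (by positivity : (0 : ℚ) ≤ (m : ℚ) ^ n)]
    calc |bn (-N) n i j| * (m : ℚ) ^ n ≤ (K : ℚ) ^ n * ((m : ℚ) + 1) ^ n := by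
          refine mul_le_mul (h1.trans h2) ?_ (by positivity) (by positivity)
          exact pow_le_pow_left₀ (by positivity) (by linarith) n
      _ = ((K * (m + 1) : ℕ) : ℚ) ^ n := by
          push_cast
          rw [mul_pow]
      _ ≤ ((C + K * (m + 1) + 1 : ℕ) : ℚ) ^ n := by
          refine pow_le_pow_left₀ (by positivity) ?_ n
          exact_mod_cast (by omega : K * (m + 1) ≤ C + K * (m + 1) + 1)
      _ ≤ ((C + K * (m + 1) + 1 : ℕ) : ℚ) ^ (n + 1) := by
          refine pow_le_pow_right₀ ?_ (Nat.le_succ n)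
          exact_mod_cast (by omega : 1 ≤ C + K * (m + 1) + 1)

/-! ### the values -/

/-- `f` converges absolutely at `z` and has the value `v` -/
def Ev (z : ℂ) (f : ℚ⟦X⟧) (v : ℂ) : Prop :=
  (Summable fun k => ‖((PowerSeries.coeff k f : ℚ) : ℂ) * z ^ k‖) ∧ pval f z = v

theorem Ev.add {z : ℂ} {f g : ℚ⟦X⟧} {v w : ℂ} (hf : Ev z f v) (hg : Ev z g w) :
    Ev z (f + g) (v + w) := by
  have h := specEval.2.1 f g z hf.1 hg.1
  refine ⟨?_, by rw [h.1, hf.2, hg.2]⟩
  refine Summable.of_nonneg_of_le (fun _ => norm_nonneg _) (fun k => ?_) (hf.1.add hg.1)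
  rw [map_add]
  push_cast
  rw [add_mul]
  exact norm_add_le _ _

theorem Ev.mul {z : ℂ} {f g : ℚ⟦X⟧} {v w : ℂ} (hf : Ev z f v) (hg : Ev z g w) :
    Ev z (f * g) (v * w) := by
  have h := specEval.2.1 f g z hf.1 hg.1
  exact ⟨h.2.2, by rw [h.2.1, hf.2, hg.2]⟩

theorem Ev.const (z : ℂ) (c : ℚ) : Ev z (PowerSeries.C c) c := by
  have h := specEval.2.2.1 (C c) z
  rw [Polynomial.coe_C] at h
  refine ⟨h.1, ?_⟩
  rw [h.2, aeval_C]
  rfl

theorem Ev.pow {z : ℂ} {f : ℚ⟦X⟧} {v : ℂ} (hf : Ev z f v) (n : ℕ) : Ev z (f ^ n) (v ^ n) := by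
  induction n with
  | zero =>
    rw [pow_zero, pow_zero]
    simpa using Ev.const z 1
  | succ n ih =>
    rw [pow_succ, pow_succ]
    exact ih.mul hf

theorem Ev.sum {z : ℂ} {I : Type} (s : Finset I) {f : I → ℚ⟦X⟧} {v : I → ℂ}
    (h : ∀ i, Ev z (f i) (v i)) : Ev z (∑ i ∈ s, f i) (∑ i ∈ s, v i) := by
  classical
  induction s using Finset.induction_on with
  | empty =>
    rw [Finset.sum_empty, Finset.sum_empty]
    simpa using Ev.const z 0
  | insert a s ha ih =>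
    rw [Finset.sum_insert ha, Finset.sum_insert ha]
    exact (h a).add ih

/-- the power series `log (1 + m x)` -/
noncomputable def lg (m : ℕ) : ℚ⟦X⟧ := PowerSeries.mk fun n => (-1) ^ (n + 1) * (m : ℚ) ^ n / n

theorem lg_ode (m : ℕ) : ox m * PowerSeries.derivative ℚ (lg m) = PowerSeries.C (m : ℚ) := by
  ext a
  rw [ox, add_mul, one_mul, mul_assoc, map_add, PowerSeries.coeff_C_mul, coeff_X_deriv,
    PowerSeries.coeff_derivative, PowerSeries.coeff_C]
  simp only [lg, PowerSeries.coeff_mk]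
  rcases Nat.eq_zero_or_pos a with ha | ha
  · subst ha
    simp
  · have h1 : (a : ℚ) ≠ 0 := by exact_mod_cast ha.ne'
    have h2 : (a : ℚ) + 1 ≠ 0 := by positivity
    rw [if_neg ha.ne']
    push_cast
    field_simp
    ring

theorem lg_zero (m : ℕ) : PowerSeries.constantCoeff (lg m) = 0 := by
  rw [← PowerSeries.coeff_zero_eq_constantCoeff_apply, lg, PowerSeries.coeff_mk]
  simp

theorem lg_ev (m : ℕ) {z : ℂ} (hz : m * ‖z‖ < 1) : Ev z (lg m) (Complex.log (1 + m * z)) := by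
  have h1 : ‖(m : ℂ) * z‖ < 1 := by
    rwa [norm_mul, Complex.norm_natCast]
  have h2 := Complex.hasSum_taylorSeries_log h1
  have h3 : (fun n : ℕ => (-1 : ℂ) ^ (n + 1) * ((m : ℂ) * z) ^ n / n) =
      fun k => ((PowerSeries.coeff k (lg m) : ℚ) : ℂ) * z ^ k := by
    funext n
    rw [lg, PowerSeries.coeff_mk]
    push_cast
    ring
  rw [h3] at h2
  exact ⟨h2.summable.norm, h2.tsum_eq⟩

omit [DecidableEq ι] in
theorem MC_mul (A B : Matrix ι ι ℚ) : MC (A * B) = MC A * MC B := Matrix.map_mul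

/-- the coefficients of the exponential -/
noncomputable def uf (m n : ℕ) : ℚ⟦X⟧ := PowerSeries.C ((n.factorial : ℚ)⁻¹) * (-lg m) ^ n

theorem uf_ode (m n : ℕ) :
    ox m * PowerSeries.derivative ℚ (uf m (n + 1)) = -(PowerSeries.C (m : ℚ) * uf m n) := by
  have h1 : PowerSeries.derivative ℚ (uf m (n + 1)) =
      PowerSeries.C (((n + 1).factorial : ℚ)⁻¹) * (((n + 1 : ℕ) : ℚ⟦X⟧) * (-lg m) ^ n *
        -PowerSeries.derivative ℚ (lg m)) := by
    rw [uf, Derivation.leibniz, PowerSeries.derivative_C, smul_zero, add_zero, smul_eq_mul,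
      PowerSeries.derivative_pow, map_neg, Nat.add_sub_cancel]
  have h2 : (PowerSeries.C (((n + 1).factorial : ℚ)⁻¹) : ℚ⟦X⟧) * ((n + 1 : ℕ) : ℚ⟦X⟧) =
      PowerSeries.C ((n.factorial : ℚ)⁻¹) := by
    rw [← map_natCast (PowerSeries.C : ℚ →+* ℚ⟦X⟧), ← map_mul]
    congr 1
    rw [Nat.factorial_succ]
    push_cast
    have h3 : ((n : ℚ) + 1) ≠ 0 := by positivity
    have h4 : (n.factorial : ℚ) ≠ 0 := by positivity
    field_simp
  calc ox m * PowerSeries.derivative ℚ (uf m (n + 1)) =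
      -((PowerSeries.C (((n + 1).factorial : ℚ)⁻¹) * ((n + 1 : ℕ) : ℚ⟦X⟧)) * (-lg m) ^ n *
        (ox m * PowerSeries.derivative ℚ (lg m))) := by rw [h1]; ring
    _ = _ := by rw [h2, lg_ode, uf]; ring

theorem uf_zero (m : ℕ) : uf m 0 = 1 := by
  simp [uf]

theorem uf_const (m n : ℕ) : PowerSeries.constantCoeff (uf m (n + 1)) = 0 := by
  rw [uf, map_mul, map_pow, map_neg, lg_zero, neg_zero, zero_pow (Nat.succ_ne_zero n), mul_zero]

/-- the formal exponential `exp (- log (1 + m x) N)` -/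
noncomputable def ef (m ν : ℕ) (N : Matrix ι ι ℚ) : Matrix ι ι ℚ⟦X⟧ :=
  ∑ n ∈ Finset.range ν, uf m n • MC (N ^ n)

theorem dM_ef (m ν : ℕ) (N : Matrix ι ι ℚ) :
    dM (ef m ν N) = ∑ n ∈ Finset.range ν, PowerSeries.derivative ℚ (uf m n) • MC (N ^ n) := by
  ext1 i j
  simp only [dM, ef, map_apply, Matrix.sum_apply, Matrix.smul_apply, smul_eq_mul, map_sum,
    Derivation.leibniz, PowerSeries.derivative_C, smul_zero, add_zero, mul_zero, zero_add]
  exact Finset.sum_congr rfl fun k _ => by rw [mul_comm]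

theorem ef_ode {m ν : ℕ} {N : Matrix ι ι ℚ} (hN : N ^ ν = 0) :
    ox m • dM (ef m ν N) = -(PowerSeries.C (m : ℚ) • (MC N * ef m ν N)) := by
  set g : ℕ → Matrix ι ι ℚ⟦X⟧ :=
    fun n => (ox m * PowerSeries.derivative ℚ (uf m n)) • MC (N ^ n) with hg
  have h0 : g 0 = 0 := by
    rw [hg]
    simp only [uf_zero]
    rw [PowerSeries.derivative_one, mul_zero, zero_smul]
  have h1 : ∀ n, g (n + 1) = -(PowerSeries.C (m : ℚ) • (uf m n • (MC N * MC (N ^ n)))) := by
    intro n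
    rw [hg]
    simp only
    rw [uf_ode, neg_smul, pow_succ', MC_mul, mul_smul]
  have h2 : g ν = 0 := by
    rw [hg]
    simp only
    rw [hN, show MC (0 : Matrix ι ι ℚ) = 0 by ext1 i j; simp [MC], smul_zero]
  have h3 : ∑ n ∈ Finset.range ν, g n = ∑ n ∈ Finset.range ν, g (n + 1) := by
    have h4 := Finset.sum_range_succ g ν
    rw [Finset.sum_range_succ' g ν, h0, h2, add_zero, add_zero] at h4
    exact h4.symm
  rw [dM_ef, Finset.smul_sum]
  simp only [smul_smul]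
  change ∑ n ∈ Finset.range ν, g n = _
  rw [h3, ef, Finset.mul_sum, Finset.smul_sum, ← Finset.sum_neg_distrib]
  refine Finset.sum_congr rfl fun n _ => ?_
  rw [h1, Matrix.mul_smul]

theorem ef_zero {m ν : ℕ} {N : Matrix ι ι ℚ} (i j : ι) :
    PowerSeries.constantCoeff (ef m (ν + 1) N i j) = (1 : Matrix ι ι ℚ) i j := by
  rw [ef, Matrix.sum_apply, map_sum, Finset.sum_range_succ']
  simp only [Matrix.smul_apply, smul_eq_mul, map_mul, uf_const, zero_mul, Finset.sum_const_zero,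
    zero_add, uf_zero, map_one, one_mul, pow_zero, map_apply, PowerSeries.constantCoeff_C]

theorem cx_pow (N : Matrix ι ι ℚ) (n : ℕ) : cx (N ^ n) = cx N ^ n := by
  have h1 : ∀ M : Matrix ι ι ℚ, cx M = (algebraMap ℚ ℂ).mapMatrix M := fun M => rfl
  rw [h1, h1, map_pow]

theorem val (m : ℕ) {N : Matrix ι ι ℚ} (hN : IsNilpotent N) {z : ℂ} (hz : m * ‖z‖ < 1) :
    vm (pm m N) z = NormedSpace.exp (-(Complex.log (1 + m * z)) • cx N) := by
  obtain ⟨ν, hν⟩ := hN
  have hν' : N ^ (ν + 1) = 0 := by rw [pow_succ, hν, zero_mul]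
  have hc : cx N ^ (ν + 1) = 0 := by
    rw [← cx_pow, hν']
    ext1 i j
    simp [cx]
  rw [← eq_pm (ef_ode (m := m) hν') (fun i j => ef_zero i j), ExqM.exp_nil hc]
  ext1 i j
  rw [Matrix.sum_apply]
  have h1 : Ev z (ef m (ν + 1) N i j) (∑ n ∈ Finset.range (ν + 1),
      ((((n.factorial : ℚ)⁻¹ : ℚ) : ℂ) * (((-1 : ℚ) : ℂ) * Complex.log (1 + m * z)) ^ n) *
        ((N ^ n) i j : ℚ)) := by
    rw [ef, Matrix.sum_apply]
    refine Ev.sum _ fun n => ?_
    rw [Matrix.smul_apply, smul_eq_mul, uf]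
    change Ev z (PowerSeries.C _ * (-lg m) ^ n * PowerSeries.C ((N ^ n) i j)) _
    refine Ev.mul (Ev.mul (Ev.const z _) ?_) (Ev.const z _)
    have h2 : -lg m = PowerSeries.C (-1) * lg m := by
      rw [map_neg, map_one, neg_one_mul]
    rw [h2]
    exact ((Ev.const z _).mul (lg_ev m hz)).pow n
  show pval (ef m (ν + 1) N i j) z = _
  rw [h1.2]
  refine Finset.sum_congr rfl fun n _ => ?_
  rw [Matrix.smul_apply, smul_eq_mul, ← cx_pow]
  have h3 : cx (N ^ n) i j = (((N ^ n) i j : ℚ) : ℂ) := rfl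
  rw [h3]
  push_cast
  ring

end PnmM

open PnmM in
theorem specPnm (hBnm : SpecBnm) : SpecPnm := by
  intro ι _ _ m N
  refine ⟨fun i j => pm_ode m N i j, pm_comm m N, fun ψ₀ h => pm_form m h, pm_det m N,
    pm_at_zero N, fun hN => ⟨isG hBnm m hN, fun z hz => val m hN hz⟩⟩

end Pool.Agent.Lib.MPf11a48.CG
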