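import Pool.Agent.Lib.MP_f11a48_ag.CG.SpecA

/-!
# The substitution of `x / (1 + m x)`
-/

set_option autoImplicit false

namespace Pool.Agent.Lib.MPf11a48.CG

open Polynomial Matrix
open scoped PowerSeries
open Pool.Agent.Lib.MPf11a48.GF

namespace TrfM

/-- `1 + m x` -/
noncomputable def um (m : ℕ) : ℚ⟦X⟧ := 1 + PowerSeries.C (m : ℚ) * PowerSeries.X

/-- `x / (1 + m x)` -/
noncomputable def ph (m : ℕ) : ℚ⟦X⟧ := PowerSeries.X * (um m)⁻¹

lemma um_const (m : ℕ) : PowerSeries.constantCoeff (um m) = 1 := by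
  simp [um]

lemma um_ne (m : ℕ) : um m ≠ 0 := by
  intro h
  have := um_const m
  rw [h] at this
  simp at this

lemma um_ph (m : ℕ) : um m * ph m = PowerSeries.X := by
  have h : um m * (um m)⁻¹ = 1 := PowerSeries.mul_inv_cancel _ (by rw [um_const]; exact one_ne_zero)
  unfold ph
  calc um m * (PowerSeries.X * (um m)⁻¹) = PowerSeries.X * (um m * (um m)⁻¹) := by ring
    _ = PowerSeries.X := by rw [h, mul_one]

lemma ph_const (m : ℕ) : PowerSeries.constantCoeff (ph m) = 0 := by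
  simp [ph]

lemma hs (m : ℕ) : PowerSeries.HasSubst (ph m) :=
  PowerSeries.HasSubst.of_constantCoeff_zero' (ph_const m)

lemma trf_eq (m : ℕ) (f : ℚ⟦X⟧) : trf m f = PowerSeries.substAlgHom (R := ℚ) (hs m) f := by
  rw [PowerSeries.coe_substAlgHom]
  rfl

lemma trf_add (m : ℕ) (f g : ℚ⟦X⟧) : trf m (f + g) = trf m f + trf m g := by
  simp only [trf_eq, map_add]

lemma trf_mul (m : ℕ) (f g : ℚ⟦X⟧) : trf m (f * g) = trf m f * trf m g := by
  simp only [trf_eq, map_mul]

lemma trf_pow (m : ℕ) (f : ℚ⟦X⟧) (n : ℕ) : trf m (f ^ n) = trf m f ^ n := by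
  simp only [trf_eq, map_pow]

lemma trf_sum (m : ℕ) {ι : Type*} (s : Finset ι) (f : ι → ℚ⟦X⟧) :
    trf m (∑ i ∈ s, f i) = ∑ i ∈ s, trf m (f i) := by
  simp only [trf_eq, map_sum]

lemma trf_C (m : ℕ) (q : ℚ) : trf m (PowerSeries.C q) = PowerSeries.C q := by
  have h := (PowerSeries.substAlgHom (R := ℚ) (hs m)).commutes q
  rw [← trf_eq] at h
  exact h

lemma trf_X (m : ℕ) : trf m PowerSeries.X = ph m := by
  rw [trf_eq, PowerSeries.substAlgHom_X]

lemma trf_zero (f : ℚ⟦X⟧) : trf 0 f = f := by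
  have h : ph 0 = PowerSeries.X := by
    have := um_ph 0
    simpa [um] using this
  have h2 : trf 0 f = PowerSeries.subst (ph 0) f := rfl
  rw [h2, h]
  exact PowerSeries.X_subst f

lemma trf_const (m : ℕ) (f : ℚ⟦X⟧) :
    PowerSeries.constantCoeff (trf m f) = PowerSeries.constantCoeff f := by
  have h : f = PowerSeries.C (PowerSeries.constantCoeff f) +
      PowerSeries.X * PowerSeries.mk (fun p => PowerSeries.coeff (p + 1) f) := by
    conv_lhs => rw [PowerSeries.eq_X_mul_shift_add_const f]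
    ring
  conv_lhs => rw [h]
  rw [trf_add, trf_mul, trf_C, trf_X]
  simp [ph_const]

lemma trf_inj (m : ℕ) (f : ℚ⟦X⟧) (h : trf m f = 0) : f = 0 := by
  by_contra hf
  obtain ⟨n, u, hu, hfu⟩ : ∃ (n : ℕ) (u : ℚ⟦X⟧), PowerSeries.constantCoeff u ≠ 0 ∧
      f = PowerSeries.X ^ n * u := by
    refine ⟨f.order.toNat, PowerSeries.divXPowOrder f, ?_, ?_⟩
    · rw [PowerSeries.constantCoeff_divXPowOrder]
      exact PowerSeries.coeff_order hf
    · exact (PowerSeries.X_pow_order_mul_divXPowOrder).symm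
  rw [hfu, trf_mul, trf_pow, trf_X] at h
  rcases mul_eq_zero.mp h with h1 | h1
  · have h3 : ph m = 0 := by
      by_contra hne
      exact pow_ne_zero n hne h1
    have := um_ph m
    rw [h3, mul_zero] at this
    exact PowerSeries.X_ne_zero this.symm
  · apply hu
    rw [← trf_const m u, h1, map_zero]

lemma trf_deriv (m : ℕ) (f : ℚ⟦X⟧) : um m ^ 2 * PowerSeries.derivative ℚ (trf m f) =
    trf m (PowerSeries.derivative ℚ f) := by
  have h1 : PowerSeries.derivative ℚ (trf m f) =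
      trf m (PowerSeries.derivative ℚ f) * PowerSeries.derivative ℚ (ph m) :=
    PowerSeries.derivative_subst (hs m)
  have h2 : um m ^ 2 * PowerSeries.derivative ℚ (ph m) = 1 := by
    have h3 := congrArg (PowerSeries.derivative ℚ) (um_ph m)
    have h4 : PowerSeries.derivative ℚ (um m) = PowerSeries.C (m : ℚ) := by
      simp only [um, map_add, Derivation.leibniz, PowerSeries.derivative_C,
        PowerSeries.derivative_X, Derivation.map_one_eq_zero, smul_eq_mul]
      ring
    rw [Derivation.leibniz, PowerSeries.derivative_X, h4, smul_eq_mul, smul_eq_mul] at h3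
    have h5 := um_ph m
    calc um m ^ 2 * PowerSeries.derivative ℚ (ph m) =
        um m * (um m * PowerSeries.derivative ℚ (ph m)) := by ring
      _ = um m * (1 - ph m * PowerSeries.C (m : ℚ)) := by rw [← h3]; ring
      _ = um m - (um m * ph m) * PowerSeries.C (m : ℚ) := by ring
      _ = 1 := by rw [h5, um]; ring
  rw [h1]
  calc um m ^ 2 * (trf m (PowerSeries.derivative ℚ f) * PowerSeries.derivative ℚ (ph m)) =
      trf m (PowerSeries.derivative ℚ f) * (um m ^ 2 * PowerSeries.derivative ℚ (ph m)) := by ring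
    _ = _ := by rw [h2, mul_one]

lemma trf_poly (m : ℕ) (p : ℚ[X]) (e : ℕ) (he : p.natDegree ≤ e) :
    um m ^ e * trf m (p : ℚ⟦X⟧) =
      ((∑ i ∈ Finset.range (e + 1), C (p.coeff i) * X ^ i * (1 + C (m : ℚ) * X) ^ (e - i) : ℚ[X]) :
        ℚ⟦X⟧) := by
  have h1 : (p : ℚ⟦X⟧) = ∑ i ∈ Finset.range (e + 1),
      PowerSeries.C (p.coeff i) * PowerSeries.X ^ i := by
    conv_lhs => rw [p.as_sum_range' (e + 1) (Nat.lt_succ_of_le he)]
    rw [← Polynomial.coeToPowerSeries.ringHom_apply, map_sum]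
    apply Finset.sum_congr rfl
    intro i _
    rw [Polynomial.coeToPowerSeries.ringHom_apply, ← Polynomial.C_mul_X_pow_eq_monomial,
      Polynomial.coe_mul, Polynomial.coe_C, Polynomial.coe_pow, Polynomial.coe_X]
  rw [h1, trf_sum, Finset.mul_sum, ← Polynomial.coeToPowerSeries.ringHom_apply, map_sum]
  apply Finset.sum_congr rfl
  intro i hi
  have hi' : i ≤ e := Nat.lt_succ_iff.mp (Finset.mem_range.mp hi)
  rw [trf_mul, trf_C, trf_pow, trf_X, Polynomial.coeToPowerSeries.ringHom_apply,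
    Polynomial.coe_mul, Polynomial.coe_mul, Polynomial.coe_pow, Polynomial.coe_pow,
    Polynomial.coe_add, Polynomial.coe_mul, Polynomial.coe_C, Polynomial.coe_C, Polynomial.coe_X,
    Polynomial.coe_one]
  have h2 : um m ^ e = um m ^ (e - i) * um m ^ i := by
    rw [← pow_add, Nat.sub_add_cancel hi']
  have h3 : um m ^ i * ph m ^ i = PowerSeries.X ^ i := by
    rw [← mul_pow, um_ph]
  have h4 : (1 + PowerSeries.C (m : ℚ) * PowerSeries.X : ℚ⟦X⟧) = um m := rfl
  rw [h4, h2]
  calc um m ^ (e - i) * um m ^ i * (PowerSeries.C (p.coeff i) * ph m ^ i) =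
      PowerSeries.C (p.coeff i) * (um m ^ i * ph m ^ i) * um m ^ (e - i) := by ring
    _ = _ := by rw [h3]

/-- the coefficients of the powers of `x / (1 + m x)` -/
noncomputable def cf (m j k : ℕ) : ℚ := PowerSeries.coeff k (ph m ^ j)

lemma cf_zero_zero (m : ℕ) : cf m 0 0 = 1 := by
  simp [cf]

lemma cf_zero_succ (m k : ℕ) : cf m 0 (k + 1) = 0 := by
  simp [cf, PowerSeries.coeff_one]

lemma cf_succ_zero (m j : ℕ) : cf m (j + 1) 0 = 0 := by
  unfold cf
  rw [PowerSeries.coeff_zero_eq_constantCoeff_apply, map_pow, ph_const, zero_pow (Nat.succ_ne_zero j)]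

lemma cf_succ_succ (m j k : ℕ) : cf m (j + 1) (k + 1) = cf m j k - m * cf m (j + 1) k := by
  have h : ph m ^ (j + 1) + PowerSeries.C (m : ℚ) * (PowerSeries.X * ph m ^ (j + 1)) =
      PowerSeries.X * ph m ^ j := by
    calc ph m ^ (j + 1) + PowerSeries.C (m : ℚ) * (PowerSeries.X * ph m ^ (j + 1)) =
        (um m * ph m) * ph m ^ j := by rw [um]; ring
      _ = _ := by rw [um_ph]
  have h1 := congrArg (PowerSeries.coeff (k + 1)) h
  rw [map_add, PowerSeries.coeff_C_mul, PowerSeries.coeff_succ_X_mul,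
    PowerSeries.coeff_succ_X_mul] at h1
  unfold cf
  linarith

lemma cf_int (m : ℕ) : ∀ k j, ∃ z : ℤ, cf m j k = z := by
  intro k
  induction k with
  | zero =>
    intro j
    cases j with
    | zero => exact ⟨1, by rw [cf_zero_zero]; simp⟩
    | succ j => exact ⟨0, by rw [cf_succ_zero]; simp⟩
  | succ k ih =>
    intro j
    cases j with
    | zero => exact ⟨0, by rw [cf_zero_succ]; simp⟩
    | succ j =>
      obtain ⟨z1, h1⟩ := ih j
      obtain ⟨z2, h2⟩ := ih (j + 1)
      exact ⟨z1 - m * z2, by rw [cf_succ_succ, h1, h2]; push_cast; ring⟩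

lemma cf_tri (m : ℕ) : ∀ k j, k < j → cf m j k = 0 := by
  intro k
  induction k with
  | zero =>
    intro j hj
    obtain ⟨j', rfl⟩ := Nat.exists_eq_succ_of_ne_zero (Nat.pos_iff_ne_zero.mp hj)
    exact cf_succ_zero m j'
  | succ k ih =>
    intro j hj
    obtain ⟨j', rfl⟩ := Nat.exists_eq_succ_of_ne_zero (Nat.ne_of_gt (lt_of_le_of_lt (Nat.zero_le _) hj))
    have h1 : k < j' := by omega
    rw [Nat.succ_eq_add_one, cf_succ_succ, ih j' h1, ih (j' + 1) (by omega)]
    simp

lemma cf_abs (m : ℕ) : ∀ k j, |cf m j k| ≤ (m + 1 : ℚ) ^ k := by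
  intro k
  induction k with
  | zero =>
    intro j
    cases j with
    | zero => rw [cf_zero_zero]; simp
    | succ j => rw [cf_succ_zero]; simp
  | succ k ih =>
    intro j
    cases j with
    | zero => rw [cf_zero_succ, abs_zero]; positivity
    | succ j =>
      rw [cf_succ_succ]
      calc |cf m j k - m * cf m (j + 1) k| ≤ |cf m j k| + |m * cf m (j + 1) k| := abs_sub _ _
        _ = |cf m j k| + m * |cf m (j + 1) k| := by
          rw [abs_mul, Nat.abs_cast]
        _ ≤ (m + 1 : ℚ) ^ k + m * (m + 1 : ℚ) ^ k :=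
          add_le_add (ih j) (mul_le_mul_of_nonneg_left (ih (j + 1)) (Nat.cast_nonneg m))
        _ = (m + 1 : ℚ) ^ (k + 1) := by ring

lemma coeff_trf (m : ℕ) (f : ℚ⟦X⟧) (k : ℕ) :
    PowerSeries.coeff k (trf m f) =
      ∑ j ∈ Finset.range (k + 1), PowerSeries.coeff j f * cf m j k := by
  obtain ⟨h, hh⟩ : ∃ h : ℚ⟦X⟧, f = ∑ j ∈ Finset.range (k + 1),
      PowerSeries.C (PowerSeries.coeff j f) * PowerSeries.X ^ j + PowerSeries.X ^ (k + 1) * h := by
    have h1 : PowerSeries.X ^ (k + 1) ∣ f - ∑ j ∈ Finset.range (k + 1),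
        PowerSeries.C (PowerSeries.coeff j f) * PowerSeries.X ^ j := by
      rw [PowerSeries.X_pow_dvd_iff]
      intro n hn
      rw [map_sub, map_sum]
      simp only [PowerSeries.coeff_C_mul, PowerSeries.coeff_X_pow, mul_ite, mul_one, mul_zero]
      rw [Finset.sum_ite_eq]
      simp [hn]
    obtain ⟨h, hh⟩ := h1
    exact ⟨h, by rw [← hh]; ring⟩
  conv_lhs => rw [hh]
  rw [trf_add, trf_sum, map_add, map_sum]
  have h2 : PowerSeries.coeff k (trf m (PowerSeries.X ^ (k + 1) * h)) = 0 := by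
    rw [trf_mul, trf_pow, trf_X]
    have h3 : (PowerSeries.X : ℚ⟦X⟧) ^ (k + 1) ∣ ph m ^ (k + 1) * trf m h := by
      refine Dvd.dvd.mul_right (pow_dvd_pow_of_dvd ?_ _) _
      exact ⟨(um m)⁻¹, rfl⟩
    exact PowerSeries.X_pow_dvd_iff.mp h3 k (Nat.lt_succ_self k)
  rw [h2, add_zero]
  apply Finset.sum_congr rfl
  intro j _
  rw [trf_mul, trf_C, trf_pow, trf_X, PowerSeries.coeff_C_mul]
  rfl

lemma isG_trf (m : ℕ) (μ : Type) (u : μ → ℚ⟦X⟧) (hu : IsG u) : IsG fun i => trf m (u i) := by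
  obtain ⟨C, hC⟩ := hu
  refine ⟨2 * (C + 1) * (m + 1), fun n => ?_⟩
  obtain ⟨q, hq0, hq1, hq2, -⟩ := hC n
  refine ⟨q, hq0, ?_, ?_, ?_⟩
  · refine hq1.trans (Nat.pow_le_pow_left ?_ _)
    nlinarith [Nat.zero_le C, Nat.zero_le m, Nat.zero_le (C * m)]
  · intro i k hk
    have h1 : ∀ j ∈ Finset.range (k + 1), ∃ z : ℤ,
        (q : ℚ) * (PowerSeries.coeff j (u i) * cf m j k) = z := by
      intro j hj
      obtain ⟨z1, h1⟩ := hq2 i j (by have := Finset.mem_range.mp hj; omega)
      obtain ⟨z2, h2⟩ := cf_int m k j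
      exact ⟨z1 * z2, by rw [← mul_assoc, h1, h2]; push_cast; ring⟩
    choose! z hz using h1
    refine ⟨∑ j ∈ Finset.range (k + 1), z j, ?_⟩
    rw [coeff_trf, Finset.mul_sum, Int.cast_sum]
    exact Finset.sum_congr rfl hz
  · intro i
    rw [coeff_trf]
    have hCC : ∀ j ≤ n, |PowerSeries.coeff j (u i)| ≤ ((C : ℚ) + 1) ^ (n + 1) := by
      intro j hj
      obtain ⟨_, _, _, _, h⟩ := hC j
      have hC1 : (C : ℚ) ≤ C + 1 := by linarith
      have hC2 : (1 : ℚ) ≤ C + 1 := by linarith [Nat.cast_nonneg (α := ℚ) C]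
      refine (h i).trans ((pow_le_pow_left₀ (Nat.cast_nonneg C) hC1 _).trans ?_)
      exact pow_le_pow_right₀ hC2 (by omega)
    calc |∑ j ∈ Finset.range (n + 1), PowerSeries.coeff j (u i) * cf m j n|
        ≤ ∑ j ∈ Finset.range (n + 1), |PowerSeries.coeff j (u i) * cf m j n| :=
          Finset.abs_sum_le_sum_abs _ _
      _ ≤ ∑ j ∈ Finset.range (n + 1), ((C : ℚ) + 1) ^ (n + 1) * (m + 1 : ℚ) ^ n := by
          apply Finset.sum_le_sum
          intro j hj
          rw [abs_mul]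
          exact mul_le_mul (hCC j (by have := Finset.mem_range.mp hj; omega)) (cf_abs m n j)
            (abs_nonneg _) (by positivity)
      _ = (n + 1 : ℕ) * (((C : ℚ) + 1) ^ (n + 1) * (m + 1 : ℚ) ^ n) := by
          rw [Finset.sum_const, Finset.card_range, nsmul_eq_mul]
      _ ≤ (2 : ℚ) ^ (n + 1) * (((C : ℚ) + 1) ^ (n + 1) * (m + 1 : ℚ) ^ (n + 1)) := by
          refine mul_le_mul ?_ (mul_le_mul_of_nonneg_left ?_ (by positivity)) (by positivity)
            (by positivity)
          · exact_mod_cast (Nat.lt_two_pow_self (n := n + 1)).le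
          · exact pow_le_pow_right₀ (by linarith [Nat.cast_nonneg (α := ℚ) m]) (by omega)
      _ = ((2 * (C + 1) * (m + 1) : ℕ) : ℚ) ^ (n + 1) := by
          push_cast
          rw [mul_pow, mul_pow]
          ring

/-- the sum of the power series with the coefficients `cf m j k` -/
lemma hasSum_cf (m : ℕ) (z : ℂ) (hz : (m + 1) * ‖z‖ < 1) (j : ℕ) :
    HasSum (fun k => ((cf m j k : ℚ) : ℂ) * z ^ k) ((z / (1 + m * z)) ^ j) := by
  have hmz : ‖(m : ℂ) * z‖ < 1 := by
    rw [norm_mul, Complex.norm_natCast]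
    nlinarith [norm_nonneg z]
  have hne : (1 + m * z : ℂ) ≠ 0 := by
    intro h
    have h1 : (m : ℂ) * z = -1 := by linear_combination h
    rw [h1, norm_neg, norm_one] at hmz
    exact lt_irrefl _ hmz
  have hsum : ∀ j, Summable (fun k => ((cf m j k : ℚ) : ℂ) * z ^ k) := by
    intro j
    apply Summable.of_norm
    refine Summable.of_nonneg_of_le (fun _ => norm_nonneg _) (fun k => ?_)
      (summable_geometric_of_lt_one (by positivity) hz)
    rw [norm_mul, norm_pow, mul_pow]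
    refine mul_le_mul_of_nonneg_right ?_ (by positivity)
    have h := cf_abs m k j
    have h2 : ((|cf m j k| : ℚ) : ℝ) ≤ (((m + 1 : ℚ) ^ k : ℚ) : ℝ) := by exact_mod_cast h
    have h3 : ‖((cf m j k : ℚ) : ℂ)‖ = ((|cf m j k| : ℚ) : ℝ) := by
      rw [← Complex.ofReal_ratCast, Complex.norm_real, Real.norm_eq_abs]
      push_cast
      rfl
    rw [h3]
    refine h2.trans (le_of_eq ?_)
    push_cast
    rfl
  have hval : ∀ j, ∑' k, ((cf m j k : ℚ) : ℂ) * z ^ k = (z / (1 + m * z)) ^ j := by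
    intro j
    induction j with
    | zero =>
      rw [pow_zero, (hsum 0).tsum_eq_zero_add]
      simp [cf_zero_zero, cf_zero_succ]
    | succ j ih =>
      have h1 : ∑' k, ((cf m (j + 1) k : ℚ) : ℂ) * z ^ k =
          z * (z / (1 + m * z)) ^ j -
            m * z * ∑' k, ((cf m (j + 1) k : ℚ) : ℂ) * z ^ k := by
        conv_lhs => rw [(hsum (j + 1)).tsum_eq_zero_add]
        rw [cf_succ_zero, ← ih, ← tsum_mul_left, ← tsum_mul_left,
          ← Summable.tsum_sub ((hsum j).mul_left z) ((hsum (j + 1)).mul_left _)]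
        rw [Rat.cast_zero, zero_mul, zero_add]
        apply tsum_congr
        intro k
        rw [cf_succ_succ]
        push_cast
        ring
      have h2 : (1 + m * z) * ∑' k, ((cf m (j + 1) k : ℚ) : ℂ) * z ^ k =
          z * (z / (1 + m * z)) ^ j := by
        linear_combination h1
      rw [pow_succ, mul_div_assoc', eq_div_iff hne, mul_comm _ (1 + (m : ℂ) * z), h2]
      ring
  rw [← hval j]
  exact (hsum j).hasSum

lemma pval_trf (m C : ℕ) (f : ℚ⟦X⟧) (hf : ∀ n, |PowerSeries.coeff n f| ≤ (C : ℚ) ^ (n + 1))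
    (z : ℂ) (r : ℝ) (hr0 : 0 ≤ r) (hr1 : r < 1) (hrC : C * r < 1) (hz : (m + 1) * ‖z‖ ≤ r ^ 2) :
    pval (trf m f) z = pval f (z / (1 + m * z)) := by
  have hz1 : (m + 1) * ‖z‖ < 1 := by nlinarith
  have habs : ∀ q : ℚ, ‖(q : ℂ)‖ = ((|q| : ℚ) : ℝ) := by
    intro q
    rw [← Complex.ofReal_ratCast, Complex.norm_real, Real.norm_eq_abs]
    push_cast
    rfl
  -- the double series
  let F : ℕ × ℕ → ℂ := fun p => ((PowerSeries.coeff p.1 f : ℚ) : ℂ) * (((cf m p.1 p.2 : ℚ) : ℂ) * z ^ p.2)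
  have hF : Summable F := by
    apply Summable.of_norm
    have hg : Summable fun p : ℕ × ℕ => ((C : ℝ) * ((C * r) ^ p.1)) * (r ^ p.2) := by
      refine Summable.mul_of_nonneg (f := fun n : ℕ => (C : ℝ) * ((C * r) ^ n))
        (g := fun n : ℕ => r ^ n) ?_ ?_ ?_ ?_
      · exact (summable_geometric_of_lt_one (by positivity) hrC).mul_left _
      · exact summable_geometric_of_lt_one hr0 hr1
      · intro n; positivity
      · intro n; positivity
    refine Summable.of_nonneg_of_le (fun _ => norm_nonneg _) (fun p => ?_) hg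
    obtain ⟨j, k⟩ := p
    simp only [F]
    by_cases hjk : k < j
    · rw [cf_tri m k j hjk]
      simp only [Rat.cast_zero, zero_mul, mul_zero, norm_zero]
      positivity
    · rw [norm_mul, norm_mul, norm_pow, habs, habs]
      have h1 : ((|PowerSeries.coeff j f| : ℚ) : ℝ) ≤ (C : ℝ) ^ (j + 1) := by
        have := hf j
        have h2 : ((|PowerSeries.coeff j f| : ℚ) : ℝ) ≤ (((C : ℚ) ^ (j + 1) : ℚ) : ℝ) := by
          exact_mod_cast this
        refine h2.trans (le_of_eq ?_)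
        push_cast
        rfl
      have h2 : ((|cf m j k| : ℚ) : ℝ) * ‖z‖ ^ k ≤ r ^ (j + k) := by
        have h3 : ((|cf m j k| : ℚ) : ℝ) ≤ ((m : ℝ) + 1) ^ k := by
          have h := cf_abs m k j
          have h2 : ((|cf m j k| : ℚ) : ℝ) ≤ (((m + 1 : ℚ) ^ k : ℚ) : ℝ) := by exact_mod_cast h
          refine h2.trans (le_of_eq ?_)
          push_cast
          rfl
        calc ((|cf m j k| : ℚ) : ℝ) * ‖z‖ ^ k ≤ ((m : ℝ) + 1) ^ k * ‖z‖ ^ k :=
              mul_le_mul_of_nonneg_right h3 (by positivity)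
          _ = (((m : ℝ) + 1) * ‖z‖) ^ k := by rw [mul_pow]
          _ ≤ (r ^ 2) ^ k := pow_le_pow_left₀ (by positivity) hz k
          _ = r ^ (2 * k) := by rw [← pow_mul]
          _ ≤ r ^ (j + k) := pow_le_pow_of_le_one hr0 hr1.le (by omega)
      calc ((|PowerSeries.coeff j f| : ℚ) : ℝ) * (((|cf m j k| : ℚ) : ℝ) * ‖z‖ ^ k) ≤
          (C : ℝ) ^ (j + 1) * r ^ (j + k) := by
            refine mul_le_mul h1 h2 ?_ (by positivity)
            have : (0 : ℝ) ≤ ((|cf m j k| : ℚ) : ℝ) := by exact_mod_cast abs_nonneg _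
            positivity
        _ = (C : ℝ) * (C * r) ^ j * r ^ k := by
            rw [mul_pow, pow_add, pow_succ]
            ring
  -- the two iterated sums
  have h1 : ∑' j, ∑' k, F (j, k) = pval f (z / (1 + m * z)) := by
    unfold pval
    apply tsum_congr
    intro j
    simp only [F]
    rw [tsum_mul_left, (hasSum_cf m z hz1 j).tsum_eq]
  have h2 : ∑' k, ∑' j, F (j, k) = pval (trf m f) z := by
    unfold pval
    apply tsum_congr
    intro k
    rw [coeff_trf, tsum_eq_sum (s := Finset.range (k + 1))]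
    · simp only [F]
      push_cast
      rw [Finset.sum_mul]
      apply Finset.sum_congr rfl
      intro j _
      ring
    · intro j hj
      simp only [F]
      rw [cf_tri m k j (by have := mt Finset.mem_range.mpr hj; omega)]
      simp
  rw [← h1, ← h2]
  exact Summable.tsum_comm (f := fun j k => F (j, k)) hF

end TrfM

open TrfM

theorem specTrf : SpecTrf := by
  intro m
  refine ⟨fun f g => ⟨trf_add m f g, trf_mul m f g⟩, trf_C m, ?_, trf_inj m, ?_, trf_deriv m, ?_,
    ?_, ?_⟩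
  · rw [trf_X]
    exact um_ph m
  · rintro rfl f
    exact trf_zero f
  · intro p e he
    exact ⟨_, trf_poly m p e he⟩
  · intro p e he
    refine ⟨∑ i ∈ Finset.range (e + 1), C (p.coeff i) * X ^ i * (1 + C (m : ℤ) * X) ^ (e - i), ?_⟩
    have h1 : (zq p).natDegree ≤ e := (Polynomial.natDegree_map_le).trans he
    rw [show (1 + PowerSeries.C (m : ℚ) * PowerSeries.X : ℚ⟦X⟧) = um m from rfl,
      trf_poly m (zq p) e h1]
    congr 1
    simp [zq, Polynomial.map_sum, Polynomial.map_mul, Polynomial.map_pow]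
  · intro μ _ u hu
    refine ⟨isG_trf m μ u hu, ?_⟩
    obtain ⟨C, hC⟩ := hu
    refine ⟨4 * (C + 1) ^ 2 * (m + 1), fun a b ha hb i => ?_⟩
    have hCC : (1 : ℤ) ≤ ((4 * (C + 1) ^ 2 * (m + 1) : ℕ) : ℤ) := by
      have : 1 ≤ 4 * (C + 1) ^ 2 * (m + 1) := by
        have : 0 < 4 * (C + 1) ^ 2 * (m + 1) := by positivity
        omega
      exact_mod_cast this
    have ha1 : (1 : ℤ) ≤ |a| := Int.one_le_abs ha
    have hab : (((4 * (C + 1) ^ 2 * (m + 1) : ℕ) : ℤ)) * |a| ≤ b := by
      refine le_trans ?_ hb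
      refine mul_le_mul_of_nonneg_left ?_ (by omega)
      exact le_self_pow₀ ha1 (by positivity)
    have hb0 : (0 : ℤ) < b := by nlinarith
    have hbR : (0 : ℝ) < (b : ℝ) := by exact_mod_cast hb0
    have hb' : (b : ℂ) ≠ 0 := by
      have : b ≠ 0 := ne_of_gt hb0
      exact_mod_cast this
    have hnz : ‖((a : ℂ) / b)‖ = |(a : ℝ)| / b := by
      rw [norm_div]
      congr 1
      · rw [← Complex.ofReal_intCast, Complex.norm_real, Real.norm_eq_abs]
      · rw [← Complex.ofReal_intCast, Complex.norm_real, Real.norm_eq_abs, abs_of_pos hbR]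
    have hz : ((m : ℝ) + 1) * ‖((a : ℂ) / b)‖ ≤ (1 / (2 * ((C : ℝ) + 1))) ^ 2 := by
      rw [hnz, div_pow, one_pow, ← mul_div_assoc, div_le_div_iff₀ hbR (by positivity)]
      have : (((4 * (C + 1) ^ 2 * (m + 1) : ℕ) : ℝ)) * |(a : ℝ)| ≤ b := by
        exact_mod_cast hab
      push_cast at this
      nlinarith
    have hC0 : (0 : ℝ) ≤ C := Nat.cast_nonneg C
    have key := pval_trf m C (u i) (fun n => by obtain ⟨_, _, _, _, h⟩ := hC n; exact h i)
      ((a : ℂ) / b) (1 / (2 * ((C : ℝ) + 1))) (by positivity)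
      (by rw [div_lt_one (by positivity)]; linarith)
      (by rw [mul_one_div, div_lt_one (by positivity)]; linarith) hz
    rw [key]
    congr 1
    field_simp

end Pool.Agent.Lib.MPf11a48.CG
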