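import Pool.Agent.Lib.MP_f11a48_ag.CG.SpecA
import Pool.Agent.Lib.MP_f11a48_ag.CF.Mono

/-!
# Module VAL: the values of the translate of a family
-/

set_option autoImplicit false

namespace Pool.Agent.Lib.MPf11a48.CG.ValM

open Polynomial Matrix
open scoped PowerSeries
open Pool.Agent.Lib.MPf11a48.GF Pool.Agent.Lib.MPf11a48.GF.EstM
open Pool.Agent.Lib.MPf11a48.CF (vm)
open Pool.Agent.Lib.MPf11a48.CF.MonoM (mono sm_of)
open Pool.Agent.Lib.MPf11a48.K3 (cx)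

/-- the value of a product of matrices of power series -/
theorem vm_mul {ι : Type} [Fintype ι] {A B : Matrix ι ι ℚ⟦X⟧} {z : ℂ}
    (hA : ∀ p : ι × ι, Sm (A p.1 p.2) z) (hB : ∀ p : ι × ι, Sm (B p.1 p.2) z) :
    vm (A * B) z = vm A z * vm B z := by
  ext i j
  simp only [vm, Matrix.map_apply, Matrix.mul_apply]
  rw [pval_sum specEval Finset.univ fun k _ => (specEval.2.1 _ _ _ (hA (i, k)) (hB (k, j))).2.2]
  exact Finset.sum_congr rfl fun k _ => (specEval.2.1 _ _ _ (hA (i, k)) (hB (k, j))).2.1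

/-- `b` is large -/
theorem bounds {m : ℕ} {a b : ℤ} (ha : a ≠ 0)
    (hb : ((m + 1 : ℕ) : ℤ) * |a| ^ (m + 1) ≤ b) : 0 < b ∧ (m : ℤ) * |a| < b := by
  have h1 : 1 ≤ |a| := Int.one_le_abs ha
  have h2 : |a| ≤ |a| ^ (m + 1) := le_self_pow₀ h1 (by omega)
  have h3 : ((m + 1 : ℕ) : ℤ) * |a| ≤ b :=
    (mul_le_mul_of_nonneg_left h2 (by positivity)).trans hb
  push_cast at h3
  have h4 : 0 ≤ (m : ℤ) * |a| := by positivity
  constructor <;> nlinarith

/-- the logarithm of `a / (b + m a)` -/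
theorem log_eq {m : ℕ} {a b : ℤ} (ha : a ≠ 0) (hb : 0 < b) (hm : (m : ℤ) * |a| < b) :
    Complex.log ((a : ℂ) / (b + m * a)) =
      Complex.log ((a : ℂ) / b) - Complex.log (1 + m * ((a : ℂ) / b)) := by
  have hb' : (0 : ℝ) < b := by exact_mod_cast hb
  have hm' : (m : ℝ) * |(a : ℝ)| < b := by exact_mod_cast hm
  have hr : (0 : ℝ) < 1 + m * ((a : ℝ) / b) := by
    have h1 : -((m : ℝ) * |(a : ℝ)|) ≤ m * a := by
      have := neg_abs_le (a : ℝ)
      nlinarith [Nat.cast_nonneg (α := ℝ) m]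
    have h2 : (0 : ℝ) < b + m * a := by linarith
    have h3 : (1 : ℝ) + m * ((a : ℝ) / b) = (b + m * a) / b := by
      field_simp
    rw [h3]
    exact div_pos h2 hb'
  have hbc : (b : ℂ) ≠ 0 := by exact_mod_cast hb.ne'
  have hac : (a : ℂ) ≠ 0 := by exact_mod_cast ha
  have hz : (a : ℂ) / b ≠ 0 := div_ne_zero hac hbc
  have e1 : (1 : ℂ) + m * ((a : ℂ) / b) = ((1 + m * ((a : ℝ) / b) : ℝ) : ℂ) := by
    push_cast
    rfl
  have hrc : ((1 : ℂ) + m * ((a : ℂ) / b)) ≠ 0 := by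
    rw [e1]
    exact_mod_cast hr.ne'
  have e2 : (a : ℂ) / (b + m * a) =
      (((1 + m * ((a : ℝ) / b))⁻¹ : ℝ) : ℂ) * ((a : ℂ) / b) := by
    rw [Complex.ofReal_inv, ← e1]
    have h4 : (b : ℂ) + m * a = b * (1 + m * ((a : ℂ) / b)) := by
      field_simp
    rw [h4]
    field_simp
  rw [e2, Complex.log_ofReal_mul (inv_pos.2 hr) hz, e1, ← Complex.ofReal_log hr.le, Real.log_inv,
    Complex.ofReal_neg]
  ring

end Pool.Agent.Lib.MPf11a48.CG.ValM

namespace Pool.Agent.Lib.MPf11a48.CG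

open Polynomial Matrix
open scoped PowerSeries
open Pool.Agent.Lib.MPf11a48.GF Pool.Agent.Lib.MPf11a48.GF.EstM
open Pool.Agent.Lib.MPf11a48.CF (vm)
open Pool.Agent.Lib.MPf11a48.CF.MonoM (mono sm_of)
open Pool.Agent.Lib.MPf11a48.K3 (cx)

open ValM in
theorem specVal (hTrf : SpecTrf) (hPnm : SpecPnm) : SpecVal := by
  intro ι _ _ N Y m hN hY
  obtain ⟨-, -, -, -, -, -, -, -, hT⟩ := hTrf m
  obtain ⟨hT1, C0, hT2⟩ := hT (ι × ι) (fun v => Y v.1 v.2) hY
  obtain ⟨-, -, -, -, -, hP⟩ := hPnm ι m N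
  obtain ⟨hP1, hP2⟩ := hP hN
  obtain ⟨C1, hC1⟩ := sm_of hT1
  obtain ⟨C2, hC2⟩ := sm_of hP1
  refine ⟨C0 + C1 + C2 + (m + 1), fun a b ha hb => ?_⟩
  obtain ⟨hb0, hbm⟩ := bounds (m := m) ha (mono (by omega) ha hb)
  have k0 := hT2 a b ha (mono (by omega) ha hb)
  have k1 := hC1 a b ha (mono (by omega) ha hb)
  have k2 := hC2 a b ha (mono (by omega) ha hb)
  have hn : m * ‖(a : ℂ) / b‖ < 1 := by
    have hb' : (0 : ℝ) < b := by exact_mod_cast hb0
    have hm' : (m : ℝ) * |(a : ℝ)| < b := by exact_mod_cast hbm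
    rw [norm_div, Complex.norm_intCast, Complex.norm_intCast, abs_of_pos hb', ← mul_div_assoc,
      div_lt_one hb']
    exact hm'
  have e1 : vm (trm m N Y) ((a : ℂ) / b) =
      NormedSpace.exp (-(Complex.log (1 + m * ((a : ℂ) / b))) • cx N) *
        vm Y ((a : ℂ) / (b + m * a)) := by
    have h1 : vm (trm m N Y) ((a : ℂ) / b) =
        vm (pm m N) ((a : ℂ) / b) * vm (Y.map (trf m)) ((a : ℂ) / b) := by
      unfold trm
      exact vm_mul k2 k1
    have h2 : vm (Y.map (trf m)) ((a : ℂ) / b) = vm Y ((a : ℂ) / (b + m * a)) := by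
      ext i j
      exact k0 (i, j)
    rw [h1, h2, hP2 _ hn]
  refine ⟨?_, e1⟩
  rw [e1, ← Matrix.mul_assoc, log_eq ha hb0 hbm, sub_eq_add_neg, add_smul,
    Matrix.exp_add_of_commute]
  exact ((Commute.refl (cx N)).smul_left _).smul_right _

end Pool.Agent.Lib.MPf11a48.CG
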