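import Pool.Agent.Lib.MP_f11a48_ag.CG.Spec
import Pool.Agent.Lib.MP_f11a48_ag.CF.Lie

/-!
# Module BAS: subspaces of matrices which are defined over `K`
-/

set_option autoImplicit false
set_option linter.unusedSectionVars false

namespace Pool.Agent.Lib.MPf11a48.CG.BasM

open Matrix MvPolynomial
open Pool.Agent.Lib.MPf11a48.Tors
open Pool.Agent.Lib.MPf11a48.CM
open Pool.Agent.Lib.MPf11a48.GL2
open Pool.Agent.Lib.MPf11a48.CF.LieM

variable {ι : Type} [Fintype ι] [DecidableEq ι]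

/-- matrices as functions on pairs -/
noncomputable def cu : (ι × ι → ℂ) ≃ₗ[ℂ] Matrix ι ι ℂ := LinearEquiv.curry ℂ ℂ ι ι

theorem cu_apply (v : ι × ι → ℂ) (i j : ι) : cu v i j = v (i, j) := rfl

theorem bas (K : IntermediateField ℚ ℂ) (A : Submodule ℂ (Matrix ι ι ℂ))
    (hA : ∀ τ : ℂ ≃+* ℂ, FixesField K τ → ∀ X ∈ A, X.map τ ∈ A) :
    ∃ (d : ℕ) (e : Fin d → Matrix ι ι ℂ), d ≤ Fintype.card ι ^ 2 ∧ LinearIndependent ℂ e ∧
      (∀ a i j, e a i j ∈ K) ∧ Submodule.span ℂ (Set.range e) = A := by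
  classical
  obtain ⟨κ, hκ, hκ', a, w, hwN, hwa, hv⟩ := exists_pivot (A.comap (cu : (ι × ι → ℂ) ≃ₗ[ℂ] _).toLinearMap)
  have hK : ∀ p j, w p j ∈ K := by
    intro p j
    refine Tors.mem_of_fixed fun τ hτ => ?_
    have h0 : (fun j => τ (w p j)) ∈ A.comap (cu : (ι × ι → ℂ) ≃ₗ[ℂ] _).toLinearMap :=
      hA τ hτ _ (hwN p)
    have h1 := hv _ h0
    have h2 : (∑ p', τ (w p (a p')) • w p') = w p := by
      simp only [hwa]
      rw [Finset.sum_eq_single p]
      · simp
      · intro b _ hb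
        rw [if_neg (Ne.symm hb)]
        simp
      · intro h
        exact absurd (Finset.mem_univ _) h
    rw [h2] at h1
    exact congrFun h1 j
  set q := Fintype.equivFin κ
  set e : Fin (Fintype.card κ) → Matrix ι ι ℂ := fun b => cu (w (q.symm b)) with he
  have hli : LinearIndependent ℂ e := by
    have h1 : LinearIndependent ℂ w := by
      rw [Fintype.linearIndependent_iff]
      intro g hg p
      have h2 := congrFun hg (a p)
      rw [Finset.sum_apply, Finset.sum_eq_single p] at h2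
      · simpa [hwa] using h2
      · intro b _ hb
        rw [Pi.smul_apply, hwa, if_neg hb, smul_zero]
      · intro h
        exact absurd (Finset.mem_univ _) h
    have h2 : LinearIndependent ℂ fun b => w (q.symm b) := h1.comp _ q.symm.injective
    exact h2.map' (cu : (ι × ι → ℂ) ≃ₗ[ℂ] _).toLinearMap (LinearEquiv.ker _)
  refine ⟨Fintype.card κ, e, ?_, hli, fun b i j => hK _ _, le_antisymm ?_ ?_⟩
  · have h1 := hli.fintype_card_le_finrank
    rw [Fintype.card_fin, Module.finrank_matrix, Module.finrank_self, mul_one] at h1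
    rw [pow_two]
    exact h1
  · rw [Submodule.span_le]
    rintro _ ⟨b, rfl⟩
    exact hwN _
  · intro X hX
    have h1 : cu.symm X ∈ A.comap (cu : (ι × ι → ℂ) ≃ₗ[ℂ] _).toLinearMap := by
      change cu (cu.symm X) ∈ A
      rw [LinearEquiv.apply_symm_apply]
      exact hX
    have h2 := congrArg cu (hv _ h1)
    rw [LinearEquiv.apply_symm_apply, map_sum] at h2
    rw [h2]
    refine Submodule.sum_mem _ fun p _ => ?_
    rw [map_smul]
    refine Submodule.smul_mem _ _ (Submodule.subset_span ⟨q p, ?_⟩)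
    rw [he]
    simp

theorem lie_st {K : IntermediateField ℚ ℂ} {T : Set (GL ι ℂ)}
    (hT : ∀ τ : ℂ ≃+* ℂ, FixesField K τ → ∀ f ∈ T, tw τ f ∈ T)
    {τ : ℂ ≃+* ℂ} (hτ : FixesField K τ) {M : Matrix ι ι ℂ} (hM : M ∈ lie T) :
    M.map (τ : ℂ →+* ℂ) ∈ lie T := by
  intro f hf p hp
  set q : MvPolynomial (ι × ι) ℂ := map (τ.symm : ℂ →+* ℂ) p with hq
  have hpq : p = map (τ : ℂ →+* ℂ) q := by
    rw [hq, MvPolynomial.map_map]
    have : (τ : ℂ →+* ℂ).comp (τ.symm : ℂ →+* ℂ) = RingHom.id ℂ := by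
      ext x
      exact τ.apply_symm_apply x
    rw [this, MvPolynomial.map_id]
  have hqT : q ∈ van T := by
    intro g hg
    have h1 := hp _ (hT τ hτ g hg)
    have h2 := eval_tw (τ.symm : ℂ →+* ℂ) p (en (tw τ g).1)
    rw [h1, map_zero] at h2
    have h3 : (fun v => (τ.symm : ℂ →+* ℂ) (en (tw τ g).1 v)) = en g.1 := by
      funext v
      exact τ.symm_apply_apply _
    rw [h3] at h2
    exact h2
  have h1 := hM _ (hT τ.symm hτ.symm f hf) q hqT
  have h2 := tang_tw (τ : ℂ →+* ℂ) q (tw τ.symm f).1 (M * (tw τ.symm f).1)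
  rw [h1, map_zero, ← hpq, Matrix.map_mul] at h2
  have h3 : (tw τ.symm f).1.map (τ : ℂ →+* ℂ) = f.1 := by
    have := tw_tw_symm τ f
    exact congrArg Units.val this
  rw [h3] at h2
  exact h2

end Pool.Agent.Lib.MPf11a48.CG.BasM

namespace Pool.Agent.Lib.MPf11a48.CG

theorem specBas : SpecBas := by
  intro ι _ _ K
  exact ⟨fun A hA => BasM.bas K A hA, fun T hT τ hτ X hX => BasM.lie_st hT hτ hX⟩

end Pool.Agent.Lib.MPf11a48.CG
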