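import Pool.Agent.Lib.MP_f11a48_ag.CG.SpecJ

/-!
# BSS: the group of block diagonal matrices
-/

set_option autoImplicit false
set_option linter.unusedSectionVars false

namespace Pool.Agent.Lib.MPf11a48.CG

open Matrix
open Pool.Agent.Lib.MPf11a48.Tors
open Pool.Agent.Lib.MPf11a48.CM hiding OmegaM
open Pool.Agent.Lib.MPf11a48.GL2T
open Pool.Agent.Lib.MPf11a48.GL2 (lie van en Geo tang lr)
open Pool.Agent.Lib.MPf11a48.K3 (cx)

namespace BssM

variable {ι : Type} [Fintype ι] [DecidableEq ι] {r : ℕ}

/-- the block diagonal matrix with invertible blocks -/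
noncomputable def gb (h : Fin r → GL ι ℂ) : GL (ι × Fin r) ℂ where
  val := blockDiagonal fun i => (h i).1
  inv := blockDiagonal fun i => (h i)⁻¹.1
  val_inv := by
    rw [← blockDiagonal_mul]
    have h2 : (fun i => (h i).1 * (h i)⁻¹.1) = 1 := by
      funext i
      exact (h i).mul_inv
    rw [h2, blockDiagonal_one]
  inv_val := by
    rw [← blockDiagonal_mul]
    have h2 : (fun i => (h i)⁻¹.1 * (h i).1) = 1 := by
      funext i
      exact (h i).inv_mul
    rw [h2, blockDiagonal_one]

theorem gb_val (h : Fin r → GL ι ℂ) : (gb h).1 = blockDiagonal fun i => (h i).1 := rfl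

theorem gb_inv (h : Fin r → GL ι ℂ) : (gb h)⁻¹.1 = blockDiagonal fun i => (h i)⁻¹.1 := rfl

theorem gb_mem {G : Subgroup (GL ι ℂ)} {h : Fin r → GL ι ℂ} (hG : ∀ i, h i ∈ G) :
    gb h ∈ bd G r := ⟨h, hG, rfl⟩

theorem mem_bd {G : Subgroup (GL ι ℂ)} {g : GL (ι × Fin r) ℂ} :
    g ∈ bd G r ↔ ∃ h : Fin r → GL ι ℂ, (∀ i, h i ∈ G) ∧ g = gb h := by
  constructor
  · rintro ⟨h, hG, hg⟩
    exact ⟨h, hG, Units.ext hg⟩
  · rintro ⟨h, hG, rfl⟩
    exact gb_mem hG

/-- the polynomial in the block `a`, the other blocks being equal to `B b` -/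
noncomputable def sb (a : Fin r) (B : Fin r → Matrix ι ι ℂ) :
    MvPolynomial ((ι × Fin r) × (ι × Fin r)) ℂ →ₐ[ℂ] MvPolynomial (ι × ι) ℂ :=
  MvPolynomial.aeval fun v => if v.1.2 = v.2.2 then
    (if v.1.2 = a then MvPolynomial.X (v.1.1, v.2.1) else
      MvPolynomial.C (B v.1.2 v.1.1 v.2.1)) else 0

theorem eval_sb_X (a : Fin r) (B : Fin r → Matrix ι ι ℂ) (x : Matrix ι ι ℂ)
    (v : (ι × Fin r) × (ι × Fin r)) :
    MvPolynomial.eval (en x) (sb a B (MvPolynomial.X v)) =
      blockDiagonal (Function.update B a x) v.1 v.2 := by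
  rw [sb, MvPolynomial.aeval_X, blockDiagonal_apply']
  by_cases h : v.1.2 = v.2.2
  · rw [if_pos h, if_pos h]
    by_cases h' : v.1.2 = a
    · rw [if_pos h', h', Function.update_self, MvPolynomial.eval_X]
      rfl
    · rw [if_neg h', Function.update_of_ne h', MvPolynomial.eval_C]
  · rw [if_neg h, if_neg h, map_zero]

theorem eval_sb (a : Fin r) (B : Fin r → Matrix ι ι ℂ) (x : Matrix ι ι ℂ)
    (P : MvPolynomial ((ι × Fin r) × (ι × Fin r)) ℂ) :
    MvPolynomial.eval (en x) (sb a B P) =
      MvPolynomial.eval (en (blockDiagonal (Function.update B a x))) P := by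
  induction P using MvPolynomial.induction_on with
  | C c => rw [sb, MvPolynomial.algHom_C, MvPolynomial.algebraMap_eq, MvPolynomial.eval_C,
      MvPolynomial.eval_C]
  | add p q hp hq => rw [map_add, map_add, map_add, hp, hq]
  | mul_X p v hp =>
    rw [map_mul, map_mul, map_mul, hp, eval_sb_X, MvPolynomial.eval_X]
    rfl

theorem tang_sb (a : Fin r) (B : Fin r → Matrix ι ι ℂ) (x z : Matrix ι ι ℂ)
    (P : MvPolynomial ((ι × Fin r) × (ι × Fin r)) ℂ) :
    tang (sb a B P) x z = tang P (blockDiagonal (Function.update B a x))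
      (blockDiagonal (Function.update (fun _ => (0 : Matrix ι ι ℂ)) a z)) := by
  induction P using MvPolynomial.induction_on with
  | C c => rw [sb, MvPolynomial.algHom_C, MvPolynomial.algebraMap_eq, GL2.tang_C, GL2.tang_C]
  | add p q hp hq => rw [map_add, GL2.tang_add, GL2.tang_add, hp, hq]
  | mul_X p v hp =>
    have h2 : tang (sb a B (MvPolynomial.X v)) x z =
        blockDiagonal (Function.update (fun _ => (0 : Matrix ι ι ℂ)) a z) v.1 v.2 := by
      rw [sb, MvPolynomial.aeval_X, blockDiagonal_apply']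
      by_cases h : v.1.2 = v.2.2
      · rw [if_pos h, if_pos h]
        by_cases h' : v.1.2 = a
        · rw [if_pos h', h', Function.update_self, GL2.tang_X]
        · rw [if_neg h', Function.update_of_ne h', GL2.tang_C, Matrix.zero_apply]
      · rw [if_neg h, if_neg h, ← MvPolynomial.C_0, GL2.tang_C]
    rw [map_mul, GL2.tang_mul, GL2.tang_mul, hp, h2, eval_sb, eval_sb, GL2.tang_X]

theorem update_gb (h : Fin r → GL ι ℂ) (a : Fin r) (x : GL ι ℂ) :
    blockDiagonal (Function.update (fun i => (h i).1) a x.1) = (gb (Function.update h a x)).1 := by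
  rw [gb_val]
  congr 1
  funext i
  by_cases hi : i = a
  · subst hi
    rw [Function.update_self, Function.update_self]
  · rw [Function.update_of_ne hi, Function.update_of_ne hi]

variable {G : Subgroup (GL ι ℂ)}

theorem sb_mem {P : MvPolynomial ((ι × Fin r) × (ι × Fin r)) ℂ}
    (hP : P ∈ van (bd G r : Set (GL (ι × Fin r) ℂ))) {h : Fin r → GL ι ℂ} (hG : ∀ i, h i ∈ G)
    (a : Fin r) : sb a (fun i => (h i).1) P ∈ van (G : Set (GL ι ℂ)) := by
  intro x hx
  rw [eval_sb, update_gb]
  refine hP _ (gb_mem fun i => ?_)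
  by_cases hi : i = a
  · subst hi
    rw [Function.update_self]
    exact hx
  · rw [Function.update_of_ne hi]
    exact hG i

/-- the product of two polynomials which do not vanish -/
theorem irred (hir : ∀ p q : MvPolynomial (ι × ι) ℂ, p * q ∈ van (G : Set (GL ι ℂ)) →
    p ∈ van (G : Set (GL ι ℂ)) ∨ q ∈ van (G : Set (GL ι ℂ)))
    (P Q : MvPolynomial ((ι × Fin r) × (ι × Fin r)) ℂ)
    (hPQ : P * Q ∈ van (bd G r : Set (GL (ι × Fin r) ℂ))) :
    P ∈ van (bd G r : Set (GL (ι × Fin r) ℂ)) ∨ Q ∈ van (bd G r : Set (GL (ι × Fin r) ℂ)) := by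
  by_contra hcon
  push Not at hcon
  obtain ⟨hP, hQ⟩ := hcon
  have hex : ∀ {P : MvPolynomial ((ι × Fin r) × (ι × Fin r)) ℂ},
      P ∉ van (bd G r : Set (GL (ι × Fin r) ℂ)) →
      ∃ h : Fin r → GL ι ℂ, (∀ i, h i ∈ G) ∧ MvPolynomial.eval (en (gb h).1) P ≠ 0 := by
    intro P hP
    by_contra hc
    push Not at hc
    refine hP ?_
    intro g hg
    obtain ⟨h, hG, rfl⟩ := mem_bd.1 hg
    exact hc h hG
  obtain ⟨x, hx, hPx⟩ := hex hP
  obtain ⟨y, hy, hQy⟩ := hex hQ
  have key : ∀ s : Finset (Fin r), ∃ z : Fin r → GL ι ℂ, (∀ i, z i ∈ G) ∧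
      MvPolynomial.eval (en (gb fun i => if i ∈ s then z i else x i).1) P ≠ 0 ∧
      MvPolynomial.eval (en (gb fun i => if i ∈ s then z i else y i).1) Q ≠ 0 := by
    intro s
    induction s using Finset.induction_on with
    | empty => exact ⟨x, hx, by simpa using hPx, by simpa using hQy⟩
    | insert a s ha ih =>
      obtain ⟨z, hz, h1, h2⟩ := ih
      set x' : Fin r → GL ι ℂ := fun i => if i ∈ s then z i else x i with hx'
      set y' : Fin r → GL ι ℂ := fun i => if i ∈ s then z i else y i with hy'
      have e1 : sb a (fun i => (x' i).1) P ∉ van (G : Set (GL ι ℂ)) := by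
        intro hv
        have h3 := hv (x a) (hx a)
        rw [eval_sb, update_gb] at h3
        refine h1 ?_
        have h4 : Function.update x' a (x a) = x' := by
          rw [Function.update_eq_self_iff]
          simp only [hx', if_neg ha]
        rw [h4] at h3
        exact h3
      have e2 : sb a (fun i => (y' i).1) Q ∉ van (G : Set (GL ι ℂ)) := by
        intro hv
        have h3 := hv (y a) (hy a)
        rw [eval_sb, update_gb] at h3
        refine h2 ?_
        have h4 : Function.update y' a (y a) = y' := by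
          rw [Function.update_eq_self_iff]
          simp only [hy', if_neg ha]
        rw [h4] at h3
        exact h3
      have e3 : sb a (fun i => (x' i).1) P * sb a (fun i => (y' i).1) Q ∉
          van (G : Set (GL ι ℂ)) := fun hv => (hir _ _ hv).elim e1 e2
      have e4 : ∃ g ∈ G, MvPolynomial.eval (en g.1) (sb a (fun i => (x' i).1) P) ≠ 0 ∧
          MvPolynomial.eval (en g.1) (sb a (fun i => (y' i).1) Q) ≠ 0 := by
        by_contra hc
        push Not at hc
        refine e3 ?_
        intro g hg
        rw [map_mul]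
        by_cases h0 : MvPolynomial.eval (en g.1) (sb a (fun i => (x' i).1) P) = 0
        · rw [h0, zero_mul]
        · rw [hc g hg h0, mul_zero]
      obtain ⟨g, hg, h3, h4⟩ := e4
      rw [eval_sb, update_gb] at h3 h4
      refine ⟨Function.update z a g, fun i => ?_, ?_, ?_⟩
      · by_cases hi : i = a
        · subst hi
          rw [Function.update_self]
          exact hg
        · rw [Function.update_of_ne hi]
          exact hz i
      · have e5 : (fun i => if i ∈ insert a s then Function.update z a g i else x i) =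
            Function.update x' a g := by
          funext i
          by_cases hi : i = a
          · subst hi
            rw [Function.update_self, if_pos (Finset.mem_insert_self _ _), Function.update_self]
          · rw [Function.update_of_ne hi, Function.update_of_ne hi]
            simp only [Finset.mem_insert, hi, false_or, hx']
        rw [e5]
        exact h3
      · have e5 : (fun i => if i ∈ insert a s then Function.update z a g i else y i) =
            Function.update y' a g := by
          funext i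
          by_cases hi : i = a
          · subst hi
            rw [Function.update_self, if_pos (Finset.mem_insert_self _ _), Function.update_self]
          · rw [Function.update_of_ne hi, Function.update_of_ne hi]
            simp only [Finset.mem_insert, hi, false_or, hy']
        rw [e5]
        exact h4
  obtain ⟨z, hz, h1, h2⟩ := key Finset.univ
  simp only [Finset.mem_univ, if_true] at h1 h2
  have h3 := hPQ _ (gb_mem hz)
  rw [map_mul] at h3
  rcases mul_eq_zero.1 h3 with h4 | h4
  · exact h1 h4
  · exact h2 h4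

/-- the polynomials in the block `a` -/
noncomputable def rn {R : Type} [CommRing R] (a : Fin r) :
    MvPolynomial (ι × ι) R →ₐ[R] MvPolynomial ((ι × Fin r) × (ι × Fin r)) R :=
  MvPolynomial.rename fun v => ((v.1, a), (v.2, a))

theorem aeval_rn {R : Type} [CommRing R] [Algebra R ℂ] (a : Fin r)
    (M : Matrix (ι × Fin r) (ι × Fin r) ℂ) (p : MvPolynomial (ι × ι) R) :
    MvPolynomial.aeval (fun v : (ι × Fin r) × (ι × Fin r) => M v.1 v.2) (rn a p) =
      MvPolynomial.aeval (fun v : ι × ι => blockDiag M a v.1 v.2) p := by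
  rw [rn, MvPolynomial.aeval_rename]
  rfl

theorem eval_rn (a : Fin r) (M : Matrix (ι × Fin r) (ι × Fin r) ℂ) (p : MvPolynomial (ι × ι) ℂ) :
    MvPolynomial.eval (en M) (rn a p) = MvPolynomial.eval (en (blockDiag M a)) p := by
  rw [rn, MvPolynomial.eval_rename]
  rfl

theorem tang_rn (a : Fin r) (M Z : Matrix (ι × Fin r) (ι × Fin r) ℂ)
    (p : MvPolynomial (ι × ι) ℂ) :
    tang (rn a p) M Z = tang p (blockDiag M a) (blockDiag Z a) := by
  induction p using MvPolynomial.induction_on with
  | C c => rw [rn, MvPolynomial.rename_C, GL2.tang_C, GL2.tang_C]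
  | add p q hp hq => rw [map_add, GL2.tang_add, GL2.tang_add, hp, hq]
  | mul_X p v hp =>
    have h2 : tang (rn a (MvPolynomial.X v)) M Z = blockDiag Z a v.1 v.2 := by
      rw [rn, MvPolynomial.rename_X, GL2.tang_X]
      rfl
    rw [map_mul, GL2.tang_mul, GL2.tang_mul, hp, h2, eval_rn, eval_rn, GL2.tang_X]

theorem rn_mem {p : MvPolynomial (ι × ι) ℂ} (hp : p ∈ van (G : Set (GL ι ℂ))) (a : Fin r) :
    rn a p ∈ van (bd G r : Set (GL (ι × Fin r) ℂ)) := by
  intro g hg
  obtain ⟨h, hG, rfl⟩ := mem_bd.1 hg
  rw [eval_rn, gb_val, blockDiag_blockDiagonal]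
  exact hp _ (hG a)

theorem off_mem {v : (ι × Fin r) × (ι × Fin r)} (hv : v.1.2 ≠ v.2.2) :
    (MvPolynomial.X v : MvPolynomial _ ℂ) ∈ van (bd G r : Set (GL (ι × Fin r) ℂ)) := by
  intro g hg
  obtain ⟨h, hG, rfl⟩ := mem_bd.1 hg
  rw [MvPolynomial.eval_X, gb_val]
  exact blockDiagonal_apply_ne (fun i => (h i).1) v.1.1 v.2.1 hv

theorem eq_bd_of_off {M : Matrix (ι × Fin r) (ι × Fin r) ℂ}
    (hM : ∀ v : (ι × Fin r) × (ι × Fin r), v.1.2 ≠ v.2.2 → M v.1 v.2 = 0) :
    M = blockDiagonal (blockDiag M) := by
  ext ⟨i, a⟩ ⟨j, b⟩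
  by_cases h : a = b
  · subst h
    rw [blockDiagonal_apply_eq]
    rfl
  · rw [blockDiagonal_apply_ne _ _ _ h]
    exact hM ((i, a), (j, b)) h

/-- the Lie algebra -/
theorem lie_iff (Z : Matrix (ι × Fin r) (ι × Fin r) ℂ) :
    Z ∈ lie (bd G r : Set (GL (ι × Fin r) ℂ)) ↔
      ∃ X : Fin r → Matrix ι ι ℂ, (∀ i, X i ∈ lie (G : Set (GL ι ℂ))) ∧ Z = blockDiagonal X := by
  constructor
  · intro hZ
    refine ⟨blockDiag Z, fun a => ?_, ?_⟩
    · intro f hf p hp
      have h1 := hZ (gb (Function.update (1 : Fin r → GL ι ℂ) a f)) (gb_mem fun i => by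
        by_cases hi : i = a
        · subst hi
          rw [Function.update_self]
          exact hf
        · rw [Function.update_of_ne hi]
          exact G.one_mem) _ (rn_mem hp a)
      rw [tang_rn, gb_val, blockDiag_blockDiagonal, Function.update_self] at h1
      have h2 : blockDiag (Z * blockDiagonal fun i =>
          (Function.update (1 : Fin r → GL ι ℂ) a f i).1) a =
          blockDiag Z a * f.1 := by
        ext i j
        simp only [blockDiag_apply, Matrix.mul_apply, Fintype.sum_prod_type, blockDiagonal_apply]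
        refine Finset.sum_congr rfl fun k _ => ?_
        rw [Finset.sum_eq_single a]
        · rw [if_pos rfl, Function.update_self]
        · intro b _ hb
          rw [if_neg hb, mul_zero]
        · intro h
          exact absurd (Finset.mem_univ _) h
      rw [h2] at h1
      exact h1
    · refine eq_bd_of_off fun v hv => ?_
      have h1 := hZ 1 (bd G r).one_mem _ (off_mem (G := G) hv)
      rw [GL2.tang_X, Units.val_one, Matrix.mul_one] at h1
      exact h1
  · rintro ⟨X, hX, rfl⟩ g hg P hP
    obtain ⟨h, hG, rfl⟩ := mem_bd.1 hg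
    have e1 : blockDiagonal X * (gb h).1 = ∑ a, blockDiagonal
        (Function.update (fun _ => (0 : Matrix ι ι ℂ)) a (X a * (h a).1)) := by
      rw [gb_val, ← blockDiagonal_mul]
      ext ⟨i, a⟩ ⟨j, b⟩
      rw [Matrix.sum_apply]
      simp only [blockDiagonal_apply]
      split_ifs with hab
      · rw [Finset.sum_eq_single a]
        · rw [Function.update_self]
        · intro c _ hc
          rw [Function.update_of_ne (Ne.symm hc), Matrix.zero_apply]
        · intro hh
          exact absurd (Finset.mem_univ _) hh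
      · rw [Finset.sum_const_zero]
    have e2 : ∀ (s : Finset (Fin r)) (Z : Fin r → Matrix (ι × Fin r) (ι × Fin r) ℂ),
        tang P (gb h).1 (∑ a ∈ s, Z a) = ∑ a ∈ s, tang P (gb h).1 (Z a) := by
      intro s Z
      classical
      induction s using Finset.induction_on with
      | empty =>
        rw [Finset.sum_empty, Finset.sum_empty]
        simp [tang]
      | insert a s ha ih => rw [Finset.sum_insert ha, Finset.sum_insert ha, GL2.tang_add_right, ih]
    rw [e1, e2]
    refine Finset.sum_eq_zero fun a _ => ?_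
    have h1 := hX a (h a) (hG a) _ (sb_mem hP hG a)
    rw [tang_sb] at h1
    have e3 : Function.update (fun i => (h i).1) a (h a).1 = fun i => (h i).1 :=
      Function.update_eq_self _ _
    rw [e3] at h1
    exact h1

end BssM

open BssM in
theorem specBss : SpecBss := by
  classical
  intro ι _ _ G r hSS
  refine ⟨⟨?_, irred hSS.irred, ?_⟩, lie_iff⟩
  · -- closed
    obtain ⟨S, hS⟩ := hSS.closed
    refine ⟨{p | (∃ v : (ι × Fin r) × (ι × Fin r), v.1.2 ≠ v.2.2 ∧ p = MvPolynomial.X v) ∨
      ∃ a, ∃ q ∈ S, p = rn a q}, ?_⟩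
    ext g
    constructor
    · intro hg
      obtain ⟨h, hG, rfl⟩ := mem_bd.1 hg
      rintro _ (⟨v, hv, rfl⟩ | ⟨a, q, hq, rfl⟩)
      · rw [MvPolynomial.aeval_X, gb_val]
        exact blockDiagonal_apply_ne (fun i => (h i).1) v.1.1 v.2.1 hv
      · rw [aeval_rn, gb_val, blockDiag_blockDiagonal]
        have h1 : h a ∈ (G : Set (GL ι ℂ)) := hG a
        rw [hS] at h1
        exact h1 q hq
    · intro hg
      have h1 : g.1 = blockDiagonal (blockDiag g.1) := by
        refine eq_bd_of_off fun v hv => ?_
        have h2 := hg _ (Or.inl ⟨v, hv, rfl⟩)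
        rw [MvPolynomial.aeval_X] at h2
        exact h2
      have hdet : ∀ a, (blockDiag g.1 a).det ≠ 0 := by
        have h2 : g.1.det ≠ 0 := ((Matrix.isUnit_iff_isUnit_det _).1 g.isUnit).ne_zero
        rw [h1, det_blockDiagonal] at h2
        exact fun a => Finset.prod_ne_zero_iff.1 h2 a (Finset.mem_univ a)
      let h : Fin r → GL ι ℂ := fun a => Matrix.GeneralLinearGroup.mkOfDetNeZero _ (hdet a)
      refine mem_bd.2 ⟨h, fun a => ?_, Units.ext h1⟩
      have h2 : h a ∈ (G : Set (GL ι ℂ)) := by
        rw [hS]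
        intro q hq
        have h3 := hg _ (Or.inr ⟨a, q, hq, rfl⟩)
        rw [aeval_rn] at h3
        exact h3
      exact h2
  · -- no commutative ideal
    intro k hk hA hcomm
    rw [eq_bot_iff]
    intro Z hZ
    have hblock : ∀ Z ∈ k, ∃ X : Fin r → Matrix ι ι ℂ, (∀ i, X i ∈ lie (G : Set (GL ι ℂ))) ∧
        Z = blockDiagonal X := fun Z hZ => (lie_iff Z).1 (hk hZ)
    let π : Fin r → Matrix (ι × Fin r) (ι × Fin r) ℂ →ₗ[ℂ] Matrix ι ι ℂ := fun a =>
      { toFun := fun Z => blockDiag Z a
        map_add' := fun _ _ => rfl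
        map_smul' := fun _ _ => rfl }
    have hπ : ∀ a, k.map (π a) = ⊥ := by
      intro a
      refine hSS.ss _ ?_ ?_ ?_
      · rintro _ ⟨Z, hZ, rfl⟩
        obtain ⟨X, hX, rfl⟩ := hblock Z hZ
        change blockDiag (blockDiagonal X) a ∈ _
        rw [blockDiag_blockDiagonal]
        exact hX a
      · rintro g hg _ ⟨Z, hZ, rfl⟩
        obtain ⟨X, hX, rfl⟩ := hblock Z hZ
        have hG : ∀ i, (Function.update (1 : Fin r → GL ι ℂ) a g) i ∈ G := by
          intro i
          by_cases hi : i = a
          · subst hi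
            rw [Function.update_self]
            exact hg
          · rw [Function.update_of_ne hi]
            exact G.one_mem
        refine ⟨_, hA _ (gb_mem hG) _ hZ, ?_⟩
        change blockDiag _ a = g.1 * blockDiag (blockDiagonal X) a * g⁻¹.1
        rw [gb_val, gb_inv, ← blockDiagonal_mul, ← blockDiagonal_mul, blockDiag_blockDiagonal,
          blockDiag_blockDiagonal, Function.update_self]
      · rintro _ ⟨Z, hZ, rfl⟩ _ ⟨Z', hZ', rfl⟩
        have h1 := hcomm Z hZ Z' hZ'
        obtain ⟨X, hX, rfl⟩ := hblock Z hZ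
        obtain ⟨X', hX', rfl⟩ := hblock Z' hZ'
        change blockDiag (blockDiagonal X) a * blockDiag (blockDiagonal X') a =
          blockDiag (blockDiagonal X') a * blockDiag (blockDiagonal X) a
        rw [← blockDiagonal_mul, ← blockDiagonal_mul] at h1
        have h2 := congrArg (fun M => blockDiag M a) h1
        simp only [blockDiag_blockDiagonal] at h2 ⊢
        exact h2
    obtain ⟨X, hX, rfl⟩ := hblock Z hZ
    have h1 : X = 0 := by
      funext a
      have h2 : π a (blockDiagonal X) ∈ k.map (π a) := ⟨_, hZ, rfl⟩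
      rw [hπ, Submodule.mem_bot] at h2
      change blockDiag (blockDiagonal X) a = 0 at h2
      rw [blockDiag_blockDiagonal] at h2
      exact h2
    rw [h1, Submodule.mem_bot]
    exact blockDiagonal_zero

end Pool.Agent.Lib.MPf11a48.CG
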