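import Mathlib

/-!
# Module HIL: algebraic relations of bounded degree

Linear combinations, with coefficients in a field `K` of complex numbers, of finitely many numbers
which are algebraic over a field generated by `r` numbers: any `r + 2` of them satisfy a homogeneous
algebraic relation over `K` of a degree which does not depend on `K`.
-/

set_option autoImplicit false

namespace Pool.Agent.Lib.MPf11a48.CG.HilM

/-- monomials -/
noncomputable def te {r : ℕ} (θ : Fin r → ℂ) (e : Fin r → ℕ) : ℂ := ∏ i, θ i ^ e i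

theorem te_add {r : ℕ} (θ : Fin r → ℂ) (e e' : Fin r → ℕ) : te θ e * te θ e' = te θ (e + e') := by
  unfold te
  rw [← Finset.prod_mul_distrib]
  exact Finset.prod_congr rfl fun i _ => (pow_add _ _ _).symm

theorem aeval_te {r : ℕ} (θ : Fin r → ℂ) (P : MvPolynomial (Fin r) ℚ) :
    MvPolynomial.aeval θ P = ∑ v ∈ P.support, ((P.coeff v : ℚ) : ℂ) * te θ v := by
  conv_lhs => rw [P.as_sum]
  rw [map_sum]
  refine Finset.sum_congr rfl fun v _ => ?_
  rw [MvPolynomial.aeval_monomial, Finsupp.prod_fintype _ _ fun i => pow_zero _]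
  rfl

/-- a common denominator -/
theorem exists_den {r : ℕ} (θ : Fin r → ℂ) {X : Type} [Fintype X] (a : X → ℂ)
    (ha : ∀ x, a x ∈ IntermediateField.adjoin ℚ (Set.range θ)) :
    ∃ (q : ℂ) (P : X → MvPolynomial (Fin r) ℚ), q ≠ 0 ∧
      ∀ x, q * a x = MvPolynomial.aeval θ (P x) := by
  classical
  have h1 : ∀ x, ∃ R S : MvPolynomial (Fin r) ℚ, MvPolynomial.aeval θ S ≠ 0 ∧
      MvPolynomial.aeval θ S * a x = MvPolynomial.aeval θ R := by
    intro x
    obtain ⟨R, S, h⟩ := (IntermediateField.mem_adjoin_range_iff ℚ θ (a x)).1 (ha x)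
    by_cases hS : MvPolynomial.aeval θ S = 0
    · refine ⟨0, 1, by simp, ?_⟩
      rw [h, hS]
      simp
    · exact ⟨R, S, hS, by rw [h]; field_simp⟩
  choose R S hS hR using h1
  refine ⟨∏ x, MvPolynomial.aeval θ (S x), fun x => R x * ∏ y ∈ Finset.univ.erase x, S y,
    Finset.prod_ne_zero_iff.2 fun x _ => hS x, fun x => ?_⟩
  rw [map_mul, map_prod, ← hR x, ← Finset.mul_prod_erase Finset.univ _ (Finset.mem_univ x)]
  ring

/-- the multiplication table -/
theorem exists_table {r : ℕ} (θ : Fin r → ℂ) {μ : Type} [Fintype μ] (m : μ → ℂ)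
    (hm : ∀ ν, IsAlgebraic (IntermediateField.adjoin ℚ (Set.range θ)) (m ν)) :
    ∃ (h : ℕ) (w : Fin h → ℂ) (j₀ : Fin h) (q : ℂ)
      (P : μ × Fin h × Fin h → MvPolynomial (Fin r) ℚ), w j₀ ≠ 0 ∧ q ≠ 0 ∧
      ∀ ν j, q * m ν * w j = ∑ k, MvPolynomial.aeval θ (P (ν, j, k)) * w k := by
  classical
  let L₀ := IntermediateField.adjoin ℚ (Set.range θ)
  let L := IntermediateField.adjoin L₀ (Set.range m)
  have : FiniteDimensional L₀ L := by
    refine IntermediateField.finiteDimensional_adjoin ?_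
    rintro _ ⟨ν, rfl⟩
    exact (hm ν).isIntegral
  let b := Module.finBasis L₀ L
  have hmem : ∀ ν, m ν ∈ L := fun ν => IntermediateField.subset_adjoin L₀ _ ⟨ν, rfl⟩
  let a : μ × Fin (Module.finrank L₀ L) × Fin (Module.finrank L₀ L) → ℂ := fun x =>
    ((b.repr ((⟨m x.1, hmem x.1⟩ : L) * b x.2.1) x.2.2 : L₀) : ℂ)
  obtain ⟨q, P, hq, hP⟩ := exists_den θ a fun x => SetLike.coe_mem _
  refine ⟨Module.finrank L₀ L, fun j => ((b j : L) : ℂ), ⟨0, Module.finrank_pos⟩, q, P, ?_, hq,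
    fun ν j => ?_⟩
  · have h1 := b.ne_zero ⟨0, Module.finrank_pos⟩
    exact fun h2 => h1 (Subtype.ext h2)
  · have h1 := congrArg (fun x : L => (x : ℂ)) (b.sum_repr ((⟨m ν, hmem ν⟩ : L) * b j))
    have h2 : m ν * ((b j : L) : ℂ) = ∑ k, a (ν, j, k) * ((b k : L) : ℂ) := by
      rw [← show (((⟨m ν, hmem ν⟩ : L) * b j : L) : ℂ) = m ν * ((b j : L) : ℂ) from rfl, ← h1]
      change L.val _ = _
      rw [map_sum]
      rfl
    rw [mul_assoc, h2, Finset.mul_sum]
    refine Finset.sum_congr rfl fun k _ => ?_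
    rw [← mul_assoc, hP]

section Span

variable {r h : ℕ} (θ : Fin r → ℂ) (w : Fin h → ℂ) (c : ℕ) (K : Type) [Field K] [Algebra K ℂ]

/-- the space spanned by the products of monomials and elements of the basis -/
def T (n : ℕ) : Submodule K ℂ :=
  Submodule.span K {x | ∃ e : Fin r → ℕ, (∀ i, e i ≤ c * n) ∧ ∃ k, x = te θ e * w k}

theorem finrank_T (n : ℕ) : FiniteDimensional K (T θ w c K n) ∧
    Module.finrank K (T θ w c K n) ≤ (c * n + 1) ^ r * h := by
  have e : {x | ∃ e : Fin r → ℕ, (∀ i, e i ≤ c * n) ∧ ∃ k, x = te θ e * w k} =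
      Set.range fun x : (Fin r → Fin (c * n + 1)) × Fin h => te θ (fun i => x.1 i) * w x.2 := by
    ext x
    constructor
    · rintro ⟨e, he, k, rfl⟩
      exact ⟨(fun i => ⟨e i, Nat.lt_succ_of_le (he i)⟩, k), rfl⟩
    · rintro ⟨x, rfl⟩
      exact ⟨fun i => x.1 i, fun i => Nat.le_of_lt_succ (x.1 i).2, x.2, rfl⟩
  have e2 : T θ w c K n = Submodule.span K (Set.range
      fun x : (Fin r → Fin (c * n + 1)) × Fin h => te θ (fun i => x.1 i) * w x.2) := by
    unfold T
    rw [e]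
  rw [e2]
  refine ⟨FiniteDimensional.span_of_finite K (Set.finite_range _), ?_⟩
  refine (finrank_range_le_card (R := K) _).trans ?_
  simp [Fintype.card_prod]

variable {θ w c K}

theorem mem_T {n : ℕ} {e : Fin r → ℕ} (he : ∀ i, e i ≤ c * n) (k : Fin h) :
    te θ e * w k ∈ T θ w c K n := Submodule.subset_span ⟨e, he, k, rfl⟩

theorem step {μ : Type} {m : μ → ℂ} {q : ℂ} {P : μ × Fin h × Fin h → MvPolynomial (Fin r) ℚ}
    (hP : ∀ ν j, q * m ν * w j = ∑ k, MvPolynomial.aeval θ (P (ν, j, k)) * w k)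
    (hc : ∀ x, ∀ v ∈ (P x).support, ∀ i, v i ≤ c) (ν : μ) {n : ℕ} {y : ℂ}
    (hy : y ∈ T θ w c K n) : q * m ν * y ∈ T θ w c K (n + 1) := by
  unfold T at hy
  induction hy using Submodule.span_induction with
  | mem y hy =>
    obtain ⟨e, he, j, rfl⟩ := hy
    have h1 : q * m ν * (te θ e * w j) = ∑ k, ∑ v ∈ (P (ν, j, k)).support,
        (((P (ν, j, k)).coeff v : ℚ) : ℂ) * (te θ (e + v) * w k) := by
      calc q * m ν * (te θ e * w j) = te θ e * (q * m ν * w j) := by ring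
        _ = _ := by
          rw [hP, Finset.mul_sum]
          refine Finset.sum_congr rfl fun k _ => ?_
          rw [aeval_te, Finset.sum_mul, Finset.mul_sum]
          refine Finset.sum_congr rfl fun v _ => ?_
          rw [← te_add]
          ring
    rw [h1]
    refine Submodule.sum_mem _ fun k _ => Submodule.sum_mem _ fun v hv => ?_
    have h2 : te θ (e + v) * w k ∈ T θ w c K (n + 1) := mem_T (fun i => by
      have := he i
      have := hc _ v hv i
      rw [Pi.add_apply, mul_add, mul_one]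
      omega) k
    have h3 := Submodule.smul_mem _ ((((P (ν, j, k)).coeff v : ℚ)) : K) h2
    rwa [Algebra.smul_def, map_ratCast] at h3
  | zero =>
    rw [mul_zero]
    exact Submodule.zero_mem _
  | add x y _ _ hx hy =>
    rw [mul_add]
    exact Submodule.add_mem _ hx hy
  | smul a x _ hx =>
    have h1 := Submodule.smul_mem _ a hx
    rwa [← mul_smul_comm] at h1

theorem step_pow {q b : ℂ} (hb : ∀ (n : ℕ), ∀ y ∈ T θ w c K n, q * b * y ∈ T θ w c K (n + 1))
    (a : ℕ) {n : ℕ} {y : ℂ} (hy : y ∈ T θ w c K n) : q ^ a * b ^ a * y ∈ T θ w c K (n + a) := by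
  induction a with
  | zero => simpa using hy
  | succ a ih =>
    have h1 := hb _ _ ih
    have h2 : q ^ (a + 1) * b ^ (a + 1) * y = q * b * (q ^ a * b ^ a * y) := by ring
    rw [h2, ← add_assoc]
    exact h1

theorem step_prod {q : ℂ} {I : Type} (b : I → ℂ)
    (hb : ∀ i, ∀ (n : ℕ), ∀ y ∈ T θ w c K n, q * b i * y ∈ T θ w c K (n + 1)) (e : I → ℕ)
    (s : Finset I) {y : ℂ} (hy : y ∈ T θ w c K 0) :
    q ^ (∑ i ∈ s, e i) * (∏ i ∈ s, b i ^ e i) * y ∈ T θ w c K (∑ i ∈ s, e i) := by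
  classical
  induction s using Finset.induction_on with
  | empty => simpa using hy
  | insert a s ha ih =>
    rw [Finset.sum_insert ha, Finset.prod_insert ha]
    have h1 := step_pow (hb a) (e a) ih
    have h2 : q ^ (e a + ∑ i ∈ s, e i) * (b a ^ e a * ∏ i ∈ s, b i ^ e i) * y =
        q ^ e a * b a ^ e a * (q ^ (∑ i ∈ s, e i) * (∏ i ∈ s, b i ^ e i) * y) := by
      rw [pow_add]
      ring
    rw [h2, add_comm (e a)]
    exact h1

end Span

/-- the exponents -/
def ex {r t : ℕ} (e : Fin (r + 1) → Fin (t + 1)) : Fin (r + 2) → ℕ :=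
  Fin.cons ((r + 1) * t - ∑ i, (e i : ℕ)) fun i => (e i : ℕ)

theorem sum_ex {r t : ℕ} (e : Fin (r + 1) → Fin (t + 1)) : ∑ i, ex e i = (r + 1) * t := by
  unfold ex
  rw [Fin.sum_univ_succ, Fin.cons_zero]
  simp only [Fin.cons_succ]
  have h1 : ∑ i, (e i : ℕ) ≤ (r + 1) * t := by
    calc ∑ i, (e i : ℕ) ≤ ∑ _i : Fin (r + 1), t :=
          Finset.sum_le_sum fun i _ => Nat.le_of_lt_succ (e i).2
      _ = (r + 1) * t := by simp
  omega

theorem ex_inj {r t : ℕ} {e e' : Fin (r + 1) → Fin (t + 1)} (h : ex e = ex e') : e = e' := by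
  funext i
  have h1 := congrFun h i.succ
  unfold ex at h1
  rw [Fin.cons_succ, Fin.cons_succ] at h1
  exact Fin.ext h1

theorem count (r h c : ℕ) : (c * ((r + 1) * (h * (c * (r + 1) + 1) ^ r)) + 1) ^ r * h <
    (h * (c * (r + 1) + 1) ^ r + 1) ^ (r + 1) := by
  set t := h * (c * (r + 1) + 1) ^ r with ht
  have h1 : c * ((r + 1) * t) + 1 ≤ (c * (r + 1) + 1) * (t + 1) := by ring_nf; omega
  calc (c * ((r + 1) * t) + 1) ^ r * h ≤ ((c * (r + 1) + 1) * (t + 1)) ^ r * h :=
        Nat.mul_le_mul_right _ (Nat.pow_le_pow_left h1 r)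
    _ = t * (t + 1) ^ r := by rw [ht, mul_pow]; ring
    _ < (t + 1) * (t + 1) ^ r := Nat.mul_lt_mul_of_pos_right (Nat.lt_succ_self t) (by positivity)
    _ = (t + 1) ^ (r + 1) := by ring

/-- relations of bounded degree, from a multiplication table -/
theorem core (r h c : ℕ) : ∃ n₀ : ℕ, ∀ (θ : Fin r → ℂ) (μ : Type) [Fintype μ] (m : μ → ℂ)
    (w : Fin h → ℂ) (j₀ : Fin h) (q : ℂ) (P : μ × Fin h × Fin h → MvPolynomial (Fin r) ℚ),
    w j₀ ≠ 0 → q ≠ 0 →
    (∀ ν j, q * m ν * w j = ∑ k, MvPolynomial.aeval θ (P (ν, j, k)) * w k) →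
    (∀ x, ∀ v ∈ (P x).support, ∀ i, v i ≤ c) →
    ∀ (K : Type) [Field K] [Algebra K ℂ] (p : Fin (r + 2) → μ → K),
      ∃ F : MvPolynomial (Fin (r + 2)) K, F ≠ 0 ∧ F.IsHomogeneous n₀ ∧
        MvPolynomial.aeval (fun i => ∑ ν, algebraMap K ℂ (p i ν) * m ν) F = 0 := by
  classical
  set t := h * (c * (r + 1) + 1) ^ r with ht
  refine ⟨(r + 1) * t, fun θ μ _ m w j₀ q P hw hq hP hc K _ _ p => ?_⟩
  set b : Fin (r + 2) → ℂ := fun i => ∑ ν, algebraMap K ℂ (p i ν) * m ν with hb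
  have hstep : ∀ i, ∀ (n : ℕ), ∀ y ∈ T θ w c K n, q * b i * y ∈ T θ w c K (n + 1) := by
    intro i n y hy
    have h1 : q * b i * y = ∑ ν, p i ν • (q * m ν * y) := by
      rw [hb]
      simp only
      rw [Finset.mul_sum, Finset.sum_mul]
      refine Finset.sum_congr rfl fun ν _ => ?_
      rw [Algebra.smul_def]
      ring
    rw [h1]
    exact Submodule.sum_mem _ fun ν _ => Submodule.smul_mem _ _ (step hP hc ν hy)
  have h0 : w j₀ ∈ T θ w c K 0 := by
    have h1 : te θ (0 : Fin r → ℕ) * w j₀ ∈ T θ w c K 0 := mem_T (fun i => Nat.zero_le _) j₀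
    have h2 : te θ (0 : Fin r → ℕ) = 1 := by simp [te]
    rwa [h2, one_mul] at h1
  have hmem : ∀ e : Fin (r + 1) → Fin (t + 1),
      q ^ ((r + 1) * t) * (∏ i, b i ^ ex e i) * w j₀ ∈ T θ w c K ((r + 1) * t) := by
    intro e
    have h1 := step_prod b hstep (ex e) Finset.univ h0
    rwa [sum_ex] at h1
  obtain ⟨hfd, hfr⟩ := finrank_T θ w c K ((r + 1) * t)
  have hdep : ¬ LinearIndependent K fun e : Fin (r + 1) → Fin (t + 1) =>
      (⟨_, hmem e⟩ : T θ w c K ((r + 1) * t)) := by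
    intro hli
    have h1 := hli.fintype_card_le_finrank
    have h2 : Fintype.card (Fin (r + 1) → Fin (t + 1)) = (t + 1) ^ (r + 1) := by simp
    rw [h2] at h1
    exact absurd (h1.trans hfr) (not_le.2 (count r h c))
  obtain ⟨f, hf0, e₀, he₀⟩ := Fintype.not_linearIndependent_iff.1 hdep
  let fx : (Fin (r + 1) → Fin (t + 1)) → (Fin (r + 2) →₀ ℕ) := fun e =>
    Finsupp.equivFunOnFinite.symm (ex e)
  have hfx : ∀ e i, fx e i = ex e i := fun e i => rfl
  refine ⟨∑ e, MvPolynomial.monomial (fx e) (f e), ?_, ?_, ?_⟩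
  · intro hF
    apply he₀
    have h1 := congrArg (MvPolynomial.coeff (fx e₀)) hF
    rw [MvPolynomial.coeff_sum, Finset.sum_eq_single e₀] at h1
    · simpa using h1
    · intro e _ hne
      rw [MvPolynomial.coeff_monomial, if_neg]
      intro h2
      exact hne (ex_inj (funext fun i => by rw [← hfx, ← hfx, h2]))
    · intro h2
      exact absurd (Finset.mem_univ _) h2
  · refine MvPolynomial.IsHomogeneous.sum _ _ _ fun e _ =>
      MvPolynomial.isHomogeneous_monomial _ ?_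
    rw [Finsupp.degree_eq_sum]
    simp only [hfx]
    exact sum_ex e
  · have h1 := congrArg (fun x : T θ w c K ((r + 1) * t) => (x : ℂ)) hf0
    simp only [Submodule.coe_sum, Submodule.coe_smul, Submodule.coe_zero] at h1
    have h2 : q ^ ((r + 1) * t) * w j₀ *
        MvPolynomial.aeval b (∑ e, MvPolynomial.monomial (fx e) (f e)) = 0 := by
      rw [← h1, map_sum, Finset.mul_sum]
      refine Finset.sum_congr rfl fun e _ => ?_
      rw [MvPolynomial.aeval_monomial, Finsupp.prod_fintype _ _ fun i => pow_zero _,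
        Algebra.smul_def]
      simp only [hfx]
      ring
    exact (mul_eq_zero.1 h2).resolve_left (mul_ne_zero (pow_ne_zero _ hq) hw)

/-- a bound for the exponents -/
theorem exists_exp {r : ℕ} {X : Type} [Fintype X] (P : X → MvPolynomial (Fin r) ℚ) :
    ∃ c : ℕ, ∀ x, ∀ v ∈ (P x).support, ∀ i, v i ≤ c := by
  classical
  refine ⟨∑ x, (P x).totalDegree, fun x v hv i => ?_⟩
  refine (MvPolynomial.monomial_le_degreeOf i hv).trans
    ((MvPolynomial.degreeOf_le_totalDegree _ _).trans ?_)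
  exact Finset.single_le_sum (f := fun x => (P x).totalDegree) (fun _ _ => Nat.zero_le _)
    (Finset.mem_univ x)

/-- HIL: relations of bounded degree -/
theorem hil {r : ℕ} (θ : Fin r → ℂ) {μ : Type} [Fintype μ] (m : μ → ℂ)
    (hm : ∀ ν, IsAlgebraic (IntermediateField.adjoin ℚ (Set.range θ)) (m ν)) :
    ∃ n₀ : ℕ, ∀ (K : Type) [Field K] [Algebra K ℂ] (p : Fin (r + 2) → μ → K),
      ∃ F : MvPolynomial (Fin (r + 2)) K, F ≠ 0 ∧ F.IsHomogeneous n₀ ∧
        MvPolynomial.aeval (fun i => ∑ ν, algebraMap K ℂ (p i ν) * m ν) F = 0 := by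
  obtain ⟨h, w, j₀, q, P, hw, hq, hP⟩ := exists_table θ m hm
  obtain ⟨c, hc⟩ := exists_exp P
  obtain ⟨n₀, hn⟩ := core r h c
  exact ⟨n₀, fun K _ _ p => hn θ μ m w j₀ q P hw hq hP hc K p⟩

/-- the exponents of a product with a power of the new variable -/
theorem exp_rename {r c k : ℕ} (P : MvPolynomial (Fin r) ℚ) (hc : ∀ v ∈ P.support, ∀ i, v i ≤ c)
    {j : ℕ} (hj : j ≤ k) :
    ∀ v ∈ (MvPolynomial.rename Fin.succ P * MvPolynomial.X 0 ^ j : MvPolynomial (Fin (r + 1)) ℚ).support,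
      ∀ i, v i ≤ c + k := by
  classical
  intro v hv i
  rw [MvPolynomial.X_pow_eq_monomial] at hv
  have h1 := MvPolynomial.support_mul _ _ hv
  obtain ⟨a, ha, b, hb, rfl⟩ := Finset.mem_add.1 h1
  have hb' := MvPolynomial.support_monomial_subset hb
  rw [Finset.mem_singleton] at hb'
  rw [MvPolynomial.support_rename_of_injective (Fin.succ_injective r), Finset.mem_image] at ha
  obtain ⟨a', ha', rfl⟩ := ha
  rw [hb', Finsupp.add_apply]
  refine add_le_add ?_ ?_
  · refine Fin.cases ?_ (fun i => ?_) i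
    · rw [Finsupp.mapDomain_of_notMem_range _ _ (by rintro ⟨x, hx⟩; exact Fin.succ_ne_zero x hx)]
      exact Nat.zero_le _
    · rw [Finsupp.mapDomain_apply (Fin.succ_injective r)]
      exact hc a' ha' i
  · rw [Finsupp.single_apply]
    split_ifs <;> omega

/-- the same for polynomials in one more variable, uniformly in this variable -/
theorem hil_poly {r : ℕ} (θ : Fin r → ℂ) {μ : Type} [Fintype μ] (k : ℕ) (m : μ → Fin (k + 1) → ℂ)
    (hm : ∀ i j, IsAlgebraic (IntermediateField.adjoin ℚ (Set.range θ)) (m i j)) :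
    ∃ n₀ : ℕ, ∀ (t : ℂ) (K : Type) [Field K] [Algebra K ℂ] (p : Fin (r + 3) → μ → K),
      ∃ F : MvPolynomial (Fin (r + 3)) K, F ≠ 0 ∧ F.IsHomogeneous n₀ ∧
        MvPolynomial.aeval (fun a => ∑ i, algebraMap K ℂ (p a i) *
          ∑ j : Fin (k + 1), m i j * t ^ (j : ℕ)) F = 0 := by
  obtain ⟨h, w, j₀, q, P, hw, hq, hP⟩ := exists_table θ (fun x : μ × Fin (k + 1) => m x.1 x.2)
    fun x => hm x.1 x.2
  obtain ⟨c, hc⟩ := exists_exp P
  obtain ⟨n₀, hn⟩ := core (r + 1) h (c + k)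
  refine ⟨n₀, fun t K _ _ p => ?_⟩
  obtain ⟨F, hF, hF', h0⟩ := hn (Fin.cons t θ) (μ × Fin (k + 1))
    (fun x => m x.1 x.2 * t ^ (x.2 : ℕ)) w j₀ q
    (fun x => MvPolynomial.rename Fin.succ (P x) * MvPolynomial.X 0 ^ (x.1.2 : ℕ)) hw hq
    (fun ν j => by
      have h1 := congrArg (fun z => t ^ (ν.2 : ℕ) * z) (hP ν j)
      calc q * (m ν.1 ν.2 * t ^ (ν.2 : ℕ)) * w j = t ^ (ν.2 : ℕ) * (q * m ν.1 ν.2 * w j) := by ring
        _ = _ := by
          rw [h1, Finset.mul_sum]
          refine Finset.sum_congr rfl fun a _ => ?_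
          rw [map_mul, map_pow, MvPolynomial.aeval_X, MvPolynomial.aeval_rename, Fin.cons_zero]
          have h2 : (Fin.cons t θ : Fin (r + 1) → ℂ) ∘ Fin.succ = θ := by
            funext i
            simp
          rw [h2]
          ring)
    (fun x => exp_rename (P x) (hc x) (Nat.le_of_lt_succ x.1.2.2)) K
    (fun a x => p a x.1)
  refine ⟨F, hF, hF', ?_⟩
  rw [← h0]
  congr 1
  congr 1
  funext a
  rw [Fintype.sum_prod_type]
  refine Finset.sum_congr rfl fun i _ => ?_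
  rw [Finset.mul_sum]

end Pool.Agent.Lib.MPf11a48.CG.HilM
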