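import Pool.Agent.Lib.MP_f11a48_ag.CG.Spec
import Pool.Agent.Lib.MP_f11a48_ag.CG.Hil

/-!
# Module CNT: homogeneous relations of bounded degree
-/

set_option autoImplicit false

namespace Pool.Agent.Lib.MPf11a48.CG

/-- relations in more variables -/
theorem CntM.more {r R n : ℕ} (hR : r ≤ R) {K : Type} [Field K] [Algebra K ℂ] (b : Fin R → ℂ)
    (h : ∃ F : MvPolynomial (Fin r) K, F ≠ 0 ∧ F.IsHomogeneous n ∧
      MvPolynomial.aeval (fun a => b (Fin.castLE hR a)) F = 0) :
    ∃ F : MvPolynomial (Fin R) K, F ≠ 0 ∧ F.IsHomogeneous n ∧ MvPolynomial.aeval b F = 0 := by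
  obtain ⟨F, hF, hF', h0⟩ := h
  refine ⟨MvPolynomial.rename (Fin.castLE hR) F, ?_, hF'.rename_isHomogeneous, ?_⟩
  · intro h1
    apply hF
    refine MvPolynomial.rename_injective _ (Fin.castLE_injective hR) ?_
    rw [h1, map_zero]
  · rw [MvPolynomial.aeval_rename]
    exact h0

theorem specCnt : SpecCnt := by
  intro μ _ k m r θ hm R hR
  by_cases hk : k = 0
  · subst hk
    obtain ⟨n, hn⟩ := HilM.hil θ (fun i => m i 0) fun i => hm i 0
    refine ⟨n, fun t K u => ?_⟩
    have hR' : r + 2 ≤ R := by simpa using hR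
    refine CntM.more hR' _ ?_
    obtain ⟨F, hF, hF', h0⟩ := hn K fun a => u (Fin.castLE hR' a)
    refine ⟨F, hF, hF', ?_⟩
    rw [← h0]
    congr 1
    congr 1
    funext a
    refine Finset.sum_congr rfl fun i _ => ?_
    rw [Fin.sum_univ_one]
    simp
  · rw [if_neg hk] at hR
    have hR' : r + 3 ≤ R := hR
    obtain ⟨n, hn⟩ := HilM.hil_poly θ k m hm
    refine ⟨n, fun t K u => ?_⟩
    refine CntM.more hR' _ ?_
    exact hn t K fun a => u (Fin.castLE hR' a)

end Pool.Agent.Lib.MPf11a48.CG
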