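import Pool.Agent.Lib.MP_f11a48_ag.CG.Spec2
import Pool.Agent.Lib.MP_f11a48_ag.CF.Core
import Pool.Agent.Lib.MP_f11a48_ag.K3.Curve

/-!
# COD: relations between the coordinates of a tensor
-/

set_option autoImplicit false

namespace Pool.Agent.Lib.MPf11a48.CG

open Matrix
open Pool.Agent.Lib.MPf11a48.Tors
open Pool.Agent.Lib.MPf11a48.CF (ta)
open Pool.Agent.Lib.MPf11a48.CF.CorM (ta_mul ta_one ta_apply)
open Pool.Agent.Lib.MPf11a48.GL2 (lie van en Geo tang lr)
open Pool.Agent.Lib.MPf11a48.K3.KCurM (gl)

namespace CodM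

variable {ι κ : Type} [Fintype ι] [DecidableEq ι] [Fintype κ] [DecidableEq κ]

theorem dt_apply (X : Matrix ι ι ℂ) (w : (κ → ι) → ℂ) (J : κ → ι) :
    dt X w J = ∑ k, ∑ i, X (J k) i * w (Function.update J k i) := rfl

theorem dt_br (X Y : Matrix ι ι ℂ) (w : (κ → ι) → ℂ) :
    dt (X * Y - Y * X) w = dt X (dt Y w) - dt Y (dt X w) := by
  -- the part with two different positions
  let O : Matrix ι ι ℂ → Matrix ι ι ℂ → (κ → ι) → ℂ := fun X Y J =>
    ∑ k, ∑ l, if l = k then 0 else ∑ i, ∑ j, X (J k) i * (Y (J l) j *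
      w (Function.update (Function.update J k i) l j))
  have h1 : ∀ (X Y : Matrix ι ι ℂ) (J : κ → ι), dt X (dt Y w) J = dt (X * Y) w J + O X Y J := by
    intro X Y J
    simp only [dt_apply, O]
    rw [← Finset.sum_add_distrib]
    refine Finset.sum_congr rfl fun k _ => ?_
    have e1 : ∀ i, ∑ l, ∑ j, Y (Function.update J k i l) j *
        w (Function.update (Function.update J k i) l j) =
        ∑ j, Y i j * w (Function.update J k j) + ∑ l, if l = k then 0 else ∑ j, Y (J l) j *
          w (Function.update (Function.update J k i) l j) := by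
      intro i
      have e2 : ∀ l, ∑ j, Y (Function.update J k i l) j *
          w (Function.update (Function.update J k i) l j) =
          (if l = k then ∑ j, Y i j * w (Function.update J k j) else 0) +
          if l = k then 0 else ∑ j, Y (J l) j *
            w (Function.update (Function.update J k i) l j) := by
        intro l
        by_cases hl : l = k
        · subst hl
          simp only [if_true, add_zero, Function.update_self, Function.update_idem]
        · simp only [if_neg hl, zero_add, Function.update_of_ne hl]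
      rw [Finset.sum_congr rfl fun l _ => e2 l, Finset.sum_add_distrib, Finset.sum_ite_eq']
      simp
    rw [Finset.sum_congr rfl fun i _ => by rw [e1 i]]
    simp only [mul_add, Finset.sum_add_distrib]
    congr 1
    · simp only [Finset.mul_sum, Matrix.mul_apply, Finset.sum_mul]
      rw [Finset.sum_comm]
      refine Finset.sum_congr rfl fun j _ => Finset.sum_congr rfl fun i _ => by ring
    · simp only [Finset.mul_sum]
      rw [Finset.sum_comm]
      refine Finset.sum_congr rfl fun l _ => ?_
      by_cases hl : l = k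
      · simp [hl]
      · simp only [if_neg hl, Finset.mul_sum]
  have h2 : ∀ (X Y : Matrix ι ι ℂ) (J : κ → ι), O X Y J = O Y X J := by
    intro X Y J
    simp only [O]
    rw [Finset.sum_comm]
    refine Finset.sum_congr rfl fun l _ => Finset.sum_congr rfl fun k _ => ?_
    by_cases hl : l = k
    · rw [if_pos hl, if_pos hl.symm]
    · rw [if_neg hl, if_neg (Ne.symm hl), Finset.sum_comm]
      refine Finset.sum_congr rfl fun j _ => Finset.sum_congr rfl fun i _ => ?_
      rw [Function.update_comm hl]
      ring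
  funext J
  rw [Pi.sub_apply, h1, h1, h2 X Y, add_sub_add_right_eq_sub]
  simp only [dt_apply, Matrix.sub_apply, sub_mul, Finset.sum_sub_distrib]

/-- `dt` as a linear map in the matrix -/
def dtL (w : (κ → ι) → ℂ) : Matrix ι ι ℂ →ₗ[ℂ] ((κ → ι) → ℂ) where
  toFun X := dt X w
  map_add' X Y := by
    funext J
    simp only [dt_apply, Matrix.add_apply, add_mul, Finset.sum_add_distrib, Pi.add_apply]
  map_smul' a X := by
    funext J
    simp only [dt_apply, Matrix.smul_apply, smul_eq_mul, mul_assoc, Finset.mul_sum, Pi.smul_apply,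
      RingHom.id_apply]

theorem dtL_apply (w : (κ → ι) → ℂ) (X : Matrix ι ι ℂ) : dtL w X = dt X w := rfl

/-- the one-parameter groups `gl X` -/
theorem one_gl (X : Matrix ι ι ℂ) : One (gl X) X where
  add s s' := by
    refine Units.ext ?_
    change NormedSpace.exp ((s + s') • X) = NormedSpace.exp (s • X) * NormedSpace.exp (s' • X)
    rw [add_smul, Matrix.exp_add_of_commute _ _
      (((Commute.refl X).smul_right s').smul_left s)]
  der i j := by
    have h := Pool.Agent.Lib.MPf11a48.K3.KCurM.dv_gl X 0 i j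
    refine h.congr_deriv ?_
    change (X * (gl X 0).1) i j = X i j
    rw [Pool.Agent.Lib.MPf11a48.K3.KCurM.gl_zero, Units.val_one, Matrix.mul_one]

theorem isSS_geo {G : Subgroup (GL ι ℂ)} (h : IsSS G) : Geo (G : Set (GL ι ℂ)) := by
  refine GL2.geo_of_torsor ⟨GL2.closedOver_mono bot_le h.closed, ⟨1, G.one_mem⟩, ?_⟩
  intro a ha b hb d hd
  exact G.mul_mem (G.mul_mem ha (G.inv_mem hb)) hd

theorem gl_mem {G : Subgroup (GL ι ℂ)} (h : Geo (G : Set (GL ι ℂ))) {X : Matrix ι ι ℂ}
    (hX : X ∈ lie (G : Set (GL ι ℂ))) (s : ℂ) : gl X s ∈ G := by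
  have h1 := K3.specCurve ι (G : Set (GL ι ℂ)) h X hX (gl X) (K3.KCurM.gl_zero X)
    (fun s i j => K3.KCurM.dv_gl X s i j) 1 G.one_mem s
  rwa [mul_one] at h1

/-- the Lie algebra is stable under conjugation -/
theorem lie_conj {G : Subgroup (GL ι ℂ)} (h : Geo (G : Set (GL ι ℂ))) :
    Adst G (lie (G : Set (GL ι ℂ))) := by
  intro g hg X hX
  rw [h.conj_mem_iff (f₀ := 1) hg G.one_mem]
  intro p hp
  have h1 := hX 1 G.one_mem p hp
  rw [Units.val_one, Matrix.mul_one] at h1
  rwa [Units.val_one, Matrix.one_mul]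

/-- the Lie algebra is spanned by brackets -/
theorem perfect (hKil : SpecKil) {G : Subgroup (GL ι ℂ)} (h : IsSS G) :
    Submodule.span ℂ {Z : Matrix ι ι ℂ | ∃ X ∈ lie (G : Set (GL ι ℂ)),
      ∃ Y ∈ lie (G : Set (GL ι ℂ)), Z = X * Y - Y * X} = lie (G : Set (GL ι ℂ)) := by
  set D := Submodule.span ℂ {Z : Matrix ι ι ℂ | ∃ X ∈ lie (G : Set (GL ι ℂ)),
      ∃ Y ∈ lie (G : Set (GL ι ℂ)), Z = X * Y - Y * X} with hD
  have hgeo := isSS_geo h
  have hle : D ≤ lie (G : Set (GL ι ℂ)) := by
    rw [hD, Submodule.span_le]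
    rintro Z ⟨X, hX, Y, hY, rfl⟩
    exact GL2.lie_br hX hY
  have hAd : Adst G D := by
    intro g hg Z hZ
    induction hZ using Submodule.span_induction with
    | mem Z hZ =>
      obtain ⟨X, hX, Y, hY, rfl⟩ := hZ
      apply Submodule.subset_span
      refine ⟨g.1 * X * g⁻¹.1, lie_conj hgeo g hg X hX, g.1 * Y * g⁻¹.1,
        lie_conj hgeo g hg Y hY, ?_⟩
      have e : g⁻¹.1 * g.1 = 1 := g.inv_mul
      have e1 : ∀ A B : Matrix ι ι ℂ, g.1 * A * g⁻¹.1 * (g.1 * B * g⁻¹.1) = g.1 * (A * B) * g⁻¹.1 := by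
        intro A B
        calc g.1 * A * g⁻¹.1 * (g.1 * B * g⁻¹.1) = g.1 * A * (g⁻¹.1 * g.1) * B * g⁻¹.1 := by
              simp only [Matrix.mul_assoc]
          _ = g.1 * (A * B) * g⁻¹.1 := by rw [e, Matrix.mul_one]; simp only [Matrix.mul_assoc]
      rw [e1, e1, Matrix.mul_sub, Matrix.sub_mul]
    | zero =>
      rw [Matrix.mul_zero, Matrix.zero_mul]
      exact D.zero_mem
    | add a b _ _ ha hb =>
      rw [Matrix.mul_add, Matrix.add_mul]
      exact D.add_mem ha hb
    | smul t a _ ha =>
      rw [Matrix.mul_smul, Matrix.smul_mul]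
      exact D.smul_mem t ha
  obtain ⟨h1, h2⟩ := (hKil ι G h).1 D hle hAd
  have hcen : cen G D = ⊥ := by
    refine h.ss _ (fun X hX => hX.1) ?_ ?_
    · intro g hg X hX
      refine ⟨lie_conj hgeo g hg X hX.1, fun Y hY => ?_⟩
      have e : g⁻¹.1 * g.1 = 1 := g.inv_mul
      have e' : g.1 * g⁻¹.1 = 1 := g.mul_inv
      have h3 := hX.2 _ (hAd g⁻¹ (G.inv_mem hg) Y hY)
      rw [inv_inv] at h3
      calc g.1 * X * g⁻¹.1 * Y = g.1 * (X * (g⁻¹.1 * Y * g.1)) * g⁻¹.1 := by
            simp only [Matrix.mul_assoc, e', Matrix.mul_one]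
        _ = g.1 * ((g⁻¹.1 * Y * g.1) * X) * g⁻¹.1 := by rw [h3]
        _ = Y * (g.1 * X * g⁻¹.1) := by
            simp only [← Matrix.mul_assoc, e', Matrix.one_mul]
    · intro X hX Y hY
      have h3 : X * Y - Y * X ∈ D ⊓ cen G D := by
        refine ⟨Submodule.subset_span ⟨X, hX.1, Y, hY.1, rfl⟩, GL2.lie_br hX.1 hY.1, ?_⟩
        intro Z hZ
        have e1 := hX.2 Z hZ
        have e2 := hY.2 Z hZ
        calc (X * Y - Y * X) * Z = X * (Y * Z) - Y * (X * Z) := by noncomm_ring
          _ = X * (Z * Y) - Y * (Z * X) := by rw [e2, e1]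
          _ = (X * Z) * Y - (Y * Z) * X := by noncomm_ring
          _ = (Z * X) * Y - (Z * Y) * X := by rw [e1, e2]
          _ = Z * (X * Y - Y * X) := by noncomm_ring
      rw [h1] at h3
      exact sub_eq_zero.1 ((Submodule.mem_bot ℂ).1 h3)
  rw [hcen, sup_bot_eq] at h2
  exact h2

/-- derivative of the value of a polynomial along a curve -/
theorem hasDerivAt_aeval {σ k : Type} [Fintype σ] [Field k] [Algebra k ℂ]
    (F : MvPolynomial σ k) (c : ℂ → σ → ℂ) (c' : σ → ℂ) (h : ∀ i, HasDerivAt (fun s => c s i) (c' i) 0) :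
    HasDerivAt (fun s => MvPolynomial.aeval (c s) F)
      (∑ i, c' i * MvPolynomial.aeval (c 0) (MvPolynomial.pderiv i F)) 0 := by
  classical
  induction F using MvPolynomial.induction_on with
  | C a =>
    simp only [MvPolynomial.algHom_C, MvPolynomial.pderiv_C, map_zero, mul_zero,
      Finset.sum_const_zero]
    exact hasDerivAt_const _ _
  | add p q hp hq =>
    simp only [map_add, mul_add, Finset.sum_add_distrib]
    exact hp.add hq
  | mul_X p j hp =>
    simp only [map_mul, MvPolynomial.aeval_X]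
    refine (hp.mul (h j)).congr_deriv ?_
    simp only [Derivation.leibniz, smul_eq_mul, map_add, map_mul, MvPolynomial.aeval_X, mul_add,
      Finset.sum_add_distrib]
    rw [add_comm]
    congr 1
    · rw [Finset.sum_eq_single j]
      · rw [MvPolynomial.pderiv_X_self, map_one]
        ring
      · intro i _ hi
        rw [MvPolynomial.pderiv_X_of_ne (Ne.symm hi), map_zero]
        ring
      · intro hj
        exact absurd (Finset.mem_univ j) hj
    · rw [Finset.sum_mul]
      refine Finset.sum_congr rfl fun i _ => by ring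

omit [DecidableEq ι] in
/-- the coordinates of `ta x α` are polynomials in `x` over `K` -/
theorem coordPoly {K : IntermediateField ℚ ℂ} (α : (κ → ι) → K) (J : κ → ι) :
    ∃ F : MvPolynomial (ι × ι) K, F.IsHomogeneous (Fintype.card κ) ∧ ∀ x : Matrix ι ι ℂ,
      MvPolynomial.aeval (fun p : ι × ι => x p.1 p.2) F = ta x (fun I => (α I : ℂ)) J := by
  refine ⟨∑ J' : κ → ι, MvPolynomial.C (α J') * ∏ k, MvPolynomial.X (J k, J' k), ?_, ?_⟩
  · refine MvPolynomial.IsHomogeneous.sum _ _ _ fun J' _ => ?_
    have h1 : (∏ k, MvPolynomial.X (J k, J' k) : MvPolynomial (ι × ι) K).IsHomogeneous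
        (∑ _k : κ, 1) :=
      MvPolynomial.IsHomogeneous.prod _ _ _ fun k _ => MvPolynomial.isHomogeneous_X K _
    have h3 := (MvPolynomial.isHomogeneous_C (ι × ι) (α J')).mul h1
    rw [zero_add] at h3
    simpa using h3
  · intro x
    simp only [map_sum, map_mul, map_prod, MvPolynomial.aeval_C, MvPolynomial.aeval_X, ta_apply]
    refine Finset.sum_congr rfl fun J' _ => ?_
    rw [mul_comm]
    rfl

end CodM

open CodM in
theorem specCod (hDt : SpecDt) (hKil : SpecKil) (hConn : SpecConn) : SpecCod := by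
  classical
  intro ι κ _ _ _ _ r n K y G₀ α hss hno hrel hF g hg
  set β : (κ → ι) → ℂ := fun I => (α I : ℂ) with hβ
  set b : (κ → ι) → ℂ := ta y.1 β with hb
  have hgy : ∀ g : GL ι ℂ, ta (g * y).1 β = ta g.1 b := by
    intro g
    rw [hb, ← ta_mul, ← Units.val_mul]
  rw [hgy]
  have hgeo := isSS_geo hss
  -- the case `b = 0`
  by_cases hb0 : b = 0
  · rw [hb0, map_zero]
  obtain ⟨J₀, hJ₀⟩ : ∃ J₀, b J₀ ≠ 0 := by
    by_contra hcon
    push Not at hcon
    exact hb0 (funext hcon)
  -- the space `V`
  set L : Submodule ℂ (Matrix ι ι ℂ) := lie (G₀ : Set (GL ι ℂ)) with hL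
  set V : Submodule ℂ ((κ → ι) → ℂ) := L.map (dtL b) ⊔ Submodule.span ℂ {b} with hV
  have hVd : ∀ X ∈ L, dt X b ∈ V := fun X hX =>
    Submodule.mem_sup_left ⟨X, hX, rfl⟩
  have hVb : b ∈ V := Submodule.mem_sup_right (Submodule.mem_span_singleton_self b)
  -- relations for the elements of `V`
  have hrelV : ∀ (J : Fin (r + 2) → (κ → ι)) (m : ℕ) (F : MvPolynomial (Fin (r + 2)) K), m ≤ n →
      F.IsHomogeneous m → MvPolynomial.aeval (fun i => b (J i)) F = 0 → ∀ v ∈ V,
      ∑ i, v (J i) * MvPolynomial.aeval (fun i => b (J i)) (MvPolynomial.pderiv i F) = 0 := by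
    intro J m F hm hFh hFb v hv
    choose P hPh hPe using fun J => coordPoly α J
    -- the relation for all elements of the group
    have h1 : ∀ h ∈ G₀, MvPolynomial.aeval (fun i => ta h.1 b (J i)) F = 0 := by
      intro h hh
      have e : ∀ x : Matrix ι ι ℂ, MvPolynomial.aeval (fun p : ι × ι => x p.1 p.2)
          (MvPolynomial.aeval (fun i => P (J i)) F) =
          MvPolynomial.aeval (fun i => ta x β (J i)) F := by
        intro x
        have e1 : (MvPolynomial.aeval (fun p : ι × ι => x p.1 p.2)).comp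
            (MvPolynomial.aeval (R := K) (fun i => P (J i))) =
            MvPolynomial.aeval (R := K) (fun i => ta x β (J i)) := by
          refine MvPolynomial.algHom_ext fun i => ?_
          rw [AlgHom.comp_apply, MvPolynomial.aeval_X, MvPolynomial.aeval_X, hPe]
        exact DFunLike.congr_fun e1 F
      have e2 := hrel (MvPolynomial.aeval (fun i => P (J i)) F)
        (by
          refine (hFh.aeval _ fun i => hPh (J i)).totalDegree_le.trans ?_
          rw [mul_comm]
          exact Nat.mul_le_mul_right _ hm)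
        (by
          rw [e]
          exact hFb) h hh
      rw [e] at e2
      have e3 : ta (h.1 * y.1) β = ta h.1 b := hgy h
      rw [e3] at e2
      exact e2
    rw [hV, Submodule.mem_sup] at hv
    obtain ⟨v1, hv1, v2, hv2, rfl⟩ := hv
    obtain ⟨X, hX, rfl⟩ := hv1
    obtain ⟨t, rfl⟩ := Submodule.mem_span_singleton.1 hv2
    have hX' : ∑ i, dt X b (J i) * MvPolynomial.aeval (fun i => b (J i))
        (MvPolynomial.pderiv i F) = 0 := by
      have e1 := hasDerivAt_aeval F (fun s i => ta (gl X s).1 b (J i)) (fun i => dt X b (J i))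
        (fun i => ((hDt ι κ).2.2 (gl X) X (one_gl X)).1 b (J i))
      have e2 : (fun s => MvPolynomial.aeval (fun i => ta (gl X s).1 b (J i)) F) = fun _ => 0 := by
        funext s
        exact h1 _ (gl_mem hgeo hX s)
      rw [e2] at e1
      have e3 := (hasDerivAt_const (0 : ℂ) (0 : ℂ)).unique e1
      have e4 : (fun i => ta (gl X 0).1 b (J i)) = fun i => b (J i) := by
        funext i
        rw [K3.KCurM.gl_zero, Units.val_one, ta_one]
      rw [e4] at e3
      exact e3.symm
    have hb' : ∑ i, b (J i) * MvPolynomial.aeval (fun i => b (J i))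
        (MvPolynomial.pderiv i F) = 0 := by
      have e1 := congrArg (MvPolynomial.aeval (fun i => b (J i))) hFh.sum_X_mul_pderiv
      simp only [map_sum, map_mul, MvPolynomial.aeval_X, map_nsmul, hFb, smul_zero] at e1
      exact e1
    have e5 : ∀ i, (dtL b X + t • b) (J i) = dt X b (J i) + t * b (J i) := fun i => rfl
    simp only [e5, add_mul, Finset.sum_add_distrib, mul_assoc, ← Finset.mul_sum, hX', hb',
      mul_zero, add_zero]
  -- the dimension of `V`
  have hdim : Module.finrank ℂ V ≤ r + 1 := by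
    by_contra hcon
    push Not at hcon
    obtain ⟨ρ, _, _, a, w, hwV, hwa, hv⟩ := Pool.Agent.Lib.MPf11a48.CM.exists_pivot V
    have hcard : Module.finrank ℂ V ≤ Fintype.card ρ := by
      have h1 : V ≤ Submodule.span ℂ (Set.range w) := by
        intro v hv'
        rw [hv v hv']
        exact Submodule.sum_mem _ fun p _ =>
          Submodule.smul_mem _ _ (Submodule.subset_span ⟨p, rfl⟩)
      exact (Submodule.finrank_mono h1).trans (finrank_range_le_card w)
    have hcard' : Fintype.card (Fin (r + 2)) ≤ Fintype.card ρ := by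
      rw [Fintype.card_fin]
      omega
    obtain ⟨e⟩ := Function.Embedding.nonempty_of_card_le hcard'
    let J : Fin (r + 2) → (κ → ι) := fun i => a (e i)
    have hex : ∃ m, ∃ F : MvPolynomial (Fin (r + 2)) K, F ≠ 0 ∧ F.IsHomogeneous m ∧
        MvPolynomial.aeval (fun i => b (J i)) F = 0 := ⟨n, hF J⟩
    obtain ⟨F, hF0, hFh, hFb⟩ := Nat.find_spec hex
    have hmn : Nat.find hex ≤ n := Nat.find_min' hex (hF J)
    have hG : ∀ i, MvPolynomial.aeval (fun i => b (J i)) (MvPolynomial.pderiv i F) = 0 := by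
      intro i
      have h1 := hrelV J _ F hmn hFh hFb (w (e i)) (hwV _)
      have h2 : ∀ i', w (e i) (J i') = if i' = i then 1 else 0 := by
        intro i'
        rw [hwa]
        by_cases h : i' = i
        · rw [if_pos (by rw [h]), if_pos h]
        · rw [if_neg (fun h' => h (e.injective h').symm), if_neg h]
      simp only [h2, ite_mul, one_mul, zero_mul, Finset.sum_ite_eq', Finset.mem_univ, if_true] at h1
      exact h1
    have hpos : Nat.find hex ≠ 0 := by
      intro h0
      rw [h0] at hFh
      rw [← MvPolynomial.totalDegree_zero_iff_isHomogeneous,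
        MvPolynomial.totalDegree_eq_zero_iff_eq_C] at hFh
      rw [hFh, MvPolynomial.aeval_C] at hFb
      have h1 : MvPolynomial.coeff 0 F = 0 := by
        exact (map_eq_zero (algebraMap K ℂ)).1 hFb
      rw [h1, map_zero] at hFh
      exact hF0 hFh
    have hp0 : ∀ i, MvPolynomial.pderiv i F = 0 := by
      intro i
      by_contra hne
      have h1 : Nat.find hex ≤ Nat.find hex - 1 :=
        Nat.find_min' hex ⟨_, hne, hFh.pderiv, hG i⟩
      omega
    have h2 := hFh.sum_X_mul_pderiv
    simp only [hp0, mul_zero, Finset.sum_const_zero] at h2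
    rcases smul_eq_zero.1 h2.symm with h3 | h3
    · exact hpos h3
    · exact hF0 h3
  -- the stabiliser of the line
  let S : Submodule ℂ (Matrix ι ι ℂ) :=
    { carrier := {X | X ∈ L ∧ ∃ c : ℂ, dt X b = c • b}
      add_mem' := by
        rintro X Y ⟨hX, c, hc⟩ ⟨hY, d, hd⟩
        refine ⟨L.add_mem hX hY, c + d, ?_⟩
        rw [← dtL_apply, map_add, dtL_apply, dtL_apply, hc, hd, add_smul]
      zero_mem' := ⟨L.zero_mem, 0, by rw [← dtL_apply, map_zero, zero_smul]⟩
      smul_mem' := by
        rintro t X ⟨hX, c, hc⟩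
        refine ⟨L.smul_mem t hX, t * c, ?_⟩
        rw [← dtL_apply, map_smul, dtL_apply, hc, smul_smul] }
  have hdt : ∀ (X : Matrix ι ι ℂ) (c : ℂ) (w : (κ → ι) → ℂ), dt X (c • w) = c • dt X w := by
    intro X c w
    exact map_smul _ c w
  have hbr : ∀ X ∈ S, ∀ Y ∈ S, dt (X * Y - Y * X) b = 0 := by
    rintro X ⟨hX, c, hc⟩ Y ⟨hY, d, hd⟩
    rw [dt_br, hc, hd, hdt, hdt, hc, hd, smul_smul, smul_smul, mul_comm, sub_self]
  have hS : S = L := by
    refine hno S (fun X hX => hX.1) ?_ ?_
    · rintro X hX Y hY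
      exact ⟨GL2.lie_br hX.1 hY.1, 0, by rw [hbr X hX Y hY, zero_smul]⟩
    · -- dimension
      let Φ : L →ₗ[ℂ] ((κ → ι) → ℂ) :=
        ((LinearMap.id - ((LinearMap.proj J₀ : ((κ → ι) → ℂ) →ₗ[ℂ] ℂ).smulRight
          ((b J₀)⁻¹ • b))).comp (dtL b)).comp L.subtype
      have hΦ : ∀ X : L, Φ X = dt X.1 b - (dt X.1 b J₀ * (b J₀)⁻¹) • b := by
        intro X
        simp only [Φ, LinearMap.comp_apply, LinearMap.sub_apply, LinearMap.id_apply,
          LinearMap.smulRight_apply, LinearMap.proj_apply, smul_smul, dtL_apply,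
          Submodule.subtype_apply]
      have hrange : LinearMap.range Φ < V := by
        refine lt_of_le_of_ne ?_ ?_
        · rintro _ ⟨X, rfl⟩
          rw [hΦ]
          exact V.sub_mem (hVd X.1 X.2) (V.smul_mem _ hVb)
        · intro h
          have h1 : b ∈ LinearMap.range Φ := by
            rw [h]
            exact hVb
          obtain ⟨X, hX⟩ := h1
          have h2 := congrFun hX J₀
          rw [hΦ] at h2
          simp only [Pi.sub_apply, Pi.smul_apply, smul_eq_mul] at h2
          rw [inv_mul_cancel_right₀ hJ₀, sub_self] at h2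
          exact hJ₀ h2.symm
      have h1 := Submodule.finrank_lt_finrank_of_lt hrange
      have h2 := LinearMap.finrank_range_add_finrank_ker Φ
      have h3 : Module.finrank ℂ (LinearMap.ker Φ) ≤ Module.finrank ℂ S := by
        have e1 : (LinearMap.ker Φ).map L.subtype ≤ S := by
          rintro _ ⟨X, hX, rfl⟩
          refine ⟨X.2, dt X.1 b J₀ * (b J₀)⁻¹, ?_⟩
          have e2 : Φ X = 0 := hX
          rw [hΦ] at e2
          exact sub_eq_zero.1 e2
        have e3 : Module.finrank ℂ ((LinearMap.ker Φ).map L.subtype) =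
            Module.finrank ℂ (LinearMap.ker Φ) :=
          (Submodule.equivMapOfInjective L.subtype L.injective_subtype
            (LinearMap.ker Φ)).finrank_eq.symm
        rw [← e3]
        exact Submodule.finrank_mono e1
      omega
  -- the Lie algebra kills `b`
  have hkill : ∀ X ∈ L, dt X b = 0 := by
    intro X hX
    rw [hL, ← perfect hKil hss] at hX
    induction hX using Submodule.span_induction with
    | mem Z hZ =>
      obtain ⟨X, hX, Y, hY, rfl⟩ := hZ
      exact hbr X (by rw [hS]; exact hX) Y (by rw [hS]; exact hY)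
    | zero => rw [← dtL_apply, map_zero]
    | add X Y _ _ hX hY => rw [← dtL_apply, map_add, dtL_apply, dtL_apply, hX, hY, add_zero]
    | smul t X _ hX => rw [← dtL_apply, map_smul, dtL_apply, hX, smul_zero]
  -- the stabiliser of `b`
  let N : Subgroup (GL ι ℂ) :=
    { carrier := {g | ta g.1 b = b}
      mul_mem' := by
        intro g h hg hh
        change ta (g * h).1 b = b
        rw [Units.val_mul, ta_mul, show ta h.1 b = b from hh]
        exact hg
      one_mem' := by
        change ta (1 : GL ι ℂ).1 b = b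
        rw [Units.val_one, ta_one]
      inv_mem' := by
        intro g hg
        change ta g⁻¹.1 b = b
        have h1 : ta g⁻¹.1 (ta g.1 b) = b := by
          rw [← ta_mul, ← Units.val_mul, inv_mul_cancel, Units.val_one, ta_one]
        rwa [show ta g.1 b = b from hg] at h1 }
  have hN : ClosedC (N : Set (GL ι ℂ)) := by
    refine ⟨Set.range fun J : κ → ι => (∑ J' : κ → ι, MvPolynomial.C (b J') *
      ∏ k, MvPolynomial.X (J k, J' k)) - MvPolynomial.C (b J), ?_⟩
    ext g
    have e : ∀ J : κ → ι, MvPolynomial.aeval (ent g) ((∑ J' : κ → ι, MvPolynomial.C (b J') *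
        ∏ k, MvPolynomial.X (J k, J' k) : MvPolynomial (ι × ι) ℂ) - MvPolynomial.C (b J)) =
        ta g.1 b J - b J := by
      intro J
      simp only [map_sub, map_sum, map_mul, map_prod, MvPolynomial.aeval_C, MvPolynomial.aeval_X,
        ta_apply]
      congr 1
      refine Finset.sum_congr rfl fun J' _ => ?_
      rw [mul_comm]
      rfl
    constructor
    · intro hg
      rintro _ ⟨J, rfl⟩
      change MvPolynomial.aeval (ent g) _ = 0
      rw [e, show ta g.1 b = b from hg, sub_self]
    · intro hg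
      change ta g.1 b = b
      funext J
      have h1 : MvPolynomial.aeval (ent g) _ = 0 := hg _ ⟨J, rfl⟩
      rw [e] at h1
      exact sub_eq_zero.1 h1
  have hle := hConn ι G₀ N hss hN fun X hX s =>
    ((hDt ι κ).2.2 (gl X) X (one_gl X)).2.1 b (hkill X hX) s
  exact hle hg

end Pool.Agent.Lib.MPf11a48.CG
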