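import Pool.Agent.Lib.MP_f11a48_ag.CG.SpecA
import Pool.Agent.Lib.MP_f11a48_ag.CG.Cod

/-!
# CODT: relations between the coordinates of a product of several tensors
-/

set_option autoImplicit false

namespace Pool.Agent.Lib.MPf11a48.CG

open Matrix
open Pool.Agent.Lib.MPf11a48.Tors
open Pool.Agent.Lib.MPf11a48.CF (ta)
open Pool.Agent.Lib.MPf11a48.CF.CorM (ta_mul ta_one ta_apply)
open Pool.Agent.Lib.MPf11a48.GL2 (lie van en Geo tang lr)
open Pool.Agent.Lib.MPf11a48.K3.KCurM (gl)

namespace CodtM

open CodM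

variable {ι σ : Type} [Fintype ι] [DecidableEq ι] [Fintype σ] [DecidableEq σ] {q : σ → ℕ}

omit [DecidableEq ι] [DecidableEq σ] in
/-- the products of coordinates are polynomials in the matrices over `K` -/
theorem coordPolyT {K : IntermediateField ℚ ℂ} (α : ∀ a, (Fin (q a) → ι) → K)
    (J : ∀ a, Fin (q a) → ι) :
    ∃ F : MvPolynomial (σ × ι × ι) K, F.IsHomogeneous (∑ a, q a) ∧
      ∀ x : σ → Matrix ι ι ℂ, MvPolynomial.aeval (fun p : σ × ι × ι => x p.1 p.2.1 p.2.2) F =
        ∏ a, ta (x a) (fun I => (α a I : ℂ)) (J a) := by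
  choose P hPh hPe using fun a => coordPoly (α a) (J a)
  refine ⟨∏ a, MvPolynomial.rename (fun p : ι × ι => (a, p)) (P a), ?_, ?_⟩
  · refine MvPolynomial.IsHomogeneous.prod _ _ _ fun a _ => ?_
    have h := (hPh a).rename_isHomogeneous (f := fun p : ι × ι => (a, p))
    rwa [Fintype.card_fin] at h
  · intro x
    rw [map_prod]
    refine Finset.prod_congr rfl fun a _ => ?_
    rw [MvPolynomial.aeval_rename]
    exact hPe a (x a)

/-- the derivative of the product of the coordinates -/
def DL (b : ∀ a, (Fin (q a) → ι) → ℂ) :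
    (σ → Matrix ι ι ℂ) →ₗ[ℂ] ((∀ a, Fin (q a) → ι) → ℂ) where
  toFun X J := ∑ a, (∏ c ∈ Finset.univ.erase a, b c (J c)) * dtL (b a) (X a) (J a)
  map_add' X Y := by
    funext J
    simp only [Pi.add_apply, map_add, mul_add, Finset.sum_add_distrib]
  map_smul' t X := by
    funext J
    simp only [Pi.smul_apply, map_smul, smul_eq_mul, RingHom.id_apply, Finset.mul_sum]
    exact Finset.sum_congr rfl fun _ _ => by ring

theorem DL_apply (b : ∀ a, (Fin (q a) → ι) → ℂ) (X : σ → Matrix ι ι ℂ)
    (J : ∀ a, Fin (q a) → ι) :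
    DL b X J = ∑ a, (∏ c ∈ Finset.univ.erase a, b c (J c)) * dt (X a) (b a) (J a) := rfl

/-- the change of one multi-index -/
theorem DL_update (b : ∀ a, (Fin (q a) → ι) → ℂ) (X : σ → Matrix ι ι ℂ)
    (J₀ : ∀ a, Fin (q a) → ι) (a : σ) : ∃ u : ℂ, ∀ I : Fin (q a) → ι,
      DL b X (Function.update J₀ a I) =
        (∏ c ∈ Finset.univ.erase a, b c (J₀ c)) * dt (X a) (b a) I + b a I * u := by
  refine ⟨∑ a' ∈ Finset.univ.erase a, (∏ c ∈ (Finset.univ.erase a').erase a, b c (J₀ c)) *
    dt (X a') (b a') (J₀ a'), fun I => ?_⟩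
  rw [DL_apply, ← Finset.add_sum_erase Finset.univ _ (Finset.mem_univ a)]
  congr 1
  · rw [Function.update_self]
    congr 1
    refine Finset.prod_congr rfl fun c hc => ?_
    rw [Function.update_of_ne (Finset.ne_of_mem_erase hc)]
  · rw [Finset.mul_sum]
    refine Finset.sum_congr rfl fun a' ha' => ?_
    have hne := Finset.ne_of_mem_erase ha'
    rw [Function.update_of_ne hne, ← Finset.mul_prod_erase (Finset.univ.erase a') _
      (Finset.mem_erase.2 ⟨hne.symm, Finset.mem_univ a⟩), Function.update_self, ← mul_assoc]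
    congr 2
    refine Finset.prod_congr rfl fun c hc => ?_
    rw [Function.update_of_ne (Finset.ne_of_mem_erase hc)]

omit [Fintype ι] [DecidableEq ι] in
theorem prod_update (b : ∀ a, (Fin (q a) → ι) → ℂ) (J₀ : ∀ a, Fin (q a) → ι) (a : σ)
    (I : Fin (q a) → ι) : ∏ c, b c (Function.update J₀ a I c) =
      b a I * ∏ c ∈ Finset.univ.erase a, b c (J₀ c) := by
  rw [← Finset.mul_prod_erase Finset.univ _ (Finset.mem_univ a), Function.update_self]
  congr 1
  refine Finset.prod_congr rfl fun c hc => ?_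
  rw [Function.update_of_ne (Finset.ne_of_mem_erase hc)]

end CodtM

open CodM CodtM in
theorem specCodt (hDt : SpecDt) : SpecCodt := by
  classical
  intro ι σ _ _ _ _ q r n K y G₀ α S hss hne hrel hF hS
  set β : ∀ a, (Fin (q a) → ι) → ℂ := fun a I => (α a I : ℂ) with hβ
  set b : ∀ a, (Fin (q a) → ι) → ℂ := fun a => ta (y a).1 (β a) with hb
  have hgy : ∀ (a : σ) (g : GL ι ℂ), ta (g * y a).1 (β a) = ta g.1 (b a) := by
    intro a g
    rw [hb]
    change _ = ta g.1 (ta (y a).1 (β a))
    rw [← ta_mul, ← Units.val_mul]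
  have hgeo := isSS_geo hss
  -- a multi-index
  have hJ : ∀ a, ∃ J, b a J ≠ 0 := by
    intro a
    by_contra hcon
    push Not at hcon
    exact hne a (funext hcon)
  choose J₀ hJ₀ using hJ
  set B : (∀ a, Fin (q a) → ι) → ℂ := fun J => ∏ a, b a (J a) with hB
  have hBJ₀ : B J₀ ≠ 0 := Finset.prod_ne_zero_iff.2 fun a _ => hJ₀ a
  -- the space `V`
  set L : Submodule ℂ (Matrix ι ι ℂ) := lie (G₀ : Set (GL ι ℂ)) with hL
  let incl : (σ → L) →ₗ[ℂ] (σ → Matrix ι ι ℂ) := LinearMap.pi fun a =>
    L.subtype.comp (LinearMap.proj a)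
  have hincl : ∀ (X : σ → L) (a : σ), incl X a = (X a).1 := fun X a => rfl
  let Ψ : (σ → L) →ₗ[ℂ] ((∀ a, Fin (q a) → ι) → ℂ) := (DL b).comp incl
  set V : Submodule ℂ ((∀ a, Fin (q a) → ι) → ℂ) :=
    LinearMap.range Ψ ⊔ Submodule.span ℂ {B} with hV
  have hVd : ∀ X : σ → L, Ψ X ∈ V := fun X => Submodule.mem_sup_left ⟨X, rfl⟩
  have hVb : B ∈ V := Submodule.mem_sup_right (Submodule.mem_span_singleton_self B)
  -- relations for the elements of `V`
  have hrelV : ∀ (J : Fin (r + 2) → ∀ a, Fin (q a) → ι) (m : ℕ)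
      (F : MvPolynomial (Fin (r + 2)) K), m ≤ n →
      F.IsHomogeneous m → MvPolynomial.aeval (fun i => B (J i)) F = 0 → ∀ v ∈ V,
      ∑ i, v (J i) * MvPolynomial.aeval (fun i => B (J i)) (MvPolynomial.pderiv i F) = 0 := by
    intro J m F hm hFh hFb v hv
    choose P hPh hPe using fun J => coordPolyT α J
    -- the relation for all elements of the group
    have h1 : ∀ h : σ → GL ι ℂ, (∀ a, h a ∈ G₀) →
        MvPolynomial.aeval (fun i => ∏ a, ta (h a).1 (b a) (J i a)) F = 0 := by
      intro h hh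
      have e : ∀ x : σ → Matrix ι ι ℂ, MvPolynomial.aeval (fun p : σ × ι × ι => x p.1 p.2.1 p.2.2)
          (MvPolynomial.aeval (fun i => P (J i)) F) =
          MvPolynomial.aeval (fun i => ∏ a, ta (x a) (β a) (J i a)) F := by
        intro x
        have e1 : (MvPolynomial.aeval (fun p : σ × ι × ι => x p.1 p.2.1 p.2.2)).comp
            (MvPolynomial.aeval (R := K) (fun i => P (J i))) =
            MvPolynomial.aeval (R := K) (fun i => ∏ a, ta (x a) (β a) (J i a)) := by
          refine MvPolynomial.algHom_ext fun i => ?_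
          rw [AlgHom.comp_apply, MvPolynomial.aeval_X, MvPolynomial.aeval_X, hPe]
        exact DFunLike.congr_fun e1 F
      have e2 := hrel (MvPolynomial.aeval (fun i => P (J i)) F)
        (by
          refine (hFh.aeval _ fun i => hPh (J i)).totalDegree_le.trans ?_
          rw [mul_comm]
          exact Nat.mul_le_mul_right _ hm)
        (by
          rw [e fun a => (y a).1]
          exact hFb) h hh
      rw [e fun a => (h a).1 * (y a).1] at e2
      have e3 : ∀ i, ∏ a, ta ((h a).1 * (y a).1) (β a) (J i a) =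
          ∏ a, ta (h a).1 (b a) (J i a) := by
        intro i
        refine Finset.prod_congr rfl fun a _ => ?_
        rw [← hgy a (h a), Units.val_mul]
      simp only [e3] at e2
      exact e2
    rw [hV, Submodule.mem_sup] at hv
    obtain ⟨v1, hv1, v2, hv2, rfl⟩ := hv
    obtain ⟨X, rfl⟩ := hv1
    obtain ⟨t, rfl⟩ := Submodule.mem_span_singleton.1 hv2
    have hX' : ∑ i, Ψ X (J i) * MvPolynomial.aeval (fun i => B (J i))
        (MvPolynomial.pderiv i F) = 0 := by
      have e0 : ∀ a, ta (gl (X a).1 0).1 (b a) = b a := by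
        intro a
        rw [K3.KCurM.gl_zero, Units.val_one, ta_one]
      have e1 := hasDerivAt_aeval F (fun s i => ∏ a, ta (gl (X a).1 s).1 (b a) (J i a))
        (fun i => Ψ X (J i)) (fun i => by
          have h2 := HasDerivAt.fun_finsetProd (u := Finset.univ) (x := (0 : ℂ))
            (f := fun a s => ta (gl (X a).1 s).1 (b a) (J i a))
            (f' := fun a => dt (X a).1 (b a) (J i a))
            (fun a _ => ((hDt ι (Fin (q a))).2.2 (gl (X a).1) (X a).1 (one_gl (X a).1)).1 (b a)
              (J i a))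
          refine h2.congr_deriv ?_
          change _ = DL b (incl X) (J i)
          rw [DL_apply]
          refine Finset.sum_congr rfl fun a _ => ?_
          rw [smul_eq_mul]
          congr 1
          refine Finset.prod_congr rfl fun c _ => ?_
          rw [e0])
      have e2 : (fun s => MvPolynomial.aeval
          (fun i => ∏ a, ta (gl (X a).1 s).1 (b a) (J i a)) F) = fun _ => 0 := by
        funext s
        exact h1 _ fun a => gl_mem hgeo (X a).2 s
      rw [e2] at e1
      have e3 := (hasDerivAt_const (0 : ℂ) (0 : ℂ)).unique e1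
      have e4 : (fun i => ∏ a, ta (gl (X a).1 0).1 (b a) (J i a)) = fun i => B (J i) := by
        funext i
        refine Finset.prod_congr rfl fun a _ => ?_
        rw [e0]
      rw [e4] at e3
      exact e3.symm
    have hb' : ∑ i, B (J i) * MvPolynomial.aeval (fun i => B (J i))
        (MvPolynomial.pderiv i F) = 0 := by
      have e1 := congrArg (MvPolynomial.aeval (fun i => B (J i))) hFh.sum_X_mul_pderiv
      simp only [map_sum, map_mul, MvPolynomial.aeval_X, map_nsmul, hFb, smul_zero] at e1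
      exact e1
    have e5 : ∀ i, (Ψ X + t • B) (J i) = Ψ X (J i) + t * B (J i) := fun i => rfl
    simp only [e5, add_mul, Finset.sum_add_distrib, mul_assoc, ← Finset.mul_sum, hX', hb',
      mul_zero, add_zero]
  -- the dimension of `V`
  have hdim : Module.finrank ℂ V ≤ r + 1 := by
    by_contra hcon
    push Not at hcon
    obtain ⟨ρ, _, _, a, w, hwV, hwa, hv⟩ := Pool.Agent.Lib.MPf11a48.CM.exists_pivot V
    have hcard : Module.finrank ℂ V ≤ Fintype.card ρ := by
      have h1 : V ≤ Submodule.span ℂ (Set.range w) := by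
        intro v hv'
        rw [hv v hv']
        exact Submodule.sum_mem _ fun p _ =>
          Submodule.smul_mem _ _ (Submodule.subset_span ⟨p, rfl⟩)
      exact (Submodule.finrank_mono h1).trans (finrank_range_le_card w)
    have hcard' : Fintype.card (Fin (r + 2)) ≤ Fintype.card ρ := by
      rw [Fintype.card_fin]
      omega
    obtain ⟨e⟩ := Function.Embedding.nonempty_of_card_le hcard'
    let J : Fin (r + 2) → ∀ a, Fin (q a) → ι := fun i => a (e i)
    have hex : ∃ m, ∃ F : MvPolynomial (Fin (r + 2)) K, F ≠ 0 ∧ F.IsHomogeneous m ∧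
        MvPolynomial.aeval (fun i => B (J i)) F = 0 := ⟨n, hF J⟩
    obtain ⟨F, hF0, hFh, hFb⟩ := Nat.find_spec hex
    have hmn : Nat.find hex ≤ n := Nat.find_min' hex (hF J)
    have hG : ∀ i, MvPolynomial.aeval (fun i => B (J i)) (MvPolynomial.pderiv i F) = 0 := by
      intro i
      have h1 := hrelV J _ F hmn hFh hFb (w (e i)) (hwV _)
      have h2 : ∀ i', w (e i) (J i') = if i' = i then 1 else 0 := by
        intro i'
        rw [hwa]
        by_cases h : i' = i
        · rw [if_pos (by rw [h]), if_pos h]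
        · rw [if_neg (fun h' => h (e.injective h').symm), if_neg h]
      simp only [h2, ite_mul, one_mul, zero_mul, Finset.sum_ite_eq', Finset.mem_univ, if_true] at h1
      exact h1
    have hpos : Nat.find hex ≠ 0 := by
      intro h0
      rw [h0] at hFh
      rw [← MvPolynomial.totalDegree_zero_iff_isHomogeneous,
        MvPolynomial.totalDegree_eq_zero_iff_eq_C] at hFh
      rw [hFh, MvPolynomial.aeval_C] at hFb
      have h1 : MvPolynomial.coeff 0 F = 0 := by
        exact (map_eq_zero (algebraMap K ℂ)).1 hFb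
      rw [h1, map_zero] at hFh
      exact hF0 hFh
    have hp0 : ∀ i, MvPolynomial.pderiv i F = 0 := by
      intro i
      by_contra hne
      have h1 : Nat.find hex ≤ Nat.find hex - 1 :=
        Nat.find_min' hex ⟨_, hne, hFh.pderiv, hG i⟩
      omega
    have h2 := hFh.sum_X_mul_pderiv
    simp only [hp0, mul_zero, Finset.sum_const_zero] at h2
    rcases smul_eq_zero.1 h2.symm with h3 | h3
    · exact hpos h3
    · exact hF0 h3
  -- the stabiliser of the line
  let Φ : (σ → L) →ₗ[ℂ] ((∀ a, Fin (q a) → ι) → ℂ) :=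
    (LinearMap.id - ((LinearMap.proj J₀ : ((∀ a, Fin (q a) → ι) → ℂ) →ₗ[ℂ] ℂ).smulRight
      ((B J₀)⁻¹ • B))).comp Ψ
  have hΦ : ∀ X : σ → L, Φ X = Ψ X - (Ψ X J₀ * (B J₀)⁻¹) • B := by
    intro X
    simp only [Φ, LinearMap.comp_apply, LinearMap.sub_apply, LinearMap.id_apply,
      LinearMap.smulRight_apply, LinearMap.proj_apply, smul_smul]
  have hrange : LinearMap.range Φ < V := by
    refine lt_of_le_of_ne ?_ ?_
    · rintro _ ⟨X, rfl⟩
      rw [hΦ]
      exact V.sub_mem (hVd X) (V.smul_mem _ hVb)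
    · intro h
      have h1 : B ∈ LinearMap.range Φ := by
        rw [h]
        exact hVb
      obtain ⟨X, hX⟩ := h1
      have h2 := congrFun hX J₀
      rw [hΦ] at h2
      simp only [Pi.sub_apply, Pi.smul_apply, smul_eq_mul] at h2
      rw [inv_mul_cancel_right₀ hBJ₀, sub_self] at h2
      exact hBJ₀ h2.symm
  have h1 := Submodule.finrank_lt_finrank_of_lt hrange
  have h2 := LinearMap.finrank_range_add_finrank_ker Φ
  -- the kernel
  have hker : ∀ X ∈ LinearMap.ker Φ, ∀ a, (X a).1 ∈ S a := by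
    intro X hX a
    have e2 : Φ X = 0 := hX
    rw [hΦ, sub_eq_zero] at e2
    obtain ⟨u, hu⟩ := DL_update b (incl X) J₀ a
    set p : ℂ := ∏ c ∈ Finset.univ.erase a, b c (J₀ c) with hp
    have hp0 : p ≠ 0 := Finset.prod_ne_zero_iff.2 fun c _ => hJ₀ c
    refine hS a _ (X a).2 ⟨Ψ X J₀ * (B J₀)⁻¹ - u * p⁻¹, ?_⟩
    funext I
    have e3 := congrFun e2 (Function.update J₀ a I)
    have e4 : Ψ X (Function.update J₀ a I) = p * dt (X a).1 (b a) I + b a I * u := hu I
    have e5 : B (Function.update J₀ a I) = b a I * p := prod_update b J₀ a I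
    rw [e4, Pi.smul_apply, e5, smul_eq_mul] at e3
    change dt (X a).1 (b a) I = (Ψ X J₀ * (B J₀)⁻¹ - u * p⁻¹) * b a I
    have e6 : p * dt (X a).1 (b a) I = p * ((Ψ X J₀ * (B J₀)⁻¹ - u * p⁻¹) * b a I) := by
      have e7 : p * ((Ψ X J₀ * (B J₀)⁻¹ - u * p⁻¹) * b a I) =
          Ψ X J₀ * (B J₀)⁻¹ * (b a I * p) - b a I * u * (p * p⁻¹) := by ring
      rw [e7, mul_inv_cancel₀ hp0, mul_one, ← e3]
      ring
    exact mul_left_cancel₀ hp0 e6
  have h3 : Module.finrank ℂ (LinearMap.ker Φ) ≤ ∑ a, Module.finrank ℂ (S a) := by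
    rw [← Module.finrank_pi_fintype ℂ]
    let j : LinearMap.ker Φ →ₗ[ℂ] ∀ a, S a := LinearMap.pi fun a =>
      { toFun := fun X => ⟨(X.1 a).1, hker X.1 X.2 a⟩
        map_add' := fun X Y => rfl
        map_smul' := fun t X => rfl }
    refine LinearMap.finrank_le_finrank_of_injective (f := j) ?_
    intro X Y h
    apply Subtype.ext
    funext a
    apply Subtype.ext
    have := congrArg Subtype.val (congrFun h a)
    exact this
  have h4 : Module.finrank ℂ (σ → L) = Fintype.card σ * Module.finrank ℂ L := by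
    rw [Module.finrank_pi_fintype ℂ, Finset.sum_const, Finset.card_univ, smul_eq_mul]
  rw [← h4, ← h2]
  omega

end Pool.Agent.Lib.MPf11a48.CG
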