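import Pool.Agent.Lib.MP_f11a48_ag.CG.Spec
import Pool.Agent.Lib.MP_f11a48_ag.K3.Curve

/-!
# CONN: a connected group has no proper closed subgroup with the same Lie algebra
-/

set_option autoImplicit false

namespace Pool.Agent.Lib.MPf11a48.CG

open Matrix MvPolynomial
open Pool.Agent.Lib.MPf11a48.Tors
open Pool.Agent.Lib.MPf11a48.CM hiding OmegaM
open Pool.Agent.Lib.MPf11a48.GL2 (lie van en Geo lr eval_lr geo_of_torsor closedOver_mono glmul
  glinv glinv')
open Pool.Agent.Lib.MPf11a48.K3.KCurM (gl gl_zero dv_gl)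

namespace ConnM

variable {ι : Type} [Fintype ι] [DecidableEq ι]

theorem torsor_of_ss {G : Subgroup (GL ι ℂ)} (hG : IsSS G) : IsTorsor Qbar (G : Set (GL ι ℂ)) :=
  ⟨closedOver_mono bot_le hG.closed, ⟨1, G.one_mem⟩,
    fun _ ha _ hb _ hd => G.mul_mem (G.mul_mem ha (G.inv_mem hb)) hd⟩

theorem geo {G : Subgroup (GL ι ℂ)} (hG : IsSS G) : Geo (G : Set (GL ι ℂ)) :=
  geo_of_torsor (torsor_of_ss hG)

theorem one_notMem {G : Subgroup (GL ι ℂ)} :
    (1 : MvPolynomial (ι × ι) ℂ) ∉ van (G : Set (GL ι ℂ)) := by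
  intro h
  have := h 1 G.one_mem
  rw [map_one] at this
  exact one_ne_zero this

theorem prod_mem {G : Subgroup (GL ι ℂ)} (hG : IsSS G) {J : Type} (F : Finset J)
    (p : J → MvPolynomial (ι × ι) ℂ) (h : ∏ f ∈ F, p f ∈ van (G : Set (GL ι ℂ))) :
    ∃ f ∈ F, p f ∈ van (G : Set (GL ι ℂ)) := by
  classical
  induction F using Finset.induction_on with
  | empty => exact absurd h (by rw [Finset.prod_empty]; exact one_notMem)
  | insert a s ha ih =>
    rw [Finset.prod_insert ha] at h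
    rcases hG.irred _ _ h with h | h
    · exact ⟨a, Finset.mem_insert_self _ _, h⟩
    · obtain ⟨f, hf, hp⟩ := ih h
      exact ⟨f, Finset.mem_insert_of_mem hf, hp⟩

end ConnM

open ConnM in
theorem specConn (hFix : SpecFix) : SpecConn := by
  classical
  intro ι _ _ G N hG hN hX
  obtain ⟨F, hF, hcov⟩ := hFix ι G N (geo hG) hN hX
  obtain ⟨S, hS⟩ := hN
  have hmem : ∀ x : GL ι ℂ, x ∈ N ↔ ∀ p ∈ S, eval (en x.1) p = 0 := by
    intro x
    have : x ∈ (N : Set (GL ι ℂ)) ↔ x ∈ {g : GL ι ℂ | ∀ p ∈ S, aeval (ent g) p = 0} := by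
      rw [← hS]
    exact this
  by_cases hex : ∃ f ∈ F, ∀ g ∈ G, f⁻¹ * g ∈ N
  · obtain ⟨f, -, hf⟩ := hex
    intro g hg
    have h1 : f⁻¹ ∈ N := by simpa using hf 1 G.one_mem
    have h2 : f ∈ N := by simpa using N.inv_mem h1
    simpa using N.mul_mem h2 (hf g hg)
  · push Not at hex
    have h1 : ∀ f : GL ι ℂ, ∃ p : MvPolynomial (ι × ι) ℂ, (f ∈ F → ∃ g ∈ G,
        eval (en (f⁻¹ * g).1) p ≠ 0) ∧ ∀ n ∈ N, eval (en n.1) p = 0 := by
      intro f
      by_cases hf : f ∈ F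
      · obtain ⟨g, hg, hgN⟩ := hex f hf
        rw [hmem] at hgN
        push Not at hgN
        obtain ⟨p, hp, hpg⟩ := hgN
        exact ⟨p, fun _ => ⟨g, hg, hpg⟩, fun n hn => (hmem n).1 hn p hp⟩
      · exact ⟨0, fun h => absurd h hf, fun n _ => map_zero _⟩
    choose p hp1 hp2 using h1
    have h2 : ∏ f ∈ F, lr f⁻¹.1 1 (p f) ∈ van (G : Set (GL ι ℂ)) := by
      intro g hg
      obtain ⟨f, hf, hfg⟩ := hcov g hg
      rw [map_prod]
      refine Finset.prod_eq_zero hf ?_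
      rw [eval_lr, Matrix.mul_one, ← glmul]
      exact hp2 f _ hfg
    obtain ⟨f, hf, hfv⟩ := prod_mem hG F _ h2
    obtain ⟨g, hg, hne⟩ := hp1 f hf
    refine absurd ?_ hne
    have := hfv g hg
    rw [eval_lr, Matrix.mul_one, ← glmul] at this
    exact this

end Pool.Agent.Lib.MPf11a48.CG
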