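import Pool.Agent.Lib.MP_f11a48_ag.CG.SpecP

/-!
# DDF: the divided derivatives of the system of the entries of `Y`
-/

set_option autoImplicit false

namespace Pool.Agent.Lib.MPf11a48.CG

open Polynomial Matrix
open scoped PowerSeries
open Pool.Agent.Lib.MPf11a48.GF

namespace DdfM

variable {ι : Type} [Fintype ι] [DecidableEq ι]

/-- the summand -/
noncomputable def S (T0 : ℚ[X]) (A : ℕ → Matrix ι ι ℚ) (D : ℕ → ι → ℚ[X]) (k : ι) (x : ℕ × ℕ)
    (l j : ι) : ℚ[X] :=
  C (A x.1 k l) * X ^ x.2 * T0 ^ x.1 * D x.2 j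

lemma bn_succ (N : Matrix ι ι ℚ) (a : ℕ) (k l : ι) :
    ((a : ℚ) + 1) * bn (-N) (a + 1) k l =
      -(∑ l', bn (-N) a k l' * N l' l) - (a : ℚ) * bn (-N) a k l := by
  have h : ((a : ℚ) + 1) ≠ 0 := by positivity
  rw [bn, Matrix.smul_apply, smul_eq_mul, ← mul_assoc, Nat.cast_succ, mul_inv_cancel₀ h, one_mul,
    mul_sub, Matrix.sub_apply, mul_neg, Matrix.neg_apply, Matrix.mul_apply, Matrix.mul_smul,
    Matrix.smul_apply, mul_one, smul_eq_mul]

lemma dd_succ {ν : Type} [Fintype ν] (T : ℚ[X]) (B : Matrix ν ν ℚ[X]) (P : ν → ℚ[X]) (b : ℕ)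
    (j : ν) : ((b : ℚ[X]) + 1) * dd T B P (b + 1) j =
      T * derivative (dd T B P b j) + ∑ i, dd T B P b i * B i j -
        (b : ℚ[X]) * derivative T * dd T B P b j := by
  have h : ((b : ℚ) + 1) ≠ 0 := by positivity
  have h1 : ((b : ℚ[X]) + 1) = C ((b : ℚ) + 1) := by simp
  rw [dd, h1, ← mul_assoc, ← C_mul, mul_inv_cancel₀ h, C_1, one_mul]
  rfl

lemma step (T0 : ℚ[X]) (B0 : Matrix ι ι ℚ[X]) (N : Matrix ι ι ℚ) (P : ι → ℚ[X]) (q : ℚ[X])
    (k l j : ι) (x : ℕ × ℕ) :
    q * X * T0 * derivative (S T0 (bn (-N)) (dd T0 B0 P) k x l j) +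
      (∑ j', S T0 (bn (-N)) (dd T0 B0 P) k x l j' * (q * X * B0 j' j) -
        ∑ l', S T0 (bn (-N)) (dd T0 B0 P) k x l' j * (q * C (N l' l) * T0)) -
      ((x.1 : ℚ[X]) + (x.2 : ℚ[X])) * (q * (T0 + X * derivative T0)) *
        S T0 (bn (-N)) (dd T0 B0 P) k x l j =
    q * (((x.2 : ℚ[X]) + 1) * S T0 (bn (-N)) (dd T0 B0 P) k (x.1, x.2 + 1) l j +
      ((x.1 : ℚ[X]) + 1) * S T0 (bn (-N)) (dd T0 B0 P) k (x.1 + 1, x.2) l j) := by
  obtain ⟨a, b⟩ := x
  simp only [S]
  have h1 : X * derivative (X ^ b : ℚ[X]) = (b : ℚ[X]) * X ^ b := by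
    rcases b with _ | b
    · simp
    · rw [derivative_X_pow, Nat.add_sub_cancel, pow_succ]
      simp only [map_natCast]
      ring
  have h2 : T0 * derivative (T0 ^ a) = (a : ℚ[X]) * T0 ^ a * derivative T0 := by
    rcases a with _ | a
    · simp
    · rw [derivative_pow_succ, pow_succ]
      simp only [map_natCast, Nat.cast_succ, map_add, map_one]
      ring
  have h3 : derivative (C (bn (-N) a k l) * X ^ b * T0 ^ a * dd T0 B0 P b j) =
      C (bn (-N) a k l) * (derivative (X ^ b) * T0 ^ a * dd T0 B0 P b j +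
        X ^ b * derivative (T0 ^ a) * dd T0 B0 P b j +
        X ^ b * T0 ^ a * derivative (dd T0 B0 P b j)) := by
    rw [derivative_mul, derivative_mul, derivative_mul, derivative_C]
    ring
  have h4 : ∑ j', C (bn (-N) a k l) * X ^ b * T0 ^ a * dd T0 B0 P b j' * (q * X * B0 j' j) =
      C (bn (-N) a k l) * X ^ b * T0 ^ a * q * X * ∑ j', dd T0 B0 P b j' * B0 j' j := by
    rw [Finset.mul_sum]
    exact Finset.sum_congr rfl fun _ _ => by ring
  have h5 : ∑ l', C (bn (-N) a k l') * X ^ b * T0 ^ a * dd T0 B0 P b j * (q * C (N l' l) * T0) =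
      C (∑ l', bn (-N) a k l' * N l' l) * (X ^ b * T0 ^ a * T0 * q * dd T0 B0 P b j) := by
    rw [map_sum, Finset.sum_mul]
    refine Finset.sum_congr rfl fun _ _ => ?_
    rw [C_mul]
    ring
  have h6 := dd_succ T0 B0 P b j
  have h7 : ((a : ℚ[X]) + 1) * C (bn (-N) (a + 1) k l) =
      -C (∑ l', bn (-N) a k l' * N l' l) - (a : ℚ[X]) * C (bn (-N) a k l) := by
    have := congrArg (C : ℚ → ℚ[X]) (bn_succ N a k l)
    simpa using this
  rw [h3, h4, h5]
  linear_combination (q * T0 * C (bn (-N) a k l) * T0 ^ a * dd T0 B0 P b j) * h1 +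
    (q * X * C (bn (-N) a k l) * X ^ b * dd T0 B0 P b j) * h2 -
    (q * C (bn (-N) a k l) * X ^ (b + 1) * T0 ^ a) * h6 -
    (q * X ^ b * T0 ^ (a + 1) * dd T0 B0 P b j) * h7

lemma anti (F : ℕ × ℕ → ℚ[X]) (m : ℕ) :
    ∑ x ∈ Finset.HasAntidiagonal.antidiagonal m,
      (((x.2 : ℚ[X]) + 1) * F (x.1, x.2 + 1) + ((x.1 : ℚ[X]) + 1) * F (x.1 + 1, x.2)) =
    ((m : ℚ[X]) + 1) * ∑ x ∈ Finset.HasAntidiagonal.antidiagonal (m + 1), F x := by
  have h1 := Finset.Nat.sum_antidiagonal_succ (n := m) (f := fun x => (x.1 : ℚ[X]) * F x)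
  have h2 := Finset.Nat.sum_antidiagonal_succ' (n := m) (f := fun x => (x.2 : ℚ[X]) * F x)
  simp only [Nat.cast_zero, zero_mul, zero_add, Nat.cast_add, Nat.cast_one] at h1 h2
  rw [Finset.sum_add_distrib, ← h1, ← h2, ← Finset.sum_add_distrib, Finset.mul_sum]
  refine Finset.sum_congr rfl fun x hx => ?_
  have h3 : x.1 + x.2 = m + 1 := Finset.HasAntidiagonal.mem_antidiagonal.mp hx
  have h4 : (x.1 : ℚ[X]) + x.2 = m + 1 := by exact_mod_cast congrArg (Nat.cast : ℕ → ℚ[X]) h3
  rw [← add_mul, add_comm, h4]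

lemma sswap {α β : Type} (s : Finset α) (t : Finset β) (c : ℚ[X]) (f : α → β → ℚ[X])
    (g : β → ℚ[X]) :
    ∑ y ∈ t, (c * ∑ x ∈ s, f x y) * g y = c * ∑ x ∈ s, ∑ y ∈ t, f x y * g y := by
  rw [Finset.sum_comm, Finset.mul_sum]
  refine Finset.sum_congr rfl fun y _ => ?_
  rw [mul_assoc, Finset.sum_mul]

end DdfM

open DdfM in
theorem specDdf : SpecDdf := by
  intro ι _ _ T B N N₁ q hN m k i
  have key : ∀ (l j : ι), dd (zq (TT q T)) ((BP q T B N₁).map zq) (Pi.single (k, i) 1) m (l, j) =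
      C ((q : ℚ) ^ m) * ∑ x ∈ Finset.HasAntidiagonal.antidiagonal m,
        S (zq T) (bn (-N)) (dd (zq T) (B.map zq) (Pi.single i 1)) k x l j := by
    induction m with
    | zero =>
      intro l j
      rw [Finset.Nat.antidiagonal_zero, Finset.sum_singleton]
      simp only [dd, S, bn, pow_zero, mul_one]
      by_cases hl : k = l
      · subst hl
        by_cases hj : i = j
        · subst hj
          simp
        · rw [Pi.single_eq_of_ne (by rintro h; exact hj (Prod.ext_iff.mp h).2.symm),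
            Pi.single_eq_of_ne (Ne.symm hj)]
          simp
      · rw [Pi.single_eq_of_ne (by rintro h; exact hl (Prod.ext_iff.mp h).1.symm),
          Matrix.one_apply_ne hl]
        simp
    | succ m ih =>
      intro l j
      have hT : zq (TT q T) = C (q : ℚ) * X * zq T := by
        simp [TT]
      have hT' : derivative (zq (TT q T)) = C (q : ℚ) * (zq T + X * derivative (zq T)) := by
        rw [hT, derivative_mul, derivative_mul, derivative_C, derivative_X]
        ring
      have hB : ∀ v w : ι × ι, (BP q T B N₁).map zq v w =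
          (if v.1 = w.1 then C (q : ℚ) * X * zq (B v.2 w.2) else 0) -
            if v.2 = w.2 then C (q : ℚ) * C (N v.1 w.1) * zq T else 0 := by
        intro v w
        have h1 : C ((N₁ v.1 w.1 : ℤ) : ℚ) = C (q : ℚ) * C (N v.1 w.1) := by
          rw [← C_mul, hN]
        rw [← h1]
        simp only [Matrix.map_apply, BP, zq, Polynomial.map_sub]
        congr 1
        · split_ifs <;> simp
        · split_ifs <;> simp
      have hm : ((m : ℚ[X]) + 1) ≠ 0 := by
        exact_mod_cast Nat.succ_ne_zero m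
      refine mul_left_cancel₀ hm ?_
      rw [dd_succ, ih l j]
      have hsum : ∑ v : ι × ι, dd (zq (TT q T)) ((BP q T B N₁).map zq) (Pi.single (k, i) 1) m v *
          (BP q T B N₁).map zq v (l, j) =
          C ((q : ℚ) ^ m) * ∑ x ∈ Finset.HasAntidiagonal.antidiagonal m,
            (∑ j', S (zq T) (bn (-N)) (dd (zq T) (B.map zq) (Pi.single i 1)) k x l j' *
              (C (q : ℚ) * X * (B.map zq) j' j) -
            ∑ l', S (zq T) (bn (-N)) (dd (zq T) (B.map zq) (Pi.single i 1)) k x l' j *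
              (C (q : ℚ) * C (N l' l) * zq T)) := by
        rw [Fintype.sum_prod_type]
        simp_rw [hB, mul_sub, Finset.sum_sub_distrib]
        simp only [mul_ite, mul_zero]
        have e1 : ∑ x, ∑ y, (if x = l then dd (zq (TT q T)) ((BP q T B N₁).map zq)
            (Pi.single (k, i) 1) m (x, y) * (C (q : ℚ) * X * zq (B y j)) else 0) =
            ∑ y, dd (zq (TT q T)) ((BP q T B N₁).map zq)
            (Pi.single (k, i) 1) m (l, y) * (C (q : ℚ) * X * zq (B y j)) := by
          rw [Finset.sum_comm]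
          refine Finset.sum_congr rfl fun y _ => ?_
          rw [Finset.sum_ite_eq' Finset.univ l, if_pos (Finset.mem_univ _)]
        have e2 : ∑ x, ∑ y, (if y = j then dd (zq (TT q T)) ((BP q T B N₁).map zq)
            (Pi.single (k, i) 1) m (x, y) * (C (q : ℚ) * C (N x l) * zq T) else 0) =
            ∑ x, dd (zq (TT q T)) ((BP q T B N₁).map zq)
            (Pi.single (k, i) 1) m (x, j) * (C (q : ℚ) * C (N x l) * zq T) := by
          refine Finset.sum_congr rfl fun y _ => ?_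
          rw [Finset.sum_ite_eq' Finset.univ j, if_pos (Finset.mem_univ _)]
        rw [e1, e2]
        simp_rw [ih]
        rw [sswap, sswap, ← mul_sub]
        rfl
      rw [hsum, hT', hT, derivative_C_mul]
      have h := anti (fun x => S (zq T) (bn (-N)) (dd (zq T) (B.map zq) (Pi.single i 1)) k x l j) m
      rw [mul_left_comm ((m : ℚ[X]) + 1), ← h, pow_succ, C_mul]
      have h1 : ∀ x ∈ Finset.HasAntidiagonal.antidiagonal m, C (q : ℚ) *
          (((x.2 : ℚ[X]) + 1) * S (zq T) (bn (-N)) (dd (zq T) (B.map zq) (Pi.single i 1)) k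
            (x.1, x.2 + 1) l j +
          ((x.1 : ℚ[X]) + 1) * S (zq T) (bn (-N)) (dd (zq T) (B.map zq) (Pi.single i 1)) k
            (x.1 + 1, x.2) l j) =
          C (q : ℚ) * X * zq T * derivative (S (zq T) (bn (-N))
            (dd (zq T) (B.map zq) (Pi.single i 1)) k x l j) +
          (∑ j', S (zq T) (bn (-N)) (dd (zq T) (B.map zq) (Pi.single i 1)) k x l j' *
              (C (q : ℚ) * X * (B.map zq) j' j) -
            ∑ l', S (zq T) (bn (-N)) (dd (zq T) (B.map zq) (Pi.single i 1)) k x l' j *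
              (C (q : ℚ) * C (N l' l) * zq T)) -
          (m : ℚ[X]) * (C (q : ℚ) * (zq T + X * derivative (zq T))) *
            S (zq T) (bn (-N)) (dd (zq T) (B.map zq) (Pi.single i 1)) k x l j := by
        intro x hx
        have h3 : x.1 + x.2 = m := Finset.HasAntidiagonal.mem_antidiagonal.mp hx
        have h4 : (m : ℚ[X]) = (x.1 : ℚ[X]) + (x.2 : ℚ[X]) := by
          rw [← h3, Nat.cast_add]
        rw [h4]
        exact (step (zq T) (B.map zq) N (Pi.single i 1) (C (q : ℚ)) k l j x).symm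
      have h2 := Finset.sum_congr rfl h1
      rw [Finset.sum_sub_distrib, Finset.sum_add_distrib, ← Finset.mul_sum, ← Finset.mul_sum,
        ← Finset.mul_sum, ← derivative_sum] at h2
      linear_combination (-C ((q : ℚ) ^ m)) * h2
  intro l j
  rw [key l j]
  rfl

end Pool.Agent.Lib.MPf11a48.CG
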