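import Pool.Agent.Lib.MP_f11a48_ag.CG.Spec

/-!
# Module DEG: fields generated by algebraic numbers of bounded degree
-/

set_option autoImplicit false

namespace Pool.Agent.Lib.MPf11a48.CG.DegM

open Polynomial

theorem step (e : ℕ) (L : IntermediateField ℚ ℂ) (hL : FiniteDimensional ℚ L) (x : ℂ)
    (p : ℚ[X]) (hp : p ≠ 0) (hd : p.natDegree ≤ e) (hx : aeval x p = 0) :
    ∃ L' : IntermediateField ℚ ℂ, L ≤ L' ∧ FiniteDimensional ℚ L' ∧ x ∈ L' ∧
      Module.finrank ℚ L' ≤ Module.finrank ℚ L * e := by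
  set M : IntermediateField L ℂ := IntermediateField.adjoin L {x} with hM
  set p' : L[X] := p.map (algebraMap ℚ L) with hp'
  have hp0 : p' ≠ 0 := (Polynomial.map_ne_zero_iff (algebraMap ℚ L).injective).2 hp
  have hx' : aeval x p' = 0 := by rw [hp', aeval_map_algebraMap, hx]
  have hint : IsIntegral L x := (isAlgebraic_iff_isIntegral).1 ⟨p', hp0, hx'⟩
  have hfin : FiniteDimensional L M := IntermediateField.adjoin.finiteDimensional hint
  have hrank : Module.finrank L M ≤ e := by
    rw [hM, IntermediateField.adjoin.finrank hint]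
    refine le_trans (natDegree_le_of_dvd (minpoly.dvd L x hx') hp0) ?_
    rw [hp', natDegree_map]
    exact hd
  refine ⟨M.restrictScalars ℚ, ?_, ?_, ?_, ?_⟩
  · intro y hy
    exact M.algebraMap_mem ⟨y, hy⟩
  · exact FiniteDimensional.trans ℚ L M
  · exact IntermediateField.mem_adjoin_simple_self L x
  · have h1 := Module.finrank_mul_finrank ℚ L M
    change Module.finrank ℚ M ≤ _
    rw [← h1]
    exact Nat.mul_le_mul_left _ hrank

end Pool.Agent.Lib.MPf11a48.CG.DegM

namespace Pool.Agent.Lib.MPf11a48.CG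

open Polynomial

theorem specDeg : SpecDeg := by
  intro r e K hK
  induction r with
  | zero =>
    intro x _
    exact ⟨K, le_rfl, hK, fun a => a.elim0, by rw [pow_zero, mul_one]⟩
  | succ r ih =>
    intro x hx
    obtain ⟨L, h1, h2, h3, h4⟩ := ih (fun a => x a.castSucc) fun a => hx _
    obtain ⟨p, hp, hd, hx'⟩ := hx (Fin.last r)
    obtain ⟨L', k1, k2, k3, k4⟩ := DegM.step e L h2 (x (Fin.last r)) p hp hd hx'
    refine ⟨L', h1.trans k1, k2, fun a => ?_, ?_⟩
    · refine Fin.lastCases k3 (fun b => k1 (h3 b)) a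
    · refine k4.trans ?_
      rw [pow_succ, ← mul_assoc]
      exact Nat.mul_le_mul_right _ h4

end Pool.Agent.Lib.MPf11a48.CG
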