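import Pool.Agent.Lib.MP_f11a48_ag.CG.Spec
import Pool.Agent.Lib.MP_f11a48_ag.CF.Core

/-!
# DT: the derivative of the action on tensors
-/

set_option autoImplicit false

namespace Pool.Agent.Lib.MPf11a48.CG

open Matrix
open Pool.Agent.Lib.MPf11a48.CF (ta)

namespace DtM

variable {ι κ : Type} [Fintype ι] [DecidableEq ι] [Fintype κ] [DecidableEq κ]

theorem ta_apply (g : Matrix ι ι ℂ) (w : (κ → ι) → ℂ) (J : κ → ι) :
    ta g w J = ∑ I, (∏ k, g (J k) (I k)) * w I := rfl

theorem dt_apply (X : Matrix ι ι ℂ) (w : (κ → ι) → ℂ) (J : κ → ι) :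
    dt X w J = ∑ k, ∑ i, X (J k) i * w (Function.update J k i) := rfl

/-- a sum over the multi-indices which differ from `J` only at `k` -/
theorem sum_erase (Z : Matrix ι ι ℂ) (w : (κ → ι) → ℂ) (J : κ → ι) (k : κ) :
    ∑ I : κ → ι, (∏ j ∈ Finset.univ.erase k, (1 : Matrix ι ι ℂ) (J j) (I j)) * Z (J k) (I k) * w I
      = ∑ i, Z (J k) i * w (Function.update J k i) := by
  symm
  refine Finset.sum_of_injOn (fun i => Function.update J k i) ?_ ?_ ?_ ?_
  · intro i _ i' _ h
    have := congrFun h k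
    simpa using this
  · intro i _
    simp
  · intro I _ hI
    have : ∃ j, j ≠ k ∧ J j ≠ I j := by
      by_contra hcon
      push Not at hcon
      refine hI ⟨I k, by simp, ?_⟩
      funext j
      by_cases hj : j = k
      · subst hj
        simp
      · simp only [Function.update_of_ne hj]
        exact hcon j hj
    obtain ⟨j, hj, hne⟩ := this
    have : ∏ j ∈ Finset.univ.erase k, (1 : Matrix ι ι ℂ) (J j) (I j) = 0 :=
      Finset.prod_eq_zero (Finset.mem_erase.2 ⟨hj, Finset.mem_univ j⟩) (Matrix.one_apply_ne hne)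
    rw [this, zero_mul, zero_mul]
  · intro i _
    have : ∏ j ∈ Finset.univ.erase k, (1 : Matrix ι ι ℂ) (J j) (Function.update J k i j) = 1 := by
      refine Finset.prod_eq_one fun j hj => ?_
      rw [Function.update_of_ne (Finset.ne_of_mem_erase hj), Matrix.one_apply_eq]
    show Z (J k) i * w (Function.update J k i) = _
    rw [this, one_mul, Function.update_self]

/-- the derivative of the action along a curve of matrices through `1` -/
theorem der (f : ℂ → Matrix ι ι ℂ) (Z : Matrix ι ι ℂ) (h0 : f 0 = 1)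
    (hf : ∀ i j, HasDerivAt (fun s => f s i j) (Z i j) 0) (w : (κ → ι) → ℂ) (J : κ → ι) :
    HasDerivAt (fun s => ta (f s) w J) (dt Z w J) 0 := by
  have h1 : ∀ I : κ → ι, HasDerivAt (fun s => (∏ k, f s (J k) (I k)) * w I)
      ((∑ k, (∏ j ∈ Finset.univ.erase k, (1 : Matrix ι ι ℂ) (J j) (I j)) * Z (J k) (I k)) * w I)
      0 := by
    intro I
    have h2 := HasDerivAt.fun_finsetProd (u := Finset.univ) (x := (0 : ℂ))
      (f := fun k s => f s (J k) (I k)) (f' := fun k => Z (J k) (I k))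
      (fun k _ => hf (J k) (I k))
    simp only [smul_eq_mul, h0] at h2
    exact h2.mul_const (w I)
  have h3 := HasDerivAt.fun_sum (u := Finset.univ) (fun I _ => h1 I)
  have h4 : (∑ I : κ → ι, (∑ k, (∏ j ∈ Finset.univ.erase k, (1 : Matrix ι ι ℂ) (J j) (I j)) *
      Z (J k) (I k)) * w I) = dt Z w J := by
    rw [dt_apply]
    simp only [Finset.sum_mul]
    rw [Finset.sum_comm]
    exact Finset.sum_congr rfl fun k _ => sum_erase Z w J k
  rw [h4] at h3
  exact h3

/-- the curve `1 + s X` -/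
theorem der_line (X : Matrix ι ι ℂ) (i j : ι) :
    HasDerivAt (fun s : ℂ => (1 + s • X) i j) (X i j) 0 := by
  have h := ((hasDerivAt_id (0 : ℂ)).mul_const (X i j)).const_add ((1 : Matrix ι ι ℂ) i j)
  simpa [Matrix.add_apply, Matrix.smul_apply] using h

theorem equiv (g : GL ι ℂ) (X : Matrix ι ι ℂ) (w : (κ → ι) → ℂ) :
    dt (g.1 * X * g⁻¹.1) w = ta g.1 (dt X (ta g⁻¹.1 w)) := by
  have hgg : g.1 * g⁻¹.1 = 1 := by
    rw [← Units.val_mul, mul_inv_cancel, Units.val_one]
  funext J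
  have h1 := der (fun s : ℂ => 1 + s • (g.1 * X * g⁻¹.1)) (g.1 * X * g⁻¹.1) (by simp)
    (der_line _) w J
  have h2 : HasDerivAt (fun s : ℂ => ta g.1 (ta (1 + s • X) (ta g⁻¹.1 w)) J)
      (ta g.1 (dt X (ta g⁻¹.1 w)) J) 0 := by
    have h3 : ∀ I : κ → ι, HasDerivAt
        (fun s : ℂ => (∏ k, g.1 (J k) (I k)) * ta (1 + s • X) (ta g⁻¹.1 w) I)
        ((∏ k, g.1 (J k) (I k)) * dt X (ta g⁻¹.1 w) I) 0 := fun I =>
      (der (fun s : ℂ => 1 + s • X) X (by simp) (der_line X) (ta g⁻¹.1 w) I).const_mul _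
    exact HasDerivAt.fun_sum (u := Finset.univ) (fun I _ => h3 I)
  have h4 : (fun s : ℂ => ta g.1 (ta (1 + s • X) (ta g⁻¹.1 w)) J) =
      fun s : ℂ => ta (1 + s • (g.1 * X * g⁻¹.1)) w J := by
    funext s
    rw [← CF.CorM.ta_mul, ← CF.CorM.ta_mul]
    have : g.1 * (1 + s • X) * g⁻¹.1 = 1 + s • (g.1 * X * g⁻¹.1) := by
      rw [Matrix.mul_add, Matrix.add_mul, Matrix.mul_one, hgg, Matrix.mul_smul, Matrix.smul_mul]
    rw [← this, Matrix.mul_assoc]
  rw [h4] at h2
  exact h1.unique h2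

theorem one_zero {t : ℂ → GL ι ℂ} {Z : Matrix ι ι ℂ} (ht : One t Z) : t 0 = 1 := by
  have h := ht.add 0 0
  rw [add_zero] at h
  exact left_eq_mul.1 h

theorem add_apply {t : ℂ → GL ι ℂ} {Z : Matrix ι ι ℂ} (ht : One t Z) (s s' : ℂ)
    (w : (κ → ι) → ℂ) : ta (t (s + s')).1 w = ta (t s).1 (ta (t s').1 w) := by
  rw [ht.add, ← CF.CorM.ta_mul, Units.val_mul]

/-- derivative at `s` -/
theorem der_at {t : ℂ → GL ι ℂ} {Z : Matrix ι ι ℂ} (ht : One t Z) (w : (κ → ι) → ℂ) (J : κ → ι)
    (s : ℂ) : HasDerivAt (fun u => ta (t u).1 w J) (ta (t s).1 (dt Z w) J) s := by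
  have h0 : (t 0).1 = 1 := by rw [one_zero ht, Units.val_one]
  have h1 : HasDerivAt (fun u => ta (t s).1 (ta (t u).1 w) J) (ta (t s).1 (dt Z w) J) (s - s) := by
    rw [sub_self]
    have h3 : ∀ I : κ → ι, HasDerivAt
        (fun u : ℂ => (∏ k, (t s).1 (J k) (I k)) * ta (t u).1 w I)
        ((∏ k, (t s).1 (J k) (I k)) * dt Z w I) 0 := fun I =>
      (der (fun u : ℂ => (t u).1) Z h0 ht.der w I).const_mul _
    exact HasDerivAt.fun_sum (u := Finset.univ) (fun I _ => h3 I)
  have h2 := HasDerivAt.comp_sub_const s s h1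
  refine h2.congr_of_eventuallyEq (Filter.Eventually.of_forall fun u => ?_)
  show ta (t u).1 w J = ta (t s).1 (ta (t (u - s)).1 w) J
  rw [← add_apply ht, add_sub_cancel]

end DtM

open DtM in
theorem specDt : SpecDt := by
  intro ι κ _ _ _ _
  refine ⟨?_, fun g X w => equiv g X w, ?_⟩
  · intro X Y a w
    funext J
    simp only [Pi.add_apply, Pi.smul_apply, dt_apply, Matrix.add_apply, Matrix.smul_apply,
      smul_eq_mul, Finset.mul_sum, ← Finset.sum_add_distrib]
    exact Finset.sum_congr rfl fun _ _ => Finset.sum_congr rfl fun _ _ => by ring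
  · intro t Z ht
    have h0 : (t 0).1 = 1 := by rw [one_zero ht, Units.val_one]
    refine ⟨fun w J => der (fun s => (t s).1) Z h0 ht.der w J, ?_, ?_⟩
    · intro w hw s
      funext J
      have h1 : ∀ u, HasDerivAt (fun u => ta (t u).1 w J) 0 u := by
        intro u
        have := der_at ht w J u
        rwa [hw, map_zero] at this
      have h2 := is_const_of_deriv_eq_zero (f := fun u => ta (t u).1 w J)
        (fun u => (h1 u).differentiableAt) (fun u => (h1 u).deriv) s 0
      have h3 : ta (t 0).1 w J = w J := by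
        rw [h0, CF.CorM.ta_one]
      exact h2.trans h3
    · intro U hU w hw
      have hc : IsClosed (U : Set ((κ → ι) → ℂ)) := U.closed_of_finiteDimensional
      have h1 : HasDerivAt (fun s => ta (t s).1 w) (dt Z w) 0 :=
        hasDerivAt_pi.2 fun J => der (fun s => (t s).1) Z h0 ht.der w J
      rw [hasDerivAt_iff_tendsto_slope] at h1
      refine hc.mem_of_tendsto h1 (Filter.Eventually.of_forall fun s => ?_)
      rw [slope_def_module]
      exact U.smul_mem _ (U.sub_mem (hU s w hw) (hU 0 w hw))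

end Pool.Agent.Lib.MPf11a48.CG
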