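import Pool.Agent.Lib.MP_f11a48_ag.CG.Spec
import Pool.Agent.Lib.MP_f11a48_ag.CF.End

/-!
# Module END: subspaces of `End V` and invariant tensors of degree four (Maschke)
-/

set_option autoImplicit false

namespace Pool.Agent.Lib.MPf11a48.CG

open Matrix
open scoped Kronecker
open Pool.Agent.Lib.MPf11a48.CF (ta)
open Pool.Agent.Lib.MPf11a48.CF.EndM

theorem specEnd : SpecEnd := by
  intro d κ hd Γ hfin hΓ A hA g hg hw X hX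
  have hu := isUnit_iff_ne_zero.2 hd
  -- conjugation by isometries
  have hconj : ∀ g : GL (Fin d) ℂ, g.1ᵀ * κ * g.1 = κ → ∀ X : Matrix (Fin d) (Fin d) ℂ,
      vec (g.1 * X * g⁻¹.1 * κ⁻¹) = kr g.1 *ᵥ vec (X * κ⁻¹) := by
    intro g h1 X
    have h3 : g.1 * g⁻¹.1 = 1 := g.mul_inv
    have h2 : g⁻¹.1 * κ⁻¹ = κ⁻¹ * g.1ᵀ := by
      have h4 : κ * g⁻¹.1 = g.1ᵀ * κ := by
        calc κ * g⁻¹.1 = g.1ᵀ * κ * g.1 * g⁻¹.1 := by rw [h1]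
          _ = g.1ᵀ * κ * (g.1 * g⁻¹.1) := by rw [Matrix.mul_assoc]
          _ = _ := by rw [h3, Matrix.mul_one]
      calc g⁻¹.1 * κ⁻¹ = κ⁻¹ * κ * g⁻¹.1 * κ⁻¹ := by
            rw [Matrix.nonsing_inv_mul _ hu, Matrix.one_mul]
        _ = κ⁻¹ * (κ * g⁻¹.1) * κ⁻¹ := by simp only [Matrix.mul_assoc]
        _ = κ⁻¹ * g.1ᵀ * (κ * κ⁻¹) := by rw [h4]; simp only [Matrix.mul_assoc]
        _ = _ := by rw [Matrix.mul_nonsing_inv _ hu, Matrix.mul_one]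
    rw [kr_vec]
    congr 1
    rw [Matrix.mul_assoc, h2]
    simp only [Matrix.mul_assoc]
  -- the subspace, written on vectors
  set A' : Submodule ℂ (Fin d × Fin d → ℂ) :=
    { carrier := {x | ∃ X ∈ A, vec (X * κ⁻¹) = x}
      add_mem' := by
        rintro _ _ ⟨X, hX, rfl⟩ ⟨Y, hY, rfl⟩
        exact ⟨X + Y, A.add_mem hX hY, by rw [Matrix.add_mul, Matrix.vec_add]⟩
      zero_mem' := ⟨0, A.zero_mem, by rw [Matrix.zero_mul, Matrix.vec_zero]⟩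
      smul_mem' := by
        rintro t _ ⟨X, hX, rfl⟩
        exact ⟨t • X, A.smul_mem t hX, by rw [Matrix.smul_mul, Matrix.vec_smul]⟩ } with hA'
  have hmem : ∀ X, vec (X * κ⁻¹) ∈ A' ↔ X ∈ A := by
    intro X
    constructor
    · rintro ⟨Y, hY, h⟩
      have h1 : Y * κ⁻¹ = X * κ⁻¹ := Matrix.vec_inj.1 h
      have h2 : Y = X := by
        calc Y = Y * κ⁻¹ * κ := by rw [Matrix.mul_assoc, Matrix.nonsing_inv_mul _ hu, Matrix.mul_one]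
          _ = X * κ⁻¹ * κ := by rw [h1]
          _ = X := by rw [Matrix.mul_assoc, Matrix.nonsing_inv_mul _ hu, Matrix.mul_one]
      rwa [← h2]
    · exact fun h => ⟨X, h, rfl⟩
  obtain ⟨Q, hQ1, hQ2, hQ3⟩ := maschke Γ hfin A' (by
    rintro g hg _ ⟨X, hX, rfl⟩
    rw [← hconj g (hΓ g hg), hmem]
    exact hA g hg X hX)
  -- the matrix `N`
  have hN : ∀ g : GL (Fin d) ℂ, g.1ᵀ * κ * g.1 = κ → kr g.1 * kr κ⁻¹ * (kr g.1)ᵀ = kr κ⁻¹ := by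
    intro g h1
    rw [kr_transpose, ← kr_mul, ← kr_mul]
    congr 1
    have h2 : g.1 * κ⁻¹ * g.1ᵀ * κ * g.1 = g.1 := by
      calc g.1 * κ⁻¹ * g.1ᵀ * κ * g.1 = g.1 * κ⁻¹ * (g.1ᵀ * κ * g.1) := by
            simp only [Matrix.mul_assoc]
        _ = _ := by rw [h1, Matrix.mul_assoc, Matrix.nonsing_inv_mul _ hu, Matrix.mul_one]
    have h3 : g.1 * g⁻¹.1 = 1 := g.mul_inv
    have h4 : g.1 * κ⁻¹ * g.1ᵀ * κ = 1 := by
      calc g.1 * κ⁻¹ * g.1ᵀ * κ = g.1 * κ⁻¹ * g.1ᵀ * κ * (g.1 * g⁻¹.1) := by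
            rw [h3, Matrix.mul_one]
        _ = g.1 * κ⁻¹ * g.1ᵀ * κ * g.1 * g⁻¹.1 := by simp only [Matrix.mul_assoc]
        _ = 1 := by rw [h2, h3]
    calc g.1 * κ⁻¹ * g.1ᵀ = g.1 * κ⁻¹ * g.1ᵀ * κ * κ⁻¹ := by
          rw [Matrix.mul_assoc _ κ, Matrix.mul_nonsing_inv _ hu, Matrix.mul_one]
      _ = κ⁻¹ := by rw [h4, Matrix.one_mul]
  have hcomm : ∀ g : GL (Fin d) ℂ, g.1ᵀ * κ * g.1 = κ →
      (kr g.1 * Q = Q * kr g.1 ↔ ta g.1 (mt (Q * kr κ⁻¹)) = mt (Q * kr κ⁻¹)) := by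
    intro g hg
    rw [ta_mt]
    constructor
    · intro h
      congr 1
      calc kr g.1 * (Q * kr κ⁻¹) * (kr g.1)ᵀ = kr g.1 * Q * kr κ⁻¹ * (kr g.1)ᵀ := by
            simp only [Matrix.mul_assoc]
        _ = Q * (kr g.1 * kr κ⁻¹ * (kr g.1)ᵀ) := by rw [h]; simp only [Matrix.mul_assoc]
        _ = _ := by rw [hN g hg]
    · intro h
      have h1 := mt_inj h
      have h2 : kr g.1 * Q * (kr κ⁻¹ * (kr g.1)ᵀ) = Q * kr g.1 * (kr κ⁻¹ * (kr g.1)ᵀ) := by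
        calc kr g.1 * Q * (kr κ⁻¹ * (kr g.1)ᵀ) = kr g.1 * (Q * kr κ⁻¹) * (kr g.1)ᵀ := by
              simp only [Matrix.mul_assoc]
          _ = Q * kr κ⁻¹ := h1
          _ = Q * (kr g.1 * kr κ⁻¹ * (kr g.1)ᵀ) := by rw [hN g hg]
          _ = _ := by simp only [Matrix.mul_assoc]
      have h3 : kr κ⁻¹ * (kr g.1)ᵀ * (kr (g⁻¹.1)ᵀ * kr κ) = 1 := by
        have e1 : g.1ᵀ * (g⁻¹.1)ᵀ = 1 := by
          rw [← Matrix.transpose_mul]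
          have : g⁻¹.1 * g.1 = 1 := g.inv_mul
          rw [this, Matrix.transpose_one]
        rw [kr_transpose, ← kr_mul, ← kr_mul, ← kr_mul]
        have e2 : κ⁻¹ * g.1ᵀ * ((g⁻¹.1)ᵀ * κ) = 1 := by
          calc κ⁻¹ * g.1ᵀ * ((g⁻¹.1)ᵀ * κ) = κ⁻¹ * (g.1ᵀ * (g⁻¹.1)ᵀ) * κ := by
                simp only [Matrix.mul_assoc]
            _ = 1 := by rw [e1, Matrix.mul_one, Matrix.nonsing_inv_mul _ hu]
        rw [e2, kr_one]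
      calc kr g.1 * Q = kr g.1 * Q * (kr κ⁻¹ * (kr g.1)ᵀ * (kr (g⁻¹.1)ᵀ * kr κ)) := by
            rw [h3, Matrix.mul_one]
        _ = kr g.1 * Q * (kr κ⁻¹ * (kr g.1)ᵀ) * (kr (g⁻¹.1)ᵀ * kr κ) := by
            simp only [Matrix.mul_assoc]
        _ = Q * kr g.1 * (kr κ⁻¹ * (kr g.1)ᵀ) * (kr (g⁻¹.1)ᵀ * kr κ) := by rw [h2]
        _ = Q * kr g.1 * (kr κ⁻¹ * (kr g.1)ᵀ * (kr (g⁻¹.1)ᵀ * kr κ)) := by
            simp only [Matrix.mul_assoc]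
        _ = _ := by rw [h3, Matrix.mul_one]
  have hall := hw (mt (Q * kr κ⁻¹)) fun γ hγ => (hcomm γ (hΓ γ hγ)).1 (hQ3 γ hγ)
  have hc := (hcomm g hg).2 hall
  rw [← hmem, hconj g hg]
  have h5 : Q *ᵥ vec (X * κ⁻¹) = vec (X * κ⁻¹) := hQ2 _ ((hmem X).2 hX)
  rw [← h5, Matrix.mulVec_mulVec, hc, ← Matrix.mulVec_mulVec]
  exact hQ1 _

end Pool.Agent.Lib.MPf11a48.CG
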