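import Pool.Agent.Lib.MP_f11a48_ag.CG.SpecB
import Pool.Agent.Lib.MP_f11a48_ag.K3.Curve

/-!
# EXC: derivatives along the orbit
-/

set_option autoImplicit false
set_option linter.unusedSectionVars false

namespace Pool.Agent.Lib.MPf11a48.CG

open Matrix MvPolynomial
open Pool.Agent.Lib.MPf11a48.Tors
open Pool.Agent.Lib.MPf11a48.CM hiding OmegaM
open Pool.Agent.Lib.MPf11a48.GL2 (lie van en Geo lr eval_lr glmul tang vf vf_X eval_vf)
open Pool.Agent.Lib.MPf11a48.K3.KCurM (gl gl_zero dv_gl)
open Pool.Agent.Lib.MPf11a48.K3.CurveM (F_deriv F_iter)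

namespace ExcM

variable {ι : Type} [Fintype ι] [DecidableEq ι]

/-! ### the vector fields -/

theorem vf_add {R : Type} [CommRing R] (M N : Matrix ι ι R) : vf (M + N) = vf M + vf N := by
  refine derivation_ext fun v => ?_
  rw [Derivation.add_apply, vf_X, vf_X, vf_X, ← Finset.sum_add_distrib]
  refine Finset.sum_congr rfl fun i _ => ?_
  rw [Matrix.add_apply, map_add, add_mul]

theorem vf_smul {R : Type} [CommRing R] (t : R) (M : Matrix ι ι R) : vf (t • M) = t • vf M := by
  refine derivation_ext fun v => ?_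
  rw [Derivation.smul_apply, vf_X, vf_X, Finset.smul_sum]
  refine Finset.sum_congr rfl fun i _ => ?_
  rw [Matrix.smul_apply, smul_eq_mul, map_mul, mul_assoc, smul_eq_C_mul]

theorem vf_zero {R : Type} [CommRing R] : vf (0 : Matrix ι ι R) = 0 := by
  have h := vf_smul (0 : R) (0 : Matrix ι ι R)
  rwa [zero_smul, zero_smul] at h

theorem map_vf {R S : Type} [CommRing R] [CommRing S] (f : R →+* S) (M : Matrix ι ι R)
    (p : MvPolynomial (ι × ι) R) : map f (vf M p) = vf (M.map f) (map f p) := by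
  induction p using MvPolynomial.induction_on with
  | C a => rw [derivation_C, map_zero, map_C, derivation_C]
  | add p q hp hq => rw [map_add, map_add, map_add, map_add, hp, hq]
  | mul_X p v hp =>
    have h1 : map f (vf M (X v)) = vf (M.map f) (X v) := by
      rw [vf_X, vf_X, map_sum]
      refine Finset.sum_congr rfl fun i _ => ?_
      rw [map_mul, map_C, map_X, Matrix.map_apply]
    rw [Derivation.leibniz, map_add, map_mul, Derivation.leibniz, smul_eq_mul, smul_eq_mul,
      smul_eq_mul, smul_eq_mul, map_mul, map_mul, hp, map_X, h1]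

theorem totalDegree_vf {R : Type} [CommRing R] (M : Matrix ι ι R)
    (p : MvPolynomial (ι × ι) R) : (vf M p).totalDegree ≤ p.totalDegree := by
  classical
  have hX : ∀ v : ι × ι, (∑ i, C (M v.1 i) * X (i, v.2) :
      MvPolynomial (ι × ι) R).totalDegree ≤ 1 := by
    intro v
    refine (totalDegree_finsetSum_le (d := 1) fun i _ => ?_)
    refine (totalDegree_mul _ _).trans ?_
    rw [totalDegree_C, zero_add]
    exact (totalDegree_monomial_le _ _).trans (by simp)
  have hm : ∀ (s : ι × ι →₀ ℕ) (a : R),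
      (vf M (monomial s a)).totalDegree ≤ s.sum fun _ e => e := by
    intro s a
    rw [vf, mkDerivation_monomial]
    refine (totalDegree_smul_le _ _).trans ?_
    refine totalDegree_finsetSum_le fun v hv => ?_
    change (monomial (s - Finsupp.single v 1) ((s v : ℕ) : R) *
      (∑ i, C (M v.1 i) * X (i, v.2))).totalDegree ≤ _
    refine (totalDegree_mul _ _).trans ?_
    have h1 := hX v
    have h2 : (monomial (s - Finsupp.single v 1) ((s v : ℕ) : R)).totalDegree + 1 ≤
        s.sum fun _ e => e := by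
      have h3 : (monomial (s - Finsupp.single v 1) ((s v : ℕ) : R)).totalDegree ≤
          (s - Finsupp.single v 1).sum fun _ e => e :=
        totalDegree_monomial_le (R := R) (s - Finsupp.single v 1) ((s v : ℕ) : R)
      have h4 : (s - Finsupp.single v 1) + Finsupp.single v 1 = s := by
        refine tsub_add_cancel_of_le ?_
        rw [Finsupp.single_le_iff]
        exact Nat.one_le_iff_ne_zero.2 (Finsupp.mem_support_iff.1 hv)
      have h5 : (s.sum fun _ e => e) = ((s - Finsupp.single v 1).sum fun _ e => e) + 1 := by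
        conv_lhs => rw [← h4]
        rw [Finsupp.sum_add_index' (fun _ => rfl) (fun _ _ _ => rfl)]
        simp
      omega
    omega
  conv_lhs => rw [p.as_sum]
  rw [map_sum]
  refine totalDegree_finsetSum_le fun s hs => ?_
  exact (hm s _).trans (le_totalDegree hs)

theorem dv_eq (K : IntermediateField ℚ ℂ) (F : MvPolynomial (ι × ι) K) (x z : Matrix ι ι ℂ) :
    dv F (fun p : ι × ι => x p.1 p.2) (fun p => z p.1 p.2) =
      tang (map (algebraMap K ℂ) F) x z := by
  rw [dv, tang]
  refine Finset.sum_congr rfl fun v _ => ?_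
  rw [pderiv_map, eval_map, mul_comm]
  rfl

theorem aeval_eq (K : IntermediateField ℚ ℂ) (F : MvPolynomial (ι × ι) K) (x : Matrix ι ι ℂ) :
    aeval (fun p : ι × ι => x p.1 p.2) F = eval (en x) (map (algebraMap K ℂ) F) := by
  rw [eval_map]
  rfl

/-! ### one-parameter groups -/

/-- products of elements of one-parameter groups -/
def Gam (G : Subgroup (GL ι ℂ)) : Submonoid (GL ι ℂ) :=
  Submonoid.closure {g | ∃ X ∈ lie (G : Set (GL ι ℂ)), ∃ s, g = gl X s}

theorem gl_step {J : Submodule ℂ (MvPolynomial (ι × ι) ℂ)} {G : Subgroup (GL ι ℂ)}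
    (hJ : ∀ X ∈ lie (G : Set (GL ι ℂ)), ∀ p ∈ J, vf X p ∈ J) (f : GL ι ℂ)
    (hf : ∀ p ∈ J, eval (en f.1) p = 0) {M : Matrix ι ι ℂ} (hM : M ∈ lie (G : Set (GL ι ℂ)))
    (s : ℂ) (p : MvPolynomial (ι × ι) ℂ) (hp : p ∈ J) : eval (en (gl M s * f).1) p = 0 := by
  have hmem : ∀ k, (vf M)^[k] p ∈ J := by
    intro k
    induction k with
    | zero => exact hp
    | succ k ih =>
      rw [Function.iterate_succ_apply']
      exact hJ M hM _ ih
  have hg := dv_gl M
  have hd : Differentiable ℂ (K3.CurveM.F (gl M) f p) :=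
    fun x => (F_deriv hg f p x).differentiableAt
  have ht := Complex.taylorSeries_eq_of_entire' 0 s hd
  have h0 : ∀ k, iteratedDeriv k (K3.CurveM.F (gl M) f p) 0 = 0 := by
    intro k
    rw [F_iter hg, K3.CurveM.F, gl_zero, one_mul]
    exact hf _ (hmem k)
  simp only [h0, mul_zero, zero_mul, tsum_zero] at ht
  exact ht.symm

theorem gam_zero {J : Submodule ℂ (MvPolynomial (ι × ι) ℂ)} {G : Subgroup (GL ι ℂ)}
    (hJ : ∀ X ∈ lie (G : Set (GL ι ℂ)), ∀ p ∈ J, vf X p ∈ J) (f : GL ι ℂ)
    (hf : ∀ p ∈ J, eval (en f.1) p = 0) {g : GL ι ℂ} (hg : g ∈ Gam G) :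
    ∀ p ∈ J, eval (en (g * f).1) p = 0 := by
  induction hg using Submonoid.closure_induction_left with
  | one => rwa [one_mul]
  | mul_left x hx y hy ih =>
    obtain ⟨X, hX, s, rfl⟩ := hx
    intro p hp
    rw [mul_assoc]
    exact gl_step hJ (y * f) ih hX s p hp

theorem gl_inv (X : Matrix ι ι ℂ) (s : ℂ) : (gl X s)⁻¹ = gl X (-s) := by
  apply Units.ext
  change NormedSpace.exp (s • (-X)) = NormedSpace.exp ((-s) • X)
  rw [smul_neg, neg_smul]

theorem gam_inv {G : Subgroup (GL ι ℂ)} {g : GL ι ℂ} (hg : g ∈ Gam G) : g⁻¹ ∈ Gam G := by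
  induction hg using Submonoid.closure_induction with
  | mem x hx =>
    obtain ⟨X, hX, s, rfl⟩ := hx
    rw [gl_inv]
    exact Submonoid.subset_closure ⟨X, hX, -s, rfl⟩
  | one => rw [inv_one]; exact Submonoid.one_mem _
  | mul x y _ _ hx hy => rw [_root_.mul_inv_rev]; exact Submonoid.mul_mem _ hy hx

/-! ### the closure of a group -/

/-- the Zariski closure of a group -/
def clo (Γ : Submonoid (GL ι ℂ)) (hΓ : ∀ g ∈ Γ, g⁻¹ ∈ Γ) : Subgroup (GL ι ℂ) where
  carrier := {g | ∀ p ∈ van (Γ : Set (GL ι ℂ)), eval (en g.1) p = 0}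
  one_mem' := fun p hp => hp 1 Γ.one_mem
  mul_mem' := by
    intro a b ha hb p hp
    have h1 : ∀ γ ∈ Γ, lr γ.1 1 p ∈ van (Γ : Set (GL ι ℂ)) := by
      intro γ hγ x hx
      rw [eval_lr, Matrix.mul_one, ← glmul]
      exact hp _ (Γ.mul_mem hγ hx)
    have h2 : lr 1 b.1 p ∈ van (Γ : Set (GL ι ℂ)) := by
      intro γ hγ
      have h3 := hb _ (h1 γ hγ)
      rw [eval_lr, Matrix.mul_one, ← glmul] at h3
      rw [eval_lr, Matrix.one_mul, ← glmul]
      exact h3
    have h4 := ha _ h2
    rw [eval_lr, Matrix.one_mul, ← glmul] at h4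
    exact h4
  inv_mem' := by
    intro g hg p hp
    obtain ⟨M, q, hq⟩ := clear_inverse (ι := ι) (k := ℂ) (rename Sum.inr p)
    have h0 : ∀ x : GL ι ℂ, eval (en x.1) q = x.1.det ^ M * eval (en x⁻¹.1) p := by
      intro x
      have h1 := hq x
      rw [aeval_rename] at h1
      exact h1
    have hqv : q ∈ van (Γ : Set (GL ι ℂ)) := by
      intro x hx
      rw [h0, hp _ (hΓ x hx), mul_zero]
    have h2 := hg q hqv
    rw [h0] at h2
    rcases mul_eq_zero.1 h2 with h3 | h3
    · have h5 : g.1.det ≠ 0 := ((Matrix.isUnit_iff_isUnit_det _).1 g.isUnit).ne_zero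
      exact absurd h3 (pow_ne_zero M h5)
    · exact h3

theorem clo_closed (Γ : Submonoid (GL ι ℂ)) (hΓ : ∀ g ∈ Γ, g⁻¹ ∈ Γ) :
    ClosedC (clo Γ hΓ : Set (GL ι ℂ)) := ⟨van (Γ : Set (GL ι ℂ)), rfl⟩

/-- a polynomial all of whose iterated derivatives vanish at `c` vanishes on `G c` -/
theorem orbit_zero (hConn : SpecConn) {G : Subgroup (GL ι ℂ)} (hG : IsSS G)
    {J : Submodule ℂ (MvPolynomial (ι × ι) ℂ)}
    (hJ : ∀ X ∈ lie (G : Set (GL ι ℂ)), ∀ p ∈ J, vf X p ∈ J) (c : GL ι ℂ)
    (hc : ∀ p ∈ J, eval (en c.1) p = 0) {p : MvPolynomial (ι × ι) ℂ} (hp : p ∈ J) {g : GL ι ℂ}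
    (hg : g ∈ G) : eval (en (g * c).1) p = 0 := by
  have h1 : G ≤ clo (Gam G) fun _ h => gam_inv h := by
    refine hConn ι G _ hG (clo_closed _ _) fun X hX s q hq => ?_
    exact hq _ (Submonoid.subset_closure ⟨X, hX, s, rfl⟩)
  have h2 : lr 1 c.1 p ∈ van (Gam G : Set (GL ι ℂ)) := by
    intro γ hγ
    rw [eval_lr, Matrix.one_mul, ← glmul]
    exact gam_zero hJ c hc hγ p hp
  have h3 := h1 hg _ h2
  rw [eval_lr, Matrix.one_mul, ← glmul] at h3
  exact h3

/-- the polynomials all of whose iterated derivatives vanish at `x` -/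
def jet {d : ℕ} (e : Fin d → Matrix ι ι ℂ) (x : Matrix ι ι ℂ) :
    Submodule ℂ (MvPolynomial (ι × ι) ℂ) where
  carrier := {p | ∀ L : List (Fin d), eval (en x) (L.foldr (fun i p => vf (e i) p) p) = 0}
  zero_mem' := by
    intro L
    have h : L.foldr (fun i p => vf (e i) p) (0 : MvPolynomial (ι × ι) ℂ) = 0 := by
      induction L with
      | nil => rfl
      | cons i L ih => rw [List.foldr_cons, ih, map_zero]
    rw [h, map_zero]
  add_mem' := by
    intro p q hp hq L
    have h : L.foldr (fun i p => vf (e i) p) (p + q) =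
        L.foldr (fun i p => vf (e i) p) p + L.foldr (fun i p => vf (e i) p) q := by
      induction L with
      | nil => rfl
      | cons i L ih => rw [List.foldr_cons, ih, map_add]; rfl
    rw [h, map_add, hp L, hq L, add_zero]
  smul_mem' := by
    intro t p hp L
    have h : L.foldr (fun i p => vf (e i) p) (t • p) =
        t • L.foldr (fun i p => vf (e i) p) p := by
      induction L with
      | nil => rfl
      | cons i L ih => rw [List.foldr_cons, ih, Derivation.map_smul]; rfl
    rw [h, smul_eval, hp L, mul_zero]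

theorem jet_vf {d : ℕ} (e : Fin d → Matrix ι ι ℂ) (x : Matrix ι ι ℂ) {Z : Matrix ι ι ℂ}
    (hZ : Z ∈ Submodule.span ℂ (Set.range e)) : ∀ p ∈ jet e x, vf Z p ∈ jet e x := by
  induction hZ using Submodule.span_induction with
  | mem Z hZ =>
    obtain ⟨i, rfl⟩ := hZ
    intro p hp L
    have h := hp (L ++ [i])
    rwa [List.foldr_append] at h
  | zero =>
    intro p _
    rw [vf_zero]
    exact Submodule.zero_mem _
  | add Z W _ _ h1 h2 =>
    intro p hp
    rw [vf_add]
    exact Submodule.add_mem _ (h1 p hp) (h2 p hp)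
  | smul t Z _ h1 =>
    intro p hp
    rw [vf_smul]
    exact Submodule.smul_mem _ t (h1 p hp)

end ExcM

open ExcM

/-- EXC: a polynomial relation which does not hold on the orbit gives a relation whose derivative
along the orbit does not vanish -/
theorem specExc (hBas : SpecBas) (hConn : SpecConn) : SpecExc := by
  classical
  intro ι _ _ G K c F hG hF0 hne
  by_contra hcon
  push Not at hcon
  obtain ⟨g, hg, hgne⟩ := hne
  apply hgne
  have hst : ∀ τ : ℂ ≃+* ℂ, FixesField K τ → ∀ X ∈ lie (G : Set (GL ι ℂ)),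
      X.map τ ∈ lie (G : Set (GL ι ℂ)) :=
    (hBas ι K).2 _ fun τ _ f hf => hG.closed.tw_mem (fixesField_bot τ) hf
  obtain ⟨d, e, -, -, heK, hspan⟩ := (hBas ι K).1 _ hst
  let eK : Fin d → Matrix ι ι K := fun a => Matrix.of fun i j => ⟨e a i j, heK a i j⟩
  have hmap : ∀ a, (eK a).map (algebraMap K ℂ) = e a := fun a => by ext i j; rfl
  have hmem : ∀ a, e a ∈ lie (G : Set (GL ι ℂ)) := by
    intro a
    rw [← hspan]
    exact Submodule.subset_span ⟨a, rfl⟩
  have hL : ∀ L : List (Fin d), (L.foldr (fun i p => vf (eK i) p) F).totalDegree ≤ F.totalDegree ∧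
      aeval (fun p : ι × ι => c.1 p.1 p.2) (L.foldr (fun i p => vf (eK i) p) F) = 0 := by
    intro L
    induction L with
    | nil => exact ⟨le_rfl, hF0⟩
    | cons i L ih =>
      rw [List.foldr_cons]
      refine ⟨(totalDegree_vf _ _).trans ih.1, ?_⟩
      rw [aeval_eq, map_vf, hmap, eval_vf, ← dv_eq]
      exact hcon _ ih.1 ih.2 (e i) (hmem i)
  have hjet : map (algebraMap K ℂ) F ∈ jet e c.1 := by
    intro L
    have h : L.foldr (fun i p => vf (e i) p) (map (algebraMap K ℂ) F) =
        map (algebraMap K ℂ) (L.foldr (fun i p => vf (eK i) p) F) := by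
      induction L with
      | nil => rfl
      | cons i L ih => rw [List.foldr_cons, ih, List.foldr_cons, map_vf, hmap]
    rw [h, ← aeval_eq]
    exact (hL L).2
  rw [aeval_eq]
  exact orbit_zero hConn hG (J := jet e c.1)
    (fun X hX p hp => jet_vf e c.1 (by rw [hspan]; exact hX) p hp) c (fun p hp => hp []) hjet hg

end Pool.Agent.Lib.MPf11a48.CG
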