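import Pool.Agent.Lib.MP_f11a48_ag.CG.SpecA

/-!
# Almost all fibres of a family: the case of no condition on the period matrix
-/

set_option autoImplicit false

namespace Pool.Agent.Lib.MPf11a48.CG

open Polynomial Matrix
open Pool.Agent.Lib.MPf11a48.GL2 (lie)

namespace FewnM

/-- the inequality between the dimensions -/
theorem ineq {ι : Type} [Fintype ι] [DecidableEq ι] (h L : Submodule ℂ (Matrix ι ι ℂ)) (s r e : ℕ)
    (hle : h ≤ L) (hne : h ≠ L) (he : r + e < s + 1) :
    (s + 1) * Module.finrank ℂ h + r + e < (s + 1) * Module.finrank ℂ L := by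
  have h1 : Module.finrank ℂ h < Module.finrank ℂ L :=
    Submodule.finrank_lt_finrank_of_lt (lt_of_le_of_ne hle hne)
  have h2 : (s + 1) * (Module.finrank ℂ h + 1) ≤ (s + 1) * Module.finrank ℂ L :=
    Nat.mul_le_mul_left _ h1
  have h3 : (s + 1) * (Module.finrank ℂ h + 1) = (s + 1) * Module.finrank ℂ h + (s + 1) := by ring
  omega

end FewnM

open FewnM

/-- FEWN: the case of no condition on `C₀` -/
theorem specFewn : SpecFewn := by
  intro ι _ _ C₀ N G s hs
  rcases isEmpty_or_nonempty ι with hι | hι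
  · refine ⟨0, fun k => k.elim0, 1, one_ne_zero, fun i => (hι.false i).elim, ?_⟩
    intro h _ _ hne
    have : Subsingleton (Submodule ℂ (Matrix ι ι ℂ)) := by
      have : Subsingleton (Matrix ι ι ℂ) := ⟨fun A B => by ext i; exact (hι.false i).elim⟩
      infer_instance
    exact (hne (Subsingleton.elim _ _)).elim
  · obtain ⟨i₀, j₀, h₀⟩ : ∃ i j, C₀.1 i j ≠ 0 := by
      by_contra hcon
      push Not at hcon
      have : C₀.1 = 0 := by
        ext i j
        exact hcon i j
      exact C₀.ne_zero this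
    have hcard : Fintype.card {v : ι × ι // v ≠ (i₀, j₀)} = Fintype.card ι ^ 2 - 1 := by
      rw [Fintype.card_subtype_compl, Fintype.card_prod]
      simp [sq]
    have hpos : 0 < Fintype.card ι ^ 2 := pow_pos Fintype.card_pos 2
    let e : {v : ι × ι // v ≠ (i₀, j₀)} ≃ Fin (Fintype.card ι ^ 2 - 1) :=
      Fintype.equivFinOfCardEq hcard
    refine ⟨Fintype.card ι ^ 2 - 1,
      fun k => (C₀.1 i₀ j₀)⁻¹ * C₀.1 (e.symm k).1.1 (e.symm k).1.2, (C₀.1 i₀ j₀)⁻¹,
      inv_ne_zero h₀, ?_, ?_⟩
    · intro i j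
      by_cases hij : (i, j) = (i₀, j₀)
      · have hi : i = i₀ := congrArg Prod.fst hij
        have hj : j = j₀ := congrArg Prod.snd hij
        rw [hi, hj, inv_mul_cancel₀ h₀]
        exact isAlgebraic_one
      · set F := IntermediateField.adjoin ℚ (Set.range fun k =>
          (C₀.1 i₀ j₀)⁻¹ * C₀.1 (e.symm k).1.1 (e.symm k).1.2)
        have hmem : (C₀.1 i₀ j₀)⁻¹ * C₀.1 i j ∈ F := by
          apply IntermediateField.subset_adjoin
          exact ⟨e ⟨(i, j), hij⟩, by simp⟩
        exact isAlgebraic_algebraMap (⟨_, hmem⟩ : F)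
    · intro h hle _ hne
      apply ineq h _ s _ _ hle hne
      split_ifs <;> omega

end Pool.Agent.Lib.MPf11a48.CG
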