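import Pool.Agent.Lib.MP_f11a48_ag.CG.Spec

/-!
# Module FG: finite groups with the same invariant tensors as a family of one-parameter groups
-/

set_option autoImplicit false

namespace Pool.Agent.Lib.MPf11a48.CG

theorem specFg (hE : SpecEnd) (hU : SpecUni) (hO : SpecOrd) : SpecFg := by
  intro d
  obtain ⟨M0, hM0⟩ := hU d
  refine ⟨max 4 (2 * M0), fun κ Γ 𝒵 hκ hfin hΓ hZ hinv hz x hx => ?_⟩
  by_cases h : M0 < Nat.card Γ
  · obtain ⟨z, hzΓ, hz1, hzc⟩ := hM0 Γ hfin h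
    refine absurd (hz z hzΓ fun y hy => ?_) hz1
    refine hzc y.1 y.2 (hZ y hy).1 fun A hA s X hX => ?_
    exact hE d κ hκ Γ hfin hΓ A hA (y.1 s) ((hZ y hy).2 s)
      (fun w hw => hinv 4 (le_max_left _ _) w hw y hy s) X hX
  · refine hO d Γ hfin x.1 x.2 (hZ x hx).1 fun m hm w hw s => hinv m ?_ w hw x hx s
    exact le_trans hm (le_trans (by omega) (le_max_right _ _))

end Pool.Agent.Lib.MPf11a48.CG
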