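import Pool.Agent.Lib.MP_f11a48_ag.CG.Spec
import Pool.Agent.Lib.MP_f11a48_ag.K3.Curve

/-!
# FIX: a closed subgroup with the same Lie algebra has finite index

Near `1` the ideal of `N` is contained in the ideal of `G` modulo all powers of the maximal ideal
(the initial forms of an element of the ideal of `N` vanish on the Lie algebra of `G`), hence, by
Krull, modulo nothing: a polynomial `d` with `d(1) = 1` multiplies the ideal of `N` into the ideal
of `G`.  The translates of `d` generate an ideal which is generated by finitely many of them.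
-/

set_option autoImplicit false
set_option linter.unusedSectionVars false

namespace Pool.Agent.Lib.MPf11a48.CG

namespace FixM

open MvPolynomial

section alg

variable {σ : Type} [Fintype σ]

/-- powers of the ideal of the origin -/
noncomputable abbrev mm (σ : Type) (k : ℕ) : Ideal (MvPolynomial σ ℂ) := idealOfVars σ ℂ ^ k

variable {J : Ideal (MvPolynomial σ ℂ)} {a b : ℕ} {x y : MvPolynomial σ ℂ}

theorem mul_mem_l (hx : x ∈ J ⊔ mm σ a) (hy : y ∈ mm σ b) : x * y ∈ J ⊔ mm σ (a + b) := by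
  obtain ⟨j, hj, z, hz, rfl⟩ := Submodule.mem_sup.1 hx
  rw [add_mul]
  refine Submodule.add_mem_sup (Ideal.mul_mem_right _ _ hj) ?_
  rw [mm, pow_add]
  exact Ideal.mul_mem_mul hz hy

theorem mul_mem_r (hx : x ∈ mm σ a) (hy : y ∈ J ⊔ mm σ b) : x * y ∈ J ⊔ mm σ (a + b) := by
  rw [mul_comm x y, add_comm a b]
  exact mul_mem_l hy hx

theorem mm_one : mm σ 1 = Ideal.span (Set.range X) := pow_one _

theorem X_mem (v : σ) : (X v : MvPolynomial σ ℂ) ∈ mm σ 1 := by
  rw [mm_one]
  exact Ideal.subset_span ⟨v, rfl⟩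

variable {φ : MvPolynomial σ ℂ →ₐ[ℂ] MvPolynomial σ ℂ}

theorem map_mem (hm : ∀ v, φ (X v) ∈ mm σ 1) {k : ℕ} (hx : x ∈ mm σ k) : φ x ∈ mm σ k := by
  have h1 : Ideal.map (φ : MvPolynomial σ ℂ →+* MvPolynomial σ ℂ) (mm σ 1) ≤ mm σ 1 := by
    rw [mm_one, Ideal.map_span, Ideal.span_le]
    rintro _ ⟨_, ⟨v, rfl⟩, rfl⟩
    rw [← mm_one]
    exact hm v
  have h2 : Ideal.map (φ : MvPolynomial σ ℂ →+* MvPolynomial σ ℂ) (mm σ k) ≤ mm σ k := by
    have h3 : Ideal.map (φ : MvPolynomial σ ℂ →+* MvPolynomial σ ℂ) (idealOfVars σ ℂ) ≤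
        idealOfVars σ ℂ := by
      have h4 : mm σ 1 = idealOfVars σ ℂ := pow_one _
      rwa [h4] at h1
    have h5 := Ideal.pow_right_mono h3 k
    rwa [← Ideal.map_pow] at h5
  exact h2 (Ideal.mem_map_of_mem (φ : MvPolynomial σ ℂ →+* MvPolynomial σ ℂ) hx)

theorem diff_zero (hm : ∀ v, φ (X v) ∈ mm σ 1) (p : MvPolynomial σ ℂ) :
    p - φ p ∈ J ⊔ mm σ 1 := by
  induction p using MvPolynomial.induction_on with
  | C a => rw [algHom_C, algebraMap_eq, sub_self]; exact Submodule.zero_mem _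
  | add p q hp hq =>
    rw [map_add, add_sub_add_comm]
    exact Submodule.add_mem _ hp hq
  | mul_X p v _ =>
    rw [map_mul]
    refine Submodule.mem_sup_right ?_
    exact Submodule.sub_mem _ (Ideal.mul_mem_left _ _ (X_mem v)) (Ideal.mul_mem_left _ _ (hm v))

theorem diff_one (hm : ∀ v, φ (X v) ∈ mm σ 1) (h : ∀ v, X v - φ (X v) ∈ J ⊔ mm σ 2)
    {q : MvPolynomial σ ℂ} (hq : q ∈ mm σ 1) : q - φ q ∈ J ⊔ mm σ 2 := by
  rw [mm_one] at hq
  induction hq using Submodule.span_induction with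
  | mem x hx =>
    obtain ⟨v, rfl⟩ := hx
    exact h v
  | zero => rw [map_zero, sub_self]; exact Submodule.zero_mem _
  | add x y _ _ hx hy =>
    rw [map_add, add_sub_add_comm]
    exact Submodule.add_mem _ hx hy
  | smul a x hx ih =>
    have e : a • x - φ (a • x) = (a - φ a) * x + φ a * (x - φ x) := by
      rw [smul_eq_mul, map_mul]
      ring
    have hx' : x ∈ mm σ 1 := by
      rw [mm_one]
      exact hx
    have h1 : (a - φ a) * x ∈ J ⊔ mm σ (1 + 1) := mul_mem_l (diff_zero hm a) hx'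
    rw [one_add_one_eq_two] at h1
    rw [e]
    exact Submodule.add_mem _ h1 (Ideal.mul_mem_left _ _ ih)

theorem diff_mem (hm : ∀ v, φ (X v) ∈ mm σ 1) (h : ∀ v, X v - φ (X v) ∈ J ⊔ mm σ 2) (k : ℕ) :
    ∀ p ∈ mm σ k, p - φ p ∈ J ⊔ mm σ (k + 1) := by
  induction k with
  | zero => exact fun p _ => diff_zero hm p
  | succ k ih =>
    intro p hp
    rw [mm, pow_succ] at hp
    induction hp using Submodule.mul_induction_on' with
    | mem_mul_mem p hp q hq =>
      have e : p * q - φ (p * q) = (p - φ p) * q + φ p * (q - φ q) := by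
        rw [map_mul]
        ring
      rw [e]
      have hq' : q ∈ mm σ 1 := by rw [mm, pow_one]; exact hq
      have h1 := mul_mem_l (ih p hp) hq'
      have h2 := mul_mem_r (map_mem hm hp) (diff_one hm h hq')
      exact Submodule.add_mem _ h1 h2
    | add x _ y _ hx hy =>
      rw [map_add, add_sub_add_comm]
      exact Submodule.add_mem _ hx hy

theorem comp_zero_of_mem {k i : ℕ} (hx : x ∈ mm σ k) (hi : i < k) :
    homogeneousComponent i x = 0 := by
  refine MvPolynomial.ext _ _ fun d => ?_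
  rw [coeff_homogeneousComponent, coeff_zero]
  split_ifs with hd
  · exact (mem_pow_idealOfVars_iff' k x).1 hx d (hd ▸ hi)
  · rfl

theorem sub_comp_mem {k : ℕ} (hx : x ∈ mm σ k) : x - homogeneousComponent k x ∈ mm σ (k + 1) := by
  refine (mem_pow_idealOfVars_iff' (k + 1) _).2 fun d hd => ?_
  rw [coeff_sub, coeff_homogeneousComponent]
  split_ifs with h
  · exact sub_self _
  · rw [sub_zero]
    exact (mem_pow_idealOfVars_iff' k x).1 hx d (by omega)

theorem comp_mem (x : MvPolynomial σ ℂ) (k : ℕ) : homogeneousComponent k x ∈ mm σ k := by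
  refine (mem_pow_idealOfVars_iff' k _).2 fun d hd => ?_
  rw [coeff_homogeneousComponent, if_neg (by omega)]

theorem eval_hom {p : MvPolynomial σ ℂ} {n : ℕ} (hp : p.IsHomogeneous n) (s : ℂ) (z : σ → ℂ) :
    eval (fun v => s * z v) p = s ^ n * eval z p := by
  rw [eval_eq, eval_eq, Finset.mul_sum]
  refine Finset.sum_congr rfl fun d hd => ?_
  have h1 : d.degree = n := by
    have := hp (mem_support_iff.1 hd)
    rw [Finsupp.degree_eq_weight_one (R := ℕ)]
    exact this
  have h2 : ∏ i ∈ d.support, (s * z i) ^ d i = s ^ n * ∏ i ∈ d.support, z i ^ d i := by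
    simp only [mul_pow]
    rw [Finset.prod_mul_distrib, Finset.prod_pow_eq_pow_sum]
    congr 2
  rw [h2]
  ring

open Filter Topology in
theorem comp_zero {g : MvPolynomial σ ℂ} {k : ℕ} (hg : g ∈ mm σ k) {Z : ℂ → σ → ℂ} {x : σ → ℂ}
    (hZ : Tendsto Z (𝓝[≠] 0) (𝓝 x)) (h : ∀ s ≠ 0, eval (fun v => s * Z s v) g = 0) :
    eval x (homogeneousComponent k g) = 0 := by
  by_cases hk : g.totalDegree < k
  · rw [homogeneousComponent_eq_zero _ _ hk, map_zero]
  have hk' : k ∈ Finset.range (g.totalDegree + 1) := Finset.mem_range.2 (by omega)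
  let P : ℂ × (σ → ℂ) → ℂ := fun w =>
    ∑ i ∈ Finset.range (g.totalDegree + 1), w.1 ^ (i - k) * eval w.2 (homogeneousComponent i g)
  have hP : Continuous P := by
    refine continuous_finsetSum _ fun i _ => ?_
    exact (continuous_fst.pow _).mul ((MvPolynomial.continuous_eval _).comp continuous_snd)
  have h1 : ∀ s ≠ 0, P (s, Z s) = 0 := by
    intro s hs
    have e1 : s ^ k * P (s, Z s) = eval (fun v => s * Z s v) g := by
      conv_rhs => rw [← sum_homogeneousComponent g]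
      rw [map_sum, Finset.mul_sum]
      refine Finset.sum_congr rfl fun i _ => ?_
      rw [eval_hom (homogeneousComponent_isHomogeneous i g)]
      by_cases hi : i < k
      · rw [comp_zero_of_mem hg hi]
        simp
      · change s ^ k * (s ^ (i - k) * _) = _
        rw [← mul_assoc, ← pow_add, Nat.add_sub_cancel' (by omega)]
    rw [h s hs] at e1
    exact (mul_eq_zero.1 e1).resolve_left (pow_ne_zero _ hs)
  have h2 : P (0, x) = eval x (homogeneousComponent k g) := by
    change ∑ i ∈ Finset.range (g.totalDegree + 1), (0 : ℂ) ^ (i - k) * _ = _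
    rw [Finset.sum_eq_single k]
    · rw [Nat.sub_self, pow_zero, one_mul]
    · intro i _ hi
      rcases lt_or_gt_of_ne hi with hi | hi
      · rw [comp_zero_of_mem hg hi, map_zero, mul_zero]
      · rw [zero_pow (by omega), zero_mul]
    · intro h
      exact absurd hk' h
  rw [← h2]
  have h3 : Tendsto (fun s : ℂ => (s, Z s)) (𝓝[≠] 0) (𝓝 ((0 : ℂ), x)) :=
    (tendsto_nhdsWithin_of_tendsto_nhds tendsto_id).prodMk_nhds hZ
  have h4 : Tendsto (fun s : ℂ => P (s, Z s)) (𝓝[≠] 0) (𝓝 (P (0, x))) := (hP.tendsto _).comp h3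
  have h5 : Tendsto (fun s : ℂ => P (s, Z s)) (𝓝[≠] 0) (𝓝 0) := by
    refine tendsto_const_nhds.congr' ?_
    filter_upwards [self_mem_nhdsWithin] with s hs
    exact (h1 s hs).symm
  exact tendsto_nhds_unique h4 h5

/-- Krull's intersection theorem -/
theorem krull {J V : Ideal (MvPolynomial σ ℂ)} (h : ∀ k, V ≤ J ⊔ mm σ k) :
    ∃ d : MvPolynomial σ ℂ, eval (fun _ => 0) d = 1 ∧ ∀ f ∈ V, d * f ∈ J := by
  have h1 : ∀ f ∈ V, ∃ d : MvPolynomial σ ℂ, eval (fun _ => 0) d = 1 ∧ d * f ∈ J := by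
    intro f hf
    have h2 : (Ideal.Quotient.mk J f : MvPolynomial σ ℂ ⧸ J) ∈
        (⨅ i : ℕ, idealOfVars σ ℂ ^ i • ⊤ : Submodule (MvPolynomial σ ℂ) (MvPolynomial σ ℂ ⧸ J)) := by
      rw [Submodule.mem_iInf]
      intro i
      obtain ⟨j, hj, z, hz, rfl⟩ := Submodule.mem_sup.1 (h i hf)
      have e : (Ideal.Quotient.mk J (j + z) : MvPolynomial σ ℂ ⧸ J) =
          z • (1 : MvPolynomial σ ℂ ⧸ J) := by
        rw [map_add, Ideal.Quotient.eq_zero_iff_mem.2 hj, zero_add]
        change Ideal.Quotient.mk J z = Ideal.Quotient.mk J (z * 1)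
        rw [mul_one]
      rw [e]
      exact Submodule.smul_mem_smul hz trivial
    obtain ⟨r, hr⟩ := (Ideal.mem_iInf_smul_pow_eq_bot_iff _ _).1 h2
    refine ⟨1 - r.1, ?_, ?_⟩
    · have h3 : eval (fun _ => (0 : ℂ)) r.1 = 0 := by
        have h4 : r.1 ∈ RingHom.ker (eval (fun _ : σ => (0 : ℂ))) := by
          refine (Ideal.span_le.2 ?_) r.2
          rintro _ ⟨v, rfl⟩
          exact eval_X v
        exact h4
      rw [map_sub, map_one, h3, sub_zero]
    · rw [← Ideal.Quotient.eq_zero_iff_mem, sub_mul, one_mul, map_sub, map_mul]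
      have h3 : (r.1 • (Ideal.Quotient.mk J f) : MvPolynomial σ ℂ ⧸ J) =
          Ideal.Quotient.mk J r.1 * Ideal.Quotient.mk J f := by
        rw [← map_mul]
        rfl
      rw [← h3, hr, sub_self]
  obtain ⟨S, hS⟩ := (isNoetherian_def.1 (inferInstance : IsNoetherianRing (MvPolynomial σ ℂ))) V
  have h2 : ∀ T : Finset (MvPolynomial σ ℂ), (∀ f ∈ T, f ∈ V) →
      ∃ d : MvPolynomial σ ℂ, eval (fun _ => 0) d = 1 ∧ ∀ f ∈ T, d * f ∈ J := by
    classical
    intro T
    induction T using Finset.induction_on with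
    | empty =>
      intro _
      exact ⟨1, map_one _, fun f hf => absurd hf (Finset.notMem_empty f)⟩
    | insert f T _ ih =>
      intro hT
      obtain ⟨d, hd, hd'⟩ := ih fun g hg => hT g (Finset.mem_insert_of_mem hg)
      obtain ⟨e, he, he'⟩ := h1 f (hT f (Finset.mem_insert_self _ _))
      refine ⟨d * e, by rw [map_mul, hd, he, mul_one], fun g hg => ?_⟩
      rcases Finset.mem_insert.1 hg with rfl | hg
      · rw [mul_assoc]
        exact Ideal.mul_mem_left _ _ he'
      · rw [mul_comm d e, mul_assoc]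
        exact Ideal.mul_mem_left _ _ (hd' g hg)
  obtain ⟨d, hd, hd'⟩ := h2 S fun f hf => hS ▸ Submodule.subset_span hf
  refine ⟨d, hd, fun f hf => ?_⟩
  rw [← hS] at hf
  induction hf using Submodule.span_induction with
  | mem x hx => exact hd' x hx
  | zero => rw [mul_zero]; exact Submodule.zero_mem _
  | add x y _ _ hx hy => rw [mul_add]; exact Submodule.add_mem _ hx hy
  | smul a x _ ih =>
    rw [smul_eq_mul, mul_left_comm]
    exact Ideal.mul_mem_left _ _ ih

end alg

section mat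

open Matrix
open Pool.Agent.Lib.MPf11a48.Tors
open Pool.Agent.Lib.MPf11a48.GL2

variable {ι : Type} [Fintype ι] [DecidableEq ι]

/-- the translated ideal of a set -/
def tv (S : Set (GL ι ℂ)) : Ideal (MvPolynomial (ι × ι) ℂ) where
  carrier := {q | ∀ f ∈ S, eval (en (f.1 - 1)) q = 0}
  add_mem' := by
    intro a b ha hb f hf
    rw [map_add, ha f hf, hb f hf, add_zero]
  zero_mem' := fun f _ => map_zero _
  smul_mem' := by
    intro c a ha f hf
    rw [smul_eq_mul, map_mul, ha f hf, mul_zero]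

theorem mem_tv {S : Set (GL ι ℂ)} {q : MvPolynomial (ι × ι) ℂ} :
    q ∈ tv S ↔ ∀ f ∈ S, eval (en (f.1 - 1)) q = 0 := Iff.rfl

/-- translation of polynomials -/
noncomputable def ts (A : Matrix ι ι ℂ) : MvPolynomial (ι × ι) ℂ →ₐ[ℂ] MvPolynomial (ι × ι) ℂ :=
  aeval fun v => X v + C (A v.1 v.2)

theorem eval_ts (A x : Matrix ι ι ℂ) (p : MvPolynomial (ι × ι) ℂ) :
    eval (en x) (ts A p) = eval (en (x + A)) p := by
  induction p using MvPolynomial.induction_on with
  | C a => rw [ts, algHom_C, algebraMap_eq, eval_C, eval_C]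
  | add p q hp hq => rw [map_add, map_add, map_add, hp, hq]
  | mul_X p v hp =>
    rw [map_mul, map_mul, map_mul, hp, ts, aeval_X, eval_X, map_add, eval_X, eval_C]
    rfl

theorem tang_ts (A x z : Matrix ι ι ℂ) (p : MvPolynomial (ι × ι) ℂ) :
    tang (ts A p) x z = tang p (x + A) z := by
  induction p using MvPolynomial.induction_on with
  | C a => rw [ts, algHom_C, algebraMap_eq, tang_C, tang_C]
  | add p q hp hq => rw [map_add, tang_add, tang_add, hp, hq]
  | mul_X p v hp =>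
    have h1 : ts A (p * X v) = ts A p * ts A (X v) := map_mul _ _ _
    have h2 : tang (ts A (X v)) x z = z v.1 v.2 := by
      rw [ts, aeval_X, tang_add, tang_C, tang_X, add_zero]
    rw [h1, tang_mul, tang_mul, hp, eval_ts, eval_ts, h2, tang_X]

theorem ts_mem {S : Set (GL ι ℂ)} {p : MvPolynomial (ι × ι) ℂ} (hp : p ∈ van S) :
    ts 1 p ∈ tv S := by
  intro f hf
  rw [eval_ts, sub_add_cancel]
  exact hp f hf

theorem ts_neg_mem {S : Set (GL ι ℂ)} {q : MvPolynomial (ι × ι) ℂ} (hq : q ∈ tv S) :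
    ts (-1) q ∈ van S := by
  intro f hf
  rw [eval_ts, ← sub_eq_add_neg]
  exact hq f hf

/-- the derivative at the origin, as a linear map -/
noncomputable def dl : MvPolynomial (ι × ι) ℂ →ₗ[ℂ] Module.Dual ℂ (Matrix ι ι ℂ) where
  toFun q :=
    { toFun := fun z => tang q 0 z
      map_add' := fun z w => tang_add_right q 0 z w
      map_smul' := fun t z => by rw [tang_smul_right, RingHom.id_apply, smul_eq_mul] }
  map_add' p q := by
    refine LinearMap.ext fun z => ?_
    exact tang_add p q 0 z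
  map_smul' t q := by
    refine LinearMap.ext fun z => ?_
    change tang (t • q) 0 z = t * tang q 0 z
    rw [smul_eq_C_mul, tang_mul, tang_C, eval_C, zero_mul, zero_add]

theorem dl_apply (q : MvPolynomial (ι × ι) ℂ) (z : Matrix ι ι ℂ) : dl q z = tang q 0 z := rfl

theorem mem_lie_dl {G : Subgroup (GL ι ℂ)} (hG : Geo (G : Set (GL ι ℂ))) {M : Matrix ι ι ℂ} :
    M ∈ lie (G : Set (GL ι ℂ)) ↔ ∀ q ∈ tv (G : Set (GL ι ℂ)), dl q M = 0 := by
  rw [hG.mem_lie_iff (f₀ := 1) G.one_mem]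
  constructor
  · intro h q hq
    have h1 := h _ (ts_neg_mem hq)
    rw [tang_ts, Units.val_one, Matrix.mul_one, add_neg_cancel] at h1
    exact h1
  · intro h p hp
    have h1 := h _ (ts_mem hp)
    rw [dl_apply, tang_ts, zero_add] at h1
    rw [Units.val_one, Matrix.mul_one]
    exact h1

/-- the functionals which vanish on the Lie algebra are derivatives of elements of the ideal -/
theorem exists_dl {G : Subgroup (GL ι ℂ)} (hG : Geo (G : Set (GL ι ℂ)))
    (l : Module.Dual ℂ (Matrix ι ι ℂ)) (hl : ∀ M ∈ lie (G : Set (GL ι ℂ)), l M = 0) :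
    ∃ q ∈ tv (G : Set (GL ι ℂ)), dl q = l := by
  let D : Subspace ℂ (Module.Dual ℂ (Matrix ι ι ℂ)) :=
    Submodule.map dl ((tv (G : Set (GL ι ℂ))).restrictScalars ℂ)
  have h1 : lie (G : Set (GL ι ℂ)) = D.dualCoannihilator := by
    ext M
    rw [mem_lie_dl hG, Submodule.mem_dualCoannihilator]
    constructor
    · rintro h _ ⟨q, hq, rfl⟩
      exact h q hq
    · intro h q hq
      exact h _ ⟨q, hq, rfl⟩
  have h2 : l ∈ (lie (G : Set (GL ι ℂ))).dualAnnihilator :=
    (Submodule.mem_dualAnnihilator _).2 hl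
  rw [h1, Subspace.dualCoannihilator_dualAnnihilator_eq] at h2
  obtain ⟨q, hq, hq'⟩ := h2
  exact ⟨q, hq, hq'⟩

theorem mem_two {r : MvPolynomial (ι × ι) ℂ} (h0 : eval (en (0 : Matrix ι ι ℂ)) r = 0)
    (h1 : dl r = 0) : r ∈ mm (ι × ι) 2 := by
  refine (mem_pow_idealOfVars_iff' 2 r).2 fun d hd => ?_
  have e0 : ∀ p : MvPolynomial (ι × ι) ℂ, eval (en (0 : Matrix ι ι ℂ)) p = coeff 0 p := by
    intro p
    have : (en (0 : Matrix ι ι ℂ)) = (0 : ι × ι → ℂ) := rfl
    rw [this, ← constantCoeff_eq, ← eval_zero]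
  by_cases hd0 : d = 0
  · rw [hd0, ← e0, h0]
  · obtain ⟨w, hw⟩ : ∃ w, d w ≠ 0 := by
      by_contra hcon
      push Not at hcon
      exact hd0 (Finsupp.ext hcon)
    have hdw : d = Finsupp.single w 1 := by
      have h2 : d.degree = ∑ i, d i := Finsupp.degree_eq_sum d
      have h3 : ∑ i, d i = d w + ∑ i ∈ Finset.univ.erase w, d i :=
        (Finset.add_sum_erase _ _ (Finset.mem_univ w)).symm
      have h4 : ∑ i ∈ Finset.univ.erase w, d i = 0 := by omega
      have h5 : d w = 1 := by omega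
      refine Finsupp.ext fun i => ?_
      by_cases hi : i = w
      · rw [hi, h5, Finsupp.single_eq_same]
      · rw [Finsupp.single_eq_of_ne hi]
        exact Finset.sum_eq_zero_iff.1 h4 i (Finset.mem_erase.2 ⟨hi, Finset.mem_univ i⟩)
    have h6 : dl r (Matrix.single w.1 w.2 1) = coeff (Finsupp.single w 1) r := by
      rw [dl_apply, tang, Finset.sum_eq_single w]
      · rw [Matrix.single_apply_same, one_mul, e0, coeff_pderiv, zero_add, Finsupp.zero_apply,
          Nat.cast_zero, zero_add, mul_one]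
      · intro v _ hv
        rw [Matrix.single_apply, if_neg, zero_mul]
        rintro ⟨h7, h8⟩
        exact hv (Prod.ext h7.symm h8.symm)
      · intro h
        exact absurd (Finset.mem_univ w) h
    rw [hdw, ← h6, h1]
    rfl

theorem exists_proj (L : Submodule ℂ (Matrix ι ι ℂ)) :
    ∃ π : Matrix ι ι ℂ →ₗ[ℂ] Matrix ι ι ℂ, (∀ z, π z ∈ L) ∧ ∀ z ∈ L, π z = z := by
  obtain ⟨g, hg⟩ := LinearMap.exists_leftInverse_of_injective L.subtype L.ker_subtype
  refine ⟨L.subtype ∘ₗ g, fun z => (g z).2, fun z hz => ?_⟩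
  have h1 := LinearMap.congr_fun hg ⟨z, hz⟩
  change ((g z : L) : Matrix ι ι ℂ) = z
  have h2 : g z = ⟨z, hz⟩ := h1
  rw [h2]

/-- composition with a linear map -/
noncomputable def cp (π : Matrix ι ι ℂ →ₗ[ℂ] Matrix ι ι ℂ) :
    MvPolynomial (ι × ι) ℂ →ₐ[ℂ] MvPolynomial (ι × ι) ℂ :=
  aeval fun v => ∑ w : ι × ι, C (π (Matrix.single w.1 w.2 1) v.1 v.2) * X w

theorem sum_single (z : Matrix ι ι ℂ) :
    ∑ w : ι × ι, z w.1 w.2 • Matrix.single w.1 w.2 (1 : ℂ) = z := by
  ext i j
  rw [Matrix.sum_apply, Finset.sum_eq_single (i, j)]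
  · rw [Matrix.smul_apply, Matrix.single_apply_same, smul_eq_mul, mul_one]
  · intro w _ hw
    rw [Matrix.smul_apply, Matrix.single_apply, if_neg, smul_zero]
    rintro ⟨h7, h8⟩
    exact hw (Prod.ext h7 h8)
  · intro h
    exact absurd (Finset.mem_univ _) h

theorem lin_apply (π : Matrix ι ι ℂ →ₗ[ℂ] Matrix ι ι ℂ) (z : Matrix ι ι ℂ) (v : ι × ι) :
    ∑ w : ι × ι, π (Matrix.single w.1 w.2 1) v.1 v.2 * z w.1 w.2 = π z v.1 v.2 := by
  conv_rhs => rw [← sum_single z]
  rw [map_sum, Matrix.sum_apply]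
  refine Finset.sum_congr rfl fun w _ => ?_
  rw [map_smul, Matrix.smul_apply, smul_eq_mul, mul_comm]

theorem cp_X (π : Matrix ι ι ℂ →ₗ[ℂ] Matrix ι ι ℂ) (v : ι × ι) :
    cp π (X v) = ∑ w : ι × ι, C (π (Matrix.single w.1 w.2 1) v.1 v.2) * X w := by
  rw [cp, aeval_X]

theorem eval_cp (π : Matrix ι ι ℂ →ₗ[ℂ] Matrix ι ι ℂ) (z : Matrix ι ι ℂ)
    (p : MvPolynomial (ι × ι) ℂ) : eval (en z) (cp π p) = eval (en (π z)) p := by
  induction p using MvPolynomial.induction_on with
  | C a => rw [cp, algHom_C, algebraMap_eq, eval_C, eval_C]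
  | add p q hp hq => rw [map_add, map_add, map_add, hp, hq]
  | mul_X p v hp =>
    rw [map_mul, map_mul, map_mul, hp, cp_X, eval_X, map_sum]
    congr 1
    refine (Finset.sum_congr rfl fun w _ => ?_).trans (lin_apply π z v)
    rw [map_mul, eval_C, eval_X]
    rfl

theorem dl_cp_X (π : Matrix ι ι ℂ →ₗ[ℂ] Matrix ι ι ℂ) (v : ι × ι) (z : Matrix ι ι ℂ) :
    dl (cp π (X v)) z = π z v.1 v.2 := by
  rw [dl_apply, cp_X, tang_sum]
  refine (Finset.sum_congr rfl fun w _ => ?_).trans (lin_apply π z v)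
  rw [tang_mul, tang_C, eval_C, tang_X, zero_mul, zero_add]

theorem cp_X_mem (π : Matrix ι ι ℂ →ₗ[ℂ] Matrix ι ι ℂ) (v : ι × ι) :
    cp π (X v) ∈ mm (ι × ι) 1 := by
  rw [cp_X]
  exact Submodule.sum_mem _ fun w _ => Ideal.mul_mem_left _ _ (X_mem w)

/-- a linear functional in the form of an entry -/
noncomputable def enl (v : ι × ι) : Matrix ι ι ℂ →ₗ[ℂ] ℂ where
  toFun z := z v.1 v.2
  map_add' _ _ := rfl
  map_smul' _ _ := rfl

theorem diff_X_mem {G : Subgroup (GL ι ℂ)} (hG : Geo (G : Set (GL ι ℂ)))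
    {π : Matrix ι ι ℂ →ₗ[ℂ] Matrix ι ι ℂ} (hπ : ∀ z ∈ lie (G : Set (GL ι ℂ)), π z = z)
    (v : ι × ι) : X v - cp π (X v) ∈ tv (G : Set (GL ι ℂ)) ⊔ mm (ι × ι) 2 := by
  obtain ⟨q, hq, hq'⟩ := exists_dl hG (enl v - enl v ∘ₗ π) fun M hM => by
    change M v.1 v.2 - π M v.1 v.2 = 0
    rw [hπ M hM, sub_self]
  have h1 : X v - cp π (X v) - q ∈ mm (ι × ι) 2 := by
    refine mem_two ?_ ?_
    · have h2 := hq 1 G.one_mem
      rw [Units.val_one, sub_self] at h2
      rw [map_sub, map_sub, h2, eval_X, eval_cp, LinearMap.map_zero, eval_X]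
      simp
    · refine LinearMap.ext fun z => ?_
      rw [map_sub, map_sub, hq']
      change tang (X v) 0 z - dl (cp π (X v)) z - (z v.1 v.2 - π z v.1 v.2) = 0
      rw [dl_cp_X, tang_X, sub_self]
  have h3 : X v - cp π (X v) = q + (X v - cp π (X v) - q) := by ring
  rw [h3]
  exact Submodule.add_mem_sup hq h1

open Filter Topology Pool.Agent.Lib.MPf11a48.K3 Pool.Agent.Lib.MPf11a48.K3.KCurM in
theorem gl_tendsto (z : Matrix ι ι ℂ) :
    Tendsto (fun s : ℂ => en (s⁻¹ • ((gl z s).1 - 1))) (𝓝[≠] 0) (𝓝 (en z)) := by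
  rw [tendsto_pi_nhds]
  intro v
  have h0 : HasDerivAt (fun s => (gl z s).1 v.1 v.2) ((z * (gl z 0).1) v.1 v.2) 0 :=
    dv_gl z 0 v.1 v.2
  have h2 : (z * (gl z 0).1) v.1 v.2 = en z v := by
    rw [gl_zero, Units.val_one, Matrix.mul_one]
    rfl
  rw [h2] at h0
  have h1 := hasDerivAt_iff_tendsto_slope_zero.1 h0
  refine h1.congr fun s => ?_
  rw [zero_add, gl_zero, Units.val_one]
  rfl

open Pool.Agent.Lib.MPf11a48.K3 Pool.Agent.Lib.MPf11a48.K3.KCurM in
/-- the ideal of `N` is contained in the ideal of `G` modulo powers of the maximal ideal -/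
theorem tv_le {G N : Subgroup (GL ι ℂ)} (hG : Geo (G : Set (GL ι ℂ)))
    (hN : ∀ X ∈ lie (G : Set (GL ι ℂ)), ∀ s, gl X s ∈ N) (k : ℕ) :
    tv (N : Set (GL ι ℂ)) ≤ tv (G : Set (GL ι ℂ)) ⊔ mm (ι × ι) k := by
  obtain ⟨π, hπ, hπ'⟩ := exists_proj (lie (G : Set (GL ι ℂ)))
  induction k with
  | zero =>
    have : mm (ι × ι) 0 = ⊤ := by rw [mm, pow_zero, Ideal.one_eq_top]
    rw [this, sup_top_eq]
    exact le_top
  | succ k ih =>
    intro f hf
    obtain ⟨j, hj, g, hg, rfl⟩ := Submodule.mem_sup.1 (ih hf)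
    have h1 : ∀ z ∈ lie (G : Set (GL ι ℂ)), eval (en z) (homogeneousComponent k g) = 0 := by
      intro z hz
      refine comp_zero hg (gl_tendsto z) fun s hs => ?_
      have e1 : (fun v => s * en (s⁻¹ • ((gl z s).1 - 1)) v) = en ((gl z s).1 - 1) := by
        funext v
        change s * (s⁻¹ • ((gl z s).1 - 1) v.1 v.2) = ((gl z s).1 - 1) v.1 v.2
        rw [smul_eq_mul, mul_inv_cancel_left₀ hs]
      rw [e1]
      have h2 : gl z s ∈ (G : Set (GL ι ℂ)) := by
        have h3 := specCurve ι (G : Set (GL ι ℂ)) hG z hz (gl z) (gl_zero z)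
          (fun s i j => dv_gl z s i j) 1 G.one_mem s
        rwa [mul_one] at h3
      have h4 := hf (gl z s) (hN z hz s)
      rw [map_add, hj (gl z s) h2, zero_add] at h4
      exact h4
    have h2 : cp π (homogeneousComponent k g) = 0 := by
      refine MvPolynomial.funext fun x => ?_
      have e1 : x = en (Matrix.of fun i j => x (i, j) : Matrix ι ι ℂ) := rfl
      rw [e1, eval_cp, map_zero]
      exact h1 _ (hπ _)
    have h3 := diff_mem (cp_X_mem π) (diff_X_mem hG hπ') k _ (comp_mem g k)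
    rw [h2, sub_zero] at h3
    have h4 : j + g = j + homogeneousComponent k g + (g - homogeneousComponent k g) := by ring
    rw [h4]
    exact Submodule.add_mem _ (Submodule.add_mem _ (Submodule.mem_sup_left hj) h3)
      (Submodule.mem_sup_right (sub_comp_mem hg))

end mat

end FixM

open FixM MvPolynomial Pool.Agent.Lib.MPf11a48.Tors Pool.Agent.Lib.MPf11a48.GL2
  Pool.Agent.Lib.MPf11a48.K3.KCurM in
theorem specFix : SpecFix := by
  classical
  intro ι _ _ G N hG hN hgl
  obtain ⟨d, hd, hd'⟩ := krull (tv_le hG hgl)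
  -- the condition at the group elements
  have hd1 : eval (en ((1 : GL ι ℂ).1)) (ts (-1) d) = 1 := by
    rw [eval_ts, Units.val_one, add_neg_cancel]
    exact hd
  have hmem : ∀ g ∈ G, eval (en g.1) (ts (-1) d) ≠ 0 → g ∈ N := by
    intro g hg hne
    obtain ⟨S, hS⟩ := hN
    have hS' : ∀ x : GL ι ℂ, x ∈ N ↔ ∀ p ∈ S, MvPolynomial.aeval (ent x) p = 0 := by
      intro x
      have h1 : x ∈ (N : Set (GL ι ℂ)) ↔ x ∈ {g | ∀ p ∈ S, MvPolynomial.aeval (ent g) p = 0} := by
        rw [hS]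
      exact h1
    rw [hS']
    intro p hp
    have h1 : p ∈ van (N : Set (GL ι ℂ)) := by
      intro f hf
      exact (hS' f).1 hf p hp
    have h2 := hd' _ (ts_mem h1) g hg
    rw [map_mul, eval_ts, sub_add_cancel] at h2
    rw [eval_ts, ← sub_eq_add_neg] at hne
    have h3 := (mul_eq_zero.1 h2).resolve_left hne
    exact h3
  let P : Set (MvPolynomial (ι × ι) ℂ) := {q | ∃ g ∈ G, q = lr g⁻¹.1 1 (ts (-1) d)}
  obtain ⟨s', hs', hsp⟩ := (Submodule.fg_span_iff_fg_span_finset_subset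
    (R := MvPolynomial (ι × ι) ℂ) P).1 ((isNoetherian_def.1
      (inferInstance : IsNoetherianRing (MvPolynomial (ι × ι) ℂ))) _)
  have hs'' : ∀ q : s', ∃ g ∈ G, q.1 = lr g⁻¹.1 1 (ts (-1) d) := fun q => hs' q.2
  choose γ hγ hγ' using hs''
  refine ⟨Finset.univ.image γ, ?_, fun h hh => ?_⟩
  · intro f hf
    obtain ⟨q, _, rfl⟩ := Finset.mem_image.1 hf
    exact hγ q
  · by_contra hcon
    push Not at hcon
    have h1 : ∀ q : s', eval (en h.1) q.1 = 0 := by
      intro q
      by_contra hne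
      refine hcon (γ q) (Finset.mem_image.2 ⟨q, Finset.mem_univ _, rfl⟩) (hmem _
        (G.mul_mem (G.inv_mem (hγ q)) hh) ?_)
      rw [hγ' q, eval_lr, Matrix.mul_one] at hne
      exact hne
    have h2 : lr h⁻¹.1 1 (ts (-1) d) ∈ Submodule.span (MvPolynomial (ι × ι) ℂ) P :=
      Submodule.subset_span ⟨h, hh, rfl⟩
    rw [hsp] at h2
    have h3 : Submodule.span (MvPolynomial (ι × ι) ℂ) (s' : Set (MvPolynomial (ι × ι) ℂ)) ≤
        RingHom.ker (eval (en h.1)) := by
      rw [Submodule.span_le]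
      intro q hq
      exact h1 ⟨q, hq⟩
    have h4 : eval (en h.1) (lr h⁻¹.1 1 (ts (-1) d)) = 0 := h3 h2
    rw [eval_lr, Matrix.mul_one, glinv'] at h4
    rw [Units.val_one, h4] at hd1
    exact zero_ne_one hd1

end Pool.Agent.Lib.MPf11a48.CG
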