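import Pool.Agent.Lib.MP_f11a48_ag.CG.SpecP

/-!
# GALX: the system of the entries of `Y` satisfies Galochkin's condition
-/

set_option autoImplicit false

namespace Pool.Agent.Lib.MPf11a48.CG

open Polynomial Matrix
open scoped PowerSeries
open Pool.Agent.Lib.MPf11a48.GF

namespace GalxM

variable {ι : Type} [Fintype ι] [DecidableEq ι]

/-- a common denominator of a rational matrix -/
lemma exists_den (N : Matrix ι ι ℚ) : ∃ (q : ℤ) (N₁ : Matrix ι ι ℤ), 0 < q ∧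
    ∀ i j, (q : ℚ) * N i j = N₁ i j := by
  refine ⟨∏ v : ι × ι, ((N v.1 v.2).den : ℤ), fun i j =>
    (∏ v ∈ Finset.univ.erase (i, j), ((N v.1 v.2).den : ℤ)) * (N i j).num,
    Finset.prod_pos fun v _ => by exact_mod_cast (N v.1 v.2).pos, fun i j => ?_⟩
  have h := Finset.mul_prod_erase Finset.univ (fun v : ι × ι => ((N v.1 v.2).den : ℤ))
    (Finset.mem_univ (i, j))
  rw [← h]
  push_cast
  have h2 : (((N i j).den : ℤ) : ℚ) * N i j = (N i j).num := by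
    rw [mul_comm]
    exact_mod_cast Rat.mul_den_eq_num (N i j)
  rw [mul_right_comm]
  push_cast at h2
  rw [h2, mul_comm]

/-- the entries of `Y` are a solution of the system `TT q T`, `BP q T B N₁` -/
lemma sol (T : ℤ[X]) (B : Matrix ι ι ℤ[X]) (N : Matrix ι ι ℚ) (N₁ : Matrix ι ι ℤ) (q : ℤ)
    (Y : Matrix ι ι ℚ⟦X⟧) (hN : ∀ i j, (q : ℚ) * N i j = N₁ i j)
    (h : ∀ i j, ((X * zq T : ℚ[X]) : ℚ⟦X⟧) * PowerSeries.derivative ℚ (Y i j) =
      ∑ k, ((X * zq (B j k) : ℚ[X]) : ℚ⟦X⟧) * Y i k -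
        ((zq T : ℚ[X]) : ℚ⟦X⟧) * (N.map (PowerSeries.C : ℚ →+* ℚ⟦X⟧) * Y) i j) :
    IsSol (zq (TT q T)) ((BP q T B N₁).map zq) fun v => Y v.1 v.2 := by
  rintro ⟨l, j⟩
  have h1 : ((zq (TT q T) : ℚ[X]) : ℚ⟦X⟧) =
      PowerSeries.C (q : ℚ) * ((X * zq T : ℚ[X]) : ℚ⟦X⟧) := by
    simp only [TT, zq, Polynomial.map_mul, Polynomial.map_X, Polynomial.map_C,
      Polynomial.coe_mul, Polynomial.coe_C, Polynomial.coe_X, Int.coe_castRingHom, mul_assoc]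
  have h2 : ∀ w : ι × ι, ((((BP q T B N₁).map zq) (l, j) w : ℚ[X]) : ℚ⟦X⟧) * Y w.1 w.2 =
      (if l = w.1 then PowerSeries.C (q : ℚ) * (((X * zq (B j w.2) : ℚ[X]) : ℚ⟦X⟧) * Y w.1 w.2)
        else 0) -
      (if j = w.2 then PowerSeries.C (q : ℚ) * (((zq T : ℚ[X]) : ℚ⟦X⟧) *
        (PowerSeries.C (N l w.1) * Y w.1 w.2)) else 0) := by
    intro w
    simp only [Matrix.map_apply, BP, zq, Polynomial.map_sub, Polynomial.coe_sub, sub_mul]
    congr 1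
    · split_ifs
      · simp only [Polynomial.map_mul, Polynomial.map_X, Polynomial.map_C,
          Polynomial.coe_mul, Polynomial.coe_C, Polynomial.coe_X, Int.coe_castRingHom, mul_assoc]
      · simp
    · split_ifs
      · have h3 : (PowerSeries.C ((N₁ l w.1 : ℤ) : ℚ) : ℚ⟦X⟧) =
            PowerSeries.C (q : ℚ) * PowerSeries.C (N l w.1) := by
          rw [← hN, map_mul]
        simp only [Polynomial.map_mul, Polynomial.map_C,
          Polynomial.coe_mul, Polynomial.coe_C, Int.coe_castRingHom, h3]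
        ring
      · simp
  rw [h1, mul_assoc, h l j, Finset.sum_congr rfl fun w _ => h2 w, Finset.sum_sub_distrib,
    Fintype.sum_prod_type, Fintype.sum_prod_type, mul_sub]
  congr 1
  · rw [Finset.sum_eq_single l (fun b _ hb => Finset.sum_eq_zero fun c _ => if_neg (Ne.symm hb))
      (fun h => absurd (Finset.mem_univ l) h), Finset.mul_sum]
    exact Finset.sum_congr rfl fun c _ => (if_pos rfl).symm
  · rw [Matrix.mul_apply, Finset.mul_sum, Finset.mul_sum]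
    refine Finset.sum_congr rfl fun c _ => ?_
    rw [Finset.sum_eq_single j (fun b _ hb => if_neg (Ne.symm hb))
      (fun h => absurd (Finset.mem_univ j) h), if_pos rfl]
    rfl

/-- Galochkin's condition for the system of the entries of `Y` -/
lemma gal (hDdf : SpecDdf) (hBnm : SpecBnm) (T : ℤ[X]) (B : Matrix ι ι ℤ[X]) (N : Matrix ι ι ℚ)
    (N₁ : Matrix ι ι ℤ) (q : ℤ) (hN : ∀ i j, (q : ℚ) * N i j = N₁ i j) (hnil : IsNilpotent N)
    (h : IsGal T B) : IsGal (TT q T) (BP q T B N₁) := by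
  obtain ⟨C₁, h₁⟩ := hBnm ι (-N) hnil.neg
  obtain ⟨C₂, h₂⟩ := h
  refine ⟨C₁ * C₂, fun n => ?_⟩
  obtain ⟨q₁, hq₁, hb₁, hz₁⟩ := h₁ n
  obtain ⟨q₂, hq₂, hb₂, hz₂⟩ := h₂ n
  refine ⟨q₁ * q₂, Nat.mul_pos hq₁ hq₂, ?_, ?_⟩
  · rw [mul_pow]
    exact Nat.mul_le_mul hb₁ hb₂
  rintro m hm ⟨k, i⟩ ⟨l, j⟩
  rw [hDdf ι T B N N₁ q hN m k i l j]
  have h3 : ∀ x ∈ Finset.HasAntidiagonal.antidiagonal m, ∃ z : ℤ[X],
      ((q₁ * q₂ : ℕ) : ℚ[X]) * (C (bn (-N) x.1 k l) * X ^ x.2 * (zq T) ^ x.1 *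
          dd (zq T) (B.map zq) (Pi.single i 1) x.2 j) = zq z := by
    intro x hx
    rw [Finset.HasAntidiagonal.mem_antidiagonal] at hx
    obtain ⟨z₁, hz₁⟩ := hz₁ x.1 (by omega) k l
    obtain ⟨z₂, hz₂⟩ := hz₂ x.2 (by omega) i j
    refine ⟨C z₁ * X ^ x.2 * T ^ x.1 * z₂, ?_⟩
    have h4 : (q₁ : ℚ[X]) * C (bn (-N) x.1 k l) = C (z₁ : ℚ) := by
      rw [← hz₁, C_mul]
      simp
    calc ((q₁ * q₂ : ℕ) : ℚ[X]) * (C (bn (-N) x.1 k l) * X ^ x.2 * (zq T) ^ x.1 *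
          dd (zq T) (B.map zq) (Pi.single i 1) x.2 j)
        = ((q₁ : ℚ[X]) * C (bn (-N) x.1 k l)) * X ^ x.2 * (zq T) ^ x.1 *
          ((q₂ : ℚ[X]) * dd (zq T) (B.map zq) (Pi.single i 1) x.2 j) := by
          push_cast
          ring
      _ = zq (C z₁ * X ^ x.2 * T ^ x.1 * z₂) := by
          rw [h4, hz₂]
          simp [zq, Polynomial.map_mul, Polynomial.map_pow]
  choose! z hz using h3
  refine ⟨C (q ^ m) * ∑ x ∈ Finset.HasAntidiagonal.antidiagonal m, z x, ?_⟩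
  rw [mul_left_comm, Finset.mul_sum, Finset.sum_congr rfl hz]
  simp only [zq, Polynomial.map_mul, Polynomial.map_C, Polynomial.map_sum]
  simp

end GalxM

theorem specGalx (hDdf : SpecDdf) (hBnm : SpecBnm) (hGaly : SpecGaly) : SpecGalx := by
  intro ι _ _ T B N ψ₀ Y G₀ h hnil hψ hY
  obtain ⟨q, N₁, hq, hN⟩ := GalxM.exists_den N
  refine ⟨TT q T, BP q T B N₁, ?_, GalxM.gal hDdf hBnm T B N N₁ q hN hnil
    (hGaly ι T B N ψ₀ Y G₀ h hnil hψ hY), GalxM.sol T B N N₁ q Y hN h.sol, h.g, h.mon, h.tor⟩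
  exact mul_ne_zero (mul_ne_zero (C_ne_zero.2 hq.ne') X_ne_zero) h.ne

end Pool.Agent.Lib.MPf11a48.CG
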