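import Pool.Agent.Lib.MP_f11a48_ag.CG.SpecP
import Pool.Agent.Lib.MP_f11a48_ag.GF.Bnd

/-!
# Module GALY: Galochkin's condition for the system `T y' = B y`
-/

set_option autoImplicit false

namespace Pool.Agent.Lib.MPf11a48.CG

open Polynomial Matrix
open scoped PowerSeries
open Pool.Agent.Lib.MPf11a48.GF

namespace GalyM

/-- `q` is a common denominator of the coefficients of `f` up to degree `m` -/
def Den (q m : ℕ) (f : ℚ⟦X⟧) : Prop := ∀ k ≤ m, ∃ z : ℤ, (q : ℚ) * PowerSeries.coeff k f = z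

lemma Den.mul {q q' m : ℕ} {f g : ℚ⟦X⟧} (hf : Den q m f) (hg : Den q' m g) :
    Den (q * q') m (f * g) := by
  intro k hk
  choose! z hz using hf
  choose! z' hz' using hg
  refine ⟨∑ x ∈ Finset.HasAntidiagonal.antidiagonal k, z x.1 * z' x.2, ?_⟩
  rw [PowerSeries.coeff_mul, Finset.mul_sum]
  push_cast
  refine Finset.sum_congr rfl fun x hx => ?_
  rw [Finset.HasAntidiagonal.mem_antidiagonal] at hx
  rw [← hz x.1 (by omega), ← hz' x.2 (by omega)]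
  ring

lemma Den.sum {α : Type*} {s : Finset α} {q m : ℕ} {f : α → ℚ⟦X⟧} (hf : ∀ a ∈ s, Den q m (f a)) :
    Den q m (∑ a ∈ s, f a) := by
  intro k hk
  have h1 : ∀ a ∈ s, ∃ z : ℤ, (q : ℚ) * PowerSeries.coeff k (f a) = z := fun a ha => hf a ha k hk
  choose! z hz using h1
  refine ⟨∑ a ∈ s, z a, ?_⟩
  rw [map_sum, Finset.mul_sum]
  push_cast
  exact Finset.sum_congr rfl fun a ha => hz a ha

lemma Den.poly (m : ℕ) (p : ℤ[X]) : Den 1 m ((zq p : ℚ[X]) : ℚ⟦X⟧) := by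
  intro k _
  exact ⟨p.coeff k, by simp [zq]⟩

lemma Den.pol {q : ℕ} (m : ℕ) {p : ℚ[X]} (h : ∃ z : ℤ[X], (q : ℚ[X]) * p = zq z) :
    Den q m (p : ℚ⟦X⟧) := by
  intro k _
  obtain ⟨z, hz⟩ := h
  refine ⟨z.coeff k, ?_⟩
  have h1 := congrArg (fun p => p.coeff k) hz
  simp only [zq, coeff_map, eq_intCast] at h1
  rw [Polynomial.coeff_coe, ← h1, ← C_eq_natCast, coeff_C_mul]

lemma Den.const {q : ℕ} (m : ℕ) {c : ℚ} (h : ∃ z : ℤ, (q : ℚ) * c = z) :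
    Den q m (PowerSeries.C c) := by
  intro k _
  rw [PowerSeries.coeff_C]
  split_ifs
  · exact h
  · exact ⟨0, by simp⟩

lemma Den.hs {q m : ℕ} {f : ℚ⟦X⟧} (b : ℕ) (h : Den q (m + b) f) : Den q m (hs b f) := by
  intro k hk
  obtain ⟨z, hz⟩ := h (k + b) (by omega)
  refine ⟨((k + b).choose b : ℤ) * z, ?_⟩
  rw [GF.hs, PowerSeries.coeff_mk]
  push_cast
  rw [← hz]
  ring

lemma Den.mono {q m m' : ℕ} {f : ℚ⟦X⟧} (h : Den q m f) (hm : m' ≤ m) : Den q m' f :=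
  fun k hk => h k (hk.trans hm)

/-- common denominators of polynomials -/
lemma comden {α : Type*} [Fintype α] [DecidableEq α] (f : α → ℚ[X]) :
    ∃ d : ℕ, 0 < d ∧ ∀ a, ∃ z : ℤ[X], (d : ℚ[X]) * f a = zq z := by
  have h1 : ∀ p : ℚ[X], ∃ d : ℕ, 0 < d ∧ ∃ z : ℤ[X], (d : ℚ[X]) * p = zq z := by
    intro p
    obtain ⟨b, hb, h⟩ := IsLocalization.integerNormalization_spec (nonZeroDivisors ℤ) p
    set g := IsLocalization.integerNormalization (nonZeroDivisors ℤ) p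
    have hb0 : b ≠ 0 := nonZeroDivisors.ne_zero hb
    have h2 : zq g = C (b : ℚ) * p := by
      have h1 : g.map (Int.castRingHom ℚ) = b • p := by
        simpa using h
      rw [show zq g = g.map (Int.castRingHom ℚ) from rfl, h1, ← Int.cast_smul_eq_zsmul ℚ b p,
        smul_eq_C_mul]
    refine ⟨b.natAbs * b.natAbs, Nat.mul_pos (Int.natAbs_pos.mpr hb0) (Int.natAbs_pos.mpr hb0),
      C b * g, ?_⟩
    have h3 : ((b.natAbs * b.natAbs : ℕ) : ℚ[X]) = C (b : ℚ) * C (b : ℚ) := by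
      rw [← C_eq_natCast, ← C_mul]
      congr 1
      have h4 := congrArg (fun x : ℤ => (x : ℚ)) (Int.natAbs_mul_self (a := b))
      simp only [Int.cast_natCast, Int.cast_mul] at h4
      exact h4
    rw [h3, zq, Polynomial.map_mul, Polynomial.map_C, show g.map (Int.castRingHom ℚ) = zq g from rfl,
      h2, eq_intCast]
    ring
  choose d hd z hz using fun a => h1 (f a)
  refine ⟨∏ a, d a, Finset.prod_pos fun a _ => hd a, fun a => ?_⟩
  refine ⟨C ((∏ c ∈ Finset.univ.erase a, d c : ℕ) : ℤ) * z a, ?_⟩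
  rw [← Finset.mul_prod_erase _ _ (Finset.mem_univ a), Nat.cast_mul, zq, Polynomial.map_mul,
    Polynomial.map_C, show (z a).map (Int.castRingHom ℚ) = zq (z a) from rfl, ← hz a, eq_intCast,
    Int.cast_natCast, C_eq_natCast]
  ring

/-- a polynomial with integral coefficients -/
lemma exists_zq {p : ℚ[X]} (h : ∀ k, ∃ z : ℤ, p.coeff k = z) : ∃ z : ℤ[X], p = zq z := by
  choose z hz using h
  refine ⟨∑ k ∈ Finset.range (p.natDegree + 1), C (z k) * X ^ k, ?_⟩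
  conv_lhs => rw [p.as_sum_range_C_mul_X_pow]
  rw [zq, Polynomial.map_sum]
  refine Finset.sum_congr rfl fun k _ => ?_
  rw [Polynomial.map_mul, Polynomial.map_pow, Polynomial.map_X, Polynomial.map_C, eq_intCast, hz]

section

variable {ι : Type} [Fintype ι] [DecidableEq ι]

/-- the matrix `E` with `E Y = det Q` -/
lemma exists_E {Q : Matrix ι ι ℚ[X]} {Y : Matrix ι ι ℚ⟦X⟧} {ψ₀ : Matrix ι ι ℚ} {D : ℚ[X]}
    (hQ : ∀ i j, (D : ℚ⟦X⟧) * (Yᵀ * ψ₀.map (PowerSeries.C : ℚ →+* ℚ⟦X⟧) * Y) i j =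
      (Q i j : ℚ⟦X⟧)) (v : ι → ℚ⟦X⟧) (j : ι) :
    ((Q.det : ℚ[X]) : ℚ⟦X⟧) * v j = ∑ l, (∑ a, ∑ c, ((D * Q.adjugate j a : ℚ[X]) : ℚ⟦X⟧) *
      Y c a * PowerSeries.C (ψ₀ c l)) * ∑ k, Y l k * v k := by
  set κ : ℚ[X] →+* ℚ⟦X⟧ := Polynomial.coeToPowerSeries.ringHom
  have h1 : (Q.map κ) = (D : ℚ⟦X⟧) • (Yᵀ * ψ₀.map (PowerSeries.C : ℚ →+* ℚ⟦X⟧) * Y) := by
    ext i j
    rw [Matrix.smul_apply, smul_eq_mul, hQ i j]
    rfl
  have h2 : (Q.adjugate.map κ) * (Q.map κ) = (κ Q.det) • (1 : Matrix ι ι ℚ⟦X⟧) := by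
    rw [← Matrix.map_mul, adjugate_mul]
    ext i j
    by_cases h : i = j <;> simp [h]
  have h3 : (κ Q.det) * v j = (((κ Q.det) • (1 : Matrix ι ι ℚ⟦X⟧)) *ᵥ v) j := by
    rw [smul_mulVec, one_mulVec]
    rfl
  rw [show ((Q.det : ℚ[X]) : ℚ⟦X⟧) = κ Q.det from rfl, h3, ← h2, h1, Matrix.mul_smul,
    ← Matrix.mul_assoc, ← Matrix.mul_assoc, ← Matrix.smul_mul, ← mulVec_mulVec]
  show ∑ l, _ * _ = _
  refine Finset.sum_congr rfl fun l _ => ?_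
  congr 1
  rw [Matrix.smul_apply, smul_eq_mul, Matrix.mul_apply, Finset.mul_sum]
  simp_rw [Matrix.mul_apply, Finset.sum_mul, Finset.mul_sum]
  rw [Finset.sum_comm]
  refine Finset.sum_congr rfl fun a _ => Finset.sum_congr rfl fun c _ => ?_
  rw [Polynomial.coe_mul]
  simp only [map_apply, transpose_apply]
  rw [show κ (Q.adjugate j a) = ((Q.adjugate j a : ℚ[X]) : ℚ⟦X⟧) from rfl]
  ring

lemma det_ne {Q : Matrix ι ι ℚ[X]} {Y : Matrix ι ι ℚ⟦X⟧} {ψ₀ : Matrix ι ι ℚ} {D : ℚ[X]}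
    (hD : D ≠ 0) (hY : Y.det ≠ 0) (hψ : ψ₀.det ≠ 0)
    (hQ : ∀ i j, (D : ℚ⟦X⟧) * (Yᵀ * ψ₀.map (PowerSeries.C : ℚ →+* ℚ⟦X⟧) * Y) i j =
      (Q i j : ℚ⟦X⟧)) : Q.det ≠ 0 := by
  set κ : ℚ[X] →+* ℚ⟦X⟧ := Polynomial.coeToPowerSeries.ringHom
  have h1 : (Q.map κ) = (D : ℚ⟦X⟧) • (Yᵀ * ψ₀.map (PowerSeries.C : ℚ →+* ℚ⟦X⟧) * Y) := by
    ext i j
    rw [Matrix.smul_apply, smul_eq_mul, hQ i j]
    rfl
  have h2 : κ Q.det = (D : ℚ⟦X⟧) ^ Fintype.card ι * (Y.det * PowerSeries.C ψ₀.det * Y.det) := by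
    rw [RingHom.map_det, RingHom.mapMatrix_apply, h1, det_smul, det_mul, det_mul, det_transpose]
    congr 3
    rw [RingHom.map_det, RingHom.mapMatrix_apply]
  intro h
  rw [h, map_zero] at h2
  have hD' : (D : ℚ⟦X⟧) ≠ 0 := by
    rwa [Ne, Polynomial.coe_eq_zero_iff]
  have hψ' : (PowerSeries.C ψ₀.det : ℚ⟦X⟧) ≠ 0 := by
    rw [Ne, map_eq_zero_iff _ PowerSeries.C_injective]
    exact hψ
  exact mul_ne_zero (pow_ne_zero _ hD') (mul_ne_zero (mul_ne_zero hY hψ') hY) h2.symm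

end

end GalyM

open GalyM in
/-- Galochkin's condition for the system `T y' = B y` -/
theorem GalyM.core (hBnm : SpecBnm) (hYdd : SpecYdd) (hGau : SpecGau) (ι : Type) [Fintype ι]
    [DecidableEq ι] (T : ℤ[X]) (B : Matrix ι ι ℤ[X]) (N ψ₀ : Matrix ι ι ℚ) (Y : Matrix ι ι ℚ⟦X⟧)
    (sol : ∀ i j, ((X * zq T : ℚ[X]) : ℚ⟦X⟧) * PowerSeries.derivative ℚ (Y i j) =
      ∑ k, ((X * zq (B j k) : ℚ[X]) : ℚ⟦X⟧) * Y i k -
        ((zq T : ℚ[X]) : ℚ⟦X⟧) * (N.map (PowerSeries.C : ℚ →+* ℚ⟦X⟧) * Y) i j)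
    (g : IsG fun v : ι × ι => Y v.1 v.2)
    (pol : ∃ D : ℚ[X], D ≠ 0 ∧ ∀ i j, ∃ q : ℚ[X],
      (D : ℚ⟦X⟧) * (Yᵀ * ψ₀.map (PowerSeries.C : ℚ →+* ℚ⟦X⟧) * Y) i j = (q : ℚ⟦X⟧))
    (hN : IsNilpotent N) (hψ : ψ₀.det ≠ 0) (hY : Y.det ≠ 0) : IsGal T B := by
  obtain ⟨D, hD, hQ⟩ := pol
  choose Q hQ using hQ
  have hdet := det_ne (Q := of Q) hD hY hψ hQ
  -- denominators
  obtain ⟨p₁, hp₁, h1⟩ := comden (fun x : ι × ι => D * (of Q).adjugate x.1 x.2)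
  obtain ⟨p₂, hp₂, h2⟩ := comden (fun x : ι × ι => C (ψ₀ x.1 x.2))
  obtain ⟨p₃, hp₃, h3⟩ := comden (fun _ : Unit => (of Q).det)
  obtain ⟨s, hsd⟩ := h3 ()
  have hs0 : s ≠ 0 := by
    rintro rfl
    rw [zq, Polynomial.map_zero] at hsd
    have : ((p₃ : ℕ) : ℚ[X]) ≠ 0 := by exact_mod_cast hp₃.ne'
    exact mul_ne_zero this hdet hsd
  obtain ⟨c, hc, hgau⟩ := hGau s hs0
  obtain ⟨C₁, hC₁⟩ := hBnm ι N hN
  obtain ⟨C₂, hC₂⟩ := g
  -- degrees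
  obtain ⟨c₀, hT, hB⟩ : ∃ c₀ : ℕ, (zq T).natDegree ≤ c₀ ∧ ∀ i j, ((B.map zq) i j).natDegree ≤ c₀ := by
    refine ⟨(zq T).natDegree + ∑ x : ι × ι, ((B.map zq) x.1 x.2).natDegree, by omega, fun i j => ?_⟩
    have := Finset.single_le_sum (f := fun x : ι × ι => ((B.map zq) x.1 x.2).natDegree)
      (fun _ _ => Nat.zero_le _) (Finset.mem_univ (i, j))
    simp only at this
    omega
  set M := (zq s).natDegree
  refine ⟨(c * p₁ * p₂) * C₁ * (C₂ ^ (c₀ + 2 + M)) ^ 2, fun n => ?_⟩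
  obtain ⟨q₁, hq₁, hq₁', hb₁⟩ := hC₁ n
  set m := (1 + c₀) * n + M with hm
  obtain ⟨q₂, hq₂, hq₂', hy, -⟩ := hC₂ (m + n)
  refine ⟨c * ((p₁ * q₂ * p₂) * (1 * (q₁ * q₂))), by positivity, ?_, ?_⟩
  · have hC₂1 : 1 ≤ C₂ := by
      rcases Nat.eq_zero_or_pos C₂ with h | h
      · rw [h, zero_pow (by omega)] at hq₂'
        omega
      · exact h
    have h4 : q₂ ≤ (C₂ ^ (c₀ + 2 + M)) ^ (n + 1) := by
      refine hq₂'.trans ?_
      rw [← pow_mul]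
      refine Nat.pow_le_pow_right hC₂1 ?_
      rw [hm]
      nlinarith [Nat.zero_le (M * n), Nat.zero_le (c₀ + 1)]
    have h5 : c * p₁ * p₂ ≤ (c * p₁ * p₂) ^ (n + 1) := by
      refine Nat.le_self_pow (by omega) _
    calc c * ((p₁ * q₂ * p₂) * (1 * (q₁ * q₂))) = (c * p₁ * p₂) * q₁ * (q₂ * q₂) := by ring
      _ ≤ (c * p₁ * p₂) ^ (n + 1) * C₁ ^ (n + 1) *
          ((C₂ ^ (c₀ + 2 + M)) ^ (n + 1) * (C₂ ^ (c₀ + 2 + M)) ^ (n + 1)) := by gcongr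
      _ = _ := by ring
  · intro b hb i j
    set v : ι → ℚ[X] := dd (zq T) (B.map zq) (Pi.single i 1) b with hv
    have hY' : ∀ i j, Den q₂ (m + n) (Y i j) := fun i j k hk => hy (i, j) k hk
    have hid : ((X ^ b : ℚ[X]) : ℚ⟦X⟧) * ((((of Q).det : ℚ[X]) : ℚ⟦X⟧) * (v j : ℚ⟦X⟧)) =
        ∑ l, (∑ a, ∑ c, ((D * (of Q).adjugate j a : ℚ[X]) : ℚ⟦X⟧) *
          Y c a * PowerSeries.C (ψ₀ c l)) * ((((zq T) ^ b : ℚ[X]) : ℚ⟦X⟧) *
            ∑ x ∈ Finset.HasAntidiagonal.antidiagonal b,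
            ((X ^ x.2 : ℚ[X]) : ℚ⟦X⟧) * ∑ l', PowerSeries.C (bn N x.1 l l') * hs x.2 (Y l' i)) := by
      rw [exists_E (Q := of Q) hQ (fun k => (v k : ℚ⟦X⟧)) j, Finset.mul_sum]
      refine Finset.sum_congr rfl fun l _ => ?_
      rw [← hYdd ι T B N Y sol b l i]
      ring
    have hden : Den ((p₁ * q₂ * p₂) * (1 * (q₁ * q₂))) m
        (((X ^ b : ℚ[X]) : ℚ⟦X⟧) * ((((of Q).det : ℚ[X]) : ℚ⟦X⟧) * (v j : ℚ⟦X⟧))) := by
      rw [hid]
      refine Den.sum fun l _ => Den.mul (Den.sum fun a _ => Den.sum fun c' _ => ?_) (Den.mul ?_ ?_)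
      · refine Den.mul (Den.mul (Den.pol m (h1 (j, a))) ((hY' _ _).mono (by omega))) (Den.const m ?_)
        obtain ⟨z, hz⟩ := h2 (c', l)
        refine ⟨z.coeff 0, ?_⟩
        have := congrArg (fun p => p.coeff 0) hz
        simp only [zq, coeff_map, eq_intCast] at this
        rw [← this, ← C_eq_natCast, ← C_mul, coeff_C_zero]
      · have := Den.poly m (T ^ b)
        rwa [zq, Polynomial.map_pow] at this
      · refine Den.sum fun x hx => ?_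
        rw [Finset.HasAntidiagonal.mem_antidiagonal] at hx
        have h6 : Den (1 * (q₁ * q₂)) m (((X ^ x.2 : ℚ[X]) : ℚ⟦X⟧) *
            ∑ l', PowerSeries.C (bn N x.1 l l') * hs x.2 (Y l' i)) := by
          refine Den.mul ?_ (Den.sum fun l' _ => Den.mul (Den.const m (hb₁ x.1 (by omega) l l'))
            (Den.hs x.2 ((hY' _ _).mono (by omega))))
          have := Den.poly m (X ^ x.2)
          rwa [zq, Polynomial.map_pow, Polynomial.map_X] at this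
        rwa [one_mul] at h6
    set q' := (p₁ * q₂ * p₂) * (1 * (q₁ * q₂)) with hq'
    have hdeg : (zq s * v j).natDegree ≤ M + b * c₀ := by
      refine natDegree_mul_le.trans ?_
      have h7 := BndM.dd_deg (zq T) (B.map zq) c₀ 0 hT hB (Pi.single i 1) (fun j => by
        by_cases h : j = i
        · subst h; simp
        · simp [h]) b j
      rw [zero_add] at h7
      exact Nat.add_le_add le_rfl h7
    have hint : ∃ z : ℤ[X], (q' : ℚ[X]) * (zq s * v j) = zq z := by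
      apply exists_zq
      intro k
      rw [← C_eq_natCast, coeff_C_mul]
      by_cases hk : k ≤ M + b * c₀
      · have hkm : k + b ≤ m := by
          rw [hm]
          nlinarith
        obtain ⟨z, hz⟩ := hden (k + b) hkm
        refine ⟨p₃ * z, ?_⟩
        rw [← Polynomial.coe_mul, ← Polynomial.coe_mul, Polynomial.coeff_coe, add_comm k b,
          Polynomial.coeff_X_pow_mul'] at hz
        rw [if_pos (by omega), show b + k - b = k by omega] at hz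
        rw [← hsd, mul_assoc, ← C_eq_natCast, coeff_C_mul]
        push_cast
        rw [← hz]
        ring
      · rw [coeff_eq_zero_of_natDegree_lt (by omega)]
        exact ⟨0, by simp⟩
    obtain ⟨z, hz⟩ := hint
    obtain ⟨z', hz'⟩ := hgau ((q' : ℚ[X]) * v j) ⟨z, by rw [← hz]; ring⟩
    refine ⟨z', ?_⟩
    rw [← hz']
    push_cast
    ring

theorem specGaly (hBnm : SpecBnm) (hYdd : SpecYdd) (hGau : SpecGau) : SpecGaly :=
  fun ι _ _ T B N ψ₀ Y _ hF hN hψ hY =>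
    GalyM.core hBnm hYdd hGau ι T B N ψ₀ Y hF.sol hF.g hF.pol hN hψ hY

end Pool.Agent.Lib.MPf11a48.CG
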