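import Pool.Agent.Lib.MP_f11a48_ag.CG.SpecA
import Pool.Agent.Lib.MP_f11a48_ag.CG.Galx
import Pool.Agent.Lib.MP_f11a48_ag.CG.Galy

/-!
# GALQ: the system of the entries of `Y` satisfies Galochkin's condition
-/

set_option autoImplicit false

namespace Pool.Agent.Lib.MPf11a48.CG

open Polynomial Matrix
open scoped PowerSeries
open Pool.Agent.Lib.MPf11a48.GF

theorem specGalq (hDdf : SpecDdf) (hBnm : SpecBnm) (hYdd : SpecYdd) (hGau : SpecGau) :
    SpecGalq := by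
  intro ι _ _ T B N ψ₀ Y h hnil hψ hY
  obtain ⟨q, N₁, hq, hN⟩ := GalxM.exists_den N
  refine ⟨TT q T, BP q T B N₁, ?_, GalxM.gal hDdf hBnm T B N N₁ q hN hnil
    (GalyM.core hBnm hYdd hGau ι T B N ψ₀ Y h.sol h.g h.pol hnil hψ hY),
    GalxM.sol T B N N₁ q Y hN h.sol⟩
  exact mul_ne_zero (mul_ne_zero (C_ne_zero.2 hq.ne') X_ne_zero) h.ne

end Pool.Agent.Lib.MPf11a48.CG
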