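import Pool.Agent.Lib.MP_f11a48_ag.CG.SpecP

/-!
# Module GAU: Gauss's lemma for common denominators
-/

set_option autoImplicit false

namespace Pool.Agent.Lib.MPf11a48.CG

open Polynomial
open Pool.Agent.Lib.MPf11a48.GF

theorem specGau : SpecGau := by
  intro s hs
  have hc : s.content ≠ 0 := by rwa [Ne, content_eq_zero_iff]
  refine ⟨s.content.natAbs, Int.natAbs_pos.mpr hc, ?_⟩
  rintro f ⟨z, hz⟩
  obtain ⟨d, hd, hg⟩ := IsLocalization.integerNormalization_spec (nonZeroDivisors ℤ) f
  set g := IsLocalization.integerNormalization (nonZeroDivisors ℤ) f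
  have hd0 : d ≠ 0 := nonZeroDivisors.ne_zero hd
  have hg' : zq g = C (d : ℚ) * f := by
    have h1 : g.map (Int.castRingHom ℚ) = d • f := by
      simpa using hg
    rw [show zq g = g.map (Int.castRingHom ℚ) from rfl, h1, ← Int.cast_smul_eq_zsmul ℚ d f,
      smul_eq_C_mul]
  have hinj : Function.Injective (zq : ℤ[X] → ℚ[X]) :=
    Polynomial.map_injective _ (Int.castRingHom ℚ).injective_int
  have hC : ∀ (a : ℤ) (p : ℤ[X]), zq (C a * p) = C (a : ℚ) * zq p := fun a p => by
    rw [zq, Polynomial.map_mul, Polynomial.map_C, eq_intCast]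
  have h1 : s * g = C d * z := by
    apply hinj
    rw [hC, ← hz, show zq (s * g) = zq s * zq g by simp [zq], hg']
    ring
  have h2 : d ∣ s.content * g.content := by
    rw [← content_mul, h1, content_C_mul]
    exact Dvd.dvd.mul_right (by simp) _
  obtain ⟨e, he⟩ := h2
  have h3 : C s.content * g = C d * (C e * g.primPart) := by
    conv_lhs => rw [g.eq_C_content_mul_primPart]
    rw [← mul_assoc, ← C_mul, he, C_mul, mul_assoc]
  have h4 : C (s.content : ℚ) * f = zq (C e * g.primPart) := by
    have h5 : (C (d : ℚ) : ℚ[X]) ≠ 0 := by simpa using hd0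
    apply mul_left_cancel₀ h5
    have h6 := congrArg zq h3
    rw [hC, hC, hg'] at h6
    rw [← h6]
    ring
  have hC' : ((s.content.natAbs : ℕ) : ℚ[X]) = C ((s.content.natAbs : ℕ) : ℚ) :=
    (C_eq_natCast _).symm
  rcases Int.natAbs_eq s.content with h | h
  · refine ⟨C e * g.primPart, ?_⟩
    rw [← h4, hC']
    conv_rhs => rw [h]
    rw [Int.cast_natCast]
  · refine ⟨-(C e * g.primPart), ?_⟩
    rw [show zq (-(C e * g.primPart)) = -zq (C e * g.primPart) by simp [zq], ← h4, hC']
    conv_rhs => rw [h]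
    rw [Int.cast_neg, Int.cast_natCast, C_neg]
    ring

end Pool.Agent.Lib.MPf11a48.CG
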