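import Pool.Agent.Lib.MP_f11a48_ag.CG.Gt

/-!
# Families with semisimple monodromy, INV: invariant tensors
-/

set_option autoImplicit false
set_option linter.unusedSectionVars false

namespace Pool.Agent.Lib.MPf11a48.CG

open Matrix
open Pool.Agent.Lib.MPf11a48.Tors
open Pool.Agent.Lib.MPf11a48.CM hiding OmegaM
open Pool.Agent.Lib.MPf11a48.CF (ta)
open Pool.Agent.Lib.MPf11a48.GL2 (lie van en Geo glmul glinv glinv')
open Pool.Agent.Lib.MPf11a48.K3.KCurM (gl)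

namespace InvM

variable {ι : Type} [Fintype ι] [DecidableEq ι] {m d : ℕ} {e : Fin d → Matrix ι ι ℂ}

/-- `Z` is the matrix of the commutator with `Y` in the family `e` -/
def Br (e : Fin d → Matrix ι ι ℂ) (Y : Matrix ι ι ℂ) (Z : Matrix (Fin d) (Fin d) ℂ) : Prop :=
  ∀ b, Y * e b - e b * Y = ∑ a, Z a b • e a

theorem Br.unique (he : LinearIndependent ℂ e) {Y : Matrix ι ι ℂ}
    {Z Z' : Matrix (Fin d) (Fin d) ℂ} (h : Br e Y Z) (h' : Br e Y Z') : Z = Z' := by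
  ext a b
  have h1 : ∑ a, Z a b • e a = ∑ a, Z' a b • e a := by rw [← h b, ← h' b]
  exact congrFun (GtM.sum_ext he h1) a

theorem Br.zero : Br e (0 : Matrix ι ι ℂ) 0 := by
  intro b
  simp only [Matrix.zero_mul, Matrix.mul_zero, sub_self, Matrix.zero_apply, zero_smul,
    Finset.sum_const_zero]

theorem Br.add_smul {Y Y' : Matrix ι ι ℂ} {Z Z' : Matrix (Fin d) (Fin d) ℂ} (h : Br e Y Z)
    (h' : Br e Y' Z') (t : ℂ) : Br e (Y + t • Y') (Z + t • Z') := by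
  intro b
  have e1 : (Y + t • Y') * e b - e b * (Y + t • Y') =
      (Y * e b - e b * Y) + t • (Y' * e b - e b * Y') := by
    rw [Matrix.add_mul, Matrix.mul_add, Matrix.smul_mul, Matrix.mul_smul, smul_sub]
    abel
  rw [e1, h b, h' b, Finset.smul_sum, ← Finset.sum_add_distrib]
  refine Finset.sum_congr rfl fun a _ => ?_
  rw [Matrix.add_apply, Matrix.smul_apply, smul_eq_mul, _root_.add_smul, mul_smul]

/-- conjugation -/
theorem Br.conj {x : GL ι ℂ} {r : GL (Fin d) ℂ} (hr : Rho e x r.1) {Y : Matrix ι ι ℂ}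
    {Z : Matrix (Fin d) (Fin d) ℂ} (h : Br e Y Z) :
    Br e (x.1 * Y * x⁻¹.1) (r.1 * Z * r⁻¹.1) := by
  intro b
  have h1 := GtM.rho_inv hr b
  rw [inv_inv] at h1
  have e1 : (x.1 * Y * x⁻¹.1) * e b - e b * (x.1 * Y * x⁻¹.1) =
      x.1 * (Y * (x⁻¹.1 * e b * x.1) - (x⁻¹.1 * e b * x.1) * Y) * x⁻¹.1 := by
    symm
    calc x.1 * (Y * (x⁻¹.1 * e b * x.1) - (x⁻¹.1 * e b * x.1) * Y) * x⁻¹.1
        = x.1 * Y * x⁻¹.1 * e b * (x.1 * x⁻¹.1) - (x.1 * x⁻¹.1) * e b * (x.1 * Y * x⁻¹.1) := by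
          noncomm_ring
      _ = _ := by rw [glinv, Matrix.mul_one, Matrix.one_mul]
  have e2 : Y * (∑ a, r⁻¹.1 a b • e a) - (∑ a, r⁻¹.1 a b • e a) * Y =
      ∑ c, (Z * r⁻¹.1) c b • e c := by
    have e3 : Y * (∑ a, r⁻¹.1 a b • e a) - (∑ a, r⁻¹.1 a b • e a) * Y =
        ∑ a, r⁻¹.1 a b • (Y * e a - e a * Y) := by
      rw [Finset.mul_sum, Finset.sum_mul, ← Finset.sum_sub_distrib]
      refine Finset.sum_congr rfl fun a _ => ?_
      rw [Matrix.mul_smul, Matrix.smul_mul, smul_sub]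
    rw [e3]
    simp only [h _, Finset.smul_sum, smul_smul]
    rw [Finset.sum_comm]
    refine Finset.sum_congr rfl fun c _ => ?_
    rw [← Finset.sum_smul, Matrix.mul_apply]
    congr 1
    exact Finset.sum_congr rfl fun a _ => mul_comm _ _
  rw [e1, h1, e2, GtM.conj_sum, GtM.sum_rho hr, Matrix.mul_assoc]
  rfl

/-- automorphisms of `ℂ` -/
theorem map_sum_e (τ : ℂ ≃+* ℂ) (heτ : ∀ a, (e a).map τ = e a) (u : Fin d → ℂ) :
    (∑ a, u a • e a).map τ = ∑ a, τ (u a) • e a := by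
  ext i j
  rw [Matrix.map_apply, Matrix.sum_apply, Matrix.sum_apply, map_sum]
  refine Finset.sum_congr rfl fun a _ => ?_
  rw [Matrix.smul_apply, Matrix.smul_apply, smul_eq_mul, smul_eq_mul, map_mul]
  congr 1
  exact congrFun (congrFun (heτ a) i) j

theorem map_sub' (τ : ℂ ≃+* ℂ) (X Y : Matrix ι ι ℂ) : (X - Y).map τ = X.map τ - Y.map τ := by
  ext i j
  simp only [Matrix.map_apply, Matrix.sub_apply, map_sub]

theorem Br.tw {τ : ℂ ≃+* ℂ} (heτ : ∀ a, (e a).map τ = e a) {Y : Matrix ι ι ℂ}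
    {Z : Matrix (Fin d) (Fin d) ℂ} (h : Br e Y Z) : Br e (Y.map τ) (Z.map τ) := by
  intro b
  have h1 := congrArg (fun X : Matrix ι ι ℂ => X.map τ) (h b)
  simp only [map_sub', GtM.map_mul_ring, map_sum_e τ heτ, heτ] at h1
  exact h1

theorem rho_tw {τ : ℂ ≃+* ℂ} (heτ : ∀ a, (e a).map τ = e a) {x : GL ι ℂ}
    {r : Matrix (Fin d) (Fin d) ℂ} (h : Rho e x r) : Rho e (Tors.tw τ x) (r.map τ) := by
  intro b
  have h1 := congrArg (fun X : Matrix ι ι ℂ => X.map τ) (h b)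
  simp only [GtM.map_mul_ring, map_sum_e τ heτ, heτ] at h1
  have e1 : (Tors.tw τ x).1 = x.1.map τ := rfl
  have e2 : (Tors.tw τ x)⁻¹.1 = x⁻¹.1.map τ := by
    rw [← map_inv]
    rfl
  rw [e1, e2]
  exact h1

theorem ta_tw (τ : ℂ ≃+* ℂ) (r : Matrix (Fin d) (Fin d) ℂ) (w : (Fin m → Fin d) → ℂ)
    (J : Fin m → Fin d) : ta (r.map τ) (fun J => τ (w J)) J = τ (ta r w J) := by
  change ∑ J', (∏ k, τ (r (J k) (J' k))) * τ (w J') = τ (∑ J', (∏ k, r (J k) (J' k)) * w J')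
  rw [map_sum]
  refine Finset.sum_congr rfl fun J' _ => ?_
  rw [map_mul, map_prod]

theorem dt_tw (τ : ℂ ≃+* ℂ) (Z : Matrix (Fin d) (Fin d) ℂ) (w : (Fin m → Fin d) → ℂ)
    (J : Fin m → Fin d) : dt (Z.map τ) (fun J => τ (w J)) J = τ (dt Z w J) := by
  change ∑ k, ∑ i, τ (Z (J k) i) * τ (w (Function.update J k i)) =
    τ (∑ k, ∑ i, Z (J k) i * w (Function.update J k i))
  rw [map_sum]
  refine Finset.sum_congr rfl fun k _ => ?_
  rw [map_sum]
  exact Finset.sum_congr rfl fun i _ => (map_mul τ _ _).symm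

/-- the tensors which are invariant under `H` -/
def inv (e : Fin d → Matrix ι ι ℂ) (m : ℕ) (H : Subgroup (GL ι ℂ)) :
    Submodule ℂ ((Fin m → Fin d) → ℂ) where
  carrier := {w | ∀ x ∈ H, ∀ r, Rho e x r → ta r w = w}
  add_mem' := by
    intro u v hu hv x hx r hr
    rw [map_add, hu x hx r hr, hv x hx r hr]
  zero_mem' := fun x _ r _ => map_zero _
  smul_mem' := by
    intro t u hu x hx r hr
    rw [map_smul, hu x hx r hr]

/-- the elements of the span of `e` which annihilate `U` -/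
def ann (hdt : SpecDt) (e : Fin d → Matrix ι ι ℂ) (U : Submodule ℂ ((Fin m → Fin d) → ℂ)) :
    Submodule ℂ (Matrix ι ι ℂ) where
  carrier := {Y | Y ∈ Submodule.span ℂ (Set.range e) ∧ ∃ Z, Br e Y Z ∧ ∀ w ∈ U, dt Z w = 0}
  add_mem' := by
    rintro a b ⟨ha, Z, hZ, hZ'⟩ ⟨hb, Z₁, hZ₁, hZ₁'⟩
    refine ⟨Submodule.add_mem _ ha hb, Z + (1 : ℂ) • Z₁, ?_, fun w hw => ?_⟩
    · have := hZ.add_smul hZ₁ 1
      rwa [one_smul] at this
    · rw [(hdt (Fin d) (Fin m)).1, hZ' w hw, hZ₁' w hw, smul_zero, add_zero]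
  zero_mem' := by
    refine ⟨Submodule.zero_mem _, 0, Br.zero, fun w _ => ?_⟩
    funext J
    change ∑ k, ∑ i, (0 : Matrix (Fin d) (Fin d) ℂ) (J k) i * w (Function.update J k i) = 0
    simp only [Matrix.zero_apply, zero_mul, Finset.sum_const_zero]
  smul_mem' := by
    rintro t a ⟨ha, Z, hZ, hZ'⟩
    refine ⟨Submodule.smul_mem _ _ ha, t • Z, ?_, fun w hw => ?_⟩
    · have := (Br.zero (e := e)).add_smul hZ t
      rwa [zero_add, zero_add] at this
    · have h1 := (hdt (Fin d) (Fin m)).1 0 Z t w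
      have h2 := (hdt (Fin d) (Fin m)).1 0 0 0 w
      have h0 : dt (0 : Matrix (Fin d) (Fin d) ℂ) w = 0 := by
        funext J
        change ∑ k, ∑ i, (0 : Matrix (Fin d) (Fin d) ℂ) (J k) i * w (Function.update J k i) = 0
        simp only [Matrix.zero_apply, zero_mul, Finset.sum_const_zero]
      rw [zero_add, h0, hZ' w hw, smul_zero, add_zero] at h1
      exact h1

end InvM

open InvM in
theorem specInv (hdt : SpecDt) (hkil : SpecKil) (hadj : SpecAdj) (hten : SpecTen)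
    (hbas : SpecBas) : SpecInv := by
  intro ι _ _ ψ K G H S m d e he heK hle hAG hAH hst2 hst w hw Y hY s r hr
  have hgG : Geo (G : Set (GL ι ℂ)) := GtM.geo_of bot_le S.ss.closed
  have hGG : Adst G (lie (G : Set (GL ι ℂ))) := GtM.adst_lie hgG
  have hHG : Adst H (lie (G : Set (GL ι ℂ))) :=
    fun x hx X hX => GtM.norm_lie hgG (S.norm x hx) hX
  have hτG : ∀ τ : ℂ ≃+* ℂ, FixesField K τ → ∀ X ∈ lie (G : Set (GL ι ℂ)),
      X.map τ ∈ lie (G : Set (GL ι ℂ)) :=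
    (hbas ι K).2 _ fun τ _ f hf => S.ss.closed.tw_mem (fixesField_bot τ) hf
  have heτ : ∀ τ : ℂ ≃+* ℂ, FixesField K τ → ∀ a, (e a).map τ = e a :=
    fun τ hτ a => Matrix.ext fun i j => hτ _ (heK a i j)
  have hrhoH : ∀ x ∈ H, ∃ r : GL (Fin d) ℂ, Rho e x r.1 := fun x hx => GtM.exists_rho_gl he hAH hx
  have hrhoG : ∀ x ∈ G, ∃ r : GL (Fin d) ℂ, Rho e x r.1 := fun x hx => GtM.exists_rho_gl he hAG hx
  have hone : ∀ Y ∈ Submodule.span ℂ (Set.range e), ∃ (t : ℂ → GL (Fin d) ℂ)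
      (Z : Matrix (Fin d) (Fin d) ℂ), One t Z ∧ (∀ s, Rho e (gl Y s) (t s).1) ∧ Br e Y Z :=
    fun Y hY => GtM.exists_one he hAG (fun s => GtM.gl_mem hgG (hle hY) s)
  obtain ⟨hd1, hd2, hd3⟩ := hdt (Fin d) (Fin m)
  -- the invariant tensors
  set U : Submodule ℂ ((Fin m → Fin d) → ℂ) := InvM.inv e m H with hU
  have hUτ : ∀ τ : ℂ ≃+* ℂ, FixesField K τ → ∀ w ∈ U, (fun J => τ (w J)) ∈ U := by
    intro τ hτ w hw x hx r hr
    have h1 : Tors.tw τ.symm x ∈ H := S.closed.tw_mem hτ.symm hx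
    have h2 := hw _ h1 _ (rho_tw (heτ _ hτ.symm) hr)
    funext J
    have h3 := congrArg τ (congrFun h2 J)
    rw [← ta_tw, GtM.map_map_symm] at h3
    exact h3
  have hUG : ∀ g ∈ G, ∀ r, Rho e g r → ∀ w ∈ U, ta r w ∈ U := by
    refine hten ι ψ K G H S m d e he heK (fun x hx => ?_) hst U ?_ hUτ
    · obtain ⟨r, hr⟩ := hrhoH x hx
      exact ⟨r.1, hr⟩
    · intro x hx r hr w hw
      rw [hw x hx r hr]
      exact hw
  -- the annihilator
  set n : Submodule ℂ (Matrix ι ι ℂ) := ann hdt e U with hn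
  have hnW : n ≤ Submodule.span ℂ (Set.range e) := fun Y hY => hY.1
  have hnle : n ≤ lie (G : Set (GL ι ℂ)) := hnW.trans hle
  have hnst : ∀ (L : Subgroup (GL ι ℂ)), Adst L (Submodule.span ℂ (Set.range e)) →
      (∀ g ∈ L, ∀ r, Rho e g r → ∀ w ∈ U, ta r w ∈ U) → Adst L n := by
    rintro L hL hLU x hx Y ⟨hY, Z, hZ, hZ'⟩
    obtain ⟨r, hr⟩ := GtM.exists_rho_gl he hL hx
    refine ⟨hL x hx Y hY, r.1 * Z * r⁻¹.1, hZ.conj hr, fun w hw => ?_⟩
    rw [hd2, hZ' _ (hLU x⁻¹ (L.inv_mem hx) _ (GtM.rho_inv hr) w hw), map_zero]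
  have hnG : Adst G n := hnst G hAG hUG
  have hnH : Adst H n := hnst H hAH fun x hx r hr w hw => by
    rw [hw x hx r hr]
    exact hw
  have hdiff : ∀ x ∈ H, ∀ Y ∈ Submodule.span ℂ (Set.range e), x.1 * Y * x⁻¹.1 - Y ∈ n := by
    intro x hx Y hY
    obtain ⟨t, Z, ht, htr, hZ⟩ := hone Y hY
    obtain ⟨r, hr⟩ := hrhoH x hx
    refine ⟨Submodule.sub_mem _ (hAH x hx Y hY) hY, r.1 * Z * r⁻¹.1 + (-1 : ℂ) • Z, ?_,
      fun w hw => ?_⟩
    · have h1 := (hZ.conj hr).add_smul hZ (-1)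
      rwa [neg_one_smul, ← sub_eq_add_neg] at h1
    · have h1 : dt Z w ∈ U := (hd3 t Z ht).2.2 U (fun s v hv =>
        hUG _ (GtM.gl_mem hgG (hle hY) s) _ (htr s) v hv) w hw
      have h2 : ta r⁻¹.1 w = w := hw x⁻¹ (H.inv_mem hx) _ (GtM.rho_inv hr)
      have h3 : ta r.1 (dt Z w) = dt Z w := h1 x hx _ hr
      rw [hd1, hd2, h2, h3, neg_one_smul, add_neg_cancel]
  have hnτ : ∀ τ : ℂ ≃+* ℂ, FixesField K τ → ∀ Y ∈ n, Y.map τ ∈ n := by
    rintro τ hτ Y ⟨hY, Z, hZ, hZ'⟩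
    refine ⟨?_, Z.map τ, hZ.tw (heτ τ hτ), fun w hw => ?_⟩
    · obtain ⟨u, rfl⟩ := (Submodule.mem_span_range_iff_exists_fun ℂ).1 hY
      rw [map_sum_e τ (heτ τ hτ)]
      exact Submodule.sum_mem _ fun a _ => Submodule.smul_mem _ _ (Submodule.subset_span ⟨a, rfl⟩)
    · have h1 := hZ' _ (hUτ τ.symm hτ.symm w hw)
      have h2 : w = fun J => τ (τ.symm (w J)) := funext fun J => (τ.apply_symm_apply _).symm
      funext J
      conv_lhs => rw [h2]
      rw [dt_tw τ Z (fun J => τ.symm (w J)), h1]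
      exact map_zero τ
  -- the complement
  obtain ⟨hk1, hk2⟩ := (hkil ι G S.ss).1 n hnle hnG
  set N : Submodule ℂ (Matrix ι ι ℂ) := Submodule.span ℂ (Set.range e) ⊓ cen G n with hN
  have hfix : ∀ x ∈ H, ∀ Y ∈ N, x.1 * Y * x⁻¹.1 = Y := by
    intro x hx Y hY
    have h1 : x.1 * Y * x⁻¹.1 - Y ∈ n ⊓ cen G n :=
      ⟨hdiff x hx Y hY.1, Submodule.sub_mem _ (GtM.adst_cen hHG hnH x hx Y hY.2) hY.2⟩
    rw [hk1, Submodule.mem_bot] at h1
    exact sub_eq_zero.1 h1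
  have hNτ : ∀ τ : ℂ ≃+* ℂ, FixesField K τ → ∀ Y ∈ N, Y.map τ ∈ N := by
    intro τ hτ Y hY
    refine ⟨?_, hτG τ hτ Y hY.2.1, fun X hX => ?_⟩
    · obtain ⟨u, hu⟩ := (Submodule.mem_span_range_iff_exists_fun ℂ).1 hY.1
      rw [← hu, map_sum_e τ (heτ τ hτ)]
      exact Submodule.sum_mem _ fun a _ => Submodule.smul_mem _ _ (Submodule.subset_span ⟨a, rfl⟩)
    · have h1 := hY.2.2 _ (hnτ _ hτ.symm X hX)
      have h2 := congrArg (fun A : Matrix ι ι ℂ => A.map τ) h1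
      simp only [GtM.map_mul_ring, GtM.map_map_symm] at h2
      exact h2
  have hN0 : N = ⊥ := by
    obtain ⟨d', e', -, -, heK', hspan⟩ := (hbas ι K).1 N hNτ
    have hem : ∀ a, e' a ∈ N := fun a => hspan ▸ Submodule.subset_span ⟨a, rfl⟩
    have hzero : ∀ a, e' a = 0 := by
      intro a
      have hA : Adst G (Submodule.span ℂ {e' a}) := by
        refine hadj ι ψ K G H S hst2 _ ?_ ?_
        · intro x hx X hX
          obtain ⟨c, rfl⟩ := Submodule.mem_span_singleton.1 hX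
          rw [Matrix.mul_smul, Matrix.smul_mul, hfix x hx _ (hem a)]
          exact hX
        · intro τ hτ X hX
          obtain ⟨c, rfl⟩ := Submodule.mem_span_singleton.1 hX
          refine Submodule.mem_span_singleton.2 ⟨τ c, ?_⟩
          refine Matrix.ext fun i j => ?_
          rw [Matrix.map_apply, Matrix.smul_apply, Matrix.smul_apply, smul_eq_mul, smul_eq_mul,
            map_mul, hτ _ (heK' a i j)]
      have h1 := S.ss.ss _ ((Submodule.span_singleton_le_iff_mem _ _).2 (hle (hem a).1)) hA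
        fun X hX X' hX' => by
          obtain ⟨c, rfl⟩ := Submodule.mem_span_singleton.1 hX
          obtain ⟨c', rfl⟩ := Submodule.mem_span_singleton.1 hX'
          rw [Matrix.smul_mul, Matrix.mul_smul, Matrix.smul_mul, Matrix.mul_smul, smul_comm]
      exact Submodule.span_singleton_eq_bot.1 h1
    rw [← hspan, Submodule.span_eq_bot]
    rintro _ ⟨a, rfl⟩
    exact hzero a
  have hYn : Y ∈ n := by
    have h1 : Y ∈ n ⊔ cen G n := by
      rw [hk2]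
      exact hle hY
    obtain ⟨Y₁, hY₁, Y₂, hY₂, h2⟩ := Submodule.mem_sup.1 h1
    have h3 : Y₂ ∈ N := by
      refine ⟨?_, hY₂⟩
      have : Y₂ = Y - Y₁ := by rw [← h2, add_sub_cancel_left]
      rw [this]
      exact Submodule.sub_mem _ hY (hnW hY₁)
    rw [hN0, Submodule.mem_bot] at h3
    rw [h3, add_zero] at h2
    exact h2 ▸ hY₁
  obtain ⟨-, Z, hZ, hZ'⟩ := hYn
  obtain ⟨t, Z₁, ht, htr, hZ₁⟩ := hone Y hY
  have h1 : Z = Z₁ := hZ.unique he hZ₁
  have h2 : dt Z₁ w = 0 := h1 ▸ hZ' w hw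
  have h3 : r = (t s).1 := GtM.rho_unique he hr (htr s)
  rw [h3]
  exact (hd3 t Z₁ ht).2.1 w h2 s

end Pool.Agent.Lib.MPf11a48.CG
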