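import Pool.Agent.Lib.MP_f11a48_ag.CG.Kil
import Pool.Agent.Lib.MP_f11a48_ag.CF.Core

/-!
# KER: an element which acts trivially on a stable subspace of a tensor space
-/

set_option autoImplicit false

namespace Pool.Agent.Lib.MPf11a48.CG

open Matrix MvPolynomial
open Pool.Agent.Lib.MPf11a48.Tors
open Pool.Agent.Lib.MPf11a48.CM hiding OmegaM
open Pool.Agent.Lib.MPf11a48.CF (ta)
open Pool.Agent.Lib.MPf11a48.CF.CorM (ta_apply ta_mul ta_one)
open Pool.Agent.Lib.MPf11a48.GL2 (lie van en Geo lr eval_lr glmul glinv glinv' lie_br)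
open Pool.Agent.Lib.MPf11a48.K3.KCurM (gl gl_zero dv_gl dv_gl_inv Dv exp_comm)

namespace KerM

variable {ι κ : Type} [Fintype ι] [DecidableEq ι] [Fintype κ] [DecidableEq κ]

theorem gl_add (X : Matrix ι ι ℂ) (s s' : ℂ) : gl X (s + s') = gl X s * gl X s' := by
  refine Units.ext ?_
  change NormedSpace.exp ((s + s') • X) = NormedSpace.exp (s • X) * NormedSpace.exp (s' • X)
  rw [add_smul]
  exact Matrix.exp_add_of_commute _ _ (((Commute.refl X).smul_right s').smul_left s)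

theorem one_gl (X : Matrix ι ι ℂ) : One (gl X) X where
  add := gl_add X
  der := fun i j => by
    have := dv_gl X 0 i j
    have h2 : X * (gl X 0).1 = X := by rw [gl_zero, Units.val_one, Matrix.mul_one]
    change HasDerivAt (fun s => (gl X s).1 i j) ((X * (gl X 0).1) i j) 0 at this
    rwa [h2] at this

theorem ad_lie {G : Subgroup (GL ι ℂ)} (hG : IsSS G) : Adst G (lie (G : Set (GL ι ℂ))) := by
  intro g hg X hX
  have h := ConnM.geo hG
  have h1 : (1 : GL ι ℂ) ∈ (G : Set (GL ι ℂ)) := G.one_mem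
  rw [h.conj_mem_iff (f₀ := 1) hg h1]
  intro p hp
  rw [Units.val_one, Matrix.one_mul]
  have := hX 1 G.one_mem p hp
  rwa [Units.val_one, Matrix.mul_one] at this

theorem ad_cen {G : Subgroup (GL ι ℂ)} (hG : IsSS G) {h : Submodule ℂ (Matrix ι ι ℂ)}
    (hA : Adst G h) : Adst G (cen G h) := by
  rintro g hg X ⟨hX, hX'⟩
  refine ⟨ad_lie hG g hg X hX, fun Y hY => ?_⟩
  have h1 := hX' _ (hA _ (G.inv_mem hg) Y hY)
  rw [inv_inv] at h1
  have h2 : ∀ A : Matrix ι ι ℂ, g.1 * (g⁻¹.1 * A) = A := by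
    intro A
    rw [← Matrix.mul_assoc, glinv, Matrix.one_mul]
  have h3 : ∀ A : Matrix ι ι ℂ, A * g.1 * g⁻¹.1 = A := by
    intro A
    rw [Matrix.mul_assoc, glinv, Matrix.mul_one]
  calc g.1 * X * g⁻¹.1 * Y = g.1 * (X * (g⁻¹.1 * Y * g.1)) * g⁻¹.1 := by
        simp only [← Matrix.mul_assoc]
        rw [h3]
    _ = g.1 * (g⁻¹.1 * Y * g.1 * X) * g⁻¹.1 := by rw [h1]
    _ = Y * (g.1 * X * g⁻¹.1) := by
        simp only [Matrix.mul_assoc]
        rw [h2]

/-- the elements which act trivially on `U` -/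
noncomputable def fixS (U : Submodule ℂ ((κ → ι) → ℂ)) : Subgroup (GL ι ℂ) where
  carrier := {x | ∀ w ∈ U, ta x.1 w = w}
  mul_mem' := by
    intro x y hx hy w hw
    rw [glmul, ta_mul, hy w hw, hx w hw]
  one_mem' := fun w _ => ta_one w
  inv_mem' := by
    intro x hx w hw
    have h1 := congrArg (ta x⁻¹.1) (hx w hw)
    rw [← ta_mul, glinv', ta_one] at h1
    exact h1.symm

theorem closedC_fixS (U : Submodule ℂ ((κ → ι) → ℂ)) :
    ClosedC ((fixS U : Subgroup (GL ι ℂ)) : Set (GL ι ℂ)) := by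
  refine ⟨{p | ∃ w ∈ U, ∃ J : κ → ι,
    p = (∑ J' : κ → ι, (∏ k, X (J k, J' k)) * C (w J')) - C (w J)}, ?_⟩
  ext f
  have key : ∀ (w : (κ → ι) → ℂ) (J : κ → ι), aeval (ent f)
      ((∑ J' : κ → ι, (∏ k, X (J k, J' k)) * C (w J')) - C (w J) : MvPolynomial (ι × ι) ℂ) =
      ta f.1 w J - w J := by
    intro w J
    rw [ta_apply]
    simp only [map_sub, map_sum, map_mul, map_prod, aeval_X, algHom_C]
    rfl
  constructor
  · rintro hf _ ⟨w, hw, J, rfl⟩
    rw [key, hf w hw, sub_self]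
  · intro hf w hw
    funext J
    have := hf _ ⟨w, hw, J, rfl⟩
    rw [key] at this
    exact sub_eq_zero.1 this

end KerM

open KerM KilM in
theorem specKer (hDt : SpecDt) (hKil : SpecKil) (hConn : SpecConn) : SpecKer := by
  intro ι κ _ _ _ _ G hG U hU l hl hncl hltriv
  obtain ⟨dt_add, dt_conj, dt_one⟩ := hDt ι κ
  have dt_sub : ∀ (X Y : Matrix ι ι ℂ) (w : (κ → ι) → ℂ), dt (X - Y) w = dt X w - dt Y w := by
    intro X Y w
    have := dt_add X Y (-1) w
    rw [neg_smul, one_smul, neg_smul, one_smul, ← sub_eq_add_neg, ← sub_eq_add_neg] at this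
    exact this
  have dt_zero : ∀ w : (κ → ι) → ℂ, dt (0 : Matrix ι ι ℂ) w = 0 := by
    intro w
    have := dt_sub 0 0 w
    rwa [sub_self, sub_self] at this
  set n : Submodule ℂ (Matrix ι ι ℂ) :=
    { carrier := {X | X ∈ lie (G : Set (GL ι ℂ)) ∧ ∀ w ∈ U, dt X w = 0}
      add_mem' := by
        rintro X Y ⟨hX, hX'⟩ ⟨hY, hY'⟩
        refine ⟨Submodule.add_mem _ hX hY, fun w hw => ?_⟩
        have := dt_add X Y 1 w
        rw [one_smul, one_smul, hX' w hw, hY' w hw, add_zero] at this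
        exact this
      zero_mem' := ⟨Submodule.zero_mem _, fun w _ => dt_zero w⟩
      smul_mem' := by
        rintro t X ⟨hX, hX'⟩
        refine ⟨Submodule.smul_mem _ _ hX, fun w hw => ?_⟩
        have := dt_add 0 X t w
        rw [zero_add, hX' w hw, smul_zero, add_zero, dt_zero] at this
        exact this } with hn
  have hnle : n ≤ lie (G : Set (GL ι ℂ)) := fun X hX => hX.1
  have hnA : Adst G n := by
    rintro g hg X ⟨hX, hX'⟩
    refine ⟨ad_lie hG g hg X hX, fun w hw => ?_⟩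
    have h1 : ta g⁻¹.1 w ∈ U := hU _ (G.inv_mem hg) w hw
    rw [dt_conj, hX' _ h1, ← sub_self w]
    have h2 : ta g.1 (w - w) = 0 := by
      funext J
      rw [ta_apply]
      simp
    rw [h2, sub_self]
  obtain ⟨h1, h2⟩ := (hKil ι G hG).1 n hnle hnA
  have hW : cen G n = ⊥ := by
    by_contra hne
    obtain ⟨X, hX, hXl⟩ := hncl (cen G n) (fun X hX => hX.1) hne (ad_cen hG hnA)
    have hX1 : l.1 * X * l⁻¹.1 ∈ cen G n := ad_cen hG hnA l hl X hX
    have hX2 : X - l.1 * X * l⁻¹.1 ∈ cen G n := Submodule.sub_mem _ hX hX1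
    have hlt : ∀ w ∈ U, ta l⁻¹.1 w = w := fun w hw => (fixS U).inv_mem (x := l) hltriv w hw
    have hX3 : X - l.1 * X * l⁻¹.1 ∈ n := by
      refine ⟨hX2.1, fun w hw => ?_⟩
      have h3 : dt X w ∈ U := (dt_one (gl X) X (one_gl X)).2.2 U
        (fun s w hw => hU _ (gl_mem hG hX.1 s) w hw) w hw
      rw [dt_sub, dt_conj, hlt w hw, hltriv _ h3, sub_self]
    have h3 : X - l.1 * X * l⁻¹.1 ∈ n ⊓ cen G n := ⟨hX3, hX2⟩
    rw [h1, Submodule.mem_bot, sub_eq_zero] at h3
    apply hXl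
    conv_rhs => rw [h3]
    rw [Matrix.mul_assoc, glinv', Matrix.mul_one]
  rw [hW, sup_bot_eq] at h2
  have h3 : G ≤ fixS U := by
    refine hConn ι G (fixS U) hG (closedC_fixS U) fun X hX s w hw => ?_
    rw [← h2] at hX
    exact (dt_one (gl X) X (one_gl X)).2.1 w (hX.2 w hw) s
  exact fun g hg w hw => h3 hg w hw

end Pool.Agent.Lib.MPf11a48.CG
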