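import Pool.Agent.Lib.MP_f11a48_ag.CG.Conn
import Mathlib.Algebra.Lie.CartanCriterion

/-!
# KIL: complements of ideals, and the Killing form
-/

set_option autoImplicit false

namespace Pool.Agent.Lib.MPf11a48.CG

open Matrix MvPolynomial
open Pool.Agent.Lib.MPf11a48.Tors
open Pool.Agent.Lib.MPf11a48.CM hiding OmegaM
open Pool.Agent.Lib.MPf11a48.GL2 (lie van en Geo lr eval_lr geo_of_torsor closedOver_mono glmul
  glinv glinv' lie_br)
open Pool.Agent.Lib.MPf11a48.K3.KCurM (gl gl_zero dv_gl dv_gl_inv Dv exp_comm)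

namespace KilM

variable {ι : Type} [Fintype ι] [DecidableEq ι]

/-- a functional on matrices in coordinates -/
theorem dual_apply (φ : Module.Dual ℂ (Matrix ι ι ℂ)) (M : Matrix ι ι ℂ) :
    φ M = ∑ i, ∑ j, φ (Matrix.single i j 1) * M i j := by
  conv_lhs => rw [Matrix.matrix_eq_sum_single M]
  rw [map_sum]
  refine Finset.sum_congr rfl fun i _ => ?_
  rw [map_sum]
  refine Finset.sum_congr rfl fun j _ => ?_
  have h1 : Matrix.single i j (M i j) = M i j • Matrix.single i j (1 : ℂ) := by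
    rw [Matrix.smul_single, smul_eq_mul, mul_one]
  rw [h1, map_smul, smul_eq_mul, mul_comm]

theorem dual_deriv {F : ℂ → Matrix ι ι ℂ} {F' : Matrix ι ι ℂ} {s : ℂ}
    (h : ∀ i j, HasDerivAt (fun s => F s i j) (F' i j) s) (φ : Module.Dual ℂ (Matrix ι ι ℂ)) :
    HasDerivAt (fun s => φ (F s)) (φ F') s := by
  have h1 : (fun s => φ (F s)) = fun s => ∑ i, ∑ j, φ (Matrix.single i j 1) * F s i j :=
    funext fun s => dual_apply φ _
  rw [h1, dual_apply φ F']
  exact HasDerivAt.fun_sum fun i _ => HasDerivAt.fun_sum fun j _ => (h i j).const_mul _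

/-- derivative of the conjugation by `exp(sX)` -/
theorem dv_conj (X Y : Matrix ι ι ℂ) :
    Dv (fun s => (gl X s).1 * Y * (gl X s)⁻¹.1)
      (fun s => (gl X s).1 * (X * Y - Y * X) * (gl X s)⁻¹.1) := by
  have h1 := ((dv_gl X).mul (Dv.const Y)).mul (dv_gl_inv X)
  refine h1.congr fun s => ?_
  have h2 : X * (gl X s).1 = (gl X s).1 * X := exp_comm X s
  have h3 : (gl X s)⁻¹.1 * X = X * (gl X s)⁻¹.1 := by
    have := (exp_comm (-X) s).eq
    rw [Matrix.neg_mul, Matrix.mul_neg, neg_inj] at this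
    exact this.symm
  change (X * (gl X s).1 * Y + (gl X s).1 * 0) * (gl X s)⁻¹.1 +
    (gl X s).1 * Y * -((gl X s)⁻¹.1 * X) = _
  rw [h3, h2]
  noncomm_ring

theorem gl_mem {G : Subgroup (GL ι ℂ)} (hG : IsSS G) {X : Matrix ι ι ℂ}
    (hX : X ∈ lie (G : Set (GL ι ℂ))) (s : ℂ) : gl X s ∈ G := by
  have := K3.specCurve ι _ (ConnM.geo hG) X hX (gl X) (gl_zero X) (fun s i j => dv_gl X s i j) 1
    G.one_mem s
  rwa [mul_one] at this

/-- `Adst G h` implies `[lie G, h] ≤ h` -/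
theorem br_mem {G : Subgroup (GL ι ℂ)} (hG : IsSS G) {h : Submodule ℂ (Matrix ι ι ℂ)}
    (hA : Adst G h) {X Y : Matrix ι ι ℂ} (hX : X ∈ lie (G : Set (GL ι ℂ))) (hY : Y ∈ h) :
    X * Y - Y * X ∈ h := by
  rw [← Subspace.forall_mem_dualAnnihilator_apply_eq_zero_iff]
  intro φ hφ
  have h1 := dual_deriv (fun i j => dv_conj X Y 0 i j) φ
  have h2 : (fun s => φ ((gl X s).1 * Y * (gl X s)⁻¹.1)) = fun _ => 0 := by
    funext s
    exact (Submodule.mem_dualAnnihilator φ).1 hφ _ (hA _ (gl_mem hG hX s) Y hY)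
  rw [h2] at h1
  have h3 := h1.unique (hasDerivAt_const (0 : ℂ) (0 : ℂ))
  change φ ((gl X 0).1 * (X * Y - Y * X) * (gl X 0)⁻¹.1) = 0 at h3
  rw [gl_zero, inv_one, Units.val_one, Matrix.one_mul, Matrix.mul_one] at h3
  exact h3

/-- if `[X, h] ≤ h` then `exp(sX)` stabilises `h` -/
theorem gl_conj_mem {h : Submodule ℂ (Matrix ι ι ℂ)} {X : Matrix ι ι ℂ}
    (hb : ∀ Y ∈ h, X * Y - Y * X ∈ h) {Y : Matrix ι ι ℂ} (hY : Y ∈ h) (s : ℂ) :
    (gl X s).1 * Y * (gl X s)⁻¹.1 ∈ h := by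
  rw [← Subspace.forall_mem_dualAnnihilator_apply_eq_zero_iff]
  intro φ hφ
  set F : Matrix ι ι ℂ → ℂ → ℂ := fun Y s => φ ((gl X s).1 * Y * (gl X s)⁻¹.1) with hF
  have hd : ∀ (Y : Matrix ι ι ℂ) (s : ℂ), HasDerivAt (F Y) (F (X * Y - Y * X) s) s :=
    fun Y s => dual_deriv (fun i j => dv_conj X Y s i j) φ
  have hit : ∀ k : ℕ, iteratedDeriv k (F Y) = F ((fun Y => X * Y - Y * X)^[k] Y) := by
    intro k
    induction k with
    | zero => rw [iteratedDeriv_zero, Function.iterate_zero, id]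
    | succ k ih =>
      rw [iteratedDeriv_succ, ih, Function.iterate_succ_apply']
      funext s
      exact (hd _ s).deriv
  have hmem : ∀ k : ℕ, (fun Y => X * Y - Y * X)^[k] Y ∈ h := by
    intro k
    induction k with
    | zero => exact hY
    | succ k ih =>
      rw [Function.iterate_succ_apply']
      exact hb _ ih
  have h0 : ∀ k, iteratedDeriv k (F Y) 0 = 0 := by
    intro k
    rw [hit, hF]
    simp only [gl_zero, inv_one, Units.val_one, Matrix.one_mul, Matrix.mul_one]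
    exact (Submodule.mem_dualAnnihilator φ).1 hφ _ (hmem k)
  have ht := Complex.taylorSeries_eq_of_entire' 0 s
    (f := F Y) (fun x => (hd Y x).differentiableAt)
  simp only [h0, mul_zero, zero_mul, tsum_zero] at ht
  exact ht.symm

/-- conjugation -/
noncomputable def cj (x : GL ι ℂ) : Matrix ι ι ℂ →ₗ[ℂ] Matrix ι ι ℂ where
  toFun Y := x.1 * Y * x⁻¹.1
  map_add' A B := by rw [Matrix.mul_add, Matrix.add_mul]
  map_smul' t A := by rw [Matrix.mul_smul, Matrix.smul_mul]; rfl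

theorem cj_apply (x : GL ι ℂ) (Y : Matrix ι ι ℂ) : cj x Y = x.1 * Y * x⁻¹.1 := rfl

theorem cj_mul (x y : GL ι ℂ) (Y : Matrix ι ι ℂ) : cj (x * y) Y = cj x (cj y Y) := by
  rw [cj_apply, cj_apply, cj_apply, _root_.mul_inv_rev, glmul, glmul]
  simp only [Matrix.mul_assoc]

theorem cj_one (Y : Matrix ι ι ℂ) : cj (1 : GL ι ℂ) Y = Y := by
  rw [cj_apply, inv_one, Units.val_one, Matrix.one_mul, Matrix.mul_one]

theorem cj_inj (x : GL ι ℂ) : Function.Injective (cj x) := by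
  intro Y Y' h
  have := congrArg (cj x⁻¹) h
  rwa [← cj_mul, ← cj_mul, inv_mul_cancel, cj_one, cj_one] at this

/-- the stabiliser of `h` -/
noncomputable def stb (h : Submodule ℂ (Matrix ι ι ℂ)) : Subgroup (GL ι ℂ) where
  carrier := {x | ∀ Y ∈ h, x.1 * Y * x⁻¹.1 ∈ h}
  mul_mem' := by
    intro x y hx hy Y hY
    have := hx _ (hy Y hY)
    rwa [← cj_apply, ← cj_apply, ← cj_mul] at this
  one_mem' := by
    intro Y hY
    rwa [← cj_apply, cj_one]
  inv_mem' := by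
    intro x hx Y hY
    have h1 : h.map (cj x) = h := by
      refine Submodule.eq_of_le_of_finrank_eq ?_ ?_
      · rintro _ ⟨Z, hZ, rfl⟩
        exact hx Z hZ
      · exact LinearEquiv.finrank_eq (Submodule.equivMapOfInjective _ (cj_inj x) h).symm
    rw [← h1] at hY
    obtain ⟨Z, hZ, rfl⟩ := hY
    rw [← cj_apply, ← cj_mul, inv_mul_cancel, cj_one]
    exact hZ

theorem closedC_dual (φ : Module.Dual ℂ (Matrix ι ι ℂ)) (Y : Matrix ι ι ℂ) :
    ClosedC {f : GL ι ℂ | φ (f.1 * Y * f⁻¹.1) = 0} := by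
  let P : MvPolynomial ((ι × ι) ⊕ (ι × ι)) ℂ :=
    ∑ i, ∑ j, C (φ (Matrix.single i j 1)) * ∑ b, (∑ a, X (Sum.inl (i, a)) * C (Y a b)) *
      X (Sum.inr (b, j))
  have hP : ∀ f : GL ι ℂ, aeval (Sum.elim (ent f) (ent f⁻¹)) P = φ (f.1 * Y * f⁻¹.1) := by
    intro f
    rw [dual_apply]
    simp only [P, map_sum, map_mul, aeval_X, Sum.elim_inl, Sum.elim_inr, algHom_C,
      Matrix.mul_apply]
    rfl
  obtain ⟨M, q, hq⟩ := clear_inverse P
  refine ⟨{q}, ?_⟩
  ext f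
  simp only [Set.mem_ofPred_eq, Set.mem_singleton_iff, forall_eq]
  rw [hq, hP]
  have hu : f.1.det ≠ 0 := ((Matrix.isUnit_iff_isUnit_det _).1 f.isUnit).ne_zero
  simp [hu]

theorem closedC_stb (h : Submodule ℂ (Matrix ι ι ℂ)) : ClosedC ((stb h : Subgroup (GL ι ℂ)) :
    Set (GL ι ℂ)) := by
  have : ((stb h : Subgroup (GL ι ℂ)) : Set (GL ι ℂ)) =
      ⋂ x : h × h.dualAnnihilator, {f : GL ι ℂ | x.2.1 (f.1 * x.1.1 * f⁻¹.1) = 0} := by
    ext f
    rw [Set.mem_iInter]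
    constructor
    · intro hf x
      exact (Submodule.mem_dualAnnihilator x.2.1).1 x.2.2 _ (hf _ x.1.2)
    · intro hf Y hY
      rw [← Subspace.forall_mem_dualAnnihilator_apply_eq_zero_iff]
      exact fun φ hφ => hf (⟨Y, hY⟩, ⟨φ, hφ⟩)
  rw [this]
  exact closedC_iInter fun x => closedC_dual _ _

theorem adst_of_br (hConn : SpecConn) {G : Subgroup (GL ι ℂ)} (hG : IsSS G)
    {h : Submodule ℂ (Matrix ι ι ℂ)}
    (hb : ∀ X ∈ lie (G : Set (GL ι ℂ)), ∀ Y ∈ h, X * Y - Y * X ∈ h) : Adst G h := by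
  have h1 : G ≤ stb h := hConn ι G (stb h) hG (closedC_stb h) fun X hX s Y hY =>
    gl_conj_mem (hb X hX) hY s
  exact fun g hg Y hY => h1 hg Y hY

section LieAlg

attribute [local instance 100] LieRing.ofAssociativeRing

/-- the Lie algebra of `G` -/
noncomputable def LG (G : Subgroup (GL ι ℂ)) : LieSubalgebra ℂ (Matrix ι ι ℂ) :=
  { lie (G : Set (GL ι ℂ)) with
    lie_mem' := fun hx hy => lie_br hx hy }

theorem mem_LG {G : Subgroup (GL ι ℂ)} {X : Matrix ι ι ℂ} :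
    X ∈ LG G ↔ X ∈ lie (G : Set (GL ι ℂ)) := Iff.rfl

theorem br_val {G : Subgroup (GL ι ℂ)} (X Y : LG G) : (⁅X, Y⁆ : LG G).1 = X.1 * Y.1 - Y.1 * X.1 :=
  rfl

theorem htr (hConn : SpecConn) {G : Subgroup (GL ι ℂ)} (hG : IsSS G) :
    LieAlgebra.HasTrivialRadical ℂ (LG G) := by
  rw [LieAlgebra.hasTrivialRadical_iff_no_abelian_ideals]
  intro I hI
  have h1 : I.toSubmodule.map (LG G).toSubmodule.subtype = ⊥ := by
    refine hG.ss _ ?_ ?_ ?_
    · rintro _ ⟨X, -, rfl⟩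
      exact X.2
    · refine adst_of_br hConn hG ?_
      rintro X hX _ ⟨Y, hY, rfl⟩
      exact ⟨⁅(⟨X, hX⟩ : LG G), Y⁆, I.lie_mem hY, rfl⟩
    · rintro _ ⟨X, hX, rfl⟩ _ ⟨Y, hY, rfl⟩
      have h2 : (⁅(⟨X, hX⟩ : I), (⟨Y, hY⟩ : I)⁆ : I) = 0 := LieModule.IsTrivial.trivial _ _
      have h3 := congrArg (fun z : I => z.1.1) h2
      have h4 : X.1 * Y.1 - Y.1 * X.1 = 0 := h3
      exact sub_eq_zero.1 h4
  rw [eq_bot_iff]
  intro X hX
  have h2 : X.1 ∈ I.toSubmodule.map (LG G).toSubmodule.subtype := ⟨X, hX, rfl⟩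
  rw [h1, Submodule.mem_bot] at h2
  rw [LieSubmodule.mem_bot]
  exact Subtype.ext h2

/-- an ideal from a stable subspace -/
noncomputable def idl {G : Subgroup (GL ι ℂ)} (hG : IsSS G) (h : Submodule ℂ (Matrix ι ι ℂ))
    (hA : Adst G h) : LieIdeal ℂ (LG G) :=
  { h.comap (LG G).toSubmodule.subtype with
    lie_mem := fun {X Y} hY => br_mem hG hA X.2 hY }

theorem mem_idl {G : Subgroup (GL ι ℂ)} (hG : IsSS G) (h : Submodule ℂ (Matrix ι ι ℂ))
    (hA : Adst G h) (X : LG G) : X ∈ idl hG h hA ↔ X.1 ∈ h := Iff.rfl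

theorem part1 (hConn : SpecConn) {G : Subgroup (GL ι ℂ)} (hG : IsSS G)
    (h : Submodule ℂ (Matrix ι ι ℂ)) (hle : h ≤ lie (G : Set (GL ι ℂ))) (hA : Adst G h) :
    h ⊓ cen G h = ⊥ ∧ h ⊔ cen G h = lie (G : Set (GL ι ℂ)) := by
  have := htr hConn hG
  have hK : LieAlgebra.IsKilling ℂ (LG G) := inferInstance
  have hc := LieIdeal.isCompl_killingCompl (idl hG h hA)
  set I := idl hG h hA with hI
  -- the orthogonal complement commutes with `h`
  have hcomm : ∀ X ∈ I.killingCompl, ∀ Y ∈ I, X.1 * Y.1 = Y.1 * X.1 := by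
    intro X hX Y hY
    have h1 : ⁅X, Y⁆ ∈ I ⊓ I.killingCompl := by
      refine (LieSubmodule.mem_inf _ _ _).2 ⟨I.lie_mem hY, ?_⟩
      rw [← lie_skew]
      exact neg_mem (I.killingCompl.lie_mem hX)
    rw [hc.inf_eq_bot, LieSubmodule.mem_bot] at h1
    have h2 := congrArg (fun z : LG G => z.1) h1
    exact sub_eq_zero.1 h2
  have hdec : ∀ Z : LG G, ∃ X ∈ I, ∃ Y ∈ I.killingCompl, X + Y = Z := by
    intro Z
    have h1 : Z ∈ I ⊔ I.killingCompl := by
      rw [hc.sup_eq_top]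
      exact LieSubmodule.mem_top _
    rw [LieSubmodule.mem_sup] at h1
    exact h1
  constructor
  · rw [eq_bot_iff]
    rintro X ⟨hX, hX1, hX2⟩
    have h1 : (⟨X, hX1⟩ : LG G) ∈ LieAlgebra.center ℂ (LG G) := by
      rw [LieModule.mem_maxTrivSubmodule]
      intro Z
      obtain ⟨A, hA', B, hB, rfl⟩ := hdec Z
      have h2 : A.1 * X - X * A.1 = 0 := sub_eq_zero.2 (hX2 A.1 hA').symm
      have h3 : B.1 * X - X * B.1 = 0 := sub_eq_zero.2 (hcomm B hB ⟨X, hX1⟩ hX)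
      refine Subtype.ext ?_
      change (A.1 + B.1) * X - X * (A.1 + B.1) = 0
      rw [Matrix.add_mul, Matrix.mul_add, add_sub_add_comm, h2, h3, add_zero]
    rw [LieAlgebra.center_eq_bot, LieSubmodule.mem_bot] at h1
    exact congrArg (fun z : LG G => z.1) h1
  · refine le_antisymm (sup_le hle fun X hX => hX.1) ?_
    intro Z hZ
    obtain ⟨A, hA', B, hB, hAB⟩ := hdec ⟨Z, hZ⟩
    have h1 : A.1 + B.1 = Z := congrArg (fun z : LG G => z.1) hAB
    rw [← h1]
    refine Submodule.add_mem_sup hA' ⟨B.2, fun Y hY => ?_⟩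
    exact hcomm B hB ⟨Y, hle hY⟩ hY

/-- conjugation as an automorphism of the Lie algebra -/
noncomputable def adH {G : Subgroup (GL ι ℂ)} (x : GL ι ℂ)
    (hx : ∀ X ∈ lie (G : Set (GL ι ℂ)), x.1 * X * x⁻¹.1 ∈ lie (G : Set (GL ι ℂ))) :
    LG G →ₗ⁅ℂ⁆ LG G where
  toFun X := ⟨x.1 * X.1 * x⁻¹.1, hx X.1 X.2⟩
  map_add' X Y := Subtype.ext (by
    change x.1 * (X.1 + Y.1) * x⁻¹.1 = x.1 * X.1 * x⁻¹.1 + x.1 * Y.1 * x⁻¹.1
    rw [Matrix.mul_add, Matrix.add_mul])
  map_smul' t X := Subtype.ext (by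
    change x.1 * (t • X.1) * x⁻¹.1 = t • (x.1 * X.1 * x⁻¹.1)
    rw [Matrix.mul_smul, Matrix.smul_mul])
  map_lie' {X Y} := Subtype.ext (by
    change x.1 * (X.1 * Y.1 - Y.1 * X.1) * x⁻¹.1 = x.1 * X.1 * x⁻¹.1 * (x.1 * Y.1 * x⁻¹.1) -
      x.1 * Y.1 * x⁻¹.1 * (x.1 * X.1 * x⁻¹.1)
    have h1 : ∀ A B : Matrix ι ι ℂ, x.1 * A * x⁻¹.1 * (x.1 * B * x⁻¹.1) = x.1 * (A * B) * x⁻¹.1 := by
      intro A B
      calc x.1 * A * x⁻¹.1 * (x.1 * B * x⁻¹.1) = x.1 * A * (x⁻¹.1 * x.1) * B * x⁻¹.1 := by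
            simp only [Matrix.mul_assoc]
        _ = x.1 * (A * B) * x⁻¹.1 := by rw [glinv', Matrix.mul_one]; simp only [Matrix.mul_assoc]
    rw [h1, h1, Matrix.mul_sub, Matrix.sub_mul])

theorem adH_inj {G : Subgroup (GL ι ℂ)} (x : GL ι ℂ)
    (hx : ∀ X ∈ lie (G : Set (GL ι ℂ)), x.1 * X * x⁻¹.1 ∈ lie (G : Set (GL ι ℂ))) :
    Function.Injective (adH x hx) := by
  intro X Y h
  exact Subtype.ext (cj_inj x (congrArg (fun z : LG G => z.1) h))

theorem part2 (hConn : SpecConn) {G : Subgroup (GL ι ℂ)} (hG : IsSS G)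
    (d : ℕ) (e : Fin d → Matrix ι ι ℂ) (he : LinearIndependent ℂ e)
    (hle : Submodule.span ℂ (Set.range e) ≤ lie (G : Set (GL ι ℂ)))
    (hA : Adst G (Submodule.span ℂ (Set.range e))) :
    ∃ κ : Matrix (Fin d) (Fin d) ℂ, κ.det ≠ 0 ∧ ∀ (x : GL ι ℂ) (r : Matrix (Fin d) (Fin d) ℂ),
      (∀ X ∈ lie (G : Set (GL ι ℂ)), x.1 * X * x⁻¹.1 ∈ lie (G : Set (GL ι ℂ))) → Rho e x r →
      rᵀ * κ * r = κ := by
  have := htr hConn hG
  have hK : LieAlgebra.IsKilling ℂ (LG G) := inferInstance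
  have hc := LieIdeal.isCompl_killingCompl (idl hG _ hA)
  set I := idl hG _ hA with hI
  have hem : ∀ a, e a ∈ lie (G : Set (GL ι ℂ)) := fun a =>
    hle (Submodule.subset_span (Set.mem_range_self a))
  set E : Fin d → LG G := fun a => ⟨e a, hem a⟩ with hE
  have hEI : ∀ a, E a ∈ I := fun a => Submodule.subset_span (Set.mem_range_self a)
  set B := killingForm ℂ (LG G) with hB
  refine ⟨Matrix.of fun a b => B (E a) (E b), ?_, ?_⟩
  · intro hdet
    obtain ⟨v, hv, hv0⟩ := Matrix.exists_mulVec_eq_zero_iff.2 hdet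
    set x : LG G := ∑ b, v b • E b with hx
    have hx1 : x ∈ I := by
      have : x ∈ I.toSubmodule := Submodule.sum_mem _ fun b _ => Submodule.smul_mem _ _ (hEI b)
      exact this
    have hBe : ∀ a, B (E a) x = 0 := by
      intro a
      have h1 : _ = (0 : ℂ) := congrFun hv0 a
      rw [hx, map_sum]
      rw [Matrix.mulVec, dotProduct] at h1
      rw [← h1]
      refine Finset.sum_congr rfl fun b _ => ?_
      rw [map_smul, smul_eq_mul, mul_comm]
      rfl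
    have hx2 : x ∈ I.killingCompl := by
      rw [LieIdeal.mem_killingCompl]
      intro y hy
      have h1 : y.1 ∈ Submodule.span ℂ (Set.range e) := hy
      rw [Submodule.mem_span_range_iff_exists_fun] at h1
      obtain ⟨c, hc'⟩ := h1
      have h2 : y = ∑ a, c a • E a := by
        refine Subtype.ext ?_
        rw [← hc']
        change _ = (LG G).toSubmodule.subtype (∑ a, c a • E a)
        rw [map_sum]
        exact Finset.sum_congr rfl fun a _ => rfl
      change B y x = 0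
      rw [h2, map_sum B, LinearMap.sum_apply]
      refine Finset.sum_eq_zero fun a _ => ?_
      rw [map_smul B, LinearMap.smul_apply, hBe, smul_zero]
    have hx3 : x ∈ I ⊓ I.killingCompl := (LieSubmodule.mem_inf _ _ _).2 ⟨hx1, hx2⟩
    rw [hc.inf_eq_bot, LieSubmodule.mem_bot] at hx3
    have hx4 : ∑ b, v b • e b = 0 := by
      have h1 := congrArg (LG G).toSubmodule.subtype hx3
      rw [hx, map_sum, map_zero] at h1
      exact h1
    exact hv (funext (Fintype.linearIndependent_iff.1 he v hx4))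
  · intro x r hxG hr
    set φ : LG G ≃ₗ⁅ℂ⁆ LG G := LieEquiv.ofBijective (adH x hxG) ⟨adH_inj x hxG,
      (LinearMap.injective_iff_surjective (f := (adH x hxG : LG G →ₗ[ℂ] LG G))).1 (adH_inj x hxG)⟩
      with hφ
    have h1 : ∀ a, φ (E a) = ∑ c, r c a • E c := by
      intro a
      refine Subtype.ext ?_
      change x.1 * e a * x⁻¹.1 = (LG G).toSubmodule.subtype (∑ c, r c a • E c)
      rw [hr a, map_sum]
      exact Finset.sum_congr rfl fun c _ => rfl
    ext a b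
    have h2 : B (φ (E a)) (φ (E b)) = B (E a) (E b) := LieAlgebra.killingForm_of_equiv_apply φ _ _
    rw [h1, h1, map_sum B, LinearMap.sum_apply] at h2
    rw [Matrix.mul_apply]
    simp only [Matrix.mul_apply, Matrix.transpose_apply, Matrix.of_apply, Finset.sum_mul]
    rw [Finset.sum_comm, ← h2]
    refine Finset.sum_congr rfl fun c _ => ?_
    rw [map_smul B, LinearMap.smul_apply, map_sum, Finset.smul_sum]
    refine Finset.sum_congr rfl fun c' _ => ?_
    rw [map_smul, smul_eq_mul, smul_eq_mul]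
    ring

end LieAlg

end KilM

theorem specKil (hConn : SpecConn) : SpecKil := fun _ _ _ _ hG =>
  ⟨fun h hle hA => KilM.part1 hConn hG h hle hA,
    fun d e he hle hA => KilM.part2 hConn hG d e he hle hA⟩

end Pool.Agent.Lib.MPf11a48.CG
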