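import Pool.Agent.Lib.MP_f11a48_ag.CG.SpecA
import Pool.Agent.Lib.MP_f11a48_ag.CG.Cod

/-!
# LFX: a line which is stable under the Lie algebra is fixed
-/

set_option autoImplicit false

namespace Pool.Agent.Lib.MPf11a48.CG

open Matrix
open Pool.Agent.Lib.MPf11a48.Tors
open Pool.Agent.Lib.MPf11a48.CF (ta)
open Pool.Agent.Lib.MPf11a48.CF.CorM (ta_mul ta_one ta_apply)
open Pool.Agent.Lib.MPf11a48.GL2 (lie van en Geo tang lr)
open Pool.Agent.Lib.MPf11a48.K3.KCurM (gl)

open CodM in
theorem specLfx (hDt : SpecDt) (hKil : SpecKil) (hConn : SpecConn) : SpecLfx := by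
  classical
  intro ι κ _ _ _ _ G₀ b hss hlin g hg
  set L : Submodule ℂ (Matrix ι ι ℂ) := lie (G₀ : Set (GL ι ℂ)) with hL
  have hdt : ∀ (X : Matrix ι ι ℂ) (c : ℂ) (w : (κ → ι) → ℂ), dt X (c • w) = c • dt X w := by
    intro X c w
    exact map_smul _ c w
  have hbr : ∀ X ∈ L, ∀ Y ∈ L, dt (X * Y - Y * X) b = 0 := by
    intro X hX Y hY
    obtain ⟨c, hc⟩ := hlin X hX
    obtain ⟨d, hd⟩ := hlin Y hY
    rw [dt_br, hc, hd, hdt, hdt, hc, hd, smul_smul, smul_smul, mul_comm, sub_self]
  -- the Lie algebra kills `b`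
  have hkill : ∀ X ∈ L, dt X b = 0 := by
    intro X hX
    rw [hL, ← perfect hKil hss] at hX
    induction hX using Submodule.span_induction with
    | mem Z hZ =>
      obtain ⟨X, hX, Y, hY, rfl⟩ := hZ
      exact hbr X hX Y hY
    | zero => rw [← dtL_apply, map_zero]
    | add X Y _ _ hX hY => rw [← dtL_apply, map_add, dtL_apply, dtL_apply, hX, hY, add_zero]
    | smul t X _ hX => rw [← dtL_apply, map_smul, dtL_apply, hX, smul_zero]
  -- the stabiliser of `b`
  let N : Subgroup (GL ι ℂ) :=
    { carrier := {g | ta g.1 b = b}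
      mul_mem' := by
        intro g h hg hh
        change ta (g * h).1 b = b
        rw [Units.val_mul, ta_mul, show ta h.1 b = b from hh]
        exact hg
      one_mem' := by
        change ta (1 : GL ι ℂ).1 b = b
        rw [Units.val_one, ta_one]
      inv_mem' := by
        intro g hg
        change ta g⁻¹.1 b = b
        have h1 : ta g⁻¹.1 (ta g.1 b) = b := by
          rw [← ta_mul, ← Units.val_mul, inv_mul_cancel, Units.val_one, ta_one]
        rwa [show ta g.1 b = b from hg] at h1 }
  have hN : ClosedC (N : Set (GL ι ℂ)) := by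
    refine ⟨Set.range fun J : κ → ι => (∑ J' : κ → ι, MvPolynomial.C (b J') *
      ∏ k, MvPolynomial.X (J k, J' k)) - MvPolynomial.C (b J), ?_⟩
    ext g
    have e : ∀ J : κ → ι, MvPolynomial.aeval (ent g) ((∑ J' : κ → ι, MvPolynomial.C (b J') *
        ∏ k, MvPolynomial.X (J k, J' k) : MvPolynomial (ι × ι) ℂ) - MvPolynomial.C (b J)) =
        ta g.1 b J - b J := by
      intro J
      simp only [map_sub, map_sum, map_mul, map_prod, MvPolynomial.aeval_C, MvPolynomial.aeval_X,
        ta_apply]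
      congr 1
      refine Finset.sum_congr rfl fun J' _ => ?_
      rw [mul_comm]
      rfl
    constructor
    · intro hg
      rintro _ ⟨J, rfl⟩
      rw [e, show ta g.1 b = b from hg, sub_self]
    · intro hg
      change ta g.1 b = b
      funext J
      have h1 : MvPolynomial.aeval (ent g) _ = 0 := hg _ ⟨J, rfl⟩
      rw [e] at h1
      exact sub_eq_zero.1 h1
  have hle := hConn ι G₀ N hss hN fun X hX s =>
    ((hDt ι κ).2.2 (gl X) X (one_gl X)).2.1 b (hkill X hX) s
  exact hle hg

end Pool.Agent.Lib.MPf11a48.CG
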