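import Pool.Agent.Lib.MP_f11a48_ag.CG.Conn

/-!
# LIES: the Lie algebra of a torsor contained in the union of the sets `ℂˣ G τ(c)`
-/

set_option autoImplicit false

namespace Pool.Agent.Lib.MPf11a48.CG

open Matrix MvPolynomial
open Pool.Agent.Lib.MPf11a48.Tors
open Pool.Agent.Lib.MPf11a48.CM hiding OmegaM
open Pool.Agent.Lib.MPf11a48.GL2 (lie van en Geo geo_of_torsor closedOver_mono glmul
  glinv glinv' vf eval_vf tang)
open Pool.Agent.Lib.MPf11a48.K3 (cx)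
open Pool.Agent.Lib.MPf11a48.K3.KCurM (gl gl_zero dv_gl Dv exp_comm)

namespace LiesM

variable {ι : Type} [Fintype ι] [DecidableEq ι]

/-- the orbit of a point with algebraic entries is finite -/
theorem finite_orbit (x : GL ι Qbar) : {o : GL ι ℂ | ∃ τ : ℂ ≃+* ℂ, o = tw τ (glC x)}.Finite := by
  have h1 : ∀ v : ι × ι, {z : ℂ | ∃ τ : ℂ ≃+* ℂ, z = τ ((x.1 v.1 v.2 : Qbar) : ℂ)}.Finite := by
    intro v
    have halg : IsAlgebraic ℚ ((x.1 v.1 v.2 : Qbar) : ℂ) :=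
      mem_algebraicClosure_iff.1 (x.1 v.1 v.2).2
    obtain ⟨p, hp, hpx⟩ := halg
    refine (p.rootSet_finite ℂ).subset ?_
    rintro z ⟨τ, rfl⟩
    rw [Polynomial.mem_rootSet]
    refine ⟨hp, ?_⟩
    have h2 : Polynomial.aeval (τ ((x.1 v.1 v.2 : Qbar) : ℂ)) p =
        τ (Polynomial.aeval ((x.1 v.1 v.2 : Qbar) : ℂ) p) := by
      have := Polynomial.aeval_algHom_apply (RingHom.toRatAlgHom (τ : ℂ →+* ℂ))
        ((x.1 v.1 v.2 : Qbar) : ℂ) p
      exact this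
    rw [h2, hpx, map_zero]
  have h3 : (Set.pi Set.univ fun v : ι × ι =>
      {z : ℂ | ∃ τ : ℂ ≃+* ℂ, z = τ ((x.1 v.1 v.2 : Qbar) : ℂ)}).Finite :=
    Set.Finite.pi' h1 |>.subset (by
      intro f hf v
      exact hf v (Set.mem_univ v))
  refine (h3.preimage (f := fun o : GL ι ℂ => (ent o : ι × ι → ℂ)) ?_).subset ?_
  · intro a _ b _ hab
    refine Units.ext (Matrix.ext fun i j => ?_)
    exact congrFun hab (i, j)
  · rintro o ⟨τ, rfl⟩ v _
    exact ⟨τ, rfl⟩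

theorem gl_add (X : Matrix ι ι ℂ) (s t : ℂ) : gl X (s + t) = gl X s * gl X t := by
  refine Units.ext ?_
  change NormedSpace.exp ((s + t) • X) = NormedSpace.exp (s • X) * NormedSpace.exp (t • X)
  rw [add_smul, Matrix.exp_add_of_commute]
  exact ((Commute.refl X).smul_left s).smul_right t

theorem gl_neg (X : Matrix ι ι ℂ) (s : ℂ) : gl X (-s) = (gl X s)⁻¹ := by
  refine (inv_eq_of_mul_eq_one_right ?_).symm
  rw [← gl_add, add_neg_cancel, gl_zero]

theorem gl_sub (X : Matrix ι ι ℂ) (s t : ℂ) : gl X (s - t) = gl X s * (gl X t)⁻¹ := by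
  rw [sub_eq_add_neg, gl_add, gl_neg]

/-- an entire function vanishing on an infinite bounded set vanishes -/
theorem entire_zero {S : Set ℂ} (hS : S.Infinite) {R : ℝ} (hR : S ⊆ Metric.closedBall 0 R)
    {F : ℂ → ℂ} (hF : Differentiable ℂ F) (h0 : ∀ s ∈ S, F s = 0) (s : ℂ) : F s = 0 := by
  obtain ⟨a, -, ha⟩ := hS.exists_accPt_of_subset_isCompact (isCompact_closedBall 0 R) hR
  have hA : AnalyticOnNhd ℂ F Set.univ := hF.differentiableOn.analyticOnNhd isOpen_univ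
  have hfr : ∃ᶠ z in nhdsWithin a {a}ᶜ, F z = 0 := by
    rw [accPt_iff_frequently_nhdsNE] at ha
    exact ha.mono fun z hz => h0 z hz
  have h := hA.eqOn_zero_of_preconnected_of_frequently_eq_zero isPreconnected_univ
    (Set.mem_univ a) hfr
  exact h (Set.mem_univ s)

/-- a one-parameter group which is in `G` for infinitely many bounded times is in `G` -/
theorem gl_mem_of {G : Subgroup (GL ι ℂ)} (hG : IsSS G) {Y : Matrix ι ι ℂ} {S : Set ℂ}
    (hS : S.Infinite) {R : ℝ} (hR : S ⊆ Metric.closedBall 0 R) (h : ∀ s ∈ S, gl Y s ∈ G) (s : ℂ) :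
    gl Y s ∈ G := by
  refine (ConnM.geo hG).closed _ fun p hp => ?_
  have hd : ∀ t, HasDerivAt (K3.CurveM.F (gl Y) 1 p) (K3.CurveM.F (gl Y) 1 (vf Y p) t) t :=
    fun t => K3.CurveM.F_deriv (fun s i j => dv_gl Y s i j) 1 p t
  have h1 := entire_zero hS hR (fun t => (hd t).differentiableAt) (fun t ht => by
    change MvPolynomial.eval (en (gl Y t * 1).1) p = 0
    rw [mul_one]
    exact hp _ (h t ht)) s
  change MvPolynomial.eval (en (gl Y s * 1).1) p = 0 at h1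
  rwa [mul_one] at h1

theorem mem_lie_of_gl {G : Subgroup (GL ι ℂ)} (hG : IsSS G) {Y : Matrix ι ι ℂ}
    (h : ∀ s, gl Y s ∈ G) : Y ∈ lie (G : Set (GL ι ℂ)) := by
  refine (ConnM.geo hG).mem_lie_of G.one_mem fun p hp => ?_
  have hd : HasDerivAt (K3.CurveM.F (gl Y) 1 p) (K3.CurveM.F (gl Y) 1 (vf Y p) 0) 0 :=
    K3.CurveM.F_deriv (fun s i j => dv_gl Y s i j) 1 p 0
  have h0 : K3.CurveM.F (gl Y) 1 p = fun _ => 0 := by
    funext t
    change MvPolynomial.eval (en (gl Y t * 1).1) p = 0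
    rw [mul_one]
    exact hp _ (h t)
  rw [h0] at hd
  have h1 := hd.unique (hasDerivAt_const 0 (0 : ℂ))
  change MvPolynomial.eval (en (gl Y 0 * 1).1) (vf Y p) = 0 at h1
  rw [gl_zero, mul_one, eval_vf] at h1
  exact h1

/-- the exponential of `Y + t` -/
theorem gl_shift (X : Matrix ι ι ℂ) (t s : ℂ) :
    (gl X s).1 = Complex.exp (s * t) • (gl (X - t • (1 : Matrix ι ι ℂ)) s).1 := by
  have h1 : gl X s = gl (t • (1 : Matrix ι ι ℂ) + (X - t • (1 : Matrix ι ι ℂ))) s := by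
    rw [add_sub_cancel]
  rw [h1]
  change NormedSpace.exp (s • (t • (1 : Matrix ι ι ℂ) + (X - t • (1 : Matrix ι ι ℂ)))) =
    Complex.exp (s * t) • NormedSpace.exp (s • (X - t • (1 : Matrix ι ι ℂ)))
  rw [smul_add, Matrix.exp_add_of_commute, smul_smul]
  · have h2 : NormedSpace.exp ((s * t) • (1 : Matrix ι ι ℂ)) = Complex.exp (s * t) • 1 := by
      have h3 : (s * t) • (1 : Matrix ι ι ℂ) = diagonal fun _ => s * t := by
        rw [← Matrix.diagonal_one, ← Matrix.diagonal_smul]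
        congr 1
        funext i
        simp
      rw [h3, Matrix.exp_diagonal]
      refine Matrix.ext fun i j => ?_
      by_cases hij : i = j
      · subst hij
        rw [diagonal_apply_eq, Matrix.smul_apply, one_apply_eq, smul_eq_mul, mul_one, Pi.coe_exp,
          Complex.exp_eq_exp_ℂ]
      · rw [diagonal_apply_ne _ hij, Matrix.smul_apply, one_apply_ne hij, smul_zero]
    rw [h2, Matrix.smul_mul, Matrix.one_mul]
  · refine Commute.smul_right (Commute.smul_left ?_ s) s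
    exact (Commute.one_left _).smul_left t

/-- the derivative of the relation of similitude -/
theorem simil {ψ : Matrix ι ι ℂ} (hψ : ψ ≠ 0) {X : Matrix ι ι ℂ}
    (h : ∀ s, ∃ z : ℂ, (gl X s).1ᵀ * ψ * (gl X s).1 = z • ψ) :
    ∃ m : ℂ, Xᵀ * ψ + ψ * X = m • ψ := by
  have hd : Dv (fun s => (gl X s).1ᵀ * ψ * (gl X s).1)
      (fun s => (gl X s).1ᵀ * (Xᵀ * ψ + ψ * X) * (gl X s).1) := by
    refine (((dv_gl X).transpose.mul (Dv.const ψ)).mul (dv_gl X)).congr fun s => ?_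
    rw [Matrix.transpose_mul, Matrix.mul_zero, add_zero]
    noncomm_ring
  have hk : ∃ k l, ψ k l ≠ 0 := by
    by_contra hcon
    push Not at hcon
    exact hψ (Matrix.ext fun i j => hcon i j)
  obtain ⟨k, l, hkl⟩ := hk
  refine ⟨(Xᵀ * ψ + ψ * X) k l / ψ k l, Matrix.ext fun i j => ?_⟩
  have h1 : (fun s => ((gl X s).1ᵀ * ψ * (gl X s).1) i j) =
      fun s => ((gl X s).1ᵀ * ψ * (gl X s).1) k l * (ψ i j / ψ k l) := by
    funext s
    obtain ⟨z, hz⟩ := h s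
    rw [hz, Matrix.smul_apply, Matrix.smul_apply, smul_eq_mul, smul_eq_mul]
    field_simp
  have h2 := (hd 0 k l).mul_const (ψ i j / ψ k l)
  have h3 := hd 0 i j
  simp only [] at h3
  rw [h1] at h3
  have h4 := h3.unique h2
  simp only [gl_zero, Units.val_one, Matrix.transpose_one, Matrix.one_mul, Matrix.mul_one] at h4
  rw [Matrix.smul_apply, smul_eq_mul, h4]
  field_simp

/-- isometries -/
theorem isom {ψ : Matrix ι ι ℂ} {Y : Matrix ι ι ℂ} (h : Yᵀ * ψ + ψ * Y = 0) (s : ℂ) :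
    (gl Y s).1ᵀ * ψ * (gl Y s).1 = ψ := by
  have h1 : Dv (fun s => (gl Y s).1ᵀ * ψ * (gl Y s).1) (fun _ => 0) := by
    refine (((dv_gl Y).transpose.mul (Dv.const ψ)).mul (dv_gl Y)).congr fun s => ?_
    rw [Matrix.transpose_mul, Matrix.mul_zero, add_zero]
    calc (gl Y s).1ᵀ * Yᵀ * ψ * (gl Y s).1 + (gl Y s).1ᵀ * ψ * (Y * (gl Y s).1) =
        (gl Y s).1ᵀ * (Yᵀ * ψ + ψ * Y) * (gl Y s).1 := by noncomm_ring
      _ = 0 := by rw [h, Matrix.mul_zero, Matrix.zero_mul]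
  have h2 := h1.const_of_zero s
  rw [gl_zero, Units.val_one, Matrix.transpose_one, Matrix.one_mul, Matrix.mul_one] at h2
  exact h2

end LiesM

open LiesM in
theorem specLies : SpecLies := by
  classical
  intro ι _ _ ψ K G T c hψ hG hiso hK hT hc hcov hsim X hX
  by_cases hι : Nonempty ι
  swap
  · rw [not_nonempty_iff] at hι
    refine ⟨0, ?_⟩
    have h0 : X - (0 : ℂ) • (1 : Matrix ι ι ℂ) = 0 := Matrix.ext fun i => (hι.false i).elim
    rw [h0]
    exact Submodule.zero_mem _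
  have hψ0 : cx ψ ≠ 0 := by
    intro h
    apply hψ
    have h1 : ψ = 0 := by
      refine Matrix.ext fun i j => ?_
      have h2 := congrFun (congrFun h i) j
      change ((ψ i j : ℚ) : ℂ) = 0 at h2
      exact_mod_cast h2
    have := hι
    rw [h1, Matrix.det_zero]
  have hgeo : Geo T := geo_of_torsor ⟨closedOver_mono hK hT.closed, hT.nonempty, hT.heap⟩
  obtain ⟨x, hx⟩ := hgeo.exists_pt
  have hTG : ∀ (τ : ℂ ≃+* ℂ), ∀ g ∈ G, tw τ g ∈ G := fun τ g hg =>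
    hG.closed.tw_mem (fixesField_bot τ) hg
  -- every element of `T` is `z g x'` with `x'` in the orbit of `x`
  obtain ⟨z₀, g₀, τ₀, hg₀, -, hx0⟩ := hcov _ hx
  have hz₀ : z₀ ≠ 0 := by
    rintro rfl
    rw [zero_smul] at hx0
    have h1 := glinv (glC x)
    rw [hx0, Matrix.zero_mul] at h1
    obtain ⟨i⟩ := hι
    have h2 := congrFun (congrFun h1 i) i
    rw [Matrix.zero_apply, Matrix.one_apply_eq] at h2
    exact zero_ne_one h2
  have hcov' : ∀ f ∈ T, ∃ (z : ℂ) (g o : GL ι ℂ), g ∈ G ∧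
      (∃ τ : ℂ ≃+* ℂ, o = tw τ (glC x)) ∧ f.1 = z • (g * o).1 := by
    intro f hf
    obtain ⟨z, g, τ, hg, -, hfz⟩ := hcov f hf
    refine ⟨z * (τ (τ₀.symm z₀))⁻¹, g * (tw τ (tw τ₀.symm g₀))⁻¹, tw τ (tw τ₀.symm (glC x)),
      G.mul_mem hg (G.inv_mem (hTG _ _ (hTG _ _ hg₀))), ⟨τ₀.symm.trans τ, ?_⟩, ?_⟩
    · exact Units.ext rfl
    · have h1 : (tw τ (tw τ₀.symm (glC x))).1 =
          τ (τ₀.symm z₀) • (tw τ (tw τ₀.symm g₀) * tw τ c).1 := by
        refine Matrix.ext fun i j => ?_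
        change τ (τ₀.symm ((glC x).1 i j)) = _
        rw [hx0, Matrix.smul_apply, Matrix.smul_apply, smul_eq_mul, smul_eq_mul, map_mul, map_mul]
        congr 1
        rw [← tw_symm_tw τ₀ c, ← map_mul, ← map_mul, tw_symm_tw]
        rfl
      have hne : τ (τ₀.symm z₀) ≠ 0 := by
        rw [Ne, map_eq_zero_iff _ τ.injective, map_eq_zero_iff _ τ₀.symm.injective]
        exact hz₀
      rw [glmul, h1, Matrix.mul_smul, smul_smul, mul_assoc, inv_mul_cancel₀ hne, mul_one, ← glmul,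
        ← mul_assoc, inv_mul_cancel_right]
      exact hfz
  -- the curve
  have hcur : ∀ s, gl X s * glC x ∈ T := fun s =>
    K3.specCurve ι T hgeo X hX (gl X) (gl_zero X) (fun s i j => dv_gl X s i j) _ hx s
  -- similitudes
  obtain ⟨m, hm⟩ : ∃ m : ℂ, Xᵀ * cx ψ + cx ψ * X = m • cx ψ := by
    refine simil hψ0 fun s => ?_
    obtain ⟨z, hz⟩ := hsim _ (hcur s)
    obtain ⟨z', hz'⟩ := hsim _ hx
    have hz'0 : z' ≠ 0 := by
      rintro rfl
      rw [zero_smul] at hz'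
      apply hψ0
      have h1 : cx ψ = (glC x)⁻¹.1ᵀ * ((glC x).1ᵀ * cx ψ * (glC x).1) * (glC x)⁻¹.1 := by
        have h2 : (glC x)⁻¹.1ᵀ * (glC x).1ᵀ = 1 := by
          rw [← Matrix.transpose_mul, glinv, Matrix.transpose_one]
        have h3 := glinv (glC x)
        calc cx ψ = ((glC x)⁻¹.1ᵀ * (glC x).1ᵀ) * cx ψ * ((glC x).1 * (glC x)⁻¹.1) := by
              rw [h2, h3, Matrix.one_mul, Matrix.mul_one]
          _ = _ := by noncomm_ring
      rw [h1, hz', Matrix.mul_zero, Matrix.zero_mul]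
    have hc1 : c.1ᵀ * cx ψ * c.1 = z'⁻¹ • ((glC x).1ᵀ * cx ψ * (glC x).1) := by
      rw [hz', smul_smul, inv_mul_cancel₀ hz'0, one_smul]
    rw [hc1, glmul, Matrix.transpose_mul, smul_smul] at hz
    refine ⟨z * z'⁻¹, ?_⟩
    have h2 : (glC x)⁻¹.1ᵀ * (glC x).1ᵀ = 1 := by
      rw [← Matrix.transpose_mul, glinv, Matrix.transpose_one]
    have h3 := glinv (glC x)
    calc (gl X s).1ᵀ * cx ψ * (gl X s).1 =
        ((glC x)⁻¹.1ᵀ * (glC x).1ᵀ) * (gl X s).1ᵀ * cx ψ * (gl X s).1 *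
          ((glC x).1 * (glC x)⁻¹.1) := by rw [h2, h3, Matrix.one_mul, Matrix.mul_one]
      _ = (glC x)⁻¹.1ᵀ * ((glC x).1ᵀ * (gl X s).1ᵀ * cx ψ * ((gl X s).1 * (glC x).1)) *
          (glC x)⁻¹.1 := by noncomm_ring
      _ = (glC x)⁻¹.1ᵀ * ((z * z'⁻¹) • ((glC x).1ᵀ * cx ψ * (glC x).1)) * (glC x)⁻¹.1 := by
          rw [hz]
      _ = (z * z'⁻¹) • (((glC x)⁻¹.1ᵀ * (glC x).1ᵀ) * cx ψ * ((glC x).1 * (glC x)⁻¹.1)) := by
          rw [Matrix.mul_smul, Matrix.smul_mul]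
          congr 1
          noncomm_ring
      _ = (z * z'⁻¹) • cx ψ := by rw [h2, h3, Matrix.one_mul, Matrix.mul_one]
  refine ⟨m / 2, ?_⟩
  set Y : Matrix ι ι ℂ := X - (m / 2) • (1 : Matrix ι ι ℂ) with hY
  have hYψ : Yᵀ * cx ψ + cx ψ * Y = 0 := by
    rw [hY, Matrix.transpose_sub, Matrix.transpose_smul, Matrix.transpose_one, Matrix.sub_mul,
      Matrix.mul_sub, Matrix.smul_mul, Matrix.mul_smul, Matrix.one_mul, Matrix.mul_one]
    have h1 : m • cx ψ = (m / 2) • cx ψ + (m / 2) • cx ψ := by rw [← add_smul, add_halves]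
    rw [h1] at hm
    calc Xᵀ * cx ψ - (m / 2) • cx ψ + (cx ψ * X - (m / 2) • cx ψ) =
        (Xᵀ * cx ψ + cx ψ * X) - ((m / 2) • cx ψ + (m / 2) • cx ψ) := by abel
      _ = 0 := by rw [hm, sub_self]
  -- infinitely many bounded times in `± G`
  have key : ∀ s, (∃ (z : ℂ) (g : GL ι ℂ), g ∈ G ∧ (gl X s).1 = z • g.1) →
      gl Y s ∈ G ∨ -gl Y s ∈ G := by
    rintro s ⟨z, g, hg, hzg⟩
    have h1 := gl_shift X (m / 2) s
    rw [← hY, hzg] at h1
    have h2 : (gl Y s).1 = (Complex.exp (s * (m / 2)))⁻¹ • z • g.1 := by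
      rw [h1, smul_smul, inv_mul_cancel₀ (Complex.exp_ne_zero _), one_smul]
    rw [smul_smul] at h2
    set w := (Complex.exp (s * (m / 2)))⁻¹ * z with hw
    have h3 := isom hYψ s
    rw [h2, Matrix.transpose_smul, Matrix.smul_mul, Matrix.smul_mul, Matrix.mul_smul,
      hiso g hg, smul_smul] at h3
    have h4 : w * w = 1 := by
      by_contra hne
      apply hψ0
      have h5 : (w * w - 1) • cx ψ = 0 := by rw [sub_smul, one_smul, h3, sub_self]
      exact (smul_eq_zero.1 h5).resolve_left (sub_ne_zero.2 hne)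
    rcases mul_self_eq_one_iff.1 h4 with h5 | h5
    · left
      have h6 : gl Y s = g := Units.ext (by rw [h2, h5, one_smul])
      rw [h6]
      exact hg
    · right
      have h6 : -gl Y s = g := Units.ext (by
        rw [Units.val_neg, h2, h5, neg_smul, one_smul, neg_neg])
      rw [h6]
      exact hg
  -- the times `1 / (n + 1)`
  have hS1 : ∃ S : Set ℂ, S.Infinite ∧ S ⊆ Metric.closedBall 0 2 ∧ ∀ s ∈ S,
      gl Y s ∈ G ∨ -gl Y s ∈ G := by
    choose z g o hg ho hzo using fun n : ℕ => hcov' _ (hcur (1 / ((n : ℂ) + 1)))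
    have : Finite {o : GL ι ℂ | ∃ τ : ℂ ≃+* ℂ, o = tw τ (glC x)} := (finite_orbit x).to_subtype
    obtain ⟨o₀, hinf⟩ := Finite.exists_infinite_fiber
      (fun n => (⟨o n, ho n⟩ : {o : GL ι ℂ | ∃ τ : ℂ ≃+* ℂ, o = tw τ (glC x)}))
    obtain ⟨A, hA⟩ : ∃ A : Set ℕ, A = (fun n => (⟨o n, ho n⟩ : {o : GL ι ℂ | ∃ τ : ℂ ≃+* ℂ,
      o = tw τ (glC x)})) ⁻¹' {o₀} := ⟨_, rfl⟩
    rw [← hA, Set.infinite_coe_iff] at hinf
    have hoA : ∀ n ∈ A, o n = o₀ := by
      intro n hn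
      rw [hA] at hn
      exact congrArg Subtype.val hn
    obtain ⟨n₀, hn₀⟩ := hinf.nonempty
    have hz0 : ∀ n, z n ≠ 0 := by
      intro n h0
      have h1 := glinv (gl X (1 / ((n : ℂ) + 1)) * glC x)
      rw [hzo n, h0, zero_smul, Matrix.zero_mul] at h1
      obtain ⟨i⟩ := hι
      have h2 := congrFun (congrFun h1 i) i
      rw [Matrix.zero_apply, Matrix.one_apply_eq] at h2
      exact zero_ne_one h2
    refine ⟨(fun n : ℕ => 1 / ((n : ℂ) + 1) - 1 / ((n₀ : ℂ) + 1)) '' A, hinf.image ?_, ?_, ?_⟩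
    · intro a _ b _ hab
      have h1 : (1 : ℂ) / ((a : ℂ) + 1) = 1 / ((b : ℂ) + 1) := sub_left_injective hab
      have ha : ((a : ℂ) + 1) ≠ 0 := Nat.cast_add_one_ne_zero a
      have hb : ((b : ℂ) + 1) ≠ 0 := Nat.cast_add_one_ne_zero b
      rw [div_eq_div_iff ha hb, one_mul, one_mul] at h1
      have h2 := add_right_cancel h1
      exact_mod_cast h2.symm
    · rintro s ⟨n, -, rfl⟩
      rw [mem_closedBall_zero_iff]
      have hb : ∀ n : ℕ, ‖(1 : ℂ) / ((n : ℂ) + 1)‖ ≤ 1 := by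
        intro n
        have h1 : ((n : ℂ) + 1) = ((n + 1 : ℕ) : ℂ) := by push_cast; rfl
        rw [h1, norm_div, norm_one, Complex.norm_natCast]
        exact div_le_one_of_le₀ (by exact_mod_cast Nat.succ_le_succ (Nat.zero_le n))
          (Nat.cast_nonneg _)
      calc ‖(1 : ℂ) / ((n : ℂ) + 1) - 1 / ((n₀ : ℂ) + 1)‖ ≤
          ‖(1 : ℂ) / ((n : ℂ) + 1)‖ + ‖(1 : ℂ) / ((n₀ : ℂ) + 1)‖ := norm_sub_le _ _
        _ ≤ 1 + 1 := add_le_add (hb n) (hb n₀)
        _ = 2 := by norm_num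
    · rintro s ⟨n, hn, rfl⟩
      refine key _ ⟨z n * (z n₀)⁻¹, g n * (g n₀)⁻¹, G.mul_mem (hg n) (G.inv_mem (hg n₀)), ?_⟩
      have h1 : ∀ n ∈ A, (gl X (1 / ((n : ℂ) + 1))).1 = z n • ((g n).1 * (o₀.1 * (glC x)⁻¹).1) := by
        intro n hn
        have h2 := hzo n
        rw [hoA n hn] at h2
        calc (gl X (1 / ((n : ℂ) + 1))).1 =
            (gl X (1 / ((n : ℂ) + 1)) * glC x).1 * (glC x)⁻¹.1 := by
              rw [← glmul, mul_inv_cancel_right]
          _ = _ := by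
              rw [h2, Matrix.smul_mul, ← glmul, ← glmul, mul_assoc]
      have h2 : (gl X (1 / ((n₀ : ℂ) + 1)))⁻¹.1 =
          (z n₀)⁻¹ • ((g n₀ * (o₀.1 * (glC x)⁻¹))⁻¹).1 := by
        refine left_inv_eq_right_inv (glinv' _) ?_
        rw [h1 n₀ hn₀, Matrix.smul_mul, Matrix.mul_smul, smul_smul, mul_inv_cancel₀ (hz0 n₀),
          one_smul, ← glmul, glinv]
      rw [gl_sub, glmul, h2, h1 n hn, Matrix.smul_mul, Matrix.mul_smul, smul_smul, ← glmul,
        ← glmul]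
      congr 2
      group
  obtain ⟨S, hSinf, hSb, hSG⟩ := hS1
  -- quotients
  have hS2 : ∃ S' : Set ℂ, S'.Infinite ∧ S' ⊆ Metric.closedBall 0 4 ∧ ∀ s ∈ S', gl Y s ∈ G := by
    have hB : ∀ a ∈ S, ∀ b ∈ S, a - b ∈ Metric.closedBall (0 : ℂ) 4 := by
      intro a ha b hb
      have h1 := mem_closedBall_zero_iff.1 (hSb ha)
      have h2 := mem_closedBall_zero_iff.1 (hSb hb)
      rw [mem_closedBall_zero_iff]
      calc ‖a - b‖ ≤ ‖a‖ + ‖b‖ := norm_sub_le _ _
        _ ≤ 2 + 2 := add_le_add h1 h2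
        _ = 4 := by norm_num
    have hun : S = {s ∈ S | gl Y s ∈ G} ∪ {s ∈ S | -gl Y s ∈ G} := by
      refine Set.ext fun s => ⟨fun hs => ?_, ?_⟩
      · rcases hSG s hs with h | h
        · exact Or.inl ⟨hs, h⟩
        · exact Or.inr ⟨hs, h⟩
      · rintro (h | h)
        · exact h.1
        · exact h.1
    rw [hun, Set.infinite_union] at hSinf
    rcases hSinf with h | h
    · refine ⟨_, h, fun s hs => ?_, fun s hs => hs.2⟩
      have h1 := mem_closedBall_zero_iff.1 (hSb hs.1)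
      rw [mem_closedBall_zero_iff]
      linarith
    · obtain ⟨b, hb⟩ := h.nonempty
      refine ⟨(fun a => a - b) '' {s ∈ S | -gl Y s ∈ G}, h.image (fun a _ c _ hac =>
        sub_left_injective hac), ?_, ?_⟩
      · rintro s ⟨a, ha, rfl⟩
        exact hB a ha.1 b hb.1
      · rintro s ⟨a, ha, rfl⟩
        have h1 := G.mul_mem ha.2 (G.inv_mem hb.2)
        rw [gl_sub]
        have h2 : -gl Y a * (-gl Y b)⁻¹ = gl Y a * (gl Y b)⁻¹ := by
          rw [inv_neg, neg_mul_neg]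
        rwa [h2] at h1
  obtain ⟨S', hS'inf, hS'b, hS'G⟩ := hS2
  exact mem_lie_of_gl hG fun s => gl_mem_of hG hS'inf hS'b hS'G s

end Pool.Agent.Lib.MPf11a48.CG
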