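import Pool.Agent.Lib.MP_f11a48_ag.CG.MainJ0

/-!
# Sums of fibres of a family: the theorem, from the Specs
-/

set_option autoImplicit false
set_option linter.unusedSectionVars false

namespace Pool.Agent.Lib.MPf11a48.CG.MainJM

open Polynomial Matrix
open scoped PowerSeries
open Pool.Agent.Lib.MPf11a48.Tors
open Pool.Agent.Lib.MPf11a48.CM hiding OmegaM
open Pool.Agent.Lib.MPf11a48.GL2 (lie van en Geo glmul glinv glinv' closedOver_mono geo_of_torsor)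
open Pool.Agent.Lib.MPf11a48.GL2T
open Pool.Agent.Lib.MPf11a48.GF Pool.Agent.Lib.MPf11a48.GF.EstM
open Pool.Agent.Lib.MPf11a48.CF (vm ta pl)
open Pool.Agent.Lib.MPf11a48.K3 (cx)
open Pool.Agent.Lib.MPf11a48.K3.KCurM (gl)

variable {ι : Type} [Fintype ι] [DecidableEq ι]

/-- a number field which contains given fields (indexed by a finite type) and given numbers -/
theorem exists_field' (hDeg : SpecDeg) (I J : Type) [Fintype I] [Fintype J] [Nonempty I]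
    (e δ : ℕ) (K : I → IntermediateField ℚ ℂ)
    (hK : ∀ a, FiniteDimensional ℚ (K a)) (hKδ : ∀ a, Module.finrank ℚ (K a) ≤ δ)
    (x : J → ℂ) (hx : ∀ i, ∃ p : ℚ[X], p ≠ 0 ∧ p.natDegree ≤ e ∧ aeval (x i) p = 0) :
    ∃ L : IntermediateField ℚ ℂ, (∀ a, K a ≤ L) ∧ FiniteDimensional ℚ L ∧ (∀ i, x i ∈ L) ∧
      Module.finrank ℚ L ≤ (max δ e) ^ (Fintype.card I * (Fintype.card J + 1)) := by
  classical
  let εI := (Fintype.equivFin I).symm
  let εJ := (Fintype.equivFin J).symm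
  obtain ⟨L, h1, h2, h3, h4⟩ := MainAM.exists_field hDeg (Fintype.card I) (Fintype.card J) e δ
    (fun a => K (εI a)) (fun a => hK _) (fun a => hKδ _) (fun _ j => x (εJ j)) (fun _ j => hx _)
  refine ⟨L, ?_, h2, ?_, h4⟩
  · intro a
    have := h1 (εI.symm a)
    rwa [Equiv.apply_symm_apply] at this
  · intro i
    have := h3 (εI.symm (Classical.arbitrary I)) (εJ.symm i)
    rwa [Equiv.apply_symm_apply] at this

/-- the case of a set of at most `s` exceptional fibres for all sums of fibres -/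
theorem joint (hRelt : SpecRelt) (hNormt : SpecNormt) (hVal : SpecVal) (hTor : SpecTor)
    (hDeg : SpecDeg) (hNrm : SpecNrm) (hGt : SpecGt) (hLies : SpecLies) (hUlt : SpecUltJ)
    (hExc : SpecExc) (hPlf : SpecPlf) (hZar : SpecZar) (hBss : SpecBss)
    {T : ℤ[X]} {B : Matrix ι ι ℤ[X]} {Y : Matrix ι ι ℚ⟦X⟧} {G G₀ : Subgroup (GL ι ℂ)}
    {ψ₀ ψ N : Matrix ι ι ℚ} {C₀ : GL ι ℂ} (w : ℤ) (δ D s : ℕ) (hG : IsSS G)
    (hiso : ∀ g ∈ G, g.1ᵀ * cx ψ * g.1 = cx ψ) (hd : ψ.det ≠ 0)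
    (hG₀ : ClosedOver ⊥ (G₀ : Set (GL ι ℂ))) (hGG : ∀ g, g ∈ G₀ ↔ C₀ * g * C₀⁻¹ ∈ G)
    (hF : FamT T B N ψ₀ Y G₀)
    (hC₀ : C₀.1ᵀ * cx ψ * C₀.1 = (2 * Real.pi * Complex.I) ^ w • cx ψ₀)
    (hN : IsNilpotent N) (hN₀ : cx N ∈ lie (G₀ : Set (GL ι ℂ)))
    (hs : Fintype.card ι ^ 2 ≤ s ∨ TrS C₀.1 N s) (k : ℕ) :
    ∃ C : ℕ, ∀ a b : ℤ, a ≠ 0 → (C : ℤ) * |a| ^ C ≤ b →
      ∃ E : Finset ℕ, E.card ≤ s ∧ ∀ r : ℕ, 1 ≤ r →
        ∀ m : Fin r → ℕ, Function.Injective m → (∀ i, m i < k ∧ m i ∉ E) →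
          GoodP (bd G r) (blockDiagonal fun _ : Fin r => ψ)
            (blockDiagonal fun i => C₀.1 *
              NormedSpace.exp (Complex.log ((a : ℂ) / (b + m i * a)) • cx N) *
              vm Y ((a : ℂ) / (b + m i * a))) w δ D := by
  classical
  have h2pi : (2 * Real.pi * Complex.I : ℂ) ≠ 0 := Complex.two_pi_I_ne_zero
  have hϖ : (2 * Real.pi * Complex.I : ℂ) ^ w ≠ 0 := zpow_ne_zero _ h2pi
  have hd₀ : ψ₀.det ≠ 0 := MainPM.det_ne hC₀ hd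
  have hcast : ∀ (a b : ℤ) (m : ℕ), ((a : ℂ) / ((b + m * a : ℤ) : ℂ)) = (a : ℂ) / (b + m * a) := by
    intro a b m
    push_cast
    rfl
  have hG₀s : IsSS G₀ := St2M.isSS hGG hG hG₀
  have hG₀T : IsTorsor (⊥ : IntermediateField ℚ ℂ) (G₀ : Set (GL ι ℂ)) :=
    ⟨hG₀, ⟨1, G₀.one_mem⟩, fun a ha b hb d hd => G₀.mul_mem (G₀.mul_mem ha (G₀.inv_mem hb)) hd⟩
  have hGeo : Geo (G₀ : Set (GL ι ℂ)) := SubM.geo hG₀T
  -- the form
  have hiso₀ : ∀ g ∈ G₀, g.1ᵀ * cx ψ₀ * g.1 = cx ψ₀ := by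
    intro g hg
    have h1 := hiso _ ((hGG g).1 hg)
    have e1 : C₀.1 * g.1 = (C₀ * g * C₀⁻¹).1 * C₀.1 := by
      have : C₀ * g = C₀ * g * C₀⁻¹ * C₀ := by group
      exact congrArg Units.val this
    have h2 : (C₀.1 * g.1)ᵀ * cx ψ * (C₀.1 * g.1) = C₀.1ᵀ * cx ψ * C₀.1 := by
      rw [e1]
      generalize (C₀ * g * C₀⁻¹).1 = A at h1 ⊢
      calc (A * C₀.1)ᵀ * cx ψ * (A * C₀.1) = C₀.1ᵀ * (Aᵀ * cx ψ * A) * C₀.1 := by
            rw [Matrix.transpose_mul]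
            simp only [Matrix.mul_assoc]
        _ = _ := by rw [h1]
    have h3 : (C₀.1 * g.1)ᵀ * cx ψ * (C₀.1 * g.1) = g.1ᵀ * (C₀.1ᵀ * cx ψ * C₀.1) * g.1 := by
      rw [Matrix.transpose_mul]
      simp only [Matrix.mul_assoc]
    rw [h3, hC₀, Matrix.mul_smul, Matrix.smul_mul] at h2
    exact smul_right_injective _ hϖ h2
  have hNψ : Nᵀ * ψ₀ + ψ₀ * N = 0 := MainAM.form_lie hiso₀ hN₀
  by_cases hY : Y.det = 0
  · obtain ⟨C, hC⟩ := MainAM.no_c specEval hF.g hY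
    refine ⟨C + k + 1, fun a b ha hb => ⟨∅, Nat.zero_le _, ?_⟩⟩
    intro r hr m hm hmk K hK hKδ R c hc
    exfalso
    have h1 := hC a (b + m ⟨0, hr⟩ * a) ha
      (MainAM.shift (by have := (hmk ⟨0, hr⟩).1; omega) ha hb)
    rw [hcast] at h1
    apply CF.MainM.det_unit c
    rw [hc, det_mul, det_blockDiagonal]
    refine mul_eq_zero_of_left (Finset.prod_eq_zero (Finset.mem_univ ⟨0, hr⟩) ?_) _
    rw [det_mul, h1, mul_zero]
  -- the constants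
  choose D₁ hD₁ using fun r : ℕ => hGt (ι × Fin r)
  set D₂ : ℕ := ∑ r ∈ Finset.range (k + 1), (D + Fintype.card (ι × Fin r) ^ D₁ r * D₁ r) with hD₂
  obtain ⟨n, hn⟩ := hUlt ι (Fin k) C₀ N G G₀ D₂ s hs hN hGeo
  obtain ⟨r₀, p, hsep, halg⟩ := hF.tor
  choose e Ct hCt using fun x => hTor ι Y hF.g (p x) (halg x)
  set E₀ : ℕ := ∑ x, e x with hE₀
  let I : Type := {E : Finset (Fin k) // E.card ≤ s}
  have : Nonempty I := ⟨⟨∅, Nat.zero_le _⟩⟩
  obtain ⟨N₁, hN₁⟩ := hNormt ι (Fin k) G₀ r₀ p n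
    ((max δ E₀) ^ (Fintype.card I * (Fintype.card (Fin k × Fin r₀) + 1))) hG₀
    (MainM.irred_conj hG hGG) hsep
  choose Cv hCv using fun m : ℕ => hVal ι N Y m hN hF.g
  obtain ⟨Cr, hCr⟩ := hRelt ι T B N ψ₀ Y G₀ hF hN hd₀ hY hNψ k (fun x : Fin k => (x : ℕ))
    (fun x y h => Fin.ext h) N₁
  obtain ⟨Cz, hCz⟩ := nz hF hd₀ hY
  refine ⟨Cr + Cz + (∑ x, Ct x) + (∑ m ∈ Finset.range k, Cv m) + k + 1, ?_⟩
  set C := Cr + Cz + (∑ x, Ct x) + (∑ m ∈ Finset.range k, Cv m) + k + 1 with hCdef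
  intro a b ha hb
  by_contra hcon
  -- the matrices
  have hdet : ∀ x : Fin k, (vm Y ((a : ℂ) / (b + (x : ℕ) * a))).det ≠ 0 := by
    intro x
    have h1 := hCz a (b + (x : ℕ) * a) ha (MainAM.shift (by have := x.2; omega) ha hb)
    rwa [hcast] at h1
  have hy' : ∀ x : Fin k, ∃ y : GL ι ℂ, y.1 = vm Y ((a : ℂ) / (b + (x : ℕ) * a)) := fun x =>
    ⟨Matrix.GeneralLinearGroup.mkOfDetNeZero _ (hdet x), rfl⟩
  choose y' hy' using hy'
  have hv : ∀ x : Fin k, Cv x ≤ ∑ m ∈ Finset.range k, Cv m := fun x =>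
    Finset.single_le_sum (f := Cv) (fun _ _ => Nat.zero_le _) (Finset.mem_range.2 x.2)
  have hval := fun x : Fin k => hCv x a b ha (CF.PolM.mono (by have := hv x; omega) ha hb)
  set u : Fin k → GL ι ℂ := fun x =>
    gl (cx N) (-(Complex.log (1 + (x : ℕ) * ((a : ℂ) / b)))) with hu
  have huG : ∀ x, u x ∈ G₀ := fun x => MainM.gl_mem hG₀ hN₀ _
  set y : Fin k → GL ι ℂ := fun x => u x * y' x with hy
  have hyv : ∀ x : Fin k, (y x).1 = vm (trm (x : ℕ) N Y) ((a : ℂ) / b) := by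
    intro x
    rw [(hval x).2, ← hy' x]
    rfl
  set C₁ : GL ι ℂ := C₀ * gl (cx N) (Complex.log ((a : ℂ) / b)) with hC₁
  have hfib : ∀ x : Fin k, C₀.1 * NormedSpace.exp (Complex.log ((a : ℂ) / (b + (x : ℕ) * a)) • cx N) *
      vm Y ((a : ℂ) / (b + (x : ℕ) * a)) = (C₁ * y x).1 := by
    intro x
    rw [Matrix.mul_assoc C₀.1, (hval x).1, ← hyv x, hC₁]
    simp only [Units.val_mul, Matrix.mul_assoc]
    rfl
  have hlog := MainM.gl_mem hG₀ hN₀ (Complex.log ((a : ℂ) / b))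
  have hGG₁ : ∀ g, g ∈ G₀ ↔ C₁ * g * C₁⁻¹ ∈ G := by
    intro g
    have e1 : C₁ * g * C₁⁻¹ = C₀ * (gl (cx N) (Complex.log ((a : ℂ) / b)) * g *
        (gl (cx N) (Complex.log ((a : ℂ) / b)))⁻¹) * C₀⁻¹ := by
      rw [hC₁]
      group
    rw [e1, ← hGG]
    constructor
    · intro hg
      exact G₀.mul_mem (G₀.mul_mem hlog hg) (G₀.inv_mem hlog)
    · intro hg
      have h1 := G₀.mul_mem (G₀.mul_mem (G₀.inv_mem hlog) hg) hlog
      have e2 : (gl (cx N) (Complex.log ((a : ℂ) / b)))⁻¹ *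
          (gl (cx N) (Complex.log ((a : ℂ) / b)) * g *
            (gl (cx N) (Complex.log ((a : ℂ) / b)))⁻¹) *
          gl (cx N) (Complex.log ((a : ℂ) / b)) = g := by group
      rwa [e2] at h1
  have hC₁ψ : C₁.1ᵀ * cx ψ * C₁.1 = (2 * Real.pi * Complex.I) ^ w • cx ψ₀ := by
    have h1 := hiso _ ((hGG _).1 hlog)
    have e1 : C₁.1 = (C₀ * gl (cx N) (Complex.log ((a : ℂ) / b)) * C₀⁻¹).1 * C₀.1 := by
      have : C₁ = C₀ * gl (cx N) (Complex.log ((a : ℂ) / b)) * C₀⁻¹ * C₀ := by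
        rw [hC₁]
        group
      exact congrArg Units.val this
    rw [e1, ← hC₀]
    generalize (C₀ * gl (cx N) (Complex.log ((a : ℂ) / b)) * C₀⁻¹).1 = A at h1 ⊢
    calc (A * C₀.1)ᵀ * cx ψ * (A * C₀.1) = C₀.1ᵀ * (Aᵀ * cx ψ * A) * C₀.1 := by
          rw [Matrix.transpose_mul]
          simp only [Matrix.mul_assoc]
      _ = _ := by rw [h1]
  -- the invariants
  have hpy : ∀ x j, MvPolynomial.aeval (en (y x).1) (p j) =
      MvPolynomial.aeval (en (y' x).1) (p j) := by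
    intro x j
    refine (hsep (y' x) (y x)).1 ?_ j
    have h1 : y x * (y' x)⁻¹ = u x := by
      rw [hy]
      simp only
      group
    rw [h1]
    exact huG x
  have halgv : ∀ x j, ∃ q : ℚ[X], q ≠ 0 ∧ q.natDegree ≤ E₀ ∧
      aeval (MvPolynomial.aeval (en (y x).1) (p j)) q = 0 := by
    intro x j
    have h1 : Ct j ≤ ∑ x, Ct x :=
      Finset.single_le_sum (f := Ct) (fun _ _ => Nat.zero_le _) (Finset.mem_univ j)
    obtain ⟨q, hq, hq2, hq3⟩ := hCt j a (b + (x : ℕ) * a) ha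
      (MainAM.shift (by have := x.2; omega) ha hb)
    rw [hcast, ← hy' x] at hq3
    have h2 : e j ≤ E₀ := Finset.single_le_sum (f := e) (fun _ _ => Nat.zero_le _)
      (Finset.mem_univ j)
    refine ⟨q, hq, hq2.trans h2, ?_⟩
    rw [hpy]
    exact hq3
  -- the exceptional sums
  have hbad : ∀ E : I, ∃ K : IntermediateField ℚ ℂ, FiniteDimensional ℚ K ∧
      Module.finrank ℚ K ≤ δ ∧ ∃ (r : ℕ) (m : Fin r → Fin k) (R : Matrix (ι × Fin r) (ι × Fin r) K)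
        (c : GL (ι × Fin r) ℂ), Function.Injective m ∧ (∀ i, m i ∉ E.1) ∧
        c.1 = (blockDiagonal fun i => (C₁ * y (m i)).1) * R.map (fun x => (x : ℂ)) ∧
        ∃ g ∈ bd G r, ¬ (g * c ∈ Tors.OmegaM K c ∧ g * c ∈ ZarD K D c) := by
    intro E
    by_contra hno
    apply hcon
    refine ⟨E.1.map Fin.valEmbedding, by rw [Finset.card_map]; exact E.2, ?_⟩
    intro r hr m hm hmk K hK hKδ R c hc
    let m' : Fin r → Fin k := fun i => ⟨m i, (hmk i).1⟩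
    have hc' : c.1 = (blockDiagonal fun i => (C₁ * y (m' i)).1) * R.map (fun x => (x : ℂ)) := by
      rw [hc]
      congr 2
      funext i
      exact hfib (m' i)
    have h1 : ∀ g ∈ bd G r, g * c ∈ Tors.OmegaM K c ∧ g * c ∈ ZarD K D c := by
      intro g hg
      by_contra h2
      refine hno ⟨K, hK, hKδ, r, m', R, c, ?_, ?_, hc', g, hg, h2⟩
      · intro i j hij
        exact hm (congrArg Fin.val hij)
      · intro i hi
        exact (hmk i).2 (Finset.mem_map.2 ⟨m' i, hi, rfl⟩)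
    refine ⟨h1, ?_⟩
    intro ψdR S hw hpol hS hPS hO
    exact good2 hLies hZar (CF.MainM.le_Qbar K) (hBss ι G r hG).1 (iso_bd hiso) h1 ψdR S hw hpol hS
      hPS hO
  choose K hKf hKδ hrest using hbad
  obtain ⟨L, hKL, hLf, hxL, hLd⟩ := exists_field' hDeg I (Fin k × Fin r₀) E₀ δ K hKf hKδ
    (fun q => MvPolynomial.aeval (en (y q.1).1) (p q.2)) (fun q => halgv q.1 q.2)
  have hLQ : L ≤ Qbar := CF.MainM.le_Qbar L
  have hyτ : ∀ x, ∀ τ, FixesField L τ → tw τ (y x) * (y x)⁻¹ ∈ G₀ := by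
    intro x τ hτ
    refine (hsep (y x) (tw τ (y x))).2 fun j => ?_
    have h1 := MainM.aeval_fix τ (p j) (y x)
    have h2 : τ (MvPolynomial.aeval (en (y x).1) (p j)) = MvPolynomial.aeval (en (y x).1) (p j) :=
      hτ _ (hxL (x, j))
    rw [h2] at h1
    exact h1
  -- the relations
  have hrel : HasRelT L n (fun x => (y x).1) G₀ := by
    refine hN₁ y L hLf hLd (fun x j => hxL (x, j)) ?_
    have h1 := hCr a b ha (CF.PolM.mono (by omega) ha hb)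
    have h3 : (fun x => (y x).1) = fun x : Fin k => vm (trm (x : ℕ) N Y) ((a : ℂ) / b) :=
      funext hyv
    rw [h3]
    exact h1
  obtain ⟨E, hE, hmain⟩ := hn (Complex.log ((a : ℂ) / b)) L y hGG₁ hrel
  obtain ⟨r, m, R, c, hm, hmE, hc, hbad⟩ := hrest ⟨E, hE⟩
  have hrk : r ≤ k := by
    have := Fintype.card_le_of_injective m hm
    rwa [Fintype.card_fin, Fintype.card_fin] at this
  have hRdet : (R.map (fun x => (x : ℂ))).det ≠ 0 := by
    have h1 := CF.MainM.det_unit c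
    rw [hc, det_mul] at h1
    exact right_ne_zero_of_mul h1
  set R' : GL (ι × Fin r) ℂ := Matrix.GeneralLinearGroup.mkOfDetNeZero _ hRdet with hR'
  have hR'v : R'.1 = R.map (fun x => (x : ℂ)) := rfl
  have hR'L : ∀ i j, R'.1 i j ∈ L := fun i j => hKL ⟨E, hE⟩ (R i j).2
  have hcx : c = bl (fun i => C₁ * y (m i)) * R' := by
    refine Units.ext ?_
    rw [hc]
    rfl
  have hcx' : c = bl (fun _ : Fin r => C₁) * bl (fun i => y (m i)) * R' := by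
    rw [hcx, bl_mul (fun _ => C₁) fun i => y (m i)]
  obtain ⟨F₁, hF₁, hF₁c, hF₁g⟩ := exc0 hNrm hPlf (D := D) (hD₁ r) (hKL ⟨E, hE⟩) hLQ (det_bd hd) hϖ
    (hBss ι G r hG).1 (iso_bd hiso) (hBss ι G₀ r hG₀s).1 (conj_bd hGG₁) (form_C hC₁ψ)
    (y := bl fun i => y (m i)) (fun τ hτ => by
      rw [tw_bl, bl_inv, ← bl_mul]
      exact bl_mem fun i => hyτ _ τ hτ) hR'L hcx' hbad
  obtain ⟨F, Z, hFd, hFv, hZ, hF0, hFne⟩ := exc1 hExc hBss hG m hm (fun a => C₁ * y a) R' hR'L c hcx F₁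
    hF₁c hF₁g
  refine hFne (hmain F Z ?_ ?_ hZ hF0)
  · refine hFd.trans (hF₁.trans ?_)
    exact Finset.single_le_sum (f := fun r => D + Fintype.card (ι × Fin r) ^ D₁ r * D₁ r)
      (fun _ _ => Nat.zero_le _) (Finset.mem_range.2 (by omega))
  · intro q hq hqE
    obtain ⟨i, hi⟩ := hFv q hq
    exact hmE i (by rw [hi]; exact hqE)

/-- there is no condition in degree `0` -/
theorem mem_zarD_zero (K : IntermediateField ℚ ℂ) (c f : GL ι ℂ) : f ∈ ZarD K 0 c := by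
  intro F hF h0
  rw [MvPolynomial.totalDegree_eq_zero_iff_eq_C.1 (Nat.le_zero.1 hF)] at h0 ⊢
  rw [MvPolynomial.aeval_C] at h0 ⊢
  exact h0

/-- the result for one fibre gives the result for a sum of one fibre, without a statement on `Z_M` -/
theorem one (hLies : SpecLies) (hZar : SpecZar) (hBss : SpecBss) (hTr1 : SpecTr1)
    {G : Subgroup (GL ι ℂ)} {ψ N : Matrix ι ι ℚ} {Y : Matrix ι ι ℚ⟦X⟧} {C₀ : Matrix ι ι ℂ} {w : ℤ}
    {δ : ℕ} (hG : IsSS G) (hiso : ∀ g ∈ G, g.1ᵀ * cx ψ * g.1 = cx ψ) (z : Fin 1 → ℂ)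
    (h : Good G ψ N Y C₀ w δ (z 0)) :
    GoodP (bd G 1) (blockDiagonal fun _ : Fin 1 => ψ)
      (blockDiagonal fun i => C₀ * NormedSpace.exp (Complex.log (z i) • cx N) * vm Y (z i))
      w δ 0 := by
  intro K hK hKδ R c hc
  have h1 : ∀ g ∈ bd G 1, g * c ∈ Tors.OmegaM K c ∧ g * c ∈ ZarD K 0 c := by
    intro g hg
    refine ⟨hTr1 ι G K c ?_ g hg, mem_zarD_zero K c _⟩
    intro c' hc'
    refine (h K hK hKδ (fun i j => R (i, 0) (j, 0)) c' ?_).1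
    refine Matrix.ext fun i j => ?_
    rw [hc' i j, hc, Matrix.mul_apply, Matrix.mul_apply, Fintype.sum_prod_type]
    refine Finset.sum_congr rfl fun l _ => ?_
    rw [Fin.sum_univ_one, blockDiagonal_apply, if_pos rfl]
    rfl
  refine ⟨h1, ?_⟩
  intro ψdR S hw hpol hS hPS hO
  exact good2 hLies hZar (CF.MainM.le_Qbar K) (hBss ι G 1 hG).1 (iso_bd hiso) h1 ψdR S hw hpol hS
    hPS hO

end Pool.Agent.Lib.MPf11a48.CG.MainJM

namespace Pool.Agent.Lib.MPf11a48.CG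

open Matrix
open Pool.Agent.Lib.MPf11a48.Tors Pool.Agent.Lib.MPf11a48.GL2T

/-- Theorem J, from the Specs -/
theorem mainJ (hRelt : SpecRelt) (hNormt : SpecNormt) (hVal : SpecVal) (hTor : SpecTor)
    (hDeg : SpecDeg) (hNrm : SpecNrm) (hGt : SpecGt) (hLies : SpecLies) (hUlt : SpecUltJ)
    (hExc : SpecExc) (hPlf : SpecPlf) (hZar : SpecZar) (hBss : SpecBss) (hTr1 : SpecTr1)
    (hA : StatementA) : StatementJ := by
  intro ι _ _ T B Y G G₀ ψ₀ ψ N C₀ w δ D q s hG hiso hd hG₀ hGG hF hC₀ hN hN₀ h k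
  have hj : (Fintype.card ι ^ 2 ≤ s ∨ TrS C₀.1 N s) ∨ (q = 1 ∧ D = 0 ∧ (FewS G C₀.1 N s ∨
      N = 0 ∧ ∃ (P Q : Matrix ι ι ℂ) (d : ι → ℂ),
        C₀.1 = P * diagonal d * Q ∧ IsAlg P ∧ IsAlg Q ∧ Ncl G P d)) := or_assoc.2 h
  clear h
  rcases hj with h | ⟨hq, hD, h⟩
  · obtain ⟨C, hC⟩ := MainJM.joint hRelt hNormt hVal hTor hDeg hNrm hGt hLies hUlt hExc hPlf hZar
      hBss w δ D s hG hiso hd hG₀ hGG hF hC₀ hN hN₀ h k
    refine ⟨C, fun a b ha hb => ?_⟩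
    obtain ⟨E, hE, hm⟩ := hC a b ha hb
    exact ⟨E, hE, fun r hr _ => hm r hr⟩
  · subst hq hD
    obtain ⟨C, hC⟩ := hA ι T B Y G G₀ ψ₀ ψ N C₀ w δ s hG hiso hd hG₀ hGG hF hC₀ hN hN₀ (Or.inr h) k
    refine ⟨C, fun a b ha hb => ?_⟩
    have hfin : {m : ℕ | m < k ∧ ¬ Good G ψ N Y C₀.1 w δ ((a : ℂ) / (b + m * a))}.Finite :=
      (Set.finite_lt_nat k).subset fun m hm => hm.1
    refine ⟨hfin.toFinset, ?_, ?_⟩
    · rw [← Set.ncard_eq_toFinset_card _ hfin]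
      exact hC a b ha hb
    · intro r hr1 hr2 m _ hmk
      obtain rfl : r = 1 := le_antisymm hr2 hr1
      have h1 : Good G ψ N Y C₀.1 w δ ((a : ℂ) / (b + m 0 * a)) := by
        by_contra hno
        exact (hmk 0).2 (hfin.mem_toFinset.2 ⟨(hmk 0).1, hno⟩)
      exact MainJM.one hLies hZar hBss hTr1 hG hiso (fun i => (a : ℂ) / (b + m i * a)) h1

end Pool.Agent.Lib.MPf11a48.CG
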