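import Pool.Agent.Lib.MP_f11a48_ag.CG.Spec2
import Pool.Agent.Lib.MP_f11a48_ag.CF.Main
import Pool.Agent.Lib.MP_f11a48_ag.K3.Curve
import Pool.Agent.Lib.MP_f11a48_ag.GF.Sub

/-!
# The theorem, from the Specs
-/

set_option autoImplicit false
set_option linter.unusedSectionVars false

namespace Pool.Agent.Lib.MPf11a48.CG.MainM

open Polynomial Matrix
open scoped PowerSeries
open Pool.Agent.Lib.MPf11a48.Tors
open Pool.Agent.Lib.MPf11a48.CM hiding OmegaM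
open Pool.Agent.Lib.MPf11a48.GL2 (lie van en Geo glmul glinv glinv' closedOver_mono geo_of_torsor)
open Pool.Agent.Lib.MPf11a48.GL2T
open Pool.Agent.Lib.MPf11a48.GF
open Pool.Agent.Lib.MPf11a48.CF (vm ta pl)
open Pool.Agent.Lib.MPf11a48.K3 (cx)
open Pool.Agent.Lib.MPf11a48.K3.KCurM (gl)

variable {ι : Type} [Fintype ι] [DecidableEq ι]

/-- the conjugate group is irreducible -/
theorem irred_conj {G G₀ : Subgroup (GL ι ℂ)} {C₀ : GL ι ℂ} (hG : IsSS G)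
    (h : ∀ g, g ∈ G₀ ↔ C₀ * g * C₀⁻¹ ∈ G) (f g : MvPolynomial (ι × ι) ℂ)
    (hfg : f * g ∈ van (G₀ : Set (GL ι ℂ))) :
    f ∈ van (G₀ : Set (GL ι ℂ)) ∨ g ∈ van (G₀ : Set (GL ι ℂ)) := by
  have key : ∀ p : MvPolynomial (ι × ι) ℂ,
      GL2.lr C₀⁻¹.1 C₀.1 p ∈ van (G : Set (GL ι ℂ)) ↔ p ∈ van (G₀ : Set (GL ι ℂ)) := by
    intro p
    constructor
    · intro hp x hx
      have h1 := hp (C₀ * x * C₀⁻¹) ((h x).1 hx)
      rw [GL2.eval_lr] at h1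
      have e : C₀⁻¹.1 * (C₀ * x * C₀⁻¹).1 * C₀.1 = x.1 := by
        have : C₀⁻¹ * (C₀ * x * C₀⁻¹) * C₀ = x := by group
        exact congrArg Units.val this
      rw [e] at h1
      exact h1
    · intro hp x hx
      rw [GL2.eval_lr]
      have e : C₀⁻¹.1 * x.1 * C₀.1 = (C₀⁻¹ * x * C₀).1 := rfl
      rw [e]
      refine hp _ ((h _).2 ?_)
      have : C₀ * (C₀⁻¹ * x * C₀) * C₀⁻¹ = x := by group
      rw [this]
      exact hx
  have h1 := (key (f * g)).2 hfg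
  rw [map_mul] at h1
  rcases hG.irred _ _ h1 with h2 | h2
  · exact Or.inl ((key f).1 h2)
  · exact Or.inr ((key g).1 h2)

theorem aeval_fix (τ : ℂ ≃+* ℂ) (p : MvPolynomial (ι × ι) ℚ)
    (y : GL ι ℂ) : MvPolynomial.aeval (en (tw τ y).1) p = τ (MvPolynomial.aeval (en y.1) p) := by
  induction p using MvPolynomial.induction_on with
  | C a =>
    rw [MvPolynomial.aeval_C, MvPolynomial.aeval_C]
    exact (map_ratCast τ a).symm
  | add p q hp hq => rw [map_add, hp, hq, map_add, map_add]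
  | mul_X p i hp => rw [map_mul, hp, map_mul, map_mul, MvPolynomial.aeval_X, MvPolynomial.aeval_X]; rfl

/-- Part 1, for one fibre -/
theorem fibre (hNrm : SpecNrm) {D : ℕ}
    (hGt : ∀ (ψ : Matrix ι ι ℚ) (K : IntermediateField ℚ ℂ) (G H : Subgroup (GL ι ℂ)),
      Setup ψ K G H → Stab K H G D → G ≤ H)
    {ψ₀ ψ : Matrix ι ι ℚ} {ϖ : ℂ} {C₀ y R : GL ι ℂ} {G G₀ : Subgroup (GL ι ℂ)}
    {K L : IntermediateField ℚ ℂ} (hKL : K ≤ L) (hL : L ≤ Qbar)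
    (hd : ψ.det ≠ 0) (hϖ : ϖ ≠ 0) (hG : IsSS G) (hiso : ∀ g ∈ G, g.1ᵀ * cx ψ * g.1 = cx ψ)
    (hG₀ : ClosedOver ⊥ (G₀ : Set (GL ι ℂ))) (hGG : ∀ g, g ∈ G₀ ↔ C₀ * g * C₀⁻¹ ∈ G)
    (hC₀ : C₀.1ᵀ * cx ψ * C₀.1 = ϖ • cx ψ₀) (hy : ∀ τ, FixesField L τ → tw τ y * y⁻¹ ∈ G₀)
    (hR : ∀ i j, R.1 i j ∈ L)
    (hSt : ∀ T, IsTorsor L T → C₀ * y * R ∈ T → Stab L (grp T) G D)
    {T : Set (GL ι ℂ)} (hT : IsTorsor K T) (hc : C₀ * y * R ∈ T) (g : GL ι ℂ) (hg : g ∈ G) :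
    g * (C₀ * y * R) ∈ T := by
  have hTL : IsTorsor L T := ⟨closedOver_mono hKL hT.closed, hT.nonempty, hT.heap⟩
  obtain ⟨T₁, hT₁, hT₁L, hc₁, hn, hs⟩ := hNrm ι ψ₀ ψ ϖ C₀ y R G G₀ L T hd hϖ hG hiso hG₀ hGG hC₀ hy
    hR hTL hc
  have hset : Setup ψ L G (grpS hT₁L) := ⟨hd, hG, hiso, hL, closedOver_grp hT₁L, hn, hs⟩
  have h1 := hGt ψ L G (grpS hT₁L) hset (hSt T₁ hT₁L hc₁) hg
  exact hT₁ ((mem_grp_iff hT₁L hc₁).1 h1)

/-- the Lie algebra of a group of isometries -/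
theorem lie_iso {ψ : Matrix ι ι ℂ} {G : Subgroup (GL ι ℂ)}
    (hiso : ∀ g ∈ G, g.1ᵀ * ψ * g.1 = ψ) {Z : Matrix ι ι ℂ}
    (hZ : Z ∈ lie (G : Set (GL ι ℂ))) : Zᵀ * ψ + ψ * Z = 0 := by
  refine Matrix.ext fun i j => ?_
  have hv : SubM.qp ψ i j + MvPolynomial.C (-ψ i j) ∈ van (G : Set (GL ι ℂ)) := by
    intro f hf
    rw [map_add, MvPolynomial.eval_C, SubM.eval_qp, hiso f hf, add_neg_cancel]
  have h2 := hZ 1 G.one_mem _ hv
  rw [GL2.tang_add, GL2.tang_C, SubM.tang_qp, add_zero] at h2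
  change (((Z * (1 : Matrix ι ι ℂ))ᵀ * ψ * (1 : Matrix ι ι ℂ)) + (1 : Matrix ι ι ℂ)ᵀ * ψ *
    (Z * (1 : Matrix ι ι ℂ))) i j = 0 at h2
  rw [Matrix.transpose_one, Matrix.one_mul, Matrix.mul_one, Matrix.mul_one] at h2
  exact h2

/-- the Lie algebra of a group which acts on `T` -/
theorem lie_sub {G : Subgroup (GL ι ℂ)} {T : Set (GL ι ℂ)} (h : ∀ g ∈ G, ∀ f ∈ T, g * f ∈ T)
    {Z : Matrix ι ι ℂ} (hZ : Z ∈ lie (G : Set (GL ι ℂ))) : Z ∈ lie T := by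
  intro f hf p hp
  have hq : GL2.lr 1 f.1 p ∈ van (G : Set (GL ι ℂ)) := by
    intro g hg
    have h1 := hp _ (h g hg f hf)
    rw [glmul] at h1
    rw [GL2.eval_lr, Matrix.one_mul]
    exact h1
  have h1 := hZ 1 G.one_mem _ hq
  rw [GL2.tang_lr] at h1
  have e1 : (1 : Matrix ι ι ℂ) * (1 : GL ι ℂ).1 * f.1 = f.1 := by
    rw [Units.val_one, Matrix.one_mul, Matrix.one_mul]
  have e2 : (1 : Matrix ι ι ℂ) * (Z * (1 : GL ι ℂ).1) * f.1 = Z * f.1 := by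
    rw [Units.val_one, Matrix.mul_one, Matrix.one_mul]
  rw [e1, e2] at h1
  exact h1

/-- Part 2 -/
theorem part2 (hLies : SpecLies) {ψ : Matrix ι ι ℚ} {w : ℤ} {G : Subgroup (GL ι ℂ)}
    {K : IntermediateField ℚ ℂ} {c : GL ι ℂ} (hK : K ≤ Qbar) (hG : IsSS G)
    (hiso : ∀ g ∈ G, g.1ᵀ * cx ψ * g.1 = cx ψ) (hmain : ∀ g ∈ G, g * c ∈ Tors.OmegaM K c)
    (ψdR : Matrix ι ι K) (S : Set (TPair K ι)) (hw : w ≠ 0) (hpol : Polarised w c ψdR ψ)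
    (hS : ∀ α ∈ S, Fixes c α) (hPS : polPair ψdR ψ ∈ S)
    (hO : ∀ f ∈ OmegaS S, ∃ (z : ℂ) (g : GL ι ℂ) (τ : ℂ ≃+* ℂ), g ∈ G ∧ FixesField K τ ∧
      f.1 = z • (g * tw τ c).1) :
    Tors.OmegaM K c = OmegaS S ∧ OmegaDRB K c = OmegaS S := by
  have h2pi : (2 * Real.pi * Complex.I : ℂ) ≠ 0 := Complex.two_pi_I_ne_zero
  have hϖ : (2 * Real.pi * Complex.I : ℂ) ^ w ≠ 0 := zpow_ne_zero _ h2pi
  have hsub : OmegaDRB K c ⊆ OmegaS S := drb_subset hS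
  have hMO := OmegaM_subset_OmegaDRB K c
  have hTor := isTorsor_OmegaM K c
  have hGeo : Geo (Tors.OmegaM K c) :=
    geo_of_torsor ⟨closedOver_mono hK hTor.closed, hTor.nonempty, hTor.heap⟩
  have hcT := mem_OmegaM_self K c
  -- similitudes
  have hsim : ∀ f ∈ Tors.OmegaM K c, ∃ z : ℂ, f.1ᵀ * cx ψ * f.1 = z • (c.1ᵀ * cx ψ * c.1) := by
    intro f hf
    obtain ⟨μ, hμ⟩ := GL2.sim_of_fixes hpol.1 (hsub (hMO hf) _ hPS)
    refine ⟨μ * ((2 * Real.pi * Complex.I : ℂ) ^ w)⁻¹, ?_⟩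
    have h1 : f.1ᵀ * cx ψ * f.1 = μ • ψdR.map (algebraMap K ℂ) := hμ
    have h2 : c.1ᵀ * cx ψ * c.1 = (2 * Real.pi * Complex.I : ℂ) ^ w • ψdR.map (algebraMap K ℂ) :=
      hpol.2
    rw [h1, h2, smul_smul, mul_assoc, inv_mul_cancel₀ hϖ, mul_one]
  have hlie := hLies ι ψ K G (Tors.OmegaM K c) c hpol.1 hG hiso hK hTor hcT
    (fun f hf => hO f (hsub (hMO hf))) hsim
  -- scalars
  have hnot : (2 * Real.pi * Complex.I : ℂ) ^ w ∉ Qbar := fun hmem => hw (two_pi_I_zpow hmem)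
  obtain ⟨δ', hδ'⟩ := GL2.exists_derivation hnot
  have hX := hGeo.deriv_mem hcT δ'
  have hXm := CF.MainM.log_deriv c ψ (ψdR.map (fun x => (x : ℂ))) (fun i j => hK (ψdR i j).2) _ hϖ
    hpol.2 δ'
  obtain ⟨t, ht⟩ := hlie _ hX
  set X := c.1.map δ' * c⁻¹.1 with hXdef
  set Y := X - t • (1 : Matrix ι ι ℂ) with hY
  -- the Lie algebra of `G` is contained in the Lie algebra of `T`
  have hGT : ∀ g ∈ G, ∀ f ∈ Tors.OmegaM K c, g * f ∈ Tors.OmegaM K c := by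
    intro g hg f hf
    have h1 := hTor.heap _ (hmain g hg) c hcT f hf
    have e : g * c * c⁻¹ * f = g * f := by group
    rwa [e] at h1
  have hYT : Y ∈ lie (Tors.OmegaM K c) := lie_sub hGT ht
  have hYi : Yᵀ * cx ψ + cx ψ * Y = 0 := lie_iso hiso ht
  have hsc : ∀ z : ℂˣ, ∀ f ∈ Tors.OmegaM K c, ∀ f' : GL ι ℂ, f'.1 = (z : ℂ) • f.1 →
      f' ∈ Tors.OmegaM K c := by
    rcases isEmpty_or_nonempty ι with hι | hι
    · intro z f hf f' hf'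
      have : f' = f := Units.ext (Matrix.ext fun i => (hι.false i).elim)
      rw [this]
      exact hf
    have ht0 : t ≠ 0 := by
      intro h0
      have h1 : X = Y := by rw [hY, h0, zero_smul, sub_zero]
      rw [h1, hYi] at hXm
      have h2 := (smul_eq_zero.1 hXm.symm).resolve_left (div_ne_zero hδ' hϖ)
      have h3 : (cx ψ).det = 0 := by
        rw [h2, det_zero]
      rw [CF.MainM.cx_det] at h3
      exact hpol.1 (by exact_mod_cast h3)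
    have h1 : (1 : Matrix ι ι ℂ) ∈ lie (Tors.OmegaM K c) := by
      have h2 : (1 : Matrix ι ι ℂ) = t⁻¹ • (X - Y) := by
        rw [hY, sub_sub_cancel, smul_smul, inv_mul_cancel₀ ht0, one_smul]
      rw [h2]
      exact Submodule.smul_mem _ _ (Submodule.sub_mem _ hX hYT)
    intro z f hf f' hf'
    have h2 := K3.specCurve ι (Tors.OmegaM K c) hGeo 1 h1 (gl 1) (K3.KCurM.gl_zero 1)
      (fun s i j => K3.KCurM.dv_gl 1 s i j) f hf (Complex.log z)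
    have h3 : (gl (1 : Matrix ι ι ℂ) (Complex.log z)).1 = (z : ℂ) • (1 : Matrix ι ι ℂ) := by
      change NormedSpace.exp ((Complex.log z) • (1 : Matrix ι ι ℂ)) = _
      rw [Matrix.smul_one_eq_diagonal, Matrix.exp_diagonal, Matrix.smul_one_eq_diagonal]
      congr 1
      funext i
      rw [Pi.coe_exp, ← Complex.exp_eq_exp_ℂ, Complex.exp_log z.ne_zero]
    have h4 : f' = gl (1 : Matrix ι ι ℂ) (Complex.log z) * f := by
      refine Units.ext ?_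
      rw [hf', glmul, h3, Matrix.smul_mul, Matrix.one_mul]
    rw [h4]
    exact h2
  have hsup : OmegaS S ⊆ Tors.OmegaM K c := by
    intro f hf
    obtain ⟨z, g, τ, hg, hτ, hfz⟩ := hO f hf
    have h1 : tw τ c ∈ Tors.OmegaM K c := hTor.closed.tw_mem hτ hcT
    have h2 := hGT g hg _ h1
    by_cases hz : z = 0
    · have h3 : IsEmpty ι := by
        by_contra hne
        rw [not_isEmpty_iff] at hne
        apply CF.MainM.det_unit f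
        rw [hfz, hz, zero_smul, det_zero]
      have : f = g * tw τ c := Units.ext (Matrix.ext fun i => (h3.false i).elim)
      rw [this]
      exact h2
    · exact hsc (Units.mk0 z hz) _ h2 f hfz
  exact ⟨Set.Subset.antisymm (hMO.trans hsub) hsup, Set.Subset.antisymm hsub (hsup.trans hMO)⟩

/-- the one-parameter group of an element of the Lie algebra -/
theorem gl_mem {G : Subgroup (GL ι ℂ)} (hG : ClosedOver ⊥ (G : Set (GL ι ℂ))) {X : Matrix ι ι ℂ}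
    (hX : X ∈ lie (G : Set (GL ι ℂ))) (t : ℂ) : gl X t ∈ G := by
  have hT : IsTorsor (⊥ : IntermediateField ℚ ℂ) (G : Set (GL ι ℂ)) :=
    ⟨hG, ⟨1, G.one_mem⟩, fun a ha b hb d hd => G.mul_mem (G.mul_mem ha (G.inv_mem hb)) hd⟩
  have h := K3.specCurve ι (G : Set (GL ι ℂ)) (SubM.geo hT) X hX (gl X) (K3.KCurM.gl_zero X)
    (fun s i j => K3.KCurM.dv_gl X s i j) 1 G.one_mem t
  rwa [mul_one] at h

/-- the theorem, from the stability of subspaces -/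
theorem assemble (hRel : SpecRel) (hTor : SpecTor) (hDeg : SpecDeg) (hNorm : SpecNorm)
    (hNrm : SpecNrm) (hGt : SpecGt) (hLies : SpecLies) {T : ℤ[X]} {B : Matrix (ι × ι) (ι × ι) ℤ[X]}
    {Y : Matrix ι ι ℚ⟦X⟧} {G G₀ : Subgroup (GL ι ℂ)} {ψ₀ ψ N₀ : Matrix ι ι ℚ} {C₀ : GL ι ℂ}
    (w : ℤ) (δ : ℕ) (hG : IsSS G) (hiso : ∀ g ∈ G, g.1ᵀ * cx ψ * g.1 = cx ψ) (hd : ψ.det ≠ 0)
    (hG₀ : ClosedOver ⊥ (G₀ : Set (GL ι ℂ))) (hGG : ∀ g, g ∈ G₀ ↔ C₀ * g * C₀⁻¹ ∈ G)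
    (hF : Fam T B Y G₀)
    (hC₀ : C₀.1ᵀ * cx ψ * C₀.1 = (2 * Real.pi * Complex.I) ^ w • cx ψ₀)
    (hN₀ : cx N₀ ∈ lie (G₀ : Set (GL ι ℂ)))
    (hSt : ∃ δ₀ : ℕ, ∀ D : ℕ, ∃ n : ℕ, ∀ (t : ℂ) (K : IntermediateField ℚ ℂ),
      FiniteDimensional ℚ K →
      ∀ y : GL ι ℂ, (∀ K' : IntermediateField ℚ ℂ, K ≤ K' → FiniteDimensional ℚ K' →
        Module.finrank ℚ K' ≤ Module.finrank ℚ K * δ₀ → HasRel K' n y.1 G₀) →
      ∀ R : GL ι ℂ, (∀ i j, R.1 i j ∈ K) → ∀ T, IsTorsor K T →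
        C₀ * gl (cx N₀) t * y * R ∈ T → Stab K (grp T) G D) :
    ∃ C : ℕ, ∀ a b : ℤ, a ≠ 0 → (C : ℤ) * |a| ^ C ≤ b →
      ∀ (K : IntermediateField ℚ ℂ), FiniteDimensional ℚ K → Module.finrank ℚ K ≤ δ →
      ∀ (R : Matrix ι ι K) (c : GL ι ℂ),
        c.1 = C₀.1 * NormedSpace.exp (Complex.log ((a : ℂ) / b) • cx N₀) *
          vm Y ((a : ℂ) / b) * R.map (fun x => (x : ℂ)) →
        (∀ g ∈ G, g * c ∈ Tors.OmegaM K c) ∧
        ∀ (ψdR : Matrix ι ι K) (S : Set (TPair K ι)), w ≠ 0 → Polarised w c ψdR ψ →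
          (∀ α ∈ S, Fixes c α) → polPair ψdR ψ ∈ S →
          (∀ f ∈ OmegaS S, ∃ (z : ℂ) (g : GL ι ℂ) (τ : ℂ ≃+* ℂ), g ∈ G ∧ FixesField K τ ∧
            f.1 = z • (g * tw τ c).1) →
          Tors.OmegaM K c = OmegaS S ∧ OmegaDRB K c = OmegaS S := by
  classical
  have h2pi : (2 * Real.pi * Complex.I : ℂ) ≠ 0 := Complex.two_pi_I_ne_zero
  have hϖ : (2 * Real.pi * Complex.I : ℂ) ^ w ≠ 0 := zpow_ne_zero _ h2pi
  obtain ⟨δ₀, hSt⟩ := hSt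
  obtain ⟨D, hD⟩ := hGt ι
  obtain ⟨n, hn⟩ := hSt D
  obtain ⟨r, p, hsep, halg⟩ := hF.tor
  choose e Ct hCt using fun a => hTor ι Y hF.g (p a) (halg a)
  set E : ℕ := ∑ a, e a with hE
  obtain ⟨N, hN⟩ := hNorm ι G₀ r p n ((δ * E ^ r) * δ₀) hG₀ (irred_conj hG hGG) hsep
  obtain ⟨Cr, hCr⟩ := hRel ι T B Y G₀ hF N
  refine ⟨Cr + ∑ a, Ct a, ?_⟩
  intro a b ha hb K hK hKδ R c hc
  have hmono : ∀ C' : ℕ, C' ≤ Cr + ∑ a, Ct a → (C' : ℤ) * |a| ^ C' ≤ b := fun C' h =>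
    CF.PolM.mono h ha hb
  have hrel := hCr a b ha (hmono _ (by omega))
  have hval : ∀ x, ∃ q : ℚ[X], q ≠ 0 ∧ q.natDegree ≤ E ∧
      aeval (MvPolynomial.aeval (fun v : ι × ι => vm Y ((a : ℂ) / b) v.1 v.2) (p x)) q = 0 := by
    intro x
    have h1 : Ct x ≤ ∑ a, Ct a :=
      Finset.single_le_sum (f := Ct) (fun _ _ => Nat.zero_le _) (Finset.mem_univ x)
    obtain ⟨q, hq, hq2, hq3⟩ := hCt x a b ha (hmono _ (by omega))
    have h2 : e x ≤ E := Finset.single_le_sum (f := e) (fun _ _ => Nat.zero_le _) (Finset.mem_univ x)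
    exact ⟨q, hq, hq2.trans h2, hq3⟩
  -- the logarithm
  set C₁ : GL ι ℂ := C₀ * gl (cx N₀) (Complex.log ((a : ℂ) / b)) with hC₁
  have hlog := gl_mem hG₀ hN₀ (Complex.log ((a : ℂ) / b))
  have hC₁v : C₁.1 = C₀.1 * NormedSpace.exp (Complex.log ((a : ℂ) / b) • cx N₀) := rfl
  have hGG₁ : ∀ g, g ∈ G₀ ↔ C₁ * g * C₁⁻¹ ∈ G := by
    intro g
    have e1 : C₁ * g * C₁⁻¹ = C₀ * (gl (cx N₀) (Complex.log ((a : ℂ) / b)) * g *
        (gl (cx N₀) (Complex.log ((a : ℂ) / b)))⁻¹) * C₀⁻¹ := by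
      rw [hC₁]
      group
    rw [e1, ← hGG]
    constructor
    · intro hg
      exact G₀.mul_mem (G₀.mul_mem hlog hg) (G₀.inv_mem hlog)
    · intro hg
      have h1 := G₀.mul_mem (G₀.mul_mem (G₀.inv_mem hlog) hg) hlog
      have e2 : (gl (cx N₀) (Complex.log ((a : ℂ) / b)))⁻¹ *
          (gl (cx N₀) (Complex.log ((a : ℂ) / b)) * g *
            (gl (cx N₀) (Complex.log ((a : ℂ) / b)))⁻¹) *
          gl (cx N₀) (Complex.log ((a : ℂ) / b)) = g := by group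
      rwa [e2] at h1
  have hC₁ψ : C₁.1ᵀ * cx ψ * C₁.1 = (2 * Real.pi * Complex.I) ^ w • cx ψ₀ := by
    have h1 := hiso _ ((hGG _).1 hlog)
    have e1 : C₁.1 = (C₀ * gl (cx N₀) (Complex.log ((a : ℂ) / b)) * C₀⁻¹).1 * C₀.1 := by
      have : C₁ = C₀ * gl (cx N₀) (Complex.log ((a : ℂ) / b)) * C₀⁻¹ * C₀ := by
        rw [hC₁]
        group
      exact congrArg Units.val this
    rw [e1, ← hC₀]
    generalize (C₀ * gl (cx N₀) (Complex.log ((a : ℂ) / b)) * C₀⁻¹).1 = A at h1 ⊢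
    calc (A * C₀.1)ᵀ * cx ψ * (A * C₀.1) = C₀.1ᵀ * (Aᵀ * cx ψ * A) * C₀.1 := by
          rw [Matrix.transpose_mul]
          simp only [Matrix.mul_assoc]
      _ = _ := by rw [h1]
  -- invertible matrices
  rw [← hC₁v] at hc
  have hdet : (C₁.1 * vm Y ((a : ℂ) / b) * R.map (fun x => (x : ℂ))).det ≠ 0 := by
    rw [← hc]
    exact CF.MainM.det_unit c
  rw [det_mul, det_mul] at hdet
  have hyd : (vm Y ((a : ℂ) / b)).det ≠ 0 := right_ne_zero_of_mul (left_ne_zero_of_mul hdet)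
  have hRd : (R.map (fun x => (x : ℂ))).det ≠ 0 := right_ne_zero_of_mul hdet
  obtain ⟨y, hy⟩ : ∃ y : GL ι ℂ, y.1 = vm Y ((a : ℂ) / b) :=
    ⟨Matrix.GeneralLinearGroup.mkOfDetNeZero _ hyd, rfl⟩
  obtain ⟨R', hR'⟩ : ∃ R' : GL ι ℂ, R'.1 = R.map (fun x => (x : ℂ)) :=
    ⟨Matrix.GeneralLinearGroup.mkOfDetNeZero _ hRd, rfl⟩
  rw [← hy] at hrel hc
  rw [← hR'] at hc
  have hc' : c = C₁ * y * R' := Units.ext hc
  -- the field
  obtain ⟨L, hKL, hLf, hxL, hLd⟩ := hDeg r E K hK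
    (fun x => MvPolynomial.aeval (en y.1) (p x)) (fun x => by
      obtain ⟨q, hq, hq2, hq3⟩ := hval x
      refine ⟨q, hq, hq2, ?_⟩
      rw [← hy] at hq3
      exact hq3)
  have hLQ : L ≤ Qbar := CF.MainM.le_Qbar L
  have hKQ : K ≤ Qbar := hKL.trans hLQ
  have hLδ : Module.finrank ℚ L ≤ δ * E ^ r := hLd.trans (Nat.mul_le_mul_right _ hKδ)
  have hRL : ∀ i j, R'.1 i j ∈ L := by
    intro i j
    rw [hR']
    exact hKL (R i j).2
  have hyτ : ∀ τ, FixesField L τ → tw τ y * y⁻¹ ∈ G₀ := by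
    intro τ hτ
    refine (hsep y (tw τ y)).2 fun x => ?_
    have h1 := aeval_fix τ (p x) y
    have h2 : τ (MvPolynomial.aeval (en y.1) (p x)) = MvPolynomial.aeval (en y.1) (p x) :=
      hτ _ (hxL x)
    rw [h2] at h1
    exact h1
  have hstab : ∀ T', IsTorsor L T' → C₁ * y * R' ∈ T' → Stab L (grp T') G D := by
    refine hn _ L hLf y ?_ R' hRL
    intro K' hLK' hK' hK'd
    exact hN y K' hK' (hK'd.trans (Nat.mul_le_mul_right _ hLδ)) (fun x => hLK' (hxL x)) hrel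
  have h1 : ∀ g ∈ G, g * c ∈ Tors.OmegaM K c := by
    intro g hg T' hT' hcT'
    rw [hc'] at hcT' ⊢
    exact fibre hNrm hD hKL hLQ hd hϖ hG hiso hG₀ hGG₁ hC₁ψ hyτ hRL hstab hT' hcT' g hg
  refine ⟨h1, ?_⟩
  intro ψdR S hw hpol hS hPS hO
  exact part2 hLies hKQ hG hiso h1 ψdR S hw hpol hS hPS hO

end Pool.Agent.Lib.MPf11a48.CG.MainM

namespace Pool.Agent.Lib.MPf11a48.CG

open Polynomial Matrix
open scoped PowerSeries
open Pool.Agent.Lib.MPf11a48.Tors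
open Pool.Agent.Lib.MPf11a48.CM hiding OmegaM
open Pool.Agent.Lib.MPf11a48.GL2 (lie van en Geo)
open Pool.Agent.Lib.MPf11a48.K3 (cx)
open Pool.Agent.Lib.MPf11a48.K3.KCurM (gl)

theorem main (hRel : SpecRel) (hTor : SpecTor) (hDeg : SpecDeg) (hNorm : SpecNorm)
    (hNrm : SpecNrm) (hGt : SpecGt) (hLies : SpecLies) (hSt : SpecSt) (hSt2 : SpecSt2) :
    Statement := by
  intro ι _ _ T B Y G G₀ ψ₀ ψ N C₀ w δ hG hiso hd hG₀ hGG hF hC₀ hN hN' h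
  refine MainM.assemble hRel hTor hDeg hNorm hNrm hGt hLies w δ hG hiso hd hG₀ hGG hF hC₀ hN' ?_
  rcases h with h | ⟨rfl, P, Q, s, hPQ, hP, hQ, hs⟩
  · refine ⟨1, fun D => ?_⟩
    obtain ⟨n, hn⟩ := hSt2 ι C₀ N G G₀ hG hG₀ hGG hN hN' h D
    refine ⟨n, fun t K hK y hrel R hR T hT hc => hn t K hK y ?_ R hR T hT hc⟩
    exact hrel K le_rfl hK (by rw [mul_one])
  · obtain ⟨δ₀, hδ₀⟩ := hSt ι C₀ P Q s G G₀ hG hGG hPQ hP hQ hs
    refine ⟨δ₀, fun D => ⟨Fintype.card ι ^ D * D, fun t K hK y hrel R hR T hT hc => ?_⟩⟩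
    refine hδ₀ D K hK y hrel R hR T hT ?_
    have e : gl (cx (0 : Matrix ι ι ℚ)) t = 1 := by
      refine Units.ext ?_
      change NormedSpace.exp (t • cx (0 : Matrix ι ι ℚ)) = 1
      have h0 : cx (0 : Matrix ι ι ℚ) = 0 := by
        refine Matrix.ext fun i j => ?_
        change ((0 : ℚ) : ℂ) = 0
        exact Rat.cast_zero
      rw [h0, smul_zero, NormedSpace.exp_zero]
    rw [e, mul_one] at hc
    exact hc

end Pool.Agent.Lib.MPf11a48.CG
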