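import Pool.Agent.Lib.MP_f11a48_ag.CG.SpecP
import Pool.Agent.Lib.MP_f11a48_ag.CG.Main
import Pool.Agent.Lib.MP_f11a48_ag.CF.Rel

/-!
# The theorem without Galochkin's condition, from the theorem with Galochkin's condition
-/

set_option autoImplicit false
set_option linter.unusedSectionVars false

namespace Pool.Agent.Lib.MPf11a48.CG.MainPM

open Polynomial Matrix
open scoped PowerSeries
open Pool.Agent.Lib.MPf11a48.GF Pool.Agent.Lib.MPf11a48.GF.EstM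
open Pool.Agent.Lib.MPf11a48.CF (vm)
open Pool.Agent.Lib.MPf11a48.K3 (cx)

variable {ι : Type} [Fintype ι] [DecidableEq ι]

/-- the value of the determinant -/
theorem pval_det {Y : Matrix ι ι ℚ⟦X⟧} {z : ℂ} (h : ∀ i j, Sm (Y i j) z) :
    pval Y.det z = (vm Y z).det := by
  have h1 : ∀ σ : Equiv.Perm ι, Sm (∏ i, Y (σ i) i) z ∧
      pval (∏ i, Y (σ i) i) z = ∏ i, pval (Y (σ i) i) z := fun σ =>
    QuaM.Sm.prod specEval Finset.univ (fun i _ => h (σ i) i)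
  have h2 : ∀ σ : Equiv.Perm ι, Sm (((Equiv.Perm.sign σ : ℤ) : ℚ⟦X⟧) * ∏ i, Y (σ i) i) z ∧
      pval (((Equiv.Perm.sign σ : ℤ) : ℚ⟦X⟧) * ∏ i, Y (σ i) i) z =
        ((Equiv.Perm.sign σ : ℤ) : ℂ) * ∏ i, vm Y z (σ i) i := by
    intro σ
    have h3 := CF.RelM.pval_C_mul (h1 σ).1 ((Equiv.Perm.sign σ : ℤ) : ℚ)
    rw [map_intCast, (h1 σ).2] at h3
    refine ⟨h3.1, ?_⟩
    rw [h3.2, Rat.cast_intCast]
    rfl
  rw [Matrix.det_apply', Matrix.det_apply', CF.RelM.pval_sum _ fun σ _ => (h2 σ).1]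
  exact Finset.sum_congr rfl fun σ _ => (h2 σ).2

/-- the form on the fibre at `0` is nondegenerate -/
theorem det_ne {ψ₀ ψ : Matrix ι ι ℚ} {C₀ : GL ι ℂ} {ϖ : ℂ}
    (h : C₀.1ᵀ * cx ψ * C₀.1 = ϖ • cx ψ₀) (hd : ψ.det ≠ 0) : ψ₀.det ≠ 0 := by
  intro h0
  have h1 := congrArg Matrix.det h
  rw [det_mul, det_mul, det_transpose, det_smul, CF.MainM.cx_det, CF.MainM.cx_det, h0,
    Rat.cast_zero, mul_zero] at h1
  have h2 : C₀.1.det ≠ 0 := CF.MainM.det_unit C₀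
  have h3 : ((ψ.det : ℚ) : ℂ) ≠ 0 := by exact_mod_cast hd
  exact mul_ne_zero (mul_ne_zero h2 h3) h2 h1

end Pool.Agent.Lib.MPf11a48.CG.MainPM

namespace Pool.Agent.Lib.MPf11a48.CG

open Polynomial Matrix
open scoped PowerSeries
open Pool.Agent.Lib.MPf11a48.GF Pool.Agent.Lib.MPf11a48.GF.EstM
open Pool.Agent.Lib.MPf11a48.K3 (cx)

theorem mainP (h : Statement) (hG : SpecGalx) : StatementP := by
  intro ι _ _ T B Y G G₀ ψ₀ ψ N C₀ w δ hSS hiso hd hG₀ hGG hF hC₀ hN hN' hcase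
  by_cases hY : Y.det = 0
  · obtain ⟨C, hC⟩ := hF.g
    have hE := specEval
    refine ⟨2 * C + 1, fun a b ha hb K hK hKδ R c hc => ?_⟩
    exfalso
    have hs := CF.PolM.smallC (by omega) ha hb
    have hsm : ∀ i j, Sm (Y i j) ((a : ℂ) / b) := by
      intro i j
      refine hE.1 _ C _ (fun n => ?_) ?_
      · obtain ⟨q, -, -, -, hq⟩ := hC n
        exact hq (i, j)
      · refine le_trans (mul_le_mul_of_nonneg_right ?_ (norm_nonneg _)) hs
        push_cast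
        linarith
    have h1 := MainPM.pval_det hsm
    rw [hY] at h1
    have h2 : pval (0 : ℚ⟦X⟧) ((a : ℂ) / b) = 0 := by
      unfold pval
      simp
    rw [h2] at h1
    apply CF.MainM.det_unit c
    rw [hc, det_mul, det_mul, ← h1, mul_zero, zero_mul]
  · obtain ⟨T₂, B₂, hF₂⟩ := hG ι T B N ψ₀ Y G₀ hF hN (MainPM.det_ne hC₀ hd) hY
    exact h ι T₂ B₂ Y G G₀ ψ₀ ψ N C₀ w δ hSS hiso hd hG₀ hGG hF₂ hC₀ hN hN' hcase

end Pool.Agent.Lib.MPf11a48.CG
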