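import Pool.Agent.Lib.MP_f11a48_ag.CG.Spec
import Pool.Agent.Lib.MP_f11a48_ag.CF.Mono

/-!
# Module MONOD: polynomial relations of bounded degree between the values of the components of a
solution come from relations between the functions
-/

set_option autoImplicit false

namespace Pool.Agent.Lib.MPf11a48.CG.MonodM

open Polynomial Matrix
open scoped PowerSeries
open Pool.Agent.Lib.MPf11a48.GF
open Pool.Agent.Lib.MPf11a48.CF (vm)
open Pool.Agent.Lib.MPf11a48.CF.MonoM (dd_zero sm_of mono value toG)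

variable {μ : Type} [Fintype μ] [DecidableEq μ]

/-! ### homogeneous relations -/

/-- relations of degree `n`, from LIFT -/
theorem monoV (hL : CF.SpecLift) (T : ℤ[X]) (B : Matrix μ μ ℤ[X]) (v : μ → ℚ⟦X⟧) (hT : T ≠ 0)
    (hgal : IsGal T B) (hsol : IsSol (zq T) (B.map zq) v) (hg : IsG v) (n : ℕ) :
    ∃ C : ℕ, ∀ a b : ℤ, a ≠ 0 → (C : ℤ) * |a| ^ C ≤ b →
      ∀ F : MvPolynomial μ ℚ, F.IsHomogeneous n →
        MvPolynomial.aeval (fun i => pval (v i) ((a : ℂ) / b)) F = 0 →
        ∃ G : MvPolynomial μ ℚ[X], peval v G = 0 ∧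
          G.map (Polynomial.evalRingHom ((a : ℚ) / b)) = F := by
  classical
  have hfin : Finite {J : μ →₀ ℕ // J.degree = n} :=
    Set.Finite.subset (Finsupp.finite_of_degree_le (σ := μ) n) fun J hJ => le_of_eq hJ
  let _ : Fintype {J : μ →₀ ℕ // J.degree = n} := Fintype.ofFinite _
  obtain ⟨⟨B', hG, hS⟩, hu⟩ := specSym μ T B (fun _ => v) n inferInstance
    hgal (fun _ => hsol) (fun _ => hg)
  obtain ⟨C1, hC1⟩ := hL _ T B' _ hT hG hS hu
  obtain ⟨C2, hC2⟩ := sm_of hg
  refine ⟨C1 + C2, fun a b ha hb F hF h0 => ?_⟩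
  have hv := hC2 a b ha (mono (by omega) ha hb)
  have hval := value n v F hF _ hv h0
  obtain ⟨P, hP0, hP1⟩ := hC1 a b ha (mono (by omega) ha hb) _ hval
  refine toG n v F hF ((a : ℚ) / b) P hP0 (fun K => ?_) fun K => ?_
  · rw [hP1 (0, K)]
    exact if_pos rfl
  · rw [hP1 (1, K)]
    exact if_neg (show ¬ (1 : Fin 2) = 0 by decide)

/-! ### an additional constant function -/

/-- the solution with an additional constant component -/
noncomputable def vp (v : μ → ℚ⟦X⟧) : μ ⊕ Unit → ℚ⟦X⟧ := Sum.elim v fun _ => 1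

/-- the system with an additional trivial system of rank one -/
noncomputable def Bp {R : Type*} [Zero R] (B : Matrix μ μ R) : Matrix (μ ⊕ Unit) (μ ⊕ Unit) R :=
  fromBlocks B 0 0 0

omit [Fintype μ] [DecidableEq μ] in
theorem map_Bp (B : Matrix μ μ ℤ[X]) : (Bp B).map zq = Bp (B.map zq) := by
  ext i j
  rcases i with i | i <;> rcases j with j | j <;> simp [Bp]

omit [DecidableEq μ] in
theorem dd_inl (T : ℚ[X]) (B : Matrix μ μ ℚ[X]) (P : μ ⊕ Unit → ℚ[X]) (k : ℕ) (j : μ) :
    dd T (Bp B) P k (Sum.inl j) = dd T B (fun i => P (Sum.inl i)) k j := by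
  induction k generalizing j with
  | zero => rfl
  | succ k ih =>
    simp only [dd, del]
    rw [ih j, Fintype.sum_sum_type]
    simp only [Bp, fromBlocks_apply₁₁, fromBlocks_apply₂₁, Matrix.zero_apply, mul_zero,
      Finset.sum_const_zero, add_zero]
    simp only [Bp] at ih
    rw [Finset.sum_congr rfl fun i _ => by rw [ih i]]

omit [DecidableEq μ] in
theorem dd_inr (T : ℚ[X]) (B : Matrix μ μ ℚ[X]) (P : μ ⊕ Unit → ℚ[X]) (u : Unit)
    (hP : derivative (P (Sum.inr u)) = 0) (k : ℕ) :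
    dd T (Bp B) P k (Sum.inr u) = if k = 0 then P (Sum.inr u) else 0 := by
  induction k with
  | zero => simp [dd]
  | succ k ih =>
    simp only [dd, del]
    rw [ih, Fintype.sum_sum_type]
    simp only [Bp, fromBlocks_apply₁₂, fromBlocks_apply₂₂, Matrix.zero_apply, mul_zero,
      Finset.sum_const_zero, add_zero]
    by_cases hk : k = 0
    · subst hk
      simp [hP]
    · simp [hk]

theorem gal (T : ℤ[X]) (B : Matrix μ μ ℤ[X]) (h : IsGal T B) : IsGal T (Bp B) := by
  obtain ⟨C, hC⟩ := h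
  refine ⟨C, fun n => ?_⟩
  obtain ⟨q, hq, hqC, hk⟩ := hC n
  refine ⟨q, hq, hqC, fun k hkn i j => ?_⟩
  rw [map_Bp]
  rcases j with j | j
  · rw [dd_inl]
    rcases i with i | i
    · have e : (fun i' : μ => (Pi.single (Sum.inl i) 1 : μ ⊕ Unit → ℚ[X]) (Sum.inl i')) =
          Pi.single i 1 := by
        funext i'
        by_cases hi : i' = i
        · subst hi; simp
        · rw [Pi.single_eq_of_ne hi, Pi.single_eq_of_ne (by simpa using hi)]
      rw [e]
      exact hk k hkn i j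
    · have e : (fun i' : μ => (Pi.single (Sum.inr i) 1 : μ ⊕ Unit → ℚ[X]) (Sum.inl i')) = 0 := by
        funext i'
        rw [Pi.single_eq_of_ne (by simp)]
        rfl
      rw [e, dd_zero]
      exact ⟨0, by simp⟩
  · have hc : ∃ c : ℤ, (Pi.single i 1 : μ ⊕ Unit → ℚ[X]) (Sum.inr j) = zq (Polynomial.C c) := by
      by_cases hi : Sum.inr j = i
      · subst hi
        exact ⟨1, by simp⟩
      · rw [Pi.single_eq_of_ne hi]
        exact ⟨0, by simp⟩
    obtain ⟨c, hc⟩ := hc
    rw [dd_inr _ _ _ _ (by rw [hc]; simp)]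
    by_cases hk0 : k = 0
    · rw [if_pos hk0, hc]
      exact ⟨(q : ℤ[X]) * Polynomial.C c, by simp⟩
    · rw [if_neg hk0]
      exact ⟨0, by simp⟩

omit [DecidableEq μ] in
theorem sol (T : ℚ[X]) (B : Matrix μ μ ℤ[X]) (v : μ → ℚ⟦X⟧) (h : IsSol T (B.map zq) v) :
    IsSol T ((Bp B).map zq) (vp v) := by
  rw [map_Bp]
  intro i
  rw [Fintype.sum_sum_type]
  rcases i with i | i
  · simp only [Bp, fromBlocks_apply₁₁, fromBlocks_apply₁₂, Matrix.zero_apply,
      Polynomial.coe_zero, zero_mul, Finset.sum_const_zero, add_zero]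
    exact h i
  · simp only [Bp, fromBlocks_apply₂₁, fromBlocks_apply₂₂, Matrix.zero_apply,
      Polynomial.coe_zero, zero_mul, Finset.sum_const_zero, add_zero]
    have h1 : PowerSeries.derivative ℚ (1 : ℚ⟦X⟧) = 0 := Derivation.map_one_eq_zero _
    simp only [vp, Sum.elim_inr]
    rw [h1, mul_zero]

omit [Fintype μ] [DecidableEq μ] in
theorem isG (v : μ → ℚ⟦X⟧) (h : IsG v) : IsG (vp v) := by
  obtain ⟨C, hC⟩ := h
  have hC1 : 1 ≤ C := by
    obtain ⟨q, hq, hqC, -⟩ := hC 0
    simp at hqC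
    omega
  refine ⟨C, fun n => ?_⟩
  obtain ⟨q, hq, hqC, hi, hs⟩ := hC n
  refine ⟨q, hq, hqC, ?_, ?_⟩
  · rintro (i | i) m hm
    · exact hi i m hm
    · refine ⟨if m = 0 then q else 0, ?_⟩
      simp only [vp, Sum.elim_inr]
      rw [PowerSeries.coeff_one]
      split_ifs <;> simp
  · rintro (i | i)
    · exact hs i
    · simp only [vp, Sum.elim_inr]
      rw [PowerSeries.coeff_one]
      have h1 : (1 : ℚ) ≤ (C : ℚ) ^ (n + 1) := one_le_pow₀ (by exact_mod_cast hC1)
      split_ifs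
      · simpa using h1
      · simp only [abs_zero]
        positivity

theorem pval_one (z : ℂ) : pval 1 z = 1 := by
  unfold pval
  rw [tsum_eq_single 0]
  · simp
  · intro k hk
    rw [PowerSeries.coeff_one, if_neg hk]
    simp

/-! ### homogenisation -/

/-- the homogenisation -/
noncomputable def hom (n : ℕ) (F : MvPolynomial μ ℚ) : MvPolynomial (μ ⊕ Unit) ℚ :=
  ∑ i ∈ Finset.range (n + 1), MvPolynomial.rename Sum.inl (MvPolynomial.homogeneousComponent i F) *
    MvPolynomial.X (Sum.inr ()) ^ (n - i)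

omit [Fintype μ] [DecidableEq μ] in
theorem hom_hom (n : ℕ) (F : MvPolynomial μ ℚ) : (hom n F).IsHomogeneous n := by
  refine MvPolynomial.IsHomogeneous.sum _ _ _ fun i hi => ?_
  have hi' : i ≤ n := by
    have := Finset.mem_range.mp hi
    omega
  have h1 : (MvPolynomial.rename Sum.inl (MvPolynomial.homogeneousComponent i F) :
      MvPolynomial (μ ⊕ Unit) ℚ).IsHomogeneous i :=
    (MvPolynomial.homogeneousComponent_isHomogeneous i F).rename_isHomogeneous
  have h2 : ((MvPolynomial.X (Sum.inr ()) :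
      MvPolynomial (μ ⊕ Unit) ℚ) ^ (n - i)).IsHomogeneous (n - i) := by
    have := (MvPolynomial.isHomogeneous_X ℚ (Sum.inr () : μ ⊕ Unit)).pow (n - i)
    rwa [one_mul] at this
  have h3 := h1.mul h2
  rwa [Nat.add_sub_cancel' hi'] at h3

omit [Fintype μ] [DecidableEq μ] in
theorem sum_hc (n : ℕ) (F : MvPolynomial μ ℚ) (hF : F.totalDegree ≤ n) :
    ∑ i ∈ Finset.range (n + 1), MvPolynomial.homogeneousComponent i F = F := by
  conv_rhs => rw [← MvPolynomial.sum_homogeneousComponent F]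
  refine (Finset.sum_subset (Finset.range_mono (by omega)) fun i _ hi => ?_).symm
  refine MvPolynomial.homogeneousComponent_eq_zero _ _ ?_
  simp only [Finset.mem_range] at hi
  omega

omit [Fintype μ] [DecidableEq μ] in
/-- dehomogenisation -/
theorem deh {S : Type*} [CommRing S] [Algebra ℚ S] (n : ℕ) (F : MvPolynomial μ ℚ)
    (hF : F.totalDegree ≤ n) (w : μ ⊕ Unit → S) (hw : w (Sum.inr ()) = 1) :
    MvPolynomial.aeval w (hom n F) = MvPolynomial.aeval (fun v => w (Sum.inl v)) F := by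
  unfold hom
  rw [map_sum]
  conv_rhs => rw [← sum_hc n F hF, map_sum]
  refine Finset.sum_congr rfl fun i _ => ?_
  rw [map_mul, map_pow, MvPolynomial.aeval_X, hw, one_pow, mul_one, MvPolynomial.aeval_rename]
  rfl

/-- the substitution -/
noncomputable def sg (R : Type) [CommSemiring R] : μ ⊕ Unit → MvPolynomial μ R :=
  Sum.elim MvPolynomial.X fun _ => 1

omit [Fintype μ] [DecidableEq μ] in
theorem eval_sg (v : μ → ℚ⟦X⟧) (x : μ ⊕ Unit) :
    MvPolynomial.eval₂Hom (Polynomial.coeToPowerSeries.ringHom (R := ℚ)) v (sg ℚ[X] x) =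
      vp v x := by
  rcases x with i | i
  · simp [sg, vp]
  · simp only [sg, vp, Sum.elim_inr, map_one]

omit [Fintype μ] [DecidableEq μ] in
theorem map_sg (ξ : ℚ) (x : μ ⊕ Unit) :
    MvPolynomial.map (Polynomial.evalRingHom ξ) (sg ℚ[X] x) = sg ℚ x := by
  rcases x with i | i <;> simp [sg]

end Pool.Agent.Lib.MPf11a48.CG.MonodM

namespace Pool.Agent.Lib.MPf11a48.CG

open Polynomial Matrix
open scoped PowerSeries
open Pool.Agent.Lib.MPf11a48.GF

open MonodM in
theorem specMonoD (hL : CF.SpecLift) : SpecMonoD := by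
  intro μ _ _ T B v hT hgal hsol hg n
  obtain ⟨C, hC⟩ := monoV hL T (Bp B) (vp v) hT (gal T B hgal) (sol _ B v hsol) (isG v hg) n
  refine ⟨C, fun a b ha hb F hF h0 => ?_⟩
  obtain ⟨G, hG, hGF⟩ := hC a b ha hb (hom n F) (hom_hom n F) (by
    rw [deh n F hF _ (by
      simp only [vp, Sum.elim_inr]
      exact pval_one _)]
    exact h0)
  refine ⟨MvPolynomial.bind₁ (sg ℚ[X]) G, ?_, ?_⟩
  · change MvPolynomial.eval₂Hom _ _ _ = 0
    rw [MvPolynomial.eval₂Hom_bind₁]
    have : (fun x => MvPolynomial.eval₂Hom (Polynomial.coeToPowerSeries.ringHom (R := ℚ)) v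
        (sg ℚ[X] x)) = vp v := by
      funext x
      exact eval_sg v x
    rw [this]
    exact hG
  · rw [MvPolynomial.map_bind₁, hGF]
    have : (fun x => MvPolynomial.map (Polynomial.evalRingHom ((a : ℚ) / b)) (sg ℚ[X] x)) =
        sg (μ := μ) ℚ := by
      funext x
      exact map_sg _ x
    rw [this]
    have h2 := deh n F hF (sg (μ := μ) ℚ) rfl
    change MvPolynomial.aeval _ _ = F
    rw [h2]
    have h3 : (fun v : μ => sg (μ := μ) ℚ (Sum.inl v)) = MvPolynomial.X := by
      funext v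
      rfl
    rw [h3, MvPolynomial.aeval_X_left_apply]

end Pool.Agent.Lib.MPf11a48.CG
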