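import Pool.Agent.Lib.MP_f11a48_ag.CG.Spec
import Pool.Agent.Lib.MP_f11a48_ag.CF.Norm

/-!
# Families near an object of CM type, NORM: relations over number fields
-/

set_option autoImplicit false

namespace Pool.Agent.Lib.MPf11a48.CG

open Matrix
open Pool.Agent.Lib.MPf11a48.GL2 (van en)
open Pool.Agent.Lib.MPf11a48.CF.IrrM (ev tr ev_tr)
open Pool.Agent.Lib.MPf11a48.CF.NormM (exists_aut cj)

namespace NormM

/-- the degree of the image of a polynomial -/
theorem totalDegree_map_le {ν R R' : Type} [CommSemiring R] [CommSemiring R'] (f : R →+* R')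
    (p : MvPolynomial ν R) : (p.map f).totalDegree ≤ p.totalDegree := by
  unfold MvPolynomial.totalDegree
  exact Finset.sup_mono (MvPolynomial.support_map_subset f p)

/-- the degree of a polynomial in polynomials -/
theorem totalDegree_aeval_le {μ ν : Type} [Fintype μ] (p : μ → MvPolynomial ν ℚ) (M : ℕ)
    (hp : ∀ a, (p a).totalDegree ≤ M) (u : MvPolynomial μ ℚ) :
    (MvPolynomial.aeval p u).totalDegree ≤ u.totalDegree * M := by
  rw [MvPolynomial.aeval_def, MvPolynomial.eval₂_eq']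
  refine MvPolynomial.totalDegree_finsetSum_le fun m hm => ?_
  refine (MvPolynomial.totalDegree_mul _ _).trans ?_
  have h0 : (algebraMap ℚ (MvPolynomial ν ℚ) (MvPolynomial.coeff m u)).totalDegree = 0 :=
    MvPolynomial.totalDegree_C _
  rw [h0, zero_add]
  refine (MvPolynomial.totalDegree_finsetProd _ _).trans ?_
  have h1 : ∀ a ∈ (Finset.univ : Finset μ), (p a ^ m a).totalDegree ≤ m a * M := fun a _ =>
    (MvPolynomial.totalDegree_pow _ _).trans (Nat.mul_le_mul_left _ (hp a))
  refine (Finset.sum_le_sum h1).trans ?_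
  rw [← Finset.sum_mul]
  refine Nat.mul_le_mul_right _ ?_
  have h2 := MvPolynomial.le_totalDegree hm
  rw [Finsupp.sum_fintype _ _ (fun _ => rfl)] at h2
  exact h2

/-- elements of a field generated by numbers of bounded degree are polynomials of bounded degree -/
theorem exists_poly (r δ : ℕ) (x : Fin r → ℂ)
    (hx : ∀ a, IsIntegral ℚ (x a) ∧ (minpoly ℚ (x a)).natDegree ≤ δ) (c : ℂ)
    (hc : c ∈ IntermediateField.adjoin ℚ (Set.range x)) :
    ∃ u : MvPolynomial (Fin r) ℚ, u.totalDegree ≤ r * δ ∧ MvPolynomial.aeval x u = c := by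
  have hc' : c ∈ Algebra.adjoin ℚ (Set.range x) := by
    have h1 : (IntermediateField.adjoin ℚ (Set.range x)).toSubalgebra =
        Algebra.adjoin ℚ (Set.range x) := by
      refine IntermediateField.adjoin_toSubalgebra_of_isAlgebraic ?_
      rintro _ ⟨a, rfl⟩
      exact (hx a).1.isAlgebraic
    rw [← h1]
    exact hc
  rw [Algebra.adjoin_range_eq_range_aeval] at hc'
  obtain ⟨v, hv⟩ := hc'
  let q : Fin r → ℕ → Polynomial ℚ := fun a m => (Polynomial.X ^ m) %ₘ minpoly ℚ (x a)
  have hq1 : ∀ a m, (q a m).natDegree ≤ δ := by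
    intro a m
    exact ((Polynomial.natDegree_modByMonic_le _ (minpoly.monic (hx a).1)).trans (hx a).2)
  have hq2 : ∀ a m, Polynomial.aeval (x a) (q a m) = x a ^ m := by
    intro a m
    have h := minpoly.aeval ℚ (x a)
    have := Polynomial.aeval_modByMonic_eq_self_of_root (p := Polynomial.X ^ m) h
    rw [this]
    simp
  refine ⟨∑ m ∈ v.support, MvPolynomial.C (v.coeff m) *
    ∏ a, Polynomial.aeval (MvPolynomial.X a : MvPolynomial (Fin r) ℚ) (q a (m a)), ?_, ?_⟩
  · refine MvPolynomial.totalDegree_finsetSum_le fun m _ => ?_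
    refine (MvPolynomial.totalDegree_mul _ _).trans ?_
    rw [MvPolynomial.totalDegree_C, zero_add]
    refine (MvPolynomial.totalDegree_finsetProd _ _).trans ?_
    have h1 : ∀ a ∈ (Finset.univ : Finset (Fin r)),
        (Polynomial.aeval (MvPolynomial.X a : MvPolynomial (Fin r) ℚ) (q a (m a))).totalDegree
          ≤ δ := by
      intro a _
      rw [Polynomial.aeval_eq_sum_range]
      refine MvPolynomial.totalDegree_finsetSum_le fun i hi => ?_
      refine (MvPolynomial.totalDegree_smul_le _ _).trans ?_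
      refine (MvPolynomial.totalDegree_pow _ _).trans ?_
      rw [MvPolynomial.totalDegree_X, mul_one]
      have := Finset.mem_range.1 hi
      have := hq1 a (m a)
      omega
    refine (Finset.sum_le_sum h1).trans ?_
    simp
  · rw [map_sum]
    have hv' : MvPolynomial.aeval x v = c := hv
    rw [← hv', MvPolynomial.aeval_def, MvPolynomial.eval₂_eq']
    refine Finset.sum_congr rfl fun m _ => ?_
    rw [map_mul, MvPolynomial.aeval_C]
    congr 1
    rw [map_prod]
    refine Finset.prod_congr rfl fun a _ => ?_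
    rw [← Polynomial.aeval_algHom_apply, MvPolynomial.aeval_X, hq2]

variable {ι : Type} [Fintype ι] [DecidableEq ι]

omit [DecidableEq ι] in
/-- a polynomial whose coefficients are polynomials in invariants -/
theorem exists_inv {r : ℕ} (p : Fin r → MvPolynomial (ι × ι) ℚ) (M d e : ℕ)
    (hp : ∀ a, (p a).totalDegree ≤ M) (y : Matrix ι ι ℂ) (F : MvPolynomial (ι × ι) ℂ)
    (hF : F.totalDegree ≤ e)
    (hc : ∀ J, ∃ u : MvPolynomial (Fin r) ℚ, u.totalDegree ≤ d ∧
      MvPolynomial.aeval (fun a => MvPolynomial.aeval (en y) (p a)) u = F.coeff J) :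
    ∃ W : MvPolynomial (ι × ι) ℚ, W.totalDegree ≤ d * M + e ∧ ∀ z : Matrix ι ι ℂ,
      (∀ a, MvPolynomial.aeval (en z) (p a) = MvPolynomial.aeval (en y) (p a)) →
      MvPolynomial.aeval (en z) W = ev z F := by
  choose u hu hu' using hc
  refine ⟨∑ J ∈ F.support, MvPolynomial.aeval p (u J) * MvPolynomial.monomial J 1, ?_, ?_⟩
  · refine MvPolynomial.totalDegree_finsetSum_le fun J hJ => ?_
    refine (MvPolynomial.totalDegree_mul _ _).trans ?_
    refine add_le_add ((totalDegree_aeval_le p M hp (u J)).trans (Nat.mul_le_mul_right _ (hu J))) ?_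
    refine (MvPolynomial.totalDegree_monomial_le _ _).trans ?_
    exact (MvPolynomial.le_totalDegree hJ).trans hF
  · intro z hz
    rw [map_sum]
    unfold ev
    rw [MvPolynomial.eval_eq']
    refine Finset.sum_congr rfl fun J _ => ?_
    rw [map_mul, ← hu' J]
    congr 1
    · have h1 : MvPolynomial.aeval (en z) (MvPolynomial.aeval p (u J)) =
          MvPolynomial.aeval (fun a => MvPolynomial.aeval (en z) (p a)) (u J) := by
        rw [← MvPolynomial.comp_aeval_apply]
      rw [h1]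
      congr 2
      funext a
      exact hz a
    · rw [MvPolynomial.aeval_monomial]
      simp [Finsupp.prod_fintype, en]

end NormM

open NormM in
theorem specNorm : SpecNorm := by
  classical
  intro ι _ _ G₀ r p n δ hcl hirr hp
  let M : ℕ := ∑ a, (p a).totalDegree
  have hM : ∀ a, (p a).totalDegree ≤ M := fun a =>
    Finset.single_le_sum (f := fun a => (p a).totalDegree) (fun _ _ => Nat.zero_le _)
      (Finset.mem_univ a)
  refine ⟨(r * δ) * M + n * δ, ?_⟩
  intro y L hL hδ hyL hR F hF hFy g hg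
  let x : Fin r → ℂ := fun a => MvPolynomial.aeval (en y.1) (p a)
  -- the embeddings which fix the invariants
  let S : Finset (L →ₐ[ℚ] ℂ) := Finset.univ.filter fun σ => ∀ a, σ ⟨x a, hyL a⟩ = x a
  have hS : ∀ σ, σ ∈ S ↔ ∀ a, σ ⟨x a, hyL a⟩ = x a := fun σ => by simp [S]
  let P : MvPolynomial (ι × ι) ℂ := ∏ σ ∈ S, cj σ F
  have hPd : P.totalDegree ≤ n * δ := by
    refine (MvPolynomial.totalDegree_finsetProd _ _).trans ?_
    have h1 : ∀ σ ∈ S, (cj σ F).totalDegree ≤ n := fun σ _ =>
      (totalDegree_map_le _ _).trans hF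
    refine (Finset.sum_le_sum h1).trans ?_
    rw [Finset.sum_const, smul_eq_mul, mul_comm]
    refine Nat.mul_le_mul_left _ ?_
    refine (Finset.card_le_univ S).trans ?_
    rw [AlgHom.card ℚ L ℂ]
    exact hδ
  have hfix : ∀ τ : ℂ ≃+* ℂ, (∀ a, τ (x a) = x a) → P.map τ.toRingHom = P := by
    intro τ hτ
    let τ' : ℂ →ₐ[ℚ] ℂ := { τ.toRingHom with commutes' := fun q => by simp }
    have h0 : ∀ z, τ' z = τ z := fun z => rfl
    change (∏ σ ∈ S, cj σ F).map τ.toRingHom = ∏ σ ∈ S, cj σ F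
    rw [map_prod]
    have hinj : Function.Injective fun σ : L →ₐ[ℚ] ℂ => τ'.comp σ := by
      intro σ σ' h
      ext z
      have := DFunLike.congr_fun h z
      exact τ.injective this
    have himg : S.image (fun σ : L →ₐ[ℚ] ℂ => τ'.comp σ) = S := by
      refine Finset.eq_of_subset_of_card_le ?_ ?_
      · intro σ hσ
        obtain ⟨σ', h1, rfl⟩ := Finset.mem_image.1 hσ
        rw [hS] at h1 ⊢
        intro a
        rw [AlgHom.comp_apply, h1 a, h0, hτ a]
      · rw [Finset.card_image_of_injective _ hinj]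
    conv_rhs => rw [← himg]
    rw [Finset.prod_image (fun _ _ _ _ h => hinj h)]
    refine Finset.prod_congr rfl fun σ _ => ?_
    unfold cj
    rw [MvPolynomial.map_map]
    rfl
  have hint : ∀ a, IsIntegral ℚ (x a) ∧ (minpoly ℚ (x a)).natDegree ≤ δ := by
    intro a
    have h1 : IsIntegral ℚ (⟨x a, hyL a⟩ : L) := IsIntegral.of_finite ℚ _
    refine ⟨h1.map L.val, ?_⟩
    have h2 : minpoly ℚ (x a) = minpoly ℚ (⟨x a, hyL a⟩ : L) :=
      minpoly.algHom_eq L.val L.val.toRingHom.injective (⟨x a, hyL a⟩ : L)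
    rw [h2]
    exact (minpoly.natDegree_le _).trans hδ
  have hcoef : ∀ J, ∃ u : MvPolynomial (Fin r) ℚ, u.totalDegree ≤ r * δ ∧
      MvPolynomial.aeval x u = P.coeff J := by
    intro J
    refine exists_poly r δ x hint _ ?_
    refine AutC.mem_of_fixed _ fun τ hτ => ?_
    have h1 := congrArg (MvPolynomial.coeff J) (hfix τ fun a => hτ _
      (IntermediateField.subset_adjoin ℚ _ ⟨a, rfl⟩))
    rw [MvPolynomial.coeff_map] at h1
    exact h1
  obtain ⟨W, hW, hW'⟩ := exists_inv p M (r * δ) (n * δ) hM y.1 P hPd hcoef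
  have hval : ∀ z : Matrix ι ι ℂ, ev z (cj L.val F) = MvPolynomial.aeval (en z) F := by
    intro z
    unfold ev cj
    rw [MvPolynomial.eval_map, MvPolynomial.aeval_def]
    rfl
  have hev : ∀ z : Matrix ι ι ℂ, ev z P = ∏ σ ∈ S, ev z (cj σ F) := by
    intro z
    unfold ev
    exact map_prod _ _ _
  have hvS : L.val ∈ S := (hS L.val).2 fun a => rfl
  have hWy : MvPolynomial.aeval (en y.1) W = 0 := by
    rw [hW' y.1 (fun _ => rfl), hev]
    refine Finset.prod_eq_zero hvS ?_
    rw [hval]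
    exact hFy
  have hinv : ∀ g ∈ G₀, ∀ a, MvPolynomial.aeval (en (g.1 * y.1)) (p a) =
      MvPolynomial.aeval (en y.1) (p a) := by
    intro g hg a
    have h1 := (hp y (g * y)).1 (by rw [mul_inv_cancel_right]; exact hg) a
    exact h1
  have hprod : ∀ g ∈ G₀, ∏ σ ∈ S, ev (g.1 * y.1) (cj σ F) = 0 := by
    intro g hg
    rw [← hev, ← hW' _ (hinv g hg)]
    exact hR W hW hWy g hg
  -- one factor vanishes
  have hmem : ∀ T : Finset (L →ₐ[ℚ] ℂ), (∏ σ ∈ T, tr 1 y.1 (cj σ F)) ∈ van (G₀ : Set (GL ι ℂ)) →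
      ∃ σ ∈ T, tr 1 y.1 (cj σ F) ∈ van (G₀ : Set (GL ι ℂ)) := by
    classical
    intro T
    induction T using Finset.induction_on with
    | empty =>
      intro h
      exfalso
      have := h 1 (one_mem G₀)
      rw [Finset.prod_empty, map_one] at this
      exact one_ne_zero this
    | insert σ T hσ ih =>
      intro h
      rw [Finset.prod_insert hσ] at h
      rcases hirr _ _ h with h1 | h1
      · exact ⟨σ, Finset.mem_insert_self _ _, h1⟩
      · obtain ⟨σ', h2, h3⟩ := ih h1
        exact ⟨σ', Finset.mem_insert_of_mem h2, h3⟩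
  have htr : ∀ (g : GL ι ℂ) (σ : L →ₐ[ℚ] ℂ), MvPolynomial.eval (en g.1) (tr 1 y.1 (cj σ F)) =
      ev (g.1 * y.1) (cj σ F) := by
    intro g σ
    have := ev_tr 1 y.1 g.1 (cj σ F)
    rw [one_mul] at this
    exact this
  obtain ⟨σ, hσS, hσ⟩ := hmem S (by
    intro g hg
    rw [map_prod, ← hprod g hg]
    exact Finset.prod_congr rfl fun σ _ => htr g σ)
  have hσ' : ∀ g ∈ G₀, ev (g.1 * y.1) (cj σ F) = 0 := by
    intro g hg
    rw [← htr]
    exact hσ g hg
  obtain ⟨τ, hτ⟩ := exists_aut L σ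
  have hτx : ∀ a, τ (x a) = x a := fun a => (hτ ⟨x a, hyL a⟩).trans ((hS σ).1 hσS a)
  -- the conjugate of `g y`
  let z : GL ι ℂ := g * y
  have hdz : (z.1.map τ).det ≠ 0 := by
    have h3 : (z.1.map τ).det = τ z.1.det := (RingEquiv.map_det τ z.1).symm
    rw [h3]
    have h4 : z.1.det ≠ 0 := Matrix.GeneralLinearGroup.det_ne_zero z
    simpa using h4
  let zz : GL ι ℂ := Matrix.GeneralLinearGroup.mkOfDetNeZero (z.1.map τ) hdz
  have hzz : ∀ q : MvPolynomial (ι × ι) ℚ, MvPolynomial.aeval (en zz.1) q =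
      τ (MvPolynomial.aeval (en z.1) q) := by
    intro q
    rw [MvPolynomial.aeval_def, MvPolynomial.aeval_def]
    have h6 := MvPolynomial.hom_eval₂ q (algebraMap ℚ ℂ) τ.toRingHom (en z.1)
    rw [show (τ : ℂ ≃+* ℂ) (MvPolynomial.eval₂ (algebraMap ℚ ℂ) (en z.1) q) =
      τ.toRingHom (MvPolynomial.eval₂ (algebraMap ℚ ℂ) (en z.1) q) from rfl, h6]
    have h7 : τ.toRingHom.comp (algebraMap ℚ ℂ) = algebraMap ℚ ℂ := Subsingleton.elim _ _
    rw [h7]
    rfl
  have hzG : zz * y⁻¹ ∈ G₀ := by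
    rw [hp y zz]
    intro a
    rw [hzz]
    have h1 := hinv g hg a
    have h2 : MvPolynomial.aeval (en z.1) (p a) = x a := h1
    rw [h2, hτx]
  have h3 := hσ' _ hzG
  have h4 : (zz * y⁻¹).1 * y.1 = z.1.map τ := by
    rw [← Units.val_mul, inv_mul_cancel_right]
    rfl
  rw [h4] at h3
  have h5 : ev (z.1.map τ) (cj σ F) = τ (MvPolynomial.aeval (en z.1) F) := by
    unfold ev cj
    rw [MvPolynomial.eval_map, MvPolynomial.aeval_def]
    have h6 := MvPolynomial.hom_eval₂ F (algebraMap L ℂ) τ.toRingHom (en z.1)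
    rw [show (τ : ℂ ≃+* ℂ) (MvPolynomial.eval₂ (algebraMap L ℂ) (en z.1) F) =
      τ.toRingHom (MvPolynomial.eval₂ (algebraMap L ℂ) (en z.1) F) from rfl, h6]
    have h7 : τ.toRingHom.comp (algebraMap L ℂ) = σ.toRingHom := by
      ext w
      exact hτ w
    rw [h7]
    rfl
  rw [h5] at h3
  exact (map_eq_zero τ).1 h3

end Pool.Agent.Lib.MPf11a48.CG
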