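import Pool.Agent.Lib.MP_f11a48_ag.CG.SpecA
import Pool.Agent.Lib.MP_f11a48_ag.CG.Norm

/-!
# Almost all fibres of a family, NORMT: relations over number fields, for tuples
-/

set_option autoImplicit false

namespace Pool.Agent.Lib.MPf11a48.CG

open Matrix
open Pool.Agent.Lib.MPf11a48.GL2 (van en)
open Pool.Agent.Lib.MPf11a48.CF.IrrM (ev tr ev_tr)
open Pool.Agent.Lib.MPf11a48.CF.NormM (exists_aut)
open NormM (totalDegree_map_le totalDegree_aeval_le exists_poly)

namespace NormtM

variable {ι σ : Type}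

/-- the entries of a family of matrices -/
def enT {R : Type} (z : σ → Matrix ι ι R) : σ × ι × ι → R := fun p => z p.1 p.2.1 p.2.2

/-- a polynomial whose coefficients are polynomials in invariants -/
theorem exists_inv {ν : Type} [Fintype ν] {r : ℕ} (p : Fin r → MvPolynomial ν ℚ) (M d e : ℕ)
    (hp : ∀ a, (p a).totalDegree ≤ M) (y : ν → ℂ) (F : MvPolynomial ν ℂ)
    (hF : F.totalDegree ≤ e)
    (hc : ∀ J, ∃ u : MvPolynomial (Fin r) ℚ, u.totalDegree ≤ d ∧
      MvPolynomial.aeval (fun a => MvPolynomial.aeval y (p a)) u = F.coeff J) :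
    ∃ W : MvPolynomial ν ℚ, W.totalDegree ≤ d * M + e ∧ ∀ z : ν → ℂ,
      (∀ a, MvPolynomial.aeval z (p a) = MvPolynomial.aeval y (p a)) →
      MvPolynomial.aeval z W = MvPolynomial.eval z F := by
  choose u hu hu' using hc
  refine ⟨∑ J ∈ F.support, MvPolynomial.aeval p (u J) * MvPolynomial.monomial J 1, ?_, ?_⟩
  · refine MvPolynomial.totalDegree_finsetSum_le fun J hJ => ?_
    refine (MvPolynomial.totalDegree_mul _ _).trans ?_
    refine add_le_add ((totalDegree_aeval_le p M hp (u J)).trans (Nat.mul_le_mul_right _ (hu J))) ?_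
    refine (MvPolynomial.totalDegree_monomial_le _ _).trans ?_
    exact (MvPolynomial.le_totalDegree hJ).trans hF
  · intro z hz
    rw [map_sum, MvPolynomial.eval_eq']
    refine Finset.sum_congr rfl fun J _ => ?_
    rw [map_mul, ← hu' J]
    congr 1
    · have h1 : MvPolynomial.aeval z (MvPolynomial.aeval p (u J)) =
          MvPolynomial.aeval (fun a => MvPolynomial.aeval z (p a)) (u J) := by
        rw [← MvPolynomial.comp_aeval_apply]
      rw [h1]
      congr 2
      funext a
      exact hz a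
    · rw [MvPolynomial.aeval_monomial]
      simp [Finsupp.prod_fintype]

variable [Fintype ι] [DecidableEq ι] [DecidableEq σ]

/-- the polynomial in the entries of one matrix, for fixed values of the other matrices -/
noncomputable def sb (z : σ → Matrix ι ι ℂ) (a : σ) (F : MvPolynomial (σ × ι × ι) ℂ) :
    MvPolynomial (ι × ι) ℂ :=
  MvPolynomial.aeval (fun p : σ × ι × ι => if p.1 = a then
    (MvPolynomial.X p.2 : MvPolynomial (ι × ι) ℂ) else MvPolynomial.C (z p.1 p.2.1 p.2.2)) F

omit [Fintype ι] [DecidableEq ι] in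
theorem ev_sb (z : σ → Matrix ι ι ℂ) (a : σ) (F : MvPolynomial (σ × ι × ι) ℂ)
    (w : Matrix ι ι ℂ) :
    ev w (sb z a F) = MvPolynomial.eval (enT (Function.update z a w)) F := by
  have h1 := MvPolynomial.comp_aeval_apply (R := ℂ)
    (f := fun p : σ × ι × ι => if p.1 = a then
      (MvPolynomial.X p.2 : MvPolynomial (ι × ι) ℂ) else MvPolynomial.C (z p.1 p.2.1 p.2.2))
    (φ := MvPolynomial.aeval (en w)) F
  have h2 : (fun p : σ × ι × ι => MvPolynomial.aeval (en w) (if p.1 = a then
      (MvPolynomial.X p.2 : MvPolynomial (ι × ι) ℂ) else MvPolynomial.C (z p.1 p.2.1 p.2.2))) =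
      enT (Function.update z a w) := by
    funext p
    unfold enT
    by_cases h : p.1 = a
    · rw [if_pos h, h, Function.update_self, MvPolynomial.aeval_X]
      rfl
    · rw [if_neg h, Function.update_of_ne h, MvPolynomial.aeval_C]
      rfl
  rw [h2] at h1
  exact h1

/-- the families of elements of an irreducible group form an irreducible set -/
theorem prime_fam (G₀ : Subgroup (GL ι ℂ))
    (hirr : ∀ f g : MvPolynomial (ι × ι) ℂ, f * g ∈ van (G₀ : Set (GL ι ℂ)) →
      f ∈ van (G₀ : Set (GL ι ℂ)) ∨ g ∈ van (G₀ : Set (GL ι ℂ)))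
    (y : σ → GL ι ℂ) (F H : MvPolynomial (σ × ι × ι) ℂ) (A : Finset σ) :
    ∀ g₀ : σ → GL ι ℂ, (∀ a, g₀ a ∈ G₀) →
    (∀ g : σ → GL ι ℂ, (∀ a, g a ∈ G₀) → (∀ a ∉ A, g a = g₀ a) →
      MvPolynomial.eval (enT fun a => (g a).1 * (y a).1) F *
        MvPolynomial.eval (enT fun a => (g a).1 * (y a).1) H = 0) →
    (∀ g : σ → GL ι ℂ, (∀ a, g a ∈ G₀) → (∀ a ∉ A, g a = g₀ a) →
      MvPolynomial.eval (enT fun a => (g a).1 * (y a).1) F = 0) ∨
    (∀ g : σ → GL ι ℂ, (∀ a, g a ∈ G₀) → (∀ a ∉ A, g a = g₀ a) →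
      MvPolynomial.eval (enT fun a => (g a).1 * (y a).1) H = 0) := by
  induction A using Finset.induction_on with
  | empty =>
    intro g₀ hg₀ h
    have h0 : ∀ g : σ → GL ι ℂ, (∀ a ∉ (∅ : Finset σ), g a = g₀ a) → g = g₀ := fun g hg =>
      funext fun a => hg a (Finset.notMem_empty a)
    rcases mul_eq_zero.1 (h g₀ hg₀ fun _ _ => rfl) with h1 | h1
    · refine Or.inl fun g _ hg => ?_
      rw [h0 g hg]
      exact h1
    · refine Or.inr fun g _ hg => ?_
      rw [h0 g hg]
      exact h1
  | insert a A haA ih =>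
    intro g₀ hg₀ h
    by_contra hcon
    push Not at hcon
    obtain ⟨⟨g₁, hg₁, hg₁', hF⟩, g₂, hg₂, hg₂', hH⟩ := hcon
    -- the two polynomials in one matrix
    have key : ∀ (g : σ → GL ι ℂ) (P : MvPolynomial (σ × ι × ι) ℂ) (x : GL ι ℂ),
        MvPolynomial.eval (en x.1) (tr 1 (y a).1 (sb (fun b => (g b).1 * (y b).1) a P)) =
          MvPolynomial.eval (enT fun b => (Function.update g a x b).1 * (y b).1) P := by
      intro g P x
      have h1 := ev_tr 1 (y a).1 x.1 (sb (fun b => (g b).1 * (y b).1) a P)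
      have h5 : Function.update (fun b => (g b).1 * (y b).1) a (x.1 * (y a).1) =
          fun b => (Function.update g a x b).1 * (y b).1 := by
        funext b
        by_cases hb : b = a
        · subst hb
          rw [Function.update_self, Function.update_self]
        · rw [Function.update_of_ne hb, Function.update_of_ne hb]
      rw [one_mul, ev_sb, h5] at h1
      exact h1
    have h1 : ¬ (tr 1 (y a).1 (sb (fun b => (g₁ b).1 * (y b).1) a F) *
        tr 1 (y a).1 (sb (fun b => (g₂ b).1 * (y b).1) a H)) ∈ van (G₀ : Set (GL ι ℂ)) := by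
      intro hv
      rcases hirr _ _ hv with h2 | h2
      · have h3 := h2 (g₁ a) (hg₁ a)
        rw [key, Function.update_eq_self] at h3
        exact hF h3
      · have h3 := h2 (g₂ a) (hg₂ a)
        rw [key, Function.update_eq_self] at h3
        exact hH h3
    have h2 : ∃ x : GL ι ℂ, x ∈ G₀ ∧
        MvPolynomial.eval (enT fun b => (Function.update g₁ a x b).1 * (y b).1) F ≠ 0 ∧
        MvPolynomial.eval (enT fun b => (Function.update g₂ a x b).1 * (y b).1) H ≠ 0 := by
      by_contra hc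
      push Not at hc
      refine h1 fun x hx => ?_
      rw [map_mul, key, key]
      by_cases h3 : MvPolynomial.eval
          (enT fun b => (Function.update g₁ a x b).1 * (y b).1) F = 0
      · rw [h3, zero_mul]
      · rw [hc x hx h3, mul_zero]
    obtain ⟨x, hx, hxF, hxH⟩ := h2
    have hupd : ∀ g : σ → GL ι ℂ, (∀ b, g b ∈ G₀) → ∀ b, Function.update g a x b ∈ G₀ := by
      intro g hg b
      by_cases hb : b = a
      · subst hb
        rw [Function.update_self]
        exact hx
      · rw [Function.update_of_ne hb]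
        exact hg b
    have hag : ∀ g : σ → GL ι ℂ, (∀ b ∉ insert a A, g b = g₀ b) →
        ∀ b ∉ A, Function.update g a x b = Function.update g₀ a x b := by
      intro g hg b hb
      by_cases hba : b = a
      · subst hba
        rw [Function.update_self, Function.update_self]
      · rw [Function.update_of_ne hba, Function.update_of_ne hba]
        exact hg b (by simp [hba, hb])
    rcases ih (Function.update g₀ a x) (hupd g₀ hg₀) (fun g hg hg' => h g hg fun b hb => by
      rw [hg' b fun h => hb (Finset.mem_insert_of_mem h), Function.update_of_ne fun h => hb (by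
        rw [h]
        exact Finset.mem_insert_self _ _)]) with h3 | h3
    · exact hxF (h3 _ (hupd g₁ hg₁) (hag g₁ hg₁'))
    · exact hxH (h3 _ (hupd g₂ hg₂) (hag g₂ hg₂'))

end NormtM

open NormtM in
theorem specNormt : SpecNormt := by
  classical
  intro ι σ _ _ _ _ G₀ r p n δ hcl hirr hp
  let M : ℕ := ∑ a, (p a).totalDegree
  have hM : ∀ a, (p a).totalDegree ≤ M := fun a =>
    Finset.single_le_sum (f := fun a => (p a).totalDegree) (fun _ _ => Nat.zero_le _)
      (Finset.mem_univ a)
  let R : ℕ := Fintype.card (σ × Fin r)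
  let e : σ × Fin r ≃ Fin R := Fintype.equivFin _
  let q : Fin R → MvPolynomial (σ × ι × ι) ℚ := fun k =>
    MvPolynomial.rename (fun v => ((e.symm k).1, v)) (p (e.symm k).2)
  have hqM : ∀ k, (q k).totalDegree ≤ M := fun k =>
    (MvPolynomial.totalDegree_rename_le _ _).trans (hM _)
  have hq : ∀ (z : σ → Matrix ι ι ℂ) (k : Fin R), MvPolynomial.aeval (enT z) (q k) =
      MvPolynomial.aeval (en (z (e.symm k).1)) (p (e.symm k).2) := by
    intro z k
    rw [MvPolynomial.aeval_rename]
    rfl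
  refine ⟨(R * δ) * M + n * δ, ?_⟩
  intro y L hL hδ hyL hR F hF hFy g hg
  let x : Fin R → ℂ := fun k => MvPolynomial.aeval (enT fun a => (y a).1) (q k)
  have hx : ∀ k, x k = MvPolynomial.aeval (en (y (e.symm k).1).1) (p (e.symm k).2) := fun k =>
    hq _ k
  have hyL' : ∀ k, x k ∈ L := fun k => by
    rw [hx]
    exact hyL _ _
  -- the embeddings which fix the invariants
  let S : Finset (L →ₐ[ℚ] ℂ) := Finset.univ.filter fun φ => ∀ a, φ ⟨x a, hyL' a⟩ = x a
  have hS : ∀ φ, φ ∈ S ↔ ∀ a, φ ⟨x a, hyL' a⟩ = x a := fun φ => by simp [S]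
  let P : MvPolynomial (σ × ι × ι) ℂ := ∏ φ ∈ S, F.map φ.toRingHom
  have hPd : P.totalDegree ≤ n * δ := by
    refine (MvPolynomial.totalDegree_finsetProd _ _).trans ?_
    have h1 : ∀ φ ∈ S, (F.map (φ : L →ₐ[ℚ] ℂ).toRingHom).totalDegree ≤ n := fun φ _ =>
      (totalDegree_map_le _ _).trans hF
    refine (Finset.sum_le_sum h1).trans ?_
    rw [Finset.sum_const, smul_eq_mul, mul_comm]
    refine Nat.mul_le_mul_left _ ?_
    refine (Finset.card_le_univ S).trans ?_
    rw [AlgHom.card ℚ L ℂ]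
    exact hδ
  have hfix : ∀ τ : ℂ ≃+* ℂ, (∀ a, τ (x a) = x a) → P.map τ.toRingHom = P := by
    intro τ hτ
    let τ' : ℂ →ₐ[ℚ] ℂ := { τ.toRingHom with commutes' := fun q => by simp }
    have h0 : ∀ z, τ' z = τ z := fun z => rfl
    change (∏ φ ∈ S, F.map φ.toRingHom).map τ.toRingHom = ∏ φ ∈ S, F.map φ.toRingHom
    rw [map_prod]
    have hinj : Function.Injective fun φ : L →ₐ[ℚ] ℂ => τ'.comp φ := by
      intro φ φ' h
      ext z
      have := DFunLike.congr_fun h z
      exact τ.injective this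
    have himg : S.image (fun φ : L →ₐ[ℚ] ℂ => τ'.comp φ) = S := by
      refine Finset.eq_of_subset_of_card_le ?_ ?_
      · intro φ hφ
        obtain ⟨φ', h1, rfl⟩ := Finset.mem_image.1 hφ
        rw [hS] at h1 ⊢
        intro a
        rw [AlgHom.comp_apply, h1 a, h0, hτ a]
      · rw [Finset.card_image_of_injective _ hinj]
    conv_rhs => rw [← himg]
    rw [Finset.prod_image (fun _ _ _ _ h => hinj h)]
    refine Finset.prod_congr rfl fun φ _ => ?_
    rw [MvPolynomial.map_map]
    rfl
  have hint : ∀ a, IsIntegral ℚ (x a) ∧ (minpoly ℚ (x a)).natDegree ≤ δ := by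
    intro a
    have h1 : IsIntegral ℚ (⟨x a, hyL' a⟩ : L) := IsIntegral.of_finite ℚ _
    refine ⟨h1.map L.val, ?_⟩
    have h2 : minpoly ℚ (x a) = minpoly ℚ (⟨x a, hyL' a⟩ : L) :=
      minpoly.algHom_eq L.val L.val.toRingHom.injective (⟨x a, hyL' a⟩ : L)
    rw [h2]
    exact (minpoly.natDegree_le _).trans hδ
  have hcoef : ∀ J, ∃ u : MvPolynomial (Fin R) ℚ, u.totalDegree ≤ R * δ ∧
      MvPolynomial.aeval x u = P.coeff J := by
    intro J
    refine exists_poly R δ x hint _ ?_
    refine AutC.mem_of_fixed _ fun τ hτ => ?_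
    have h1 := congrArg (MvPolynomial.coeff J) (hfix τ fun a => hτ _
      (IntermediateField.subset_adjoin ℚ _ ⟨a, rfl⟩))
    rw [MvPolynomial.coeff_map] at h1
    exact h1
  obtain ⟨W, hW, hW'⟩ := exists_inv q M (R * δ) (n * δ) hqM (enT fun a => (y a).1) P hPd hcoef
  have hval : ∀ z : σ × ι × ι → ℂ, MvPolynomial.eval z (F.map L.val.toRingHom) =
      MvPolynomial.aeval z F := by
    intro z
    rw [MvPolynomial.eval_map, MvPolynomial.aeval_def]
    rfl
  have hev : ∀ z : σ × ι × ι → ℂ, MvPolynomial.eval z P =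
      ∏ φ ∈ S, MvPolynomial.eval z (F.map φ.toRingHom) := by
    intro z
    exact map_prod _ _ _
  have hvS : L.val ∈ S := (hS L.val).2 fun a => rfl
  have hWy : MvPolynomial.aeval (enT fun a => (y a).1) W = 0 := by
    rw [hW' _ (fun _ => rfl), hev]
    refine Finset.prod_eq_zero hvS ?_
    rw [hval]
    exact hFy
  have hinv : ∀ g : σ → GL ι ℂ, (∀ a, g a ∈ G₀) → ∀ (b : σ) (a : Fin r),
      MvPolynomial.aeval (en ((g b).1 * (y b).1)) (p a) =
      MvPolynomial.aeval (en (y b).1) (p a) := by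
    intro g hg b a
    have h1 := (hp (y b) (g b * y b)).1 (by rw [mul_inv_cancel_right]; exact hg b) a
    exact h1
  have hprod : ∀ g : σ → GL ι ℂ, (∀ a, g a ∈ G₀) →
      ∏ φ ∈ S, MvPolynomial.eval (enT fun a => (g a).1 * (y a).1) (F.map φ.toRingHom) = 0 := by
    intro g hg
    rw [← hev, ← hW' _ (fun k => by rw [hq, hq]; exact hinv g hg _ _)]
    exact hR W hW hWy g hg
  -- one factor vanishes
  have hmem : ∀ T : Finset (L →ₐ[ℚ] ℂ), (∀ g : σ → GL ι ℂ, (∀ a, g a ∈ G₀) →
      ∏ φ ∈ T, MvPolynomial.eval (enT fun a => (g a).1 * (y a).1) (F.map φ.toRingHom) = 0) →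
      ∃ φ ∈ T, ∀ g : σ → GL ι ℂ, (∀ a, g a ∈ G₀) →
        MvPolynomial.eval (enT fun a => (g a).1 * (y a).1) (F.map φ.toRingHom) = 0 := by
    intro T
    induction T using Finset.induction_on with
    | empty =>
      intro h
      exfalso
      have := h (fun _ => 1) (fun _ => one_mem G₀)
      rw [Finset.prod_empty] at this
      exact one_ne_zero this
    | insert φ T hφ ih =>
      intro h
      have h0 := prime_fam G₀ hirr y (F.map φ.toRingHom) (∏ φ ∈ T, F.map φ.toRingHom)
        Finset.univ (fun _ => 1) (fun _ => one_mem G₀) (fun g hg _ => by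
          have h1 := h g hg
          rw [Finset.prod_insert hφ] at h1
          rw [map_prod]
          exact h1)
      rcases h0 with h1 | h1
      · exact ⟨φ, Finset.mem_insert_self _ _, fun g hg => h1 g hg fun a ha =>
          absurd (Finset.mem_univ a) ha⟩
      · obtain ⟨φ', h2, h3⟩ := ih fun g hg => by
          rw [← map_prod]
          exact h1 g hg fun a ha => absurd (Finset.mem_univ a) ha
        exact ⟨φ', Finset.mem_insert_of_mem h2, h3⟩
  obtain ⟨φ, hφS, hφ'⟩ := hmem S hprod
  obtain ⟨τ, hτ⟩ := exists_aut L φ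
  have hτx : ∀ a, τ (x a) = x a := fun a => (hτ ⟨x a, hyL' a⟩).trans ((hS φ).1 hφS a)
  -- the conjugate of `g y`
  let z : σ → GL ι ℂ := fun b => g b * y b
  have hdz : ∀ b, ((z b).1.map τ).det ≠ 0 := by
    intro b
    have h3 : ((z b).1.map τ).det = τ (z b).1.det := (RingEquiv.map_det τ (z b).1).symm
    rw [h3]
    have h4 : (z b).1.det ≠ 0 := Matrix.GeneralLinearGroup.det_ne_zero (z b)
    simpa using h4
  let zz : σ → GL ι ℂ := fun b =>
    Matrix.GeneralLinearGroup.mkOfDetNeZero ((z b).1.map τ) (hdz b)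
  have hzz : ∀ (b : σ) (q : MvPolynomial (ι × ι) ℚ), MvPolynomial.aeval (en (zz b).1) q =
      τ (MvPolynomial.aeval (en (z b).1) q) := by
    intro b q
    rw [MvPolynomial.aeval_def, MvPolynomial.aeval_def]
    have h6 := MvPolynomial.hom_eval₂ q (algebraMap ℚ ℂ) τ.toRingHom (en (z b).1)
    rw [show (τ : ℂ ≃+* ℂ) (MvPolynomial.eval₂ (algebraMap ℚ ℂ) (en (z b).1) q) =
      τ.toRingHom (MvPolynomial.eval₂ (algebraMap ℚ ℂ) (en (z b).1) q) from rfl, h6]
    have h7 : τ.toRingHom.comp (algebraMap ℚ ℂ) = algebraMap ℚ ℂ := Subsingleton.elim _ _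
    rw [h7]
    rfl
  have hzG : ∀ b, zz b * (y b)⁻¹ ∈ G₀ := by
    intro b
    rw [hp (y b) (zz b)]
    intro a
    rw [hzz]
    have h1 := hinv g hg b a
    have h2 : MvPolynomial.aeval (en (z b).1) (p a) = MvPolynomial.aeval (en (y b).1) (p a) := h1
    rw [h2]
    have h3 := hτx (e (b, a))
    rw [hx] at h3
    simpa using h3
  have h3 := hφ' _ hzG
  have h4 : ∀ b, (zz b * (y b)⁻¹).1 * (y b).1 = (z b).1.map τ := by
    intro b
    rw [← Units.val_mul, inv_mul_cancel_right]
    rfl
  have h4' : (fun b => (zz b * (y b)⁻¹).1 * (y b).1) = fun b => (z b).1.map τ := funext h4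
  rw [h4'] at h3
  have h5 : MvPolynomial.eval (enT fun b => (z b).1.map τ) (F.map φ.toRingHom) =
      τ (MvPolynomial.aeval (enT fun b => (z b).1) F) := by
    rw [MvPolynomial.eval_map, MvPolynomial.aeval_def]
    have h6 := MvPolynomial.hom_eval₂ F (algebraMap L ℂ) τ.toRingHom (enT fun b => (z b).1)
    rw [show (τ : ℂ ≃+* ℂ) (MvPolynomial.eval₂ (algebraMap L ℂ) (enT fun b => (z b).1) F) =
      τ.toRingHom (MvPolynomial.eval₂ (algebraMap L ℂ) (enT fun b => (z b).1) F) from rfl, h6]
    have h7 : τ.toRingHom.comp (algebraMap L ℂ) = φ.toRingHom := by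
      ext w
      exact hτ w
    rw [h7]
    rfl
  rw [h5] at h3
  exact (map_eq_zero τ).1 h3

end Pool.Agent.Lib.MPf11a48.CG
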