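import Pool.Agent.Lib.MP_f11a48_ag.CG.Spec
import Pool.Agent.Lib.MP_f11a48_ag.CF.Ord

/-!
# Families with semisimple monodromy, ORD: one-parameter groups which fix all invariant tensors
of a finite group
-/

set_option autoImplicit false

namespace Pool.Agent.Lib.MPf11a48.CG

open Matrix
open Pool.Agent.Lib.MPf11a48.CF (ta)
open Pool.Agent.Lib.MPf11a48.CF.OrdM (ta_pow sum_pow)
open Pool.Agent.Lib.MPf11a48.CF.CorM (ta_apply)

namespace OrdM

/-- families with the same power sums have the same values -/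
theorem mem_of_psum {G : Type} [Fintype G] (x y : G → ℂ)
    (h : ∀ m : ℕ, m ≤ 2 * Fintype.card G → ∑ g, x g ^ m = ∑ g, y g ^ m) (g₀ : G) :
    ∃ g, x g₀ = y g := by
  classical
  by_contra hne
  push Not at hne
  set S : Finset ℂ := (Finset.univ.image x ∪ Finset.univ.image y).erase (x g₀) with hS
  set P : Polynomial ℂ := ∏ y ∈ S, (Polynomial.X - Polynomial.C y) with hP
  have hcard : S.card ≤ 2 * Fintype.card G := by
    rw [hS]
    refine (Finset.card_erase_le).trans ((Finset.card_union_le _ _).trans ?_)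
    have h1 : (Finset.univ.image x).card ≤ Fintype.card G := Finset.card_image_le
    have h2 : (Finset.univ.image y).card ≤ Fintype.card G := Finset.card_image_le
    omega
  have hdeg : P.natDegree < 2 * Fintype.card G + 1 := by
    have h1 : P.natDegree = S.card := by
      rw [hP, Polynomial.natDegree_prod_of_monic _ _ fun y _ => Polynomial.monic_X_sub_C y]
      simp
    omega
  have hsum : ∀ z : G → ℂ, ∑ g, P.eval (z g) =
      ∑ k ∈ Finset.range (2 * Fintype.card G + 1), P.coeff k * ∑ g, z g ^ k := by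
    intro z
    have h1 : ∀ g, P.eval (z g) =
        ∑ k ∈ Finset.range (2 * Fintype.card G + 1), P.coeff k * z g ^ k :=
      fun g => Polynomial.eval_eq_sum_range' hdeg _
    simp only [h1]
    rw [Finset.sum_comm]
    refine Finset.sum_congr rfl fun k _ => ?_
    rw [← Finset.mul_sum]
  have hxy : ∑ g, P.eval (x g) = ∑ g, P.eval (y g) := by
    rw [hsum, hsum]
    refine Finset.sum_congr rfl fun k hk => ?_
    rw [h k (by
      have := Finset.mem_range.mp hk
      omega)]
  have hy : ∑ g, P.eval (y g) = 0 := by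
    refine Finset.sum_eq_zero fun g _ => ?_
    rw [hP, Polynomial.eval_prod]
    refine Finset.prod_eq_zero (i := y g) ?_ ?_
    · exact Finset.mem_erase.mpr ⟨(hne g).symm, Finset.mem_union_right _
        (Finset.mem_image_of_mem y (Finset.mem_univ g))⟩
    · simp
  have heval : ∀ g, P.eval (x g) = if x g = x g₀ then P.eval (x g₀) else 0 := by
    intro g
    split_ifs with hg
    · rw [hg]
    · rw [hP, Polynomial.eval_prod]
      refine Finset.prod_eq_zero (i := x g) ?_ ?_
      · exact Finset.mem_erase.mpr ⟨hg, Finset.mem_union_left _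
          (Finset.mem_image_of_mem x (Finset.mem_univ g))⟩
      · simp
  have hne0 : P.eval (x g₀) ≠ 0 := by
    rw [hP, Polynomial.eval_prod]
    refine Finset.prod_ne_zero_iff.mpr fun y hy => ?_
    rw [Polynomial.eval_sub, Polynomial.eval_X, Polynomial.eval_C]
    intro h1
    exact (Finset.mem_erase.mp hy).1 (sub_eq_zero.mp h1).symm
  rw [hy, Finset.sum_congr rfl fun g _ => heval g, ← Finset.sum_filter, Finset.sum_const,
    nsmul_eq_mul] at hxy
  rcases mul_eq_zero.mp hxy with h1 | h1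
  · have h2 : (Finset.univ.filter fun g => x g = x g₀).card = 0 := by exact_mod_cast h1
    have h3 : g₀ ∈ Finset.univ.filter fun g => x g = x g₀ := by simp
    rw [Finset.card_eq_zero] at h2
    rw [h2] at h3
    exact absurd h3 (Finset.notMem_empty _)
  · exact hne0 h1

/-- contraction with a power of a functional -/
theorem contract {ι : Type} [Fintype ι] [DecidableEq ι] {m : ℕ} {G : Type} [Fintype G]
    (φ : ι → ℂ) (u : G → ι → ℂ) :
    ∑ J : Fin m → ι, (∏ k, φ (J k)) * (∑ g : G, ∏ k, (u g) (J k)) =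
      ∑ g : G, (φ ⬝ᵥ u g) ^ m := by
  simp only [Finset.mul_sum]
  rw [Finset.sum_comm]
  exact Finset.sum_congr rfl fun g _ => sum_pow φ _

end OrdM

open OrdM in
theorem specOrd : SpecOrd := by
  classical
  intro d G hfin t Z hone hinv
  have : Fintype G := hfin.fintype
  have hcard : Nat.card G = Fintype.card G := Nat.card_eq_fintype_card
  ext i j
  -- the invariant tensors
  set v : Fin d → ℂ := Pi.single j 1 with hv
  set φ : Fin d → ℂ := Pi.single i 1 with hφ
  have hw : ∀ m : ℕ, ∀ h ∈ G, ta h.1 (fun J : Fin m → Fin d => ∑ g : G, ∏ k, (g.1.1 *ᵥ v) (J k)) =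
      fun J => ∑ g : G, ∏ k, (g.1.1 *ᵥ v) (J k) := by
    intro m h hh
    have h1 : (fun J : Fin m → Fin d => ∑ g : G, ∏ k, (g.1.1 *ᵥ v) (J k)) =
        ∑ g : G, fun J : Fin m → Fin d => ∏ k, (g.1.1 *ᵥ v) (J k) := by
      funext J
      rw [Finset.sum_apply]
    rw [h1, map_sum]
    simp only [ta_pow, Matrix.mulVec_mulVec]
    refine Fintype.sum_equiv (Equiv.mulLeft (⟨h, hh⟩ : G)) _ _ fun g => ?_
    rfl
  have hw2 : ∀ (m : ℕ) (s : ℂ),
      ta (t s).1 (fun J : Fin m → Fin d => ∑ g : G, ∏ k, (g.1.1 *ᵥ v) (J k)) =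
      fun J => ∑ g : G, ∏ k, ((t s).1 *ᵥ (g.1.1 *ᵥ v)) (J k) := by
    intro m s
    have h1 : (fun J : Fin m → Fin d => ∑ g : G, ∏ k, (g.1.1 *ᵥ v) (J k)) =
        ∑ g : G, fun J : Fin m → Fin d => ∏ k, (g.1.1 *ᵥ v) (J k) := by
      funext J
      rw [Finset.sum_apply]
    rw [h1, map_sum]
    funext J
    rw [Finset.sum_apply]
    simp only [ta_pow]
  have hp : ∀ (s : ℂ) (m : ℕ), m ≤ 2 * Fintype.card G →
      ∑ g : G, (φ ⬝ᵥ ((t s).1 *ᵥ (g.1.1 *ᵥ v))) ^ m = ∑ g : G, (φ ⬝ᵥ (g.1.1 *ᵥ v)) ^ m := by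
    intro s m hm
    have h1 := hinv m (by rw [hcard]; exact hm) _ (hw m) s
    rw [hw2] at h1
    rw [← contract (m := m) φ (fun g : G => (t s).1 *ᵥ (g.1.1 *ᵥ v)),
      ← contract (m := m) φ (fun g : G => g.1.1 *ᵥ v)]
    refine Finset.sum_congr rfl fun J _ => ?_
    have h2 : ∑ g : G, ∏ k, ((t s).1 *ᵥ (g.1.1 *ᵥ v)) (J k) =
      ∑ g : G, ∏ k, (g.1.1 *ᵥ v) (J k) := congrFun h1 J
    rw [h2]
  have hmem : ∀ s : ℂ, (t s).1 i j ∈ Set.range fun g : G => g.1.1 i j := by
    intro s
    obtain ⟨g, hg⟩ := mem_of_psum _ _ (hp s) 1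
    refine ⟨g, ?_⟩
    have h1 : ∀ A : Matrix (Fin d) (Fin d) ℂ, φ ⬝ᵥ (A *ᵥ v) = A i j := by
      intro A
      rw [hφ, hv, Matrix.mulVec_single_one, single_one_dotProduct]
      rfl
    rw [h1] at hg
    have h2 : ((1 : G) : GL (Fin d) ℂ).1 *ᵥ v = v := by
      change (1 : Matrix (Fin d) (Fin d) ℂ) *ᵥ v = v
      rw [Matrix.one_mulVec]
    change φ ⬝ᵥ ((t s).1 *ᵥ (((1 : G) : GL (Fin d) ℂ).1 *ᵥ v)) = _ at hg
    rw [h2, h1] at hg
    exact hg.symm
  -- the function is locally constant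
  have hder := hone.der i j
  have hc : ContinuousAt (fun s => (t s).1 i j) 0 := hder.continuousAt
  have hF : (Set.range fun g : G => g.1.1 i j).Finite := Set.finite_range _
  have hev : ∀ᶠ s in nhds (0 : ℂ), (t s).1 i j = (t 0).1 i j := by
    have h1 : (((Set.range fun g : G => g.1.1 i j) \ {(t 0).1 i j})ᶜ) ∈ nhds ((t 0).1 i j) := by
      refine IsOpen.mem_nhds (hF.subset Set.sdiff_subset).isClosed.isOpen_compl ?_
      intro h
      exact h.2 rfl
    filter_upwards [hc h1] with s hs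
    by_contra hne
    exact hs ⟨hmem s, hne⟩
  have h1 : HasDerivAt (fun s => (t s).1 i j) 0 0 :=
    (hasDerivAt_const (0 : ℂ) ((t 0).1 i j)).congr_of_eventuallyEq hev
  rw [Matrix.zero_apply]
  exact hder.unique h1

end Pool.Agent.Lib.MPf11a48.CG
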