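import Pool.Agent.Lib.MP_f11a48_ag.CG.SpecB
import Pool.Agent.Lib.MP_f11a48_ag.CG.Cod

/-!
# Module PLF: a relation which does not hold on the orbit, from a stable subspace
-/

set_option autoImplicit false

namespace Pool.Agent.Lib.MPf11a48.CG.PlfM

open Matrix
open Pool.Agent.Lib.MPf11a48.CF (ta)
open Pool.Agent.Lib.MPf11a48.CF.CorM (ta_mul ta_one ta_apply)

variable {ι κ : Type} [Fintype ι] [DecidableEq ι] [Fintype κ] [DecidableEq κ]

/-- the inverse of a matrix with entries in `K` has entries in `K` -/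
theorem inv_mem (K : IntermediateField ℚ ℂ) (R : GL ι ℂ) (hR : ∀ i j, R.1 i j ∈ K) (i j : ι) :
    R⁻¹.1 i j ∈ K := by
  have e : R⁻¹.1 = (R.1)⁻¹ := Matrix.coe_units_inv R
  have hm : R.1 = (Matrix.of fun i j => (⟨R.1 i j, hR i j⟩ : K)).map (algebraMap K ℂ) := by
    ext i j
    rfl
  rw [e, Matrix.inv_def, Matrix.smul_apply, Ring.inverse_eq_inv', smul_eq_mul]
  refine K.mul_mem (K.inv_mem ?_) ?_
  · rw [hm, ← RingHom.mapMatrix_apply, ← RingHom.map_det]
    exact SetLike.coe_mem _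
  · rw [hm, ← RingHom.mapMatrix_apply, ← RingHom.map_adjugate]
    exact SetLike.coe_mem _

/-- tensors over `K` -/
theorem exists_ta (K : IntermediateField ℚ ℂ) (R : GL ι ℂ) (hR : ∀ i j, R.1 i j ∈ K)
    (α : (κ → ι) → K) :
    ∃ α' : (κ → ι) → K, (fun I => (α' I : ℂ)) = ta R⁻¹.1 (fun I => (α I : ℂ)) := by
  have h : ∀ J, ta R⁻¹.1 (fun I => (α I : ℂ)) J ∈ K := by
    intro J
    rw [ta_apply]
    exact K.sum_mem fun J' _ => K.mul_mem (K.prod_mem fun k _ => inv_mem K R hR _ _) (α J').2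
  exact ⟨fun J => ⟨_, h J⟩, rfl⟩

end Pool.Agent.Lib.MPf11a48.CG.PlfM

namespace Pool.Agent.Lib.MPf11a48.CG

open Matrix
open Pool.Agent.Lib.MPf11a48.Tors
open Pool.Agent.Lib.MPf11a48.CF (ta)
open Pool.Agent.Lib.MPf11a48.CF.CorM (ta_mul ta_one ta_apply)
open Pool.Agent.Lib.MPf11a48.GL2 (lie van en Geo)
open Pool.Agent.Lib.MPf11a48.K3.KCurM (gl)

open PlfM CodM in
theorem specPlf (hPlk : SpecPlk) (hLfx : SpecLfx) (hDt : SpecDt) : SpecPlf := by
  classical
  intro ι _ _ K C y R G G₀ T D hss hGG hR hT hcT hst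
  obtain ⟨q, α, β, z, hq, hb0, hz, g₁, hg₁, hne⟩ := hPlk ι K C y R G G₀ T D hGG hR hT hcT hst
  obtain ⟨α', hα'⟩ := exists_ta K R hR α
  by_contra hcon
  push Not at hcon
  set a : (Fin q → ι) → ℂ := fun I => (α I : ℂ) with ha
  set b : (Fin q → ι) → ℂ := ta y.1 a with hb
  -- values of the polynomials
  choose P hPh hPe using fun J => coordPoly α' J
  have hval : ∀ (g : GL ι ℂ) (J : Fin q → ι),
      MvPolynomial.aeval (fun p : ι × ι => (g * (C * y * R)).1 p.1 p.2) (P J) =
        ta (g * C).1 b J := by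
    intro g J
    rw [hPe, hα', ← ta_mul, ← Units.val_mul, hb, ← ta_mul, ← Units.val_mul]
    group
  have hval1 : ∀ J : Fin q → ι,
      MvPolynomial.aeval (fun p : ι × ι => (C * y * R).1 p.1 p.2) (P J) = ta C.1 b J := by
    intro J
    have h1 := hval 1 J
    rwa [one_mul, one_mul] at h1
  have hCb : ta C.1 b = z • fun I => (β I : ℂ) := by
    rw [hb, ← ta_mul, ← Units.val_mul]
    exact hz
  have hCb0 : ta C.1 b ≠ 0 := by
    intro h
    apply hb0
    have h1 : ta C⁻¹.1 (ta C.1 b) = b := by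
      rw [← ta_mul, ← Units.val_mul, inv_mul_cancel, Units.val_one, ta_one]
    rw [← h1, h, map_zero]
  have hz0 : z ≠ 0 := by
    rintro rfl
    rw [zero_smul] at hCb
    exact hCb0 hCb
  obtain ⟨J₀, hJ₀⟩ : ∃ J₀, (β J₀ : ℂ) ≠ 0 := by
    by_contra hc
    push Not at hc
    apply hCb0
    rw [hCb]
    funext J
    rw [Pi.smul_apply, hc J, smul_zero]
    rfl
  -- the relations hold on the orbit
  have hrel : ∀ g ∈ G, ∀ J, ta (g * C).1 b J * β J₀ = ta (g * C).1 b J₀ * β J := by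
    intro g hg J
    have h1 := hcon (P J * MvPolynomial.C (β J₀) - P J₀ * MvPolynomial.C (β J)) (by
        have h2 : ∀ (J : Fin q → ι) (c : K), (P J * MvPolynomial.C c).totalDegree ≤ q := by
          intro J c
          refine (MvPolynomial.totalDegree_mul _ _).trans ?_
          rw [MvPolynomial.totalDegree_C, add_zero]
          have h3 := (hPh J).totalDegree_le
          rwa [Fintype.card_fin] at h3
        refine ((MvPolynomial.totalDegree_sub _ _).trans (max_le (h2 _ _) (h2 _ _))).trans hq)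
      (by
        rw [map_sub, map_mul, map_mul, MvPolynomial.aeval_C, MvPolynomial.aeval_C, hval1, hval1,
          hCb]
        simp only [Pi.smul_apply, smul_eq_mul]
        change z * (β J : ℂ) * (β J₀ : ℂ) - z * (β J₀ : ℂ) * (β J : ℂ) = 0
        ring) g hg
    rw [map_sub, map_mul, map_mul, MvPolynomial.aeval_C, MvPolynomial.aeval_C, hval, hval,
      sub_eq_zero] at h1
    exact h1
  -- the line of `b` is stable under `G₀`
  have hline : ∀ g ∈ G₀, ∃ t : ℂ, ta g.1 b = t • b := by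
    intro g hg
    have h1 := hrel _ ((hGG g).1 hg)
    have e1 : C * g * C⁻¹ * C = C * g := by group
    rw [e1] at h1
    set t : ℂ := ta (C * g).1 b J₀ * (β J₀ : ℂ)⁻¹ * z⁻¹ with ht
    refine ⟨t, ?_⟩
    have h2 : ta (C * g).1 b = t • ta C.1 b := by
      rw [hCb]
      funext J
      rw [Pi.smul_apply, Pi.smul_apply, smul_eq_mul, smul_eq_mul, ht]
      have h3 := h1 J
      field_simp
      rw [h3]
    have e2 : C⁻¹ * (C * g) = g := by group
    have h4 : ta g.1 b = ta C⁻¹.1 (ta (C * g).1 b) := by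
      have h5 := ta_mul C⁻¹.1 (C * g).1 b
      rw [← Units.val_mul, e2] at h5
      exact h5
    rw [h4, h2, map_smul, ← ta_mul, ← Units.val_mul, inv_mul_cancel, Units.val_one, ta_one]
  have hder : ∀ X ∈ lie (G₀ : Set (GL ι ℂ)), ∃ c : ℂ, dt X b = c • b := by
    intro X hX
    have h1 := ((hDt ι (Fin q)).2.2 (gl X) X (one_gl X)).2.2 (Submodule.span ℂ {b}) (by
      intro s w hw
      obtain ⟨t, rfl⟩ := Submodule.mem_span_singleton.1 hw
      obtain ⟨t', ht'⟩ := hline _ (gl_mem (isSS_geo hss) hX s)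
      rw [map_smul, ht']
      exact Submodule.smul_mem _ _ (Submodule.smul_mem _ _ (Submodule.mem_span_singleton_self b)))
      b (Submodule.mem_span_singleton_self b)
    obtain ⟨c, hc⟩ := Submodule.mem_span_singleton.1 h1
    exact ⟨c, hc.symm⟩
  have hfix := hLfx ι (Fin q) G₀ b hss hder g₁ hg₁
  apply hne
  change ta (g₁.1 * y.1) a = ta y.1 a
  rw [ta_mul]
  exact hfix

end Pool.Agent.Lib.MPf11a48.CG
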