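import Pool.Agent.Lib.MP_f11a48_ag.CG.Core
import Pool.Agent.Lib.MP_f11a48_ag.CF.Pl
import Pool.Agent.Lib.MP_f11a48_ag.CF.St

/-!
# ST: subspaces of tensor spaces which are stable under the group of the torsor
-/

set_option autoImplicit false

namespace Pool.Agent.Lib.MPf11a48.CG

open Matrix
open Pool.Agent.Lib.MPf11a48.Tors
open Pool.Agent.Lib.MPf11a48.CM hiding OmegaM
open Pool.Agent.Lib.MPf11a48.GL2T
open Pool.Agent.Lib.MPf11a48.CF (ta pl)

namespace StN

theorem card_le {u n k D : ℕ} (hu : u ≤ n ^ k) (hk : k ≤ D) : u * k ≤ n ^ D * D := by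
  rcases Nat.eq_zero_or_pos k with h0 | h0
  · rw [h0, Nat.mul_zero]
    exact Nat.zero_le _
  · rcases Nat.eq_zero_or_pos n with h1 | h1
    · rw [h1, zero_pow h0.ne'] at hu
      rw [Nat.le_zero.1 hu, Nat.zero_mul]
      exact Nat.zero_le _
    · exact Nat.mul_le_mul (hu.trans (Nat.pow_le_pow_right h1 hk)) hk

theorem hasRel_mono {k : Type} [Field k] [Algebra k ℂ] {ι : Type} [Fintype ι] [DecidableEq ι]
    {n m : ℕ} (h : n ≤ m) {y : Matrix ι ι ℂ} {G₀ : Subgroup (GL ι ℂ)} (hr : HasRel k m y G₀) :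
    HasRel k n y G₀ :=
  fun F hF h0 => hr F (hF.trans h) h0

end StN

open StN in
open Pool.Agent.Lib.MPf11a48.CF.StM in
open Pool.Agent.Lib.MPf11a48.CF.CorM (ta_mul ta_one ta_apply) in
theorem specSt (hCore : SpecCore) (hKer : SpecKer) : SpecSt := by
  classical
  have hPl := Pool.Agent.Lib.MPf11a48.CF.specPl
  intro ι _ _ C₀ P Q s G G₀ hSS hG₀ hPQ hPalg hQalg hNcl
  -- invertibility
  have hdetC : C₀.1.det ≠ 0 := by
    have h1 : C₀.1 * C₀⁻¹.1 = 1 := C₀.mul_inv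
    have h2 := congrArg Matrix.det h1
    rw [Matrix.det_mul, Matrix.det_one] at h2
    intro h
    rw [h, zero_mul] at h2
    exact zero_ne_one h2
  have hdets : P.det ≠ 0 ∧ (∏ i, s i) ≠ 0 ∧ Q.det ≠ 0 := by
    rw [hPQ, Matrix.det_mul, Matrix.det_mul, Matrix.det_diagonal] at hdetC
    refine ⟨fun h => ?_, fun h => ?_, fun h => ?_⟩ <;> rw [h] at hdetC <;> simp at hdetC
  obtain ⟨hP, hsp, hQ⟩ := hdets
  have hs : ∀ i, s i ≠ 0 := fun i => Finset.prod_ne_zero_iff.1 hsp i (Finset.mem_univ i)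
  let Pg : GL ι ℂ := Matrix.GeneralLinearGroup.mkOfDetNeZero P hP
  let Qg : GL ι ℂ := Matrix.GeneralLinearGroup.mkOfDetNeZero Q hQ
  have hPg : Pg.1 = P := rfl
  have hQg : Qg.1 = Q := rfl
  have hPi : Pg⁻¹.1 = P⁻¹ := by
    rw [Matrix.coe_units_inv]
    rfl
  -- the field `K₀`
  let S : Set ℂ := (Set.range fun p : ι × ι => P p.1 p.2) ∪ (Set.range fun p : ι × ι => Q p.1 p.2) ∪
    ((Set.range fun p : ι × ι => s p.1 / s p.2) ∩ Qbar)
  have hSfin : S.Finite := ((Set.finite_range _).union (Set.finite_range _)).union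
    ((Set.finite_range _).inter_of_left _)
  have hSalg : ∀ x ∈ S, x ∈ Qbar := by
    rintro x ((⟨p, rfl⟩ | ⟨p, rfl⟩) | ⟨_, h⟩)
    · exact hPalg _ _
    · exact hQalg _ _
    · exact h
  let K₀ : IntermediateField ℚ ℂ := IntermediateField.adjoin ℚ S
  have : Finite S := hSfin
  have hK₀ : FiniteDimensional ℚ K₀ := IntermediateField.finiteDimensional_adjoin fun x hx =>
    (mem_algebraicClosure_iff.1 (hSalg x hx)).isIntegral
  have hSK : ∀ x ∈ S, x ∈ K₀ := fun x hx => IntermediateField.subset_adjoin ℚ S hx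
  refine ⟨Module.finrank ℚ K₀, ?_⟩
  intro D K hK y hRel R hR T hT hcT κ _ _ hκ U hU1 hU2 h hh w hw
  -- the field `K'`
  let K' : IntermediateField ℚ ℂ := K ⊔ K₀
  have hK'fin : FiniteDimensional ℚ K' := IntermediateField.finiteDimensional_sup K K₀
  have hK'le : Module.finrank ℚ K' ≤ Module.finrank ℚ K * Module.finrank ℚ K₀ :=
    IntermediateField.finrank_sup_le K K₀
  have hKK' : ∀ x ∈ K, x ∈ K' := fun x hx => (le_sup_left : K ≤ K ⊔ K₀) hx
  have hK₀K' : ∀ x ∈ K₀, x ∈ K' := fun x hx => (le_sup_right : K₀ ≤ K ⊔ K₀) hx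
  have hPK : ∀ i j, P i j ∈ K' := fun i j => hK₀K' _ (hSK _ (Or.inl (Or.inl ⟨(i, j), rfl⟩)))
  have hQK : ∀ i j, Q i j ∈ K' := fun i j => hK₀K' _ (hSK _ (Or.inl (Or.inr ⟨(i, j), rfl⟩)))
  have hPiK : ∀ i j, Pg⁻¹.1 i j ∈ K' := by
    intro i j
    rw [hPi]
    exact Pool.Agent.Lib.MPf11a48.CF.NcM.inv_mem hPK i j
  -- the subspace `U'`
  set c : GL ι ℂ := C₀ * y * R with hc
  let U' : Submodule ℂ ((κ → ι) → ℂ) := U.comap (ta c.1)
  have hU' : ∀ τ : ℂ ≃+* ℂ, FixesField K τ → ∀ v ∈ U', (fun J => τ (v J)) ∈ U' := by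
    intro τ hτ v hv
    change ta c.1 (fun J => τ (v J)) ∈ U
    have hv' : ta c.1 v ∈ U := hv
    have h1 := hU2 τ hτ _ hv'
    rw [ta_map] at h1
    have h2 : (tw τ c).1 = c.1.map τ := rfl
    rw [← h2] at h1
    have h3 : c * (tw τ c)⁻¹ ∈ grp T := ⟨c, hcT, tw τ c, hT.closed.tw_mem hτ hcT, rfl⟩
    have h4 := hU1 _ h3 _ h1
    rw [← ta_gl_mul, inv_mul_cancel_right] at h4
    exact h4
  have hUmap : U'.map (taE (κ := κ) c).toLinearMap = U := by
    ext v
    constructor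
    · rintro ⟨v', hv', rfl⟩
      exact hv'
    · intro hv
      refine ⟨ta c⁻¹.1 v, ?_, ta_ta_inv c v⟩
      change ta c.1 (ta c⁻¹.1 v) ∈ U
      rw [ta_ta_inv]
      exact hv
  set u := Module.finrank ℂ U with hu
  have hu' : Module.finrank ℂ U' = u := by
    rw [hu, ← hUmap]
    exact (LinearEquiv.finrank_map_eq (taE c) U').symm
  obtain ⟨e, heK, heli, hespan⟩ := basisK K U' hU' u hu'
  obtain ⟨f, hfK, hfli, hfspan⟩ := basisK K U hU2 u rfl
  have hule : u ≤ Fintype.card ι ^ Fintype.card κ := by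
    have h1 := Submodule.finrank_le U
    rw [Module.finrank_fintype_fun_eq_card, Fintype.card_fun] at h1
    exact h1
  -- `e'` and its Plücker coordinates
  set e' : Fin u → (κ → ι) → ℂ := fun a => ta R.1 (e a) with he'
  have he'K : ∀ a J, e' a J ∈ K := fun a J => ta_mem hR (heK a) J
  have hplK : ∀ J, pl e' J ∈ K' := fun J => hKK' _ (det_mem fun a b => he'K a _)
  set α : (Fin u × κ → ι) → K' := fun J => ⟨pl e' J, hplK J⟩ with hα
  have hαe : (fun I => (α I : ℂ)) = pl e' := rfl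
  -- `L`
  have hL : ∀ a, ∃ L : Fin u → ℂ, ∑ b, L b • f b = ta (C₀ * y).1 (e' a) := by
    intro a
    apply (Submodule.mem_span_range_iff_exists_fun ℂ).1
    rw [hfspan]
    have h1 : e a ∈ U' := by
      rw [← hespan]
      exact Submodule.subset_span ⟨a, rfl⟩
    have h2 : ta (C₀ * y).1 (e' a) = ta c.1 (e a) := by
      rw [he', hc, ta_gl_mul (C₀ * y) R]
    rw [h2]
    exact h1
  choose L hL using hL
  have hplL : ta (C₀ * y).1 (pl e') = (Matrix.of L).det • pl f := by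
    rw [(hPl ι κ u).1, ← (hPl ι κ u).2.1]
    congr 1
    funext a
    exact (hL a).symm
  -- `b`
  set b : (Fin u × κ → ι) → ℂ := ta (Q * y.1) (pl e') with hb
  set a' : (Fin u × κ → ι) → ℂ := ta Pg⁻¹.1 (pl f) with ha'
  have ha'K : ∀ J, a' J ∈ K' := fun J => ta_mem hPiK (fun J => hKK' _ (det_mem fun a b => hfK a _)) J
  have hsb : ∀ J, (∏ k, s (J k)) * b J = (Matrix.of L).det * a' J := by
    intro J
    rw [← ta_diag]
    have h1 : ta (diagonal s) b = (Matrix.of L).det • a' := by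
      have h2 : ta P (ta (diagonal s) b) = ta (C₀ * y).1 (pl e') := by
        rw [hb, ← ta_mul, ← ta_mul, Units.val_mul, hPQ]
        congr 1
        simp only [Matrix.mul_assoc]
      rw [hplL] at h2
      have h3 := congrArg (ta (κ := Fin u × κ) Pg⁻¹.1) h2
      rw [← hPg, ta_inv_ta, map_smul] at h3
      exact h3
    rw [h1]
    rfl
  have hratio : ∀ J J' : Fin u × κ → ι, (∀ k, s (J k) / s (J' k) ∈ K') → b J' ≠ 0 →
      b J / b J' ∈ K' := by
    intro J J' hJJ hbJ'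
    have h1 := hsb J
    have h2 := hsb J'
    have hsJ : (∏ k, s (J k)) ≠ 0 := Finset.prod_ne_zero_iff.2 fun k _ => hs _
    have hsJ' : (∏ k, s (J' k)) ≠ 0 := Finset.prod_ne_zero_iff.2 fun k _ => hs _
    have h3 : (Matrix.of L).det * a' J' ≠ 0 := by
      rw [← h2]
      exact mul_ne_zero hsJ' hbJ'
    have h4 := left_ne_zero_of_mul h3
    have h5 := right_ne_zero_of_mul h3
    have h6 : b J / b J' = a' J / a' J' * (∏ k, s (J k) / s (J' k))⁻¹ := by
      rw [Finset.prod_div_distrib]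
      have e1 : b J = (Matrix.of L).det * a' J / ∏ k, s (J k) := by
        rw [eq_div_iff hsJ, mul_comm]
        exact h1
      have e2 : b J' = (Matrix.of L).det * a' J' / ∏ k, s (J' k) := by
        rw [eq_div_iff hsJ', mul_comm]
        exact h2
      rw [e1, e2]
      field_simp
    rw [h6]
    exact K'.mul_mem (K'.div_mem (ha'K J) (ha'K J')) (K'.inv_mem (K'.prod_mem fun k _ => hJJ k))
  -- relations
  have hrel : HasRel K' (Fintype.card (Fin u × κ)) y.1 G₀ := by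
    refine hasRel_mono ?_ (hRel K' le_sup_left hK'fin hK'le)
    rw [Fintype.card_prod, Fintype.card_fin]
    exact card_le hule hκ
  -- block diagonal elements
  obtain ⟨m₁, hm₁, m₂, hm₂, hs₁, hs₂, hnon⟩ := hNcl
  have hconj : ∀ k ∈ G, C₀⁻¹ * k * C₀ ∈ G₀ := by
    intro k hk
    rw [hG₀]
    have h1 : C₀ * (C₀⁻¹ * k * C₀) * C₀⁻¹ = k := by group
    rwa [h1]
  have hblock : ∀ k : GL ι ℂ, (∀ i j, (P⁻¹ * k.1 * P) i j ≠ 0 → s i / s j ∈ Qbar) →
      ∀ i j, (Qg * (C₀⁻¹ * k * C₀) * Qg⁻¹).1 i j ≠ 0 → s i / s j ∈ K' := by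
    intro k hk i j hij
    have hQQ : Qg.1 * Qg⁻¹.1 = 1 := Qg.mul_inv
    have hPP : P⁻¹ * P = 1 := by
      rw [← hPi]
      exact Pg.inv_mul
    have h1 : C₀.1 * Qg⁻¹.1 = P * diagonal s := by
      rw [hPQ, ← hQg, Matrix.mul_assoc, hQQ, Matrix.mul_one]
    have h2 : diagonal s * (Qg * (C₀⁻¹ * k * C₀) * Qg⁻¹).1 = P⁻¹ * k.1 * P * diagonal s := by
      have h3 : P * (diagonal s * (Qg * (C₀⁻¹ * k * C₀) * Qg⁻¹).1) = k.1 * (P * diagonal s) := by
        rw [← h1]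
        have h4 : P * (diagonal s * (Qg * (C₀⁻¹ * k * C₀) * Qg⁻¹).1) =
            (P * diagonal s * Q) * ((C₀⁻¹ * k * C₀).1 * Qg⁻¹.1) := by
          simp only [Units.val_mul, hQg, Matrix.mul_assoc]
        rw [h4, ← hPQ]
        have h5 : C₀.1 * C₀⁻¹.1 = 1 := C₀.mul_inv
        calc C₀.1 * ((C₀⁻¹ * k * C₀).1 * Qg⁻¹.1)
            = (C₀.1 * C₀⁻¹.1) * (k.1 * (C₀.1 * Qg⁻¹.1)) := by
              simp only [Units.val_mul, Matrix.mul_assoc]
          _ = k.1 * (C₀.1 * Qg⁻¹.1) := by rw [h5, Matrix.one_mul]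
      calc diagonal s * (Qg * (C₀⁻¹ * k * C₀) * Qg⁻¹).1
          = (P⁻¹ * P) * (diagonal s * (Qg * (C₀⁻¹ * k * C₀) * Qg⁻¹).1) := by
            rw [hPP, Matrix.one_mul]
        _ = P⁻¹ * (P * (diagonal s * (Qg * (C₀⁻¹ * k * C₀) * Qg⁻¹).1)) := by
            rw [Matrix.mul_assoc]
        _ = P⁻¹ * k.1 * P * diagonal s := by
            rw [h3]
            simp only [Matrix.mul_assoc]
    have h3 := congrFun (congrFun h2 i) j
    rw [Matrix.diagonal_mul, Matrix.mul_diagonal] at h3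
    have h4 : (P⁻¹ * k.1 * P) i j ≠ 0 := by
      intro h5
      rw [h5, zero_mul] at h3
      exact (mul_ne_zero (hs i) hij) h3
    exact hK₀K' _ (hSK _ (Or.inr ⟨⟨(i, j), rfl⟩, hk i j h4⟩))
  set l₁ := C₀⁻¹ * m₁ * C₀ with hl₁
  set l₂ := C₀⁻¹ * m₂ * C₀ with hl₂
  have hcomm := hCore ι (Fin u × κ) K' y Qg G₀ s α hrel hQK hs
    (fun J J' hJJ hJ' => hratio J J' hJJ hJ') l₁ (hconj m₁ hm₁) l₂ (hconj m₂ hm₂)
    (hblock m₁ hs₁) (hblock m₂ hs₂)
  set l := m₁ * m₂ * m₁⁻¹ * m₂⁻¹ with hl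
  have hlG : l ∈ G := G.mul_mem (G.mul_mem (G.mul_mem hm₁ hm₂) (G.inv_mem hm₁)) (G.inv_mem hm₂)
  -- KER
  let Uα : Submodule ℂ ((Fin u × κ → ι) → ℂ) :=
    Submodule.span ℂ {w | ∃ g ∈ G₀, w = ta (C₀ * g * y).1 (pl e')}
  have hUα1 : ∀ g ∈ G, ∀ w ∈ Uα, ta g.1 w ∈ Uα := by
    intro g hg w hw
    induction hw using Submodule.span_induction with
    | mem x hx =>
      obtain ⟨g', hg', rfl⟩ := hx
      rw [← ta_gl_mul]
      refine Submodule.subset_span ⟨(C₀⁻¹ * g * C₀) * g', G₀.mul_mem (hconj g hg) hg', ?_⟩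
      have h1 : g * (C₀ * g' * y) = C₀ * (C₀⁻¹ * g * C₀ * g') * y := by group
      rw [h1]
    | zero => rw [map_zero]; exact Submodule.zero_mem _
    | add x y _ _ hx hy => rw [map_add]; exact Submodule.add_mem _ hx hy
    | smul a x _ hx => rw [map_smul]; exact Submodule.smul_mem _ _ hx
  have hUα2 : ∀ w ∈ Uα, ta l.1 w = w := by
    intro w hw
    induction hw using Submodule.span_induction with
    | mem x hx =>
      obtain ⟨g', hg', rfl⟩ := hx
      rw [← ta_gl_mul]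
      have h1 : l * (C₀ * g' * y) = C₀ * (l₁ * l₂ * l₁⁻¹ * l₂⁻¹ * g' * y) := by
        rw [hl, hl₁, hl₂]
        group
      have h2 : C₀ * g' * y = C₀ * (g' * y) := by group
      rw [h1, h2, ta_gl_mul C₀, ta_gl_mul C₀]
      exact congrArg (ta (κ := Fin u × κ) C₀.1) (hcomm g' hg')
    | zero => rw [map_zero]
    | add x y _ _ hx hy => rw [map_add, hx, hy]
    | smul a x _ hx => rw [map_smul, hx]
  have hker := hKer ι (Fin u × κ) G hSS Uα hUα1 l hlG hnon hUα2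
  have hfix : ∀ g ∈ G₀, ta (g * y).1 (pl e') = ta y.1 (pl e') := by
    intro g hg
    have h1 := hker (C₀ * g * C₀⁻¹) ((hG₀ g).1 hg) (ta (C₀ * 1 * y).1 (pl e'))
      (Submodule.subset_span ⟨1, G₀.one_mem, rfl⟩)
    rw [← ta_gl_mul] at h1
    have h2 : C₀ * g * C₀⁻¹ * (C₀ * 1 * y) = C₀ * (g * y) := by group
    have h3 : C₀ * 1 * y = C₀ * y := by rw [mul_one]
    rw [h2, h3, ta_gl_mul C₀, ta_gl_mul C₀] at h1
    have h4 := congrArg (ta (κ := Fin u × κ) C₀⁻¹.1) h1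
    rw [ta_inv_ta, ta_inv_ta] at h4
    exact h4
  -- the final step
  have he'li : ∀ g : GL ι ℂ, LinearIndependent ℂ fun a => ta g.1 (e' a) := by
    intro g
    have h1 : (fun a => ta g.1 (e' a)) = fun a => (taE (κ := κ) (g * R)) (e a) := by
      funext a
      rw [taE_apply, ta_gl_mul]
    rw [h1]
    exact heli.map' _ (LinearEquiv.ker (taE (κ := κ) (g * R)))
  have hspan : ∀ g ∈ G₀, Submodule.span ℂ (Set.range fun a => ta (g * y).1 (e' a))
      = Submodule.span ℂ (Set.range fun a => ta y.1 (e' a)) := by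
    intro g hg
    apply (hPl ι κ u).2.2 _ _ (he'li (g * y)) (he'li y)
    have e1 := (hPl ι κ u).1 (g * y).1 e'
    have e2 := (hPl ι κ u).1 y.1 e'
    rw [← e1, ← e2]
    exact hfix g hg
  have hstab : ∀ g ∈ G₀, ∀ v ∈ Submodule.span ℂ (Set.range fun a => ta y.1 (e' a)),
      ta g.1 v ∈ Submodule.span ℂ (Set.range fun a => ta y.1 (e' a)) := by
    intro g hg v hv
    rw [← hspan g hg]
    induction hv using Submodule.span_induction with
    | mem x hx =>
      obtain ⟨a, rfl⟩ := hx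
      apply Submodule.subset_span
      exact ⟨a, ta_gl_mul g y (e' a)⟩
    | zero => rw [map_zero]; exact Submodule.zero_mem _
    | add x y _ _ hx hy => rw [map_add]; exact Submodule.add_mem _ hx hy
    | smul a x _ hx => rw [map_smul]; exact Submodule.smul_mem _ _ hx
  have hUeq : ∀ v, v ∈ U ↔ ta C₀⁻¹.1 v ∈ Submodule.span ℂ (Set.range fun a => ta y.1 (e' a)) := by
    intro v
    have h1 : U = (Submodule.span ℂ (Set.range fun a => ta y.1 (e' a))).map
        (taE (κ := κ) C₀).toLinearMap := by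
      rw [← hUmap, ← hespan, Submodule.map_span, Submodule.map_span]
      congr 1
      ext x
      simp only [Set.mem_image, Set.mem_range, exists_exists_eq_and]
      refine exists_congr fun a => ?_
      change ta c.1 (e a) = x ↔ ta C₀.1 (ta y.1 (e' a)) = x
      rw [he', hc, ta_gl_mul, ta_gl_mul]
    constructor
    · intro hv
      rw [h1] at hv
      obtain ⟨v', hv', rfl⟩ := hv
      change ta C₀⁻¹.1 (ta C₀.1 v') ∈ _
      rw [ta_inv_ta]
      exact hv'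
    · intro hv
      rw [h1]
      exact ⟨_, hv, ta_ta_inv C₀ v⟩
  rw [hUeq] at hw ⊢
  have h1 := hstab _ (hconj h hh) _ hw
  have h2 : ta (C₀⁻¹ * h * C₀).1 (ta C₀⁻¹.1 w) = ta C₀⁻¹.1 (ta h.1 w) := by
    rw [← ta_gl_mul, ← ta_gl_mul]
    congr 2
    group
  rw [h2] at h1
  exact h1

end Pool.Agent.Lib.MPf11a48.CG
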