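import Pool.Agent.Lib.MP_f11a48_ag.CG.SpecA
import Pool.Agent.Lib.MP_f11a48_ag.CG.St

/-!
# PLK: a stable subspace which is not stable under the group gives a tensor which is not fixed
-/

set_option autoImplicit false

namespace Pool.Agent.Lib.MPf11a48.CG

open Matrix
open Pool.Agent.Lib.MPf11a48.Tors
open Pool.Agent.Lib.MPf11a48.CM hiding OmegaM
open Pool.Agent.Lib.MPf11a48.GL2T
open Pool.Agent.Lib.MPf11a48.CF (ta pl)

namespace PlkM

open Pool.Agent.Lib.MPf11a48.CF.CorM (ta_apply)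

variable {ι κ κ' : Type} [Fintype ι] [DecidableEq ι] [Fintype κ] [DecidableEq κ] [Fintype κ']
  [DecidableEq κ']

omit [DecidableEq ι] in
/-- the action on tensors commutes with a renumbering of the factors -/
theorem ta_rei (ε : κ' ≃ κ) (g : Matrix ι ι ℂ) (w : (κ → ι) → ℂ) :
    ta g (fun I : κ' → ι => w (I ∘ ε.symm)) = fun I : κ' → ι => ta g w (I ∘ ε.symm) := by
  classical
  funext J
  rw [ta_apply, ta_apply]
  let E : (κ' → ι) ≃ (κ → ι) := ε.arrowCongr (Equiv.refl ι)
  refine Fintype.sum_equiv E _ _ fun J' => ?_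
  have e1 : E J' = J' ∘ ε.symm := rfl
  rw [e1]
  congr 1
  exact (Equiv.prod_comp ε.symm fun x => g (J x) (J' x)).symm

end PlkM

open PlkM StN in
open Pool.Agent.Lib.MPf11a48.CF.StM in
theorem specPlk : SpecPlk := by
  classical
  have hPl := Pool.Agent.Lib.MPf11a48.CF.specPl
  intro ι _ _ K C₁ y R G G₀ T D hG₁ hR hT hcT hnot
  by_contra hcon
  refine hnot ?_
  intro κ _ _ hκ U hU1 hU2 h hh w hw
  -- the subspace `U'`
  set c : GL ι ℂ := C₁ * y * R with hc
  let U' : Submodule ℂ ((κ → ι) → ℂ) := U.comap (ta c.1)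
  have hU' : ∀ τ : ℂ ≃+* ℂ, FixesField K τ → ∀ v ∈ U', (fun J => τ (v J)) ∈ U' := by
    intro τ hτ v hv
    change ta c.1 (fun J => τ (v J)) ∈ U
    have hv' : ta c.1 v ∈ U := hv
    have h1 := hU2 τ hτ _ hv'
    rw [ta_map] at h1
    have h2 : (tw τ c).1 = c.1.map τ := rfl
    rw [← h2] at h1
    have h3 : c * (tw τ c)⁻¹ ∈ grp T := ⟨c, hcT, tw τ c, hT.closed.tw_mem hτ hcT, rfl⟩
    have h4 := hU1 _ h3 _ h1
    rw [← ta_gl_mul, inv_mul_cancel_right] at h4
    exact h4
  have hUmap : U'.map (taE (κ := κ) c).toLinearMap = U := by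
    ext v
    constructor
    · rintro ⟨v', hv', rfl⟩
      exact hv'
    · intro hv
      refine ⟨ta c⁻¹.1 v, ?_, ta_ta_inv c v⟩
      change ta c.1 (ta c⁻¹.1 v) ∈ U
      rw [ta_ta_inv]
      exact hv
  set u := Module.finrank ℂ U with hu
  have hu' : Module.finrank ℂ U' = u := by
    rw [hu, ← hUmap]
    exact (LinearEquiv.finrank_map_eq (taE c) U').symm
  obtain ⟨e, heK, heli, hespan⟩ := basisK K U' hU' u hu'
  obtain ⟨f, hfK, hfli, hfspan⟩ := basisK K U hU2 u rfl
  have hule : u ≤ Fintype.card ι ^ Fintype.card κ := by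
    have h1 := Submodule.finrank_le U
    rw [Module.finrank_fintype_fun_eq_card, Fintype.card_fun] at h1
    exact h1
  -- `e'` and its Plücker coordinates
  set e' : Fin u → (κ → ι) → ℂ := fun a => ta R.1 (e a) with he'
  have he'K : ∀ a J, e' a J ∈ K := fun a J => ta_mem hR (heK a) J
  have hplK : ∀ J, pl e' J ∈ K := fun J => det_mem fun a b => he'K a _
  have hplfK : ∀ J, pl f J ∈ K := fun J => det_mem fun a b => hfK a _
  -- `L`
  have hL : ∀ a, ∃ L : Fin u → ℂ, ∑ b, L b • f b = ta (C₁ * y).1 (e' a) := by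
    intro a
    apply (Submodule.mem_span_range_iff_exists_fun ℂ).1
    rw [hfspan]
    have h1 : e a ∈ U' := by
      rw [← hespan]
      exact Submodule.subset_span ⟨a, rfl⟩
    have h2 : ta (C₁ * y).1 (e' a) = ta c.1 (e a) := by
      rw [he', hc, ta_gl_mul (C₁ * y) R]
    rw [h2]
    exact h1
  choose L hL using hL
  have hplL : ta (C₁ * y).1 (pl e') = (Matrix.of L).det • pl f := by
    rw [(hPl ι κ u).1, ← (hPl ι κ u).2.1]
    congr 1
    funext a
    exact (hL a).symm
  set q := u * Fintype.card κ with hq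
  have hcard : Fintype.card (Fin u × κ) = q := by
    rw [Fintype.card_prod, Fintype.card_fin]
  have hqle : q ≤ Fintype.card ι ^ D * D := card_le hule hκ
  let ε : Fin q ≃ Fin u × κ := Fintype.equivOfCardEq (by rw [Fintype.card_fin, hcard])
  have hrei : ∀ g : GL ι ℂ, ta g.1 (fun I : Fin q → ι => pl e' (I ∘ ε.symm)) =
      fun I : Fin q → ι => ta g.1 (pl e') (I ∘ ε.symm) := fun g => ta_rei ε g.1 (pl e')
  have hback : ∀ v v' : (Fin u × κ → ι) → ℂ, (fun I : Fin q → ι => v (I ∘ ε.symm)) =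
      (fun I : Fin q → ι => v' (I ∘ ε.symm)) → v = v' := by
    intro v v' hvv
    funext J
    have h1 := congrFun hvv (J ∘ ε)
    have h2 : (J ∘ ε) ∘ ε.symm = J := by
      funext x
      simp
    simp only [h2] at h1
    exact h1
  -- all elements of `G₀` fix the tensor
  have hfix : ∀ g ∈ G₀, ta (g * y).1 (pl e') = ta y.1 (pl e') := by
    intro g hg
    by_contra hne
    refine hcon ⟨q, fun I => ⟨pl e' (I ∘ ε.symm), hplK _⟩, fun I => ⟨pl f (I ∘ ε.symm), hplfK _⟩,
      (Matrix.of L).det, hqle, ?_, ?_, g, hg, ?_⟩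
    · change ta y.1 (fun I : Fin q → ι => pl e' (I ∘ ε.symm)) ≠ 0
      rw [hrei]
      intro h0
      have h1 : ta y.1 (pl e') = 0 := by
        refine hback _ _ ?_
        rw [h0]
        rfl
      refine hne ?_
      rw [ta_gl_mul, h1, map_zero]
    · change ta (C₁ * y).1 (fun I : Fin q → ι => pl e' (I ∘ ε.symm)) =
        (Matrix.of L).det • fun I : Fin q → ι => pl f (I ∘ ε.symm)
      rw [hrei, hplL]
      rfl
    · change ta (g * y).1 (fun I : Fin q → ι => pl e' (I ∘ ε.symm)) ≠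
        ta y.1 (fun I : Fin q → ι => pl e' (I ∘ ε.symm))
      rw [hrei, hrei]
      intro h0
      exact hne (hback _ _ h0)
  -- the final step
  have he'li : ∀ g : GL ι ℂ, LinearIndependent ℂ fun a => ta g.1 (e' a) := by
    intro g
    have h1 : (fun a => ta g.1 (e' a)) = fun a => (taE (κ := κ) (g * R)) (e a) := by
      funext a
      rw [taE_apply, ta_gl_mul]
    rw [h1]
    exact heli.map' _ (LinearEquiv.ker (taE (κ := κ) (g * R)))
  have hspan : ∀ g ∈ G₀, Submodule.span ℂ (Set.range fun a => ta (g * y).1 (e' a))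
      = Submodule.span ℂ (Set.range fun a => ta y.1 (e' a)) := by
    intro g hg
    apply (hPl ι κ u).2.2 _ _ (he'li (g * y)) (he'li y)
    have e1 := (hPl ι κ u).1 (g * y).1 e'
    have e2 := (hPl ι κ u).1 y.1 e'
    rw [← e1, ← e2]
    exact hfix g hg
  have hstab : ∀ g ∈ G₀, ∀ v ∈ Submodule.span ℂ (Set.range fun a => ta y.1 (e' a)),
      ta g.1 v ∈ Submodule.span ℂ (Set.range fun a => ta y.1 (e' a)) := by
    intro g hg v hv
    rw [← hspan g hg]
    induction hv using Submodule.span_induction with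
    | mem x hx =>
      obtain ⟨a, rfl⟩ := hx
      apply Submodule.subset_span
      exact ⟨a, ta_gl_mul g y (e' a)⟩
    | zero => rw [map_zero]; exact Submodule.zero_mem _
    | add x y _ _ hx hy => rw [map_add]; exact Submodule.add_mem _ hx hy
    | smul a x _ hx => rw [map_smul]; exact Submodule.smul_mem _ _ hx
  have hUeq : ∀ v, v ∈ U ↔ ta C₁⁻¹.1 v ∈ Submodule.span ℂ (Set.range fun a => ta y.1 (e' a)) := by
    intro v
    have h1 : U = (Submodule.span ℂ (Set.range fun a => ta y.1 (e' a))).map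
        (taE (κ := κ) C₁).toLinearMap := by
      rw [← hUmap, ← hespan, Submodule.map_span, Submodule.map_span]
      congr 1
      ext x
      simp only [Set.mem_image, Set.mem_range, exists_exists_eq_and]
      refine exists_congr fun a => ?_
      change ta c.1 (e a) = x ↔ ta C₁.1 (ta y.1 (e' a)) = x
      rw [he', hc, ta_gl_mul, ta_gl_mul]
    constructor
    · intro hv
      rw [h1] at hv
      obtain ⟨v', hv', rfl⟩ := hv
      change ta C₁⁻¹.1 (ta C₁.1 v') ∈ _
      rw [ta_inv_ta]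
      exact hv'
    · intro hv
      rw [h1]
      exact ⟨_, hv, ta_ta_inv C₁ v⟩
  rw [hUeq] at hw ⊢
  have hconj : C₁⁻¹ * h * C₁ ∈ G₀ := by
    rw [hG₁]
    have h1 : C₁ * (C₁⁻¹ * h * C₁) * C₁⁻¹ = h := by group
    rwa [h1]
  have h1 := hstab _ hconj _ hw
  have h2 : ta (C₁⁻¹ * h * C₁).1 (ta C₁⁻¹.1 w) = ta C₁⁻¹.1 (ta h.1 w) := by
    rw [← ta_gl_mul, ← ta_gl_mul]
    congr 2
    group
  rw [h2] at h1
  exact h1

end Pool.Agent.Lib.MPf11a48.CG
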