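import Pool.Agent.Lib.MP_f11a48_ag.CG.Spec
import Pool.Agent.Lib.MP_f11a48_ag.CF.Rel

/-!
# Module REL: relations of bounded degree between the values of a matrix of G-functions
-/

set_option autoImplicit false

namespace Pool.Agent.Lib.MPf11a48.CG.RelM

open Polynomial Matrix
open scoped PowerSeries
open Pool.Agent.Lib.MPf11a48.GF Pool.Agent.Lib.MPf11a48.GF.EstM
open Pool.Agent.Lib.MPf11a48.CF (vm)

/-- the terms of a series -/
noncomputable def tc (f : ℂ⟦X⟧) (z : ℂ) (k : ℕ) : ℂ := PowerSeries.coeff k f * z ^ k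

/-- absolute convergence -/
def SmC (f : ℂ⟦X⟧) (z : ℂ) : Prop := Summable fun k => ‖tc f z k‖

/-- the value -/
noncomputable def cval (f : ℂ⟦X⟧) (z : ℂ) : ℂ := ∑' k, tc f z k

theorem tc_add (f g : ℂ⟦X⟧) (z : ℂ) (k : ℕ) : tc (f + g) z k = tc f z k + tc g z k := by
  unfold tc
  rw [map_add]
  ring

theorem tc_mul (f g : ℂ⟦X⟧) (z : ℂ) (k : ℕ) :
    tc (f * g) z k = ∑ kl ∈ Finset.HasAntidiagonal.antidiagonal k, tc f z kl.1 * tc g z kl.2 := by
  unfold tc
  rw [PowerSeries.coeff_mul, Finset.sum_mul]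
  apply Finset.sum_congr rfl
  intro kl hkl
  rw [Finset.HasAntidiagonal.mem_antidiagonal] at hkl
  rw [← hkl, pow_add]
  ring

theorem add {f g : ℂ⟦X⟧} {z : ℂ} (hf : SmC f z) (hg : SmC g z) :
    SmC (f + g) z ∧ cval (f + g) z = cval f z + cval g z := by
  have hf' : Summable fun k => ‖tc f z k‖ := hf
  have hg' : Summable fun k => ‖tc g z k‖ := hg
  refine ⟨?_, ?_⟩
  · change Summable fun k => ‖tc (f + g) z k‖
    refine Summable.of_nonneg_of_le (fun _ => norm_nonneg _) (fun k => ?_) (hf'.add hg')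
    rw [tc_add]
    exact norm_add_le _ _
  · change ∑' k, tc (f + g) z k = ∑' k, tc f z k + ∑' k, tc g z k
    rw [← hf'.of_norm.tsum_add hg'.of_norm]
    exact tsum_congr fun k => tc_add f g z k

theorem mul {f g : ℂ⟦X⟧} {z : ℂ} (hf : SmC f z) (hg : SmC g z) :
    SmC (f * g) z ∧ cval (f * g) z = cval f z * cval g z := by
  have hf' : Summable fun k => ‖tc f z k‖ := hf
  have hg' : Summable fun k => ‖tc g z k‖ := hg
  refine ⟨?_, ?_⟩
  · change Summable fun k => ‖tc (f * g) z k‖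
    simp only [tc_mul]
    exact summable_norm_sum_mul_antidiagonal_of_summable_norm hf' hg'
  · change ∑' k, tc (f * g) z k = (∑' k, tc f z k) * ∑' k, tc g z k
    rw [tsum_mul_tsum_eq_tsum_sum_antidiagonal_of_summable_norm hf' hg']
    exact tsum_congr fun k => tc_mul f g z k

theorem zero (z : ℂ) : SmC 0 z ∧ cval 0 z = 0 := by
  constructor
  · change Summable fun k => ‖tc 0 z k‖
    simp only [tc, map_zero, zero_mul, norm_zero]
    exact summable_zero
  · simp [cval, tc]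

theorem const (c z : ℂ) : SmC (PowerSeries.C c) z ∧ cval (PowerSeries.C c) z = c := by
  have h0 : ∀ k, k ≠ 0 → tc (PowerSeries.C c) z k = 0 := by
    intro k hk
    rw [tc, PowerSeries.coeff_C, if_neg hk, zero_mul]
  constructor
  · change Summable fun k => ‖tc (PowerSeries.C c) z k‖
    apply summable_of_ne_finset_zero (s := {0})
    intro k hk
    rw [h0 k (by simpa using hk), norm_zero]
  · change ∑' k, tc (PowerSeries.C c) z k = c
    rw [tsum_eq_single 0 h0]
    simp [tc]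

theorem rat {f : ℚ⟦X⟧} {z : ℂ} (hf : Sm f z) :
    SmC (PowerSeries.map (algebraMap ℚ ℂ) f) z ∧
      cval (PowerSeries.map (algebraMap ℚ ℂ) f) z = pval f z := by
  have h0 : ∀ k, tc (PowerSeries.map (algebraMap ℚ ℂ) f) z k =
      ((PowerSeries.coeff k f : ℚ) : ℂ) * z ^ k := by
    intro k
    rw [tc, PowerSeries.coeff_map]
    rfl
  constructor
  · change Summable fun k => ‖tc (PowerSeries.map (algebraMap ℚ ℂ) f) z k‖
    simp only [h0]
    exact hf
  · exact tsum_congr h0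

theorem sum {κ : Type} (s : Finset κ) {f : κ → ℂ⟦X⟧} {z : ℂ} (h : ∀ i ∈ s, SmC (f i) z) :
    SmC (∑ i ∈ s, f i) z ∧ cval (∑ i ∈ s, f i) z = ∑ i ∈ s, cval (f i) z := by
  classical
  induction s using Finset.induction_on with
  | empty => exact zero z
  | insert a s ha ih =>
    have h1 : ∀ i ∈ s, SmC (f i) z := fun i hi => h i (Finset.mem_insert_of_mem hi)
    rw [Finset.sum_insert ha, Finset.sum_insert ha]
    have h2 := add (h a (Finset.mem_insert_self _ _)) (ih h1).1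
    exact ⟨h2.1, by rw [h2.2, (ih h1).2]⟩

/-- the value at a rational number of a polynomial in power series -/
theorem cval_peval {μ : Type} (v : μ → ℂ⟦X⟧) (ξ : ℚ) (z : ℂ) (hz : z = ξ)
    (hv : ∀ i, SmC (v i) z) (G : MvPolynomial μ ℚ[X]) :
    SmC (pevalC v G) z ∧ cval (pevalC v G) z =
      MvPolynomial.aeval (fun i => cval (v i) z) (G.map (Polynomial.evalRingHom ξ)) := by
  induction G using MvPolynomial.induction_on with
  | C p =>
    have h := specEval.2.2.1 p z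
    have e : pevalC v (MvPolynomial.C p) = PowerSeries.map (algebraMap ℚ ℂ) (p : ℚ⟦X⟧) := by
      unfold pevalC
      rw [MvPolynomial.eval₂_C]
      rfl
    rw [e]
    refine ⟨(rat h.1).1, ?_⟩
    rw [(rat h.1).2, h.2, MvPolynomial.map_C, MvPolynomial.aeval_C, hz]
    exact Polynomial.aeval_algebraMap_apply_eq_algebraMap_eval ξ p
  | add p q hp hq =>
    have e : pevalC v (p + q) = pevalC v p + pevalC v q := by
      unfold pevalC
      exact MvPolynomial.eval₂_add _ _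
    rw [e]
    refine ⟨(add hp.1 hq.1).1, ?_⟩
    rw [(add hp.1 hq.1).2, hp.2, hq.2, map_add, map_add]
  | mul_X p i hp =>
    have e : pevalC v (p * MvPolynomial.X i) = pevalC v p * v i := by
      unfold pevalC
      rw [MvPolynomial.eval₂_mul, MvPolynomial.eval₂_X]
    rw [e]
    refine ⟨(mul hp.1 (hv i)).1, ?_⟩
    rw [(mul hp.1 (hv i)).2, hp.2, map_mul, map_mul, MvPolynomial.map_X, MvPolynomial.aeval_X]

variable {ι : Type} [Fintype ι]

/-- the values of `g Y` -/
theorem vm_gY {Y : Matrix ι ι ℚ⟦X⟧} {z : ℂ} (hY : ∀ p : ι × ι, Sm (Y p.1 p.2) z)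
    (g : Matrix ι ι ℂ) (p : ι × ι) :
    SmC (gY g Y p.1 p.2) z ∧ cval (gY g Y p.1 p.2) z = (g * vm Y z) p.1 p.2 := by
  have h1 : ∀ k, SmC ((g.map (PowerSeries.C : ℂ →+* ℂ⟦X⟧)) p.1 k *
        (Y.map (PowerSeries.map (algebraMap ℚ ℂ))) k p.2) z ∧
      cval ((g.map (PowerSeries.C : ℂ →+* ℂ⟦X⟧)) p.1 k *
        (Y.map (PowerSeries.map (algebraMap ℚ ℂ))) k p.2) z = g p.1 k * pval (Y k p.2) z := by
    intro k
    have h2 := mul (const (g p.1 k) z).1 (rat (hY (k, p.2))).1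
    refine ⟨h2.1, h2.2.trans ?_⟩
    rw [(const (g p.1 k) z).2, (rat (hY (k, p.2))).2]
  have h3 := sum Finset.univ fun k _ => (h1 k).1
  rw [gY, Matrix.mul_apply, Matrix.mul_apply]
  refine ⟨h3.1, h3.2.trans ?_⟩
  exact Finset.sum_congr rfl fun k _ => (h1 k).2

end Pool.Agent.Lib.MPf11a48.CG.RelM

namespace Pool.Agent.Lib.MPf11a48.CG

open Polynomial Matrix
open scoped PowerSeries
open Pool.Agent.Lib.MPf11a48.GF Pool.Agent.Lib.MPf11a48.GF.EstM
open Pool.Agent.Lib.MPf11a48.CF (vm)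

open CF.MonoM RelM in
theorem specRel (hM : SpecMonoD) : SpecRel := by
  intro ι _ _ T B Y G₀ h n
  obtain ⟨C1, hC1⟩ := hM (ι × ι) T B (fun v => Y v.1 v.2) h.ne h.gal h.sol h.g n
  obtain ⟨C2, hC2⟩ := sm_of h.g
  refine ⟨C1 + C2, fun a b ha hb F hF h0 g hg => ?_⟩
  obtain ⟨G, hG0, hG1⟩ := hC1 a b ha (mono (Nat.le_add_right _ _) ha hb) F hF h0
  have hv := hC2 a b ha (mono (Nat.le_add_left _ _) ha hb)
  have h1 := (cval_peval (fun p : ι × ι => gY g.1 Y p.1 p.2) ((a : ℚ) / b) ((a : ℂ) / b)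
    (Rat.cast_div _ _).symm (fun p => (vm_gY hv g.1 p).1) G).2
  rw [h.mon G hG0 g hg, (zero _).2, hG1] at h1
  rw [h1]
  congr 1
  congr 1
  funext p
  exact (vm_gY hv g.1 p).2.symm

end Pool.Agent.Lib.MPf11a48.CG
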