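import Pool.Agent.Lib.MP_f11a48_ag.CG.SpecA
import Pool.Agent.Lib.MP_f11a48_ag.CG.Rel

/-!
# Module RELT: joint relations between the values of the translates of a family
-/

set_option autoImplicit false
set_option linter.unusedSectionVars false

namespace Pool.Agent.Lib.MPf11a48.CG.ReltM

open Polynomial Matrix
open scoped PowerSeries
open Pool.Agent.Lib.MPf11a48.GF Pool.Agent.Lib.MPf11a48.GF.EstM
open Pool.Agent.Lib.MPf11a48.CF (vm)

variable {ι σ : Type} [Fintype ι] [DecidableEq ι] [Fintype σ] [DecidableEq σ]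

/-- the variable of the block diagonal matrix -/
def bl (p : σ × ι × ι) : (ι × σ) × (ι × σ) := ((p.2.1, p.1), (p.2.2, p.1))

/-- the substitution: the variables outside the blocks are replaced by `0` -/
noncomputable def sb (R : Type) [CommSemiring R] (q : (ι × σ) × (ι × σ)) :
    MvPolynomial (σ × ι × ι) R :=
  if q.1.2 = q.2.2 then MvPolynomial.X (q.1.2, q.1.1, q.2.1) else 0

theorem sb_bl (R : Type) [CommSemiring R] (p : σ × ι × ι) :
    sb R (bl p) = MvPolynomial.X p := by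
  simp [sb, bl]

/-- substitution and evaluation -/
theorem eval₂_sb {R S : Type} [CommSemiring R] [CommSemiring S] (f : R →+* S)
    (v : σ × ι × ι → S) (w : (ι × σ) × (ι × σ) → S)
    (h : ∀ q, w q = if q.1.2 = q.2.2 then v (q.1.2, q.1.1, q.2.1) else 0)
    (H : MvPolynomial ((ι × σ) × (ι × σ)) R) :
    MvPolynomial.eval₂ f v (MvPolynomial.bind₁ (sb R) H) = MvPolynomial.eval₂ f w H := by
  induction H using MvPolynomial.induction_on with
  | C r =>
    rw [MvPolynomial.bind₁_C_right, MvPolynomial.eval₂_C, MvPolynomial.eval₂_C]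
  | add p q hp hq =>
    rw [map_add, MvPolynomial.eval₂_add, MvPolynomial.eval₂_add, hp, hq]
  | mul_X p q hp =>
    rw [map_mul, MvPolynomial.eval₂_mul, MvPolynomial.eval₂_mul, hp, MvPolynomial.bind₁_X_right,
      MvPolynomial.eval₂_X, h]
    congr 1
    unfold sb
    split_ifs
    · rw [MvPolynomial.eval₂_X]
    · rw [MvPolynomial.eval₂_zero]

/-- substitution after renaming -/
theorem bind_rename {R : Type} [CommSemiring R] (F : MvPolynomial (σ × ι × ι) R) :
    MvPolynomial.bind₁ (sb R) (MvPolynomial.rename bl F) = F := by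
  rw [MvPolynomial.bind₁_rename]
  have h : (sb R ∘ bl : σ × ι × ι → MvPolynomial (σ × ι × ι) R) = MvPolynomial.X := by
    funext p
    exact sb_bl R p
  rw [h, MvPolynomial.bind₁_X_left]
  rfl

/-- substitution and change of the coefficients -/
theorem map_sb {R S : Type} [CommSemiring R] [CommSemiring S] (f : R →+* S)
    (H : MvPolynomial ((ι × σ) × (ι × σ)) R) :
    (MvPolynomial.bind₁ (sb R) H).map f = MvPolynomial.bind₁ (sb S) (H.map f) := by
  rw [MvPolynomial.map_bind₁]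
  congr 2
  funext q
  unfold sb
  split_ifs
  · rw [MvPolynomial.map_X]
  · rw [map_zero]

theorem bd_apply {R : Type} [Zero R] (Y : σ → Matrix ι ι R) (q : (ι × σ) × (ι × σ)) :
    blockDiagonal Y q.1 q.2 = if q.1.2 = q.2.2 then Y q.1.2 q.1.1 q.2.1 else 0 :=
  rfl

theorem nil {N : Matrix ι ι ℚ} (h : IsNilpotent N) :
    IsNilpotent (blockDiagonal fun _ : σ => N) := by
  obtain ⟨k, hk⟩ := h
  refine ⟨k, ?_⟩
  rw [← Matrix.blockDiagonal_pow]
  ext i j
  rw [Matrix.blockDiagonal_apply]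
  simp [Pi.pow_apply, hk]

end Pool.Agent.Lib.MPf11a48.CG.ReltM

namespace Pool.Agent.Lib.MPf11a48.CG

open Polynomial Matrix
open scoped PowerSeries
open Pool.Agent.Lib.MPf11a48.GF Pool.Agent.Lib.MPf11a48.GF.EstM
open Pool.Agent.Lib.MPf11a48.CF (vm)

open CF.MonoM RelM ReltM in
theorem specRelt (hM : SpecMonoD) (hGalq : SpecGalq) (hTrq : SpecTrq) (hBlk : SpecBlk) :
    SpecRelt := by
  intro ι _ _ T B N ψ₀ Y G₀ h hN hψ hY hNψ r m hm n
  have hF : FamQ T B N ψ₀ Y := ⟨h.ne, h.sol, h.g, h.pol⟩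
  have h1 : ∀ x : Fin r, ∃ (T' : ℤ[X]) (B' : Matrix ι ι ℤ[X]), FamQ T' B' N ψ₀ (trm (m x) N Y) :=
    fun x => (hTrq ι T B N ψ₀ Y (m x) hF hNψ hN).1
  choose T1 B1 h1 using h1
  obtain ⟨T', B', h2⟩ := hBlk ι (Fin r) T1 B1 N ψ₀ (fun x => trm (m x) N Y) h1
  have hdet1 : (blockDiagonal fun _ : Fin r => ψ₀).det ≠ 0 := by
    rw [Matrix.det_blockDiagonal]
    exact Finset.prod_ne_zero_iff.mpr fun _ _ => hψ
  have hdet2 : (blockDiagonal fun x : Fin r => trm (m x) N Y).det ≠ 0 := by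
    rw [Matrix.det_blockDiagonal]
    exact Finset.prod_ne_zero_iff.mpr fun x _ => (hTrq ι T B N ψ₀ Y (m x) hF hNψ hN).2.1 hY
  obtain ⟨T₂, B₂, hT₂, hgal, hsol⟩ := hGalq (ι × Fin r) T' B' _ _ _ h2 (nil hN) hdet1 hdet2
  obtain ⟨C1, hC1⟩ := hM ((ι × Fin r) × (ι × Fin r)) T₂ B₂
    (fun v => (blockDiagonal fun x : Fin r => trm (m x) N Y) v.1 v.2) hT₂ hgal hsol h2.g n
  obtain ⟨C2, hC2⟩ := sm_of h2.g
  refine ⟨C1 + C2, fun a b ha hb F hF h0 g hg => ?_⟩
  set z : ℂ := (a : ℂ) / b with hz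
  -- the values of the entries of the block diagonal matrix
  have hval : ∀ q : (ι × Fin r) × (ι × Fin r),
      pval ((blockDiagonal fun x : Fin r => trm (m x) N Y) q.1 q.2) z =
        if q.1.2 = q.2.2 then vm (trm (m q.1.2) N Y) z q.1.1 q.2.1 else 0 := by
    intro q
    rw [bd_apply]
    split_ifs
    · rfl
    · simp [pval]
  have hF' : (MvPolynomial.rename bl F).totalDegree ≤ n :=
    (MvPolynomial.totalDegree_rename_le _ _).trans hF
  have h0' : MvPolynomial.aeval
      (fun q : (ι × Fin r) × (ι × Fin r) =>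
        pval ((blockDiagonal fun x : Fin r => trm (m x) N Y) q.1 q.2) z)
      (MvPolynomial.rename bl F) = 0 := by
    rw [MvPolynomial.aeval_rename, ← h0]
    congr 1
    congr 1
    funext p
    simp only [Function.comp_apply]
    rw [hval]
    simp [bl]
  obtain ⟨H, hH0, hH1⟩ := hC1 a b ha (mono (Nat.le_add_right _ _) ha hb) _ hF' h0'
  have hv := hC2 a b ha (mono (Nat.le_add_left _ _) ha hb)
  set G := MvPolynomial.bind₁ (sb ℚ[X]) H with hG
  have hG0 : peval (fun p : Fin r × ι × ι => trm (m p.1) N Y p.2.1 p.2.2) G = 0 := by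
    rw [← hH0, hG]
    unfold peval
    exact eval₂_sb _ _ _ (fun q => rfl) H
  have hG1 : G.map (Polynomial.evalRingHom ((a : ℚ) / b)) = F := by
    rw [hG, map_sb, hH1, bind_rename]
  have hv' : ∀ x (p : ι × ι), Sm (trm (m x) N Y p.1 p.2) z := by
    intro x p
    have h3 := hv ((p.1, x), (p.2, x))
    rw [bd_apply] at h3
    simpa using h3
  have h3 := (cval_peval
    (fun p : Fin r × ι × ι => gY (g p.1).1 (trm (m p.1) N Y) p.2.1 p.2.2) ((a : ℚ) / b) z
    (by rw [hz]; exact (Rat.cast_div _ _).symm) (fun p => (vm_gY (hv' p.1) (g p.1).1 p.2).1) G).2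
  rw [h.mon r m hm G hG0 g hg, (zero _).2, hG1] at h3
  rw [h3]
  congr 1
  congr 1
  funext p
  exact (vm_gY (hv' p.1) (g p.1).1 p.2).2.symm

end Pool.Agent.Lib.MPf11a48.CG
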