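import Pool.Agent.Lib.MP_f11a48_ag.CG.Spec

/-!
# Families near an object with few periods: specifications
-/

set_option autoImplicit false

namespace Pool.Agent.Lib.MPf11a48.CG

open Matrix
open Pool.Agent.Lib.MPf11a48.K3 (cx)
open Pool.Agent.Lib.MPf11a48.K3.KCurM (gl)

/-- EXQ: the coordinates of the action of `exp (-t N) * M` on tensors are polynomials in `t` with
coefficients in the field generated by the entries of `M` (constant if `N = 0`) -/
def SpecExq : Prop :=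
  ∀ (ι κ : Type) [Fintype ι] [DecidableEq ι] [Fintype κ] [DecidableEq κ] (N : Matrix ι ι ℚ)
    (M : Matrix ι ι ℂ) (k : Subfield ℂ), IsNilpotent N → (∀ i j, M i j ∈ k) →
    ∃ (d : ℕ) (P : (κ → ι) → (κ → ι) → Fin (d + 1) → ℂ), (N = 0 → d = 0) ∧
      (∀ J J' j, P J J' j ∈ k) ∧ ∀ (t : ℂ) (J J' : κ → ι),
        ∏ x, ((gl (cx N) t)⁻¹.1 * M) (J x) (J' x) = ∑ j, P J J' j * t ^ (j : ℕ)

end Pool.Agent.Lib.MPf11a48.CG
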