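import Pool.Agent.Lib.MP_f11a48_ag.CG.Spec2
import Pool.Agent.Lib.MP_f11a48_ag.CG.Spec3
import Pool.Agent.Lib.MP_f11a48_ag.CG.Cod
import Pool.Agent.Lib.MP_f11a48_ag.CG.St

/-!
# ST2: stable subspaces near a fibre with few periods
-/

set_option autoImplicit false

namespace Pool.Agent.Lib.MPf11a48.CG

open Matrix
open Pool.Agent.Lib.MPf11a48.Tors
open Pool.Agent.Lib.MPf11a48.CM hiding OmegaM
open Pool.Agent.Lib.MPf11a48.GL2T
open Pool.Agent.Lib.MPf11a48.CF (ta pl)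
open Pool.Agent.Lib.MPf11a48.GL2 (lie van en Geo tang lr)
open Pool.Agent.Lib.MPf11a48.K3 (cx)
open Pool.Agent.Lib.MPf11a48.K3.KCurM (gl)

namespace St2M

variable {ι : Type} [Fintype ι] [DecidableEq ι]

/-- the value of a homogeneous polynomial at a multiple -/
theorem aeval_mul {I : Type} [Fintype I] {K : Type} [Field K] [Algebra K ℂ] {n : ℕ}
    {F : MvPolynomial I K} (hF : F.IsHomogeneous n) (c : ℂ) (b : I → ℂ) :
    MvPolynomial.aeval (fun i => c * b i) F = c ^ n * MvPolynomial.aeval b F := by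
  rw [MvPolynomial.aeval_def, MvPolynomial.aeval_def, MvPolynomial.eval₂_eq',
    MvPolynomial.eval₂_eq', Finset.mul_sum]
  refine Finset.sum_congr rfl fun v hv => ?_
  have h1 : ∑ i, v i = n := by
    by_contra h
    refine MvPolynomial.mem_support_iff.1 hv (hF.coeff_eq_zero ?_)
    rwa [Finsupp.degree_eq_sum]
  rw [← h1, ← Finset.prod_pow_eq_pow_sum]
  simp only [mul_pow]
  rw [Finset.prod_mul_distrib]
  ring

/-- conjugation by `C` -/
def cj (C : GL ι ℂ) : Matrix ι ι ℂ ≃ₗ[ℂ] Matrix ι ι ℂ where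
  toFun X := C.1 * X * C⁻¹.1
  invFun X := C⁻¹.1 * X * C.1
  map_add' X Y := by rw [Matrix.mul_add, Matrix.add_mul]
  map_smul' a X := by rw [Matrix.mul_smul, Matrix.smul_mul, RingHom.id_apply]
  left_inv X := by
    have h : C⁻¹.1 * C.1 = 1 := C.inv_mul
    calc C⁻¹.1 * (C.1 * X * C⁻¹.1) * C.1 = (C⁻¹.1 * C.1) * X * (C⁻¹.1 * C.1) := by
          simp only [Matrix.mul_assoc]
      _ = X := by rw [h, Matrix.one_mul, Matrix.mul_one]
  right_inv X := by
    have h : C.1 * C⁻¹.1 = 1 := C.mul_inv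
    calc C.1 * (C⁻¹.1 * X * C.1) * C⁻¹.1 = (C.1 * C⁻¹.1) * X * (C.1 * C⁻¹.1) := by
          simp only [Matrix.mul_assoc]
      _ = X := by rw [h, Matrix.one_mul, Matrix.mul_one]

theorem cj_apply (C : GL ι ℂ) (X : Matrix ι ι ℂ) : cj C X = C.1 * X * C⁻¹.1 := rfl

theorem cj_mul (C : GL ι ℂ) (X Y : Matrix ι ι ℂ) : cj C X * cj C Y = cj C (X * Y) := by
  have h : C⁻¹.1 * C.1 = 1 := C.inv_mul
  simp only [cj_apply]
  calc C.1 * X * C⁻¹.1 * (C.1 * Y * C⁻¹.1) = C.1 * X * (C⁻¹.1 * C.1) * Y * C⁻¹.1 := by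
        simp only [Matrix.mul_assoc]
    _ = C.1 * (X * Y) * C⁻¹.1 := by rw [h, Matrix.mul_one]; simp only [Matrix.mul_assoc]

variable {G G₀ : Subgroup (GL ι ℂ)} {C : GL ι ℂ}

theorem van_conj (hG : ∀ g, g ∈ G₀ ↔ C * g * C⁻¹ ∈ G) (p : MvPolynomial (ι × ι) ℂ) :
    lr C⁻¹.1 C.1 p ∈ van (G : Set (GL ι ℂ)) ↔ p ∈ van (G₀ : Set (GL ι ℂ)) := by
  constructor
  · intro h g hg
    have h1 := h _ ((hG g).1 hg)
    rw [GL2.eval_lr] at h1
    have h2 : C⁻¹.1 * (C * g * C⁻¹).1 * C.1 = g.1 := by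
      rw [← Units.val_mul, ← Units.val_mul]
      congr 1
      group
    rwa [h2] at h1
  · intro h g hg
    rw [GL2.eval_lr]
    have h2 : C⁻¹.1 * g.1 * C.1 = (C⁻¹ * g * C).1 := by
      rw [Units.val_mul, Units.val_mul]
    rw [h2]
    refine h _ ((hG _).2 ?_)
    have h3 : C * (C⁻¹ * g * C) * C⁻¹ = g := by group
    rwa [h3]

theorem hG_symm (hG : ∀ g, g ∈ G₀ ↔ C * g * C⁻¹ ∈ G) (g : GL ι ℂ) :
    g ∈ G ↔ C⁻¹ * g * C⁻¹⁻¹ ∈ G₀ := by
  rw [hG]
  have h3 : C * (C⁻¹ * g * C⁻¹⁻¹) * C⁻¹ = g := by group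
  rw [h3]

/-- conjugation maps the Lie algebra to the Lie algebra -/
theorem lie_cj (hG : ∀ g, g ∈ G₀ ↔ C * g * C⁻¹ ∈ G) {X : Matrix ι ι ℂ}
    (hX : X ∈ lie (G₀ : Set (GL ι ℂ))) : cj C X ∈ lie (G : Set (GL ι ℂ)) := by
  intro f hf p hp
  have hf0 := (hG_symm hG f).1 hf
  have hp0 : lr C.1 C⁻¹.1 p ∈ van (G₀ : Set (GL ι ℂ)) := by
    have := (van_conj (C := C⁻¹) (hG_symm hG) p).2 hp
    rwa [inv_inv] at this
  have h1 := hX _ hf0 _ hp0
  rw [GL2.tang_lr] at h1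
  rw [inv_inv] at h1
  have e1 : C.1 * (C⁻¹ * f * C).1 * C⁻¹.1 = f.1 := by
    rw [← Units.val_mul, ← Units.val_mul]
    congr 1
    group
  have e2 : C.1 * (X * (C⁻¹ * f * C).1) * C⁻¹.1 = cj C X * f.1 := by
    rw [cj_apply]
    calc C.1 * (X * (C⁻¹ * f * C).1) * C⁻¹.1 = C.1 * X * (C⁻¹.1 * f.1 * (C.1 * C⁻¹.1)) := by
          rw [Units.val_mul, Units.val_mul]
          simp only [Matrix.mul_assoc]
      _ = C.1 * X * C⁻¹.1 * f.1 := by
          rw [show C.1 * C⁻¹.1 = 1 from C.mul_inv, Matrix.mul_one]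
          simp only [Matrix.mul_assoc]
  rw [e1, e2] at h1
  exact h1

theorem map_lie (hG : ∀ g, g ∈ G₀ ↔ C * g * C⁻¹ ∈ G) :
    (lie (G₀ : Set (GL ι ℂ))).map (cj C).toLinearMap = lie (G : Set (GL ι ℂ)) := by
  apply le_antisymm
  · rintro _ ⟨X, hX, rfl⟩
    exact lie_cj hG hX
  · intro X hX
    refine ⟨cj C⁻¹ X, lie_cj (hG_symm hG) hX, ?_⟩
    change cj C (cj C⁻¹ X) = X
    have : cj C⁻¹ X = (cj C).symm X := by
      change C⁻¹.1 * X * C⁻¹⁻¹.1 = C⁻¹.1 * X * C.1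
      rw [inv_inv]
    rw [this, LinearEquiv.apply_symm_apply]

theorem finrank_cj (h : Submodule ℂ (Matrix ι ι ℂ)) :
    Module.finrank ℂ (h.map (cj C).toLinearMap) = Module.finrank ℂ h :=
  (Submodule.equivMapOfInjective (cj C).toLinearMap (cj C).injective h).finrank_eq.symm

theorem adst_map (hG : ∀ g, g ∈ G₀ ↔ C * g * C⁻¹ ∈ G) {h : Submodule ℂ (Matrix ι ι ℂ)}
    (hh : Adst G₀ h) : Adst G (h.map (cj C).toLinearMap) := by
  rintro g hg _ ⟨X, hX, rfl⟩
  have h1 := hh _ ((hG_symm hG g).1 hg) X hX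
  refine ⟨_, h1, ?_⟩
  change cj C ((C⁻¹ * g * C⁻¹⁻¹).1 * X * (C⁻¹ * g * C⁻¹⁻¹)⁻¹.1) = g.1 * cj C X * g⁻¹.1
  simp only [cj_apply]
  have e1 : C.1 * (C⁻¹ * g * C⁻¹⁻¹).1 = g.1 * C.1 := by
    rw [← Units.val_mul, ← Units.val_mul]
    congr 1
    group
  have e2 : (C⁻¹ * g * C⁻¹⁻¹)⁻¹.1 * C⁻¹.1 = C⁻¹.1 * g⁻¹.1 := by
    rw [← Units.val_mul, ← Units.val_mul]
    congr 1
    group
  calc C.1 * ((C⁻¹ * g * C⁻¹⁻¹).1 * X * (C⁻¹ * g * C⁻¹⁻¹)⁻¹.1) * C⁻¹.1
      = (C.1 * (C⁻¹ * g * C⁻¹⁻¹).1) * X * ((C⁻¹ * g * C⁻¹⁻¹)⁻¹.1 * C⁻¹.1) := by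
        simp only [Matrix.mul_assoc]
    _ = g.1 * (C.1 * X * C⁻¹.1) * g⁻¹.1 := by
        rw [e1, e2]
        simp only [Matrix.mul_assoc]

/-- a conjugate which is defined over `ℚ` of a connected semisimple group -/
theorem isSS (hG : ∀ g, g ∈ G₀ ↔ C * g * C⁻¹ ∈ G) (h : IsSS G)
    (hc : ClosedOver ⊥ (G₀ : Set (GL ι ℂ))) : IsSS G₀ where
  closed := hc
  irred p q hpq := by
    rw [← van_conj hG] at hpq
    rw [map_mul] at hpq
    rcases h.irred _ _ hpq with h1 | h1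
    · exact Or.inl ((van_conj hG p).1 h1)
    · exact Or.inr ((van_conj hG q).1 h1)
  ss k hk hA hcomm := by
    have h1 := h.ss (k.map (cj C).toLinearMap)
      (by
        rw [← map_lie hG]
        exact Submodule.map_mono hk)
      (adst_map hG hA)
      (by
        rintro _ ⟨X, hX, rfl⟩ _ ⟨Y, hY, rfl⟩
        change cj C X * cj C Y = cj C Y * cj C X
        rw [cj_mul, cj_mul, hcomm X hX Y hY])
    exact Submodule.map_injective_of_injective (cj C).injective (h1.trans (Submodule.map_bot _).symm)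

theorem noSub (hG : ∀ g, g ∈ G₀ ↔ C * g * C⁻¹ ∈ G) {r : ℕ}
    (hno : ∀ h : Submodule ℂ (Matrix ι ι ℂ), h ≤ lie (G : Set (GL ι ℂ)) →
      (∀ X ∈ h, ∀ Y ∈ h, X * Y - Y * X ∈ h) →
      Module.finrank ℂ (lie (G : Set (GL ι ℂ))) ≤ Module.finrank ℂ h + r →
      h = lie (G : Set (GL ι ℂ))) (h : Submodule ℂ (Matrix ι ι ℂ))
    (hle : h ≤ lie (G₀ : Set (GL ι ℂ))) (hbr : ∀ X ∈ h, ∀ Y ∈ h, X * Y - Y * X ∈ h)
    (hfin : Module.finrank ℂ (lie (G₀ : Set (GL ι ℂ))) ≤ Module.finrank ℂ h + r) :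
    h = lie (G₀ : Set (GL ι ℂ)) := by
  have h1 := hno (h.map (cj C).toLinearMap)
    (by
      rw [← map_lie hG]
      exact Submodule.map_mono hle)
    (by
      rintro _ ⟨X, hX, rfl⟩ _ ⟨Y, hY, rfl⟩
      refine ⟨X * Y - Y * X, hbr X hX Y hY, ?_⟩
      change cj C (X * Y - Y * X) = cj C X * cj C Y - cj C Y * cj C X
      rw [map_sub, cj_mul, cj_mul])
    (by
      rw [← map_lie hG, finrank_cj, finrank_cj]
      exact hfin)
  rw [← map_lie hG] at h1
  exact Submodule.map_injective_of_injective (cj C).injective h1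

end St2M

open St2M StN in
open Pool.Agent.Lib.MPf11a48.CF.StM in
open Pool.Agent.Lib.MPf11a48.CF.CorM (ta_mul ta_one ta_apply) in
theorem specSt2 (hCnt : SpecCnt) (hCod : SpecCod) (hExq : SpecExq) : SpecSt2 := by
  classical
  have hPl := Pool.Agent.Lib.MPf11a48.CF.specPl
  intro ι _ _ C₀ N G G₀ hSS hG₀c hG₀ hN hNlie hFew D
  obtain ⟨r₀, θ, l, hl, halg, hno⟩ := hFew
  set r : ℕ := r₀ + (if N = 0 then 0 else 1) with hr
  have hSS₀ := isSS hG₀ hSS hG₀c
  -- the matrix `M = (l C₀)⁻¹` over the algebraic closure of `ℚ(θ)`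
  let E : IntermediateField ℚ ℂ := IntermediateField.adjoin ℚ (Set.range θ)
  let A : Subfield ℂ := (algebraicClosure E ℂ).toSubfield
  have hA : ∀ x : ℂ, x ∈ A ↔ IsAlgebraic E x := fun x => mem_algebraicClosure_iff
  let M : Matrix ι ι ℂ := l⁻¹ • C₀⁻¹.1
  have hMA : ∀ i j, M i j ∈ A := by
    intro i j
    have h1 : (l • C₀.1) * M = 1 := by
      simp only [M]
      rw [Matrix.smul_mul, Matrix.mul_smul, smul_smul, mul_inv_cancel₀ hl, one_smul]
      exact C₀.mul_inv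
    have h2 : M = (l • C₀.1)⁻¹ := (Matrix.inv_eq_right_inv h1).symm
    have h3 : ∀ i j, (l • C₀.1) i j ∈ A := fun i j => (hA _).2 (halg i j)
    have h4 : ∀ B : Matrix ι ι ℂ, (∀ i j, B i j ∈ A) → B.det ∈ A := by
      intro B hB
      rw [Matrix.det_apply]
      refine A.sum_mem fun σ _ => ?_
      have h5 : ∏ i, B (σ i) i ∈ A := A.prod_mem fun i _ => hB _ _
      rcases Int.units_eq_one_or (Equiv.Perm.sign σ) with h | h
      · rw [h, one_smul]
        exact h5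
      · rw [h, Units.neg_smul, one_smul]
        exact A.neg_mem h5
    rw [h2, Matrix.inv_def, Matrix.smul_apply, smul_eq_mul]
    refine A.mul_mem ?_ ?_
    · rw [Ring.inverse_eq_inv']
      exact A.inv_mem (h4 _ h3)
    · rw [Matrix.adjugate_apply]
      refine h4 _ fun a b => ?_
      rw [Matrix.updateRow_apply]
      split_ifs
      · rw [Pi.single_apply]
        split_ifs
        · exact A.one_mem
        · exact A.zero_mem
      · exact h3 _ _
  -- the polynomials in `t`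
  have hex : ∀ q : ℕ, ∃ (d : ℕ) (P : (Fin q → ι) → (Fin q → ι) → Fin (d + 1) → ℂ) (n : ℕ),
      (∀ (t : ℂ) (J J' : Fin q → ι),
        ∏ x, ((gl (cx N) t)⁻¹.1 * M) (J x) (J' x) = ∑ j, P J J' j * t ^ (j : ℕ)) ∧
      ∀ (t : ℂ) (K : IntermediateField ℚ ℂ) (u : Fin (r + 2) → (Fin q → ι) × (Fin q → ι) → K),
        ∃ F : MvPolynomial (Fin (r + 2)) K, F ≠ 0 ∧ F.IsHomogeneous n ∧
          MvPolynomial.aeval (fun a => ∑ i, (u a i : ℂ) * ∑ j : Fin (d + 1), P i.1 i.2 j *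
            t ^ (j : ℕ)) F = 0 := by
    intro q
    obtain ⟨d, P, hd, hPA, hP⟩ := hExq ι (Fin q) N M A hN hMA
    obtain ⟨n, hn⟩ := hCnt ((Fin q → ι) × (Fin q → ι)) d (fun i j => P i.1 i.2 j) r₀ θ
      (fun i j => (hA _).1 (hPA _ _ _)) (r + 2)
      (by
        rw [hr]
        by_cases h0 : N = 0
        · rw [if_pos h0, if_pos (hd h0)]
        · rw [if_neg h0]
          split_ifs <;> omega)
    exact ⟨d, P, n, hP, hn⟩
  choose d P nn hP hnn using hex
  refine ⟨∑ q ∈ Finset.range (Fintype.card ι ^ D * D + 1), nn q * q, ?_⟩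
  intro t K hK y hRel R hR T hT hcT κ _ _ hκ U hU1 hU2 h hh w hw
  have hglG : gl (cx N) t ∈ G₀ := CodM.gl_mem (CodM.isSS_geo hSS₀) hNlie t
  set C₁ : GL ι ℂ := C₀ * gl (cx N) t with hC₁
  have hG₁ : ∀ g, g ∈ G₀ ↔ C₁ * g * C₁⁻¹ ∈ G := by
    intro g
    have e : C₁ * g * C₁⁻¹ = C₀ * (gl (cx N) t * g * (gl (cx N) t)⁻¹) * C₀⁻¹ := by
      rw [hC₁]
      group
    rw [e, ← hG₀]
    constructor
    · intro hg
      exact G₀.mul_mem (G₀.mul_mem hglG hg) (G₀.inv_mem hglG)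
    · intro hg
      have h1 := G₀.mul_mem (G₀.mul_mem (G₀.inv_mem hglG) hg) hglG
      have e2 : (gl (cx N) t)⁻¹ * (gl (cx N) t * g * (gl (cx N) t)⁻¹) * gl (cx N) t = g := by group
      rwa [e2] at h1
  -- the subspace `U'`
  set c : GL ι ℂ := C₁ * y * R with hc
  let U' : Submodule ℂ ((κ → ι) → ℂ) := U.comap (ta c.1)
  have hU' : ∀ τ : ℂ ≃+* ℂ, FixesField K τ → ∀ v ∈ U', (fun J => τ (v J)) ∈ U' := by
    intro τ hτ v hv
    change ta c.1 (fun J => τ (v J)) ∈ U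
    have hv' : ta c.1 v ∈ U := hv
    have h1 := hU2 τ hτ _ hv'
    rw [ta_map] at h1
    have h2 : (tw τ c).1 = c.1.map τ := rfl
    rw [← h2] at h1
    have h3 : c * (tw τ c)⁻¹ ∈ grp T := ⟨c, hcT, tw τ c, hT.closed.tw_mem hτ hcT, rfl⟩
    have h4 := hU1 _ h3 _ h1
    rw [← ta_gl_mul, inv_mul_cancel_right] at h4
    exact h4
  have hUmap : U'.map (taE (κ := κ) c).toLinearMap = U := by
    ext v
    constructor
    · rintro ⟨v', hv', rfl⟩
      exact hv'
    · intro hv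
      refine ⟨ta c⁻¹.1 v, ?_, ta_ta_inv c v⟩
      change ta c.1 (ta c⁻¹.1 v) ∈ U
      rw [ta_ta_inv]
      exact hv
  set u := Module.finrank ℂ U with hu
  have hu' : Module.finrank ℂ U' = u := by
    rw [hu, ← hUmap]
    exact (LinearEquiv.finrank_map_eq (taE c) U').symm
  obtain ⟨e, heK, heli, hespan⟩ := basisK K U' hU' u hu'
  obtain ⟨f, hfK, hfli, hfspan⟩ := basisK K U hU2 u rfl
  have hule : u ≤ Fintype.card ι ^ Fintype.card κ := by
    have h1 := Submodule.finrank_le U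
    rw [Module.finrank_fintype_fun_eq_card, Fintype.card_fun] at h1
    exact h1
  -- `e'` and its Plücker coordinates
  set e' : Fin u → (κ → ι) → ℂ := fun a => ta R.1 (e a) with he'
  have he'K : ∀ a J, e' a J ∈ K := fun a J => ta_mem hR (heK a) J
  have hplK : ∀ J, pl e' J ∈ K := fun J => det_mem fun a b => he'K a _
  set α : (Fin u × κ → ι) → K := fun J => ⟨pl e' J, hplK J⟩ with hα
  have hαe : (fun I => (α I : ℂ)) = pl e' := rfl
  have hplfK : ∀ J, pl f J ∈ K := fun J => det_mem fun a b => hfK a _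
  -- `L`
  have hL : ∀ a, ∃ L : Fin u → ℂ, ∑ b, L b • f b = ta (C₁ * y).1 (e' a) := by
    intro a
    apply (Submodule.mem_span_range_iff_exists_fun ℂ).1
    rw [hfspan]
    have h1 : e a ∈ U' := by
      rw [← hespan]
      exact Submodule.subset_span ⟨a, rfl⟩
    have h2 : ta (C₁ * y).1 (e' a) = ta c.1 (e a) := by
      rw [he', hc, ta_gl_mul (C₁ * y) R]
    rw [h2]
    exact h1
  choose L hL using hL
  have hplL : ta (C₁ * y).1 (pl e') = (Matrix.of L).det • pl f := by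
    rw [(hPl ι κ u).1, ← (hPl ι κ u).2.1]
    congr 1
    funext a
    exact (hL a).symm
  -- `b`
  set b : (Fin u × κ → ι) → ℂ := ta y.1 (pl e') with hb
  set q := u * Fintype.card κ with hq
  have hcard : Fintype.card (Fin u × κ) = q := by
    rw [Fintype.card_prod, Fintype.card_fin]
  have hqle : q ≤ Fintype.card ι ^ D * D := card_le hule hκ
  let ε : Fin q ≃ Fin u × κ := Fintype.equivOfCardEq (by rw [Fintype.card_fin, hcard])
  have hbJ : ∀ J, b J = ((Matrix.of L).det * l ^ q) * ∑ J' : Fin u × κ → ι,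
      pl f J' * ∑ j, P q (J ∘ ε) (J' ∘ ε) j * t ^ (j : ℕ) := by
    intro J
    have h1 : b = ta C₁⁻¹.1 ((Matrix.of L).det • pl f) := by
      rw [← hplL, ta_gl_mul C₁ y, ta_inv_ta]
    have h2 : ∀ J' : Fin u × κ → ι, ∏ x, C₁⁻¹.1 (J x) (J' x) =
        l ^ q * ∑ j, P q (J ∘ ε) (J' ∘ ε) j * t ^ (j : ℕ) := by
      intro J'
      rw [← hP q t (J ∘ ε) (J' ∘ ε)]
      have h3 : C₁⁻¹.1 = l • ((gl (cx N) t)⁻¹.1 * M) := by
        simp only [M]
        rw [Matrix.mul_smul, smul_smul, mul_inv_cancel₀ hl, one_smul, hC₁, _root_.mul_inv_rev,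
          Units.val_mul]
      rw [h3]
      have h4 : ∀ x, (l • ((gl (cx N) t)⁻¹.1 * M)) (J x) (J' x) =
          l * ((gl (cx N) t)⁻¹.1 * M) (J x) (J' x) := fun x => rfl
      simp only [h4]
      rw [Finset.prod_mul_distrib, Finset.prod_const, Finset.card_univ, hcard]
      congr 1
      exact (Equiv.prod_comp ε fun x => ((gl (cx N) t)⁻¹.1 * M) (J x) (J' x)).symm
    rw [h1, ta_apply, Finset.mul_sum]
    refine Finset.sum_congr rfl fun J' _ => ?_
    rw [h2, Pi.smul_apply, smul_eq_mul]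
    ring
  -- relations
  have hrel : HasRel K (nn q * Fintype.card (Fin u × κ)) y.1 G₀ := by
    refine hasRel_mono ?_ hRel
    rw [hcard]
    exact Finset.single_le_sum (f := fun q => nn q * q) (fun _ _ => Nat.zero_le _)
      (Finset.mem_range.2 (Nat.lt_succ_of_le hqle))
  have hF : ∀ J : Fin (r + 2) → (Fin u × κ → ι), ∃ F : MvPolynomial (Fin (r + 2)) K, F ≠ 0 ∧
      F.IsHomogeneous (nn q) ∧
      MvPolynomial.aeval (fun i => ta y.1 (fun I => (α I : ℂ)) (J i)) F = 0 := by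
    intro J
    obtain ⟨F, hF0, hFh, hFe⟩ := hnn q t K fun a i =>
      if i.1 = J a ∘ ε then ⟨pl f (i.2 ∘ ε.symm), hplfK _⟩ else 0
    refine ⟨F, hF0, hFh, ?_⟩
    have h1 : (fun i => ta y.1 (fun I => (α I : ℂ)) (J i)) = fun a =>
        ((Matrix.of L).det * l ^ q) * ∑ i : (Fin q → ι) × (Fin q → ι),
          (((if i.1 = J a ∘ ε then (⟨pl f (i.2 ∘ ε.symm), hplfK _⟩ : K) else 0 : K)) : ℂ) *
            ∑ j, P q i.1 i.2 j * t ^ (j : ℕ) := by
      funext a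
      change b (J a) = _
      rw [hbJ]
      congr 1
      rw [Fintype.sum_prod_type, Finset.sum_eq_single (J a ∘ ε)]
      · let Ε : (Fin u × κ → ι) ≃ (Fin q → ι) := ε.symm.arrowCongr (Equiv.refl ι)
        refine Fintype.sum_equiv Ε _ _ fun J' => ?_
        have e1 : Ε J' = J' ∘ ε := rfl
        simp only [e1, if_true]
        have e2 : (J' ∘ ε) ∘ ε.symm = J' := by
          funext x
          simp
        rw [e2]
      · intro J₁ _ hne
        refine Finset.sum_eq_zero fun J₂ _ => ?_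
        simp [hne]
      · intro h
        exact absurd (Finset.mem_univ _) h
    rw [h1, aeval_mul hFh, hFe, mul_zero]
  have hfix : ∀ g ∈ G₀, ta (g * y).1 (pl e') = ta y.1 (pl e') :=
    hCod ι (Fin u × κ) r (nn q) K y G₀ α hSS₀
      (fun h hle hbr hfin => noSub hG₁ (r := r)
        (fun h hle hbr hfin => hno h hle hbr (by rw [hr] at hfin; omega)) h hle hbr hfin)
      hrel hF
  -- the final step
  have he'li : ∀ g : GL ι ℂ, LinearIndependent ℂ fun a => ta g.1 (e' a) := by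
    intro g
    have h1 : (fun a => ta g.1 (e' a)) = fun a => (taE (κ := κ) (g * R)) (e a) := by
      funext a
      rw [taE_apply, ta_gl_mul]
    rw [h1]
    exact heli.map' _ (LinearEquiv.ker (taE (κ := κ) (g * R)))
  have hspan : ∀ g ∈ G₀, Submodule.span ℂ (Set.range fun a => ta (g * y).1 (e' a))
      = Submodule.span ℂ (Set.range fun a => ta y.1 (e' a)) := by
    intro g hg
    apply (hPl ι κ u).2.2 _ _ (he'li (g * y)) (he'li y)
    have e1 := (hPl ι κ u).1 (g * y).1 e'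
    have e2 := (hPl ι κ u).1 y.1 e'
    rw [← e1, ← e2]
    exact hfix g hg
  have hstab : ∀ g ∈ G₀, ∀ v ∈ Submodule.span ℂ (Set.range fun a => ta y.1 (e' a)),
      ta g.1 v ∈ Submodule.span ℂ (Set.range fun a => ta y.1 (e' a)) := by
    intro g hg v hv
    rw [← hspan g hg]
    induction hv using Submodule.span_induction with
    | mem x hx =>
      obtain ⟨a, rfl⟩ := hx
      apply Submodule.subset_span
      exact ⟨a, ta_gl_mul g y (e' a)⟩
    | zero => rw [map_zero]; exact Submodule.zero_mem _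
    | add x y _ _ hx hy => rw [map_add]; exact Submodule.add_mem _ hx hy
    | smul a x _ hx => rw [map_smul]; exact Submodule.smul_mem _ _ hx
  have hUeq : ∀ v, v ∈ U ↔ ta C₁⁻¹.1 v ∈ Submodule.span ℂ (Set.range fun a => ta y.1 (e' a)) := by
    intro v
    have h1 : U = (Submodule.span ℂ (Set.range fun a => ta y.1 (e' a))).map
        (taE (κ := κ) C₁).toLinearMap := by
      rw [← hUmap, ← hespan, Submodule.map_span, Submodule.map_span]
      congr 1
      ext x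
      simp only [Set.mem_image, Set.mem_range, exists_exists_eq_and]
      refine exists_congr fun a => ?_
      change ta c.1 (e a) = x ↔ ta C₁.1 (ta y.1 (e' a)) = x
      rw [he', hc, ta_gl_mul, ta_gl_mul]
    constructor
    · intro hv
      rw [h1] at hv
      obtain ⟨v', hv', rfl⟩ := hv
      change ta C₁⁻¹.1 (ta C₁.1 v') ∈ _
      rw [ta_inv_ta]
      exact hv'
    · intro hv
      rw [h1]
      exact ⟨_, hv, ta_ta_inv C₁ v⟩
  rw [hUeq] at hw ⊢
  have hconj : C₁⁻¹ * h * C₁ ∈ G₀ := by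
    rw [hG₁]
    have h1 : C₁ * (C₁⁻¹ * h * C₁) * C₁⁻¹ = h := by group
    rwa [h1]
  have h1 := hstab _ hconj _ hw
  have h2 : ta (C₁⁻¹ * h * C₁).1 (ta C₁⁻¹.1 w) = ta C₁⁻¹.1 (ta h.1 w) := by
    rw [← ta_gl_mul, ← ta_gl_mul]
    congr 2
    group
  rw [h2] at h1
  exact h1

end Pool.Agent.Lib.MPf11a48.CG
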