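import Pool.Agent.Lib.MP_f11a48_ag.CG.SpecA
import Pool.Agent.Lib.MP_f11a48_ag.CG.St2

/-!
# STT: stable subspaces for one of several fibres
-/

set_option autoImplicit false

namespace Pool.Agent.Lib.MPf11a48.CG

open Matrix
open Pool.Agent.Lib.MPf11a48.Tors
open Pool.Agent.Lib.MPf11a48.CM hiding OmegaM
open Pool.Agent.Lib.MPf11a48.GL2T
open Pool.Agent.Lib.MPf11a48.CF (ta pl)
open Pool.Agent.Lib.MPf11a48.GL2 (lie van en Geo tang lr)
open Pool.Agent.Lib.MPf11a48.K3 (cx)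
open Pool.Agent.Lib.MPf11a48.K3.KCurM (gl)

namespace SttM

variable {ι : Type} [Fintype ι] [DecidableEq ι]

theorem hasRelT_mono {k : Type} [Field k] [Algebra k ℂ] {σ : Type} {n m : ℕ} (h : n ≤ m)
    {y : σ → Matrix ι ι ℂ} {G₀ : Subgroup (GL ι ℂ)} (hr : HasRelT k m y G₀) :
    HasRelT k n y G₀ :=
  fun F hF h0 => hr F (hF.trans h) h0

/-- the matrix `(l C₀)⁻¹` -/
theorem inv_mem {A : Subfield ℂ} {l : ℂ} (hl : l ≠ 0) (C₀ : GL ι ℂ)
    (h3 : ∀ i j, l * C₀.1 i j ∈ A) : ∀ i j, (l⁻¹ • C₀⁻¹.1) i j ∈ A := by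
  intro i j
  have h1 : (l • C₀.1) * (l⁻¹ • C₀⁻¹.1) = 1 := by
    rw [Matrix.smul_mul, Matrix.mul_smul, smul_smul, mul_inv_cancel₀ hl, one_smul]
    exact C₀.mul_inv
  have h2 : l⁻¹ • C₀⁻¹.1 = (l • C₀.1)⁻¹ := (Matrix.inv_eq_right_inv h1).symm
  have h4 : ∀ B : Matrix ι ι ℂ, (∀ i j, B i j ∈ A) → B.det ∈ A := by
    intro B hB
    rw [Matrix.det_apply]
    refine A.sum_mem fun σ _ => ?_
    have h5 : ∏ i, B (σ i) i ∈ A := A.prod_mem fun i _ => hB _ _
    rcases Int.units_eq_one_or (Equiv.Perm.sign σ) with h | h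
    · rw [h, one_smul]
      exact h5
    · rw [h, Units.neg_smul, one_smul]
      exact A.neg_mem h5
  rw [h2, Matrix.inv_def, Matrix.smul_apply, smul_eq_mul]
  refine A.mul_mem ?_ ?_
  · rw [Ring.inverse_eq_inv']
    exact A.inv_mem (h4 _ h3)
  · rw [Matrix.adjugate_apply]
    refine h4 _ fun a b => ?_
    rw [Matrix.updateRow_apply]
    split_ifs
    · rw [Pi.single_apply]
      split_ifs
      · exact A.one_mem
      · exact A.zero_mem
    · exact h3 _ _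

/-- the stabiliser of the line generated by `b` in the space `L` -/
def st {κ : Type} [Fintype κ] [DecidableEq κ] (L : Submodule ℂ (Matrix ι ι ℂ))
    (b : (κ → ι) → ℂ) : Submodule ℂ (Matrix ι ι ℂ) where
  carrier := {X | X ∈ L ∧ ∃ c : ℂ, dt X b = c • b}
  add_mem' := by
    rintro X Y ⟨hX, c, hc⟩ ⟨hY, d, hd⟩
    refine ⟨L.add_mem hX hY, c + d, ?_⟩
    rw [← CodM.dtL_apply, map_add, CodM.dtL_apply, CodM.dtL_apply, hc, hd, add_smul]
  zero_mem' := ⟨L.zero_mem, 0, by rw [← CodM.dtL_apply, map_zero, zero_smul]⟩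
  smul_mem' := by
    rintro t X ⟨hX, c, hc⟩
    refine ⟨L.smul_mem t hX, t * c, ?_⟩
    rw [← CodM.dtL_apply, map_smul, CodM.dtL_apply, hc, smul_smul]

theorem st_br {κ : Type} [Fintype κ] [DecidableEq κ] {G₀ : Subgroup (GL ι ℂ)}
    (b : (κ → ι) → ℂ) : ∀ X ∈ st (lie (G₀ : Set (GL ι ℂ))) b,
      ∀ Y ∈ st (lie (G₀ : Set (GL ι ℂ))) b, X * Y - Y * X ∈ st (lie (G₀ : Set (GL ι ℂ))) b := by
  rintro X ⟨hX, c, hc⟩ Y ⟨hY, d, hd⟩
  refine ⟨GL2.lie_br hX hY, 0, ?_⟩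
  rw [CodM.dt_br, hc, hd, map_smul, map_smul, hc, hd, smul_smul, smul_smul, mul_comm, sub_self,
    zero_smul]

end SttM

open St2M StN SttM in
open Pool.Agent.Lib.MPf11a48.CF.StM in
open Pool.Agent.Lib.MPf11a48.CF.CorM (ta_mul ta_one ta_apply) in
theorem specStt (hCnt : SpecCnt) (hExq : SpecExq) (hCodt : SpecCodt) (hLfx : SpecLfx)
    (hPlk : SpecPlk) : SpecStt := by
  classical
  intro ι _ _ C₀ N G G₀ s hSS hG₀c hG₀ hN hNlie hFew D
  obtain ⟨r₀, θ, l, hl, halg, hno⟩ := hFew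
  set r : ℕ := r₀ + (if N = 0 then 0 else 1) with hr
  have hSS₀ := isSS hG₀ hSS hG₀c
  -- the matrix `M = (l C₀)⁻¹` over the algebraic closure of `ℚ(θ)`
  let E : IntermediateField ℚ ℂ := IntermediateField.adjoin ℚ (Set.range θ)
  let A : Subfield ℂ := (algebraicClosure E ℂ).toSubfield
  have hA : ∀ x : ℂ, x ∈ A ↔ IsAlgebraic E x := fun x => mem_algebraicClosure_iff
  let M : Matrix ι ι ℂ := l⁻¹ • C₀⁻¹.1
  have hMA : ∀ i j, M i j ∈ A := inv_mem hl C₀ fun i j => (hA _).2 (halg i j)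
  -- the polynomials in `t`
  have hex : ∀ q : ℕ, ∃ (d : ℕ) (P : (Fin q → ι) → (Fin q → ι) → Fin (d + 1) → ℂ) (n : ℕ),
      (∀ (t : ℂ) (J J' : Fin q → ι),
        ∏ x, ((gl (cx N) t)⁻¹.1 * M) (J x) (J' x) = ∑ j, P J J' j * t ^ (j : ℕ)) ∧
      ∀ (t : ℂ) (K : IntermediateField ℚ ℂ) (u : Fin (r + 2) → (Fin q → ι) × (Fin q → ι) → K),
        ∃ F : MvPolynomial (Fin (r + 2)) K, F ≠ 0 ∧ F.IsHomogeneous n ∧
          MvPolynomial.aeval (fun a => ∑ i, (u a i : ℂ) * ∑ j : Fin (d + 1), P i.1 i.2 j *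
            t ^ (j : ℕ)) F = 0 := by
    intro q
    obtain ⟨d, P, hd, hPA, hP⟩ := hExq ι (Fin q) N M A hN hMA
    obtain ⟨n, hn⟩ := hCnt ((Fin q → ι) × (Fin q → ι)) d (fun i j => P i.1 i.2 j) r₀ θ
      (fun i j => (hA _).1 (hPA _ _ _)) (r + 2)
      (by
        rw [hr]
        by_cases h0 : N = 0
        · rw [if_pos h0, if_pos (hd h0)]
        · rw [if_neg h0]
          split_ifs <;> omega)
    exact ⟨d, P, n, hP, hn⟩
  choose d P nn hP hnn using hex
  refine ⟨∑ q ∈ Finset.range ((s + 1) * (Fintype.card ι ^ D * D) + 1), nn q * q, ?_⟩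
  intro t K hK y hRel R T hR hT hcT
  by_contra hcon
  push Not at hcon
  have hglG : gl (cx N) t ∈ G₀ := CodM.gl_mem (CodM.isSS_geo hSS₀) hNlie t
  set C₁ : GL ι ℂ := C₀ * gl (cx N) t with hC₁
  have hG₁ : ∀ g, g ∈ G₀ ↔ C₁ * g * C₁⁻¹ ∈ G := by
    intro g
    have e : C₁ * g * C₁⁻¹ = C₀ * (gl (cx N) t * g * (gl (cx N) t)⁻¹) * C₀⁻¹ := by
      rw [hC₁]
      group
    rw [e, ← hG₀]
    constructor
    · intro hg
      exact G₀.mul_mem (G₀.mul_mem hglG hg) (G₀.inv_mem hglG)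
    · intro hg
      have h1 := G₀.mul_mem (G₀.mul_mem (G₀.inv_mem hglG) hg) hglG
      have e2 : (gl (cx N) t)⁻¹ * (gl (cx N) t * g * (gl (cx N) t)⁻¹) * gl (cx N) t = g := by group
      rwa [e2] at h1
  -- the tensors
  have hplk := fun a => hPlk ι K C₁ (y a) (R a) G G₀ (T a) D hG₁ (hR a) (hT a) (hcT a) (hcon a)
  choose q α β z hq hne hz hg using hplk
  set Q : ℕ := ∑ a, q a with hQ
  have hQle : Q ≤ (s + 1) * (Fintype.card ι ^ D * D) := by
    have h1 := Finset.sum_le_card_nsmul Finset.univ q (Fintype.card ι ^ D * D) fun a _ => hq a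
    rwa [Finset.card_univ, Fintype.card_fin, smul_eq_mul] at h1
  have hcard : Fintype.card (Σ a, Fin (q a)) = Q := by
    rw [Fintype.card_sigma]
    simp only [Fintype.card_fin]
    rfl
  let ε : Fin Q ≃ Σ a, Fin (q a) := Fintype.equivOfCardEq (by rw [Fintype.card_fin, hcard])
  -- the concatenation of the indices
  let J₂ : (∀ a, Fin (q a) → ι) ≃ (Fin Q → ι) :=
    (Equiv.piCurry fun (a : Fin (s + 1)) (_ : Fin (q a)) => ι).symm.trans
      (ε.symm.arrowCongr (Equiv.refl ι))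
  have hJ₂ : ∀ (J : ∀ a, Fin (q a) → ι) (x : Fin Q), J₂ J x = J (ε x).1 (ε x).2 :=
    fun J x => rfl
  -- the coordinates of the product of the tensors
  have hb : ∀ J : ∀ a, Fin (q a) → ι, ∏ a, ta (y a).1 (fun I => (α a I : ℂ)) (J a) =
      ((∏ a, z a) * l ^ Q) * ∑ J' : ∀ a, Fin (q a) → ι, (∏ a, (β a (J' a) : ℂ)) *
        ∑ j, P Q (J₂ J) (J₂ J') j * t ^ (j : ℕ) := by
    intro J
    have h1 : ∀ a, ta (y a).1 (fun I => (α a I : ℂ)) (J a) =
        z a * ∑ J' : Fin (q a) → ι, (∏ x, C₁⁻¹.1 (J a x) (J' x)) * β a J' := by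
      intro a
      have e1 : ta (y a).1 (fun I => (α a I : ℂ)) = z a • ta C₁⁻¹.1 fun I => (β a I : ℂ) := by
        rw [← map_smul, ← hz a, ta_gl_mul C₁ (y a), ta_inv_ta]
      rw [e1, Pi.smul_apply, smul_eq_mul, ta_apply]
    simp only [h1]
    rw [Finset.prod_mul_distrib, Finset.prod_univ_sum, Fintype.piFinset_univ, mul_assoc]
    congr 1
    rw [Finset.mul_sum]
    refine Finset.sum_congr rfl fun J' _ => ?_
    rw [Finset.prod_mul_distrib]
    have h3 : C₁⁻¹.1 = l • ((gl (cx N) t)⁻¹.1 * M) := by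
      simp only [M]
      rw [Matrix.mul_smul, smul_smul, mul_inv_cancel₀ hl, one_smul, hC₁, _root_.mul_inv_rev,
        Units.val_mul]
    have h4 : ∏ a, ∏ x, C₁⁻¹.1 (J a x) (J' a x) =
        l ^ Q * ∑ j, P Q (J₂ J) (J₂ J') j * t ^ (j : ℕ) := by
      rw [← hP Q t (J₂ J) (J₂ J')]
      have e2 : ∏ a, ∏ x, C₁⁻¹.1 (J a x) (J' a x) =
          ∏ p : Σ a, Fin (q a), C₁⁻¹.1 (J p.1 p.2) (J' p.1 p.2) :=
        (Fintype.prod_sigma fun p : Σ a, Fin (q a) => C₁⁻¹.1 (J p.1 p.2) (J' p.1 p.2)).symm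
      rw [e2, ← Equiv.prod_comp ε fun p : Σ a, Fin (q a) => C₁⁻¹.1 (J p.1 p.2) (J' p.1 p.2)]
      have e3 : ∀ x : Fin Q, C₁⁻¹.1 (J (ε x).1 (ε x).2) (J' (ε x).1 (ε x).2) =
          l * ((gl (cx N) t)⁻¹.1 * M) (J₂ J x) (J₂ J' x) := by
        intro x
        rw [h3, hJ₂, hJ₂]
        rfl
      simp only [e3]
      rw [Finset.prod_mul_distrib, Finset.prod_const, Finset.card_univ, Fintype.card_fin]
    rw [h4]
    ring
  -- relations
  have hrel : HasRelT K (nn Q * ∑ a, q a) (fun a => (y a).1) G₀ := by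
    refine hasRelT_mono ?_ hRel
    exact Finset.single_le_sum (f := fun q => nn q * q) (fun _ _ => Nat.zero_le _)
      (Finset.mem_range.2 (Nat.lt_succ_of_le hQle))
  have hF : ∀ J : Fin (r + 2) → ∀ a, Fin (q a) → ι, ∃ F : MvPolynomial (Fin (r + 2)) K, F ≠ 0 ∧
      F.IsHomogeneous (nn Q) ∧
      MvPolynomial.aeval (fun i => ∏ a, ta (y a).1 (fun I => (α a I : ℂ)) (J i a)) F = 0 := by
    intro J
    obtain ⟨F, hF0, hFh, hFe⟩ := hnn Q t K fun a i =>
      if i.1 = J₂ (J a) then ∏ a', β a' (J₂.symm i.2 a') else 0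
    refine ⟨F, hF0, hFh, ?_⟩
    have h1 : (fun i => ∏ a, ta (y a).1 (fun I => (α a I : ℂ)) (J i a)) = fun a =>
        ((∏ a, z a) * l ^ Q) * ∑ i : (Fin Q → ι) × (Fin Q → ι),
          (((if i.1 = J₂ (J a) then ∏ a', β a' (J₂.symm i.2 a') else 0 : K)) : ℂ) *
            ∑ j, P Q i.1 i.2 j * t ^ (j : ℕ) := by
      funext a
      rw [hb]
      congr 1
      rw [Fintype.sum_prod_type, Finset.sum_eq_single (J₂ (J a))]
      · refine Fintype.sum_equiv J₂ _ _ fun J' => ?_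
        simp only [if_true, Equiv.symm_apply_apply]
        congr 1
        exact (map_prod (algebraMap K ℂ) _ _).symm
      · intro J₁ _ hne
        refine Finset.sum_eq_zero fun J₂ _ => ?_
        simp [hne]
      · intro h
        exact absurd (Finset.mem_univ _) h
    rw [h1, aeval_mul hFh, hFe, mul_zero]
  -- the stabilisers
  set L : Submodule ℂ (Matrix ι ι ℂ) := lie (G₀ : Set (GL ι ℂ)) with hL
  let S : Fin (s + 1) → Submodule ℂ (Matrix ι ι ℂ) := fun a =>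
    st L (ta (y a).1 fun I => (α a I : ℂ))
  have hsum := hCodt ι (Fin (s + 1)) q r (nn Q) K y G₀ α S hSS₀ hne hrel hF
    fun a X hX hc => ⟨hX, hc⟩
  have hSlt : ∀ a, (s + 1) * Module.finrank ℂ (S a) + r < (s + 1) * Module.finrank ℂ L := by
    intro a
    have hSne : S a ≠ L := by
      intro h0
      have h1 := hLfx ι (Fin (q a)) G₀ (ta (y a).1 fun I => (α a I : ℂ)) hSS₀ fun X hX => by
        have h2 : X ∈ S a := by
          rw [h0]
          exact hX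
        exact h2.2
      obtain ⟨g, hgG, hgne⟩ := hg a
      refine hgne ?_
      rw [ta_gl_mul]
      exact h1 g hgG
    have h1 := hno ((S a).map (cj C₀).toLinearMap)
      (by
        rw [← map_lie hG₀]
        exact Submodule.map_mono fun X hX => hX.1)
      (by
        rintro _ ⟨X, hX, rfl⟩ _ ⟨Y, hY, rfl⟩
        refine ⟨X * Y - Y * X, st_br _ X hX Y hY, ?_⟩
        change cj C₀ (X * Y - Y * X) = cj C₀ X * cj C₀ Y - cj C₀ Y * cj C₀ X
        rw [map_sub, cj_mul, cj_mul])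
      (by
        intro h0
        refine hSne ?_
        rw [← map_lie hG₀] at h0
        exact Submodule.map_injective_of_injective (cj C₀).injective h0)
    rw [← map_lie hG₀, finrank_cj, finrank_cj] at h1
    have hLf : Module.finrank ℂ L = Module.finrank ℂ (lie (G₀ : Set (GL ι ℂ))) := rfl
    rw [hr, hLf]
    omega
  -- the sum
  have hLf : Module.finrank ℂ L = Module.finrank ℂ (lie (G₀ : Set (GL ι ℂ))) := rfl
  rw [Fintype.card_fin, ← hLf] at hsum
  have h1 : ∑ a : Fin (s + 1), ((s + 1) * Module.finrank ℂ (S a) + r) <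
      ∑ _a : Fin (s + 1), (s + 1) * Module.finrank ℂ L :=
    Finset.sum_lt_sum_of_nonempty Finset.univ_nonempty fun a _ => hSlt a
  rw [Finset.sum_add_distrib, ← Finset.mul_sum, Finset.sum_const, Finset.sum_const,
    Finset.card_univ, Fintype.card_fin, smul_eq_mul, smul_eq_mul, ← Nat.mul_add] at h1
  have h2 := Nat.lt_of_mul_lt_mul_left h1
  omega

end Pool.Agent.Lib.MPf11a48.CG
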