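import Pool.Agent.Lib.MP_f11a48_ag.CG.Adj

/-!
# Module TEN: stable subspaces of the tensor powers of a subspace of the space of endomorphisms
-/

set_option autoImplicit false
set_option linter.unusedSectionVars false

namespace Pool.Agent.Lib.MPf11a48.CG.TenM

open Matrix
open Pool.Agent.Lib.MPf11a48.Tors
open Pool.Agent.Lib.MPf11a48.CF.LieM
open Pool.Agent.Lib.MPf11a48.K3 (cx)
open Pool.Agent.Lib.MPf11a48.CF (ta)
open Pool.Agent.Lib.MPf11a48.GL2 (glinv)

variable {ι : Type} [Fintype ι] [DecidableEq ι] {m d : ℕ}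

/-- the tensor product of matrices -/
def pt (N : Fin m → Matrix ι ι ℂ) : (Fin m × Fin 2 → ι) → ℂ :=
  fun J => ∏ k, N k (J (k, 0)) (J (k, 1))

/-- functions on `Fin m × Fin 2` as functions with values in pairs -/
def cq (ι : Type) (m : ℕ) : (Fin m × Fin 2 → ι) ≃ (Fin m → ι × ι) where
  toFun J k := (J (k, 0), J (k, 1))
  invFun J p := if p.2 = 0 then (J p.1).1 else (J p.1).2
  left_inv J := by
    funext p
    obtain ⟨k, i⟩ := p
    fin_cases i <;> simp
  right_inv J := by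
    funext k
    simp

theorem sum_pair (f : Fin m → ι → ι → ℂ) :
    ∑ J : Fin m × Fin 2 → ι, ∏ k, f k (J (k, 0)) (J (k, 1)) = ∏ k, ∑ p : ι × ι, f k p.1 p.2 := by
  rw [Finset.prod_univ_sum, Fintype.piFinset_univ]
  exact Fintype.sum_equiv (cq ι m) _ _ fun J => rfl

theorem ta_pt (x : Matrix ι ι ℂ) (N : Fin m → Matrix ι ι ℂ) :
    ta x (pt N) = pt fun k => x * N k * xᵀ := by
  funext J
  change ∑ J' : Fin m × Fin 2 → ι, (∏ p, x (J p) (J' p)) * ∏ k, N k (J' (k, 0)) (J' (k, 1)) = _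
  have h1 : ∀ J' : Fin m × Fin 2 → ι, (∏ p, x (J p) (J' p)) * ∏ k, N k (J' (k, 0)) (J' (k, 1)) =
      ∏ k, (fun k a b => x (J (k, 0)) a * x (J (k, 1)) b * N k a b) k (J' (k, 0)) (J' (k, 1)) := by
    intro J'
    rw [Fintype.prod_prod_type, ← Finset.prod_mul_distrib]
    refine Finset.prod_congr rfl fun k _ => ?_
    rw [Fin.prod_univ_two]
  rw [Finset.sum_congr rfl fun J' _ => h1 J',
    sum_pair fun k a b => x (J (k, 0)) a * x (J (k, 1)) b * N k a b]
  refine Finset.prod_congr rfl fun k _ => ?_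
  rw [Fintype.sum_prod_type]
  change _ = (x * N k * xᵀ) (J (k, 0)) (J (k, 1))
  rw [Matrix.mul_apply]
  simp only [Matrix.mul_apply, Matrix.transpose_apply, Finset.sum_mul]
  rw [Finset.sum_comm]
  exact Finset.sum_congr rfl fun a _ => Finset.sum_congr rfl fun b _ => by ring

theorem pt_smul (z : ℂ) (N : Fin m → Matrix ι ι ℂ) : pt (fun k => z • N k) = z ^ m • pt N := by
  funext J
  rw [Pi.smul_apply]
  change ∏ k, (z * N k (J (k, 0)) (J (k, 1))) = z ^ m * _
  rw [Finset.prod_mul_distrib, Finset.prod_const, Finset.card_univ, Fintype.card_fin]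
  rfl

theorem pt_sum (c : Fin d → Fin m → ℂ) (M : Fin d → Matrix ι ι ℂ) :
    pt (fun k => ∑ a, c a k • M a) =
      ∑ I : Fin m → Fin d, (∏ k, c (I k) k) • pt fun k => M (I k) := by
  funext J
  rw [Finset.sum_apply]
  change ∏ k, (∑ a, c a k • M a) (J (k, 0)) (J (k, 1)) = _
  have h1 : ∀ k, (∑ a, c a k • M a) (J (k, 0)) (J (k, 1)) =
      ∑ a, c a k * M a (J (k, 0)) (J (k, 1)) := by
    intro k
    rw [Matrix.sum_apply]
    rfl
  rw [Finset.prod_congr rfl fun k _ => h1 k, Finset.prod_univ_sum, Fintype.piFinset_univ]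
  refine Finset.sum_congr rfl fun I _ => ?_
  rw [Finset.prod_mul_distrib]
  rfl

/-- the map from the tensor power of the span of the `E a` to the tensors -/
noncomputable def Phi (E : Fin d → Matrix ι ι ℂ) :
    ((Fin m → Fin d) → ℂ) →ₗ[ℂ] ((Fin m × Fin 2 → ι) → ℂ) where
  toFun w := ∑ I, w I • pt fun k => E (I k)
  map_add' u v := by
    rw [← Finset.sum_add_distrib]
    exact Finset.sum_congr rfl fun I _ => by rw [Pi.add_apply, add_smul]
  map_smul' t v := by
    rw [RingHom.id_apply, Finset.smul_sum]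
    exact Finset.sum_congr rfl fun I _ => by rw [Pi.smul_apply, smul_eq_mul, mul_smul]

theorem Phi_apply (E : Fin d → Matrix ι ι ℂ) (w : (Fin m → Fin d) → ℂ) :
    Phi E w = ∑ I, w I • pt fun k => E (I k) := rfl

theorem Phi_inj (E : Fin d → Matrix ι ι ℂ) (hE : LinearIndependent ℂ E) :
    Function.Injective (Phi E : ((Fin m → Fin d) → ℂ) →ₗ[ℂ] _) := by
  have hinj : LinearMap.ker (Fintype.linearCombination ℂ E) = ⊥ := by
    rw [LinearMap.ker_eq_bot]
    exact linearIndependent_iff_injective_fintypeLinearCombination.1 hE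
  obtain ⟨g, hg⟩ := LinearMap.exists_leftInverse_of_injective _ hinj
  have hgE : ∀ a b, g (E a) b = if a = b then 1 else 0 := by
    intro a b
    have h1 := congrFun (LinearMap.congr_fun hg (Pi.single a 1)) b
    rw [LinearMap.comp_apply, Fintype.linearCombination_apply_single, one_smul, LinearMap.id_apply,
      Pi.single_apply] at h1
    rw [h1]
    simp only [eq_comm]
  set D : Fin d → ι → ι → ℂ := fun b i j => g (Matrix.single i j 1) b with hD
  have hDE : ∀ a b, ∑ p : ι × ι, E a p.1 p.2 * D b p.1 p.2 = if a = b then 1 else 0 := by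
    intro a b
    rw [← hgE a b]
    conv_rhs => rw [Matrix.matrix_eq_sum_single (E a)]
    rw [map_sum, Finset.sum_apply, Fintype.sum_prod_type]
    refine Finset.sum_congr rfl fun i _ => ?_
    rw [map_sum, Finset.sum_apply]
    refine Finset.sum_congr rfl fun j _ => ?_
    have h1 : Matrix.single i j (E a i j) = E a i j • Matrix.single i j (1 : ℂ) := by
      rw [Matrix.smul_single, smul_eq_mul, mul_one]
    rw [h1, map_smul]
    rfl
  have key : ∀ (w : (Fin m → Fin d) → ℂ) (I' : Fin m → Fin d),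
      ∑ J : Fin m × Fin 2 → ι, Phi E w J * ∏ k, D (I' k) (J (k, 0)) (J (k, 1)) = w I' := by
    intro w I'
    have h1 : ∀ J : Fin m × Fin 2 → ι, Phi E w J * ∏ k, D (I' k) (J (k, 0)) (J (k, 1)) =
        ∑ I, w I * ∏ k, (fun k a b => E (I k) a b * D (I' k) a b) k (J (k, 0)) (J (k, 1)) := by
      intro J
      rw [Phi_apply, Finset.sum_apply, Finset.sum_mul]
      refine Finset.sum_congr rfl fun I _ => ?_
      rw [Pi.smul_apply, smul_eq_mul, mul_assoc, Finset.prod_mul_distrib]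
      rfl
    rw [Finset.sum_congr rfl fun J _ => h1 J, Finset.sum_comm, Finset.sum_eq_single I']
    · rw [← Finset.mul_sum, sum_pair fun k a b => E (I' k) a b * D (I' k) a b,
        Finset.prod_congr rfl fun k _ => hDE (I' k) (I' k)]
      simp
    · intro I _ hI
      rw [← Finset.mul_sum, sum_pair fun k a b => E (I k) a b * D (I' k) a b,
        Finset.prod_congr rfl fun k _ => hDE (I k) (I' k)]
      obtain ⟨k, hk⟩ := Function.ne_iff.1 hI
      rw [Finset.prod_eq_zero (Finset.mem_univ k) (if_neg hk), mul_zero]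
    · intro h
      exact absurd (Finset.mem_univ _) h
  intro u v huv
  funext I
  rw [← key u I, ← key v I, huv]

end Pool.Agent.Lib.MPf11a48.CG.TenM

namespace Pool.Agent.Lib.MPf11a48.CG

open Matrix
open Pool.Agent.Lib.MPf11a48.Tors
open Pool.Agent.Lib.MPf11a48.CF.LieM
open Pool.Agent.Lib.MPf11a48.K3 (cx)
open Pool.Agent.Lib.MPf11a48.CF (ta)
open Pool.Agent.Lib.MPf11a48.GL2

open TenM in
theorem specTen : SpecTen := by
  intro ι _ _ ψ K G H hS m d e hli heK hr hst U hU hτU g hg r hgr w hw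
  have hψd := det_cx hS.det
  have hu := isUnit_iff_ne_zero.2 hψd
  set E : Fin d → Matrix ι ι ℂ := fun a => e a * (cx ψ)⁻¹ with hE
  have hEli : LinearIndependent ℂ E := by
    have h1 : LinearMap.ker (LinearMap.mulRight ℂ ((cx ψ)⁻¹)) = ⊥ := by
      rw [LinearMap.ker_eq_bot]
      intro X Y hXY
      have h2 : X * (cx ψ)⁻¹ = Y * (cx ψ)⁻¹ := hXY
      calc X = X * (cx ψ)⁻¹ * cx ψ := by
            rw [Matrix.mul_assoc, Matrix.nonsing_inv_mul _ hu, Matrix.mul_one]
        _ = Y * (cx ψ)⁻¹ * cx ψ := by rw [h2]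
        _ = Y := by rw [Matrix.mul_assoc, Matrix.nonsing_inv_mul _ hu, Matrix.mul_one]
    have h2 := hli.map' (LinearMap.mulRight ℂ ((cx ψ)⁻¹)) h1
    have h3 : E = ⇑(LinearMap.mulRight ℂ ((cx ψ)⁻¹)) ∘ e := by
      funext a
      rw [Function.comp_apply, LinearMap.mulRight_apply]
    rw [h3]
    exact h2
  have hkey : ∀ (x : GL ι ℂ) (z : ℂ) (r : Matrix (Fin d) (Fin d) ℂ),
      x.1ᵀ * cx ψ * x.1 = z • cx ψ → Rho e x r → ∀ w : (Fin m → Fin d) → ℂ,
      ta x.1 (Phi E w) = z ^ m • Phi E (ta r w) := by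
    intro x z r hz hxr w
    have h1 : ∀ a, x.1 * E a * x.1ᵀ = z • ∑ b, r b a • E b := by
      intro a
      have e1 : x.1ᵀ = z • (cx ψ * x⁻¹.1 * (cx ψ)⁻¹) := by
        calc x.1ᵀ = x.1ᵀ * cx ψ * x.1 * x⁻¹.1 * (cx ψ)⁻¹ := by
              rw [Matrix.mul_assoc _ x.1, glinv, Matrix.mul_one, Matrix.mul_assoc,
                Matrix.mul_nonsing_inv _ hu, Matrix.mul_one]
          _ = _ := by rw [hz, Matrix.smul_mul, Matrix.smul_mul]
      have e2 : (cx ψ)⁻¹ * x.1ᵀ = z • (x⁻¹.1 * (cx ψ)⁻¹) := by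
        rw [e1, Matrix.mul_smul, ← Matrix.mul_assoc, ← Matrix.mul_assoc,
          Matrix.nonsing_inv_mul _ hu, Matrix.one_mul]
      calc x.1 * (e a * (cx ψ)⁻¹) * x.1ᵀ = x.1 * e a * ((cx ψ)⁻¹ * x.1ᵀ) := by
            simp only [Matrix.mul_assoc]
        _ = z • ((x.1 * e a * x⁻¹.1) * (cx ψ)⁻¹) := by
            rw [e2, Matrix.mul_smul]
            simp only [Matrix.mul_assoc]
        _ = z • ∑ b, r b a • E b := by
            rw [hxr a, Finset.sum_mul]
            simp only [Matrix.smul_mul, hE]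
    have h2 : ∀ I : Fin m → Fin d, ta x.1 (pt fun k => E (I k)) =
        z ^ m • ∑ I' : Fin m → Fin d, (∏ k, r (I' k) (I k)) • pt fun k => E (I' k) := by
      intro I
      rw [ta_pt, ← pt_sum (fun a k => r a (I k)) E, ← pt_smul]
      congr 1
      funext k
      exact h1 (I k)
    rw [Phi_apply, map_sum, Phi_apply]
    have h3 : ∀ I : Fin m → Fin d, ta x.1 (w I • pt fun k => E (I k)) =
        z ^ m • ∑ I' : Fin m → Fin d, ((∏ k, r (I' k) (I k)) * w I) • pt fun k => E (I' k) := by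
      intro I
      rw [map_smul, h2, smul_comm, Finset.smul_sum]
      refine congrArg _ (Finset.sum_congr rfl fun I' _ => ?_)
      rw [smul_smul, mul_comm]
    rw [Finset.sum_congr rfl fun I _ => h3 I, ← Finset.smul_sum, Finset.sum_comm]
    refine congrArg _ (Finset.sum_congr rfl fun I' _ => ?_)
    rw [← Finset.sum_smul]
    rfl
  have h1 := hst (Fin m × Fin 2) (by simp [mul_comm]) (U.map (Phi E)) ?_ ?_ g hg _ ⟨w, hw, rfl⟩
  · rw [hkey g 1 r (by rw [one_smul]; exact hS.iso g hg) hgr, one_pow, one_smul] at h1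
    obtain ⟨v, hv, hvw⟩ := h1
    rw [← Phi_inj E hEli hvw]
    exact hv
  · rintro x hx _ ⟨v, hv, rfl⟩
    obtain ⟨z, hz⟩ := hS.sim x hx
    obtain ⟨r', hr'⟩ := hr x hx
    rw [hkey x z r' hz hr']
    exact Submodule.smul_mem _ _ ⟨_, hU x hx r' hr' v hv, rfl⟩
  · rintro τ hτ _ ⟨v, hv, rfl⟩
    refine ⟨fun J => τ (v J), hτU τ hτ v hv, ?_⟩
    have h2 : ∀ a, (E a).map τ = E a := by
      intro a
      rw [hE]
      change (e a * (cx ψ)⁻¹).map τ = e a * (cx ψ)⁻¹
      rw [AdjM.map_mul_inv ψ hψd τ (e a)]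
      congr 1
      exact Matrix.ext fun i j => hτ _ (heK a i j)
    funext J
    rw [Phi_apply, Phi_apply, Finset.sum_apply, Finset.sum_apply, map_sum]
    refine Finset.sum_congr rfl fun I _ => ?_
    rw [Pi.smul_apply, Pi.smul_apply, smul_eq_mul, smul_eq_mul, map_mul]
    congr 1
    change _ = τ (∏ k, E (I k) (J (k, 0)) (J (k, 1)))
    rw [map_prod]
    refine Finset.prod_congr rfl fun k _ => ?_
    exact (congrFun (congrFun (h2 (I k)) (J (k, 0))) (J (k, 1))).symm

end Pool.Agent.Lib.MPf11a48.CG
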