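import Pool.Agent.Lib.MP_f11a48_ag.CG.Spec
import Pool.Agent.Lib.MP_f11a48_ag.CF.Rel
import Pool.Agent.Lib.MP_f11a48_ag.CF.Pol

/-!
# Module TOR: values of algebraic functions
-/

set_option autoImplicit false

namespace Pool.Agent.Lib.MPf11a48.CG.TorM

open Polynomial Matrix
open scoped PowerSeries
open Pool.Agent.Lib.MPf11a48.GF Pool.Agent.Lib.MPf11a48.GF.EstM

/-- the polynomial `P(X, q)` in the variables of `q` -/
noncomputable def pq {μ : Type} (q : MvPolynomial μ ℚ) (P : ℚ[X][X]) : MvPolynomial μ ℚ[X] :=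
  Polynomial.eval₂ MvPolynomial.C (MvPolynomial.map Polynomial.C q) P

theorem peval_map {μ : Type} (v : μ → ℚ⟦X⟧) (q : MvPolynomial μ ℚ) :
    peval v (MvPolynomial.map Polynomial.C q) = MvPolynomial.aeval v q := by
  unfold peval
  rw [MvPolynomial.eval₂_map, MvPolynomial.aeval_def]
  congr 1
  exact Subsingleton.elim _ _

theorem peval_pq {μ : Type} (v : μ → ℚ⟦X⟧) (q : MvPolynomial μ ℚ) (P : ℚ[X][X]) :
    peval v (pq q P) = Polynomial.aeval (MvPolynomial.aeval v q : ℚ⟦X⟧) P := by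
  rw [← peval_map]
  unfold pq peval
  rw [← MvPolynomial.coe_eval₂Hom, Polynomial.hom_eval₂, Polynomial.aeval_def]
  congr 1
  ext p n
  · simp [PowerSeries.algebraMap_apply']
  · simp [PowerSeries.algebraMap_apply']

theorem map_pq {μ : Type} (x : μ → ℂ) (q : MvPolynomial μ ℚ) (P : ℚ[X][X]) (ξ : ℚ) :
    MvPolynomial.aeval x ((pq q P).map (Polynomial.evalRingHom ξ)) =
      Polynomial.aeval (MvPolynomial.aeval x q) (P.map (Polynomial.evalRingHom ξ)) := by
  unfold pq
  rw [Polynomial.hom_eval₂, Polynomial.aeval_def, Polynomial.eval₂_map]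
  have e : MvPolynomial.map (Polynomial.evalRingHom ξ) (MvPolynomial.map Polynomial.C q) = q := by
    rw [MvPolynomial.map_map]
    have : (Polynomial.evalRingHom ξ).comp Polynomial.C = RingHom.id ℚ :=
      Subsingleton.elim _ _
    rw [this, MvPolynomial.map_id]
  rw [e]
  change (MvPolynomial.aeval x : MvPolynomial μ ℚ →ₐ[ℚ] ℂ).toRingHom _ = _
  rw [Polynomial.hom_eval₂]
  congr 1
  ext p
  · simp
  · simp

end Pool.Agent.Lib.MPf11a48.CG.TorM

namespace Pool.Agent.Lib.MPf11a48.CG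

open Polynomial Matrix
open scoped PowerSeries
open Pool.Agent.Lib.MPf11a48.GF Pool.Agent.Lib.MPf11a48.GF.EstM Pool.Agent.Lib.MPf11a48.CF

open TorM in
theorem specTor : SpecTor := by
  intro ι _ _ Y hY q hq
  obtain ⟨P, hP, h0⟩ := hq
  obtain ⟨C1, hs⟩ := MonoM.sm_of hY
  obtain ⟨N, hN⟩ := eval_ne_zero P.leadingCoeff (leadingCoeff_ne_zero.2 hP)
  refine ⟨P.natDegree, C1 + N + 1, fun a b ha hb => ?_⟩
  have hb0 : 0 < b := PolM.pos (by omega) ha hb
  have hsm := hs a b ha (PolM.mono (by omega) ha hb)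
  have hξ : ((a : ℚ) / b) ≠ 0 := div_ne_zero (by exact_mod_cast ha) (by exact_mod_cast hb0.ne')
  have h1 := PolM.small (C := C1 + N + 1) (by omega) ha hb
  have hev := hN ((a : ℚ) / b) hξ (le_trans (mul_le_mul_of_nonneg_right (by
    push_cast
    have : (0 : ℚ) ≤ C1 := Nat.cast_nonneg _
    linarith) (abs_nonneg _)) h1)
  refine ⟨P.map (Polynomial.evalRingHom ((a : ℚ) / b)), ?_, Polynomial.natDegree_map_le, ?_⟩
  · intro h2
    apply hev
    have h3 := congrArg (fun p : ℚ[X] => p.coeff P.natDegree) h2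
    simpa using h3
  · have h2 := (RelM.pval_peval (fun v : ι × ι => Y v.1 v.2) ((a : ℚ) / b) ((a : ℂ) / b)
      (by push_cast; rfl) (fun v => hsm v) (pq q P)).2
    rw [peval_pq, h0, pval_zero, map_pq] at h2
    exact h2.symm

end Pool.Agent.Lib.MPf11a48.CG
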