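import Pool.Agent.Lib.MP_f11a48_ag.CG.SpecA
import Pool.Agent.Lib.MP_f11a48_ag.CF.Mono

/-!
# Module TRQ: the translate of a family
-/

set_option autoImplicit false
set_option linter.unusedSectionVars false

namespace Pool.Agent.Lib.MPf11a48.CG.TrqM

open Polynomial Matrix
open scoped PowerSeries
open Pool.Agent.Lib.MPf11a48.GL2T Pool.Agent.Lib.MPf11a48.GF

/-- finite sums of G-functions -/
theorem isG_sum {κ μ : Type} [Fintype κ] (u : κ × μ → ℚ⟦X⟧) (hu : IsG u) :
    IsG fun x : μ => ∑ k, u (k, x) := by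
  obtain ⟨C, hC⟩ := hu
  have h1 : 1 ≤ C := by
    obtain ⟨q, hq, hq', _⟩ := hC 0
    simp at hq'
    omega
  refine ⟨C * (Fintype.card κ + 1), fun n => ?_⟩
  obtain ⟨q, hq, hqC, hqi, hqs⟩ := hC n
  refine ⟨q, hq, hqC.trans (Nat.pow_le_pow_left (Nat.le_mul_of_pos_right _ (Nat.succ_pos _)) _),
    fun x k hk => ?_, fun x => ?_⟩
  · choose z hz using fun l => hqi (l, x) k hk
    refine ⟨∑ l, z l, ?_⟩
    rw [map_sum, Finset.mul_sum]
    push_cast
    exact Finset.sum_congr rfl fun l _ => hz l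
  · rw [map_sum]
    refine (Finset.abs_sum_le_sum_abs _ _).trans ?_
    refine (Finset.sum_le_sum fun l _ => hqs (l, x)).trans ?_
    rw [Finset.sum_const, Finset.card_univ, nsmul_eq_mul]
    push_cast
    rw [mul_pow, mul_comm]
    refine mul_le_mul_of_nonneg_left ?_ (by positivity)
    calc (Fintype.card κ : ℚ) ≤ (Fintype.card κ : ℚ) + 1 := by linarith
      _ = ((Fintype.card κ : ℚ) + 1) ^ 1 := (pow_one _).symm
      _ ≤ ((Fintype.card κ : ℚ) + 1) ^ (n + 1) :=
        pow_le_pow_right₀ (by linarith [(Nat.cast_nonneg (Fintype.card κ) : (0 : ℚ) ≤ _)])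
          (by omega)

variable {ι : Type} [Fintype ι] [DecidableEq ι]

/-- the entries of a product of matrices of G-functions -/
theorem isG_matmul (P Y : Matrix ι ι ℚ⟦X⟧) (hP : IsG fun v : ι × ι => P v.1 v.2)
    (hY : IsG fun v : ι × ι => Y v.1 v.2) : IsG fun v : ι × ι => (P * Y) v.1 v.2 := by
  have h1 := isG_sum (κ := ι) (μ := ι × ι) (fun x => P x.2.1 x.1 * Y x.1 x.2.2)
    (SymM.isG_mul (μ := ι × ι × ι) (fun v : ι × ι => P v.1 v.2) (fun v : ι × ι => Y v.1 v.2) hP hY
      (fun x => (x.2.1, x.1)) (fun x => (x.1, x.2.2)))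
  simpa only [Matrix.mul_apply] using h1

/-- the formal computation -/
theorem key (M T φ x : ℚ⟦X⟧) (e : ℕ) (S : ℚ⟦X⟧ →+* ℚ⟦X⟧) (mm : ℚ⟦X⟧)
    (hM : M = 1 + mm * x) (hφ : M * φ = x)
    (B N P Y : Matrix ι ι ℚ⟦X⟧) (hx : S x = φ) (hN : N.map S = N)
    (hS : ∀ f, M ^ 2 * PowerSeries.derivative ℚ (S f) = S (PowerSeries.derivative ℚ f))
    (hP : ∀ i j, M * PowerSeries.derivative ℚ (P i j) = -(mm * (N * P) i j))
    (hNP : N * P = P * N)
    (sol : ∀ i j, x * T * PowerSeries.derivative ℚ (Y i j) =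
      ∑ k, x * B j k * Y i k - T * (N * Y) i j) (i j : ι) :
    x * (M ^ (e + 2) * S T) * PowerSeries.derivative ℚ ((P * Y.map S) i j) =
      ∑ k, x * (M ^ e * S (B j k)) * (P * Y.map S) i k -
        M ^ (e + 2) * S T * (N * (P * Y.map S)) i j := by
  have h1 : ∀ l, x * S T * S (PowerSeries.derivative ℚ (Y l j)) =
      ∑ k, x * S (B j k) * S (Y l k) - M * S T * (N * Y.map S) l j := by
    intro l
    have h2 := congrArg S (sol l j)
    have h3 : S ((N * Y) l j) = (N * Y.map S) l j := by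
      have h4 := congrFun (congrFun (Matrix.map_mul (L := N) (M := Y) (f := S)) l) j
      rw [Matrix.map_apply, hN] at h4
      exact h4
    simp only [map_mul, map_sub, map_sum, hx, h3] at h2
    calc x * S T * S (PowerSeries.derivative ℚ (Y l j))
        = M * (φ * S T * S (PowerSeries.derivative ℚ (Y l j))) := by rw [← hφ]; ring
      _ = M * (∑ k, φ * S (B j k) * S (Y l k) - S T * (N * Y.map S) l j) := by rw [h2]
      _ = _ := by
          rw [mul_sub, Finset.mul_sum, ← mul_assoc]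
          congr 1
          refine Finset.sum_congr rfl fun k _ => ?_
          rw [← hφ]
          ring
  have h5 : PowerSeries.derivative ℚ ((P * Y.map S) i j) =
      ∑ l, (PowerSeries.derivative ℚ (P i l) * S (Y l j) +
        P i l * PowerSeries.derivative ℚ (S (Y l j))) := by
    rw [Matrix.mul_apply, map_sum]
    refine Finset.sum_congr rfl fun l _ => ?_
    rw [Matrix.map_apply, Derivation.leibniz, smul_eq_mul, smul_eq_mul]
    ring
  have h6 : ∀ l, x * (M ^ (e + 2) * S T) * (PowerSeries.derivative ℚ (P i l) * S (Y l j) +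
        P i l * PowerSeries.derivative ℚ (S (Y l j))) =
      -(M ^ (e + 1) * S T * (mm * x)) * ((N * P) i l * S (Y l j)) +
        M ^ e * (P i l * (∑ k, x * S (B j k) * S (Y l k))) -
        M ^ (e + 1) * S T * (P i l * (N * Y.map S) l j) := by
    intro l
    calc x * (M ^ (e + 2) * S T) * (PowerSeries.derivative ℚ (P i l) * S (Y l j) +
        P i l * PowerSeries.derivative ℚ (S (Y l j)))
        = x * M ^ (e + 1) * S T * (M * PowerSeries.derivative ℚ (P i l)) * S (Y l j) +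
          M ^ e * P i l * (x * S T * (M ^ 2 * PowerSeries.derivative ℚ (S (Y l j)))) := by ring
      _ = _ := by
          rw [hP, hS, h1]
          ring
  rw [h5, Finset.mul_sum, Finset.sum_congr rfl fun l _ => h6 l, Finset.sum_sub_distrib,
    Finset.sum_add_distrib, ← Finset.mul_sum, ← Finset.mul_sum, ← Finset.mul_sum]
  have h7 : ∑ l, (N * P) i l * S (Y l j) = (N * (P * Y.map S)) i j := by
    rw [← Matrix.mul_assoc, Matrix.mul_apply]
    rfl
  have h8 : ∑ l, P i l * (N * Y.map S) l j = (N * (P * Y.map S)) i j := by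
    rw [← Matrix.mul_assoc, hNP, Matrix.mul_assoc, Matrix.mul_apply (M := P)]
  have h9 : M ^ e * ∑ l, P i l * (∑ k, x * S (B j k) * S (Y l k)) =
      ∑ k, x * (M ^ e * S (B j k)) * (P * Y.map S) i k := by
    simp only [Matrix.mul_apply, Finset.mul_sum]
    rw [Finset.sum_comm]
    refine Finset.sum_congr rfl fun k _ => Finset.sum_congr rfl fun l _ => ?_
    rw [Matrix.map_apply]
    ring
  rw [h7, h8, h9]
  have h10 : M ^ (e + 2) = M ^ (e + 1) * (1 + mm * x) := by
    rw [← hM]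
    ring
  rw [h10]
  ring

end Pool.Agent.Lib.MPf11a48.CG.TrqM

namespace Pool.Agent.Lib.MPf11a48.CG

open Polynomial Matrix
open scoped PowerSeries
open Pool.Agent.Lib.MPf11a48.GL2T Pool.Agent.Lib.MPf11a48.GF

open TrqM in
theorem specTrq (hTrf : SpecTrf) (hPnm : SpecPnm) : SpecTrq := by
  intro ι _ _ T B N ψ₀ Y m h hψN hnil
  obtain ⟨h1, h2, h3, h4, h5, h6, h7, h8, h9⟩ := hTrf m
  obtain ⟨p1, p2, p3, p4, p5, p6⟩ := hPnm ι m N
  -- the ring homomorphism
  let S : ℚ⟦X⟧ →+* ℚ⟦X⟧ :=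
    { toFun := trf m
      map_one' := by
        have := h2 1
        rwa [map_one] at this
      map_mul' := fun f g => (h1 f g).2
      map_zero' := by
        have := h2 0
        rwa [map_zero] at this
      map_add' := fun f g => (h1 f g).1 }
  have hS : ∀ f, S f = trf m f := fun _ => rfl
  have hSinj : Function.Injective S := (injective_iff_map_eq_zero S).2 h4
  have hMne : (1 + PowerSeries.C (m : ℚ) * PowerSeries.X : ℚ⟦X⟧) ≠ 0 := by
    intro h0
    have := congrArg PowerSeries.constantCoeff h0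
    simp at this
  have htrm : trm m N Y = pm m N * Y.map S := rfl
  have hNS : (N.map (PowerSeries.C : ℚ →+* ℚ⟦X⟧)).map S = N.map (PowerSeries.C : ℚ →+* ℚ⟦X⟧) := by
    ext1 i j
    exact h2 _
  refine ⟨?_, ?_, ?_⟩
  · -- degrees
    obtain ⟨e, he⟩ : ∃ e : ℕ, T.natDegree ≤ e ∧ ∀ i j, (B i j).natDegree ≤ e := by
      refine ⟨T.natDegree + ∑ v : ι × ι, (B v.1 v.2).natDegree, Nat.le_add_right _ _,
        fun i j => ?_⟩
      have := Finset.single_le_sum (f := fun v : ι × ι => (B v.1 v.2).natDegree)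
        (fun _ _ => Nat.zero_le _) (Finset.mem_univ (i, j))
      exact le_add_left this
    obtain ⟨T', hT'⟩ := h8 T e he.1
    choose B' hB' using fun i j => h8 (B i j) e (he.2 i j)
    have hzT : ((zq ((1 + C (m : ℤ) * X) ^ 2 * T') : ℚ[X]) : ℚ⟦X⟧) =
        (1 + PowerSeries.C (m : ℚ) * PowerSeries.X) ^ (e + 2) * S ((zq T : ℚ[X]) : ℚ⟦X⟧) := by
      have : zq ((1 + C (m : ℤ) * X) ^ 2 * T') = (1 + C (m : ℚ) * X) ^ 2 * zq T' := by
        simp [zq, Polynomial.map_mul, Polynomial.map_pow]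
      rw [this, Polynomial.coe_mul, ← hT', hS, Polynomial.coe_pow, Polynomial.coe_add,
        Polynomial.coe_mul, Polynomial.coe_C, Polynomial.coe_X, Polynomial.coe_one]
      ring
    have hzT0 : S ((zq T : ℚ[X]) : ℚ⟦X⟧) ≠ 0 := by
      rw [Ne, map_eq_zero_iff S hSinj, Polynomial.coe_eq_zero_iff]
      exact (Polynomial.map_ne_zero_iff (Int.castRingHom ℚ).injective_int).2 h.ne
    refine ⟨(1 + C (m : ℤ) * X) ^ 2 * T', Matrix.of B', ?_, ?_, ?_, ?_⟩
    · intro h0
      rw [h0] at hzT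
      have : ((zq 0 : ℚ[X]) : ℚ⟦X⟧) = 0 := by simp [zq]
      rw [this] at hzT
      exact mul_ne_zero (pow_ne_zero _ hMne) hzT0 hzT.symm
    · intro i j
      have hk := key (1 + PowerSeries.C (m : ℚ) * PowerSeries.X) ((zq T : ℚ[X]) : ℚ⟦X⟧)
        (trf m PowerSeries.X) PowerSeries.X e S (PowerSeries.C (m : ℚ)) rfl h3
        (Matrix.of fun i j => ((zq (B i j) : ℚ[X]) : ℚ⟦X⟧))
        (N.map (PowerSeries.C : ℚ →+* ℚ⟦X⟧)) (pm m N) Y rfl hNS h6 p1 p2
        (fun i j => by
          have := h.sol i j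
          simp only [Polynomial.coe_mul, Polynomial.coe_X] at this
          exact this) i j
      rw [htrm, Polynomial.coe_mul, hzT, Polynomial.coe_X, hk]
      congr 1
      refine Finset.sum_congr rfl fun k _ => ?_
      rw [Polynomial.coe_mul, Polynomial.coe_X, Matrix.of_apply, Matrix.of_apply, ← hB', hS]
    · exact isG_matmul _ _ (p6 hnil).1 (h9 (ι × ι) (fun v => Y v.1 v.2) h.g).1
    · obtain ⟨D, hD, hq⟩ := h.pol
      choose q hq using hq
      obtain ⟨e, he⟩ : ∃ e : ℕ, D.natDegree ≤ e ∧ ∀ i j, (q i j).natDegree ≤ e := by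
        refine ⟨D.natDegree + ∑ v : ι × ι, (q v.1 v.2).natDegree, Nat.le_add_right _ _,
          fun i j => ?_⟩
        have := Finset.single_le_sum (f := fun v : ι × ι => (q v.1 v.2).natDegree)
          (fun _ _ => Nat.zero_le _) (Finset.mem_univ (i, j))
        exact le_add_left this
      obtain ⟨D', hD'⟩ := h7 D e he.1
      choose q' hq' using fun i j => h7 (q i j) e (he.2 i j)
      have hform : (trm m N Y)ᵀ * ψ₀.map (PowerSeries.C : ℚ →+* ℚ⟦X⟧) * trm m N Y =
          (Yᵀ * ψ₀.map (PowerSeries.C : ℚ →+* ℚ⟦X⟧) * Y).map S := by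
        have e1 : (ψ₀.map (PowerSeries.C : ℚ →+* ℚ⟦X⟧)).map S =
            ψ₀.map (PowerSeries.C : ℚ →+* ℚ⟦X⟧) := by
          ext1 i j
          exact h2 _
        rw [Matrix.map_mul, Matrix.map_mul, e1, htrm, Matrix.transpose_mul, ← Matrix.transpose_map]
        have e2 := p3 ψ₀ hψN
        calc (Y.map S)ᵀ * (pm m N)ᵀ * ψ₀.map (PowerSeries.C : ℚ →+* ℚ⟦X⟧) * (pm m N * Y.map S)
            = (Y.map S)ᵀ * ((pm m N)ᵀ * ψ₀.map (PowerSeries.C : ℚ →+* ℚ⟦X⟧) * pm m N) * Y.map S := by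
              simp only [Matrix.mul_assoc]
          _ = _ := by rw [e2, Matrix.transpose_map]
      refine ⟨D', ?_, fun i j => ⟨q' i j, ?_⟩⟩
      · intro h0
        rw [h0, Polynomial.coe_zero] at hD'
        refine mul_ne_zero (pow_ne_zero _ hMne) ?_ hD'
        rw [← hS, Ne, map_eq_zero_iff S hSinj, Polynomial.coe_eq_zero_iff]
        exact hD
      · rw [hform, Matrix.map_apply, ← hD', ← hq', ← hq, (h1 _ _).2, hS]
        ring
  · intro hY
    rw [htrm, Matrix.det_mul]
    refine mul_ne_zero p4 ?_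
    have e1 : (Y.map S).det = S Y.det := by
      rw [RingHom.map_det, RingHom.mapMatrix_apply]
    rw [e1, Ne, map_eq_zero_iff S hSinj]
    exact hY
  · have h50 := (hTrf 0).2.2.2.2.1 rfl
    have p50 := (hPnm ι 0 N).2.2.2.2.1
    rw [trm, p50, Matrix.one_mul]
    ext1 i j
    exact h50 _

end Pool.Agent.Lib.MPf11a48.CG
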