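import Pool.Agent.Lib.MP_f11a48_ag.CG.SpecB

/-!
# ALG: the elimination of the matrix `C` by derivations (from DEX)
-/

set_option autoImplicit false

namespace Pool.Agent.Lib.MPf11a48.CG.AlgM

open Matrix
open Pool.Agent.Lib.MPf11a48.CG

/-- the chain rule for a derivation of `U` over `k` -/
theorem der_aeval {I k U : Type} [Fintype I] [CommRing k] [CommRing U] [Algebra k U]
    (δ : Derivation k U U) (F : MvPolynomial I k) (y : I → U) :
    δ (MvPolynomial.aeval y F) = dv F y (fun i => δ (y i)) := by
  classical
  unfold dv
  induction F using MvPolynomial.induction_on with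
  | C a => simp
  | add p q hp hq =>
      simp only [map_add, hp, hq, add_mul, Finset.sum_add_distrib]
  | mul_X p i hp =>
      have h1 : ∀ j : I, MvPolynomial.aeval y (MvPolynomial.pderiv j (p * MvPolynomial.X i)) * δ (y j)
          = y i * (MvPolynomial.aeval y (MvPolynomial.pderiv j p) * δ (y j))
            + (if j = i then MvPolynomial.aeval y p * δ (y i) else 0) := by
        intro j
        rw [Derivation.leibniz, MvPolynomial.pderiv_X]
        by_cases hj : j = i
        · subst hj
          simp
          ring
        · simp [hj, Ne.symm hj]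
          ring
      rw [Finset.sum_congr rfl (fun j _ => h1 j), Finset.sum_add_distrib, ← Finset.mul_sum,
        Finset.sum_ite_eq' Finset.univ i, if_pos (Finset.mem_univ i), ← hp]
      simp only [map_mul, MvPolynomial.aeval_X, Derivation.leibniz, smul_eq_mul]
      ring

theorem dv_smul {I k U : Type} [Fintype I] [CommRing k] [CommRing U] [Algebra k U]
    (F : MvPolynomial I k) (y v : I → U) (t : U) :
    dv F y (fun i => t * v i) = t * dv F y v := by
  unfold dv
  rw [Finset.mul_sum]
  exact Finset.sum_congr rfl fun i _ => by ring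

/-- the derivation of a product of matrices, entry by entry -/
theorem der_mul {ι k U : Type} [Fintype ι] [CommRing k] [CommRing U] [Algebra k U]
    (δ : Derivation k U U) (A B : Matrix ι ι U) :
    (A * B).map δ = A.map δ * B + A * B.map δ := by
  ext i j
  simp only [Matrix.map_apply, Matrix.mul_apply, Matrix.add_apply, map_sum, Derivation.leibniz,
    smul_eq_mul]
  rw [← Finset.sum_add_distrib]
  exact Finset.sum_congr rfl fun l _ => by ring

theorem sum_ap {β k U : Type} [CommRing k] [CommRing U] [Algebra k U] (s : Finset β)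
    (f : β → Derivation k U U) (u : U) : (∑ b ∈ s, f b) u = ∑ b ∈ s, f b u := by
  classical
  induction s using Finset.induction_on with
  | empty => simp
  | insert a s ha ih => rw [Finset.sum_insert ha, Finset.sum_insert ha, Derivation.add_apply, ih]

end Pool.Agent.Lib.MPf11a48.CG.AlgM

namespace Pool.Agent.Lib.MPf11a48.CG

open Matrix AlgM

theorem specAlg (hDex : SpecDex) : SpecAlg := by
  intro U _ _ k ι σ _ _ _ _ d X W C y R Z F hcard hR hWC hZ hΦ hF
  classical
  -- the derivations
  have hex : ∀ (a : σ) (j : Fin d), ∃ δ : Derivation k U U, ∀ p : σ × ι × ι,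
      δ (y p.1 p.2.1 p.2.2) = if p.1 = a then (X j * y a) p.2.1 p.2.2 else 0 := by
    intro a j
    exact hDex U k (σ × ι × ι) (fun p => y p.1 p.2.1 p.2.2)
      (fun p => if p.1 = a then (X j * y a) p.2.1 p.2.2 else 0) (fun Φ h => hΦ Φ h a j)
  choose δ hδ using hex
  have hz : ∀ a, ∃ z : Fin d → U, ∑ j, z j • W j = Z a := fun a =>
    (Submodule.mem_span_range_iff_exists_fun U).1 (hZ a)
  choose z hz using hz
  -- a combination which kills `C`
  let Δ : (σ → U) →ₗ[U] (ι × ι → U) :=
    { toFun := fun t p => ∑ a, t a * ∑ j, z a j * δ a j (C p.1 p.2)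
      map_add' := by
        intro s t
        funext p
        simp only [Pi.add_apply, add_mul, Finset.sum_add_distrib]
      map_smul' := by
        intro c t
        funext p
        simp only [Pi.smul_apply, smul_eq_mul, RingHom.id_apply, Finset.mul_sum, mul_assoc] }
  have hker : ∃ t : σ → U, t ≠ 0 ∧ Δ t = 0 := by
    have h1 : Module.finrank U (ι × ι → U) < Module.finrank U (σ → U) := by
      rw [Module.finrank_fintype_fun_eq_card, Module.finrank_fintype_fun_eq_card,
        Fintype.card_prod, ← sq]
      exact hcard
    have h2 : LinearMap.ker Δ ≠ ⊥ := LinearMap.ker_ne_bot_of_finrank_lt h1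
    obtain ⟨t, ht, ht0⟩ := (Submodule.ne_bot_iff _).1 h2
    exact ⟨t, ht0, ht⟩
  obtain ⟨t, ht0, htΔ⟩ := hker
  have hta : ∃ a, t a ≠ 0 := by
    by_contra h
    push Not at h
    exact ht0 (funext h)
  obtain ⟨a, hta⟩ := hta
  refine ⟨a, ?_⟩
  -- the derivation
  let D : Derivation k U U := ∑ b, t b • ∑ j, z b j • δ b j
  have hDap : ∀ u : U, D u = ∑ b, t b * ∑ j, z b j * δ b j u := by
    intro u
    simp only [D, sum_ap, Derivation.smul_apply, smul_eq_mul]
  have hDC : C.map D = 0 := by
    ext i j
    have := congrFun htΔ (i, j)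
    rw [Matrix.map_apply, hDap]
    exact this
  have hDR : (R a).map D = 0 := by
    ext i j
    rw [Matrix.map_apply]
    have h1 : R a i j = algebraMap k U ⟨R a i j, hR a i j⟩ := rfl
    rw [h1, Derivation.map_algebraMap]
    rfl
  have hDy : (y a).map D = (t a • ∑ j, z a j • X j) * y a := by
    ext i l
    rw [Matrix.map_apply, hDap]
    have h1 : ∀ b, t b * ∑ j, z b j * δ b j (y a i l)
        = if b = a then t b * ∑ j, z b j * (X j * y b) i l else 0 := by
      intro b
      by_cases hb : b = a
      · subst hb
        rw [if_pos rfl]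
        congr 1
        refine Finset.sum_congr rfl fun j _ => ?_
        have := hδ b j (b, i, l)
        simp only [if_true] at this
        rw [this]
      · rw [if_neg hb]
        have h2 : ∀ j, δ b j (y a i l) = 0 := by
          intro j
          have := hδ b j (a, i, l)
          simpa [Ne.symm hb] using this
        simp [h2]
    rw [Finset.sum_congr rfl (fun b _ => h1 b), Finset.sum_ite_eq' Finset.univ a,
      if_pos (Finset.mem_univ a)]
    rw [Matrix.smul_mul, Matrix.smul_apply, smul_eq_mul, Matrix.sum_mul, Matrix.sum_apply]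
    congr 1
    refine Finset.sum_congr rfl fun j _ => ?_
    rw [Matrix.smul_mul, Matrix.smul_apply, smul_eq_mul]
  have hDc : (C * y a * R a).map D = t a • (Z a * (C * y a * R a)) := by
    rw [der_mul, der_mul, hDC, hDR, hDy, Matrix.zero_mul, zero_add, Matrix.mul_zero, add_zero,
      ← hz a]
    have h1 : C * (t a • ∑ j, z a j • X j) = (t a • ∑ j, z a j • W j) * C := by
      rw [Matrix.mul_smul, Matrix.smul_mul, Matrix.mul_sum, Matrix.sum_mul]
      congr 1
      refine Finset.sum_congr rfl fun j _ => ?_
      rw [Matrix.mul_smul, Matrix.smul_mul, hWC]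
    rw [← Matrix.mul_assoc C, h1, Matrix.smul_mul, Matrix.smul_mul, Matrix.smul_mul]
    simp only [Matrix.mul_assoc]
  have h0 := der_aeval D (F a) (fun p : ι × ι => (C * y a * R a) p.1 p.2)
  rw [hF a, map_zero] at h0
  have h1 : (fun p : ι × ι => D ((C * y a * R a) p.1 p.2))
      = fun p : ι × ι => t a * (Z a * (C * y a * R a)) p.1 p.2 := by
    funext p
    have := congrFun (congrFun hDc p.1) p.2
    rw [Matrix.map_apply, Matrix.smul_apply, smul_eq_mul] at this
    exact this
  rw [h1, dv_smul] at h0
  rcases mul_eq_zero.1 h0.symm with h | h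
  · exact absurd h hta
  · exact h

end Pool.Agent.Lib.MPf11a48.CG
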