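import Pool.Agent.Lib.MP_f11a48_ag.CG.SpecB
import Pool.Agent.Lib.MP_f11a48_ag.CG.Cod
import Mathlib.Order.Filter.FilterProduct
import Mathlib.Order.Filter.Ultrafilter.Basic

/-!
# ULT: the elimination of the matrix `C` in bounded degree, by an ultraproduct
-/

set_option autoImplicit false

namespace Pool.Agent.Lib.MPf11a48.CG

open Matrix
open Pool.Agent.Lib.MPf11a48.Tors
open Pool.Agent.Lib.MPf11a48.GL2 (lie van en Geo tang lr)
open Pool.Agent.Lib.MPf11a48.K3.KCurM (gl)

namespace UltM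

/-! ### functoriality of the derivative of a polynomial -/

section dv

variable {I k k' U U' : Type} [Fintype I] [CommRing k] [CommRing U] [CommRing k'] [CommRing U']

/-- the derivative, for a ring homomorphism -/
noncomputable def dw (f : k →+* U) (F : MvPolynomial I k) (y v : I → U) : U :=
  ∑ i, MvPolynomial.eval₂ f y (MvPolynomial.pderiv i F) * v i

theorem dv_eq_dw [Algebra k U] (F : MvPolynomial I k) (y v : I → U) :
    dv F y v = dw (algebraMap k U) F y v := rfl

theorem ev_map (f : k →+* U) (f' : k' →+* U') (φ : k →+* k') (ψ : U →+* U')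
    (h : ψ.comp f = f'.comp φ) (F : MvPolynomial I k) (y : I → U) :
    MvPolynomial.eval₂ f' (fun i => ψ (y i)) (MvPolynomial.map φ F) =
      ψ (MvPolynomial.eval₂ f y F) := by
  rw [MvPolynomial.eval₂_map, ← h, MvPolynomial.eval₂_comp_left]
  rfl

theorem dw_map (f : k →+* U) (f' : k' →+* U') (φ : k →+* k') (ψ : U →+* U')
    (h : ψ.comp f = f'.comp φ) (F : MvPolynomial I k) (y v : I → U) :
    dw f' (MvPolynomial.map φ F) (fun i => ψ (y i)) (fun i => ψ (v i)) = ψ (dw f F y v) := by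
  rw [dw, dw, map_sum]
  refine Finset.sum_congr rfl fun i _ => ?_
  rw [map_mul, ← ev_map f f' φ ψ h, MvPolynomial.pderiv_map]

end dv

/-! ### sequences and germs -/

/-- the ultraproduct -/
abbrev UU : Type := Filter.Germ (Filter.hyperfilter ℕ : Filter ℕ) ℂ

/-- the germ of a sequence -/
noncomputable def gm : (ℕ → ℂ) →+* UU := Filter.Germ.coeRingHom _

theorem gm_eq_zero {f : ℕ → ℂ} : gm f = 0 ↔ ∀ᶠ n in (Filter.hyperfilter ℕ : Filter ℕ), f n = 0 :=
  Filter.Germ.coe_eq

instance : CharZero UU := by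
  refine charZero_of_inj_zero fun n hn => ?_
  have h : gm (fun _ => (n : ℂ)) = 0 := by
    rw [← hn]
    have : (fun _ => (n : ℂ) : ℕ → ℂ) = ((n : ℕ) : ℕ → ℂ) := rfl
    rw [this, map_natCast]
  rw [gm_eq_zero] at h
  obtain ⟨m, hm⟩ := h.exists
  exact_mod_cast hm

variable (K : ℕ → IntermediateField ℚ ℂ)

/-- sequences with values in the fields `K n` -/
abbrev AA : Type := ∀ n, K n

/-- the inclusion of the sequences with values in `K n` -/
noncomputable def inc : AA K →+* (ℕ → ℂ) where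
  toFun x n := (x n : ℂ)
  map_one' := rfl
  map_mul' _ _ := rfl
  map_zero' := rfl
  map_add' _ _ := rfl

/-- the field of the germs of sequences with values in `K n` -/
noncomputable def kk : Subfield UU where
  carrier := {x | ∃ f : AA K, gm (inc K f) = x}
  mul_mem' := by
    rintro _ _ ⟨f, rfl⟩ ⟨g, rfl⟩
    exact ⟨f * g, by rw [map_mul, map_mul]⟩
  one_mem' := ⟨1, by rw [map_one, map_one]⟩
  add_mem' := by
    rintro _ _ ⟨f, rfl⟩ ⟨g, rfl⟩
    exact ⟨f + g, by rw [map_add, map_add]⟩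
  zero_mem' := ⟨0, by rw [map_zero, map_zero]⟩
  neg_mem' := by
    rintro _ ⟨f, rfl⟩
    exact ⟨-f, by rw [map_neg, map_neg]⟩
  inv_mem' := by
    rintro _ ⟨f, rfl⟩
    refine ⟨fun n => (f n)⁻¹, ?_⟩
    have h : inc K (fun n => (f n)⁻¹) = (inc K f)⁻¹ := by
      funext n
      change (((f n)⁻¹ : K n) : ℂ) = ((f n : ℂ))⁻¹
      simp
    rw [h]
    rfl

/-- the germ of a sequence with values in `K n` -/
noncomputable def gk : AA K →+* kk K where
  toFun f := ⟨gm (inc K f), f, rfl⟩
  map_one' := Subtype.ext (by simp)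
  map_mul' _ _ := Subtype.ext (by simp)
  map_zero' := Subtype.ext (by simp)
  map_add' _ _ := Subtype.ext (by simp)

theorem gk_surj : Function.Surjective (gk K) := by
  rintro ⟨_, f, rfl⟩
  exact ⟨f, rfl⟩

theorem gm_inc : gm.comp (inc K) = (algebraMap (kk K) UU).comp (gk K) := rfl

/-- the value at `n` -/
noncomputable def evK (n : ℕ) : AA K →+* K n := Pi.evalRingHom _ n

/-- the value at `n` -/
noncomputable def evC (n : ℕ) : (ℕ → ℂ) →+* ℂ := Pi.evalRingHom _ n

theorem evC_inc (n : ℕ) : (evC n).comp (inc K) = (algebraMap (K n) ℂ).comp (evK K n) := rfl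

/-- a sequence of polynomials of bounded degree -/
theorem exists_seq {I : Type} [Finite I] (D : ℕ) (F : ∀ n, MvPolynomial I (K n))
    (hF : ∀ n, (F n).totalDegree ≤ D) :
    ∃ P : MvPolynomial I (AA K), ∀ n, MvPolynomial.map (evK K n) P = F n := by
  classical
  have hfin := Finsupp.finite_of_degree_le (σ := I) D
  refine ⟨∑ m ∈ hfin.toFinset, MvPolynomial.monomial m (fun n => (F n).coeff m), fun n => ?_⟩
  rw [map_sum]
  refine MvPolynomial.ext _ _ fun m => ?_
  rw [MvPolynomial.coeff_sum]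
  simp only [MvPolynomial.map_monomial, MvPolynomial.coeff_monomial]
  rw [Finset.sum_ite_eq']
  split_ifs with h
  · rfl
  · symm
    by_contra hne
    apply h
    rw [Set.Finite.mem_toFinset, Set.mem_setOf_eq]
    have h1 : m ∈ (F n).support := MvPolynomial.mem_support_iff.2 hne
    exact (MvPolynomial.le_totalDegree h1).trans (hF n)

/-! ### matrices -/

section mat

variable {ι : Type} [Fintype ι] [DecidableEq ι]

/-- a sequence of matrices as a matrix of sequences -/
def sq (M : ℕ → Matrix ι ι ℂ) : Matrix ι ι (ℕ → ℂ) := fun i j n => M n i j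

theorem sq_mul (M N : ℕ → Matrix ι ι ℂ) : sq (fun n => M n * N n) = sq M * sq N := by
  ext i j n
  change (M n * N n) i j = (sq M * sq N) i j n
  rw [Matrix.mul_apply, Matrix.mul_apply, Finset.sum_apply]
  rfl

/-- the germ of a sequence of matrices -/
noncomputable def mg (M : ℕ → Matrix ι ι ℂ) : Matrix ι ι UU := (sq M).map gm

theorem mg_apply (M : ℕ → Matrix ι ι ℂ) (i j : ι) : mg M i j = gm (fun n => M n i j) := rfl

theorem mg_mul (M N : ℕ → Matrix ι ι ℂ) : mg (fun n => M n * N n) = mg M * mg N := by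
  rw [mg, sq_mul, Matrix.map_mul]
  rfl

/-- the Lie algebra of a conjugate group -/
theorem lie_of_conj {G G₀ : Subgroup (GL ι ℂ)} (hG₀ : Geo (G₀ : Set (GL ι ℂ))) {C : GL ι ℂ}
    (h : ∀ g, g ∈ G₀ ↔ C * g * C⁻¹ ∈ G) {Z : Matrix ι ι ℂ} (hZ : Z ∈ lie (G : Set (GL ι ℂ))) :
    C⁻¹.1 * Z * C.1 ∈ lie (G₀ : Set (GL ι ℂ)) := by
  refine hG₀.mem_lie_of G₀.one_mem fun p hp => ?_
  have h1 : lr C⁻¹.1 C.1 p ∈ van (G : Set (GL ι ℂ)) := by
    intro g hg
    rw [GL2.eval_lr, ← GL2.glmul, ← GL2.glmul]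
    refine hp _ ?_
    change C⁻¹ * g * C ∈ G₀
    rw [h]
    have : C * (C⁻¹ * g * C) * C⁻¹ = g := by group
    rwa [this]
  have h2 := hZ 1 G.one_mem _ h1
  rw [Units.val_one, Matrix.mul_one, GL2.tang_lr, Matrix.mul_one, GL2.glinv'] at h2
  rw [Units.val_one, Matrix.mul_one]
  exact h2

/-- the derivative of a relation along a one-parameter group -/
theorem dv_zero {σ : Type} [Fintype σ] [DecidableEq σ] {K : IntermediateField ℚ ℂ} {n : ℕ}
    {y : σ → Matrix ι ι ℂ} {G₀ : Subgroup (GL ι ℂ)} (hG₀ : Geo (G₀ : Set (GL ι ℂ)))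
    (h : HasRelT K n y G₀) {X : Matrix ι ι ℂ} (hX : X ∈ lie (G₀ : Set (GL ι ℂ)))
    (F : MvPolynomial (σ × ι × ι) K) (hF : F.totalDegree ≤ n)
    (hF0 : MvPolynomial.aeval (fun p => y p.1 p.2.1 p.2.2) F = 0) (a : σ) :
    dv F (fun p => y p.1 p.2.1 p.2.2)
      (fun p => if p.1 = a then (X * y a) p.2.1 p.2.2 else 0) = 0 := by
  classical
  let g : ℂ → σ → GL ι ℂ := fun s b => if b = a then gl X s else 1
  have hg : ∀ s b, g s b ∈ G₀ := by
    intro s b
    change (if b = a then gl X s else 1) ∈ G₀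
    split_ifs
    · exact CodM.gl_mem hG₀ hX s
    · exact G₀.one_mem
  have h0 : ∀ s, MvPolynomial.aeval (fun p : σ × ι × ι => ((g s p.1).1 * y p.1) p.2.1 p.2.2) F
      = 0 := fun s => h F hF hF0 (g s) (hg s)
  have hg0 : ∀ b, (g 0 b).1 = 1 := by
    intro b
    change (if b = a then gl X 0 else 1 : GL ι ℂ).1 = 1
    split_ifs
    · rw [K3.KCurM.gl_zero, Units.val_one]
    · rfl
  have hd : ∀ p : σ × ι × ι, HasDerivAt
      (fun s => ((g s p.1).1 * y p.1) p.2.1 p.2.2)
      (if p.1 = a then (X * y a) p.2.1 p.2.2 else 0) 0 := by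
    rintro ⟨b, i, j⟩
    by_cases hb : b = a
    · subst hb
      simp only [g, if_true]
      have h1 : (fun s => ((gl X s).1 * y b) i j) = fun s => ∑ l, (gl X s).1 i l * y b l j := by
        funext s
        rw [Matrix.mul_apply]
      rw [h1, Matrix.mul_apply]
      refine HasDerivAt.fun_sum fun l _ => ?_
      have h2 := (K3.KCurM.dv_gl X 0 i l).mul_const (y b l j)
      refine h2.congr_deriv ?_
      change (X * (gl X 0).1) i l * y b l j = X i l * y b l j
      rw [K3.KCurM.gl_zero, Units.val_one, Matrix.mul_one]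
    · simp only [g, if_neg hb]
      exact hasDerivAt_const _ _
  have h3 := CodM.hasDerivAt_aeval F
    (fun s (p : σ × ι × ι) => ((g s p.1).1 * y p.1) p.2.1 p.2.2)
    (fun p => if p.1 = a then (X * y a) p.2.1 p.2.2 else 0) hd
  simp only [h0] at h3
  have h4 := h3.unique (hasDerivAt_const (0 : ℂ) (0 : ℂ))
  rw [dv, ← h4]
  refine Finset.sum_congr rfl fun p _ => ?_
  rw [mul_comm]
  congr 3
  funext q
  change y q.1 q.2.1 q.2.2 = ((g 0 q.1).1 * y q.1) q.2.1 q.2.2
  rw [hg0, Matrix.one_mul]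

end mat

end UltM

open UltM in
theorem specUlt (hAlg : SpecAlg) : SpecUlt := by
  intro ι σ _ _ _ _ G G₀ D hcard hG₀
  by_contra hcon
  push Not at hcon
  choose K C y R F Z hC hR hrel hdeg hF hZ hne using hcon
  -- a basis of the Lie algebra
  obtain ⟨d, X, hX⟩ := Submodule.fg_iff_exists_fin_generating_family.1
    (IsNoetherian.noetherian (lie (G₀ : Set (GL ι ℂ))))
  have hXm : ∀ j, X j ∈ lie (G₀ : Set (GL ι ℂ)) := fun j => hX ▸ Submodule.subset_span ⟨j, rfl⟩
  have hz : ∀ n a, ∃ z : Fin d → ℂ, ∑ j, z j • X j = (C n)⁻¹.1 * Z n a * (C n).1 := by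
    intro n a
    have h1 := lie_of_conj hG₀ (hC n) (hZ n a)
    rw [← hX] at h1
    exact (Submodule.mem_span_range_iff_exists_fun ℂ).1 h1
  choose z hz using hz
  -- the sequences of polynomials
  have hP := fun a => exists_seq K D (fun n => F n a) (fun n => hdeg n a)
  choose P hP using hP
  -- apply ALG
  have key := hAlg UU (kk K) ι σ d (fun j => mg fun _ => X j)
    (fun j => mg fun n => (C n).1 * X j * (C n)⁻¹.1) (mg fun n => (C n).1)
    (fun a => mg fun n => (y n a).1) (fun a => mg fun n => (R n a).1) (fun a => mg fun n => Z n a)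
    (fun a => MvPolynomial.map (gk K) (P a)) hcard ?_ ?_ ?_ ?_ ?_
  · obtain ⟨a, ha⟩ := key
    have e1 : (mg (fun n => (C n).1) * mg (fun n => (y n a).1) * mg (fun n => (R n a).1)) =
        mg (fun n => (C n * y n a * R n a).1) := by
      rw [← mg_mul, ← mg_mul]
      rfl
    rw [e1, ← mg_mul, dv_eq_dw] at ha
    have h2 := dw_map (inc K) (algebraMap (kk K) UU) (gk K) gm (gm_inc K) (P a)
      (fun p n => (C n * y n a * R n a).1 p.1 p.2)
      (fun p n => (Z n a * (C n * y n a * R n a).1) p.1 p.2)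
    have h3 := h2.symm.trans ha
    rw [gm_eq_zero] at h3
    obtain ⟨n, hn⟩ := h3.exists
    apply hne n a
    rw [dv_eq_dw, ← hP a n]
    have h4 := dw_map (inc K) (algebraMap (K n) ℂ) (evK K n) (evC n) (evC_inc K n) (P a)
      (fun p n => (C n * y n a * R n a).1 p.1 p.2)
      (fun p n => (Z n a * (C n * y n a * R n a).1) p.1 p.2)
    exact h4.trans hn
  · intro a i j
    exact ⟨fun n => ⟨(R n a).1 i j, hR n a i j⟩, rfl⟩
  · intro j
    rw [← mg_mul, ← mg_mul]
    congr 1
    funext n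
    rw [Matrix.mul_assoc, GL2.glinv', Matrix.mul_one]
  · intro a
    have e : mg (fun n => Z n a) = ∑ j, gm (fun n => z n a j) •
        mg (fun n => (C n).1 * X j * (C n)⁻¹.1) := by
      ext i l
      rw [Matrix.sum_apply]
      simp only [Matrix.smul_apply, mg_apply, smul_eq_mul]
      rw [← Finset.sum_congr rfl fun j _ => map_mul gm _ _, ← map_sum]
      congr 1
      funext n
      rw [Finset.sum_apply]
      change Z n a i l = ∑ j, z n a j * ((C n).1 * X j * (C n)⁻¹.1) i l
      have h5 : Z n a = ∑ j, z n a j • ((C n).1 * X j * (C n)⁻¹.1) := by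
        have h6 : Z n a = (C n).1 * ((C n)⁻¹.1 * Z n a * (C n).1) * (C n)⁻¹.1 := by
          have : (C n).1 * ((C n)⁻¹.1 * Z n a * (C n).1) * (C n)⁻¹.1 =
              ((C n).1 * (C n)⁻¹.1) * Z n a * ((C n).1 * (C n)⁻¹.1) := by
            simp only [Matrix.mul_assoc]
          rw [this, GL2.glinv, Matrix.one_mul, Matrix.mul_one]
        rw [h6, ← hz n a, Matrix.mul_sum, Matrix.sum_mul]
        refine Finset.sum_congr rfl fun j _ => ?_
        rw [Matrix.mul_smul, Matrix.smul_mul]
      conv_lhs => rw [h5]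
      rw [Matrix.sum_apply]
      rfl
    rw [e]
    exact Submodule.sum_mem _ fun j _ => Submodule.smul_mem _ _ (Submodule.subset_span ⟨j, rfl⟩)
  · intro Φ hΦ a j
    obtain ⟨Q, rfl⟩ := MvPolynomial.map_surjective (gk K) (gk_surj K) Φ
    have h1 := ev_map (inc K) (algebraMap (kk K) UU) (gk K) gm (gm_inc K) Q
      (fun (p : σ × ι × ι) n => (y n p.1).1 p.2.1 p.2.2)
    have h2 : gm (MvPolynomial.eval₂ (inc K) (fun (p : σ × ι × ι) n => (y n p.1).1 p.2.1 p.2.2) Q)
        = 0 := h1.symm.trans hΦ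
    rw [gm_eq_zero] at h2
    rw [dv_eq_dw]
    have h3 := dw_map (inc K) (algebraMap (kk K) UU) (gk K) gm (gm_inc K) Q
      (fun (p : σ × ι × ι) n => (y n p.1).1 p.2.1 p.2.2)
      (fun p n => if p.1 = a then (X j * (y n a).1) p.2.1 p.2.2 else 0)
    have e1 : (fun p : σ × ι × ι => if p.1 = a then
        ((mg fun _ => X j) * mg fun n => (y n a).1) p.2.1 p.2.2 else 0) =
        fun p => gm (fun n => if p.1 = a then (X j * (y n a).1) p.2.1 p.2.2 else 0) := by
      funext p
      rw [← mg_mul]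
      split_ifs with hp
      · rfl
      · exact (map_zero gm).symm
    rw [e1]
    refine h3.trans ?_
    rw [gm_eq_zero]
    have h4 : ∀ᶠ n in (Filter.hyperfilter ℕ : Filter ℕ), Q.totalDegree ≤ n := by
      refine Filter.Eventually.filter_mono (Nat.hyperfilter_le_atTop) ?_
      exact Filter.eventually_ge_atTop _
    filter_upwards [h2, h4] with n hn1 hn2
    have h5 := dw_map (inc K) (algebraMap (K n) ℂ) (evK K n) (evC n) (evC_inc K n) Q
      (fun (p : σ × ι × ι) n => (y n p.1).1 p.2.1 p.2.2)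
      (fun p n => if p.1 = a then (X j * (y n a).1) p.2.1 p.2.2 else 0)
    refine h5.symm.trans ?_
    have h6 := ev_map (inc K) (algebraMap (K n) ℂ) (evK K n) (evC n) (evC_inc K n) Q
      (fun (p : σ × ι × ι) n => (y n p.1).1 p.2.1 p.2.2)
    exact dv_zero hG₀ (hrel n) (hXm j) (MvPolynomial.map (evK K n) Q)
      ((Finset.sup_mono (MvPolynomial.support_map_subset _ _)).trans hn2) (h6.trans hn1) a
  · intro a
    have e1 : (mg (fun n => (C n).1) * mg (fun n => (y n a).1) * mg (fun n => (R n a).1)) =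
        mg (fun n => (C n * y n a * R n a).1) := by
      rw [← mg_mul, ← mg_mul]
      rfl
    rw [e1]
    have h1 := ev_map (inc K) (algebraMap (kk K) UU) (gk K) gm (gm_inc K) (P a)
      (fun (p : ι × ι) n => (C n * y n a * R n a).1 p.1 p.2)
    refine h1.trans ?_
    rw [gm_eq_zero]
    refine Filter.Eventually.of_forall fun n => ?_
    have h2 := ev_map (inc K) (algebraMap (K n) ℂ) (evK K n) (evC n) (evC_inc K n) (P a)
      (fun (p : ι × ι) n => (C n * y n a * R n a).1 p.1 p.2)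
    rw [hP a n] at h2
    exact h2.symm.trans (hF n a)

end Pool.Agent.Lib.MPf11a48.CG
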