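import Pool.Agent.Lib.MP_f11a48_ag.CG.SpecJ
import Pool.Agent.Lib.MP_f11a48_ag.CG.Ult
import Pool.Agent.Lib.MP_f11a48_ag.CG.Alg
import Pool.Agent.Lib.MP_f11a48_ag.CG.Exq

/-!
# ULTJ: the elimination of the matrix `C` in bounded degree, for sums of fibres
-/

set_option autoImplicit false

namespace Pool.Agent.Lib.MPf11a48.CG

open Matrix
open Pool.Agent.Lib.MPf11a48.Tors
open Pool.Agent.Lib.MPf11a48.GL2 (lie van en Geo tang lr)
open Pool.Agent.Lib.MPf11a48.K3 (cx)
open Pool.Agent.Lib.MPf11a48.K3.KCurM (gl)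

namespace UltJM

open UltM

/-! ### derivations of the ultraproduct -/

/-- the constant germ -/
noncomputable def cst : ℂ →+* UU := gm.comp (Pi.constRingHom ℕ ℂ)

theorem cst_apply (z : ℂ) : cst z = gm (fun _ => z) := rfl

variable {k : Subfield UU} (δ : Derivation k UU UU)

/-- the constants of a derivation -/
def co : Subring UU where
  carrier := {u | δ u = 0}
  mul_mem' := by
    intro a b ha hb
    rw [Set.mem_setOf_eq] at ha hb ⊢
    rw [Derivation.leibniz, ha, hb, smul_zero, smul_zero, add_zero]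
  one_mem' := Derivation.map_one_eq_zero δ
  add_mem' := by
    intro a b ha hb
    rw [Set.mem_setOf_eq] at ha hb ⊢
    rw [map_add, ha, hb, add_zero]
  zero_mem' := map_zero δ
  neg_mem' := by
    intro a ha
    rw [Set.mem_setOf_eq] at ha ⊢
    rw [map_neg, ha, neg_zero]

theorem mem_co {u : UU} : u ∈ co δ ↔ δ u = 0 := Iff.rfl

theorem inv_mem_co {u : UU} (h : u ∈ co δ) : u⁻¹ ∈ co δ := by
  rw [mem_co] at h ⊢
  rw [Derivation.leibniz_inv, h, smul_zero]

theorem rat_mem_co (q : ℚ) : cst (q : ℂ) ∈ co δ := by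
  rw [mem_co]
  have h : cst (q : ℂ) = algebraMap k UU (q : k) := by
    rw [map_ratCast, map_ratCast]
  rw [h, Derivation.map_algebraMap]

theorem adjoin_mem_co {S : Set ℂ} (hS : ∀ z ∈ S, cst z ∈ co δ) {z : ℂ}
    (hz : z ∈ IntermediateField.adjoin ℚ S) : cst z ∈ co δ := by
  induction hz using IntermediateField.adjoin_induction with
  | mem z hz => exact hS z hz
  | algebraMap q => exact rat_mem_co δ q
  | add x y _ _ hx hy =>
    rw [map_add]
    exact add_mem hx hy
  | inv x _ hx =>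
    rw [map_inv₀]
    exact inv_mem_co δ hx
  | mul x y _ _ hx hy =>
    rw [map_mul]
    exact mul_mem hx hy

/-- a derivation kills what is algebraic over constants -/
theorem alg_mem_co {A : IntermediateField ℚ ℂ} (hA : ∀ a ∈ A, cst a ∈ co δ) {z : ℂ}
    (hz : IsAlgebraic A z) : cst z ∈ co δ := by
  let f : A →+* UU := cst.comp (algebraMap A ℂ)
  have hf : ∀ a : A, δ (f a) = 0 := fun a => hA a.1 a.2
  have h1 : ∀ p : Polynomial A, δ (Polynomial.eval₂ f (cst z) p) =
      Polynomial.eval₂ f (cst z) (Polynomial.derivative p) * δ (cst z) := by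
    intro p
    induction p using Polynomial.induction_on' with
    | add p q hp hq =>
      rw [Polynomial.eval₂_add, map_add, hp, hq, Polynomial.derivative_add, Polynomial.eval₂_add,
        add_mul]
    | monomial n a =>
      rw [Polynomial.eval₂_monomial, Polynomial.derivative_monomial, Polynomial.eval₂_monomial,
        Derivation.leibniz, hf, smul_zero, add_zero, Derivation.leibniz_pow, map_mul, map_natCast]
      simp only [smul_eq_mul, nsmul_eq_mul]
      ring
  have hint : IsIntegral A z := hz.isIntegral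
  have hsep : (minpoly A z).Separable := (minpoly.irreducible hint).separable
  have h2 : Polynomial.eval₂ f (cst z) (minpoly A z) = 0 := by
    have h3 : Polynomial.eval₂ f (cst z) (minpoly A z) =
        cst (Polynomial.eval₂ (algebraMap A ℂ) z (minpoly A z)) := by
      rw [Polynomial.hom_eval₂]
    rw [h3]
    have h4 : Polynomial.eval₂ (algebraMap A ℂ) z (minpoly A z) = 0 := minpoly.aeval A z
    rw [h4, map_zero]
  have h3 := h1 (minpoly A z)
  rw [h2, map_zero] at h3
  exact (mul_eq_zero.1 h3.symm).resolve_left (hsep.eval₂_derivative_ne_zero f h2)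

/-! ### the entries of the matrix `C` -/

variable {ι : Type} [Fintype ι] [DecidableEq ι]

theorem exp_mem_co {C₀ : GL ι ℂ} {N : Matrix ι ι ℚ} (hN : IsNilpotent N) {t : ℕ → ℂ}
    (hC : ∀ i j, cst (C₀.1 i j) ∈ co δ) (ht : gm t ∈ co δ) (i j : ι) :
    mg (fun n => (C₀ * gl (cx N) (t n)).1) i j ∈ co δ := by
  obtain ⟨m, hm⟩ := hN
  have e : cx N = (Rat.castHom ℂ).mapMatrix N := by
    ext i j
    simp [cx]
  have hm' : (cx N) ^ m = 0 := by
    rw [e, ← map_pow, hm, map_zero]
  have hq : ∀ (a : ℕ) (l j : ι), ∃ q : ℚ, ((cx N) ^ a) l j = (q : ℂ) := by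
    intro a l j
    refine ⟨(N ^ a) l j, ?_⟩
    rw [e, ← map_pow]
    rfl
  have h1 : mg (fun n => (C₀ * gl (cx N) (t n)).1) i j = ∑ l, cst (C₀.1 i l) *
      ∑ a ∈ Finset.range m, cst ((a.factorial : ℂ)⁻¹) * gm t ^ a * cst (((cx N) ^ a) l j) := by
    simp only [cst_apply, ← map_pow, ← map_mul, ← map_sum]
    rw [mg_apply]
    congr 1
    funext n
    change (C₀.1 * NormedSpace.exp (t n • cx N)) i j = _
    rw [Matrix.mul_apply, Finset.sum_apply]
    refine Finset.sum_congr rfl fun l _ => ?_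
    change C₀.1 i l * NormedSpace.exp (t n • cx N) l j = C₀.1 i l * _
    congr 1
    rw [ExqM.exp_nil hm', Matrix.sum_apply, Finset.sum_apply]
    refine Finset.sum_congr rfl fun a _ => ?_
    rw [Matrix.smul_apply, smul_eq_mul]
    rfl
  rw [h1]
  refine sum_mem fun l _ => mul_mem (hC i l) (sum_mem fun a _ => ?_)
  refine mul_mem (mul_mem ?_ (pow_mem ht a)) ?_
  · rw [map_inv₀]
    apply inv_mem_co
    rw [map_natCast]
    exact natCast_mem _ _
  · obtain ⟨q, hq⟩ := hq a l j
    rw [hq]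
    exact rat_mem_co δ q

/-- finitely many elements such that a derivation which kills them kills the entries of `C` -/
theorem exists_theta (k : Subfield UU) {C₀ : GL ι ℂ} {N : Matrix ι ι ℚ} (hN : IsNilpotent N)
    {s : ℕ} (h : Fintype.card ι ^ 2 ≤ s ∨ TrS C₀.1 N s) (t : ℕ → ℂ) :
    ∃ (r : ℕ) (θ : Fin r → UU), r ≤ s ∧ ∀ δ : Derivation k UU UU, (∀ i, δ (θ i) = 0) →
      ∀ i j, δ (mg (fun n => (C₀ * gl (cx N) (t n)).1) i j) = 0 := by
  classical
  rcases h with h | ⟨r, θ, hθ, hs⟩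
  · have hcard : Fintype.card (ι × ι) = Fintype.card ι ^ 2 := by
      rw [Fintype.card_prod, _root_.sq]
    let e : Fin (Fintype.card ι ^ 2) ≃ ι × ι := (Fintype.equivFinOfCardEq hcard).symm
    refine ⟨Fintype.card ι ^ 2, fun i => mg (fun n => (C₀ * gl (cx N) (t n)).1) (e i).1 (e i).2, h,
      fun δ hδ i j => ?_⟩
    have h1 : δ (mg (fun n => (C₀ * gl (cx N) (t n)).1) (e (e.symm (i, j))).1
      (e (e.symm (i, j))).2) = 0 := hδ (e.symm (i, j))
    rw [e.apply_symm_apply] at h1
    exact h1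
  · have hco : ∀ δ : Derivation k UU UU, (∀ i, δ (cst (θ i)) = 0) →
        ∀ i j, cst (C₀.1 i j) ∈ co δ := by
      intro δ hδ i j
      refine alg_mem_co δ (fun a ha => adjoin_mem_co δ ?_ ha) (hθ i j)
      rintro _ ⟨l, rfl⟩
      exact hδ l
    by_cases h0 : N = 0
    · rw [if_pos h0, add_zero] at hs
      refine ⟨r, fun i => cst (θ i), hs, fun δ hδ i j => ?_⟩
      have h1 : mg (fun n => (C₀ * gl (cx N) (t n)).1) i j = cst (C₀.1 i j) := by
        rw [mg_apply, cst_apply]
        congr 1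
        funext n
        have h2 : (gl (cx N) (t n)).1 = 1 := by
          change NormedSpace.exp (t n • cx N) = 1
          have e : cx (0 : Matrix ι ι ℚ) = 0 := by
            ext i j
            simp [cx]
          rw [h0, e, smul_zero, NormedSpace.exp_zero]
        rw [Units.val_mul, h2, Matrix.mul_one]
      rw [h1]
      exact hco δ hδ i j
    · rw [if_neg h0] at hs
      refine ⟨r + 1, Fin.cons (gm t) (fun i => cst (θ i)), hs, fun δ hδ i j => ?_⟩
      refine exp_mem_co δ hN (hco δ fun i => ?_) ?_ i j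
      · have h1 := hδ i.succ
        rwa [Fin.cons_succ] at h1
      · have h1 := hδ 0
        rwa [Fin.cons_zero] at h1

end UltJM

open UltM UltJM in
theorem specUltJ (hAlgJ : SpecAlgJ) : SpecUltJ := by
  intro ι σ _ _ _ _ C₀ N G G₀ D s hs hN hG₀
  by_contra hcon
  push Not at hcon
  choose t K y hC' hrel hcon using hcon
  -- the matrices `C`
  let C : ℕ → GL ι ℂ := fun n => C₀ * gl (cx N) (t n)
  have hC : ∀ n g, g ∈ G₀ ↔ C n * g * (C n)⁻¹ ∈ G := hC'
  -- a basis of the Lie algebra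
  obtain ⟨d, X, hX⟩ := Submodule.fg_iff_exists_fin_generating_family.1
    (IsNoetherian.noetherian (lie (G₀ : Set (GL ι ℂ))))
  have hXm : ∀ j, X j ∈ lie (G₀ : Set (GL ι ℂ)) := fun j => hX ▸ Submodule.subset_span ⟨j, rfl⟩
  have hz : ∀ n, ∀ Z ∈ lie (G : Set (GL ι ℂ)), ∃ z : Fin d → ℂ,
      Z = ∑ j, z j • ((C n).1 * X j * (C n)⁻¹.1) := by
    intro n Z hZ
    have h1 := lie_of_conj hG₀ (hC n) hZ
    rw [← hX] at h1
    obtain ⟨z, hz⟩ := (Submodule.mem_span_range_iff_exists_fun ℂ).1 h1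
    refine ⟨z, ?_⟩
    have h6 : Z = (C n).1 * ((C n)⁻¹.1 * Z * (C n).1) * (C n)⁻¹.1 := by
      have : (C n).1 * ((C n)⁻¹.1 * Z * (C n).1) * (C n)⁻¹.1 =
          ((C n).1 * (C n)⁻¹.1) * Z * ((C n).1 * (C n)⁻¹.1) := by
        simp only [Matrix.mul_assoc]
      rw [this, GL2.glinv, Matrix.one_mul, Matrix.mul_one]
    rw [h6, ← hz, Matrix.mul_sum, Matrix.sum_mul]
    refine Finset.sum_congr rfl fun j _ => ?_
    rw [Matrix.mul_smul, Matrix.smul_mul]
  obtain ⟨r, θ, hr, hθ⟩ := exists_theta (kk K) hN hs t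
  -- apply ALGJ
  obtain ⟨E, hE, key⟩ := hAlgJ UU (kk K) ι σ d r (fun j => mg fun _ => X j)
    (fun j => mg fun n => (C n).1 * X j * (C n)⁻¹.1) (mg fun n => (C n).1) θ
    (fun a => mg fun n => (y n a).1) (by
      intro j
      rw [← mg_mul, ← mg_mul]
      congr 1
      funext n
      rw [Matrix.mul_assoc, GL2.glinv', Matrix.mul_one]) hθ (by
    intro Φ hΦ a j
    obtain ⟨Q, rfl⟩ := MvPolynomial.map_surjective (gk K) (gk_surj K) Φ
    have h1 := ev_map (inc K) (algebraMap (kk K) UU) (gk K) gm (gm_inc K) Q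
      (fun (p : σ × ι × ι) n => (y n p.1).1 p.2.1 p.2.2)
    have h2 : gm (MvPolynomial.eval₂ (inc K) (fun (p : σ × ι × ι) n => (y n p.1).1 p.2.1 p.2.2) Q)
        = 0 := h1.symm.trans hΦ
    rw [gm_eq_zero] at h2
    rw [dv_eq_dw]
    have h3 := dw_map (inc K) (algebraMap (kk K) UU) (gk K) gm (gm_inc K) Q
      (fun (p : σ × ι × ι) n => (y n p.1).1 p.2.1 p.2.2)
      (fun p n => if p.1 = a then (X j * (y n a).1) p.2.1 p.2.2 else 0)
    have e1 : (fun p : σ × ι × ι => if p.1 = a then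
        ((mg fun _ => X j) * mg fun n => (y n a).1) p.2.1 p.2.2 else 0) =
        fun p => gm (fun n => if p.1 = a then (X j * (y n a).1) p.2.1 p.2.2 else 0) := by
      funext p
      rw [← mg_mul]
      split_ifs with hp
      · rfl
      · exact (map_zero gm).symm
    rw [e1]
    refine h3.trans ?_
    rw [gm_eq_zero]
    have h4 : ∀ᶠ n in (Filter.hyperfilter ℕ : Filter ℕ), Q.totalDegree ≤ n := by
      refine Filter.Eventually.filter_mono (Nat.hyperfilter_le_atTop) ?_
      exact Filter.eventually_ge_atTop _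
    filter_upwards [h2, h4] with n hn1 hn2
    have h5 := dw_map (inc K) (algebraMap (K n) ℂ) (evK K n) (evC n) (evC_inc K n) Q
      (fun (p : σ × ι × ι) n => (y n p.1).1 p.2.1 p.2.2)
      (fun p n => if p.1 = a then (X j * (y n a).1) p.2.1 p.2.2 else 0)
    refine h5.symm.trans ?_
    have h6 := ev_map (inc K) (algebraMap (K n) ℂ) (evK K n) (evC n) (evC_inc K n) Q
      (fun (p : σ × ι × ι) n => (y n p.1).1 p.2.1 p.2.2)
    exact dv_zero hG₀ (hrel n) (hXm j) (MvPolynomial.map (evK K n) Q)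
      ((Finset.sup_mono (MvPolynomial.support_map_subset _ _)).trans hn2) (h6.trans hn1) a)
  -- the relations
  have hcon' := fun n => hcon n E (hE.trans hr)
  choose F Z hdeg hvar hZ hF0 hne using hcon'
  have hz' : ∀ n a, ∃ z : Fin d → ℂ, Z n a = ∑ j, z j • ((C n).1 * X j * (C n)⁻¹.1) :=
    fun n a => hz n (Z n a) (hZ n a)
  choose z hz' using hz'
  obtain ⟨Q, hQ⟩ := exists_seq K D F hdeg
  have hspan : ∀ a, (mg fun n => Z n a) ∈ Submodule.span UU
      (Set.range fun j => mg fun n => (C n).1 * X j * (C n)⁻¹.1) := by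
    intro a
    have e : mg (fun n => Z n a) = ∑ j, gm (fun n => z n a j) •
        mg (fun n => (C n).1 * X j * (C n)⁻¹.1) := by
      ext p q
      rw [Matrix.sum_apply]
      simp only [Matrix.smul_apply, mg_apply, smul_eq_mul]
      rw [← Finset.sum_congr rfl fun j _ => map_mul gm _ _, ← map_sum]
      congr 1
      funext n
      rw [Finset.sum_apply]
      change Z n a p q = ∑ j, z n a j * ((C n).1 * X j * (C n)⁻¹.1) p q
      conv_lhs => rw [hz' n a]
      rw [Matrix.sum_apply]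
      rfl
    rw [e]
    exact Submodule.sum_mem _ fun j _ =>
      Submodule.smul_mem _ _ (Submodule.subset_span ⟨j, rfl⟩)
  obtain ⟨δ, hδC, hδ⟩ := key (fun a => mg fun n => Z n a) hspan
  -- the values
  let c : σ × ι × ι → ℕ → ℂ := fun p n => (C n * y n p.1).1 p.2.1 p.2.2
  let v : σ × ι × ι → ℕ → ℂ := fun p n => (Z n p.1 * (C n * y n p.1).1) p.2.1 p.2.2
  have hδc : ∀ p : σ × ι × ι, p.1 ∉ E → δ (gm (c p)) = gm (v p) := by
    rintro ⟨a, i, j⟩ ha
    have h1 := hδ a ha i j
    rw [← mg_mul, ← mg_mul] at h1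
    exact h1
  have hF0' : MvPolynomial.aeval (fun p => gm (c p)) (MvPolynomial.map (gk K) Q) = 0 := by
    have h2 := ev_map (inc K) (algebraMap (kk K) UU) (gk K) gm (gm_inc K) Q c
    refine h2.trans ?_
    rw [gm_eq_zero]
    refine Filter.Eventually.of_forall fun n => ?_
    have h3 := ev_map (inc K) (algebraMap (K n) ℂ) (evK K n) (evC n) (evC_inc K n) Q c
    rw [hQ n] at h3
    exact h3.symm.trans (hF0 n)
  have hpd : ∀ p : σ × ι × ι, p.1 ∈ E → MvPolynomial.pderiv p Q = 0 := by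
    intro p hp
    refine MvPolynomial.ext _ _ fun m => ?_
    rw [MvPolynomial.coeff_zero]
    funext n
    have h1 : MvPolynomial.map (evK K n) (MvPolynomial.pderiv p Q) = 0 := by
      rw [← MvPolynomial.pderiv_map, hQ n]
      exact MvPolynomial.pderiv_eq_zero_of_notMem_vars fun h => hvar n p h hp
    have h2 := congrArg (MvPolynomial.coeff m) h1
    rw [MvPolynomial.coeff_map, MvPolynomial.coeff_zero] at h2
    exact h2
  have h1 : dv (MvPolynomial.map (gk K) Q) (fun p => gm (c p)) (fun p => gm (v p)) = 0 := by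
    have h2 := AlgM.der_aeval δ (MvPolynomial.map (gk K) Q) (fun p => gm (c p))
    rw [hF0', map_zero] at h2
    rw [h2]
    refine Finset.sum_congr rfl fun p _ => ?_
    by_cases hp : p.1 ∈ E
    · rw [MvPolynomial.pderiv_map, hpd p hp, map_zero, map_zero, zero_mul, zero_mul]
    · change _ * gm (v p) = _ * δ (gm (c p))
      rw [hδc p hp]
  rw [dv_eq_dw] at h1
  have h2 := dw_map (inc K) (algebraMap (kk K) UU) (gk K) gm (gm_inc K) Q c v
  have h3 := h2.symm.trans h1
  rw [gm_eq_zero] at h3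
  obtain ⟨n, hn⟩ := h3.exists
  apply hne n
  rw [dv_eq_dw, ← hQ n]
  have h4 := dw_map (inc K) (algebraMap (K n) ℂ) (evK K n) (evC n) (evC_inc K n) Q c v
  exact h4.trans hn

end Pool.Agent.Lib.MPf11a48.CG
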