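import Pool.Agent.Lib.MP_f11a48_ag.CG.Spec
import Pool.Agent.Lib.MP_f11a48_ag.CF.Uni

/-!
# Families with semisimple monodromy, UNI: finite groups of large order
-/

set_option autoImplicit false

namespace Pool.Agent.Lib.MPf11a48.CG

open Matrix
open scoped Matrix.Norms.L2Operator MatrixOrder ComplexOrder

namespace UniM

variable {ι : Type} [Fintype ι] [DecidableEq ι]

theorem one_zero {t : ℂ → GL ι ℂ} {Z : Matrix ι ι ℂ} (h : One t Z) : t 0 = 1 := by
  have h1 := h.add 0 0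
  rw [add_zero] at h1
  exact (mul_eq_left.1 h1.symm)

theorem one_neg {t : ℂ → GL ι ℂ} {Z : Matrix ι ι ℂ} (h : One t Z) (s : ℂ) :
    (t s)⁻¹ = t (-s) := by
  rw [inv_eq_iff_mul_eq_one, ← h.add, add_neg_cancel, one_zero h]

theorem one_cont {t : ℂ → GL ι ℂ} {Z : Matrix ι ι ℂ} (h : One t Z) :
    ContinuousAt (fun s => (t s).1) 0 := by
  exact continuousAt_pi.2 fun i => continuousAt_pi.2 fun j => (h.der i j).continuousAt

theorem one_cont_inv {t : ℂ → GL ι ℂ} {Z : Matrix ι ι ℂ} (h : One t Z) :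
    ContinuousAt (fun s => ((t s)⁻¹).1) 0 := by
  have h1 : (fun s => ((t s)⁻¹).1) = fun s => (t (-s)).1 := by
    funext s
    rw [one_neg h]
  rw [h1]
  have h2 : ContinuousAt (fun s : ℂ => -s) 0 := continuous_neg.continuousAt
  have h3 : ContinuousAt (fun s => (t s).1) (-(0 : ℂ)) := by
    rw [neg_zero]; exact one_cont h
  exact ContinuousAt.comp (f := fun s : ℂ => -s) h3 h2

/-- an element `z` of finite order which commutes with its conjugates by a one-parameter group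
commutes with the derivative of the group -/
theorem comm_of_conj (z : GL ι ℂ) (n : ℕ) (hn : 0 < n) (hz : z ^ n = 1) {t : ℂ → GL ι ℂ}
    {Z : Matrix ι ι ℂ} (h : One t Z) (hc : ∀ s, z * (t s * z * (t s)⁻¹) = t s * z * (t s)⁻¹ * z) :
    z.1 * Z = Z * z.1 := by
  let c : ℂ → GL ι ℂ := fun s => z⁻¹ * (t s * z * (t s)⁻¹)
  have hcn : ∀ s, c s ^ n = 1 := by
    intro s
    have h1 : Commute z⁻¹ (t s * z * (t s)⁻¹) := Commute.inv_left (hc s)
    have h2 : (t s * z * (t s)⁻¹) ^ n = 1 := by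
      rw [conj_pow, hz, mul_one, mul_inv_cancel]
    change (z⁻¹ * (t s * z * (t s)⁻¹)) ^ n = 1
    rw [h1.mul_pow, h2, inv_pow, hz, inv_one, mul_one]
  have hc0 : c 0 = 1 := by
    change z⁻¹ * (t 0 * z * (t 0)⁻¹) = 1
    rw [one_zero h, one_mul, inv_one, mul_one, inv_mul_cancel]
  have hcc : ContinuousAt (fun s => (c s).1) 0 := by
    have h1 : (fun s => (c s).1) = fun s => (z⁻¹).1 * ((t s).1 * z.1 * ((t s)⁻¹).1) := by
      funext s
      rfl
    rw [h1]
    exact continuousAt_const.mul (((one_cont h).mul continuousAt_const).mul (one_cont_inv h))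
  have hd : ContinuousAt (fun s => (∑ i ∈ Finset.range n, (c s).1 ^ i).det) 0 := by
    have h1 : ContinuousAt (fun s => ∑ i ∈ Finset.range n, (c s).1 ^ i) 0 :=
      tendsto_finsetSum _ fun i _ => hcc.pow i
    exact ((continuous_id.matrix_det).continuousAt.comp (f := fun s => ∑ i ∈ Finset.range n, (c s).1 ^ i) h1)
  have hd0 : (∑ i ∈ Finset.range n, (c 0).1 ^ i).det ≠ 0 := by
    rw [hc0]
    have h1 : (∑ i ∈ Finset.range n, ((1 : GL ι ℂ)).1 ^ i) = (n : ℂ) • (1 : Matrix ι ι ℂ) := by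
      rw [Units.val_one]
      simp only [one_pow, Finset.sum_const, Finset.card_range]
      rw [← Nat.cast_smul_eq_nsmul ℂ]
    rw [h1, Matrix.det_smul, Matrix.det_one, mul_one]
    exact pow_ne_zero _ (by exact_mod_cast hn.ne')
  have hev : ∀ᶠ s in nhds (0 : ℂ), (∑ i ∈ Finset.range n, (c s).1 ^ i).det ≠ 0 :=
    hd.eventually_ne hd0
  have hev2 : ∀ᶠ s in nhds (0 : ℂ), (t s).1 * z.1 = z.1 * (t s).1 := by
    refine hev.mono fun s hs => ?_
    have h1 : ((c s).1 - 1) * (∑ i ∈ Finset.range n, (c s).1 ^ i) = 0 := by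
      rw [mul_geom_sum, ← Units.val_pow_eq_pow_val, hcn s, Units.val_one, sub_self]
    have h2 : (c s).1 - 1 = 0 := by
      have h3 : IsUnit (∑ i ∈ Finset.range n, (c s).1 ^ i) := by
        rw [Matrix.isUnit_iff_isUnit_det]
        exact isUnit_iff_ne_zero.2 hs
      exact (h3.mul_left_eq_zero).1 h1
    have h3 : c s = 1 := Units.ext (sub_eq_zero.1 h2)
    have h4 : z⁻¹ * (t s * z * (t s)⁻¹) = 1 := h3
    have h5 : t s * z = z * t s := by
      have := inv_mul_eq_one.1 h4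
      rw [eq_mul_inv_iff_mul_eq] at this
      exact this.symm
    rw [← Units.val_mul, h5, Units.val_mul]
  ext i j
  have h1 : HasDerivAt (fun s => ((t s).1 * z.1) i j) ((Z * z.1) i j) 0 := by
    simp only [Matrix.mul_apply]
    exact HasDerivAt.fun_sum fun k _ => (h.der i k).mul_const _
  have h2 : HasDerivAt (fun s => (z.1 * (t s).1) i j) ((z.1 * Z) i j) 0 := by
    simp only [Matrix.mul_apply]
    exact HasDerivAt.fun_sum fun k _ => (h.der k j).const_mul _
  have h3 : HasDerivAt (fun s => (z.1 * (t s).1) i j) ((Z * z.1) i j) 0 := by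
    refine h1.congr_of_eventuallyEq ?_
    filter_upwards [hev2] with s hs
    rw [hs]
  exact h2.unique h3

end UniM

open Pool.Agent.Lib.MPf11a48.CF.UniM UniM in
theorem specUni : SpecUni := by
  intro d
  obtain ⟨t, ht⟩ := exists_cover (ι := Fin d)
  refine ⟨t.card, fun G hG hcard => ?_⟩
  classical
  obtain ⟨S, hS⟩ := exists_unit G hG
  -- the invariant norm
  let ν : Matrix (Fin d) (Fin d) ℂ → ℝ := fun X => ‖S.1 * X * (S⁻¹).1‖
  have hSS : S.1 * (S⁻¹).1 = 1 := by rw [← Units.val_mul, mul_inv_cancel, Units.val_one]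
  have hSS' : (S⁻¹).1 * S.1 = 1 := by rw [← Units.val_mul, inv_mul_cancel, Units.val_one]
  have hν1 : ∀ X Y : Matrix (Fin d) (Fin d) ℂ, ν (X * Y) ≤ ν X * ν Y := by
    intro X Y
    have : S.1 * (X * Y) * (S⁻¹).1 = (S.1 * X * (S⁻¹).1) * (S.1 * Y * (S⁻¹).1) := by
      calc S.1 * (X * Y) * (S⁻¹).1 = S.1 * X * 1 * Y * (S⁻¹).1 := by
            rw [mul_one]; simp only [mul_assoc]
        _ = _ := by rw [← hSS']; simp only [mul_assoc]
    change ‖_‖ ≤ _
    rw [this]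
    exact norm_mul_le _ _
  have hνs : ∀ X Y : Matrix (Fin d) (Fin d) ℂ, ν (X - Y) ≤ ν X + ν Y := by
    intro X Y
    change ‖_‖ ≤ ‖_‖ + ‖_‖
    rw [mul_sub, sub_mul]
    exact norm_sub_le _ _
  have hνl : ∀ g ∈ G, ∀ X : Matrix (Fin d) (Fin d) ℂ, ν (g.1 * X) = ν X := by
    intro g hg X
    have : S.1 * (g.1 * X) * (S⁻¹).1 = (S * g * S⁻¹).1 * (S.1 * X * (S⁻¹).1) := by
      rw [Units.val_mul, Units.val_mul]
      calc S.1 * (g.1 * X) * (S⁻¹).1 = S.1 * g.1 * 1 * X * (S⁻¹).1 := by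
            rw [mul_one]; simp only [mul_assoc]
        _ = _ := by rw [← hSS']; simp only [mul_assoc]
    change ‖_‖ = ‖_‖
    rw [this, CStarRing.norm_mem_unitary_mul _ (hS g hg)]
  have hνr : ∀ g ∈ G, ∀ X : Matrix (Fin d) (Fin d) ℂ, ν (X * g.1) = ν X := by
    intro g hg X
    have : S.1 * (X * g.1) * (S⁻¹).1 = (S.1 * X * (S⁻¹).1) * (S * g * S⁻¹).1 := by
      rw [Units.val_mul, Units.val_mul]
      calc S.1 * (X * g.1) * (S⁻¹).1 = S.1 * X * 1 * g.1 * (S⁻¹).1 := by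
            rw [mul_one]; simp only [mul_assoc]
        _ = _ := by rw [← hSS']; simp only [mul_assoc]
    change ‖_‖ = ‖_‖
    rw [this, CStarRing.norm_mul_mem_unitary _ (hS g hg)]
  have hν0 : ∀ X : Matrix (Fin d) (Fin d) ℂ, ν X = 0 → X = 0 := by
    intro X hX
    have h1 : S.1 * X * (S⁻¹).1 = 0 := norm_eq_zero.1 hX
    calc X = 1 * X * 1 := by rw [one_mul, mul_one]
      _ = (S⁻¹).1 * (S.1 * X * (S⁻¹).1) * S.1 := by
          rw [← hSS']; simp only [mul_assoc]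
      _ = 0 := by rw [h1, mul_zero, zero_mul]
  have hνn : ∀ X, 0 ≤ ν X := fun X => norm_nonneg _
  -- pigeonhole
  obtain ⟨z0, hz0, hz01, hz02⟩ : ∃ z ∈ G, z ≠ 1 ∧ ν (z.1 - 1) < 1 / 2 := by
    choose! f hf1 hf2 using ht
    have hfin : Fintype G := hG.fintype
    have h1 : t.card < (Finset.univ : Finset G).card := by
      rw [Finset.card_univ, ← Nat.card_eq_fintype_card]
      exact hcard
    obtain ⟨g, _, h, _, hgh, he⟩ := Finset.exists_ne_map_eq_of_card_lt_of_maps_to h1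
      (f := fun g : G => f (S * g.1 * S⁻¹).1) (fun g _ => hf1 _ (hS g.1 g.2))
    refine ⟨g.1⁻¹ * h.1, G.mul_mem (G.inv_mem g.2) h.2, ?_, ?_⟩
    · intro h1
      apply hgh
      apply Subtype.ext
      rw [inv_mul_eq_one] at h1
      exact h1
    · have h2 : g.1.1 * ((g.1⁻¹ * h.1).1 - 1) = h.1.1 - g.1.1 := by
        rw [mul_sub, mul_one, ← Units.val_mul, mul_inv_cancel_left]
      rw [← hνl g.1 g.2, h2]
      have h3 : S.1 * (h.1.1 - g.1.1) * (S⁻¹).1 =
          ((S * h.1 * S⁻¹).1 - f (S * h.1 * S⁻¹).1) - ((S * g.1 * S⁻¹).1 - f (S * g.1 * S⁻¹).1) := by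
        have he' : f (S * g.1 * S⁻¹).1 = f (S * h.1 * S⁻¹).1 := he
        rw [he', sub_sub_sub_cancel_right, mul_sub, sub_mul]
        rfl
      change ‖_‖ < _
      rw [h3]
      calc _ ≤ _ := norm_sub_le _ _
        _ < 1 / 4 + 1 / 4 := add_lt_add (hf2 _ (hS h.1 h.2)) (hf2 _ (hS g.1 g.2))
        _ = 1 / 2 := by norm_num
  -- the minimum
  obtain ⟨z, hz, hzmin⟩ := Set.exists_min_image {z : GL (Fin d) ℂ | z ∈ G ∧ z ≠ 1}
    (fun z => ν (z.1 - 1)) (hG.subset fun z hz => hz.1) ⟨z0, hz0, hz01⟩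
  have hz2 : ν (z.1 - 1) < 1 / 2 := (hzmin z0 ⟨hz0, hz01⟩).trans_lt hz02
  have hzpos : 0 < ν (z.1 - 1) := by
    refine lt_of_le_of_ne (hνn _) fun h => hz.2 ?_
    have := hν0 _ h.symm
    rw [sub_eq_zero] at this
    exact Units.ext this
  have hcomm : ∀ h ∈ G, ν (h.1 - 1) < 1 / 2 → h * z = z * h := by
    intro h hh hh2
    by_contra hne
    have h1 : h * z * h⁻¹ * z⁻¹ ∈ {z : GL (Fin d) ℂ | z ∈ G ∧ z ≠ 1} := by
      refine ⟨G.mul_mem (G.mul_mem (G.mul_mem hh hz.1) (G.inv_mem hh)) (G.inv_mem hz.1), ?_⟩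
      intro h1
      rw [mul_inv_eq_one, mul_inv_eq_iff_eq_mul] at h1
      exact hne h1
    have h2 := hzmin _ h1
    have h3 : ν ((h * z * h⁻¹ * z⁻¹).1 - 1) = ν ((h.1 - 1) * (z.1 - 1) - (z.1 - 1) * (h.1 - 1)) := by
      rw [← hνr (z * h) (G.mul_mem hz.1 hh)]
      congr 1
      rw [sub_mul, ← Units.val_mul, one_mul]
      have : h * z * h⁻¹ * z⁻¹ * (z * h) = h * z := by group
      rw [this, Units.val_mul, Units.val_mul]
      noncomm_ring
    have h4 : ν ((h.1 - 1) * (z.1 - 1) - (z.1 - 1) * (h.1 - 1)) ≤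
        2 * (ν (h.1 - 1) * ν (z.1 - 1)) := by
      refine (hνs _ _).trans ?_
      have h5 := hν1 (h.1 - 1) (z.1 - 1)
      have h6 := hν1 (z.1 - 1) (h.1 - 1)
      rw [mul_comm (ν (z.1 - 1))] at h6
      linarith
    have h7 : ν (h.1 - 1) * ν (z.1 - 1) < 1 / 2 * ν (z.1 - 1) :=
      mul_lt_mul_of_pos_right hh2 hzpos
    rw [h3] at h2
    linarith
  -- the subspace
  let A : Submodule ℂ (Matrix (Fin d) (Fin d) ℂ) :=
    Submodule.span ℂ {X | ∃ h ∈ G, ν (h.1 - 1) < 1 / 2 ∧ h.1 = X}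
  have hAG : ∀ g ∈ G, ∀ X ∈ A, g.1 * X * g⁻¹.1 ∈ A := by
    intro g hg X hX
    induction hX using Submodule.span_induction with
    | mem X hX =>
      obtain ⟨h, hh, hh2, rfl⟩ := hX
      refine Submodule.subset_span ⟨g * h * g⁻¹, G.mul_mem (G.mul_mem hg hh) (G.inv_mem hg), ?_, rfl⟩
      have h1 : (g * h * g⁻¹).1 - 1 = g.1 * (h.1 - 1) * g⁻¹.1 := by
        rw [mul_sub, sub_mul, mul_one, ← Units.val_mul, ← Units.val_mul, ← Units.val_mul,
          mul_inv_cancel, Units.val_one]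
      rw [h1, hνr _ (G.inv_mem hg), hνl _ hg]
      exact hh2
    | zero => rw [mul_zero, zero_mul]; exact zero_mem _
    | add X Y _ _ hX hY => rw [mul_add, add_mul]; exact add_mem hX hY
    | smul a X _ hX => rw [mul_smul_comm, smul_mul_assoc]; exact Submodule.smul_mem _ _ hX
  have hAz : ∀ X ∈ A, z.1 * X = X * z.1 := by
    intro X hX
    induction hX using Submodule.span_induction with
    | mem X hX =>
      obtain ⟨h, hh, hh2, rfl⟩ := hX
      rw [← Units.val_mul, ← Units.val_mul, hcomm h hh hh2]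
    | zero => rw [mul_zero, zero_mul]
    | add X Y _ _ hX hY => rw [mul_add, add_mul, hX, hY]
    | smul a X _ hX => rw [mul_smul_comm, smul_mul_assoc, hX]
  refine ⟨z, hz.1, hz.2, fun τ Z hτ hA => ?_⟩
  have hfin : Finite G := hG.to_subtype
  refine comm_of_conj z (Nat.card G) Nat.card_pos ?_ hτ ?_
  · have h1 : (⟨z, hz.1⟩ : G) ^ Nat.card G = 1 := pow_card_eq_one'
    have h2 := congrArg Subtype.val h1
    exact h2
  · intro s
    apply Units.ext
    rw [Units.val_mul, Units.val_mul]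
    exact hAz _ (hA A hAG s z.1 (Submodule.subset_span ⟨z, hz.1, hz2, rfl⟩))

end Pool.Agent.Lib.MPf11a48.CG
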