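import Pool.Agent.Lib.MP_f11a48_ag.CG.SpecP
import Pool.Agent.Lib.MP_f11a48_ag.GF.Solv
import Pool.Agent.Lib.MP_f11a48_ag.GF.Bnd

/-!
# YDD: the divided derivatives of the system and the matrix of solutions
-/

set_option autoImplicit false

namespace Pool.Agent.Lib.MPf11a48.CG

open Polynomial Matrix
open scoped PowerSeries
open Pool.Agent.Lib.MPf11a48.GF

namespace YddM

variable {ι : Type} [Fintype ι] [DecidableEq ι]

lemma bn_comm (N : Matrix ι ι ℚ) (a : ℕ) : N * bn N a = bn N a * N := by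
  induction a with
  | zero => simp [bn]
  | succ a ih =>
    simp only [bn, Matrix.mul_smul, Matrix.smul_mul]
    congr 1
    rw [← Matrix.mul_assoc, ih, Matrix.mul_assoc, Matrix.mul_assoc]
    congr 1
    rw [Matrix.mul_sub, Matrix.sub_mul]
    simp

/-- `(a + 1) bn N (a + 1) = N bn N a - a bn N a` -/
lemma bn_succ (N : Matrix ι ι ℚ) (a : ℕ) (k l : ι) :
    ((a : ℚ) + 1) * bn N (a + 1) k l = ∑ m, N k m * bn N a m l - (a : ℚ) * bn N a k l := by
  have h1 : ((a : ℚ) + 1) • bn N (a + 1) = N * bn N a - (a : ℚ) • bn N a := by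
    rw [bn, smul_smul, bn_comm]
    have : ((a : ℚ) + 1) * (((a + 1 : ℕ) : ℚ))⁻¹ = 1 := by
      push_cast
      field_simp
    rw [this, one_smul, Matrix.mul_sub]
    simp
  have h2 := congrFun (congrFun h1 k) l
  simpa [Matrix.mul_apply] using h2

/-- the summand of `R_b` -/
noncomputable def S (N : Matrix ι ι ℚ) (h : ℕ → ι → ℚ⟦X⟧) (a d : ℕ) (k : ι) : ℚ⟦X⟧ :=
  ((X ^ d : ℚ[X]) : ℚ⟦X⟧) * ∑ l, PowerSeries.C (bn N a k l) * h d l

lemma X_mul_deriv_pow (d : ℕ) :
    (PowerSeries.X : ℚ⟦X⟧) * PowerSeries.derivative ℚ (((X ^ d : ℚ[X]) : ℚ⟦X⟧)) =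
      (d : ℚ⟦X⟧) * ((X ^ d : ℚ[X]) : ℚ⟦X⟧) := by
  rw [PowerSeries.derivative_coe]
  rcases d with _ | d
  · simp
  · rw [derivative_X_pow, Nat.add_sub_cancel]
    have : ((C ((d + 1 : ℕ) : ℚ) * X ^ d : ℚ[X]) : ℚ⟦X⟧) =
        ((d + 1 : ℕ) : ℚ⟦X⟧) * (PowerSeries.X : ℚ⟦X⟧) ^ d := by
      rw [Polynomial.coe_mul, Polynomial.coe_pow, Polynomial.coe_X, Polynomial.coe_C]
      simp
    rw [this, Polynomial.coe_pow, Polynomial.coe_X]
    ring

lemma deriv_S (N : Matrix ι ι ℚ) (h : ℕ → ι → ℚ⟦X⟧)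
    (hh : ∀ d l, PowerSeries.derivative ℚ (h d l) = ((d : ℚ⟦X⟧) + 1) * h (d + 1) l)
    (a d : ℕ) (k : ι) :
    (PowerSeries.X : ℚ⟦X⟧) * PowerSeries.derivative ℚ (S N h a d k) =
      (d : ℚ⟦X⟧) * S N h a d k + ((d : ℚ⟦X⟧) + 1) * S N h a (d + 1) k := by
  unfold S
  rw [Derivation.leibniz, smul_eq_mul, smul_eq_mul, map_sum]
  have h1 : ∀ l, PowerSeries.derivative ℚ (PowerSeries.C (bn N a k l) * h d l) =
      ((d : ℚ⟦X⟧) + 1) * (PowerSeries.C (bn N a k l) * h (d + 1) l) := by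
    intro l
    rw [Derivation.leibniz, smul_eq_mul, smul_eq_mul, hh]
    have : PowerSeries.derivative ℚ (PowerSeries.C (bn N a k l)) = 0 := by
      exact (PowerSeries.derivative ℚ).map_algebraMap (bn N a k l)
    rw [this]
    ring
  simp only [h1, ← Finset.mul_sum]
  have h2 := X_mul_deriv_pow d
  have h3 : ((X ^ (d + 1) : ℚ[X]) : ℚ⟦X⟧) = ((X ^ d : ℚ[X]) : ℚ⟦X⟧) * (PowerSeries.X : ℚ⟦X⟧) := by
    rw [pow_succ, Polynomial.coe_mul, Polynomial.coe_X]
  rw [h3]
  linear_combination (∑ l, PowerSeries.C (bn N a k l) * h d l) * h2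

lemma N_S (N : Matrix ι ι ℚ) (h : ℕ → ι → ℚ⟦X⟧) (a d : ℕ) (k : ι) :
    ∑ m, PowerSeries.C (N k m) * S N h a d m - (a : ℚ⟦X⟧) * S N h a d k =
      ((a : ℚ⟦X⟧) + 1) * S N h (a + 1) d k := by
  unfold S
  have h1 : ∀ l, ((a : ℚ⟦X⟧) + 1) * PowerSeries.C (bn N (a + 1) k l) =
      ∑ m, PowerSeries.C (N k m) * PowerSeries.C (bn N a m l) -
        (a : ℚ⟦X⟧) * PowerSeries.C (bn N a k l) := by
    intro l
    have h2 := congrArg (PowerSeries.C (R := ℚ)) (bn_succ N a k l)
    simpa using h2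
  have h3 : ((a : ℚ⟦X⟧) + 1) * ∑ l, PowerSeries.C (bn N (a + 1) k l) * h d l =
      ∑ m, PowerSeries.C (N k m) * ∑ l, PowerSeries.C (bn N a m l) * h d l -
        (a : ℚ⟦X⟧) * ∑ l, PowerSeries.C (bn N a k l) * h d l := by
    rw [Finset.mul_sum]
    have h4 : ∀ l, ((a : ℚ⟦X⟧) + 1) * (PowerSeries.C (bn N (a + 1) k l) * h d l) =
        ∑ m, PowerSeries.C (N k m) * (PowerSeries.C (bn N a m l) * h d l) -
          (a : ℚ⟦X⟧) * (PowerSeries.C (bn N a k l) * h d l) := by
      intro l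
      rw [← mul_assoc, h1, sub_mul, Finset.sum_mul]
      simp only [mul_assoc]
    simp only [h4]
    rw [Finset.sum_sub_distrib, Finset.sum_comm, ← Finset.mul_sum]
    simp only [Finset.mul_sum]
  have h5 : ∑ m, PowerSeries.C (N k m) * (((X ^ d : ℚ[X]) : ℚ⟦X⟧) *
      ∑ l, PowerSeries.C (bn N a m l) * h d l) = ((X ^ d : ℚ[X]) : ℚ⟦X⟧) *
      ∑ m, PowerSeries.C (N k m) * ∑ l, PowerSeries.C (bn N a m l) * h d l := by
    rw [Finset.mul_sum]
    apply Finset.sum_congr rfl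
    intro m _
    ring
  rw [h5]
  linear_combination -((X ^ d : ℚ[X]) : ℚ⟦X⟧) * h3

/-- summation by parts on the antidiagonal -/
lemma sum_anti (f : ℕ → ℕ → ℚ⟦X⟧) (b : ℕ) :
    ∑ x ∈ Finset.HasAntidiagonal.antidiagonal b,
      (((x.2 : ℚ⟦X⟧) + 1) * f x.1 (x.2 + 1) + ((x.1 : ℚ⟦X⟧) + 1) * f (x.1 + 1) x.2) =
    ((b : ℚ⟦X⟧) + 1) * ∑ x ∈ Finset.HasAntidiagonal.antidiagonal (b + 1), f x.1 x.2 := by
  have h1 : ∑ x ∈ Finset.HasAntidiagonal.antidiagonal (b + 1), (x.1 : ℚ⟦X⟧) * f x.1 x.2 =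
      ∑ x ∈ Finset.HasAntidiagonal.antidiagonal b, ((x.1 : ℚ⟦X⟧) + 1) * f (x.1 + 1) x.2 := by
    rw [Finset.Nat.sum_antidiagonal_succ]
    simp
  have h2 : ∑ x ∈ Finset.HasAntidiagonal.antidiagonal (b + 1), (x.2 : ℚ⟦X⟧) * f x.1 x.2 =
      ∑ x ∈ Finset.HasAntidiagonal.antidiagonal b, ((x.2 : ℚ⟦X⟧) + 1) * f x.1 (x.2 + 1) := by
    rw [Finset.Nat.sum_antidiagonal_succ']
    simp
  rw [Finset.sum_add_distrib, ← h1, ← h2, ← Finset.sum_add_distrib, Finset.mul_sum]
  apply Finset.sum_congr rfl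
  intro x hx
  have h3 : x.1 + x.2 = b + 1 := Finset.HasAntidiagonal.mem_antidiagonal.mp hx
  have h4 : (x.1 : ℚ⟦X⟧) + (x.2 : ℚ⟦X⟧) = (b : ℚ⟦X⟧) + 1 := by exact_mod_cast congrArg (Nat.cast (R := ℚ⟦X⟧)) h3
  rw [← h4]
  ring

/-- `R_b` -/
noncomputable def Rb (N : Matrix ι ι ℚ) (h : ℕ → ι → ℚ⟦X⟧) (b : ℕ) (k : ι) : ℚ⟦X⟧ :=
  ∑ x ∈ Finset.HasAntidiagonal.antidiagonal b, S N h x.1 x.2 k

lemma Rb_succ (N : Matrix ι ι ℚ) (h : ℕ → ι → ℚ⟦X⟧)
    (hh : ∀ d l, PowerSeries.derivative ℚ (h d l) = ((d : ℚ⟦X⟧) + 1) * h (d + 1) l)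
    (b : ℕ) (k : ι) :
    ((b : ℚ⟦X⟧) + 1) * Rb N h (b + 1) k =
      (PowerSeries.X : ℚ⟦X⟧) * PowerSeries.derivative ℚ (Rb N h b k) +
        ∑ m, PowerSeries.C (N k m) * Rb N h b m - (b : ℚ⟦X⟧) * Rb N h b k := by
  unfold Rb
  rw [← sum_anti (fun a d => S N h a d k)]
  rw [map_sum, Finset.mul_sum, Finset.mul_sum]
  simp only [Finset.mul_sum]
  rw [Finset.sum_comm, ← Finset.sum_add_distrib, ← Finset.sum_sub_distrib]
  apply Finset.sum_congr rfl
  intro x hx
  have h3 : x.1 + x.2 = b := Finset.HasAntidiagonal.mem_antidiagonal.mp hx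
  have h4 : (b : ℚ⟦X⟧) = (x.1 : ℚ⟦X⟧) + (x.2 : ℚ⟦X⟧) := by
    exact_mod_cast congrArg (Nat.cast (R := ℚ⟦X⟧)) h3.symm
  rw [deriv_S N h hh, ← N_S, h4]
  ring

end YddM

open YddM in
theorem specYdd : SpecYdd := by
  intro ι _ _ T B N Y hY b k i
  -- the column vectors
  set t : ℚ⟦X⟧ := ((zq T : ℚ[X]) : ℚ⟦X⟧) with ht
  set h : ℕ → ι → ℚ⟦X⟧ := fun d l => hs d (Y l i) with hh0
  have hh : ∀ d l, PowerSeries.derivative ℚ (h d l) = ((d : ℚ⟦X⟧) + 1) * h (d + 1) l := by
    intro d l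
    rw [hh0]
    simp only
    rw [SolvM.deriv_hs]
    push_cast
    rfl
  set e : ℕ → ι → ℚ⟦X⟧ := fun b j =>
    ((dd (zq T) (B.map zq) (Pi.single i 1) b j : ℚ[X]) : ℚ⟦X⟧) with he0
  have he : ∀ (b : ℕ) (j : ι), ((b : ℚ⟦X⟧) + 1) * e (b + 1) j = t * PowerSeries.derivative ℚ (e b j) +
      ∑ l, e b l * ((zq (B l j) : ℚ[X]) : ℚ⟦X⟧) - (b : ℚ⟦X⟧) * PowerSeries.derivative ℚ t * e b j := by
    intro b j
    have h1 := BndM.dd_succ' (zq T) (B.map zq) (Pi.single i 1) b j
    have h2 := congrArg (Polynomial.coeToPowerSeries.ringHom (R := ℚ)) h1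
    simp only [del, map_mul, map_add, map_sub, map_sum, map_one, map_natCast,
      Polynomial.coeToPowerSeries.ringHom_apply, Matrix.map_apply] at h2
    rw [PowerSeries.derivative_coe, ht, PowerSeries.derivative_coe]
    rw [he0]
    simpa using h2
  have key : ∀ (b : ℕ) (k : ι), (PowerSeries.X : ℚ⟦X⟧) ^ b * ∑ j, Y k j * e b j = t ^ b * Rb N h b k := by
    intro b
    induction b with
    | zero =>
      intro k
      simp only [pow_zero, one_mul]
      unfold Rb S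
      simp only [Finset.Nat.antidiagonal_zero, Finset.sum_singleton, pow_zero, Polynomial.coe_one,
        one_mul, bn]
      rw [he0, hh0]
      simp only [dd, SolvM.hs_zero]
      rw [Finset.sum_eq_single i, Finset.sum_eq_single k]
      · simp
      · intro l _ hl
        simp [Matrix.one_apply_ne (Ne.symm hl)]
      · simp
      · intro l _ hl
        simp [hl]
      · simp
    | succ b ih =>
      intro k
      have hne : ((b : ℚ⟦X⟧) + 1) ≠ 0 := by
        have : ((b : ℚ⟦X⟧) + 1) = PowerSeries.C ((b : ℚ) + 1) := by simp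
        rw [this]
        intro h0
        have h1 := (PowerSeries.C_injective (R := ℚ)) (h0.trans (map_zero _).symm)
        have h2 : ((b : ℚ) + 1) ≠ 0 := by positivity
        exact h2 h1
      apply mul_left_cancel₀ hne
      -- the equation of `Y`
      have hsol : ∀ i', (PowerSeries.X : ℚ⟦X⟧) * ∑ j, ((zq (B i' j) : ℚ[X]) : ℚ⟦X⟧) * Y k j =
          (PowerSeries.X : ℚ⟦X⟧) * t * PowerSeries.derivative ℚ (Y k i') +
            t * ∑ m, PowerSeries.C (N k m) * Y m i' := by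
        intro i'
        have h1 := hY k i'
        rw [Polynomial.coe_mul, Polynomial.coe_X, ← ht] at h1
        have h2 : ∀ k', ((X * zq (B i' k') : ℚ[X]) : ℚ⟦X⟧) * Y k k' =
            (PowerSeries.X : ℚ⟦X⟧) * (((zq (B i' k') : ℚ[X]) : ℚ⟦X⟧) * Y k k') := by
          intro k'
          rw [Polynomial.coe_mul, Polynomial.coe_X, mul_assoc]
        simp only [h2, ← Finset.mul_sum] at h1
        rw [Matrix.mul_apply] at h1
        simp only [Matrix.map_apply] at h1
        linear_combination -h1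
      have hU : PowerSeries.derivative ℚ (∑ j, Y k j * e b j) =
          ∑ j, Y k j * PowerSeries.derivative ℚ (e b j) +
            ∑ j, e b j * PowerSeries.derivative ℚ (Y k j) := by
        rw [map_sum, ← Finset.sum_add_distrib]
        apply Finset.sum_congr rfl
        intro j _
        rw [Derivation.leibniz, smul_eq_mul, smul_eq_mul]
      have h1 : ((b : ℚ⟦X⟧) + 1) * ∑ j, Y k j * e (b + 1) j =
          t * ∑ j, Y k j * PowerSeries.derivative ℚ (e b j) +
            ∑ l, e b l * ∑ j, ((zq (B l j) : ℚ[X]) : ℚ⟦X⟧) * Y k j -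
            (b : ℚ⟦X⟧) * PowerSeries.derivative ℚ t * ∑ j, Y k j * e b j := by
        rw [Finset.mul_sum]
        have h2 : ∀ j, ((b : ℚ⟦X⟧) + 1) * (Y k j * e (b + 1) j) =
            t * (Y k j * PowerSeries.derivative ℚ (e b j)) +
              ∑ l, e b l * (((zq (B l j) : ℚ[X]) : ℚ⟦X⟧) * Y k j) -
              (b : ℚ⟦X⟧) * PowerSeries.derivative ℚ t * (Y k j * e b j) := by
          intro j
          have h3 := he b j
          have h4 : ∑ l, e b l * (((zq (B l j) : ℚ[X]) : ℚ⟦X⟧) * Y k j) =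
              (∑ l, e b l * ((zq (B l j) : ℚ[X]) : ℚ⟦X⟧)) * Y k j := by
            rw [Finset.sum_mul]
            apply Finset.sum_congr rfl
            intro l _
            ring
          rw [h4]
          linear_combination Y k j * h3
        simp only [h2]
        rw [Finset.sum_sub_distrib, Finset.sum_add_distrib, Finset.sum_comm (f := fun j l =>
          e b l * (((zq (B l j) : ℚ[X]) : ℚ⟦X⟧) * Y k j))]
        simp only [Finset.mul_sum]
      -- multiply by `X`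
      have h5 : (PowerSeries.X : ℚ⟦X⟧) * ∑ l, e b l * ∑ j, ((zq (B l j) : ℚ[X]) : ℚ⟦X⟧) * Y k j =
          (PowerSeries.X : ℚ⟦X⟧) * t * ∑ j, e b j * PowerSeries.derivative ℚ (Y k j) +
            t * ∑ m, PowerSeries.C (N k m) * ∑ j, Y m j * e b j := by
        have h6 : ∀ l, (PowerSeries.X : ℚ⟦X⟧) * (e b l * ∑ j, ((zq (B l j) : ℚ[X]) : ℚ⟦X⟧) * Y k j) =
            (PowerSeries.X : ℚ⟦X⟧) * t * (e b l * PowerSeries.derivative ℚ (Y k l)) +
              t * ∑ m, PowerSeries.C (N k m) * (Y m l * e b l) := by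
          intro l
          have h7 := hsol l
          have h8 : ∑ m, PowerSeries.C (N k m) * (Y m l * e b l) =
              e b l * ∑ m, PowerSeries.C (N k m) * Y m l := by
            rw [Finset.mul_sum]
            apply Finset.sum_congr rfl
            intro m _
            ring
          rw [h8]
          linear_combination e b l * h7
        rw [Finset.mul_sum]
        simp only [h6]
        rw [Finset.sum_add_distrib, ← Finset.mul_sum, ← Finset.mul_sum]
        congr 2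
        rw [Finset.sum_comm]
        simp only [Finset.mul_sum]
      -- the derivative of the induction hypothesis
      have hX : (PowerSeries.X : ℚ⟦X⟧) * PowerSeries.derivative ℚ ((PowerSeries.X : ℚ⟦X⟧) ^ b) =
          (b : ℚ⟦X⟧) * (PowerSeries.X : ℚ⟦X⟧) ^ b := by
        have := X_mul_deriv_pow b
        rwa [Polynomial.coe_pow, Polynomial.coe_X] at this
      have ht' : t * PowerSeries.derivative ℚ (t ^ b) = (b : ℚ⟦X⟧) * t ^ b * PowerSeries.derivative ℚ t := by
        rw [Derivation.leibniz_pow, nsmul_eq_mul, smul_eq_mul]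
        rcases b with _ | b
        · simp
        · rw [Nat.add_sub_cancel]
          push_cast
          ring
      have hd := congrArg (PowerSeries.derivative ℚ) (ih k)
      rw [Derivation.leibniz, Derivation.leibniz, smul_eq_mul, smul_eq_mul, smul_eq_mul,
        smul_eq_mul] at hd
      have hN : (PowerSeries.X : ℚ⟦X⟧) ^ b * ∑ m, PowerSeries.C (N k m) * ∑ j, Y m j * e b j =
          t ^ b * ∑ m, PowerSeries.C (N k m) * Rb N h b m := by
        rw [Finset.mul_sum, Finset.mul_sum]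
        apply Finset.sum_congr rfl
        intro m _
        have := ih m
        linear_combination PowerSeries.C (N k m) * this
      have hR := Rb_succ N h hh b k
      have ihk := ih k
      generalize (∑ j, Y k j * e (b + 1) j) = U1 at h1 ⊢
      generalize (∑ j, Y k j * e b j) = U at h1 hd ihk hU
      generalize (∑ j, Y k j * PowerSeries.derivative ℚ (e b j)) = A1 at h1 hU
      generalize (∑ j, e b j * PowerSeries.derivative ℚ (Y k j)) = A2 at h5 hU
      generalize (∑ l, e b l * ∑ j, ((zq (B l j) : ℚ[X]) : ℚ⟦X⟧) * Y k j) = A3 at h1 h5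
      generalize (∑ m, PowerSeries.C (N k m) * ∑ j, Y m j * e b j) = A4 at h5 hN
      generalize (∑ m, PowerSeries.C (N k m) * Rb N h b m) = A5 at hN hR
      generalize Rb N h (b + 1) k = R1 at hR ⊢
      generalize Rb N h b k = R0 at *
      generalize PowerSeries.derivative ℚ U = U' at *
      generalize PowerSeries.derivative ℚ R0 = R0' at *
      generalize PowerSeries.derivative ℚ t = t' at *
      generalize PowerSeries.derivative ℚ ((PowerSeries.X : ℚ⟦X⟧) ^ b) = Xb' at *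
      generalize PowerSeries.derivative ℚ (t ^ b) = tb' at *
      generalize (PowerSeries.X : ℚ⟦X⟧) = x at *
      rw [pow_succ, pow_succ]
      linear_combination (x ^ b * x) * h1 + x ^ b * h5 + (x ^ b * x * t) * hU.symm +
        (x * t) * hd - (t * U) * hX + (x * R0) * ht' + t * hN - ((b : ℚ⟦X⟧) * x * t') * ihk -
        ((b : ℚ⟦X⟧) * t) * ihk - (t * t ^ b) * hR
  have hk := key b k
  rw [Polynomial.coe_pow, Polynomial.coe_X, Polynomial.coe_pow]
  exact hk

end Pool.Agent.Lib.MPf11a48.CG
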