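import Pool.Agent.Lib.MP_f11a48_ag.CG.SpecB
import Pool.Agent.Lib.MP_f11a48_ag.CG.Main
import Pool.Agent.Lib.MP_f11a48_ag.CG.Cod

/-!
# ZAR: from the orbit of `G` to the torsor
-/

set_option autoImplicit false
set_option linter.unusedSectionVars false

namespace Pool.Agent.Lib.MPf11a48.CG.ZarM

open Polynomial Matrix
open Pool.Agent.Lib.MPf11a48.Tors
open Pool.Agent.Lib.MPf11a48.CM hiding OmegaM
open Pool.Agent.Lib.MPf11a48.GL2T
open Pool.Agent.Lib.MPf11a48.GL2 (lie van en Geo lr tang glmul closedOver_mono geo_of_torsor)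
open Pool.Agent.Lib.MPf11a48.K3 (cx)

variable {ι : Type} [Fintype ι] [DecidableEq ι] {K : IntermediateField ℚ ℂ}

/-- the chain rule for a derivation of `ℂ` -/
theorem chain (hK : K ≤ Qbar) (δ : Derivation Qbar ℂ ℂ) {I : Type} [Fintype I]
    (F : MvPolynomial I K) (y : I → ℂ) :
    δ (MvPolynomial.aeval y F) = dv F y fun i => δ (y i) := by
  classical
  unfold dv
  induction F using MvPolynomial.induction_on with
  | C a =>
    simp only [MvPolynomial.algHom_C, MvPolynomial.pderiv_C, map_zero, zero_mul,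
      Finset.sum_const_zero]
    exact U.DerM.d_zero_of_mem δ (hK a.2)
  | add p q hp hq =>
    rw [map_add, map_add, hp, hq, ← Finset.sum_add_distrib]
    refine Finset.sum_congr rfl fun i _ => ?_
    rw [map_add, map_add, add_mul]
  | mul_X p j hp =>
    rw [map_mul, MvPolynomial.aeval_X, Derivation.leibniz, hp, smul_eq_mul, smul_eq_mul,
      Finset.mul_sum]
    have e : ∀ i, MvPolynomial.aeval y (MvPolynomial.pderiv i (p * MvPolynomial.X j)) * δ (y i) =
        (if i = j then MvPolynomial.aeval y p * δ (y j) else 0) +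
          y j * (MvPolynomial.aeval y (MvPolynomial.pderiv i p) * δ (y i)) := by
      intro i
      rw [Derivation.leibniz, smul_eq_mul, smul_eq_mul, map_add, map_mul, map_mul,
        MvPolynomial.aeval_X]
      by_cases h : i = j
      · subst h
        rw [MvPolynomial.pderiv_X_self, map_one, if_pos rfl]
        ring
      · rw [MvPolynomial.pderiv_X_of_ne (Ne.symm h), map_zero, if_neg h]
        ring
    rw [Finset.sum_congr rfl fun i _ => e i, Finset.sum_add_distrib, Finset.sum_ite_eq',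
      if_pos (Finset.mem_univ j)]

theorem dv_add {I : Type} [Fintype I] (F : MvPolynomial I K) (y v w : I → ℂ) :
    dv F y (fun i => v i + w i) = dv F y v + dv F y w := by
  unfold dv
  rw [← Finset.sum_add_distrib]
  exact Finset.sum_congr rfl fun i _ => mul_add _ _ _

theorem dv_smul {I : Type} [Fintype I] (F : MvPolynomial I K) (y v : I → ℂ) (t : ℂ) :
    dv F y (fun i => t * v i) = t * dv F y v := by
  unfold dv
  rw [Finset.mul_sum]
  exact Finset.sum_congr rfl fun i _ => by ring

/-- a relation on the orbit is tangent to the orbit -/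
theorem tangent {G : Subgroup (GL ι ℂ)} {c : GL ι ℂ} {F : MvPolynomial (ι × ι) K}
    (hF : ∀ g ∈ G, MvPolynomial.aeval (fun p : ι × ι => (g * c).1 p.1 p.2) F = 0)
    {Z : Matrix ι ι ℂ} (hZ : Z ∈ lie (G : Set (GL ι ℂ))) {g : GL ι ℂ} (hg : g ∈ G) :
    dv F (fun p : ι × ι => (g * c).1 p.1 p.2) (fun p => (Z * (g * c).1) p.1 p.2) = 0 := by
  have hev : ∀ (x : ι × ι → ℂ) (P : MvPolynomial (ι × ι) K),
      MvPolynomial.eval x (P.map (algebraMap K ℂ)) = MvPolynomial.aeval x P := by
    intro x P
    rw [MvPolynomial.eval_map]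
    rfl
  have hq : lr (1 : Matrix ι ι ℂ) c.1 (F.map (algebraMap K ℂ)) ∈ van (G : Set (GL ι ℂ)) := by
    intro f hf
    rw [GL2.eval_lr, Matrix.one_mul, hev]
    exact hF f hf
  have h1 := hZ g hg _ hq
  rw [GL2.tang_lr] at h1
  have e1 : (1 : Matrix ι ι ℂ) * g.1 * c.1 = (g * c).1 := by
    rw [Matrix.one_mul]
    rfl
  have e2 : (1 : Matrix ι ι ℂ) * (Z * g.1) * c.1 = Z * (g * c).1 := by
    rw [Matrix.one_mul, Matrix.mul_assoc]
    rfl
  rw [e1, e2] at h1
  unfold tang at h1
  unfold dv
  rw [← h1]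
  refine Finset.sum_congr rfl fun v _ => ?_
  rw [MvPolynomial.pderiv_map, hev, mul_comm]
  rfl

/-- the Euler operator -/
noncomputable def eu (F : MvPolynomial (ι × ι) K) : MvPolynomial (ι × ι) K :=
  ∑ v, MvPolynomial.pderiv v F * MvPolynomial.X v

theorem aeval_eu {U : Type} [CommRing U] [Algebra K U] (F : MvPolynomial (ι × ι) K)
    (y : ι × ι → U) :
    MvPolynomial.aeval y (eu F) = ∑ v, MvPolynomial.aeval y (MvPolynomial.pderiv v F) * y v := by
  unfold eu
  rw [map_sum]
  refine Finset.sum_congr rfl fun v _ => ?_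
  rw [map_mul, MvPolynomial.aeval_X]

/-- the polynomial `F(z f)` in `z` -/
noncomputable def pz (f : Matrix ι ι ℂ) (F : MvPolynomial (ι × ι) K) : Polynomial ℂ :=
  MvPolynomial.aeval (fun p : ι × ι => Polynomial.C (f p.1 p.2) * Polynomial.X) F

theorem eval_pz (f : Matrix ι ι ℂ) (F : MvPolynomial (ι × ι) K) (z : ℂ) :
    (pz f F).eval z = MvPolynomial.aeval (fun p : ι × ι => (z • f) p.1 p.2) F := by
  unfold pz
  induction F using MvPolynomial.induction_on with
  | C a =>
    rw [MvPolynomial.algHom_C, MvPolynomial.algHom_C]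
    exact Polynomial.eval_C
  | add p q hp hq => rw [map_add, Polynomial.eval_add, hp, hq, map_add]
  | mul_X p i hp =>
    rw [map_mul, Polynomial.eval_mul, hp, map_mul, MvPolynomial.aeval_X, MvPolynomial.aeval_X,
      Polynomial.eval_mul, Polynomial.eval_C, Polynomial.eval_X]
    congr 1
    exact mul_comm _ _

theorem X_mul_derivative_pz (f : Matrix ι ι ℂ) (F : MvPolynomial (ι × ι) K) :
    Polynomial.X * derivative (pz f F) = pz f (eu F) := by
  classical
  unfold pz
  rw [aeval_eu]
  induction F using MvPolynomial.induction_on with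
  | C a =>
    simp only [MvPolynomial.pderiv_C, map_zero, zero_mul, Finset.sum_const_zero]
    rw [MvPolynomial.algHom_C]
    have : (algebraMap K (Polynomial ℂ)) a = Polynomial.C (a : ℂ) := rfl
    rw [this, derivative_C, mul_zero]
  | add p q hp hq =>
    rw [map_add, derivative_add, mul_add, hp, hq, ← Finset.sum_add_distrib]
    refine Finset.sum_congr rfl fun i _ => ?_
    rw [map_add, map_add, add_mul]
  | mul_X p j hp =>
    rw [map_mul, MvPolynomial.aeval_X, derivative_mul]
    have e : ∀ i, MvPolynomial.aeval (fun p : ι × ι => Polynomial.C (f p.1 p.2) * Polynomial.X)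
        (MvPolynomial.pderiv i (p * MvPolynomial.X j)) * (Polynomial.C (f i.1 i.2) *
          Polynomial.X) =
        (if i = j then MvPolynomial.aeval (fun p : ι × ι => Polynomial.C (f p.1 p.2) *
          Polynomial.X) p * (Polynomial.C (f j.1 j.2) * Polynomial.X) else 0) +
          (Polynomial.C (f j.1 j.2) * Polynomial.X) * (MvPolynomial.aeval
            (fun p : ι × ι => Polynomial.C (f p.1 p.2) * Polynomial.X)
            (MvPolynomial.pderiv i p) * (Polynomial.C (f i.1 i.2) * Polynomial.X)) := by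
      intro i
      rw [Derivation.leibniz, smul_eq_mul, smul_eq_mul, map_add, map_mul, map_mul,
        MvPolynomial.aeval_X]
      by_cases h : i = j
      · subst h
        rw [MvPolynomial.pderiv_X_self, map_one, if_pos rfl]
        ring
      · rw [MvPolynomial.pderiv_X_of_ne (Ne.symm h), map_zero, if_neg h]
        ring
    rw [Finset.sum_congr rfl fun i _ => e i, Finset.sum_add_distrib, Finset.sum_ite_eq',
      if_pos (Finset.mem_univ j), ← Finset.mul_sum, ← hp, derivative_mul, derivative_C,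
      derivative_X]
    ring

end Pool.Agent.Lib.MPf11a48.CG.ZarM

namespace Pool.Agent.Lib.MPf11a48.CG

open Polynomial Matrix
open Pool.Agent.Lib.MPf11a48.Tors
open Pool.Agent.Lib.MPf11a48.CM hiding OmegaM
open Pool.Agent.Lib.MPf11a48.GL2T
open Pool.Agent.Lib.MPf11a48.GL2 (lie van en Geo lr tang glmul closedOver_mono geo_of_torsor)
open Pool.Agent.Lib.MPf11a48.K3 (cx)

open ZarM in
theorem specZar : SpecZar := by
  classical
  intro ι _ _ ψ K G c ψdR w F₀ hK hG hiso hw hpol hlie hF₀
  -- the key: the property is stable under the Euler operator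
  rcases isEmpty_or_nonempty ι with hι | hι
  · intro z g τ hg hτ
    have h1 := hF₀ 1 G.one_mem
    have e : (fun p : ι × ι => (z • (g * tw τ c).1) p.1 p.2) =
        fun p : ι × ι => ((1 : GL ι ℂ) * c).1 p.1 p.2 := by
      funext p
      exact (hι.false p.1).elim
    rw [e]
    exact h1
  have h2pi : (2 * Real.pi * Complex.I : ℂ) ≠ 0 := Complex.two_pi_I_ne_zero
  have hϖ : (2 * Real.pi * Complex.I : ℂ) ^ w ≠ 0 := zpow_ne_zero _ h2pi
  have hnot : (2 * Real.pi * Complex.I : ℂ) ^ w ∉ Qbar := fun hmem => hw (two_pi_I_zpow hmem)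
  obtain ⟨δ, hδ⟩ := GL2.exists_derivation hnot
  have hTor := isTorsor_OmegaM K c
  have hGeo : Geo (Tors.OmegaM K c) :=
    geo_of_torsor ⟨closedOver_mono hK hTor.closed, hTor.nonempty, hTor.heap⟩
  have hcT := mem_OmegaM_self K c
  have hX := hGeo.deriv_mem hcT δ
  have hXm := CF.MainM.log_deriv c ψ (ψdR.map (fun x => (x : ℂ))) (fun i j => hK (ψdR i j).2) _ hϖ
    hpol.2 δ
  obtain ⟨t, ht⟩ := hlie _ hX
  set X := c.1.map δ * c⁻¹.1 with hXdef
  set Y := X - t • (1 : Matrix ι ι ℂ) with hY
  have hYi : Yᵀ * cx ψ + cx ψ * Y = 0 := MainM.lie_iso hiso ht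
  have ht0 : t ≠ 0 := by
    intro h0
    have h1 : X = Y := by rw [hY, h0, zero_smul, sub_zero]
    rw [h1, hYi] at hXm
    have h2 := (smul_eq_zero.1 hXm.symm).resolve_left (div_ne_zero hδ hϖ)
    have h3 : (cx ψ).det = 0 := by
      rw [h2, det_zero]
    rw [CF.MainM.cx_det] at h3
    exact hpol.1 (by exact_mod_cast h3)
  have hGg : Geo (G : Set (GL ι ℂ)) :=
    geo_of_torsor ⟨closedOver_mono bot_le hG.closed, ⟨1, G.one_mem⟩,
      fun a ha b hb d hd => G.mul_mem (G.mul_mem ha (G.inv_mem hb)) hd⟩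
  have hstep : ∀ F : MvPolynomial (ι × ι) K,
      (∀ g ∈ G, MvPolynomial.aeval (fun p : ι × ι => (g * c).1 p.1 p.2) F = 0) →
      ∀ g ∈ G, MvPolynomial.aeval (fun p : ι × ι => (g * c).1 p.1 p.2) (eu F) = 0 := by
    intro F hF g hg
    have h1 := chain hK δ F fun p : ι × ι => (g * c).1 p.1 p.2
    rw [hF g hg, map_zero] at h1
    -- the derivative of `g c`
    set Zg := g.1.map δ * g⁻¹.1 with hZg
    have hZgl : Zg ∈ lie (G : Set (GL ι ℂ)) := hGg.deriv_mem hg δ
    have hYg : g.1 * Y * g⁻¹.1 ∈ lie (G : Set (GL ι ℂ)) :=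
      CodM.lie_conj hGg g hg Y ht
    have e1 : (g * c).1.map δ = Zg * (g * c).1 + (t • (g * c).1 + (g.1 * Y * g⁻¹.1) * (g * c).1) := by
      have e2 : (g * c).1.map δ = g.1.map δ * c.1 + g.1 * c.1.map δ := by
        rw [glmul, U.DerM.map_mul]
      have e3 : g.1.map δ * c.1 = Zg * (g * c).1 := by
        rw [hZg, glmul, ← Matrix.mul_assoc, Matrix.mul_assoc (g.1.map δ),
          show g⁻¹.1 * g.1 = 1 from g.inv_mul, Matrix.mul_one]
      have e4 : c.1.map δ = X * c.1 := by
        rw [hXdef, Matrix.mul_assoc, show c⁻¹.1 * c.1 = 1 from c.inv_mul, Matrix.mul_one]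
      have e5 : X = t • (1 : Matrix ι ι ℂ) + Y := by
        rw [hY, add_sub_cancel]
      have e6 : (g.1 * Y * g⁻¹.1) * (g * c).1 = g.1 * (Y * c.1) := by
        rw [glmul]
        calc g.1 * Y * g⁻¹.1 * (g.1 * c.1) = g.1 * Y * (g⁻¹.1 * g.1) * c.1 := by
              simp only [Matrix.mul_assoc]
          _ = g.1 * (Y * c.1) := by
              rw [show g⁻¹.1 * g.1 = 1 from g.inv_mul, Matrix.mul_one, Matrix.mul_assoc]
      rw [e2, e3, e6, e4, e5, Matrix.add_mul, Matrix.mul_add, Matrix.smul_mul, Matrix.one_mul,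
        Matrix.mul_smul]
      rfl
    have e7 : (fun p : ι × ι => δ ((g * c).1 p.1 p.2)) = fun p : ι × ι =>
        (Zg * (g * c).1) p.1 p.2 + (t * (g * c).1 p.1 p.2 +
          ((g.1 * Y * g⁻¹.1) * (g * c).1) p.1 p.2) := by
      funext p
      exact congrFun (congrFun e1 p.1) p.2
    rw [e7, dv_add F _ (fun p : ι × ι => (Zg * (g * c).1) p.1 p.2)
      (fun p : ι × ι => t * (g * c).1 p.1 p.2 + ((g.1 * Y * g⁻¹.1) * (g * c).1) p.1 p.2),
      dv_add F _ (fun p : ι × ι => t * (g * c).1 p.1 p.2), tangent hF hZgl hg,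
      tangent hF hYg hg, dv_smul, add_zero, zero_add] at h1
    have h2 := (mul_eq_zero.1 h1.symm).resolve_left ht0
    rw [aeval_eu]
    exact h2
  -- the polynomial `F(z g c)` is `0`
  have hz : ∀ (k : ℕ) (F : MvPolynomial (ι × ι) K),
      (∀ g ∈ G, MvPolynomial.aeval (fun p : ι × ι => (g * c).1 p.1 p.2) F = 0) →
      ∀ g ∈ G, (pz (g * c).1 F).rootMultiplicity 1 = k → pz (g * c).1 F = 0 := by
    intro k
    induction k with
    | zero =>
      intro F hF g hg hk
      by_contra h0
      have h1 : (pz (g * c).1 F).IsRoot 1 := by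
        rw [IsRoot.def, eval_pz, one_smul]
        exact hF g hg
      have h2 := (rootMultiplicity_pos h0).2 h1
      omega
    | succ k ih =>
      intro F hF g hg hk
      by_contra h0
      have h1 : (pz (g * c).1 F).IsRoot 1 := by
        rw [IsRoot.def, eval_pz, one_smul]
        exact hF g hg
      have h2 := derivative_rootMultiplicity_of_root h1
      have h3 := X_mul_derivative_pz (g * c).1 F
      have h4 : derivative (pz (g * c).1 F) ≠ 0 := by
        intro h5
        have h6 := derivative_eq_zero.1 h5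
        rw [eq_C_of_natDegree_eq_zero h6] at h1
        rw [IsRoot.def, eval_C] at h1
        rw [eq_C_of_natDegree_eq_zero h6, h1, map_zero] at h0
        exact h0 rfl
      have h5 : pz (g * c).1 (eu F) ≠ 0 := by
        rw [← h3]
        exact mul_ne_zero X_ne_zero h4
      apply h5
      refine ih (eu F) (hstep F hF) g hg ?_
      rw [← h3, rootMultiplicity_mul (mul_ne_zero X_ne_zero h4), h2, hk]
      have h7 : rootMultiplicity (1 : ℂ) (Polynomial.X : Polynomial ℂ) = 0 := by
        rw [rootMultiplicity_eq_zero_iff]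
        intro h8
        rw [IsRoot.def, eval_X] at h8
        exact absurd h8 one_ne_zero
      rw [h7]
      omega
  have hz' : ∀ (z : ℂ), ∀ g ∈ G,
      MvPolynomial.aeval (fun p : ι × ι => (z • (g * c).1) p.1 p.2) F₀ = 0 := by
    intro z g hg
    rw [← eval_pz, hz _ F₀ hF₀ g hg rfl, eval_zero]
  -- automorphisms
  intro z g τ hg hτ
  have hgt : tw τ.symm g ∈ G := by
    have hcl : ClosedOver ⊥ (G : Set (GL ι ℂ)) := hG.closed
    refine hcl.tw_mem ?_ hg
    intro x hx
    obtain ⟨q, hq⟩ := IntermediateField.mem_bot.1 hx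
    rw [← hq]
    exact map_ratCast τ.symm q
  have h1 := congrArg τ (hz' (τ.symm z) _ hgt)
  rw [map_zero] at h1
  rw [← h1]
  have hev : ∀ (P : MvPolynomial (ι × ι) K) (y : ι × ι → ℂ),
      τ (MvPolynomial.aeval y P) = MvPolynomial.aeval (fun p => τ (y p)) P := by
    intro P y
    induction P using MvPolynomial.induction_on with
    | C a =>
      rw [MvPolynomial.algHom_C, MvPolynomial.algHom_C]
      exact hτ a.1 a.2
    | add p q hp hq => rw [map_add, map_add, hp, hq, map_add]
    | mul_X p i hp => rw [map_mul, map_mul, hp, map_mul, MvPolynomial.aeval_X, MvPolynomial.aeval_X]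
  rw [hev]
  congr 1
  congr 1
  funext p
  have e1 : (z • (g * tw τ c).1) p.1 p.2 = z * ∑ k, g.1 p.1 k * τ (c.1 k p.2) := by
    rw [Matrix.smul_apply, smul_eq_mul, glmul, Matrix.mul_apply]
    rfl
  have e2 : (τ.symm z • (tw τ.symm g * c).1) p.1 p.2 =
      τ.symm z * ∑ k, τ.symm (g.1 p.1 k) * c.1 k p.2 := by
    rw [Matrix.smul_apply, smul_eq_mul, glmul, Matrix.mul_apply]
    rfl
  rw [e1, e2, map_mul, map_sum, RingEquiv.apply_symm_apply]
  congr 1
  refine Finset.sum_congr rfl fun k _ => ?_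
  rw [map_mul, RingEquiv.apply_symm_apply]

end Pool.Agent.Lib.MPf11a48.CG
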