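import Pool.Agent.Lib.MP_f11a48_ag.GF.Fin
import Pool.Agent.Lib.MP_f11a48_ag.GF.Bnd
import Pool.Agent.Lib.MP_f11a48_ag.GF.Solv
import Pool.Agent.Lib.MP_f11a48_ag.GF.Sieg
import Pool.Agent.Lib.MP_f11a48_ag.GF.Bdd
import Pool.Agent.Lib.MP_f11a48_ag.GF.Shid
import Pool.Agent.Lib.MP_f11a48_ag.GF.Zero
import Pool.Agent.Lib.MP_f11a48_ag.GF.Eval
import Pool.Agent.Lib.MP_f11a48_ag.GF.Rem
import Pool.Agent.Lib.MP_f11a48_ag.GF.Est
import Pool.Agent.Lib.MP_f11a48_ag.CF.Lift
import Pool.Agent.Lib.MP_f11a48_ag.CG.AlgJ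
import Pool.Agent.Lib.MP_f11a48_ag.CG.Bas
import Pool.Agent.Lib.MP_f11a48_ag.CG.Blk
import Pool.Agent.Lib.MP_f11a48_ag.CG.Bnm
import Pool.Agent.Lib.MP_f11a48_ag.CG.Bss
import Pool.Agent.Lib.MP_f11a48_ag.CG.Cnt
import Pool.Agent.Lib.MP_f11a48_ag.CG.Cod
import Pool.Agent.Lib.MP_f11a48_ag.CG.Codt
import Pool.Agent.Lib.MP_f11a48_ag.CG.Conn
import Pool.Agent.Lib.MP_f11a48_ag.CG.Core
import Pool.Agent.Lib.MP_f11a48_ag.CG.Ddf
import Pool.Agent.Lib.MP_f11a48_ag.CG.Deg
import Pool.Agent.Lib.MP_f11a48_ag.CG.Dex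
import Pool.Agent.Lib.MP_f11a48_ag.CG.Dt
import Pool.Agent.Lib.MP_f11a48_ag.CG.End
import Pool.Agent.Lib.MP_f11a48_ag.CG.Exc
import Pool.Agent.Lib.MP_f11a48_ag.CG.Exq
import Pool.Agent.Lib.MP_f11a48_ag.CG.Fewn
import Pool.Agent.Lib.MP_f11a48_ag.CG.Fg
import Pool.Agent.Lib.MP_f11a48_ag.CG.Fix
import Pool.Agent.Lib.MP_f11a48_ag.CG.Galq
import Pool.Agent.Lib.MP_f11a48_ag.CG.Galx
import Pool.Agent.Lib.MP_f11a48_ag.CG.Galy
import Pool.Agent.Lib.MP_f11a48_ag.CG.Gau
import Pool.Agent.Lib.MP_f11a48_ag.CG.Gt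
import Pool.Agent.Lib.MP_f11a48_ag.CG.Inv
import Pool.Agent.Lib.MP_f11a48_ag.CG.Ker
import Pool.Agent.Lib.MP_f11a48_ag.CG.Kil
import Pool.Agent.Lib.MP_f11a48_ag.CG.Lfx
import Pool.Agent.Lib.MP_f11a48_ag.CG.Lies
import Pool.Agent.Lib.MP_f11a48_ag.CG.MainJ
import Pool.Agent.Lib.MP_f11a48_ag.CG.MainP
import Pool.Agent.Lib.MP_f11a48_ag.CG.Monod
import Pool.Agent.Lib.MP_f11a48_ag.CG.Norm
import Pool.Agent.Lib.MP_f11a48_ag.CG.Normt
import Pool.Agent.Lib.MP_f11a48_ag.CG.Nrm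
import Pool.Agent.Lib.MP_f11a48_ag.CG.Ord
import Pool.Agent.Lib.MP_f11a48_ag.CG.Plf
import Pool.Agent.Lib.MP_f11a48_ag.CG.Plk
import Pool.Agent.Lib.MP_f11a48_ag.CG.Pnm
import Pool.Agent.Lib.MP_f11a48_ag.CG.Rel
import Pool.Agent.Lib.MP_f11a48_ag.CG.Relt
import Pool.Agent.Lib.MP_f11a48_ag.CG.St
import Pool.Agent.Lib.MP_f11a48_ag.CG.St2
import Pool.Agent.Lib.MP_f11a48_ag.CG.Stt
import Pool.Agent.Lib.MP_f11a48_ag.CG.Ten
import Pool.Agent.Lib.MP_f11a48_ag.CG.Tor
import Pool.Agent.Lib.MP_f11a48_ag.CG.Tr1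
import Pool.Agent.Lib.MP_f11a48_ag.CG.Trf
import Pool.Agent.Lib.MP_f11a48_ag.CG.Trq
import Pool.Agent.Lib.MP_f11a48_ag.CG.UltJ
import Pool.Agent.Lib.MP_f11a48_ag.CG.Uni
import Pool.Agent.Lib.MP_f11a48_ag.CG.Val
import Pool.Agent.Lib.MP_f11a48_ag.CG.Ydd
import Pool.Agent.Lib.MP_f11a48_ag.CG.Zar

/-!
# The theorems, from the modules
-/

set_option autoImplicit false

namespace Pool.Agent.Lib.MPf11a48.CG

open Pool.Agent.Lib.MPf11a48.GF

theorem aConn : SpecConn := specConn specFix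
theorem aKil : SpecKil := specKil aConn
theorem aInv : SpecInv := specInv specDt aKil specAdj specTen specBas
theorem aFg : SpecFg := specFg specEnd specUni specOrd
theorem aGt : SpecGt := specGt aKil specFix aConn specBas specAdj aInv aFg
theorem aMonoD : SpecMonoD :=
  specMonoD (CF.specLift
    (specEst specBnd specSieg (specShid specBdd specSolv) (specZero specSolv) specSolv
      specEval specRem) specSolv specEval)
theorem aRel : SpecRel := specRel aMonoD
theorem aSt : SpecSt := specSt specCore (specKer specDt aKil aConn)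
theorem aSt2 : SpecSt2 := specSt2 specCnt (specCod specDt aKil aConn) specExq
theorem aGalx : SpecGalx := specGalx specDdf specBnm (specGaly specBnm specYdd specGau)
theorem aPnm : SpecPnm := specPnm specBnm
theorem aTrq : SpecTrq := specTrq specTrf aPnm
theorem aVal : SpecVal := specVal specTrf aPnm
theorem aRelt : SpecRelt :=
  specRelt aMonoD (specGalq specDdf specBnm specYdd specGau) aTrq specBlk
theorem aLfx : SpecLfx := specLfx specDt aKil aConn
theorem aStt : SpecStt := specStt specCnt specExq (specCodt specDt) aLfx specPlk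
theorem aUltJ : SpecUltJ := specUltJ (specAlgJ specDex)

/-- one family, Galochkin's condition -/
theorem statement : Statement :=
  main aRel specTor specDeg specNorm specNrm aGt specLies aSt aSt2

/-- one family -/
theorem statementP : StatementP := mainP statement aGalx

/-- all but `s` fibres -/
theorem statementA : StatementA :=
  mainA aTrq aRelt specNormt aVal specTor specDeg specNrm aGt specLies aStt specFewn statementP

/-- all sums of all but `s` fibres -/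
theorem statementJ : StatementJ :=
  mainJ aRelt specNormt aVal specTor specDeg specNrm aGt specLies aUltJ (specExc specBas aConn)
    (specPlf specPlk aLfx specDt) specZar specBss specTr1 statementA

end Pool.Agent.Lib.MPf11a48.CG
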