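import Pool.Agent.Lib.MP_f11a48_ag.CG.SpecA
import Pool.Agent.Lib.MP_f11a48_ag.CG.MainP

/-!
# Almost all fibres of a family: the theorem, from the Specs
-/

set_option autoImplicit false
set_option linter.unusedSectionVars false

namespace Pool.Agent.Lib.MPf11a48.CG.MainAM

open Polynomial Matrix
open scoped PowerSeries
open Pool.Agent.Lib.MPf11a48.Tors
open Pool.Agent.Lib.MPf11a48.CM hiding OmegaM
open Pool.Agent.Lib.MPf11a48.GL2 (lie van en Geo glmul glinv glinv' closedOver_mono geo_of_torsor)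
open Pool.Agent.Lib.MPf11a48.GL2T
open Pool.Agent.Lib.MPf11a48.GF Pool.Agent.Lib.MPf11a48.GF.EstM
open Pool.Agent.Lib.MPf11a48.CF (vm ta pl)
open Pool.Agent.Lib.MPf11a48.K3 (cx)
open Pool.Agent.Lib.MPf11a48.K3.KCurM (gl)

variable {ι : Type} [Fintype ι] [DecidableEq ι]

/-- a field which contains given fields and numbers of bounded degree -/
theorem exists_field (hDeg : SpecDeg) (σ r e δ : ℕ) (K : Fin σ → IntermediateField ℚ ℂ)
    (hK : ∀ a, FiniteDimensional ℚ (K a)) (hKδ : ∀ a, Module.finrank ℚ (K a) ≤ δ)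
    (x : Fin σ → Fin r → ℂ)
    (hx : ∀ a i, ∃ p : ℚ[X], p ≠ 0 ∧ p.natDegree ≤ e ∧ aeval (x a i) p = 0) :
    ∃ L : IntermediateField ℚ ℂ, (∀ a, K a ≤ L) ∧ FiniteDimensional ℚ L ∧ (∀ a i, x a i ∈ L) ∧
      Module.finrank ℚ L ≤ (max δ e) ^ (σ * (r + 1)) := by
  have hprim : ∀ a, ∃ α : K a, IntermediateField.adjoin ℚ {α} = ⊤ := fun a =>
    haveI := hK a
    Field.exists_primitive_element ℚ (K a)
  choose α hα using hprim
  let ε := (finProdFinEquiv (m := σ) (n := r + 1))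
  let z₀ : Fin σ × Fin (r + 1) → ℂ := fun q =>
    Fin.cases (motive := fun _ => ℂ) ((α q.1 : K q.1) : ℂ) (fun j => x q.1 j) q.2
  let z : Fin (σ * (r + 1)) → ℂ := fun i => z₀ (ε.symm i)
  have hz : ∀ q, z (ε q) = z₀ q := fun q => congrArg z₀ (ε.symm_apply_apply q)
  have hz0 : ∀ a, z (ε (a, 0)) = (α a : ℂ) := fun a => (hz _).trans rfl
  have hz1 : ∀ a j, z (ε (a, Fin.succ j)) = x a j := fun a j => (hz _).trans rfl
  have hzz : ∀ a (j : Fin (r + 1)), ∃ p : ℚ[X], p ≠ 0 ∧ p.natDegree ≤ max δ e ∧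
      aeval (z (ε (a, j))) p = 0 := by
    intro a j
    refine Fin.cases ?_ (fun j => ?_) j
    · rw [hz0]
      have := hK a
      have h1 : IsIntegral ℚ (α a) := IsIntegral.of_finite ℚ _
      refine ⟨minpoly ℚ (α a), minpoly.ne_zero h1, ?_, ?_⟩
      · exact (minpoly.natDegree_le _).trans ((hKδ a).trans (le_max_left _ _))
      · have h2 := minpoly.aeval ℚ (α a)
        have h3 := congrArg (algebraMap (K a) ℂ) h2
        rw [← Polynomial.aeval_algebraMap_apply, map_zero] at h3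
        exact h3
    · rw [hz1]
      obtain ⟨p, h1, h2, h3⟩ := hx a j
      exact ⟨p, h1, h2.trans (le_max_right _ _), h3⟩
  obtain ⟨L, -, hLf, hL, hLd⟩ := hDeg (σ * (r + 1)) (max δ e) ⊥ inferInstance z (fun i => by
    have h := hzz (ε.symm i).1 (ε.symm i).2
    rw [Prod.mk.eta, Equiv.apply_symm_apply] at h
    exact h)
  refine ⟨L, ?_, hLf, ?_, ?_⟩
  · intro a y hy
    have h1 : (⟨y, hy⟩ : K a) ∈ IntermediateField.adjoin ℚ {α a} := by
      rw [hα a]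
      trivial
    have := hK a
    have h2 : IsAlgebraic ℚ (α a) := (IsIntegral.of_finite ℚ (α a)).isAlgebraic
    rw [← IntermediateField.mem_toSubalgebra,
      IntermediateField.adjoin_simple_toSubalgebra_of_isAlgebraic h2,
      Algebra.adjoin_singleton_eq_range_aeval] at h1
    obtain ⟨p, hp⟩ := h1
    have h3 : y = aeval ((α a : K a) : ℂ) p := by
      have h4 : algebraMap (K a) ℂ (aeval (α a) p) = algebraMap (K a) ℂ ⟨y, hy⟩ :=
        congrArg (algebraMap (K a) ℂ) hp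
      rw [← Polynomial.aeval_algebraMap_apply] at h4
      exact h4.symm
    rw [h3]
    have h5 : ((α a : K a) : ℂ) ∈ L := by
      rw [← hz0]
      exact hL _
    have h6 : aeval ((α a : K a) : ℂ) p = algebraMap L ℂ (aeval (⟨_, h5⟩ : L) p) := by
      rw [← Polynomial.aeval_algebraMap_apply]
      rfl
    rw [h6]
    exact (aeval (⟨_, h5⟩ : L) p).2
  · intro a j
    rw [← hz1]
    exact hL _
  · refine hLd.trans ?_
    rw [IntermediateField.finrank_bot, one_mul]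

/-- the condition on `a / b` for the translates -/
theorem shift {C C' m : ℕ} (h : C' + m + 1 ≤ C) {a b : ℤ} (ha : a ≠ 0) (hb : (C : ℤ) * |a| ^ C ≤ b) :
    (C' : ℤ) * |a| ^ C' ≤ b + m * a := by
  have ha1 : (1 : ℤ) ≤ |a| := Int.one_le_abs ha
  have h1 : |a| ^ C' ≤ |a| ^ C := pow_le_pow_right₀ ha1 (by omega)
  have h2 : |a| ≤ |a| ^ C := by
    calc |a| = |a| ^ 1 := (pow_one _).symm
      _ ≤ |a| ^ C := pow_le_pow_right₀ ha1 (by omega)
  have h3 : -|a| ≤ a := neg_abs_le a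
  have h4 : ((C' + m : ℕ) : ℤ) * |a| ^ C ≤ (C : ℤ) * |a| ^ C := by
    refine mul_le_mul_of_nonneg_right ?_ (by positivity)
    exact_mod_cast (by omega : C' + m ≤ C)
  push_cast at h4
  have h5 : (C' : ℤ) * |a| ^ C' ≤ (C' : ℤ) * |a| ^ C := mul_le_mul_of_nonneg_left h1 (by positivity)
  have h6 : (m : ℤ) * (-a) ≤ (m : ℤ) * |a| ^ C :=
    mul_le_mul_of_nonneg_left (by linarith) (by positivity)
  nlinarith

/-- the values of the entries, if the determinant is `0` -/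
theorem no_c {Y : Matrix ι ι ℚ⟦X⟧} (hE : SpecEval) (hg : IsG fun v : ι × ι => Y v.1 v.2)
    (hY : Y.det = 0) : ∃ C : ℕ, ∀ a b : ℤ, a ≠ 0 → (C : ℤ) * |a| ^ C ≤ b →
      (vm Y ((a : ℂ) / b)).det = 0 := by
  obtain ⟨C, hC⟩ := hg
  refine ⟨2 * C + 1, fun a b ha hb => ?_⟩
  have hs := CF.PolM.smallC (by omega) ha hb
  have hsm : ∀ i j, Sm (Y i j) ((a : ℂ) / b) := by
    intro i j
    refine hE.1 _ C _ (fun n => ?_) ?_
    · obtain ⟨q, -, -, -, hq⟩ := hC n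
      exact hq (i, j)
    · refine le_trans (mul_le_mul_of_nonneg_right ?_ (norm_nonneg _)) hs
      push_cast
      linarith
  rw [← MainPM.pval_det hsm, hY]
  unfold pval
  simp

/-- the Lie algebra of a group of isometries, over `ℚ` -/
theorem form_lie {G₀ : Subgroup (GL ι ℂ)} {ψ₀ N : Matrix ι ι ℚ}
    (hiso : ∀ g ∈ G₀, g.1ᵀ * cx ψ₀ * g.1 = cx ψ₀) (hN : cx N ∈ lie (G₀ : Set (GL ι ℂ))) :
    Nᵀ * ψ₀ + ψ₀ * N = 0 := by
  have h := MainM.lie_iso hiso hN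
  refine Matrix.ext fun i j => ?_
  have h1 := congrFun (congrFun h i) j
  have h2 : (((Nᵀ * ψ₀ + ψ₀ * N) i j : ℚ) : ℂ) = ((cx N)ᵀ * cx ψ₀ + cx ψ₀ * cx N) i j := by
    simp only [Matrix.add_apply, Matrix.mul_apply, Matrix.transpose_apply, Rat.cast_add,
      Rat.cast_sum, Rat.cast_mul]
    rfl
  rw [h1, Matrix.zero_apply] at h2
  rw [Matrix.zero_apply]
  exact_mod_cast h2

/-- the case of finitely many periods -/
theorem few (hRelt : SpecRelt) (hNormt : SpecNormt) (hVal : SpecVal) (hTor : SpecTor)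
    (hDeg : SpecDeg) (hNrm : SpecNrm) (hGt : SpecGt) (hLies : SpecLies) (hStt : SpecStt)
    {T : ℤ[X]} {B : Matrix ι ι ℤ[X]} {Y : Matrix ι ι ℚ⟦X⟧} {G G₀ : Subgroup (GL ι ℂ)}
    {ψ₀ ψ N : Matrix ι ι ℚ} {C₀ : GL ι ℂ} (w : ℤ) (δ s : ℕ) (hG : IsSS G)
    (hiso : ∀ g ∈ G, g.1ᵀ * cx ψ * g.1 = cx ψ) (hd : ψ.det ≠ 0)
    (hG₀ : ClosedOver ⊥ (G₀ : Set (GL ι ℂ))) (hGG : ∀ g, g ∈ G₀ ↔ C₀ * g * C₀⁻¹ ∈ G)
    (hF : FamT T B N ψ₀ Y G₀)
    (hC₀ : C₀.1ᵀ * cx ψ * C₀.1 = (2 * Real.pi * Complex.I) ^ w • cx ψ₀)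
    (hN : IsNilpotent N) (hN₀ : cx N ∈ lie (G₀ : Set (GL ι ℂ))) (hFew : FewS G C₀.1 N s) (k : ℕ) :
    ∃ C : ℕ, ∀ a b : ℤ, a ≠ 0 → (C : ℤ) * |a| ^ C ≤ b →
      {m : ℕ | m < k ∧ ¬ Good G ψ N Y C₀.1 w δ ((a : ℂ) / (b + m * a))}.ncard ≤ s := by
  classical
  have h2pi : (2 * Real.pi * Complex.I : ℂ) ≠ 0 := Complex.two_pi_I_ne_zero
  have hϖ : (2 * Real.pi * Complex.I : ℂ) ^ w ≠ 0 := zpow_ne_zero _ h2pi
  have hd₀ : ψ₀.det ≠ 0 := MainPM.det_ne hC₀ hd
  have hcast : ∀ (a b : ℤ) (m : ℕ), ((a : ℂ) / ((b + m * a : ℤ) : ℂ)) = (a : ℂ) / (b + m * a) := by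
    intro a b m
    push_cast
    rfl
  -- the form
  have hiso₀ : ∀ g ∈ G₀, g.1ᵀ * cx ψ₀ * g.1 = cx ψ₀ := by
    intro g hg
    have h1 := hiso _ ((hGG g).1 hg)
    have e1 : C₀.1 * g.1 = (C₀ * g * C₀⁻¹).1 * C₀.1 := by
      have : C₀ * g = C₀ * g * C₀⁻¹ * C₀ := by group
      exact congrArg Units.val this
    have h2 : (C₀.1 * g.1)ᵀ * cx ψ * (C₀.1 * g.1) = C₀.1ᵀ * cx ψ * C₀.1 := by
      rw [e1]
      generalize (C₀ * g * C₀⁻¹).1 = A at h1 ⊢
      calc (A * C₀.1)ᵀ * cx ψ * (A * C₀.1) = C₀.1ᵀ * (Aᵀ * cx ψ * A) * C₀.1 := by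
            rw [Matrix.transpose_mul]
            simp only [Matrix.mul_assoc]
        _ = _ := by rw [h1]
    have h3 : (C₀.1 * g.1)ᵀ * cx ψ * (C₀.1 * g.1) = g.1ᵀ * (C₀.1ᵀ * cx ψ * C₀.1) * g.1 := by
      rw [Matrix.transpose_mul]
      simp only [Matrix.mul_assoc]
    rw [h3, hC₀, Matrix.mul_smul, Matrix.smul_mul] at h2
    exact smul_right_injective _ hϖ h2
  have hNψ : Nᵀ * ψ₀ + ψ₀ * N = 0 := form_lie hiso₀ hN₀
  by_cases hY : Y.det = 0
  · obtain ⟨C, hC⟩ := no_c specEval hF.g hY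
    refine ⟨C + k + 1, fun a b ha hb => ?_⟩
    have hemp : {m : ℕ | m < k ∧ ¬ Good G ψ N Y C₀.1 w δ ((a : ℂ) / (b + m * a))} = ∅ := by
      refine Set.eq_empty_of_forall_notMem ?_
      rintro m ⟨hmk, hm⟩
      apply hm
      intro K hK hKδ R c hc
      exfalso
      have h1 := hC a (b + m * a) ha (shift (by omega) ha hb)
      rw [hcast] at h1
      apply CF.MainM.det_unit c
      rw [hc, det_mul, det_mul, h1, mul_zero, zero_mul]
    rw [hemp, Set.ncard_empty]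
    exact Nat.zero_le _
  obtain ⟨D, hD⟩ := hGt ι
  obtain ⟨n, hn⟩ := hStt ι C₀ N G G₀ s hG hG₀ hGG hN hN₀ hFew D
  obtain ⟨r, p, hsep, halg⟩ := hF.tor
  choose e Ct hCt using fun x => hTor ι Y hF.g (p x) (halg x)
  set E : ℕ := ∑ x, e x with hE
  obtain ⟨N₁, hN₁⟩ := hNormt ι (Fin (s + 1)) G₀ r p n ((max δ E) ^ ((s + 1) * (r + 1))) hG₀
    (MainM.irred_conj hG hGG) hsep
  choose Cv hCv using fun m : ℕ => hVal ι N Y m hN hF.g
  have hr : ∀ m : Fin (s + 1) → Fin k, ∃ C : ℕ, Function.Injective m → ∀ a b : ℤ, a ≠ 0 →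
      (C : ℤ) * |a| ^ C ≤ b →
      HasRelT ℚ N₁ (fun x => vm (trm (m x) N Y) ((a : ℂ) / b)) G₀ := by
    intro m
    by_cases hm : Function.Injective m
    · obtain ⟨C, hC⟩ := hRelt ι T B N ψ₀ Y G₀ hF hN hd₀ hY hNψ (s + 1) (fun x => (m x : ℕ))
        (fun x y h => hm (Fin.ext h)) N₁
      exact ⟨C, fun _ => hC⟩
    · exact ⟨0, fun h => absurd h hm⟩
  choose Cr hCr using hr
  refine ⟨(∑ m, Cr m) + (∑ x, Ct x) + (∑ m ∈ Finset.range k, Cv m) + k + 1, ?_⟩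
  set C := (∑ m, Cr m) + (∑ x, Ct x) + (∑ m ∈ Finset.range k, Cv m) + k + 1 with hCdef
  intro a b ha hb
  by_contra hcon
  push Not at hcon
  -- `s + 1` exceptional fibres
  set S : Set ℕ := {m : ℕ | m < k ∧ ¬ Good G ψ N Y C₀.1 w δ ((a : ℂ) / (b + m * a))} with hS
  have hSf : S.Finite := (Set.finite_lt_nat k).subset fun m hm => hm.1
  rw [Set.ncard_eq_toFinset_card S hSf] at hcon
  obtain ⟨t, htS, htc⟩ := Finset.exists_subset_card_eq (show s + 1 ≤ hSf.toFinset.card from hcon)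
  let m : Fin (s + 1) → ℕ := fun x => t.orderEmbOfFin htc x
  have hmS : ∀ x, m x < k ∧ ¬ Good G ψ N Y C₀.1 w δ ((a : ℂ) / (b + m x * a)) := fun x =>
    hSf.mem_toFinset.1 (htS (Finset.orderEmbOfFin_mem t htc x))
  have hminj : Function.Injective m := (t.orderEmbOfFin htc).injective
  have hbad : ∀ x, ∃ (K : IntermediateField ℚ ℂ) (R : Matrix ι ι K) (c : GL ι ℂ),
      FiniteDimensional ℚ K ∧ Module.finrank ℚ K ≤ δ ∧
      c.1 = C₀.1 * NormedSpace.exp (Complex.log ((a : ℂ) / (b + m x * a)) • cx N) *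
        vm Y ((a : ℂ) / (b + m x * a)) * R.map (fun x => (x : ℂ)) ∧
      ∃ g ∈ G, g * c ∉ Tors.OmegaM K c := by
    intro x
    by_contra hno
    apply (hmS x).2
    intro K hK hKδ R c hc
    have h1 : ∀ g ∈ G, g * c ∈ Tors.OmegaM K c := by
      intro g hg
      by_contra h2
      exact hno ⟨K, R, c, hK, hKδ, hc, g, hg, h2⟩
    refine ⟨h1, ?_⟩
    intro ψdR S hw hpol hS hPS hO
    exact MainM.part2 hLies (CF.MainM.le_Qbar K) hG hiso h1 ψdR S hw hpol hS hPS hO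
  choose K R c hKf hKδ hc g hgG hgc using hbad
  -- the torsors
  have hT : ∀ x, ∃ T : Set (GL ι ℂ), IsTorsor (K x) T ∧ c x ∈ T ∧ g x * c x ∉ T := by
    intro x
    by_contra hno
    apply hgc x
    intro T' hT' hcT'
    by_contra h2
    exact hno ⟨T', hT', hcT', h2⟩
  choose T₁ hT₁ hcT₁ hgT₁ using hT
  -- the invertible matrices
  have hmk : ∀ x, m x < k := fun x => (hmS x).1
  have hv : ∀ x, Cv (m x) ≤ ∑ m ∈ Finset.range k, Cv m := fun x =>
    Finset.single_le_sum (f := Cv) (fun _ _ => Nat.zero_le _) (Finset.mem_range.2 (hmk x))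
  have hval := fun x => hCv (m x) a b ha (CF.PolM.mono (by have := hv x; omega) ha hb)
  have hdet : ∀ x, (vm Y ((a : ℂ) / (b + m x * a))).det ≠ 0 ∧
      ((R x).map (fun x => (x : ℂ))).det ≠ 0 := by
    intro x
    have h1 := CF.MainM.det_unit (c x)
    rw [hc x, det_mul, det_mul] at h1
    exact ⟨right_ne_zero_of_mul (left_ne_zero_of_mul h1), right_ne_zero_of_mul h1⟩
  have hy' : ∀ x, ∃ y : GL ι ℂ, y.1 = vm Y ((a : ℂ) / (b + m x * a)) := fun x =>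
    ⟨Matrix.GeneralLinearGroup.mkOfDetNeZero _ (hdet x).1, rfl⟩
  have hR' : ∀ x, ∃ R' : GL ι ℂ, R'.1 = (R x).map (fun x => (x : ℂ)) := fun x =>
    ⟨Matrix.GeneralLinearGroup.mkOfDetNeZero _ (hdet x).2, rfl⟩
  choose y' hy' using hy'
  choose R' hR' using hR'
  set u : Fin (s + 1) → GL ι ℂ := fun x =>
    gl (cx N) (-(Complex.log (1 + m x * ((a : ℂ) / b)))) with hu
  have huG : ∀ x, u x ∈ G₀ := fun x => MainM.gl_mem hG₀ hN₀ _
  set y : Fin (s + 1) → GL ι ℂ := fun x => u x * y' x with hy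
  have hyv : ∀ x, (y x).1 = vm (trm (m x) N Y) ((a : ℂ) / b) := by
    intro x
    rw [(hval x).2, ← hy' x]
    rfl
  set C₁ : GL ι ℂ := C₀ * gl (cx N) (Complex.log ((a : ℂ) / b)) with hC₁
  have hcx : ∀ x, c x = C₁ * y x * R' x := by
    intro x
    refine Units.ext ?_
    rw [hc x, Matrix.mul_assoc C₀.1, (hval x).1, ← hyv x, ← hR' x, hC₁]
    simp only [Units.val_mul, Matrix.mul_assoc]
    rfl
  have hlog := MainM.gl_mem hG₀ hN₀ (Complex.log ((a : ℂ) / b))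
  have hGG₁ : ∀ g, g ∈ G₀ ↔ C₁ * g * C₁⁻¹ ∈ G := by
    intro g
    have e1 : C₁ * g * C₁⁻¹ = C₀ * (gl (cx N) (Complex.log ((a : ℂ) / b)) * g *
        (gl (cx N) (Complex.log ((a : ℂ) / b)))⁻¹) * C₀⁻¹ := by
      rw [hC₁]
      group
    rw [e1, ← hGG]
    constructor
    · intro hg
      exact G₀.mul_mem (G₀.mul_mem hlog hg) (G₀.inv_mem hlog)
    · intro hg
      have h1 := G₀.mul_mem (G₀.mul_mem (G₀.inv_mem hlog) hg) hlog
      have e2 : (gl (cx N) (Complex.log ((a : ℂ) / b)))⁻¹ *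
          (gl (cx N) (Complex.log ((a : ℂ) / b)) * g *
            (gl (cx N) (Complex.log ((a : ℂ) / b)))⁻¹) *
          gl (cx N) (Complex.log ((a : ℂ) / b)) = g := by group
      rwa [e2] at h1
  have hC₁ψ : C₁.1ᵀ * cx ψ * C₁.1 = (2 * Real.pi * Complex.I) ^ w • cx ψ₀ := by
    have h1 := hiso _ ((hGG _).1 hlog)
    have e1 : C₁.1 = (C₀ * gl (cx N) (Complex.log ((a : ℂ) / b)) * C₀⁻¹).1 * C₀.1 := by
      have : C₁ = C₀ * gl (cx N) (Complex.log ((a : ℂ) / b)) * C₀⁻¹ * C₀ := by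
        rw [hC₁]
        group
      exact congrArg Units.val this
    rw [e1, ← hC₀]
    generalize (C₀ * gl (cx N) (Complex.log ((a : ℂ) / b)) * C₀⁻¹).1 = A at h1 ⊢
    calc (A * C₀.1)ᵀ * cx ψ * (A * C₀.1) = C₀.1ᵀ * (Aᵀ * cx ψ * A) * C₀.1 := by
          rw [Matrix.transpose_mul]
          simp only [Matrix.mul_assoc]
      _ = _ := by rw [h1]
  -- the invariants
  have hpy : ∀ x j, MvPolynomial.aeval (en (y x).1) (p j) =
      MvPolynomial.aeval (en (y' x).1) (p j) := by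
    intro x j
    refine (hsep (y' x) (y x)).1 ?_ j
    have h1 : y x * (y' x)⁻¹ = u x := by
      rw [hy]
      simp only
      group
    rw [h1]
    exact huG x
  have halgv : ∀ x j, ∃ q : ℚ[X], q ≠ 0 ∧ q.natDegree ≤ E ∧
      aeval (MvPolynomial.aeval (en (y x).1) (p j)) q = 0 := by
    intro x j
    have h1 : Ct j ≤ ∑ x, Ct x :=
      Finset.single_le_sum (f := Ct) (fun _ _ => Nat.zero_le _) (Finset.mem_univ j)
    obtain ⟨q, hq, hq2, hq3⟩ := hCt j a (b + m x * a) ha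
      (shift (by have := hmk x; omega) ha hb)
    rw [hcast, ← hy' x] at hq3
    have h2 : e j ≤ E := Finset.single_le_sum (f := e) (fun _ _ => Nat.zero_le _) (Finset.mem_univ j)
    refine ⟨q, hq, hq2.trans h2, ?_⟩
    rw [hpy]
    exact hq3
  -- the field
  obtain ⟨L, hKL, hLf, hxL, hLd⟩ := exists_field hDeg (s + 1) r E δ K hKf hKδ
    (fun x j => MvPolynomial.aeval (en (y x).1) (p j)) halgv
  have hLQ : L ≤ Qbar := CF.MainM.le_Qbar L
  have hRL : ∀ x i j, (R' x).1 i j ∈ L := by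
    intro x i j
    rw [hR']
    exact hKL x (R x i j).2
  have hyτ : ∀ x, ∀ τ, FixesField L τ → tw τ (y x) * (y x)⁻¹ ∈ G₀ := by
    intro x τ hτ
    refine (hsep (y x) (tw τ (y x))).2 fun j => ?_
    have h1 := MainM.aeval_fix τ (p j) (y x)
    have h2 : τ (MvPolynomial.aeval (en (y x).1) (p j)) = MvPolynomial.aeval (en (y x).1) (p j) :=
      hτ _ (hxL x j)
    rw [h2] at h1
    exact h1
  -- the relations
  have hrel : HasRelT L n (fun x => (y x).1) G₀ := by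
    refine hN₁ y L hLf hLd hxL ?_
    have h1 := hCr (fun x => ⟨m x, hmk x⟩) (fun x x' h => hminj (congrArg Fin.val h)) a b ha
      (CF.PolM.mono (by
        have h2 : Cr (fun x => ⟨m x, hmk x⟩) ≤ ∑ m, Cr m :=
          Finset.single_le_sum (f := Cr) (fun _ _ => Nat.zero_le _) (Finset.mem_univ _)
        omega) ha hb)
    have h3 : (fun x => (y x).1) = fun x => vm (trm (m x) N Y) ((a : ℂ) / b) := funext hyv
    rw [h3]
    exact h1
  -- the torsors over `L`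
  have hT' : ∀ x, ∃ T', IsTorsor L T' ∧ C₁ * y x * R' x ∈ T' ∧ ¬ Stab L (grp T') G D := by
    intro x
    by_contra hno
    apply hgT₁ x
    have hcx' := hcT₁ x
    rw [hcx x] at hcx' ⊢
    refine MainM.fibre hNrm hD (hKL x) hLQ hd hϖ hG hiso hG₀ hGG₁ hC₁ψ (hyτ x) (hRL x) ?_ (hT₁ x)
      hcx' (g x) (hgG x)
    intro T' hT'1 hT'2
    by_contra hst
    exact hno ⟨T', hT'1, hT'2, hst⟩
  choose T' hT'1 hT'2 hT'3 using hT'
  obtain ⟨x, hx⟩ := hn (Complex.log ((a : ℂ) / b)) L hLf y hrel R' T' hRL hT'1 hT'2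
  exact hT'3 x hx

end Pool.Agent.Lib.MPf11a48.CG.MainAM

namespace Pool.Agent.Lib.MPf11a48.CG

open Polynomial Matrix
open scoped PowerSeries
open Pool.Agent.Lib.MPf11a48.Tors
open Pool.Agent.Lib.MPf11a48.GF
open Pool.Agent.Lib.MPf11a48.GL2 (lie van en Geo)
open Pool.Agent.Lib.MPf11a48.K3 (cx)

/-- the hypotheses of the theorem on one fibre -/
theorem FamT.famP (hTrq : SpecTrq) {ι : Type} [Fintype ι] [DecidableEq ι] {T : ℤ[X]}
    {B : Matrix ι ι ℤ[X]} {N ψ₀ : Matrix ι ι ℚ} {Y : Matrix ι ι ℚ⟦X⟧} {G₀ : Subgroup (GL ι ℂ)}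
    (hF : FamT T B N ψ₀ Y G₀) (hNψ : Nᵀ * ψ₀ + ψ₀ * N = 0) (hN : IsNilpotent N) :
    FamP T B N ψ₀ Y G₀ where
  ne := hF.ne
  sol := hF.sol
  g := hF.g
  pol := hF.pol
  mon := by
    intro F hFY g hg
    have h0 : trm 0 N Y = Y := (hTrq ι T B N ψ₀ Y 0 ⟨hF.ne, hF.sol, hF.g, hF.pol⟩ hNψ hN).2.2
    have h1 := hF.mon 1 (fun _ => 0) (fun x y _ => Subsingleton.elim x y)
      (MvPolynomial.rename (fun p : ι × ι => ((0 : Fin 1), p.1, p.2)) F)
      (by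
        rw [h0]
        unfold peval at hFY ⊢
        rw [MvPolynomial.eval₂_rename]
        exact hFY) (fun _ => g) (fun _ => hg)
    rw [h0] at h1
    unfold pevalC at h1 ⊢
    rw [MvPolynomial.eval₂_rename] at h1
    exact h1
  tor := hF.tor

/-- Theorem A, from the Specs -/
theorem mainA (hTrq : SpecTrq) (hRelt : SpecRelt) (hNormt : SpecNormt) (hVal : SpecVal)
    (hTor : SpecTor) (hDeg : SpecDeg) (hNrm : SpecNrm) (hGt : SpecGt) (hLies : SpecLies)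
    (hStt : SpecStt) (hFewn : SpecFewn) (hP : StatementP) : StatementA := by
  intro ι _ _ T B Y G G₀ ψ₀ ψ N C₀ w δ s hG hiso hd hG₀ hGG hF hC₀ hN hN₀ h k
  rcases h with h | h | h
  · exact MainAM.few hRelt hNormt hVal hTor hDeg hNrm hGt hLies hStt w δ s hG hiso hd hG₀ hGG hF hC₀
      hN hN₀ (hFewn ι C₀ N G s h) k
  · exact MainAM.few hRelt hNormt hVal hTor hDeg hNrm hGt hLies hStt w δ s hG hiso hd hG₀ hGG hF hC₀
      hN hN₀ h k
  · have hNψ : Nᵀ * ψ₀ + ψ₀ * N = 0 := by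
      rw [h.1, Matrix.transpose_zero, Matrix.zero_mul, Matrix.mul_zero, add_zero]
    obtain ⟨C, hC⟩ := hP ι T B Y G G₀ ψ₀ ψ N C₀ w δ hG hiso hd hG₀ hGG (hF.famP hTrq hNψ hN) hC₀ hN
      hN₀ (Or.inr h)
    refine ⟨C + k + 1, fun a b ha hb => ?_⟩
    have hemp : {m : ℕ | m < k ∧ ¬ Good G ψ N Y C₀.1 w δ ((a : ℂ) / (b + m * a))} = ∅ := by
      refine Set.eq_empty_of_forall_notMem ?_
      rintro m ⟨hmk, hm⟩
      apply hm
      intro K hK hKδ R c hc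
      have h1 := hC a (b + m * a) ha (MainAM.shift (by omega) ha hb) K hK hKδ R c
      refine h1 ?_
      rw [hc]
      push_cast
      rfl
    rw [hemp, Set.ncard_empty]
    exact Nat.zero_le _

end Pool.Agent.Lib.MPf11a48.CG
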