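import Pool.Agent.Lib.MP_f11a48_ag.CG.SpecJ
import Pool.Agent.Lib.MP_f11a48_ag.CG.MainA
import Pool.Agent.Lib.MP_f11a48_ag.CG.St2

/-!
# Sums of fibres of a family: block diagonal matrices and polynomials
-/

set_option autoImplicit false
set_option linter.unusedSectionVars false

namespace Pool.Agent.Lib.MPf11a48.CG.MainJM

open Polynomial Matrix
open scoped PowerSeries
open Pool.Agent.Lib.MPf11a48.Tors
open Pool.Agent.Lib.MPf11a48.CM hiding OmegaM
open Pool.Agent.Lib.MPf11a48.GL2 (lie van en Geo glmul glinv glinv' closedOver_mono geo_of_torsor)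
open Pool.Agent.Lib.MPf11a48.GL2T
open Pool.Agent.Lib.MPf11a48.GF Pool.Agent.Lib.MPf11a48.GF.EstM
open Pool.Agent.Lib.MPf11a48.CF (vm ta pl)
open Pool.Agent.Lib.MPf11a48.K3 (cx)
open Pool.Agent.Lib.MPf11a48.K3.KCurM (gl)

variable {ι : Type} [Fintype ι] [DecidableEq ι]

/-! ### the determinant of the matrix of solutions -/

theorem nz {T : ℤ[X]} {B : Matrix ι ι ℤ[X]} {N ψ₀ : Matrix ι ι ℚ} {Y : Matrix ι ι ℚ⟦X⟧}
    {G₀ : Subgroup (GL ι ℂ)} (hF : FamT T B N ψ₀ Y G₀) (hd₀ : ψ₀.det ≠ 0) (hY : Y.det ≠ 0) :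
    ∃ C : ℕ, ∀ a b : ℤ, a ≠ 0 → (C : ℤ) * |a| ^ C ≤ b → (vm Y ((a : ℂ) / b)).det ≠ 0 := by
  have hE := specEval
  obtain ⟨C, hC⟩ := hF.g
  obtain ⟨D, hD, hq⟩ := hF.pol
  choose q hq using hq
  set φ : ℚ[X] →+* ℚ⟦X⟧ := Polynomial.coeToPowerSeries.ringHom with hφ
  have hφi : Function.Injective φ := fun p p' h => Polynomial.coe_injective ℚ h
  set Q : ℚ[X] := (Matrix.of q).det with hQ
  -- the determinant of the form
  have h1 : φ Q = Y.det * (φ (D ^ Fintype.card ι * Polynomial.C ψ₀.det) * Y.det) := by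
    have h2 : (Matrix.of q).map φ =
        (φ D) • (Yᵀ * ψ₀.map (PowerSeries.C : ℚ →+* ℚ⟦X⟧) * Y) := by
      refine Matrix.ext fun i j => ?_
      rw [Matrix.map_apply, Matrix.smul_apply, smul_eq_mul]
      exact (hq i j).symm
    rw [hQ, RingHom.map_det]
    change ((Matrix.of q).map φ).det = _
    rw [h2, det_smul, det_mul, det_mul, det_transpose]
    have h3 : (ψ₀.map (PowerSeries.C : ℚ →+* ℚ⟦X⟧)).det = φ (Polynomial.C ψ₀.det) := by
      have h4 := RingHom.map_det (PowerSeries.C : ℚ →+* ℚ⟦X⟧) ψ₀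
      have h5 : φ (Polynomial.C ψ₀.det) = PowerSeries.C ψ₀.det := Polynomial.coe_C _
      rw [h5, h4]
      rfl
    rw [h3, map_mul, map_pow]
    ring
  have hQ0 : Q ≠ 0 := by
    intro h0
    rw [h0, map_zero] at h1
    have h2 : φ (D ^ Fintype.card ι * Polynomial.C ψ₀.det) ≠ 0 := by
      rw [Ne, ← map_zero φ]
      intro h3
      have h4 := hφi h3
      refine mul_ne_zero (pow_ne_zero _ hD) ?_ h4
      rw [Ne, Polynomial.C_eq_zero]
      exact hd₀
    exact mul_ne_zero hY (mul_ne_zero h2 hY) h1.symm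
  obtain ⟨M, hM⟩ := eval_ne_zero Q hQ0
  refine ⟨2 * C + M + 1, fun a b ha hb hdet => ?_⟩
  have hs := CF.PolM.smallC (by omega) ha hb
  have hs' := CF.PolM.small (by omega) ha hb
  have hb0 := CF.PolM.pos (by omega) ha hb
  have hsm : ∀ i j, Sm (Y i j) ((a : ℂ) / b) := by
    intro i j
    refine hE.1 _ C _ (fun n => ?_) ?_
    · obtain ⟨q, -, -, -, hq⟩ := hC n
      exact hq (i, j)
    · refine le_trans (mul_le_mul_of_nonneg_right ?_ (norm_nonneg _)) hs
      push_cast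
      linarith
  have hsd : Sm Y.det ((a : ℂ) / b) := by
    rw [Matrix.det_apply']
    have h2 : ∀ σ : Equiv.Perm ι, Sm (((Equiv.Perm.sign σ : ℤ) : ℚ⟦X⟧) * ∏ i, Y (σ i) i)
        ((a : ℂ) / b) := by
      intro σ
      have h3 := CF.RelM.pval_C_mul
        (QuaM.Sm.prod specEval Finset.univ (fun i _ => hsm (σ i) i)).1
        ((Equiv.Perm.sign σ : ℤ) : ℚ)
      rw [map_intCast] at h3
      exact h3.1
    have h4 : ∀ s : Finset (Equiv.Perm ι), Sm (∑ σ ∈ s, ((Equiv.Perm.sign σ : ℤ) : ℚ⟦X⟧) *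
        ∏ i, Y (σ i) i) ((a : ℂ) / b) := by
      intro s
      induction s using Finset.induction_on with
      | empty =>
        rw [Finset.sum_empty]
        have := (CF.PolM.sm_C hE 0 ((a : ℂ) / b)).1
        rwa [map_zero] at this
      | insert σ s hσ ih =>
        rw [Finset.sum_insert hσ]
        exact (h2 σ).add ih
    exact h4 _
  have h5 := hE.2.2.1 (D ^ Fintype.card ι * Polynomial.C ψ₀.det) ((a : ℂ) / b)
  have h6 := CF.PolM.sm_mul hE h5.1 hsd
  have h7 := CF.PolM.sm_mul hE hsd h6.1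
  have h8 := congrArg (fun f => pval f ((a : ℂ) / b)) h1
  change pval ((Q : ℚ[X]) : ℚ⟦X⟧) ((a : ℂ) / b) = pval (Y.det *
    (((D ^ Fintype.card ι * Polynomial.C ψ₀.det : ℚ[X]) : ℚ⟦X⟧) * Y.det)) ((a : ℂ) / b) at h8
  rw [(hE.2.2.1 Q ((a : ℂ) / b)).2, h7.2, MainPM.pval_det hsm, hdet, zero_mul] at h8
  have hξ : ((a : ℚ) / b) ≠ 0 := by
    refine div_ne_zero ?_ ?_
    · exact_mod_cast ha
    · exact_mod_cast hb0.ne'
  refine hM ((a : ℚ) / b) hξ ?_ ?_
  · refine le_trans (mul_le_mul_of_nonneg_right ?_ (abs_nonneg _)) hs'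
    push_cast
    linarith
  · have h9 : aeval ((a : ℂ) / b) Q = ((Q.eval ((a : ℚ) / b) : ℚ) : ℂ) := by
      have h10 : ((a : ℂ) / b) = algebraMap ℚ ℂ ((a : ℚ) / b) := by
        rw [map_div₀, map_intCast, map_intCast]
      rw [h10, Polynomial.aeval_algebraMap_apply]
      rfl
    rw [h9] at h8
    exact_mod_cast h8

/-! ### block diagonal matrices -/

/-- the block diagonal matrix -/
noncomputable def bl {r : ℕ} (h : Fin r → GL ι ℂ) : GL (ι × Fin r) ℂ where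
  val := blockDiagonal fun i => (h i).1
  inv := blockDiagonal fun i => (h i)⁻¹.1
  val_inv := by
    rw [← blockDiagonal_mul]
    have h2 : (fun i => (h i).1 * (h i)⁻¹.1) = 1 := by
      funext i
      exact (h i).mul_inv
    rw [h2, blockDiagonal_one]
  inv_val := by
    rw [← blockDiagonal_mul]
    have h2 : (fun i => (h i)⁻¹.1 * (h i).1) = 1 := by
      funext i
      exact (h i).inv_mul
    rw [h2, blockDiagonal_one]

variable {r : ℕ}

theorem bl_mul (g h : Fin r → GL ι ℂ) : bl (fun i => g i * h i) = bl g * bl h := by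
  refine Units.ext ?_
  change (blockDiagonal fun i => (g i).1 * (h i).1) =
    (blockDiagonal fun i => (g i).1) * blockDiagonal fun i => (h i).1
  rw [blockDiagonal_mul]

theorem bl_inv (h : Fin r → GL ι ℂ) : (bl h)⁻¹ = bl fun i => (h i)⁻¹ := by
  refine inv_eq_of_mul_eq_one_right ?_
  rw [← bl_mul]
  refine Units.ext ?_
  change (blockDiagonal fun i => ((h i) * (h i)⁻¹).1) = 1
  have h2 : (fun i => ((h i) * (h i)⁻¹).1) = (1 : Fin r → Matrix ι ι ℂ) := by
    funext i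
    rw [mul_inv_cancel]
    rfl
  rw [h2, blockDiagonal_one]

theorem mem_bd {G : Subgroup (GL ι ℂ)} {g : GL (ι × Fin r) ℂ} :
    g ∈ bd G r ↔ ∃ h : Fin r → GL ι ℂ, (∀ i, h i ∈ G) ∧ g = bl h := by
  constructor
  · rintro ⟨h, hG, hg⟩
    exact ⟨h, hG, Units.ext hg⟩
  · rintro ⟨h, hG, rfl⟩
    exact ⟨h, hG, rfl⟩

theorem bl_mem {G : Subgroup (GL ι ℂ)} {h : Fin r → GL ι ℂ} (hG : ∀ i, h i ∈ G) : bl h ∈ bd G r :=
  ⟨h, hG, rfl⟩

theorem tw_bl (τ : ℂ ≃+* ℂ) (h : Fin r → GL ι ℂ) : tw τ (bl h) = bl fun i => tw τ (h i) := by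
  refine Units.ext (Matrix.ext fun p q => ?_)
  change τ (blockDiagonal (fun i => (h i).1) p q) = blockDiagonal (fun i => (tw τ (h i)).1) p q
  rw [blockDiagonal_apply, blockDiagonal_apply]
  split_ifs
  · rfl
  · exact map_zero τ

theorem cx_bd (ψ : Matrix ι ι ℚ) :
    cx (blockDiagonal fun _ : Fin r => ψ) = blockDiagonal fun _ : Fin r => cx ψ := by
  refine Matrix.ext fun p q => ?_
  change (((blockDiagonal fun _ : Fin r => ψ) p q : ℚ) : ℂ) =
    blockDiagonal (fun _ : Fin r => cx ψ) p q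
  rw [blockDiagonal_apply, blockDiagonal_apply]
  split_ifs
  · rfl
  · exact Rat.cast_zero

theorem form_bl (ψ : Matrix ι ι ℚ) (h : Fin r → GL ι ℂ) :
    (bl h).1ᵀ * cx (blockDiagonal fun _ : Fin r => ψ) * (bl h).1 =
      blockDiagonal fun i => (h i).1ᵀ * cx ψ * (h i).1 := by
  rw [cx_bd]
  change (blockDiagonal fun i => (h i).1)ᵀ * (blockDiagonal fun _ => cx ψ) *
    (blockDiagonal fun i => (h i).1) = _
  rw [blockDiagonal_transpose, ← blockDiagonal_mul, ← blockDiagonal_mul]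

theorem iso_bd {ψ : Matrix ι ι ℚ} {G : Subgroup (GL ι ℂ)}
    (hiso : ∀ g ∈ G, g.1ᵀ * cx ψ * g.1 = cx ψ) :
    ∀ g ∈ bd G r, g.1ᵀ * cx (blockDiagonal fun _ : Fin r => ψ) * g.1 =
      cx (blockDiagonal fun _ : Fin r => ψ) := by
  intro g hg
  obtain ⟨h, hG, rfl⟩ := mem_bd.1 hg
  rw [form_bl, cx_bd]
  congr 1
  funext i
  exact hiso _ (hG i)

theorem det_bd {ψ : Matrix ι ι ℚ} (hd : ψ.det ≠ 0) : (blockDiagonal fun _ : Fin r => ψ).det ≠ 0 := by
  rw [det_blockDiagonal]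
  exact Finset.prod_ne_zero_iff.2 fun _ _ => hd

theorem conj_bd {G G₀ : Subgroup (GL ι ℂ)} {C : GL ι ℂ} (hGG : ∀ g, g ∈ G₀ ↔ C * g * C⁻¹ ∈ G)
    (g : GL (ι × Fin r) ℂ) :
    g ∈ bd G₀ r ↔ bl (fun _ : Fin r => C) * g * (bl fun _ : Fin r => C)⁻¹ ∈ bd G r := by
  rw [bl_inv]
  constructor
  · intro hg
    obtain ⟨h, hG, rfl⟩ := mem_bd.1 hg
    rw [← bl_mul, ← bl_mul]
    exact bl_mem fun i => (hGG _).1 (hG i)
  · intro hg
    obtain ⟨h, hG, hh⟩ := mem_bd.1 hg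
    have h1 : g = bl fun i => C⁻¹ * h i * C := by
      rw [bl_mul (fun i => C⁻¹ * h i) (fun _ => C), bl_mul (fun _ => C⁻¹) h, ← hh, ← bl_inv]
      group
    rw [h1]
    refine bl_mem fun i => (hGG _).2 ?_
    have h2 : C * (C⁻¹ * h i * C) * C⁻¹ = h i := by group
    rw [h2]
    exact hG i

theorem form_C {ψ ψ₀ : Matrix ι ι ℚ} {C : GL ι ℂ} {ϖ : ℂ} (h : C.1ᵀ * cx ψ * C.1 = ϖ • cx ψ₀) :
    (bl fun _ : Fin r => C).1ᵀ * cx (blockDiagonal fun _ : Fin r => ψ) * (bl fun _ : Fin r => C).1 =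
      ϖ • cx (blockDiagonal fun _ : Fin r => ψ₀) := by
  rw [form_bl, cx_bd, ← blockDiagonal_smul]
  congr 1
  funext i
  exact h

/-! ### polynomials -/

section poly

variable {I J k U : Type} [Fintype I] [Fintype J] [CommRing k] [CommRing U] [Algebra k U]

theorem dv_C (a : k) (y v : I → U) : dv (MvPolynomial.C a : MvPolynomial I k) y v = 0 := by
  unfold dv
  exact Finset.sum_eq_zero fun i _ => by rw [MvPolynomial.pderiv_C, map_zero, zero_mul]

theorem dv_add (F G : MvPolynomial I k) (y v : I → U) : dv (F + G) y v = dv F y v + dv G y v := by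
  unfold dv
  rw [← Finset.sum_add_distrib]
  refine Finset.sum_congr rfl fun i _ => ?_
  rw [map_add, map_add, add_mul]

theorem dv_mul (F G : MvPolynomial I k) (y v : I → U) :
    dv (F * G) y v = MvPolynomial.aeval y G * dv F y v + MvPolynomial.aeval y F * dv G y v := by
  unfold dv
  rw [Finset.mul_sum, Finset.mul_sum, ← Finset.sum_add_distrib]
  refine Finset.sum_congr rfl fun i _ => ?_
  rw [MvPolynomial.pderiv_mul, map_add, map_mul, map_mul]
  ring

theorem dv_X [DecidableEq I] (i : I) (y v : I → U) :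
    dv (MvPolynomial.X i : MvPolynomial I k) y v = v i := by
  unfold dv
  rw [Finset.sum_eq_single i]
  · rw [MvPolynomial.pderiv_X_self, map_one, one_mul]
  · intro j _ hj
    rw [MvPolynomial.pderiv_X_of_ne (Ne.symm hj), map_zero, zero_mul]
  · intro h
    exact absurd (Finset.mem_univ i) h

/-- the chain rule -/
theorem dv_bind (φ : I → MvPolynomial J k) (F : MvPolynomial I k) (y v : J → U) :
    dv (MvPolynomial.bind₁ φ F) y v =
      dv F (fun i => MvPolynomial.aeval y (φ i)) fun i => dv (φ i) y v := by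
  classical
  induction F using MvPolynomial.induction_on with
  | C a => rw [MvPolynomial.bind₁_C_right, dv_C, dv_C]
  | add p q hp hq => rw [map_add, dv_add, dv_add, hp, hq]
  | mul_X p i hp =>
    rw [map_mul, MvPolynomial.bind₁_X_right, dv_mul, dv_mul, hp, dv_X, MvPolynomial.aeval_X]
    congr 2
    rw [← MvPolynomial.aeval_bind₁]

/-- the degree of a polynomial in polynomials -/
theorem totalDegree_bind_le (φ : I → MvPolynomial J k) (hφ : ∀ i, (φ i).totalDegree ≤ 1)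
    (F : MvPolynomial I k) : (MvPolynomial.bind₁ φ F).totalDegree ≤ F.totalDegree := by
  change (MvPolynomial.aeval φ F).totalDegree ≤ F.totalDegree
  rw [MvPolynomial.aeval_def, MvPolynomial.eval₂_eq']
  refine MvPolynomial.totalDegree_finsetSum_le fun m hm => ?_
  refine (MvPolynomial.totalDegree_mul _ _).trans ?_
  have h0 : (algebraMap k (MvPolynomial J k) (MvPolynomial.coeff m F)).totalDegree = 0 :=
    MvPolynomial.totalDegree_C _
  rw [h0, zero_add]
  refine (MvPolynomial.totalDegree_finsetProd _ _).trans ?_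
  have h1 : ∀ a ∈ (Finset.univ : Finset I), (φ a ^ m a).totalDegree ≤ m a := fun a _ =>
    (MvPolynomial.totalDegree_pow _ _).trans ((Nat.mul_le_mul_left _ (hφ a)).trans_eq (mul_one _))
  refine (Finset.sum_le_sum h1).trans ?_
  have h2 := MvPolynomial.le_totalDegree hm
  rwa [Finsupp.sum_fintype _ _ (fun _ => rfl)] at h2

end poly

/-! ### blocks and polynomials -/

section sb

variable {σ : Type} [Fintype σ] [DecidableEq σ] {L : IntermediateField ℚ ℂ}

/-- the polynomial of degree `1` which gives the entry `v` of the matrix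
`blockDiagonal (fun i => x (m i)) * R` -/
noncomputable def sb (m : Fin r → σ) (R : Matrix (ι × Fin r) (ι × Fin r) L)
    (v : (ι × Fin r) × (ι × Fin r)) : MvPolynomial (σ × ι × ι) L :=
  ∑ l : ι × Fin r, if v.1.2 = l.2 then
    MvPolynomial.C (R l v.2) * MvPolynomial.X (m v.1.2, v.1.1, l.1) else 0

theorem aeval_sb (m : Fin r → σ) (R : Matrix (ι × Fin r) (ι × Fin r) L)
    (x : σ → Matrix ι ι ℂ) (v : (ι × Fin r) × (ι × Fin r)) :
    MvPolynomial.aeval (fun p : σ × ι × ι => x p.1 p.2.1 p.2.2) (sb m R v) =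
      (blockDiagonal (fun i => x (m i)) * R.map (algebraMap L ℂ)) v.1 v.2 := by
  rw [sb, map_sum, Matrix.mul_apply]
  refine Finset.sum_congr rfl fun l _ => ?_
  rw [blockDiagonal_apply]
  split_ifs with h
  · rw [map_mul, MvPolynomial.aeval_C, MvPolynomial.aeval_X, Matrix.map_apply, mul_comm]
  · rw [map_zero, zero_mul]

theorem dv_sum' {I k U β : Type} [Fintype I] [CommRing k] [CommRing U] [Algebra k U]
    (s : Finset β) (f : β → MvPolynomial I k) (y v : I → U) :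
    dv (∑ b ∈ s, f b) y v = ∑ b ∈ s, dv (f b) y v := by
  classical
  induction s using Finset.induction_on with
  | empty =>
    rw [Finset.sum_empty, Finset.sum_empty]
    have := dv_C (k := k) (0 : k) y v
    rwa [map_zero] at this
  | insert a s ha ih => rw [Finset.sum_insert ha, Finset.sum_insert ha, dv_add, ih]

theorem dv_sb (m : Fin r → σ) (R : Matrix (ι × Fin r) (ι × Fin r) L)
    (x w : σ → Matrix ι ι ℂ) (v : (ι × Fin r) × (ι × Fin r)) :
    dv (sb m R v) (fun p : σ × ι × ι => x p.1 p.2.1 p.2.2)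
      (fun p : σ × ι × ι => w p.1 p.2.1 p.2.2) =
      (blockDiagonal (fun i => w (m i)) * R.map (algebraMap L ℂ)) v.1 v.2 := by
  rw [sb, dv_sum', Matrix.mul_apply]
  refine Finset.sum_congr rfl fun l _ => ?_
  rw [blockDiagonal_apply]
  split_ifs with h
  · rw [dv_mul, dv_C, mul_zero, zero_add, dv_X, MvPolynomial.aeval_C, Matrix.map_apply, mul_comm]
  · rw [zero_mul]
    have := dv_C (k := L) (0 : L) (fun p : σ × ι × ι => x p.1 p.2.1 p.2.2)
      (fun p : σ × ι × ι => w p.1 p.2.1 p.2.2)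
    rwa [map_zero] at this

theorem totalDegree_sb (m : Fin r → σ) (R : Matrix (ι × Fin r) (ι × Fin r) L)
    (v : (ι × Fin r) × (ι × Fin r)) : (sb m R v).totalDegree ≤ 1 := by
  refine MvPolynomial.totalDegree_finsetSum_le fun l _ => ?_
  split_ifs
  · refine (MvPolynomial.totalDegree_mul _ _).trans ?_
    rw [MvPolynomial.totalDegree_C, zero_add]
    exact (MvPolynomial.totalDegree_X _).le
  · rw [MvPolynomial.totalDegree_zero]
    exact Nat.zero_le _

theorem vars_sb (m : Fin r → σ) (R : Matrix (ι × Fin r) (ι × Fin r) L)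
    (v : (ι × Fin r) × (ι × Fin r)) : ∀ p ∈ (sb m R v).vars, p.1 ∈ Set.range m := by
  intro p hp
  have h1 := MvPolynomial.vars_sum_subset (Finset.univ : Finset (ι × Fin r))
    (fun l : ι × Fin r => if v.1.2 = l.2 then
      MvPolynomial.C (R l v.2) * MvPolynomial.X (m v.1.2, v.1.1, l.1) else 0) hp
  obtain ⟨l, -, hl⟩ := Finset.mem_biUnion.1 h1
  split_ifs at hl with h
  · have h2 := MvPolynomial.vars_mul _ _ hl
    rw [MvPolynomial.vars_C, Finset.empty_union, MvPolynomial.vars_X, Finset.mem_singleton] at h2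
    rw [h2]
    exact ⟨_, rfl⟩
  · rw [MvPolynomial.vars_0] at hl
    exact absurd hl (Finset.notMem_empty _)

/-- a relation which fails on the orbit gives a relation between the entries of the matrices `x a`
whose derivative does not vanish -/
theorem exc1 (hExc : SpecExc) (hBss : SpecBss) {G : Subgroup (GL ι ℂ)} (hG : IsSS G)
    (m : Fin r → σ) (hm : Function.Injective m) (x : σ → GL ι ℂ) (R : GL (ι × Fin r) ℂ)
    (hR : ∀ p q, R.1 p q ∈ L) (c : GL (ι × Fin r) ℂ) (hc : c = bl (fun i => x (m i)) * R)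
    (F₁ : MvPolynomial ((ι × Fin r) × (ι × Fin r)) L)
    (hF : MvPolynomial.aeval (fun p => c.1 p.1 p.2) F₁ = 0)
    (hF' : ∃ g ∈ bd G r, MvPolynomial.aeval (fun p => (g * c).1 p.1 p.2) F₁ ≠ 0) :
    ∃ (F : MvPolynomial (σ × ι × ι) L) (Z : σ → Matrix ι ι ℂ), F.totalDegree ≤ F₁.totalDegree ∧
      (∀ p ∈ F.vars, p.1 ∈ Set.range m) ∧ (∀ a, Z a ∈ lie (G : Set (GL ι ℂ))) ∧
      MvPolynomial.aeval (fun p => (x p.1).1 p.2.1 p.2.2) F = 0 ∧
      dv F (fun p => (x p.1).1 p.2.1 p.2.2) (fun p => (Z p.1 * (x p.1).1) p.2.1 p.2.2) ≠ 0 := by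
  obtain ⟨hS, hL⟩ := hBss ι G r hG
  obtain ⟨F₂, hdeg, hF₂, Z₂, hZ₂, hne⟩ := hExc (ι × Fin r) (bd G r) L c F₁ hS hF hF'
  obtain ⟨X, hX, rfl⟩ := (hL Z₂).1 hZ₂
  let RL : Matrix (ι × Fin r) (ι × Fin r) L := fun p q => ⟨R.1 p q, hR p q⟩
  have hRL : RL.map (algebraMap L ℂ) = R.1 := rfl
  have hc1 : c.1 = blockDiagonal (fun i => (x (m i)).1) * RL.map (algebraMap L ℂ) := by
    rw [hRL, hc]
    rfl
  let Z : σ → Matrix ι ι ℂ := Function.extend m X 0
  have hZm : ∀ i, Z (m i) = X i := fun i => hm.extend_apply X 0 i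
  refine ⟨MvPolynomial.bind₁ (sb m RL) F₂, Z, ?_, ?_, ?_, ?_, ?_⟩
  · exact (totalDegree_bind_le _ (totalDegree_sb m RL) F₂).trans hdeg
  · intro p hp
    have h1 := MvPolynomial.vars_bind₁ (sb m RL) F₂ hp
    obtain ⟨v, -, hv⟩ := Finset.mem_biUnion.1 h1
    exact vars_sb m RL v p hv
  · intro a
    by_cases ha : a ∈ Set.range m
    · obtain ⟨i, rfl⟩ := ha
      rw [hZm]
      exact hX i
    · have h1 : Z a = 0 := Function.extend_apply' _ _ _ fun ⟨i, hi⟩ => ha ⟨i, hi⟩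
      rw [h1]
      exact Submodule.zero_mem _
  · rw [MvPolynomial.aeval_bind₁]
    have h1 : (fun v => MvPolynomial.aeval (fun p : σ × ι × ι => (x p.1).1 p.2.1 p.2.2)
        (sb m RL v)) = fun v : (ι × Fin r) × (ι × Fin r) => c.1 v.1 v.2 := by
      funext v
      rw [hc1]
      exact aeval_sb m RL (fun a => (x a).1) v
    rw [h1]
    exact hF₂
  · rw [dv_bind]
    have h1 : (fun v => MvPolynomial.aeval (fun p : σ × ι × ι => (x p.1).1 p.2.1 p.2.2)
        (sb m RL v)) = fun v : (ι × Fin r) × (ι × Fin r) => c.1 v.1 v.2 := by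
      funext v
      rw [hc1]
      exact aeval_sb m RL (fun a => (x a).1) v
    have h2 : (fun v => dv (sb m RL v) (fun p : σ × ι × ι => (x p.1).1 p.2.1 p.2.2)
        (fun p : σ × ι × ι => (Z p.1 * (x p.1).1) p.2.1 p.2.2)) =
        fun v : (ι × Fin r) × (ι × Fin r) => (blockDiagonal X * c.1) v.1 v.2 := by
      funext v
      rw [hc1, ← Matrix.mul_assoc, ← blockDiagonal_mul]
      have h3 := dv_sb m RL (fun a => (x a).1) (fun a => Z a * (x a).1) v
      rw [h3]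
      simp only [hZm]
    rw [h1, h2]
    exact hne

end sb

/-! ### the result for one matrix -/

/-- the second part of the result -/
theorem good2 (hLies : SpecLies) (hZar : SpecZar) {ψ : Matrix ι ι ℚ} {w : ℤ}
    {G : Subgroup (GL ι ℂ)} {K : IntermediateField ℚ ℂ} {c : GL ι ℂ} {D : ℕ} (hK : K ≤ Qbar)
    (hG : IsSS G) (hiso : ∀ g ∈ G, g.1ᵀ * cx ψ * g.1 = cx ψ)
    (hmain : ∀ g ∈ G, g * c ∈ Tors.OmegaM K c ∧ g * c ∈ ZarD K D c)
    (ψdR : Matrix ι ι K) (S : Set (TPair K ι)) (hw : w ≠ 0) (hpol : Polarised w c ψdR ψ)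
    (hS : ∀ α ∈ S, Fixes c α) (hPS : polPair ψdR ψ ∈ S)
    (hO : ∀ f ∈ OmegaS S, ∃ (z : ℂ) (g : GL ι ℂ) (τ : ℂ ≃+* ℂ), g ∈ G ∧ FixesField K τ ∧
      f.1 = z • (g * tw τ c).1) :
    Tors.OmegaM K c = OmegaS S ∧ OmegaDRB K c = OmegaS S ∧ OmegaS S ⊆ ZarD K D c := by
  obtain ⟨h1, h2⟩ := MainM.part2 hLies hK hG hiso (fun g hg => (hmain g hg).1) ψdR S hw hpol hS hPS
    hO
  refine ⟨h1, h2, ?_⟩
  have h2pi : (2 * Real.pi * Complex.I : ℂ) ≠ 0 := Complex.two_pi_I_ne_zero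
  have hϖ : (2 * Real.pi * Complex.I : ℂ) ^ w ≠ 0 := zpow_ne_zero _ h2pi
  have hsub : OmegaDRB K c ⊆ OmegaS S := drb_subset hS
  have hMO := OmegaM_subset_OmegaDRB K c
  have hTor := isTorsor_OmegaM K c
  have hcT := mem_OmegaM_self K c
  have hsim : ∀ f ∈ Tors.OmegaM K c, ∃ z : ℂ, f.1ᵀ * cx ψ * f.1 = z • (c.1ᵀ * cx ψ * c.1) := by
    intro f hf
    obtain ⟨μ, hμ⟩ := GL2.sim_of_fixes hpol.1 (hsub (hMO hf) _ hPS)
    refine ⟨μ * ((2 * Real.pi * Complex.I : ℂ) ^ w)⁻¹, ?_⟩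
    have h1 : f.1ᵀ * cx ψ * f.1 = μ • ψdR.map (algebraMap K ℂ) := hμ
    have h2 : c.1ᵀ * cx ψ * c.1 = (2 * Real.pi * Complex.I : ℂ) ^ w • ψdR.map (algebraMap K ℂ) :=
      hpol.2
    rw [h1, h2, smul_smul, mul_assoc, inv_mul_cancel₀ hϖ, mul_one]
  have hlie := hLies ι ψ K G (Tors.OmegaM K c) c hpol.1 hG hiso hK hTor hcT
    (fun f hf => hO f (hsub (hMO hf))) hsim
  intro f hf F hFD hFc
  obtain ⟨z, g, τ, hg, hτ, hfz⟩ := hO f hf
  have h3 := hZar ι ψ K G c ψdR w F hK hG hiso hw hpol hlie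
    (fun g hg => (hmain g hg).2 F hFD hFc) z g τ hg hτ
  have h4 : (fun p : ι × ι => f.1 p.1 p.2) = fun p : ι × ι => (z • (g * tw τ c).1) p.1 p.2 := by
    rw [hfz]
  rw [h4]
  exact h3

/-- a fibre which is not good gives a polynomial relation over a field `L` which does not hold on the
orbit -/
theorem exc0 (hNrm : SpecNrm) (hPlf : SpecPlf) {D D₁ : ℕ}
    (hGt : ∀ (ψ : Matrix ι ι ℚ) (K : IntermediateField ℚ ℂ) (G H : Subgroup (GL ι ℂ)),
      Setup ψ K G H → Stab K H G D₁ → G ≤ H)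
    {ψ₀ ψ : Matrix ι ι ℚ} {ϖ : ℂ} {C₀ y R : GL ι ℂ} {G G₀ : Subgroup (GL ι ℂ)}
    {K L : IntermediateField ℚ ℂ} (hKL : K ≤ L) (hL : L ≤ Qbar)
    (hd : ψ.det ≠ 0) (hϖ : ϖ ≠ 0) (hG : IsSS G) (hiso : ∀ g ∈ G, g.1ᵀ * cx ψ * g.1 = cx ψ)
    (hG₀ : IsSS G₀) (hGG : ∀ g, g ∈ G₀ ↔ C₀ * g * C₀⁻¹ ∈ G)
    (hC₀ : C₀.1ᵀ * cx ψ * C₀.1 = ϖ • cx ψ₀) (hy : ∀ τ, FixesField L τ → tw τ y * y⁻¹ ∈ G₀)
    (hR : ∀ i j, R.1 i j ∈ L) {c : GL ι ℂ} (hc : c = C₀ * y * R)
    (h : ∃ g ∈ G, ¬ (g * c ∈ Tors.OmegaM K c ∧ g * c ∈ ZarD K D c)) :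
    ∃ F : MvPolynomial (ι × ι) L, F.totalDegree ≤ D + Fintype.card ι ^ D₁ * D₁ ∧
      MvPolynomial.aeval (fun p : ι × ι => c.1 p.1 p.2) F = 0 ∧
      ∃ g ∈ G, MvPolynomial.aeval (fun p : ι × ι => (g * c).1 p.1 p.2) F ≠ 0 := by
  obtain ⟨g, hg, h⟩ := h
  rw [not_and_or] at h
  rcases h with h | h
  · have hT : ∃ T : Set (GL ι ℂ), IsTorsor K T ∧ c ∈ T ∧ g * c ∉ T := by
      by_contra hno
      apply h
      intro T' hT' hcT'
      by_contra h2
      exact hno ⟨T', hT', hcT', h2⟩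
    obtain ⟨T, hT, hcT, hgT⟩ := hT
    have hT' : ∃ T', IsTorsor L T' ∧ C₀ * y * R ∈ T' ∧ ¬ Stab L (grp T') G D₁ := by
      by_contra hno
      apply hgT
      subst hc
      refine MainM.fibre hNrm hGt hKL hL hd hϖ hG hiso hG₀.closed hGG hC₀ hy hR ?_ hT hcT g hg
      intro T' hT'1 hT'2
      by_contra hst
      exact hno ⟨T', hT'1, hT'2, hst⟩
    obtain ⟨T', hT'1, hT'2, hT'3⟩ := hT'
    obtain ⟨F, hF1, hF2, hF3⟩ := hPlf ι L C₀ y R G G₀ T' D₁ hG₀ hGG hR hT'1 hT'2 hT'3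
    subst hc
    exact ⟨F, hF1.trans (Nat.le_add_left _ _), hF2, hF3⟩
  · have hF : ∃ F : MvPolynomial (ι × ι) K, F.totalDegree ≤ D ∧
        MvPolynomial.aeval (fun p : ι × ι => c.1 p.1 p.2) F = 0 ∧
        MvPolynomial.aeval (fun p : ι × ι => (g * c).1 p.1 p.2) F ≠ 0 := by
      by_contra hno
      apply h
      intro F hF1 hF2
      by_contra h2
      exact hno ⟨F, hF1, hF2, h2⟩
    obtain ⟨F, hF1, hF2, hF3⟩ := hF
    have hmap : ∀ v : ι × ι → ℂ, MvPolynomial.aeval v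
        (MvPolynomial.map (IntermediateField.inclusion hKL : K →+* L) F) =
        MvPolynomial.aeval v F := by
      intro v
      rw [MvPolynomial.aeval_def, MvPolynomial.eval₂_map, MvPolynomial.aeval_def]
      rfl
    refine ⟨MvPolynomial.map (IntermediateField.inclusion hKL : K →+* L) F, ?_, ?_, g, hg, ?_⟩
    · refine le_trans (Finset.sup_mono (MvPolynomial.support_map_subset _ F)) ?_
      exact hF1.trans (Nat.le_add_right _ _)
    · rw [hmap]
      exact hF2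
    · rw [hmap]
      exact hF3

end Pool.Agent.Lib.MPf11a48.CG.MainJM
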