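import Pool.Agent.Lib.MP_f11a48_ag.CG.Ari

/-!
# Sums of fibres of a family and their forms: the theorem, from the Specs
-/

set_option autoImplicit false
set_option linter.unusedSectionVars false

namespace Pool.Agent.Lib.MPf11a48.CG.MainKM

open Polynomial Matrix
open scoped PowerSeries
open Pool.Agent.Lib.MPf11a48.Tors
open Pool.Agent.Lib.MPf11a48.CM hiding OmegaM
open Pool.Agent.Lib.MPf11a48.GL2 (lie van en Geo glmul glinv glinv' closedOver_mono geo_of_torsor)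
open Pool.Agent.Lib.MPf11a48.GL2T
open Pool.Agent.Lib.MPf11a48.GF Pool.Agent.Lib.MPf11a48.GF.EstM
open Pool.Agent.Lib.MPf11a48.CF (vm ta pl)
open Pool.Agent.Lib.MPf11a48.K3 (cx)
open Pool.Agent.Lib.MPf11a48.K3.KCurM (gl)
open Pool.Agent.Lib.MPf11a48.CG.MainJM

variable {ι : Type} [Fintype ι] [DecidableEq ι]

/-- The result for all sums of `k` fibres with period matrices `C₀ exp(t N) y x` in degree `≤ D`, for
all but `s` of them. -/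
def Fin0 (C₀ : GL ι ℂ) (N : Matrix ι ι ℚ) (G G₀ : Subgroup (GL ι ℂ)) (s k D : ℕ) : Prop :=
  ∃ n δ₀ : ℕ, ∀ (t : ℂ) (L : IntermediateField ℚ ℂ), FiniteDimensional ℚ L →
    ∀ y : Fin k → GL ι ℂ, (∀ x τ, FixesField L τ → tw τ (y x) * (y x)⁻¹ ∈ G₀) →
    (∀ L' : IntermediateField ℚ ℂ, L ≤ L' → FiniteDimensional ℚ L' →
      Module.finrank ℚ L' ≤ Module.finrank ℚ L * δ₀ → HasRelT L' n (fun x => (y x).1) G₀) →
    ∃ E : Finset (Fin k), E.card ≤ s ∧ ∀ (r : ℕ) (m : Fin r → Fin k), Function.Injective m →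
      (∀ i, m i ∉ E) → ∀ (K : IntermediateField ℚ ℂ) (R c : GL (ι × Fin r) ℂ), K ≤ L →
        (∀ i j, R.1 i j ∈ L) → c = bl (fun i => C₀ * gl (cx N) t * y (m i)) * R →
        ∀ g ∈ bd G r, g * c ∈ Tors.OmegaM K c ∧ g * c ∈ ZarD K D c

/-- conjugation by `C₀ exp(t N)` -/
theorem conj_C {G G₀ : Subgroup (GL ι ℂ)} {N : Matrix ι ι ℚ} {C₀ : GL ι ℂ}
    (hG₀ : ClosedOver ⊥ (G₀ : Set (GL ι ℂ))) (hGG : ∀ g, g ∈ G₀ ↔ C₀ * g * C₀⁻¹ ∈ G)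
    (hN₀ : cx N ∈ lie (G₀ : Set (GL ι ℂ))) (t : ℂ) :
    ∀ g, g ∈ G₀ ↔ C₀ * gl (cx N) t * g * (C₀ * gl (cx N) t)⁻¹ ∈ G := by
  have hlog := MainM.gl_mem hG₀ hN₀ t
  intro g
  have e1 : C₀ * gl (cx N) t * g * (C₀ * gl (cx N) t)⁻¹ = C₀ * (gl (cx N) t * g *
      (gl (cx N) t)⁻¹) * C₀⁻¹ := by
    group
  rw [e1, ← hGG]
  constructor
  · intro hg
    exact G₀.mul_mem (G₀.mul_mem hlog hg) (G₀.inv_mem hlog)
  · intro hg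
    have h1 := G₀.mul_mem (G₀.mul_mem (G₀.inv_mem hlog) hg) hlog
    have e2 : (gl (cx N) t)⁻¹ * (gl (cx N) t * g * (gl (cx N) t)⁻¹) * gl (cx N) t = g := by group
    rwa [e2] at h1

theorem form_C' {ψ ψ₀ N : Matrix ι ι ℚ} {G G₀ : Subgroup (GL ι ℂ)} {C₀ : GL ι ℂ} {ϖ : ℂ}
    (hiso : ∀ g ∈ G, g.1ᵀ * cx ψ * g.1 = cx ψ)
    (hG₀ : ClosedOver ⊥ (G₀ : Set (GL ι ℂ))) (hGG : ∀ g, g ∈ G₀ ↔ C₀ * g * C₀⁻¹ ∈ G)
    (hN₀ : cx N ∈ lie (G₀ : Set (GL ι ℂ))) (t : ℂ) (hC₀ : C₀.1ᵀ * cx ψ * C₀.1 = ϖ • cx ψ₀) :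
    (C₀ * gl (cx N) t).1ᵀ * cx ψ * (C₀ * gl (cx N) t).1 = ϖ • cx ψ₀ := by
  have hlog := MainM.gl_mem hG₀ hN₀ t
  have h1 := hiso _ ((hGG _).1 hlog)
  have e1 : (C₀ * gl (cx N) t).1 = (C₀ * gl (cx N) t * C₀⁻¹).1 * C₀.1 := by
    have : C₀ * gl (cx N) t = C₀ * gl (cx N) t * C₀⁻¹ * C₀ := by group
    exact congrArg Units.val this
  rw [e1, ← hC₀]
  generalize (C₀ * gl (cx N) t * C₀⁻¹).1 = A at h1 ⊢
  calc (A * C₀.1)ᵀ * cx ψ * (A * C₀.1) = C₀.1ᵀ * (Aᵀ * cx ψ * A) * C₀.1 := by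
        rw [Matrix.transpose_mul]
        simp only [Matrix.mul_assoc]
    _ = _ := by rw [h1]

/-- the case of polynomial relations -/
theorem finP (hNrm : SpecNrm) (hGt : SpecGt) (hUlt : SpecUltJ) (hExc : SpecExc) (hPlf : SpecPlf)
    (hBss : SpecBss) {G G₀ : Subgroup (GL ι ℂ)} {ψ₀ ψ N : Matrix ι ι ℚ} {C₀ : GL ι ℂ} {ϖ : ℂ}
    (D s : ℕ) (hG : IsSS G) (hiso : ∀ g ∈ G, g.1ᵀ * cx ψ * g.1 = cx ψ) (hd : ψ.det ≠ 0)
    (hG₀ : ClosedOver ⊥ (G₀ : Set (GL ι ℂ))) (hGG : ∀ g, g ∈ G₀ ↔ C₀ * g * C₀⁻¹ ∈ G)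
    (hϖ : ϖ ≠ 0) (hC₀ : C₀.1ᵀ * cx ψ * C₀.1 = ϖ • cx ψ₀)
    (hN : IsNilpotent N) (hN₀ : cx N ∈ lie (G₀ : Set (GL ι ℂ)))
    (hs : Fintype.card ι ^ 2 ≤ s ∨ TrS C₀.1 N s) (k : ℕ) : Fin0 C₀ N G G₀ s k D := by
  classical
  have hG₀s : IsSS G₀ := St2M.isSS hGG hG hG₀
  have hG₀T : IsTorsor (⊥ : IntermediateField ℚ ℂ) (G₀ : Set (GL ι ℂ)) :=
    ⟨hG₀, ⟨1, G₀.one_mem⟩, fun a ha b hb d hd => G₀.mul_mem (G₀.mul_mem ha (G₀.inv_mem hb)) hd⟩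
  have hGeo : Geo (G₀ : Set (GL ι ℂ)) := SubM.geo hG₀T
  choose D₁ hD₁ using fun r : ℕ => hGt (ι × Fin r)
  set D₂ : ℕ := ∑ r ∈ Finset.range (k + 1), (D + Fintype.card (ι × Fin r) ^ D₁ r * D₁ r) with hD₂
  obtain ⟨n, hn⟩ := hUlt ι (Fin k) C₀ N G G₀ D₂ s hs hN hGeo
  refine ⟨n, 1, fun t L hLf y hyτ hrel => ?_⟩
  have hLQ : L ≤ Qbar := CF.MainM.le_Qbar L
  have hGG₁ := conj_C hG₀ hGG hN₀ t
  have hC₁ψ := form_C' hiso hG₀ hGG hN₀ t hC₀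
  obtain ⟨E, hE, hmain⟩ := hn t L y hGG₁ (hrel L le_rfl hLf (by rw [mul_one]))
  refine ⟨E, hE, ?_⟩
  intro r m hm hmE K R c hKL hRL hc g hg
  by_contra hbad
  have hrk : r ≤ k := by
    have := Fintype.card_le_of_injective m hm
    rwa [Fintype.card_fin, Fintype.card_fin] at this
  have hcx' : c = bl (fun _ : Fin r => C₀ * gl (cx N) t) * bl (fun i => y (m i)) * R := by
    rw [hc, bl_mul (fun _ => C₀ * gl (cx N) t) fun i => y (m i)]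
  obtain ⟨F₁, hF₁, hF₁c, hF₁g⟩ := exc0 hNrm hPlf (D := D) (hD₁ r) hKL hLQ (det_bd hd) hϖ
    (hBss ι G r hG).1 (iso_bd hiso) (hBss ι G₀ r hG₀s).1 (conj_bd hGG₁) (form_C hC₁ψ)
    (y := bl fun i => y (m i)) (fun τ hτ => by
      rw [tw_bl, bl_inv, ← bl_mul]
      exact bl_mem fun i => hyτ _ τ hτ) hRL hcx' ⟨g, hg, hbad⟩
  obtain ⟨F, Z, hFd, hFv, hZ, hF0, hFne⟩ := exc1 hExc hBss hG m hm
    (fun a => C₀ * gl (cx N) t * y a) R hRL c hc F₁ hF₁c hF₁g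
  refine hFne (hmain F Z ?_ ?_ hZ hF0)
  · refine hFd.trans (hF₁.trans ?_)
    exact Finset.single_le_sum (f := fun r => D + Fintype.card (ι × Fin r) ^ D₁ r * D₁ r)
      (fun _ _ => Nat.zero_le _) (Finset.mem_range.2 (by omega))
  · intro q hq hqE
    obtain ⟨i, hi⟩ := hFv q hq
    exact hmE i (by rw [hi]; exact hqE)

/-- the case of stable subspaces -/
theorem finS (hNrm : SpecNrm) (hGt : SpecGt) (hBss : SpecBss) {G G₀ : Subgroup (GL ι ℂ)}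
    {ψ₀ ψ N : Matrix ι ι ℚ} {C₀ : GL ι ℂ} {ϖ : ℂ} {s k : ℕ}
    (hG : IsSS G) (hiso : ∀ g ∈ G, g.1ᵀ * cx ψ * g.1 = cx ψ) (hd : ψ.det ≠ 0)
    (hG₀ : ClosedOver ⊥ (G₀ : Set (GL ι ℂ))) (hGG : ∀ g, g ∈ G₀ ↔ C₀ * g * C₀⁻¹ ∈ G)
    (hϖ : ϖ ≠ 0) (hC₀ : C₀.1ᵀ * cx ψ * C₀.1 = ϖ • cx ψ₀) (hN₀ : cx N ∈ lie (G₀ : Set (GL ι ℂ)))
    (hX : ∀ D : ℕ → ℕ, Exj C₀ N G G₀ s k D) : Fin0 C₀ N G G₀ s k 0 := by
  classical
  have hG₀s : IsSS G₀ := St2M.isSS hGG hG hG₀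
  choose D₁ hD₁ using fun r : ℕ => hGt (ι × Fin r)
  obtain ⟨n, δ₀, hn⟩ := hX D₁
  refine ⟨n, δ₀, fun t L hLf y hyτ hrel => ?_⟩
  have hLQ : L ≤ Qbar := CF.MainM.le_Qbar L
  have hGG₁ := conj_C hG₀ hGG hN₀ t
  have hC₁ψ := form_C' hiso hG₀ hGG hN₀ t hC₀
  obtain ⟨E, hE, hmain⟩ := hn t L hLf y hrel
  refine ⟨E, hE, ?_⟩
  intro r m hm hmE K R c hKL hRL hc g hg
  refine ⟨?_, mem_zarD_zero K c _⟩
  have hcx : bl (fun i => C₀ * gl (cx N) t * y (m i)) * R =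
      bl (fun _ : Fin r => C₀ * gl (cx N) t) * bl (fun i => y (m i)) * R := by
    rw [bl_mul (fun _ => C₀ * gl (cx N) t) fun i => y (m i)]
  intro T hT hcT
  rw [hc, hcx] at hcT ⊢
  refine MainM.fibre hNrm (hD₁ r) hKL hLQ (det_bd hd) hϖ (hBss ι G r hG).1 (iso_bd hiso)
    (hBss ι G₀ r hG₀s).1.closed (conj_bd hGG₁) (form_C hC₁ψ) (fun τ hτ => by
      rw [tw_bl, bl_inv, ← bl_mul]
      exact bl_mem fun i => hyτ _ τ hτ) hRL ?_ hT hcT g hg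
  intro T' hT'1 hT'2
  rw [← hcx] at hT'2
  exact hmain r m hm hmE R T' hRL hT'1 hT'2

/-- the result for all sums of fibres, from the arithmetic of the family -/
theorem assemble (hDeg : SpecDeg) (hLies : SpecLies) (hZar : SpecZar) (hBss : SpecBss)
    {G G₀ : Subgroup (GL ι ℂ)} {ψ N : Matrix ι ι ℚ} {C₀ : GL ι ℂ} {Pf : ℂ → Matrix ι ι ℂ}
    (w : ℤ) (δ D s k : ℕ) (hG : IsSS G) (hiso : ∀ g ∈ G, g.1ᵀ * cx ψ * g.1 = cx ψ)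
    (hA : Arik k G₀ N Pf) (hf : Fin0 C₀ N G G₀ s k D) :
    ∃ C : ℕ, ∀ a b : ℤ, a ≠ 0 → (C : ℤ) * |a| ^ C ≤ b →
      ∃ E : Finset ℕ, E.card ≤ s ∧ ∀ r : ℕ,
        ∀ m : Fin r → ℕ, Function.Injective m → (∀ i, m i < k ∧ m i ∉ E) →
          GoodK (bd G r) (blockDiagonal fun _ : Fin r => ψ)
            (blockDiagonal fun i => C₀.1 * Pf ((a : ℂ) / (b + m i * a))) w δ D := by
  classical
  obtain ⟨n, δ₀, hn⟩ := hf
  let I : Type := {E : Finset (Fin k) // E.card ≤ s}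
  have : Nonempty I := ⟨⟨∅, Nat.zero_le _⟩⟩
  set δ₁ : ℕ := (max δ 0) ^ (Fintype.card I * (Fintype.card Empty + 1)) with hδ₁
  obtain ⟨C, δ', hC⟩ := hA n (δ₁ + δ₀)
  refine ⟨C, fun a b ha hb => ?_⟩
  by_contra hcon
  -- the exceptional sums
  have hbad : ∀ E : I, ∃ L : IntermediateField ℚ ℂ, FiniteDimensional ℚ L ∧
      Module.finrank ℚ L ≤ δ ∧ ∃ (K : IntermediateField ℚ ℂ) (r : ℕ) (m : Fin r → Fin k)
        (R : Matrix (ι × Fin r) (ι × Fin r) L) (c : GL (ι × Fin r) ℂ), K ≤ L ∧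
        Function.Injective m ∧ (∀ i, m i ∉ E.1) ∧
        c.1 = (blockDiagonal fun i => C₀.1 * Pf ((a : ℂ) / (b + (m i : ℕ) * a))) *
          R.map (fun x => (x : ℂ)) ∧
        ∃ g ∈ bd G r, ¬ (g * c ∈ Tors.OmegaM K c ∧ g * c ∈ ZarD K D c) := by
    intro E
    by_contra hno
    apply hcon
    refine ⟨E.1.map Fin.valEmbedding, by rw [Finset.card_map]; exact E.2, ?_⟩
    intro r m hm hmk K L hKL hL hLδ R c hc
    let m' : Fin r → Fin k := fun i => ⟨m i, (hmk i).1⟩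
    have h1 : ∀ g ∈ bd G r, g * c ∈ Tors.OmegaM K c ∧ g * c ∈ ZarD K D c := by
      intro g hg
      by_contra h2
      refine hno ⟨L, hL, hLδ, K, r, m', R, c, hKL, ?_, ?_, hc, g, hg, h2⟩
      · intro i j hij
        exact hm (congrArg Fin.val hij)
      · intro i hi
        exact (hmk i).2 (Finset.mem_map.2 ⟨m' i, hi, rfl⟩)
    refine ⟨h1, ?_⟩
    intro ψdR S hw hpol hS hPS hO
    exact good2 hLies hZar (hKL.trans (CF.MainM.le_Qbar L)) (hBss ι G r hG).1 (iso_bd hiso) h1 ψdR S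
      hw hpol hS hPS hO
  choose K hKf hKδ hrest using hbad
  obtain ⟨L₀, hKL₀, hL₀f, -, hL₀d⟩ := exists_field' hDeg I Empty 0 δ K hKf hKδ
    (fun q => q.elim) (fun q => q.elim)
  obtain ⟨L, hL₀L, hLf, hLd, t, y, hPf, hyτ, hrel⟩ := hC a b ha hb L₀ hL₀f
    (hL₀d.trans (Nat.le_add_right _ _))
  obtain ⟨E, hE, hmain⟩ := hn t L hLf y hyτ fun L' h1 h2 h3 => hrel L' h1 h2
    (h3.trans (Nat.mul_le_mul_left _ (Nat.le_add_left _ _)))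
  obtain ⟨K₁, r, m, R, c, hK₁, hm, hmE, hc, g, hg, hbad⟩ := hrest ⟨E, hE⟩
  have hRdet : (R.map (fun x => (x : ℂ))).det ≠ 0 := by
    have h1 := CF.MainM.det_unit c
    rw [hc, det_mul] at h1
    exact right_ne_zero_of_mul h1
  have hcx : c = bl (fun i => C₀ * gl (cx N) t * y (m i)) *
      Matrix.GeneralLinearGroup.mkOfDetNeZero _ hRdet := by
    refine Units.ext ?_
    rw [hc]
    change _ = (blockDiagonal fun i => (C₀ * gl (cx N) t * y (m i)).1) *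
      R.map (fun x => (x : ℂ))
    congr 2
    funext i
    rw [hPf, ← Matrix.mul_assoc]
    rfl
  exact hbad (hmain r m hm hmE K₁ _ c (hK₁.trans ((hKL₀ ⟨E, hE⟩).trans hL₀L))
    (fun i j => (hKL₀ ⟨E, hE⟩).trans hL₀L (R i j).2) hcx g hg)

end Pool.Agent.Lib.MPf11a48.CG.MainKM

namespace Pool.Agent.Lib.MPf11a48.CG

open Polynomial Matrix
open scoped PowerSeries
open Pool.Agent.Lib.MPf11a48.Tors
open Pool.Agent.Lib.MPf11a48.GL2T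
open Pool.Agent.Lib.MPf11a48.GL2 (lie van en Geo)
open Pool.Agent.Lib.MPf11a48.GF
open Pool.Agent.Lib.MPf11a48.CF (vm)
open Pool.Agent.Lib.MPf11a48.K3 (cx)

/-- the hypothesis on the periods of the fibre at `0` -/
theorem fin_all (hNrm : SpecNrm) (hGt : SpecGt) (hUlt : SpecUltJ) (hExc : SpecExc)
    (hPlf : SpecPlf) (hBss : SpecBss) (hSttj : SpecSttj) (hStnj : SpecStnj) {ι : Type} [Fintype ι]
    [DecidableEq ι] {G G₀ : Subgroup (GL ι ℂ)} {ψ₀ ψ N : Matrix ι ι ℚ} {C₀ : GL ι ℂ} {ϖ : ℂ}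
    (D s : ℕ) (hG : IsSS G) (hiso : ∀ g ∈ G, g.1ᵀ * cx ψ * g.1 = cx ψ) (hd : ψ.det ≠ 0)
    (hG₀ : ClosedOver ⊥ (G₀ : Set (GL ι ℂ))) (hGG : ∀ g, g ∈ G₀ ↔ C₀ * g * C₀⁻¹ ∈ G)
    (hϖ : ϖ ≠ 0) (hC₀ : C₀.1ᵀ * cx ψ * C₀.1 = ϖ • cx ψ₀)
    (hN : IsNilpotent N) (hN₀ : cx N ∈ lie (G₀ : Set (GL ι ℂ)))
    (h : Fintype.card ι ^ 2 ≤ s ∨ TrS C₀.1 N s ∨ D = 0 ∧ (FewS G C₀.1 N s ∨
      N = 0 ∧ ∃ (P Q : Matrix ι ι ℂ) (d : ι → ℂ),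
        C₀.1 = P * diagonal d * Q ∧ IsAlg P ∧ IsAlg Q ∧ Ncl G P d)) (k : ℕ) :
    MainKM.Fin0 C₀ N G G₀ s k D := by
  have hj : (Fintype.card ι ^ 2 ≤ s ∨ TrS C₀.1 N s) ∨ (D = 0 ∧ (FewS G C₀.1 N s ∨
      N = 0 ∧ ∃ (P Q : Matrix ι ι ℂ) (d : ι → ℂ),
        C₀.1 = P * diagonal d * Q ∧ IsAlg P ∧ IsAlg Q ∧ Ncl G P d)) := or_assoc.2 h
  clear h
  rcases hj with h | ⟨hD, h⟩
  · exact MainKM.finP hNrm hGt hUlt hExc hPlf hBss D s hG hiso hd hG₀ hGG hϖ hC₀ hN hN₀ h k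
  · subst hD
    refine MainKM.finS hNrm hGt hBss hG hiso hd hG₀ hGG hϖ hC₀ hN₀ fun D' => ?_
    rcases h with h | ⟨hN', P, Q, d, h1, h2, h3, h4⟩
    · exact hSttj ι C₀ N G G₀ s hG hG₀ hGG hN hN₀ h k D'
    · subst hN'
      exact hStnj ι C₀ G G₀ P Q d hG hGG h1 h2 h3 h4 s k D'

/-- Theorem K, from the Specs -/
theorem mainK (hRelt : SpecRelt) (hNormt : SpecNormt) (hVal : SpecVal) (hTor : SpecTor)
    (hDeg : SpecDeg) (hNrm : SpecNrm) (hGt : SpecGt) (hLies : SpecLies) (hUlt : SpecUltJ)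
    (hExc : SpecExc) (hPlf : SpecPlf) (hZar : SpecZar) (hBss : SpecBss) (hSttj : SpecSttj)
    (hStnj : SpecStnj) : StatementK := by
  intro ι _ _ T B Y G G₀ ψ₀ ψ N C₀ w δ D s hG hiso hd hG₀ hGG hF hC₀ hN hN₀ h k
  have h2pi : (2 * Real.pi * Complex.I : ℂ) ≠ 0 := Complex.two_pi_I_ne_zero
  have hϖ : (2 * Real.pi * Complex.I : ℂ) ^ w ≠ 0 := zpow_ne_zero _ h2pi
  have hd₀ : ψ₀.det ≠ 0 := MainPM.det_ne hC₀ hd
  -- the form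
  have hiso₀ : ∀ g ∈ G₀, g.1ᵀ * cx ψ₀ * g.1 = cx ψ₀ := by
    intro g hg
    have h1 := hiso _ ((hGG g).1 hg)
    have e1 : C₀.1 * g.1 = (C₀ * g * C₀⁻¹).1 * C₀.1 := by
      have : C₀ * g = C₀ * g * C₀⁻¹ * C₀ := by group
      exact congrArg Units.val this
    have h2 : (C₀.1 * g.1)ᵀ * cx ψ * (C₀.1 * g.1) = C₀.1ᵀ * cx ψ * C₀.1 := by
      rw [e1]
      generalize (C₀ * g * C₀⁻¹).1 = A at h1 ⊢
      calc (A * C₀.1)ᵀ * cx ψ * (A * C₀.1) = C₀.1ᵀ * (Aᵀ * cx ψ * A) * C₀.1 := by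
            rw [Matrix.transpose_mul]
            simp only [Matrix.mul_assoc]
        _ = _ := by rw [h1]
    have h3 : (C₀.1 * g.1)ᵀ * cx ψ * (C₀.1 * g.1) = g.1ᵀ * (C₀.1ᵀ * cx ψ * C₀.1) * g.1 := by
      rw [Matrix.transpose_mul]
      simp only [Matrix.mul_assoc]
    rw [h3, hC₀, Matrix.mul_smul, Matrix.smul_mul] at h2
    exact smul_right_injective _ hϖ h2
  have hNψ : Nᵀ * ψ₀ + ψ₀ * N = 0 := MainAM.form_lie hiso₀ hN₀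
  by_cases hY : Y.det = 0
  · obtain ⟨C, hC⟩ := MainAM.no_c specEval hF.g hY
    have hcast : ∀ (a b : ℤ) (m : ℕ), ((a : ℂ) / ((b + m * a : ℤ) : ℂ)) =
        (a : ℂ) / (b + m * a) := by
      intro a b m
      push_cast
      rfl
    refine ⟨C + k + 1, fun a b ha hb => ⟨∅, Nat.zero_le _, ?_⟩⟩
    intro r hr m hm hmk K L hKL hL hLδ R c hc
    exfalso
    have h1 := hC a (b + m ⟨0, hr⟩ * a) ha
      (MainAM.shift (by have := (hmk ⟨0, hr⟩).1; omega) ha hb)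
    rw [hcast] at h1
    apply CF.MainM.det_unit c
    rw [hc, det_mul, det_blockDiagonal]
    refine mul_eq_zero_of_left (Finset.prod_eq_zero (Finset.mem_univ ⟨0, hr⟩) ?_) _
    rw [det_mul, h1, mul_zero]
  · have hA := MainKM.ari hRelt hNormt hVal hTor hDeg hG hG₀ hGG hF hN hN₀ hd₀ hNψ hY
    obtain ⟨C, hC⟩ := MainKM.assemble hDeg hLies hZar hBss w δ D s k hG hiso (hA k)
      (fin_all hNrm hGt hUlt hExc hPlf hBss hSttj hStnj D s hG hiso hd hG₀ hGG hϖ hC₀ hN hN₀ h k)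
    refine ⟨C, fun a b ha hb => ?_⟩
    obtain ⟨E, hE, hm⟩ := hC a b ha hb
    refine ⟨E, hE, fun r _ m hmi hmk => ?_⟩
    have h1 := hm r m hmi hmk
    simp only [← Matrix.mul_assoc] at h1
    exact h1

end Pool.Agent.Lib.MPf11a48.CG
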