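import Pool.Agent.Lib.MP_f11a48_ag.CG.SpecL
import Pool.Agent.Lib.MP_f11a48_ag.CG.MainJ

/-!
# Families with arbitrary local monodromy, ARIL: the arithmetic of the family
-/

set_option autoImplicit false

namespace Pool.Agent.Lib.MPf11a48.CG

open Polynomial Matrix
open scoped PowerSeries
open Pool.Agent.Lib.MPf11a48.Tors
open Pool.Agent.Lib.MPf11a48.CM hiding OmegaM
open Pool.Agent.Lib.MPf11a48.GL2T Pool.Agent.Lib.MPf11a48.GF
open Pool.Agent.Lib.MPf11a48.CF (vm ta pl)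
open Pool.Agent.Lib.MPf11a48.GL2 (lie van en Geo)
open Pool.Agent.Lib.MPf11a48.K3 (cx)
open Pool.Agent.Lib.MPf11a48.K3.KCurM (gl)

namespace ArilM

variable {ι : Type} [Fintype ι] [DecidableEq ι]

/-- `exp (t Λ)` -/
theorem exp_diag {e : ℕ} (l : ι → ℕ) (t : ℂ) :
    NormedSpace.exp (t • cx (diagonal fun i => (l i : ℚ) / e)) =
      diagonal fun i => Complex.exp (t / e) ^ l i := by
  have h1 : t • cx (diagonal fun i => (l i : ℚ) / e) = diagonal fun i => t * ((l i : ℂ) / e) := by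
    ext i j
    rw [Matrix.smul_apply, smul_eq_mul]
    change t * ((diagonal (fun i => (l i : ℚ) / e) i j : ℚ) : ℂ) = _
    by_cases h : i = j
    · subst h
      rw [diagonal_apply_eq, diagonal_apply_eq]
      push_cast
      rfl
    · rw [diagonal_apply_ne _ h, diagonal_apply_ne _ h]
      simp
  rw [h1, Matrix.exp_diagonal]
  congr 1
  funext i
  rw [← Complex.exp_nat_mul, Pi.coe_exp, ← Complex.exp_eq_exp_ℂ]
  congr 1
  ring

/-- `Λ` commutes with `N` -/
theorem comm {e : ℕ} {l : ι → ℕ} {N : Matrix ι ι ℚ} (h : ∀ i j, N i j ≠ 0 → l i = l j) :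
    Commute (diagonal fun i => (l i : ℚ) / e) N := by
  change _ = _
  ext i j
  rw [diagonal_mul, mul_diagonal]
  by_cases h0 : N i j = 0
  · rw [h0, mul_zero, zero_mul]
  · rw [h i j h0, mul_comm]

theorem cx_mul (A B : Matrix ι ι ℚ) : cx (A * B) = cx A * cx B :=
  Matrix.map_mul (f := algebraMap ℚ ℂ)

theorem cx_add (A B : Matrix ι ι ℚ) : cx (A + B) = cx A + cx B :=
  Matrix.map_add _ (fun a b => map_add (algebraMap ℚ ℂ) a b) A B

/-- `exp (t M) = exp (t N) * exp (t Λ)` -/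
theorem exp_xp {e : ℕ} {l : ι → ℕ} {N : Matrix ι ι ℚ} (h : ∀ i j, N i j ≠ 0 → l i = l j) (t : ℂ) :
    NormedSpace.exp (t • cx (xp e l N)) =
      NormedSpace.exp (t • cx N) * diagonal fun i => Complex.exp (t / e) ^ l i := by
  have h1 : Commute (cx N) (cx (diagonal fun i => (l i : ℚ) / e)) := by
    have h2 := (comm (e := e) h).symm
    change _ = _ at h2
    change _ = _
    rw [← cx_mul, ← cx_mul, h2]
  rw [← exp_diag, xp, add_comm, cx_add, smul_add, Matrix.exp_add_of_commute]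
  exact (h1.smul_left _).smul_right _

end ArilM

open ArilM in
theorem specAril (hRell : SpecRell) (hNorml : SpecNorml) (hValm : SpecValm) (hTorl : SpecTorl)
    (hNzm : SpecNzm) (hDeg : SpecDeg) (hPnl : SpecPnl) (hPsi : SpecPsi) : SpecAril := by
  classical
  intro ι _ _ k e l T B N ψ₀ Y G₀ hF hG₀ hN hN₀ hd₀ hY hNψ n δ
  have he := hF.pos
  have hcl := hG₀.closed
  obtain ⟨r₀, p, hsep, halg⟩ := hF.tor
  choose d Ct hCt using fun x => hTorl ι e l Y he hF.g (p x) (halg x)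
  set E₀ : ℕ := (∑ x, d x) + e with hE₀
  set δ' : ℕ := (max δ E₀) ^ (Fintype.card Unit * (Fintype.card (Option (Fin k × Fin r₀)) + 1))
    with hδ'
  obtain ⟨n₁, hn₁⟩ := hNorml ι (Fin k) e l G₀ r₀ p n (δ' * δ) he hcl hG₀.irred hsep
  choose Cv hCv using fun m : ℕ => hValm ι (xp e l N) Y m (hPnl ι e l N he hF.com hN m).1
    (hPnl ι e l N he hF.com hN m).2 hF.g
  obtain ⟨Cr, hCr⟩ := hRell ι k e l T B N ψ₀ Y G₀ hF hN hd₀ hY hNψ k (fun x : Fin k => (x : ℕ))
    (fun x y h => Fin.ext h) (fun x => x.2) n₁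
  obtain ⟨Cz, hCz⟩ := hNzm ι T B (xp e l N) (psx e l ψ₀) Y ⟨hF.ne, hF.sol, hF.g, hF.pol⟩
    ((hPsi ι e l N ψ₀ he hF.com hF.div).2 hd₀) hY
  obtain ⟨C₁, hCdef⟩ : ∃ C₁ : ℕ, C₁ = Cr + Cz + (∑ x, Ct x) + (∑ m ∈ Finset.range k, Cv m) + k + 1 :=
    ⟨_, rfl⟩
  refine ⟨C₁, δ', ?_⟩
  intro a b ha hb L₀ hL₀ hL₀δ
  have hcast : ∀ x : Fin k, ((a : ℂ) / ((b + ((x : ℕ) : ℤ) * a : ℤ) : ℂ)) =
      (a : ℂ) / (b + (x : ℕ) * a) := by
    intro x
    push_cast
    rfl
  have hb0 : 0 < b := CF.PolM.pos (C := C₁) (by omega) ha hb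
  have hz0 : (a : ℂ) / b ≠ 0 := div_ne_zero (by exact_mod_cast ha) (by exact_mod_cast hb0.ne')
  have heC : (e : ℂ) ≠ 0 := by exact_mod_cast he
  -- the roots
  have hroot : ∀ z : ℂ, z ≠ 0 → Complex.exp (Complex.log z / e) ^ e = z := by
    intro z hz
    rw [← Complex.exp_nat_mul, mul_div_cancel₀ _ heC, Complex.exp_log hz]
  set u : ℂ := Complex.exp (Complex.log ((a : ℂ) / b) / e) with hu
  have hue : u ^ e = (a : ℂ) / b := hroot _ hz0
  have hu0 : u ≠ 0 := Complex.exp_ne_zero _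
  -- the matrices
  have hdet : ∀ x : Fin k, (vm Y ((a : ℂ) / (b + (x : ℕ) * a))).det ≠ 0 := by
    intro x
    have h1 := hCz a (b + ((x : ℕ) : ℤ) * a) ha
      (MainAM.shift (by have := x.2; omega) ha hb)
    rwa [hcast] at h1
  have hzx : ∀ x : Fin k, (a : ℂ) / (b + (x : ℕ) * a) ≠ 0 := by
    intro x
    rw [← hcast]
    refine div_ne_zero (by exact_mod_cast ha) ?_
    have h1 : 0 < b + ((x : ℕ) : ℤ) * a := by
      have h2 := MainAM.shift (C := C₁) (C' := 1) (m := (x : ℕ)) (by have := x.2; omega) ha hb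
      have h3 : 1 ≤ |a| := Int.one_le_abs ha
      push_cast at h2
      rw [one_mul, pow_one] at h2
      omega
    exact_mod_cast h1.ne'
  have hv : ∀ x : Fin k, Cv x ≤ ∑ m ∈ Finset.range k, Cv m := fun x =>
    Finset.single_le_sum (f := Cv) (fun _ _ => Nat.zero_le _) (Finset.mem_range.2 x.2)
  have hval := fun x : Fin k => hCv x a b ha (CF.PolM.mono (by have := hv x; omega) ha hb)
  have hy' : ∀ x : Fin k, ∃ y : GL ι ℂ, y.1 =
      diagonal (fun i => u ^ l i) * vm (trm (x : ℕ) (xp e l N) Y) ((a : ℂ) / b) := by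
    intro x
    refine ⟨Matrix.GeneralLinearGroup.mkOfDetNeZero _ ?_, rfl⟩
    rw [det_mul, det_diagonal]
    refine mul_ne_zero (Finset.prod_ne_zero_iff.2 fun i _ => pow_ne_zero _ hu0) ?_
    intro h0
    have h1 := congrArg det (hval x)
    rw [det_mul, det_mul, h0, mul_zero] at h1
    refine mul_ne_zero ?_ (hdet x) h1
    exact CF.MainM.det_unit (gl (cx (xp e l N)) (Complex.log ((a : ℂ) / (b + (x : ℕ) * a))))
  choose y hy using hy'
  have hw' : ∀ x : Fin k, ∃ w : GL ι ℂ, w.1 =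
      diagonal (fun i => Complex.exp (Complex.log ((a : ℂ) / (b + (x : ℕ) * a)) / e) ^ l i) *
        vm Y ((a : ℂ) / (b + (x : ℕ) * a)) := by
    intro x
    refine ⟨Matrix.GeneralLinearGroup.mkOfDetNeZero _ ?_, rfl⟩
    rw [det_mul, det_diagonal]
    exact mul_ne_zero (Finset.prod_ne_zero_iff.2 fun i _ => pow_ne_zero _ (Complex.exp_ne_zero _))
      (hdet x)
  choose w hw using hw'
  -- the fibres
  have hfib : ∀ x : Fin k, NormedSpace.exp
      (Complex.log ((a : ℂ) / (b + (x : ℕ) * a)) • cx (xp e l N)) *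
      vm Y ((a : ℂ) / (b + (x : ℕ) * a)) =
      NormedSpace.exp (Complex.log ((a : ℂ) / b) • cx N) * (y x).1 := by
    intro x
    rw [hval x, exp_xp hF.com, Matrix.mul_assoc, hy x]
  have hyw : ∀ x, y x * (w x)⁻¹ ∈ G₀ := by
    intro x
    have h1 : gl (cx N) (Complex.log ((a : ℂ) / b)) * y x =
        gl (cx N) (Complex.log ((a : ℂ) / (b + (x : ℕ) * a))) * w x := by
      refine Units.ext ?_
      change NormedSpace.exp (Complex.log ((a : ℂ) / b) • cx N) * (y x).1 =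
        NormedSpace.exp (Complex.log ((a : ℂ) / (b + (x : ℕ) * a)) • cx N) * (w x).1
      rw [← hfib x, exp_xp hF.com, Matrix.mul_assoc, hw x]
    have h2 : y x * (w x)⁻¹ = (gl (cx N) (Complex.log ((a : ℂ) / b)))⁻¹ *
        gl (cx N) (Complex.log ((a : ℂ) / (b + (x : ℕ) * a))) := by
      rw [mul_inv_eq_iff_eq_mul, mul_assoc, ← h1, inv_mul_cancel_left]
    rw [h2]
    exact G₀.mul_mem (G₀.inv_mem (MainM.gl_mem hcl hN₀ _)) (MainM.gl_mem hcl hN₀ _)
  -- the invariants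
  have halgv : ∀ q : Option (Fin k × Fin r₀), ∃ f : ℚ[X], f ≠ 0 ∧ f.natDegree ≤ E₀ ∧
      aeval (q.elim u fun q => MvPolynomial.aeval (en (y q.1).1) (p q.2)) f = 0 := by
    rintro (_ | ⟨x, j⟩)
    · refine ⟨X ^ e - C ((a : ℚ) / b), ?_, ?_, ?_⟩
      · exact X_pow_sub_C_ne_zero (Nat.pos_of_ne_zero he) _
      · rw [natDegree_X_pow_sub_C]
        omega
      · rw [Option.elim_none, map_sub, map_pow, aeval_X, aeval_C, hue, map_div₀, map_intCast,
          map_intCast, sub_self]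
    · rw [Option.elim_some]
      have h1 : Ct j ≤ ∑ x, Ct x :=
        Finset.single_le_sum (f := Ct) (fun _ _ => Nat.zero_le _) (Finset.mem_univ j)
      obtain ⟨f, hf, hf2, hf3⟩ := hCt j a (b + ((x : ℕ) : ℤ) * a) ha
        (MainAM.shift (by have := x.2; omega) ha hb)
        (Complex.exp (Complex.log ((a : ℂ) / (b + (x : ℕ) * a)) / e)) (by
          rw [hcast]
          exact hroot _ (hzx x))
      rw [hcast, ← hw x] at hf3
      have h2 : d j ≤ ∑ x, d x := Finset.single_le_sum (f := d) (fun _ _ => Nat.zero_le _)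
        (Finset.mem_univ j)
      refine ⟨f, hf, by omega, ?_⟩
      have h3 : MvPolynomial.aeval (en (y x).1) (p j) = MvPolynomial.aeval (en (w x).1) (p j) :=
        (hsep (w x) (y x)).1 (hyw x) j
      change aeval (MvPolynomial.aeval (en (y x).1) (p j)) f = 0
      rw [h3]
      exact hf3
  obtain ⟨L, hL0L, hLf, hxL, hLd⟩ := MainJM.exists_field' hDeg Unit (Option (Fin k × Fin r₀)) E₀ δ
    (fun _ => L₀) (fun _ => hL₀) (fun _ => hL₀δ) _ halgv
  have huL : u ∈ L := hxL none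
  have hpL : ∀ x j, MvPolynomial.aeval (en (y x).1) (p j) ∈ L := fun x j => hxL (some (x, j))
  refine ⟨L, hL0L (), hLf, hLd, Complex.log ((a : ℂ) / b), y, hfib, ?_, ?_⟩
  · intro x τ hτ
    refine (hsep (y x) (tw τ (y x))).2 fun j => ?_
    have h1 := MainM.aeval_fix τ (p j) (y x)
    have h2 : τ (MvPolynomial.aeval (en (y x).1) (p j)) = MvPolynomial.aeval (en (y x).1) (p j) :=
      hτ _ (hpL x j)
    rw [h2] at h1
    exact h1
  · intro L' hLL' hL'f hL'd
    refine hn₁ u y L' hu0 ⟨(a : ℚ) / b, by rw [hue]; push_cast; rfl⟩ hL'f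
      (hL'd.trans (Nat.mul_le_mul_right _ hLd)) (hLL' huL) (fun x j => hLL' (hpL x j)) ?_
    have h1 := hCr a b ha (CF.PolM.mono (by omega) ha hb) u hue
    have h3 : (fun x => (y x).1) = fun x : Fin k =>
        diagonal (fun i => u ^ l i) * vm (trm (x : ℕ) (xp e l N) Y) ((a : ℂ) / b) := funext hy
    rw [h3]
    exact h1

end Pool.Agent.Lib.MPf11a48.CG
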