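import Pool.Agent.Lib.MP_f11a48_ag.CG.SpecL
import Pool.Agent.Lib.MP_f11a48_ag.CG.Blk

/-!
# Module BLM: direct sums of systems (general local monodromy)
-/

set_option autoImplicit false

namespace Pool.Agent.Lib.MPf11a48.CG.BlmM

open Polynomial Matrix
open scoped PowerSeries
open Pool.Agent.Lib.MPf11a48.GL2T Pool.Agent.Lib.MPf11a48.GF

theorem map_blockP {ι σ : Type} [DecidableEq σ] (Ψ : Matrix ι ι ℚ[X]) :
    (blockDiagonal fun _ : σ => Ψ).map (fun p : ℚ[X] => (p : ℚ⟦X⟧)) =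
      blockDiagonal fun _ : σ => Ψ.map (fun p : ℚ[X] => (p : ℚ⟦X⟧)) := by
  rw [blockDiagonal_map]
  exact Polynomial.coe_zero

end Pool.Agent.Lib.MPf11a48.CG.BlmM

namespace Pool.Agent.Lib.MPf11a48.CG

open Polynomial Matrix
open scoped PowerSeries
open Pool.Agent.Lib.MPf11a48.GL2T Pool.Agent.Lib.MPf11a48.GF

open BlkM BlmM in
theorem specBLM : SpecBlm := by
  intro ι σ _ _ _ _ T B M Ψ Y h
  refine ⟨∏ a, T a, blockDiagonal fun a => (B a).map fun p => co T a * p, ?_, ?_, ?_, ?_⟩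
  · exact Finset.prod_ne_zero_iff.2 fun a _ => (h a).ne
  · rintro ⟨i, a⟩ ⟨j, b⟩
    rw [map_block, ← blockDiagonal_mul]
    by_cases hab : a = b
    · subst hab
      rw [blockDiagonal_apply_eq, blockDiagonal_apply_eq]
      have h1 := (h a).sol i j
      have h2 : ((X * zq (∏ c, T c) : ℚ[X]) : ℚ⟦X⟧) =
          ((zq (co T a) : ℚ[X]) : ℚ⟦X⟧) * ((X * zq (T a) : ℚ[X]) : ℚ⟦X⟧) := by
        rw [← co_mul T a, zq_mul, ← Polynomial.coe_mul]
        congr 1
        ring
      have h3 : ((zq (∏ c, T c) : ℚ[X]) : ℚ⟦X⟧) =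
          ((zq (co T a) : ℚ[X]) : ℚ⟦X⟧) * ((zq (T a) : ℚ[X]) : ℚ⟦X⟧) := by
        rw [← co_mul T a, zq_mul, ← Polynomial.coe_mul]
      have h4 : ∑ k : ι × σ, ((X * zq ((blockDiagonal fun a => (B a).map fun p => co T a * p)
          (j, a) k) : ℚ[X]) : ℚ⟦X⟧) * blockDiagonal Y (i, a) k =
          ∑ k, ((zq (co T a) : ℚ[X]) : ℚ⟦X⟧) * (((X * zq (B a j k) : ℚ[X]) : ℚ⟦X⟧) * Y a i k) := by
        rw [Fintype.sum_prod_type]
        refine Finset.sum_congr rfl fun k _ => ?_
        rw [Finset.sum_eq_single a]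
        · rw [blockDiagonal_apply_eq, blockDiagonal_apply_eq, ← mul_assoc, ← Polynomial.coe_mul]
          congr 2
          rw [Matrix.map_apply, zq_mul]
          ring
        · intro c _ hc
          rw [blockDiagonal_apply_ne Y _ _ (Ne.symm hc), mul_zero]
        · intro h
          exact absurd (Finset.mem_univ _) h
      rw [h2, h3, h4, mul_assoc, h1, mul_sub, Finset.mul_sum, mul_assoc]
    · rw [blockDiagonal_apply_ne _ _ _ hab, blockDiagonal_apply_ne _ _ _ hab, map_zero, mul_zero,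
        mul_zero, sub_zero]
      refine (Finset.sum_eq_zero ?_).symm
      rintro ⟨k, c⟩ _
      by_cases hc : a = c
      · subst hc
        rw [blockDiagonal_apply_ne _ _ _ (Ne.symm hab), zq_zero, mul_zero,
          Polynomial.coe_zero, zero_mul]
      · rw [blockDiagonal_apply_ne Y _ _ hc, mul_zero]
  · exact isG_block Y fun a => (h a).g
  · choose D hD hq using fun a => (h a).pol
    refine ⟨∏ a, D a, Finset.prod_ne_zero_iff.2 fun a _ => hD a, ?_⟩
    rintro ⟨i, a⟩ ⟨j, b⟩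
    rw [map_blockP, blockDiagonal_transpose, ← blockDiagonal_mul, ← blockDiagonal_mul]
    by_cases hab : a = b
    · subst hab
      obtain ⟨q, hq⟩ := hq a i j
      refine ⟨co D a * q, ?_⟩
      rw [blockDiagonal_apply_eq, Polynomial.coe_mul, ← hq, ← co_mul D a, Polynomial.coe_mul,
        mul_assoc]
    · refine ⟨0, ?_⟩
      rw [blockDiagonal_apply_ne _ _ _ hab, mul_zero, Polynomial.coe_zero]

end Pool.Agent.Lib.MPf11a48.CG
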