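import Pool.Agent.Lib.MP_f11a48_ag.CG.SpecL
import Pool.Agent.Lib.MP_f11a48_ag.CG.Bnm

/-!
# Module BND: common denominators of the binomial coefficients of `Λ + N`
-/

set_option autoImplicit false

namespace Pool.Agent.Lib.MPf11a48.CG

open Matrix

namespace BndM

/-- the exponent of a prime in `a !` is at most `a` -/
theorem val_le (ℓ a : ℕ) (hℓ : ℓ.Prime) : padicValNat ℓ a.factorial ≤ a := by
  have : Fact ℓ.Prime := ⟨hℓ⟩
  have h1 := sub_one_mul_padicValNat_factorial (p := ℓ) a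
  have h2 : 1 ≤ ℓ - 1 := by
    have := hℓ.two_le
    omega
  have h3 : padicValNat ℓ a.factorial ≤ (ℓ - 1) * padicValNat ℓ a.factorial :=
    Nat.le_mul_of_pos_left _ h2
  omega

/-- the decomposition of `a !` -/
theorem split (a e : ℕ) :
    ∃ A B : ℕ, a.factorial = A * B ∧ Nat.Coprime A e ∧ B ∣ e ^ a := by
  obtain ⟨m, hm⟩ : ∃ m, m = a.factorial := ⟨_, rfl⟩
  have hm0 : 0 < m := by rw [hm]; exact a.factorial_pos
  have hB : Nat.gcd m (e ^ a) ∣ m := Nat.gcd_dvd_left _ _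
  have hB0 : 0 < Nat.gcd m (e ^ a) := Nat.gcd_pos_of_pos_left _ hm0
  refine ⟨m / Nat.gcd m (e ^ a), Nat.gcd m (e ^ a), by rw [← hm, Nat.div_mul_cancel hB], ?_,
    Nat.gcd_dvd_right _ _⟩
  rw [Nat.coprime_iff_gcd_eq_one]
  by_contra hne
  obtain ⟨ℓ, hℓ, h1⟩ := Nat.exists_prime_and_dvd hne
  have : Fact ℓ.Prime := ⟨hℓ⟩
  have h2 : ℓ ∣ m / Nat.gcd m (e ^ a) := h1.trans (Nat.gcd_dvd_left _ _)
  have h3 : ℓ ∣ e := h1.trans (Nat.gcd_dvd_right _ _)
  have h4 : ℓ ^ padicValNat ℓ m ∣ m := pow_padicValNat_dvd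
  have h5 : ℓ ^ padicValNat ℓ m ∣ e ^ a := by
    have h6 : padicValNat ℓ m ≤ a := by rw [hm]; exact val_le ℓ a hℓ
    exact (pow_dvd_pow ℓ h6).trans (pow_dvd_pow_of_dvd h3 a)
  have h7 : ℓ ^ (padicValNat ℓ m + 1) ∣ m := by
    rw [pow_succ']
    calc ℓ * ℓ ^ padicValNat ℓ m ∣ (m / Nat.gcd m (e ^ a)) * Nat.gcd m (e ^ a) :=
          mul_dvd_mul h2 (Nat.dvd_gcd h4 h5)
      _ = m := Nat.div_mul_cancel hB
  exact pow_succ_padicValNat_not_dvd hm0.ne' h7

/-- product of `a` consecutive integers -/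
theorem fact_dvd_consec (a : ℕ) (x : ℕ) :
    ((a.factorial : ℕ) : ℤ) ∣ ∏ k ∈ Finset.range a, ((x : ℤ) - k) := by
  have h1 : ∏ k ∈ Finset.range a, ((x : ℤ) - k) = ((x.descFactorial a : ℕ) : ℤ) := by
    rw [← descPochhammer_eval_eq_prod_range, descPochhammer_eval_eq_descFactorial]
  rw [h1]
  exact_mod_cast Nat.factorial_dvd_descFactorial x a

/-- the key divisibility -/
theorem fact_dvd (p : ℤ) (e a : ℕ) :
    ((a.factorial : ℕ) : ℤ) ∣ (e : ℤ) ^ a * ∏ k ∈ Finset.range a, (p - e * k) := by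
  obtain ⟨A, B, hAB, hA, hB⟩ := split a e
  have hA0 : A ≠ 0 := by
    rintro rfl
    rw [zero_mul] at hAB
    exact a.factorial_ne_zero hAB
  have hcop : IsCoprime (A : ℤ) (e : ℤ) := Nat.isCoprime_iff_coprime.2 hA
  obtain ⟨u, v, huv⟩ := hcop
  obtain ⟨x, hx⟩ : ∃ x : ℕ, (A : ℤ) ∣ e * x - p := by
    refine ⟨((v * p) % A).toNat, ?_⟩
    have h1 : 0 ≤ (v * p) % (A : ℤ) := Int.emod_nonneg _ (by exact_mod_cast hA0)
    rw [Int.toNat_of_nonneg h1]
    have h2 : (v * p) % (A : ℤ) = v * p - A * (v * p / A) := by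
      have := Int.emod_add_mul_ediv (v * p) A
      linarith
    rw [h2]
    refine ⟨-(u * p) - e * (v * p / A), ?_⟩
    have h3 : p = (u * A + v * e) * p := by rw [huv, one_mul]
    linear_combination (-1 : ℤ) * h3
  have h1 : (A : ℤ) ∣ ∏ k ∈ Finset.range a, (p - e * k) := by
    have h2 : (A : ℤ) ∣ ∏ k ∈ Finset.range a, ((e : ℤ) * (x - k)) := by
      rw [Finset.prod_mul_distrib]
      refine dvd_mul_of_dvd_right (dvd_trans ?_ (fact_dvd_consec a x)) _
      rw [hAB]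
      push_cast
      exact dvd_mul_right _ _
    have h3 : ∏ k ∈ Finset.range a, (p - (e : ℤ) * k) ≡
        ∏ k ∈ Finset.range a, ((e : ℤ) * (x - k)) [ZMOD A] := by
      apply Int.ModEq.prod
      intro k _
      apply Int.modEq_of_dvd
      have h4 : (e : ℤ) * ((x : ℤ) - k) - (p - e * k) = e * x - p := by ring
      rw [h4]
      exact hx
    exact (Int.ModEq.dvd_iff h3).2 h2
  rw [hAB, mul_comm A B]
  push_cast
  exact mul_dvd_mul (by exact_mod_cast hB) h1

/-- the binomial coefficients of rational numbers -/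
theorem choose_int (p : ℤ) (e a : ℕ) (he : e ≠ 0) :
    ∃ z : ℤ, ((e : ℚ) ^ 2) ^ a * ((∏ k ∈ Finset.range a, ((p : ℚ) / e - k)) / a.factorial) = z := by
  obtain ⟨z, hz⟩ := fact_dvd p e a
  refine ⟨z, ?_⟩
  have he' : (e : ℚ) ≠ 0 := by exact_mod_cast he
  have hf : ((a.factorial : ℕ) : ℚ) ≠ 0 := by exact_mod_cast a.factorial_ne_zero
  have h1 : (e : ℚ) ^ a * ∏ k ∈ Finset.range a, ((p : ℚ) / e - k) =
      ∏ k ∈ Finset.range a, ((p : ℚ) - e * k) := by
    have h2 : (e : ℚ) ^ a = ∏ _k ∈ Finset.range a, (e : ℚ) := by simp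
    rw [h2, ← Finset.prod_mul_distrib]
    refine Finset.prod_congr rfl fun k _ => ?_
    field_simp
  have hz' : (e : ℚ) ^ a * ∏ k ∈ Finset.range a, ((p : ℚ) - e * k) = a.factorial * z := by
    exact_mod_cast hz
  rw [← h1] at hz'
  rw [← mul_div_assoc, div_eq_iff hf, mul_comm (z : ℚ), ← hz']
  ring

variable {ι : Type} [Fintype ι] [DecidableEq ι]

theorem bn_diag (d : ι → ℚ) : ∀ a : ℕ, bn (diagonal d) a =
    diagonal fun i => (∏ k ∈ Finset.range a, (d i - k)) / a.factorial := by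
  intro a
  induction a with
  | zero =>
    rw [bn]
    simp
  | succ a ih =>
    rw [bn, ih]
    have h1 : diagonal d - (a : ℚ) • (1 : Matrix ι ι ℚ) = diagonal fun i => d i - a := by
      rw [← diagonal_one, ← diagonal_smul, diagonal_sub]
      congr 1
      funext i
      simp
    rw [h1, diagonal_mul_diagonal, ← diagonal_smul]
    congr 1
    funext i
    have hf : ((a.factorial : ℕ) : ℚ) ≠ 0 := by exact_mod_cast a.factorial_ne_zero
    have ha : ((a + 1 : ℕ) : ℚ) ≠ 0 := by positivity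
    rw [Pi.smul_apply, smul_eq_mul, Finset.prod_range_succ, Nat.factorial_succ]
    push_cast at ha ⊢
    field_simp

theorem bnd (hPms : SpecPms) (e : ℕ) (he : e ≠ 0) (p : ι → ℤ) (N : Matrix ι ι ℚ)
    (hN : IsNilpotent N) (hc : ∀ i j, N i j ≠ 0 → p i = p j) :
    Bnd (diagonal (fun i => (p i : ℚ) / e) + N) := by
  obtain ⟨C, hC⟩ := specBnm ι N hN
  refine ⟨e ^ 2 * C, fun n => ?_⟩
  obtain ⟨q, hq0, hq, hz⟩ := hC n
  have he0 : 0 < e := Nat.pos_of_ne_zero he
  refine ⟨(e ^ 2) ^ n * q, by positivity, ?_, ?_⟩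
  · rw [mul_pow]
    refine Nat.mul_le_mul ?_ hq
    exact Nat.pow_le_pow_right (by positivity) (Nat.le_succ n)
  · intro a ha i j
    have hcomm : diagonal (fun i => (p i : ℚ) / e) * N = N * diagonal (fun i => (p i : ℚ) / e) := by
      ext i j
      rw [diagonal_mul, mul_diagonal]
      by_cases h0 : N i j = 0
      · rw [h0, mul_zero, zero_mul]
      · rw [hc i j h0, mul_comm]
    have h1 := (hPms ι (diagonal (fun i => (p i : ℚ) / e)) N hcomm).2 a
    rw [h1, Matrix.sum_apply, Finset.mul_sum]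
    have h2 : ∀ x ∈ Finset.HasAntidiagonal.antidiagonal a, ∃ z : ℤ, (((e ^ 2) ^ n * q : ℕ) : ℚ) *
        (bn (diagonal fun i => (p i : ℚ) / e) x.1 * bn N x.2) i j = z := by
      intro x hx
      have hx' : x.1 + x.2 = a := Finset.HasAntidiagonal.mem_antidiagonal.1 hx
      obtain ⟨z₁, hz₁⟩ := choose_int (p i) e x.1 he
      obtain ⟨z₂, hz₂⟩ := hz x.2 (by omega) i j
      refine ⟨(e ^ 2) ^ (n - x.1) * z₁ * z₂, ?_⟩
      rw [bn_diag, diagonal_mul]
      push_cast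
      rw [← hz₁, ← hz₂]
      have h3 : ((e : ℚ) ^ 2) ^ n = ((e : ℚ) ^ 2) ^ (n - x.1) * ((e : ℚ) ^ 2) ^ x.1 := by
        rw [← pow_add, Nat.sub_add_cancel (by omega)]
      rw [h3]
      ring
    choose! f hf using h2
    refine ⟨∑ x ∈ Finset.HasAntidiagonal.antidiagonal a, f x, ?_⟩
    push_cast
    refine Finset.sum_congr rfl fun x hx => ?_
    rw [← hf x hx]
    push_cast
    ring

end BndM

theorem specBnd (hPms : SpecPms) : SpecBnd := by
  intro ι _ _ e l N he hc hN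
  constructor
  · have h := BndM.bnd hPms e he (fun i => (l i : ℤ)) N hN
      (fun i j h0 => by rw [hc i j h0])
    simpa [xp] using h
  · have h := BndM.bnd hPms e he (fun i => -(l i : ℤ)) (-N) hN.neg
      (fun i j h0 => by
        rw [hc i j (fun h1 => h0 (by rw [Matrix.neg_apply, h1, neg_zero]))])
    have h2 : -xp e l N = diagonal (fun i => ((-(l i : ℤ) : ℤ) : ℚ) / e) + -N := by
      rw [xp, neg_add, diagonal_neg]
      congr 2
      funext i
      push_cast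
      ring
    rw [h2]
    exact h

end Pool.Agent.Lib.MPf11a48.CG
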