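import Pool.Agent.Lib.MP_f11a48_ag.CG.SpecL
import Pool.Agent.Lib.MP_f11a48_ag.CG.Galx
import Pool.Agent.Lib.MP_f11a48_ag.CG.Galy
import Pool.Agent.Lib.MP_f11a48_ag.CG.Ddf
import Pool.Agent.Lib.MP_f11a48_ag.CG.Gau
import Pool.Agent.Lib.MP_f11a48_ag.CG.Ydd

/-!
# Module GALM: the system of the entries of `Y` satisfies Galochkin's condition (any local monodromy)
-/

set_option autoImplicit false

namespace Pool.Agent.Lib.MPf11a48.CG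

open Polynomial Matrix
open scoped PowerSeries
open Pool.Agent.Lib.MPf11a48.GF

namespace GALMM

variable {ι : Type} [Fintype ι] [DecidableEq ι]

/-- the matrix `E` with `E Y = det Q` -/
lemma exists_E {Q : Matrix ι ι ℚ[X]} {Y : Matrix ι ι ℚ⟦X⟧} {Ψ : Matrix ι ι ℚ[X]} {D : ℚ[X]}
    (hQ : ∀ i j, (D : ℚ⟦X⟧) * (Yᵀ * Ψ.map (fun p : ℚ[X] => (p : ℚ⟦X⟧)) * Y) i j =
      (Q i j : ℚ⟦X⟧)) (v : ι → ℚ⟦X⟧) (j : ι) :
    ((Q.det : ℚ[X]) : ℚ⟦X⟧) * v j = ∑ l, (∑ a, ∑ c, ((D * Q.adjugate j a : ℚ[X]) : ℚ⟦X⟧) *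
      Y c a * ((Ψ c l : ℚ[X]) : ℚ⟦X⟧)) * ∑ k, Y l k * v k := by
  set κ : ℚ[X] →+* ℚ⟦X⟧ := Polynomial.coeToPowerSeries.ringHom
  have h1 : (Q.map κ) = (D : ℚ⟦X⟧) • (Yᵀ * Ψ.map (fun p : ℚ[X] => (p : ℚ⟦X⟧)) * Y) := by
    ext i j
    rw [Matrix.smul_apply, smul_eq_mul, hQ i j]
    rfl
  have h2 : (Q.adjugate.map κ) * (Q.map κ) = (κ Q.det) • (1 : Matrix ι ι ℚ⟦X⟧) := by
    rw [← Matrix.map_mul, adjugate_mul]
    ext i j
    by_cases h : i = j <;> simp [h]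
  have h3 : (κ Q.det) * v j = (((κ Q.det) • (1 : Matrix ι ι ℚ⟦X⟧)) *ᵥ v) j := by
    rw [smul_mulVec, one_mulVec]
    rfl
  rw [show ((Q.det : ℚ[X]) : ℚ⟦X⟧) = κ Q.det from rfl, h3, ← h2, h1, Matrix.mul_smul,
    ← Matrix.mul_assoc, ← Matrix.mul_assoc, ← Matrix.smul_mul, ← mulVec_mulVec]
  show ∑ l, _ * _ = _
  refine Finset.sum_congr rfl fun l _ => ?_
  congr 1
  rw [Matrix.smul_apply, smul_eq_mul, Matrix.mul_apply, Finset.mul_sum]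
  simp_rw [Matrix.mul_apply, Finset.sum_mul, Finset.mul_sum]
  rw [Finset.sum_comm]
  refine Finset.sum_congr rfl fun a _ => Finset.sum_congr rfl fun c _ => ?_
  rw [Polynomial.coe_mul]
  simp only [map_apply, transpose_apply]
  rw [show κ (Q.adjugate j a) = ((Q.adjugate j a : ℚ[X]) : ℚ⟦X⟧) from rfl]
  ring

lemma det_ne {Q : Matrix ι ι ℚ[X]} {Y : Matrix ι ι ℚ⟦X⟧} {Ψ : Matrix ι ι ℚ[X]} {D : ℚ[X]}
    (hD : D ≠ 0) (hY : Y.det ≠ 0) (hψ : Ψ.det ≠ 0)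
    (hQ : ∀ i j, (D : ℚ⟦X⟧) * (Yᵀ * Ψ.map (fun p : ℚ[X] => (p : ℚ⟦X⟧)) * Y) i j =
      (Q i j : ℚ⟦X⟧)) : Q.det ≠ 0 := by
  set κ : ℚ[X] →+* ℚ⟦X⟧ := Polynomial.coeToPowerSeries.ringHom
  have h1 : (Q.map κ) = (D : ℚ⟦X⟧) • (Yᵀ * Ψ.map (fun p : ℚ[X] => (p : ℚ⟦X⟧)) * Y) := by
    ext i j
    rw [Matrix.smul_apply, smul_eq_mul, hQ i j]
    rfl
  have h2 : κ Q.det = (D : ℚ⟦X⟧) ^ Fintype.card ι * (Y.det * κ Ψ.det * Y.det) := by
    rw [RingHom.map_det, RingHom.mapMatrix_apply, h1, det_smul, det_mul, det_mul, det_transpose]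
    congr 3
    rw [RingHom.map_det, RingHom.mapMatrix_apply]
    rfl
  intro h
  rw [h, map_zero] at h2
  have hD' : (D : ℚ⟦X⟧) ≠ 0 := by
    rwa [Ne, Polynomial.coe_eq_zero_iff]
  have hψ' : κ Ψ.det ≠ 0 := by
    rw [Ne, show κ Ψ.det = ((Ψ.det : ℚ[X]) : ℚ⟦X⟧) from rfl, Polynomial.coe_eq_zero_iff]
    exact hψ
  exact mul_ne_zero (pow_ne_zero _ hD') (mul_ne_zero (mul_ne_zero hY hψ') hY) h2.symm

omit [Fintype ι] [DecidableEq ι] in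
open GalyM hiding exists_E det_ne in
/-- Galochkin's condition for the system `T y' = B y` -/
theorem core (ι : Type) [Fintype ι]
    [DecidableEq ι] (T : ℤ[X]) (B : Matrix ι ι ℤ[X]) (N : Matrix ι ι ℚ)
    (Ψ : Matrix ι ι ℚ[X]) (Y : Matrix ι ι ℚ⟦X⟧)
    (sol : ∀ i j, ((X * zq T : ℚ[X]) : ℚ⟦X⟧) * PowerSeries.derivative ℚ (Y i j) =
      ∑ k, ((X * zq (B j k) : ℚ[X]) : ℚ⟦X⟧) * Y i k -
        ((zq T : ℚ[X]) : ℚ⟦X⟧) * (N.map (PowerSeries.C : ℚ →+* ℚ⟦X⟧) * Y) i j)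
    (g : IsG fun v : ι × ι => Y v.1 v.2)
    (pol : ∃ D : ℚ[X], D ≠ 0 ∧ ∀ i j, ∃ q : ℚ[X],
      (D : ℚ⟦X⟧) * (Yᵀ * Ψ.map (fun p : ℚ[X] => (p : ℚ⟦X⟧)) * Y) i j = (q : ℚ⟦X⟧))
    (hN : Bnd N) (hψ : Ψ.det ≠ 0) (hY : Y.det ≠ 0) : IsGal T B := by
  obtain ⟨D, hD, hQ⟩ := pol
  choose Q hQ using hQ
  have hdet := det_ne (Q := of Q) hD hY hψ hQ
  -- denominators
  obtain ⟨p₁, hp₁, h1⟩ := comden (fun x : ι × ι => D * (of Q).adjugate x.1 x.2)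
  obtain ⟨p₂, hp₂, h2⟩ := comden (fun x : ι × ι => Ψ x.1 x.2)
  obtain ⟨p₃, hp₃, h3⟩ := comden (fun _ : Unit => (of Q).det)
  obtain ⟨s, hsd⟩ := h3 ()
  have hs0 : s ≠ 0 := by
    rintro rfl
    rw [zq, Polynomial.map_zero] at hsd
    have : ((p₃ : ℕ) : ℚ[X]) ≠ 0 := by exact_mod_cast hp₃.ne'
    exact mul_ne_zero this hdet hsd
  obtain ⟨c, hc, hgau⟩ := specGau s hs0
  obtain ⟨C₁, hC₁⟩ := hN
  obtain ⟨C₂, hC₂⟩ := g
  -- degrees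
  obtain ⟨c₀, hT, hB⟩ : ∃ c₀ : ℕ, (zq T).natDegree ≤ c₀ ∧ ∀ i j, ((B.map zq) i j).natDegree ≤ c₀ := by
    refine ⟨(zq T).natDegree + ∑ x : ι × ι, ((B.map zq) x.1 x.2).natDegree, by omega, fun i j => ?_⟩
    have := Finset.single_le_sum (f := fun x : ι × ι => ((B.map zq) x.1 x.2).natDegree)
      (fun _ _ => Nat.zero_le _) (Finset.mem_univ (i, j))
    simp only at this
    omega
  set M := (zq s).natDegree
  refine ⟨(c * p₁ * p₂) * C₁ * (C₂ ^ (c₀ + 2 + M)) ^ 2, fun n => ?_⟩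
  obtain ⟨q₁, hq₁, hq₁', hb₁⟩ := hC₁ n
  set m := (1 + c₀) * n + M with hm
  obtain ⟨q₂, hq₂, hq₂', hy, -⟩ := hC₂ (m + n)
  refine ⟨c * ((p₁ * q₂ * p₂) * (1 * (q₁ * q₂))), by positivity, ?_, ?_⟩
  · have hC₂1 : 1 ≤ C₂ := by
      rcases Nat.eq_zero_or_pos C₂ with h | h
      · rw [h, zero_pow (by omega)] at hq₂'
        omega
      · exact h
    have h4 : q₂ ≤ (C₂ ^ (c₀ + 2 + M)) ^ (n + 1) := by
      refine hq₂'.trans ?_
      rw [← pow_mul]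
      refine Nat.pow_le_pow_right hC₂1 ?_
      rw [hm]
      nlinarith [Nat.zero_le (M * n), Nat.zero_le (c₀ + 1)]
    have h5 : c * p₁ * p₂ ≤ (c * p₁ * p₂) ^ (n + 1) := by
      refine Nat.le_self_pow (by omega) _
    calc c * ((p₁ * q₂ * p₂) * (1 * (q₁ * q₂))) = (c * p₁ * p₂) * q₁ * (q₂ * q₂) := by ring
      _ ≤ (c * p₁ * p₂) ^ (n + 1) * C₁ ^ (n + 1) *
          ((C₂ ^ (c₀ + 2 + M)) ^ (n + 1) * (C₂ ^ (c₀ + 2 + M)) ^ (n + 1)) := by gcongr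
      _ = _ := by ring
  · intro b hb i j
    set v : ι → ℚ[X] := dd (zq T) (B.map zq) (Pi.single i 1) b with hv
    have hY' : ∀ i j, Den q₂ (m + n) (Y i j) := fun i j k hk => hy (i, j) k hk
    have hid : ((X ^ b : ℚ[X]) : ℚ⟦X⟧) * ((((of Q).det : ℚ[X]) : ℚ⟦X⟧) * (v j : ℚ⟦X⟧)) =
        ∑ l, (∑ a, ∑ c, ((D * (of Q).adjugate j a : ℚ[X]) : ℚ⟦X⟧) *
          Y c a * ((Ψ c l : ℚ[X]) : ℚ⟦X⟧)) * ((((zq T) ^ b : ℚ[X]) : ℚ⟦X⟧) *
            ∑ x ∈ Finset.HasAntidiagonal.antidiagonal b,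
            ((X ^ x.2 : ℚ[X]) : ℚ⟦X⟧) * ∑ l', PowerSeries.C (bn N x.1 l l') * hs x.2 (Y l' i)) := by
      rw [exists_E (Q := of Q) hQ (fun k => (v k : ℚ⟦X⟧)) j, Finset.mul_sum]
      refine Finset.sum_congr rfl fun l _ => ?_
      rw [← specYdd ι T B N Y sol b l i]
      ring
    have hden : Den ((p₁ * q₂ * p₂) * (1 * (q₁ * q₂))) m
        (((X ^ b : ℚ[X]) : ℚ⟦X⟧) * ((((of Q).det : ℚ[X]) : ℚ⟦X⟧) * (v j : ℚ⟦X⟧))) := by
      rw [hid]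
      refine Den.sum fun l _ => Den.mul (Den.sum fun a _ => Den.sum fun c' _ => ?_) (Den.mul ?_ ?_)
      · exact Den.mul (Den.mul (Den.pol m (h1 (j, a))) ((hY' _ _).mono (by omega)))
          (Den.pol m (h2 (c', l)))
      · have := Den.poly m (T ^ b)
        rwa [zq, Polynomial.map_pow] at this
      · refine Den.sum fun x hx => ?_
        rw [Finset.HasAntidiagonal.mem_antidiagonal] at hx
        have h6 : Den (1 * (q₁ * q₂)) m (((X ^ x.2 : ℚ[X]) : ℚ⟦X⟧) *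
            ∑ l', PowerSeries.C (bn N x.1 l l') * hs x.2 (Y l' i)) := by
          refine Den.mul ?_ (Den.sum fun l' _ => Den.mul (Den.const m (hb₁ x.1 (by omega) l l'))
            (Den.hs x.2 ((hY' _ _).mono (by omega))))
          have := Den.poly m (X ^ x.2)
          rwa [zq, Polynomial.map_pow, Polynomial.map_X] at this
        rwa [one_mul] at h6
    set q' := (p₁ * q₂ * p₂) * (1 * (q₁ * q₂)) with hq'
    have hdeg : (zq s * v j).natDegree ≤ M + b * c₀ := by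
      refine natDegree_mul_le.trans ?_
      have h7 := BndM.dd_deg (zq T) (B.map zq) c₀ 0 hT hB (Pi.single i 1) (fun j => by
        by_cases h : j = i
        · subst h; simp
        · simp [h]) b j
      rw [zero_add] at h7
      exact Nat.add_le_add le_rfl h7
    have hint : ∃ z : ℤ[X], (q' : ℚ[X]) * (zq s * v j) = zq z := by
      apply exists_zq
      intro k
      rw [← C_eq_natCast, coeff_C_mul]
      by_cases hk : k ≤ M + b * c₀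
      · have hkm : k + b ≤ m := by
          rw [hm]
          nlinarith
        obtain ⟨z, hz⟩ := hden (k + b) hkm
        refine ⟨p₃ * z, ?_⟩
        rw [← Polynomial.coe_mul, ← Polynomial.coe_mul, Polynomial.coeff_coe, add_comm k b,
          Polynomial.coeff_X_pow_mul'] at hz
        rw [if_pos (by omega), show b + k - b = k by omega] at hz
        rw [← hsd, mul_assoc, ← C_eq_natCast, coeff_C_mul]
        push_cast
        rw [← hz]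
        ring
      · rw [coeff_eq_zero_of_natDegree_lt (by omega)]
        exact ⟨0, by simp⟩
    obtain ⟨z, hz⟩ := hint
    obtain ⟨z', hz'⟩ := hgau ((q' : ℚ[X]) * v j) ⟨z, by rw [← hz]; ring⟩
    refine ⟨z', ?_⟩
    rw [← hz']
    push_cast
    ring

/-- Galochkin's condition for the system of the entries of `Y` -/
lemma gal (T : ℤ[X]) (B : Matrix ι ι ℤ[X]) (N : Matrix ι ι ℚ)
    (N₁ : Matrix ι ι ℤ) (q : ℤ) (hN : ∀ i j, (q : ℚ) * N i j = N₁ i j) (hnil : Bnd (-N))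
    (h : IsGal T B) : IsGal (TT q T) (BP q T B N₁) := by
  obtain ⟨C₁, h₁⟩ := hnil
  obtain ⟨C₂, h₂⟩ := h
  refine ⟨C₁ * C₂, fun n => ?_⟩
  obtain ⟨q₁, hq₁, hb₁, hz₁⟩ := h₁ n
  obtain ⟨q₂, hq₂, hb₂, hz₂⟩ := h₂ n
  refine ⟨q₁ * q₂, Nat.mul_pos hq₁ hq₂, ?_, ?_⟩
  · rw [mul_pow]
    exact Nat.mul_le_mul hb₁ hb₂
  rintro m hm ⟨k, i⟩ ⟨l, j⟩
  rw [specDdf ι T B N N₁ q hN m k i l j]
  have h3 : ∀ x ∈ Finset.HasAntidiagonal.antidiagonal m, ∃ z : ℤ[X],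
      ((q₁ * q₂ : ℕ) : ℚ[X]) * (C (bn (-N) x.1 k l) * X ^ x.2 * (zq T) ^ x.1 *
          dd (zq T) (B.map zq) (Pi.single i 1) x.2 j) = zq z := by
    intro x hx
    rw [Finset.HasAntidiagonal.mem_antidiagonal] at hx
    obtain ⟨z₁, hz₁⟩ := hz₁ x.1 (by omega) k l
    obtain ⟨z₂, hz₂⟩ := hz₂ x.2 (by omega) i j
    refine ⟨C z₁ * X ^ x.2 * T ^ x.1 * z₂, ?_⟩
    have h4 : (q₁ : ℚ[X]) * C (bn (-N) x.1 k l) = C (z₁ : ℚ) := by
      rw [← hz₁, C_mul]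
      simp
    calc ((q₁ * q₂ : ℕ) : ℚ[X]) * (C (bn (-N) x.1 k l) * X ^ x.2 * (zq T) ^ x.1 *
          dd (zq T) (B.map zq) (Pi.single i 1) x.2 j)
        = ((q₁ : ℚ[X]) * C (bn (-N) x.1 k l)) * X ^ x.2 * (zq T) ^ x.1 *
          ((q₂ : ℚ[X]) * dd (zq T) (B.map zq) (Pi.single i 1) x.2 j) := by
          push_cast
          ring
      _ = zq (C z₁ * X ^ x.2 * T ^ x.1 * z₂) := by
          rw [h4, hz₂]
          simp [zq, Polynomial.map_mul, Polynomial.map_pow]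
  choose! z hz using h3
  refine ⟨C (q ^ m) * ∑ x ∈ Finset.HasAntidiagonal.antidiagonal m, z x, ?_⟩
  rw [mul_left_comm, Finset.mul_sum, Finset.sum_congr rfl hz]
  simp only [zq, Polynomial.map_mul, Polynomial.map_C, Polynomial.map_sum]
  simp

end GALMM

/-- GALM -/
theorem specGalm : SpecGalm := by
  intro ι _ _ T B M Ψ Y h hM hM' hΨ hY
  obtain ⟨q, N₁, hq, hN⟩ := GalxM.exists_den M
  refine ⟨TT q T, BP q T B N₁, ?_, GALMM.gal T B M N₁ q hN hM'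
    (GALMM.core ι T B M Ψ Y h.sol h.g h.pol hM hΨ hY),
    GalxM.sol T B M N₁ q Y hN h.sol⟩
  exact mul_ne_zero (mul_ne_zero (C_ne_zero.2 hq.ne') X_ne_zero) h.ne

end Pool.Agent.Lib.MPf11a48.CG
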