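import Pool.Agent.Lib.MP_f11a48_ag.CG.SpecL
import Pool.Agent.Lib.MP_f11a48_ag.CG.MainK

/-!
# Sums of fibres of a family with arbitrary local monodromy: the theorem, from the Specs
-/

set_option autoImplicit false
set_option linter.unusedSectionVars false

namespace Pool.Agent.Lib.MPf11a48.CG

open Polynomial Matrix
open scoped PowerSeries
open Pool.Agent.Lib.MPf11a48.Tors
open Pool.Agent.Lib.MPf11a48.GL2T
open Pool.Agent.Lib.MPf11a48.GL2 (lie van en Geo)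
open Pool.Agent.Lib.MPf11a48.GF
open Pool.Agent.Lib.MPf11a48.CF (vm)
open Pool.Agent.Lib.MPf11a48.K3 (cx)

/-- Theorem L, from the Specs -/
theorem mainL (hAril : SpecAril) (hDeg : SpecDeg) (hNrm : SpecNrm) (hGt : SpecGt) (hLies : SpecLies) (hUlt : SpecUltJ)
    (hExc : SpecExc) (hPlf : SpecPlf) (hZar : SpecZar) (hBss : SpecBss) (hSttj : SpecSttj)
    (hStnj : SpecStnj) : StatementL := by
  intro ι _ _ e l T B Y G G₀ ψ₀ ψ N C₀ w δ D s k hG hiso hd hG₀ hGG hF hC₀ hN hN₀ h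
  have h2pi : (2 * Real.pi * Complex.I : ℂ) ≠ 0 := Complex.two_pi_I_ne_zero
  have hϖ : (2 * Real.pi * Complex.I : ℂ) ^ w ≠ 0 := zpow_ne_zero _ h2pi
  have hd₀ : ψ₀.det ≠ 0 := MainPM.det_ne hC₀ hd
  -- the form
  have hiso₀ : ∀ g ∈ G₀, g.1ᵀ * cx ψ₀ * g.1 = cx ψ₀ := by
    intro g hg
    have h1 := hiso _ ((hGG g).1 hg)
    have e1 : C₀.1 * g.1 = (C₀ * g * C₀⁻¹).1 * C₀.1 := by
      have : C₀ * g = C₀ * g * C₀⁻¹ * C₀ := by group
      exact congrArg Units.val this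
    have h2 : (C₀.1 * g.1)ᵀ * cx ψ * (C₀.1 * g.1) = C₀.1ᵀ * cx ψ * C₀.1 := by
      rw [e1]
      generalize (C₀ * g * C₀⁻¹).1 = A at h1 ⊢
      calc (A * C₀.1)ᵀ * cx ψ * (A * C₀.1) = C₀.1ᵀ * (Aᵀ * cx ψ * A) * C₀.1 := by
            rw [Matrix.transpose_mul]
            simp only [Matrix.mul_assoc]
        _ = _ := by rw [h1]
    have h3 : (C₀.1 * g.1)ᵀ * cx ψ * (C₀.1 * g.1) = g.1ᵀ * (C₀.1ᵀ * cx ψ * C₀.1) * g.1 := by
      rw [Matrix.transpose_mul]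
      simp only [Matrix.mul_assoc]
    rw [h3, hC₀, Matrix.mul_smul, Matrix.smul_mul] at h2
    exact smul_right_injective _ hϖ h2
  have hNψ : Nᵀ * ψ₀ + ψ₀ * N = 0 := MainAM.form_lie hiso₀ hN₀
  by_cases hY : Y.det = 0
  · obtain ⟨C, hC⟩ := MainAM.no_c specEval hF.g hY
    have hcast : ∀ (a b : ℤ) (m : ℕ), ((a : ℂ) / ((b + m * a : ℤ) : ℂ)) =
        (a : ℂ) / (b + m * a) := by
      intro a b m
      push_cast
      rfl
    refine ⟨C + k + 1, fun a b ha hb => ⟨∅, Nat.zero_le _, ?_⟩⟩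
    intro r hr m hm hmk K L hKL hL hLδ R c hc
    exfalso
    have h1 := hC a (b + m ⟨0, hr⟩ * a) ha
      (MainAM.shift (by have := (hmk ⟨0, hr⟩).1; omega) ha hb)
    rw [hcast] at h1
    apply CF.MainM.det_unit c
    rw [hc, det_mul, det_blockDiagonal]
    refine mul_eq_zero_of_left (Finset.prod_eq_zero (Finset.mem_univ ⟨0, hr⟩) ?_) _
    rw [det_mul, h1, mul_zero]
  · have hA := hAril ι k e l T B N ψ₀ Y G₀ hF (St2M.isSS hGG hG hG₀) hN hN₀ hd₀ hY hNψ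
    obtain ⟨C, hC⟩ := MainKM.assemble hDeg hLies hZar hBss w δ D s k hG hiso hA
      (fin_all hNrm hGt hUlt hExc hPlf hBss hSttj hStnj D s hG hiso hd hG₀ hGG hϖ hC₀ hN hN₀ h k)
    refine ⟨C, fun a b ha hb => ?_⟩
    obtain ⟨E, hE, hm⟩ := hC a b ha hb
    refine ⟨E, hE, fun r _ m hmi hmk => ?_⟩
    have h1 := hm r m hmi hmk
    simp only [← Matrix.mul_assoc] at h1
    exact h1

end Pool.Agent.Lib.MPf11a48.CG
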