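import Pool.Agent.Lib.MP_f11a48_ag.CG.SpecL
import Pool.Agent.Lib.MP_f11a48_ag.CG.Normt

/-!
# Families with arbitrary local monodromy, NORML: relations over number fields
-/

set_option autoImplicit false

namespace Pool.Agent.Lib.MPf11a48.CG

open Matrix
open Pool.Agent.Lib.MPf11a48.GL2 (van en)
open Pool.Agent.Lib.MPf11a48.CF.NormM (exists_aut)
open NormM (totalDegree_map_le)
open NormtM (enT exists_inv prime_fam)

namespace NormlM

variable {ι σ : Type}

/-- the polynomial `F (D Z)`, `D` diagonal -/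
noncomputable def sc {K : Type} [CommRing K] (d : ι → K) (F : MvPolynomial (σ × ι × ι) K) :
    MvPolynomial (σ × ι × ι) K :=
  MvPolynomial.aeval (fun p : σ × ι × ι =>
    (MvPolynomial.C (d p.2.1) * MvPolynomial.X p : MvPolynomial (σ × ι × ι) K)) F

theorem eval_sc {K : Type} [CommRing K] (d : ι → K) (F : MvPolynomial (σ × ι × ι) K)
    (z : σ × ι × ι → K) :
    MvPolynomial.eval z (sc d F) = MvPolynomial.eval (fun p => d p.2.1 * z p) F := by
  have h1 := MvPolynomial.comp_aeval_apply (R := K)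
    (f := fun p : σ × ι × ι =>
      (MvPolynomial.C (d p.2.1) * MvPolynomial.X p : MvPolynomial (σ × ι × ι) K))
    (φ := MvPolynomial.aeval z) F
  have h2 : (fun p : σ × ι × ι => MvPolynomial.aeval z
      (MvPolynomial.C (d p.2.1) * MvPolynomial.X p : MvPolynomial (σ × ι × ι) K)) =
      fun p => d p.2.1 * z p := by
    funext p
    rw [map_mul, MvPolynomial.aeval_C, MvPolynomial.aeval_X]
    rfl
  rw [h2] at h1
  exact h1

theorem map_sc {K K' : Type} [CommRing K] [CommRing K'] (f : K →+* K') (d : ι → K)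
    (F : MvPolynomial (σ × ι × ι) K) :
    (sc d F).map f = sc (fun i => f (d i)) (F.map f) := by
  induction F using MvPolynomial.induction_on with
  | C a => simp [sc]
  | add p q hp hq =>
    have h1 : sc d (p + q) = sc d p + sc d q := map_add _ _ _
    have h2 : sc (fun i => f (d i)) (p.map f + q.map f) =
      sc (fun i => f (d i)) (p.map f) + sc (fun i => f (d i)) (q.map f) := map_add _ _ _
    rw [h1, map_add, hp, hq, map_add, h2]
  | mul_X p i hp =>
    have h1 : sc d (p * MvPolynomial.X i) = sc d p *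
        (MvPolynomial.C (d i.2.1) * MvPolynomial.X i) := by
      unfold sc
      rw [map_mul, MvPolynomial.aeval_X]
    have h2 : sc (fun i => f (d i)) (p.map f * MvPolynomial.X i) =
        sc (fun i => f (d i)) (p.map f) *
        (MvPolynomial.C (f (d i.2.1)) * MvPolynomial.X i) := by
      unfold sc
      rw [map_mul, MvPolynomial.aeval_X]
    rw [h1, map_mul, hp, map_mul, map_mul, MvPolynomial.map_C, MvPolynomial.map_X, h2]

theorem totalDegree_sc_le {K : Type} [CommRing K] (d : ι → K)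
    (F : MvPolynomial (σ × ι × ι) K) : (sc d F).totalDegree ≤ F.totalDegree := by
  unfold sc
  rw [MvPolynomial.aeval_def, MvPolynomial.eval₂_eq]
  refine MvPolynomial.totalDegree_finsetSum_le fun m hm => ?_
  refine (MvPolynomial.totalDegree_mul _ _).trans ?_
  have h0 : (algebraMap K (MvPolynomial (σ × ι × ι) K) (MvPolynomial.coeff m F)).totalDegree = 0 :=
    MvPolynomial.totalDegree_C _
  rw [h0, zero_add]
  refine (MvPolynomial.totalDegree_finsetProd _ _).trans ?_
  refine le_trans ?_ (MvPolynomial.le_totalDegree hm)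
  refine Finset.sum_le_sum fun i _ => ?_
  refine (MvPolynomial.totalDegree_pow _ _).trans ?_
  have h1 : (MvPolynomial.C (d i.2.1) * MvPolynomial.X i :
      MvPolynomial (σ × ι × ι) K).totalDegree ≤ 1 := by
    refine (MvPolynomial.totalDegree_mul _ _).trans ?_
    rw [MvPolynomial.totalDegree_C, zero_add]
    rcases subsingleton_or_nontrivial K with h | h
    · have : (MvPolynomial.X i : MvPolynomial (σ × ι × ι) K) = 0 := Subsingleton.elim _ _
      rw [this]
      simp
    · rw [MvPolynomial.totalDegree_X]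
  calc m i * _ ≤ m i * 1 := Nat.mul_le_mul_left _ h1
    _ = m i := mul_one _

/-- a polynomial in `t` with too many zeros -/
theorem vand (R : ℕ) (c₀ : ℂ) (c : Fin R → ℂ) (T : Finset ℕ) (hT : R < T.card)
    (h : ∀ t ∈ T, c₀ + ∑ k : Fin R, (t : ℂ) ^ ((k : ℕ) + 1) * c k = 0) :
    c₀ = 0 ∧ ∀ k, c k = 0 := by
  classical
  let P : Polynomial ℂ := Polynomial.C c₀ +
    ∑ k : Fin R, Polynomial.C (c k) * Polynomial.X ^ ((k : ℕ) + 1)
  have hPd : P.natDegree ≤ R := by
    refine (Polynomial.natDegree_add_le _ _).trans ?_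
    rw [Polynomial.natDegree_C]
    refine max_le (Nat.zero_le _) ?_
    refine Polynomial.natDegree_sum_le_of_forall_le _ _ fun k _ => ?_
    refine (Polynomial.natDegree_C_mul_X_pow_le _ _).trans ?_
    have := k.2
    omega
  have hP : P = 0 := by
    refine Polynomial.eq_zero_of_natDegree_lt_card_of_eval_eq_zero' P
      (T.image fun t : ℕ => (t : ℂ)) ?_ ?_
    · intro x hx
      obtain ⟨t, ht, rfl⟩ := Finset.mem_image.1 hx
      rw [← h t ht]
      simp only [P, Polynomial.eval_add, Polynomial.eval_C, Polynomial.eval_finsetSum,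
        Polynomial.eval_mul, Polynomial.eval_pow, Polynomial.eval_X]
      congr 1
      exact Finset.sum_congr rfl fun k _ => mul_comm _ _
    · rw [Finset.card_image_of_injective _ Nat.cast_injective]
      omega
  have hc : ∀ n : ℕ, P.coeff n = (if n = 0 then c₀ else 0) +
      ∑ k : Fin R, if n = (k : ℕ) + 1 then c k else 0 := by
    intro n
    simp only [P, Polynomial.coeff_add, Polynomial.coeff_C, Polynomial.finsetSum_coeff,
      Polynomial.coeff_C_mul_X_pow]
  constructor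
  · have h0 := hc 0
    rw [hP, Polynomial.coeff_zero, if_pos rfl, Finset.sum_eq_zero, add_zero] at h0
    · exact h0.symm
    · intro k _
      rw [if_neg (by omega)]
  · intro k
    have h0 := hc ((k : ℕ) + 1)
    rw [hP, Polynomial.coeff_zero, if_neg (by omega), zero_add,
      Finset.sum_eq_single k] at h0
    · rw [if_pos rfl] at h0
      exact h0.symm
    · intro j _ hj
      rw [if_neg]
      intro h1
      exact hj (Fin.ext (by omega))
    · intro h1
      exact absurd (Finset.mem_univ k) h1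

/-- polynomials with coefficients fixed by all automorphisms -/
theorem exists_rat {ν : Type} [Fintype ν] (P : MvPolynomial ν ℂ)
    (hfix : ∀ τ : ℂ ≃+* ℂ, P.map τ.toRingHom = P) :
    ∃ W : MvPolynomial ν ℚ, W.totalDegree ≤ P.totalDegree ∧ ∀ z : ν → ℂ,
      MvPolynomial.aeval z W = MvPolynomial.eval z P := by
  obtain ⟨W, hW, hW'⟩ := exists_inv (ν := ν) (r := 0) Fin.elim0 0 0 P.totalDegree
    (fun a => a.elim0) (fun _ => 0) P le_rfl (fun J => by
      have h1 : P.coeff J ∈ (⊥ : IntermediateField ℚ ℂ) := by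
        refine AutC.mem_of_fixed _ fun τ _ => ?_
        have h1 := congrArg (MvPolynomial.coeff J) (hfix τ)
        rw [MvPolynomial.coeff_map] at h1
        exact h1
      obtain ⟨q, hq⟩ := IntermediateField.mem_bot.1 h1
      refine ⟨MvPolynomial.C q, ?_, ?_⟩
      · rw [MvPolynomial.totalDegree_C]
      · rw [MvPolynomial.aeval_C]
        exact hq)
  refine ⟨W, by simpa using hW, fun z => hW' z fun a => a.elim0⟩

variable [Fintype ι] [DecidableEq ι] [DecidableEq σ]

/-- one factor of a product vanishes -/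
theorem exists_factor [Fintype σ] (G₀ : Subgroup (GL ι ℂ))
    (hirr : ∀ f g : MvPolynomial (ι × ι) ℂ, f * g ∈ van (G₀ : Set (GL ι ℂ)) →
      f ∈ van (G₀ : Set (GL ι ℂ)) ∨ g ∈ van (G₀ : Set (GL ι ℂ)))
    (y : σ → GL ι ℂ) {Φ : Type} (Q : Φ → MvPolynomial (σ × ι × ι) ℂ) (T : Finset Φ) :
    (∀ g : σ → GL ι ℂ, (∀ a, g a ∈ G₀) →
      ∏ φ ∈ T, MvPolynomial.eval (enT fun a => (g a).1 * (y a).1) (Q φ) = 0) →
    ∃ φ ∈ T, ∀ g : σ → GL ι ℂ, (∀ a, g a ∈ G₀) →
      MvPolynomial.eval (enT fun a => (g a).1 * (y a).1) (Q φ) = 0 := by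
  classical
  induction T using Finset.induction_on with
  | empty =>
    intro h
    exfalso
    have := h (fun _ => 1) (fun _ => one_mem G₀)
    rw [Finset.prod_empty] at this
    exact one_ne_zero this
  | insert φ T hφ ih =>
    intro h
    have h0 := prime_fam G₀ hirr y (Q φ) (∏ φ ∈ T, Q φ)
      Finset.univ (fun _ => 1) (fun _ => one_mem G₀) (fun g hg _ => by
        have h1 := h g hg
        rw [Finset.prod_insert hφ] at h1
        rw [map_prod]
        exact h1)
    rcases h0 with h1 | h1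
    · exact ⟨φ, Finset.mem_insert_self _ _, fun g hg => h1 g hg fun a ha =>
        absurd (Finset.mem_univ a) ha⟩
    · obtain ⟨φ', h2, h3⟩ := ih fun g hg => by
        rw [← map_prod]
        exact h1 g hg fun a ha => absurd (Finset.mem_univ a) ha
      exact ⟨φ', Finset.mem_insert_of_mem h2, h3⟩

omit [DecidableEq σ] in
/-- the two parts of the argument at one embedding: the group is normalised by `ρ` -/
theorem conj_mem (e : ℕ) (he : e ≠ 0) (G₀ : Subgroup (GL ι ℂ)) (ρ y τy : GL ι ℂ)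
    (hρ : ρ ^ e = 1) (h : ∀ g ∈ G₀, ρ * (g * y) * τy⁻¹ ∈ G₀) :
    ∀ w : GL ι ℂ, w * τy⁻¹ ∈ G₀ → ∃ g ∈ G₀, w = ρ * (g * y) := by
  have h1 := h 1 (one_mem G₀)
  -- `ρ G₀ ρ⁻¹ ⊆ G₀`
  have h2 : ∀ g ∈ G₀, ρ * g * ρ⁻¹ ∈ G₀ := by
    intro g hg
    have h3 := G₀.mul_mem (h g hg) (G₀.inv_mem h1)
    have h4 : ρ * (g * y) * τy⁻¹ * (ρ * (1 * y) * τy⁻¹)⁻¹ = ρ * g * ρ⁻¹ := by
      group
    rwa [h4] at h3
  have h3 : ∀ n : ℕ, ∀ g ∈ G₀, ρ ^ n * g * (ρ ^ n)⁻¹ ∈ G₀ := by
    intro n
    induction n with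
    | zero =>
      intro g hg
      simpa using hg
    | succ n ih =>
      intro g hg
      have h4 := h2 _ (ih g hg)
      have h5 : ρ * (ρ ^ n * g * (ρ ^ n)⁻¹) * ρ⁻¹ = ρ ^ (n + 1) * g * (ρ ^ (n + 1))⁻¹ := by
        rw [pow_succ']
        group
      rwa [h5] at h4
  have h4 : ρ⁻¹ = ρ ^ (e - 1) := by
    rw [inv_eq_iff_mul_eq_one, ← pow_succ', Nat.sub_add_cancel (Nat.one_le_iff_ne_zero.2 he), hρ]
  intro w hw
  have h5 := h3 (e - 1) _ (G₀.mul_mem hw (G₀.inv_mem h1))
  rw [← h4] at h5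
  refine ⟨_, h5, ?_⟩
  group

end NormlM

open NormlM in
theorem specNorml : SpecNorml := by
  classical
  intro ι σ _ _ _ _ e l G₀ r p n δ he _ hirr hp
  let M : ℕ := ∑ a, (p a).totalDegree
  have hM : ∀ a, (p a).totalDegree ≤ M := fun a =>
    Finset.single_le_sum (f := fun a => (p a).totalDegree) (fun _ _ => Nat.zero_le _)
      (Finset.mem_univ a)
  let R : ℕ := Fintype.card (σ × Fin r)
  let ee : σ × Fin r ≃ Fin R := Fintype.equivFin _
  let q : Fin R → MvPolynomial (σ × ι × ι) ℚ := fun k =>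
    MvPolynomial.rename (fun v => ((ee.symm k).1, v)) (p (ee.symm k).2)
  have hqM : ∀ k, (q k).totalDegree ≤ M := fun k =>
    (MvPolynomial.totalDegree_rename_le _ _).trans (hM _)
  have hq : ∀ (z : σ → Matrix ι ι ℂ) (k : Fin R), MvPolynomial.aeval (enT z) (q k) =
      MvPolynomial.aeval (en (z (ee.symm k).1)) (p (ee.symm k).2) := by
    intro z k
    rw [MvPolynomial.aeval_rename]
    rfl
  refine ⟨δ * (n + M), ?_⟩
  intro u y L hu hue hL hδ huL hyL hR F hF hFy g hg
  let x : Fin R → ℂ := fun k => MvPolynomial.aeval (enT fun a => (y a).1) (q k)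
  have hx : ∀ k, x k = MvPolynomial.aeval (en (y (ee.symm k).1).1) (p (ee.symm k).2) := fun k =>
    hq _ k
  have hyL' : ∀ k, x k ∈ L := fun k => by
    rw [hx]
    exact hyL _ _
  let uL : L := ⟨u, huL⟩
  let dL : ι → L := fun i => uL ^ l i
  let qL : Fin R → MvPolynomial (σ × ι × ι) L := fun k => (q k).map (algebraMap ℚ L)
  let h : Fin R → MvPolynomial (σ × ι × ι) L := fun k =>
    sc dL (qL k) - MvPolynomial.C ⟨x k, hyL' k⟩
  let H : ℕ → MvPolynomial (σ × ι × ι) L := fun t =>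
    sc dL F + ∑ k : Fin R, MvPolynomial.C ((t : L) ^ ((k : ℕ) + 1)) * h k
  have hHd : ∀ t, (H t).totalDegree ≤ n + M := by
    intro t
    refine (MvPolynomial.totalDegree_add _ _).trans (max_le ?_ ?_)
    · exact ((totalDegree_sc_le _ _).trans hF).trans (Nat.le_add_right _ _)
    · refine MvPolynomial.totalDegree_finsetSum_le fun k _ => ?_
      refine (MvPolynomial.totalDegree_mul _ _).trans ?_
      rw [MvPolynomial.totalDegree_C, zero_add]
      refine (MvPolynomial.totalDegree_sub _ _).trans (max_le ?_ ?_)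
      · refine (totalDegree_sc_le _ _).trans ?_
        exact ((totalDegree_map_le _ _).trans (hqM k)).trans (Nat.le_add_left _ _)
      · rw [MvPolynomial.totalDegree_C]
        exact Nat.zero_le _
  -- the values of the conjugates of `H t`
  have hval : ∀ (φ : L →ₐ[ℚ] ℂ) (t : ℕ) (z : σ × ι × ι → ℂ),
      MvPolynomial.eval z ((H t).map φ.toRingHom) =
        MvPolynomial.eval (fun p => φ uL ^ l p.2.1 * z p) (F.map φ.toRingHom) +
        ∑ k : Fin R, (t : ℂ) ^ ((k : ℕ) + 1) *
          (MvPolynomial.aeval (fun p => φ uL ^ l p.2.1 * z p) (q k) - φ ⟨x k, hyL' k⟩) := by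
    intro φ t z
    have h1 : (H t).map φ.toRingHom = (sc dL F).map φ.toRingHom +
        ∑ k : Fin R, MvPolynomial.C ((t : ℂ) ^ ((k : ℕ) + 1)) *
          ((sc dL (qL k)).map φ.toRingHom - MvPolynomial.C (φ ⟨x k, hyL' k⟩)) := by
      simp only [H, h, map_add, map_sum, map_mul, map_sub, MvPolynomial.map_C]
      congr 1
      refine Finset.sum_congr rfl fun k _ => ?_
      congr 2
      rw [map_pow]
      congr 1
      exact map_natCast _ _
    have h2 : ∀ P : MvPolynomial (σ × ι × ι) L, MvPolynomial.eval z ((sc dL P).map φ.toRingHom) =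
        MvPolynomial.eval (fun p => φ uL ^ l p.2.1 * z p) (P.map φ.toRingHom) := by
      intro P
      rw [map_sc, eval_sc]
      congr 2
      funext p
      congr 1
      exact map_pow φ _ _
    rw [h1, map_add, h2, map_sum]
    congr 1
    refine Finset.sum_congr rfl fun k _ => ?_
    rw [map_mul, map_sub, MvPolynomial.eval_C, MvPolynomial.eval_C, h2]
    congr 2
    rw [MvPolynomial.map_map, MvPolynomial.eval_map, MvPolynomial.aeval_def]
    congr 1
    exact Subsingleton.elim _ _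
  let d : ι → ℂ := fun i => (u ^ l i)⁻¹
  -- the rational polynomials
  have hW : ∀ t : ℕ, ∃ W : MvPolynomial (σ × ι × ι) ℚ, W.totalDegree ≤ δ * (n + M) ∧
      ∀ z : σ × ι × ι → ℂ, MvPolynomial.aeval z W =
        ∏ φ : L →ₐ[ℚ] ℂ, MvPolynomial.eval z ((H t).map φ.toRingHom) := by
    intro t
    let P : MvPolynomial (σ × ι × ι) ℂ := ∏ φ : L →ₐ[ℚ] ℂ, (H t).map φ.toRingHom
    have hPd : P.totalDegree ≤ δ * (n + M) := by
      refine (MvPolynomial.totalDegree_finsetProd _ _).trans ?_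
      have h1 : ∀ φ ∈ (Finset.univ : Finset (L →ₐ[ℚ] ℂ)),
          ((H t).map (φ : L →ₐ[ℚ] ℂ).toRingHom).totalDegree ≤ n + M := fun φ _ =>
        (totalDegree_map_le _ _).trans (hHd t)
      refine (Finset.sum_le_sum h1).trans ?_
      rw [Finset.sum_const, smul_eq_mul, Finset.card_univ, AlgHom.card ℚ L ℂ]
      exact Nat.mul_le_mul_right _ hδ
    have hfix : ∀ τ : ℂ ≃+* ℂ, P.map τ.toRingHom = P := by
      intro τ
      let τ' : ℂ →ₐ[ℚ] ℂ := { τ.toRingHom with commutes' := fun q => by simp }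
      change (∏ φ : L →ₐ[ℚ] ℂ, (H t).map φ.toRingHom).map τ.toRingHom =
        ∏ φ : L →ₐ[ℚ] ℂ, (H t).map φ.toRingHom
      rw [map_prod]
      have hinj : Function.Injective fun φ : L →ₐ[ℚ] ℂ => τ'.comp φ := by
        intro φ φ' h
        ext z
        have := DFunLike.congr_fun h z
        exact τ.injective this
      have hbij : Function.Bijective fun φ : L →ₐ[ℚ] ℂ => τ'.comp φ :=
        Finite.injective_iff_bijective.1 hinj
      rw [← Function.Bijective.prod_comp hbij fun φ : L →ₐ[ℚ] ℂ => (H t).map φ.toRingHom]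
      refine Finset.prod_congr rfl fun φ _ => ?_
      rw [MvPolynomial.map_map]
      rfl
    obtain ⟨W, h1, h2⟩ := exists_rat P hfix
    refine ⟨W, h1.trans hPd, fun z => ?_⟩
    rw [h2]
    exact map_prod _ _ _
  have hdu : ∀ i, u ^ l i * d i = 1 := fun i => mul_inv_cancel₀ (pow_ne_zero _ hu)
  -- the products vanish
  have hprod : ∀ t : ℕ, ∀ g : σ → GL ι ℂ, (∀ a, g a ∈ G₀) →
      ∏ φ : L →ₐ[ℚ] ℂ, MvPolynomial.eval
        (fun p => d p.2.1 * ((g p.1).1 * (y p.1).1) p.2.1 p.2.2)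
        ((H t).map φ.toRingHom) = 0 := by
    intro t g hg
    obtain ⟨W, h1, h2⟩ := hW t
    rw [← h2]
    refine hR W h1 ?_ g hg
    rw [h2]
    obtain ⟨v, hv⟩ : ∃ v : L →ₐ[ℚ] ℂ, ∀ z : L, v z = z := ⟨L.val, fun _ => rfl⟩
    refine Finset.prod_eq_zero (Finset.mem_univ v) ?_
    refine (hval v t fun p => d p.2.1 * (y p.1).1 p.2.1 p.2.2).trans ?_
    have h3 : (fun p : σ × ι × ι => v uL ^ l p.2.1 * (d p.2.1 * (y p.1).1 p.2.1 p.2.2)) =
        enT fun a => (y a).1 := by
      funext p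
      rw [hv]
      change u ^ l p.2.1 * (d p.2.1 * (y p.1).1 p.2.1 p.2.2) = _
      rw [← mul_assoc, hdu, one_mul]
      rfl
    have h4 : MvPolynomial.eval (enT fun a => (y a).1) (F.map v.toRingHom) = 0 := by
      have h5 : MvPolynomial.eval (enT fun a => (y a).1) (F.map v.toRingHom) =
          MvPolynomial.aeval (fun p : σ × ι × ι => (y p.1).1 p.2.1 p.2.2) F := by
        rw [MvPolynomial.eval_map, MvPolynomial.aeval_def]
        have h6 : v.toRingHom = algebraMap L ℂ := RingHom.ext hv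
        rw [h6]
        rfl
      rw [h5]
      exact hFy
    rw [h3, h4, zero_add]
    refine Finset.sum_eq_zero fun k _ => ?_
    have h5 : v ⟨x k, hyL' k⟩ = MvPolynomial.aeval (enT fun a => (y a).1) (q k) := hv _
    rw [h5, sub_self, mul_zero]
  -- one factor vanishes
  have hfac : ∀ t : ℕ, ∃ φ : L →ₐ[ℚ] ℂ, ∀ g : σ → GL ι ℂ, (∀ a, g a ∈ G₀) →
      MvPolynomial.eval (fun p => d p.2.1 * ((g p.1).1 * (y p.1).1) p.2.1 p.2.2)
        ((H t).map φ.toRingHom) = 0 := by
    intro t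
    have h1 : ∀ (g : σ → GL ι ℂ) (φ : L →ₐ[ℚ] ℂ),
        MvPolynomial.eval (enT fun a => (g a).1 * (y a).1) (sc d ((H t).map φ.toRingHom)) =
        MvPolynomial.eval (fun p => d p.2.1 * ((g p.1).1 * (y p.1).1) p.2.1 p.2.2)
          ((H t).map φ.toRingHom) := fun g φ => eval_sc _ _ _
    obtain ⟨φ, _, h2⟩ := exists_factor G₀ hirr y
      (fun φ : L →ₐ[ℚ] ℂ => sc d ((H t).map φ.toRingHom)) Finset.univ (by
        intro g hg
        rw [← hprod t g hg]
        exact Finset.prod_congr rfl fun φ _ => h1 g φ)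
    refine ⟨φ, fun g hg => ?_⟩
    rw [← h1]
    exact h2 g hg
  choose Φ hΦ using hfac
  -- one embedding for many `t`
  obtain ⟨φ, _, hφ⟩ := Finset.exists_lt_card_fiber_of_mul_lt_card_of_maps_to
    (s := Finset.range (δ * R + 1)) (t := (Finset.univ : Finset (L →ₐ[ℚ] ℂ))) (n := R) (f := Φ)
    (fun _ _ => Finset.mem_univ _) (by
      rw [Finset.card_range, Finset.card_univ, AlgHom.card ℚ L ℂ]
      exact Nat.lt_succ_of_le (Nat.mul_le_mul_right _ hδ))
  have hAB : ∀ g : σ → GL ι ℂ, (∀ a, g a ∈ G₀) →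
      MvPolynomial.eval (fun p => φ uL ^ l p.2.1 *
        (d p.2.1 * ((g p.1).1 * (y p.1).1) p.2.1 p.2.2)) (F.map φ.toRingHom) = 0 ∧
      ∀ k, MvPolynomial.aeval (fun p => φ uL ^ l p.2.1 *
        (d p.2.1 * ((g p.1).1 * (y p.1).1) p.2.1 p.2.2)) (q k) - φ ⟨x k, hyL' k⟩ = 0 := by
    intro g hg
    refine vand R _ _ _ hφ fun t ht => ?_
    rw [← hval]
    have h1 := (Finset.mem_filter.1 ht).2
    rw [← h1]
    exact hΦ t g hg
  obtain ⟨τ, hτ⟩ := exists_aut L φ
  have hτu : φ uL = τ u := (hτ uL).symm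
  have hτ0 : τ u ≠ 0 := by simpa using hu
  -- the matrix `ρ`
  let c : ι → ℂ := fun i => τ u ^ l i * d i
  have hce : ∀ i, c i ^ e = 1 := by
    intro i
    obtain ⟨q', hq'⟩ := hue
    have h1 : τ u ^ e = u ^ e := by
      rw [← map_pow, hq']
      simp
    have h2 : c i ^ e = (τ u ^ e) ^ l i * ((u ^ e) ^ l i)⁻¹ := by
      simp only [c, d]
      rw [mul_pow, inv_pow, ← pow_mul, ← pow_mul, ← pow_mul, ← pow_mul, mul_comm (l i) e]
    rw [h2, h1, mul_inv_cancel₀]
    exact pow_ne_zero _ (pow_ne_zero _ hu)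
  have hc0 : ∀ i, c i ≠ 0 := fun i h0 => by
    have h1 := hce i
    rw [h0, zero_pow he] at h1
    exact zero_ne_one h1
  have hdetρ : (diagonal c).det ≠ 0 := by
    rw [Matrix.det_diagonal]
    exact Finset.prod_ne_zero_iff.2 fun i _ => hc0 i
  let ρ : GL ι ℂ := Matrix.GeneralLinearGroup.mkOfDetNeZero (diagonal c) hdetρ
  have hρ1 : ρ.1 = diagonal c := rfl
  have hρe : ρ ^ e = 1 := by
    apply Units.ext
    rw [Units.val_pow_eq_pow_val, hρ1, Matrix.diagonal_pow, Units.val_one]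
    have : c ^ e = fun _ => (1 : ℂ) := funext fun i => hce i
    rw [this]
    exact Matrix.diagonal_one
  have hρv : ∀ g : σ → GL ι ℂ, (fun p : σ × ι × ι => φ uL ^ l p.2.1 *
        (d p.2.1 * ((g p.1).1 * (y p.1).1) p.2.1 p.2.2)) =
      enT fun b => (ρ * (g b * y b)).1 := by
    intro g
    funext p
    change _ = (diagonal c * ((g p.1).1 * (y p.1).1)) p.2.1 p.2.2
    rw [Matrix.diagonal_mul, hτu, ← mul_assoc]
  -- the conjugates of matrices
  have hdz : ∀ z : GL ι ℂ, (z.1.map τ).det ≠ 0 := by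
    intro z
    have h3 : (z.1.map τ).det = τ z.1.det := (RingEquiv.map_det τ z.1).symm
    rw [h3]
    have h4 : z.1.det ≠ 0 := Matrix.GeneralLinearGroup.det_ne_zero z
    simpa using h4
  let cj : GL ι ℂ → GL ι ℂ := fun z => Matrix.GeneralLinearGroup.mkOfDetNeZero (z.1.map τ) (hdz z)
  have hcj : ∀ (z : GL ι ℂ) (q : MvPolynomial (ι × ι) ℚ), MvPolynomial.aeval (en (cj z).1) q =
      τ (MvPolynomial.aeval (en z.1) q) := by
    intro z q
    rw [MvPolynomial.aeval_def, MvPolynomial.aeval_def]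
    have h6 := MvPolynomial.hom_eval₂ q (algebraMap ℚ ℂ) τ.toRingHom (en z.1)
    rw [show (τ : ℂ ≃+* ℂ) (MvPolynomial.eval₂ (algebraMap ℚ ℂ) (en z.1) q) =
      τ.toRingHom (MvPolynomial.eval₂ (algebraMap ℚ ℂ) (en z.1) q) from rfl, h6]
    have h7 : τ.toRingHom.comp (algebraMap ℚ ℂ) = algebraMap ℚ ℂ := Subsingleton.elim _ _
    rw [h7]
    rfl
  -- (B)
  have hB : ∀ b : σ, ∀ g' ∈ G₀, ρ * (g' * y b) * (cj (y b))⁻¹ ∈ G₀ := by
    intro b g' hg'
    rw [hp (cj (y b)) (ρ * (g' * y b))]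
    intro a
    rw [hcj]
    have h1 := (hAB (fun _ => g') fun _ => hg').2 (ee (b, a))
    rw [hρv fun _ => g', hq] at h1
    have h2 : φ ⟨x (ee (b, a)), hyL' (ee (b, a))⟩ = τ (x (ee (b, a))) := (hτ _).symm
    rw [h2, hx] at h1
    simpa using sub_eq_zero.1 h1
  -- the conjugates of `g y`
  have hgy : ∀ b : σ, ∃ g' ∈ G₀, cj (g b * y b) = ρ * (g' * y b) := by
    intro b
    refine conj_mem e he G₀ ρ (y b) (cj (y b)) hρe (hB b) _ ?_
    rw [hp]
    intro a
    rw [hcj, hcj]
    congr 1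
    exact (hp (y b) (g b * y b)).1 (by rw [mul_inv_cancel_right]; exact hg b) a
  choose g' hg' hgy' using hgy
  have hA := (hAB g' hg').1
  rw [hρv] at hA
  have h3 : (fun b => (ρ * (g' b * y b)).1) = fun b => (g b * y b).1.map τ := by
    funext b
    rw [← hgy' b]
    rfl
  rw [h3] at hA
  have h5 : MvPolynomial.eval (enT fun b => (g b * y b).1.map τ) (F.map φ.toRingHom) =
      τ (MvPolynomial.aeval (enT fun b => (g b * y b).1) F) := by
    rw [MvPolynomial.eval_map, MvPolynomial.aeval_def]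
    have h6 := MvPolynomial.hom_eval₂ F (algebraMap L ℂ) τ.toRingHom (enT fun b => (g b * y b).1)
    rw [show (τ : ℂ ≃+* ℂ) (MvPolynomial.eval₂ (algebraMap L ℂ) (enT fun b => (g b * y b).1) F) =
      τ.toRingHom (MvPolynomial.eval₂ (algebraMap L ℂ) (enT fun b => (g b * y b).1) F) from rfl, h6]
    have h7 : τ.toRingHom.comp (algebraMap L ℂ) = φ.toRingHom := by
      ext w
      exact hτ w
    rw [h7]
    rfl
  rw [h5] at hA
  exact (map_eq_zero τ).1 hA

end Pool.Agent.Lib.MPf11a48.CG
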