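import Pool.Agent.Lib.MP_f11a48_ag.CG.SpecL
import Pool.Agent.Lib.MP_f11a48_ag.CG.MainJ0

/-!
# Module NZM: the determinant of the matrix of solutions (general local monodromy)
-/

set_option autoImplicit false

namespace Pool.Agent.Lib.MPf11a48.CG

open Polynomial Matrix
open scoped PowerSeries
open Pool.Agent.Lib.MPf11a48.Tors
open Pool.Agent.Lib.MPf11a48.CM hiding OmegaM
open Pool.Agent.Lib.MPf11a48.GL2 (lie van en Geo)
open Pool.Agent.Lib.MPf11a48.GL2T
open Pool.Agent.Lib.MPf11a48.GF Pool.Agent.Lib.MPf11a48.GF.EstM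
open Pool.Agent.Lib.MPf11a48.CF (vm ta pl)
open Pool.Agent.Lib.MPf11a48.K3 (cx)

open MainJM in
theorem specNZM : SpecNzm := by
  intro ι _ _ T B M₀ Ψ Y hF hd₀ hY
  have hE := specEval
  obtain ⟨C, hC⟩ := hF.g
  obtain ⟨D, hD, hq⟩ := hF.pol
  choose q hq using hq
  set φ : ℚ[X] →+* ℚ⟦X⟧ := Polynomial.coeToPowerSeries.ringHom with hφ
  have hφi : Function.Injective φ := fun p p' h => Polynomial.coe_injective ℚ h
  set Q : ℚ[X] := (Matrix.of q).det with hQ
  -- the determinant of the form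
  have h1 : φ Q = Y.det * (φ (D ^ Fintype.card ι * Ψ.det) * Y.det) := by
    have h2 : (Matrix.of q).map φ =
        (φ D) • (Yᵀ * Ψ.map (fun p : ℚ[X] => (p : ℚ⟦X⟧)) * Y) := by
      refine Matrix.ext fun i j => ?_
      rw [Matrix.map_apply, Matrix.smul_apply, smul_eq_mul]
      exact (hq i j).symm
    rw [hQ, RingHom.map_det]
    change ((Matrix.of q).map φ).det = _
    rw [h2, det_smul, det_mul, det_mul, det_transpose]
    have h3 : (Ψ.map (fun p : ℚ[X] => (p : ℚ⟦X⟧))).det = φ (Ψ.det) := by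
      rw [RingHom.map_det]
      rfl
    rw [h3, map_mul, map_pow]
    ring
  have hQ0 : Q ≠ 0 := by
    intro h0
    rw [h0, map_zero] at h1
    have h2 : φ (D ^ Fintype.card ι * Ψ.det) ≠ 0 := by
      rw [Ne, ← map_zero φ]
      intro h3
      have h4 := hφi h3
      exact mul_ne_zero (pow_ne_zero _ hD) hd₀ h4
    exact mul_ne_zero hY (mul_ne_zero h2 hY) h1.symm
  obtain ⟨M, hM⟩ := eval_ne_zero Q hQ0
  refine ⟨2 * C + M + 1, fun a b ha hb hdet => ?_⟩
  have hs := CF.PolM.smallC (by omega) ha hb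
  have hs' := CF.PolM.small (by omega) ha hb
  have hb0 := CF.PolM.pos (by omega) ha hb
  have hsm : ∀ i j, Sm (Y i j) ((a : ℂ) / b) := by
    intro i j
    refine hE.1 _ C _ (fun n => ?_) ?_
    · obtain ⟨q, -, -, -, hq⟩ := hC n
      exact hq (i, j)
    · refine le_trans (mul_le_mul_of_nonneg_right ?_ (norm_nonneg _)) hs
      push_cast
      linarith
  have hsd : Sm Y.det ((a : ℂ) / b) := by
    rw [Matrix.det_apply']
    have h2 : ∀ σ : Equiv.Perm ι, Sm (((Equiv.Perm.sign σ : ℤ) : ℚ⟦X⟧) * ∏ i, Y (σ i) i)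
        ((a : ℂ) / b) := by
      intro σ
      have h3 := CF.RelM.pval_C_mul
        (QuaM.Sm.prod specEval Finset.univ (fun i _ => hsm (σ i) i)).1
        ((Equiv.Perm.sign σ : ℤ) : ℚ)
      rw [map_intCast] at h3
      exact h3.1
    have h4 : ∀ s : Finset (Equiv.Perm ι), Sm (∑ σ ∈ s, ((Equiv.Perm.sign σ : ℤ) : ℚ⟦X⟧) *
        ∏ i, Y (σ i) i) ((a : ℂ) / b) := by
      intro s
      induction s using Finset.induction_on with
      | empty =>
        rw [Finset.sum_empty]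
        have := (CF.PolM.sm_C hE 0 ((a : ℂ) / b)).1
        rwa [map_zero] at this
      | insert σ s hσ ih =>
        rw [Finset.sum_insert hσ]
        exact (h2 σ).add ih
    exact h4 _
  have h5 := hE.2.2.1 (D ^ Fintype.card ι * Ψ.det) ((a : ℂ) / b)
  have h6 := CF.PolM.sm_mul hE h5.1 hsd
  have h7 := CF.PolM.sm_mul hE hsd h6.1
  have h8 := congrArg (fun f => pval f ((a : ℂ) / b)) h1
  change pval ((Q : ℚ[X]) : ℚ⟦X⟧) ((a : ℂ) / b) = pval (Y.det *
    (((D ^ Fintype.card ι * Ψ.det : ℚ[X]) : ℚ⟦X⟧) * Y.det)) ((a : ℂ) / b) at h8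
  rw [(hE.2.2.1 Q ((a : ℂ) / b)).2, h7.2, MainPM.pval_det hsm, hdet, zero_mul] at h8
  have hξ : ((a : ℚ) / b) ≠ 0 := by
    refine div_ne_zero ?_ ?_
    · exact_mod_cast ha
    · exact_mod_cast hb0.ne'
  refine hM ((a : ℚ) / b) hξ ?_ ?_
  · refine le_trans (mul_le_mul_of_nonneg_right ?_ (abs_nonneg _)) hs'
    push_cast
    linarith
  · have h9 : aeval ((a : ℂ) / b) Q = ((Q.eval ((a : ℚ) / b) : ℚ) : ℂ) := by
      have h10 : ((a : ℂ) / b) = algebraMap ℚ ℂ ((a : ℚ) / b) := by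
        rw [map_div₀, map_intCast, map_intCast]
      rw [h10, Polynomial.aeval_algebraMap_apply]
      rfl
    rw [h9] at h8
    exact_mod_cast h8

end Pool.Agent.Lib.MPf11a48.CG
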