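import Pool.Agent.Lib.MP_f11a48_ag.CG.SpecL
import Pool.Agent.Lib.MP_f11a48_ag.CG.Pnm

/-!
# Module PNL: the matrix `(1 + m x) ^ (-(Λ + N))`
-/

set_option autoImplicit false

namespace Pool.Agent.Lib.MPf11a48.CG

open Polynomial Matrix
open scoped PowerSeries
open Pool.Agent.Lib.MPf11a48.GF
open Pool.Agent.Lib.MPf11a48.CF (vm)
open Pool.Agent.Lib.MPf11a48.K3 (cx)

namespace PNLM

open PnmM (bn_le Ev eq_pm ef ef_ode ef_zero uf lg lg_ev cx_pow)

variable {ι : Type} [Fintype ι] [DecidableEq ι]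

theorem isG {M : Matrix ι ι ℚ} (hM : Bnd (-M)) (m : ℕ) :
    IsG fun v : ι × ι => pm m M v.1 v.2 := by
  obtain ⟨C, hC⟩ := hM
  obtain ⟨K, hK⟩ := exists_nat_ge (∑ k, ∑ l, |(-M) k l| + 1)
  refine ⟨C + K * (m + 1) + 1, fun n => ?_⟩
  obtain ⟨q, hq0, hq, hint⟩ := hC n
  refine ⟨q, hq0, hq.trans (Nat.pow_le_pow_left (by omega) _), ?_, ?_⟩
  · rintro ⟨i, j⟩ k hk
    obtain ⟨z, hz⟩ := hint k hk i j
    refine ⟨z * m ^ k, ?_⟩
    simp only [pm, PowerSeries.coeff_mk]
    push_cast
    rw [← hz]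
    ring
  · rintro ⟨i, j⟩
    simp only [pm, PowerSeries.coeff_mk]
    have h1 := bn_le (-M) n i j
    have h2 : (∑ k, ∑ l, |(-M) k l| + 1) ^ n ≤ (K : ℚ) ^ n := by
      refine pow_le_pow_left₀ ?_ hK n
      exact add_nonneg (Finset.sum_nonneg fun _ _ => Finset.sum_nonneg fun _ _ => abs_nonneg _)
        zero_le_one
    rw [abs_mul, abs_of_nonneg (by positivity : (0 : ℚ) ≤ (m : ℚ) ^ n)]
    calc |bn (-M) n i j| * (m : ℚ) ^ n ≤ (K : ℚ) ^ n * ((m : ℚ) + 1) ^ n := by
          refine mul_le_mul (h1.trans h2) ?_ (by positivity) (by positivity)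
          exact pow_le_pow_left₀ (by positivity) (by linarith) n
      _ = ((K * (m + 1) : ℕ) : ℚ) ^ n := by
          push_cast
          rw [mul_pow]
      _ ≤ ((C + K * (m + 1) + 1 : ℕ) : ℚ) ^ n := by
          refine pow_le_pow_left₀ (by positivity) ?_ n
          exact_mod_cast (by omega : K * (m + 1) ≤ C + K * (m + 1) + 1)
      _ ≤ ((C + K * (m + 1) + 1 : ℕ) : ℚ) ^ (n + 1) := by
          refine pow_le_pow_right₀ ?_ (Nat.le_succ n)
          exact_mod_cast (by omega : 1 ≤ C + K * (m + 1) + 1)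

theorem bn_diagonal (c : ι → ℚ) (a : ℕ) :
    bn (diagonal c) a = diagonal fun i => Ring.choose (c i) a := by
  induction a with
  | zero =>
    rw [bn]
    ext i j
    by_cases hij : i = j
    · subst hij; simp
    · simp [hij]
  | succ a ih =>
    rw [bn, ih]
    ext i j
    rw [Matrix.smul_apply, Matrix.diagonal_mul, Matrix.sub_apply, Matrix.smul_apply, smul_eq_mul,
      smul_eq_mul]
    by_cases hij : i = j
    · subst hij
      rw [diagonal_apply_eq, diagonal_apply_eq, one_apply_eq, mul_one]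
      have h := Ring.choose_smul_choose (c i) (Nat.le_succ a)
      rw [Nat.choose_succ_self_right, Nat.succ_sub (le_refl a), Nat.sub_self,
        Ring.choose_one_right, nsmul_eq_mul] at h
      rw [← h, ← mul_assoc, inv_mul_cancel₀ (by positivity), one_mul]
    · rw [diagonal_apply_ne _ hij, diagonal_apply_ne _ hij, one_apply_ne hij]
      simp

theorem val_diag (m : ℕ) (c : ι → ℚ) {z : ℂ} (hz : m * ‖z‖ < 1) (i j : ι) :
    Ev z (pm m (diagonal c) i j)
      (diagonal (fun i => Complex.exp (-(Complex.log (1 + m * z)) * c i)) i j) := by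
  have hpm : ∀ k, PowerSeries.coeff k (pm m (diagonal c) i j) =
      (diagonal fun i => Ring.choose (-c i) k) i j * (m : ℚ) ^ k := by
    intro k
    rw [pm, PowerSeries.coeff_mk]
    have h1 : -(diagonal c : Matrix ι ι ℚ) = diagonal fun i => -c i := by
      ext a b
      by_cases hab : a = b
      · subst hab; simp
      · simp [hab]
    rw [h1, bn_diagonal]
  by_cases hij : i = j
  · subst hij
    have h1 : ‖(m : ℂ) * z‖ < 1 := by
      rwa [norm_mul, Complex.norm_natCast]
    have h2 := (Complex.one_add_cpow_hasFPowerSeriesOnBall_zero (a := ((-c i : ℚ) : ℂ))).hasSum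
      (y := (m : ℂ) * z) (by
        rw [Metric.mem_eball, edist_zero_right, ← ofReal_norm, ← ENNReal.ofReal_one]
        exact (ENNReal.ofReal_lt_ofReal_iff one_pos).2 h1)
    have h3 : (fun n : ℕ => (binomialSeries ℂ ((-c i : ℚ) : ℂ)) n fun _ => (m : ℂ) * z) =
        fun k => ((PowerSeries.coeff k (pm m (diagonal c) i i) : ℚ) : ℂ) * z ^ k := by
      funext n
      rw [binomialSeries_apply, hpm, diagonal_apply_eq]
      have h4 : Ring.choose ((-c i : ℚ) : ℂ) n = ((Ring.choose (-c i) n : ℚ) : ℂ) :=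
        (Ring.map_choose (algebraMap ℚ ℂ) (-c i) n).symm
      rw [h4]
      simp only [List.ofFn_const, List.prod_replicate, smul_eq_mul]
      push_cast
      ring
    rw [h3, zero_add] at h2
    refine ⟨h2.summable.norm, ?_⟩
    have h5 : pval (pm m (diagonal c) i i) z = (1 + (m : ℂ) * z) ^ (((-c i : ℚ) : ℂ)) :=
      h2.tsum_eq
    have h6 : (1 + (m : ℂ) * z) ≠ 0 := by
      intro h0
      have h7 : (m : ℂ) * z = -1 := by linear_combination h0
      rw [h7, norm_neg, norm_one] at h1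
      exact lt_irrefl _ h1
    rw [h5, diagonal_apply_eq, Complex.cpow_def_of_ne_zero h6]
    congr 1
    push_cast
    ring
  · have h0 : pm m (diagonal c) i j = PowerSeries.C (0 : ℚ) := by
      ext k
      rw [hpm, diagonal_apply_ne _ hij, zero_mul, map_zero, map_zero]
    rw [h0, diagonal_apply_ne _ hij]
    have := Ev.const z 0
    simpa using this

theorem val_nil (m : ℕ) {N : Matrix ι ι ℚ} (hN : IsNilpotent N) {z : ℂ} (hz : m * ‖z‖ < 1)
    (i j : ι) : Ev z (pm m N i j)
      (NormedSpace.exp (-(Complex.log (1 + m * z)) • cx N) i j) := by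
  have hval := PnmM.val m hN hz
  obtain ⟨ν, hν⟩ := hN
  have hν' : N ^ (ν + 1) = 0 := by rw [pow_succ, hν, zero_mul]
  have h1 : Ev z (ef m (ν + 1) N i j) (∑ n ∈ Finset.range (ν + 1),
      ((((n.factorial : ℚ)⁻¹ : ℚ) : ℂ) * (((-1 : ℚ) : ℂ) * Complex.log (1 + m * z)) ^ n) *
        ((N ^ n) i j : ℚ)) := by
    rw [ef, Matrix.sum_apply]
    refine Ev.sum _ fun n => ?_
    rw [Matrix.smul_apply, smul_eq_mul, uf]
    change Ev z (PowerSeries.C _ * (-lg m) ^ n * PowerSeries.C ((N ^ n) i j)) _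
    refine Ev.mul (Ev.mul (Ev.const z _) ?_) (Ev.const z _)
    have h2 : -lg m = PowerSeries.C (-1) * lg m := by
      rw [map_neg, map_one, neg_one_mul]
    rw [h2]
    exact ((Ev.const z _).mul (lg_ev m hz)).pow n
  rw [eq_pm (ef_ode (m := m) hν') (fun i j => ef_zero i j)] at h1
  exact ⟨h1.1, congrFun (congrFun hval i) j⟩

theorem val (hPms : SpecPms) {e : ℕ} {l : ι → ℕ} {N : Matrix ι ι ℚ}
    (hcom : ∀ i j, N i j ≠ 0 → l i = l j) (hN : IsNilpotent N) (m : ℕ) {z : ℂ}
    (hz : m * ‖z‖ < 1) :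
    vm (pm m (xp e l N)) z = NormedSpace.exp (-(Complex.log (1 + m * z)) • cx (xp e l N)) := by
  set c : ι → ℚ := fun i => (l i : ℚ) / e with hc
  set L := Complex.log (1 + m * z) with hL
  have hAB : (diagonal c : Matrix ι ι ℚ) * N = N * diagonal c := by
    ext i j
    rw [diagonal_mul, mul_diagonal]
    by_cases h0 : N i j = 0
    · rw [h0, mul_zero, zero_mul]
    · rw [hc]
      simp only
      rw [hcom i j h0, mul_comm]
  have h1 : pm m (xp e l N) = pm m (diagonal c) * pm m N := (hPms ι (diagonal c) N hAB).1 m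
  have hcx : cx (xp e l N) = cx (diagonal c) + cx N := by
    ext i j
    by_cases hij : i = j
    · subst hij; simp [cx, xp, hc]
    · simp [cx, xp, hij]
  have hcomm : Commute ((-L) • cx (diagonal c)) ((-L) • cx N) := by
    have h2 : cx (diagonal c) * cx N = cx N * cx (diagonal c) := by
      have h3 : ∀ M : Matrix ι ι ℚ, cx M = (algebraMap ℚ ℂ).mapMatrix M := fun M => rfl
      rw [h3, h3, ← map_mul, ← map_mul, hAB]
    exact (Commute.smul_right (Commute.smul_left h2 _) _)
  have hdiag : NormedSpace.exp ((-L) • cx (diagonal c)) =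
      diagonal fun i => Complex.exp (-L * c i) := by
    have h2 : (-L) • cx (diagonal c) = diagonal fun i => -L * (c i : ℂ) := by
      ext i j
      by_cases hij : i = j
      · subst hij; simp [cx]
      · simp [cx, hij]
    rw [h2, Matrix.exp_diagonal]
    congr 1
    funext i
    rw [Pi.coe_exp, Complex.exp_eq_exp_ℂ]
  rw [h1, hcx, smul_add, Matrix.exp_add_of_commute _ _ hcomm, hdiag]
  ext i j
  rw [Matrix.mul_apply]
  have h3 : Ev z ((pm m (diagonal c) * pm m N) i j) (∑ k,
      (diagonal fun i => Complex.exp (-L * c i)) i k * NormedSpace.exp ((-L) • cx N) k j) := by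
    rw [Matrix.mul_apply]
    exact Ev.sum _ fun k => (val_diag m c hz i k).mul (val_nil m hN hz k j)
  exact h3.2

end PNLM

/-- PNL -/
theorem specPnl (hPms : SpecPms) (hBnd : SpecBnd) : SpecPnl := by
  intro ι _ _ e l N he hcom hN m
  exact ⟨PNLM.isG (hBnd ι e l N he hcom hN).2 m, fun z hz => PNLM.val hPms hcom hN m hz⟩

end Pool.Agent.Lib.MPf11a48.CG
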