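import Pool.Agent.Lib.MP_f11a48_ag.CG.SpecL
import Pool.Agent.Lib.MP_f11a48_ag.CG.Pnm

/-!
# Module PMS: the matrix `(1 + m x) ^ (-(A + B))` for commuting matrices
-/

set_option autoImplicit false

namespace Pool.Agent.Lib.MPf11a48.CG

open Polynomial Matrix
open scoped PowerSeries
open Pool.Agent.Lib.MPf11a48.GF

namespace PmsM

open PnmM

variable {ι : Type} [Fintype ι] [DecidableEq ι]

/-- a matrix commuting with `N` commutes with its binomial coefficients -/
theorem bn_comm' {A N : Matrix ι ι ℚ} (h : A * N = N * A) (a : ℕ) : A * bn N a = bn N a * A := by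
  induction a with
  | zero => rw [bn, mul_one, one_mul]
  | succ a ih =>
    rw [bn, Matrix.mul_smul, Matrix.smul_mul, ← Matrix.mul_assoc, ih, Matrix.mul_assoc,
      Matrix.mul_assoc]
    congr 2
    rw [Matrix.mul_sub, Matrix.sub_mul, Matrix.mul_smul, Matrix.smul_mul, mul_one, one_mul, h]

theorem pm_comm' (m : ℕ) {A N : Matrix ι ι ℚ} (h : A * N = N * A) :
    MC A * pm m N = pm m N * MC A := by
  ext1 i j
  ext a
  rw [coeff_MC_mul, coeff_mul_MC]
  simp only [pm, PowerSeries.coeff_mk]
  have h0 : A * -N = -N * A := by rw [Matrix.mul_neg, Matrix.neg_mul, h]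
  have h3 := congrFun (congrFun (bn_comm' h0 a) i) j
  rw [Matrix.mul_apply, Matrix.mul_apply] at h3
  calc ∑ k, A i k * (bn (-N) a k j * (m : ℚ) ^ a) = (∑ k, A i k * bn (-N) a k j) * (m : ℚ) ^ a := by
        rw [Finset.sum_mul]
        exact Finset.sum_congr rfl fun k _ => by ring
    _ = (∑ k, bn (-N) a i k * A k j) * (m : ℚ) ^ a := by rw [h3]
    _ = _ := by
        rw [Finset.sum_mul]
        exact Finset.sum_congr rfl fun k _ => by ring

omit [Fintype ι] [DecidableEq ι] in
theorem MC_add (A B : Matrix ι ι ℚ) : MC (A + B) = MC A + MC B := by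
  ext1 i j
  simp [MC]

theorem pm_mul (m : ℕ) {A B : Matrix ι ι ℚ} (h : A * B = B * A) :
    pm m A * pm m B = pm m (A + B) := by
  apply eq_pm
  · have hA := pm_dM m A
    have hB := pm_dM m B
    have hc : pm m A * MC B = MC B * pm m A := (pm_comm' m h.symm).symm
    rw [dM_mul, smul_add, ← Matrix.smul_mul, ← Matrix.mul_smul, hA, hB, Matrix.mul_neg,
      Matrix.neg_mul, Matrix.smul_mul, Matrix.mul_smul, MC_add, Matrix.add_mul, smul_add,
      ← Matrix.mul_assoc (pm m A), hc, neg_add, Matrix.mul_assoc, Matrix.mul_assoc]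
  · exact const_mul (pm_zero_coeff m A) (pm_zero_coeff m B)

end PmsM

open PmsM in
theorem specPms : SpecPms := by
  intro ι _ _ A B h
  refine ⟨fun m => (pm_mul m h).symm, fun a => ?_⟩
  have h1 : -A * -B = -B * -A := by rw [neg_mul_neg, neg_mul_neg, h]
  have h2 := pm_mul 1 h1
  ext1 i j
  have h3 := congrArg (PowerSeries.coeff a) (congrFun (congrFun h2 i) j)
  rw [Matrix.mul_apply, map_sum] at h3
  simp only [PowerSeries.coeff_mul, pm, PowerSeries.coeff_mk, neg_neg, Nat.cast_one, one_pow,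
    mul_one, ← neg_add] at h3
  rw [← h3, Matrix.sum_apply, Finset.sum_comm]
  exact Finset.sum_congr rfl fun x _ => (Matrix.mul_apply).symm

end Pool.Agent.Lib.MPf11a48.CG
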