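import Pool.Agent.Lib.MP_f11a48_ag.CG.SpecL
import Pool.Agent.Lib.MP_f11a48_ag.CG.Pnm

/-!
# Module PSI: the form `x ^ Λ ψ₀ x ^ Λ`
-/

set_option autoImplicit false
set_option linter.unusedSectionVars false

namespace Pool.Agent.Lib.MPf11a48.CG.PsiM

open Polynomial Matrix
open scoped PowerSeries
open Pool.Agent.Lib.MPf11a48.CG.PnmM

variable {ι : Type} [Fintype ι] [DecidableEq ι]

/-- the binomial coefficients of a block matrix are block matrices -/
theorem bn_block {α : Type} (l : ι → α) (N : Matrix ι ι ℚ) (h : ∀ i j, N i j ≠ 0 → l i = l j)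
    (a : ℕ) (i j : ι) (hn : bn N a i j ≠ 0) : l i = l j := by
  induction a generalizing j with
  | zero =>
    by_contra hl
    have hij : i ≠ j := fun h => hl (by rw [h])
    rw [bn, Matrix.one_apply_ne hij] at hn
    exact hn rfl
  | succ a ih =>
    rw [bn, Matrix.smul_apply, smul_eq_mul] at hn
    have h1 : (bn N a * (N - (a : ℚ) • (1 : Matrix ι ι ℚ))) i j ≠ 0 := right_ne_zero_of_mul hn
    rw [Matrix.mul_apply] at h1
    obtain ⟨k, -, hk⟩ := Finset.exists_ne_zero_of_sum_ne_zero h1
    have h2 := ih k (left_ne_zero_of_mul hk)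
    have h3 : (N - (a : ℚ) • (1 : Matrix ι ι ℚ)) k j ≠ 0 := right_ne_zero_of_mul hk
    by_cases hkj : k = j
    · rw [h2, hkj]
    · rw [Matrix.sub_apply, Matrix.smul_apply, Matrix.one_apply_ne hkj, smul_zero, sub_zero] at h3
      rw [h2, h k j h3]

theorem pm_block {α : Type} (l : ι → α) (m : ℕ) (N : Matrix ι ι ℚ)
    (h : ∀ i j, N i j ≠ 0 → l i = l j) (i j : ι) (hn : pm m N i j ≠ 0) : l i = l j := by
  by_contra hl
  apply hn
  ext a
  rw [pm, PowerSeries.coeff_mk, map_zero]
  by_contra h1
  refine hl (bn_block l (-N) (fun i j hij => h i j ?_) a i j (left_ne_zero_of_mul h1))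
  rwa [Matrix.neg_apply, neg_ne_zero] at hij

/-- the diagonal matrix `(1 + m x) ^ (-Λ)` -/
theorem pm_diag (m : ℕ) (v : ι → ℚ) (i j : ι) (hij : i ≠ j) : pm m (diagonal v) i j = 0 := by
  by_contra h
  refine hij (pm_block (fun i => i) m (diagonal v) (fun i j h => ?_) i j h)
  by_contra hne
  exact h (diagonal_apply_ne v hne)

theorem pm_diag_ode (m : ℕ) (v : ι → ℚ) (i : ι) :
    ox m * PowerSeries.derivative ℚ (pm m (diagonal v) i i) =
      -(PowerSeries.C (m : ℚ) * (PowerSeries.C (v i) * pm m (diagonal v) i i)) := by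
  rw [pm_ode]
  congr 2
  have h1 : MC (diagonal v) = diagonal fun i => (PowerSeries.C (v i) : ℚ⟦X⟧) := by
    rw [MC, diagonal_map (map_zero _)]
  rw [h1, diagonal_mul]

theorem pm_diag_pow (m c e : ℕ) (l : ι → ℕ) (i j : ι) (he : e ≠ 0) (hc : l i + l j = e * c) :
    pm m (diagonal fun i => (l i : ℚ) / e) i i * pm m (diagonal fun i => (l i : ℚ) / e) j j *
      ox m ^ c = 1 := by
  set v : ι → ℚ := fun i => (l i : ℚ) / e with hv
  have hoxd : PowerSeries.derivative ℚ (ox m) = PowerSeries.C (m : ℚ) := by
    rw [ox, map_add, Derivation.leibniz, PowerSeries.derivative_C, PowerSeries.derivative_one]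
    simp
  have hvc : v i + v j = c := by
    rw [hv]
    have he' : (e : ℚ) ≠ 0 := by exact_mod_cast he
    have hc' : (l i : ℚ) + l j = e * c := by exact_mod_cast hc
    field_simp
    exact hc'
  set f := pm m (diagonal v) i i with hf
  set g := pm m (diagonal v) j j with hg
  have hfo := pm_diag_ode m v i
  have hgo := pm_diag_ode m v j
  rw [← hf] at hfo
  rw [← hg] at hgo
  apply PowerSeries.derivative.ext
  · rw [PowerSeries.derivative_one]
    have h1 : ox m * PowerSeries.derivative ℚ (f * g * ox m ^ c) = 0 := by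
      rw [Derivation.leibniz, Derivation.leibniz, PowerSeries.derivative_pow, hoxd]
      simp only [smul_eq_mul]
      rcases Nat.eq_zero_or_pos c with h0 | h0
      · subst h0
        rw [Nat.cast_zero] at hvc
        have hvj : v j = -v i := by linarith
        rw [hvj, map_neg] at hgo
        simp only [Nat.cast_zero, zero_mul, mul_zero, pow_zero, one_mul, zero_add]
        calc ox m * (f * PowerSeries.derivative ℚ g + g * PowerSeries.derivative ℚ f) =
            f * (ox m * PowerSeries.derivative ℚ g) + g * (ox m * PowerSeries.derivative ℚ f) := by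
              ring
          _ = 0 := by
              rw [hfo, hgo]
              ring
      · obtain ⟨d, rfl⟩ : ∃ d, c = d + 1 := ⟨c - 1, by omega⟩
        rw [Nat.add_sub_cancel]
        have h2 : (PowerSeries.C (v i) : ℚ⟦X⟧) + PowerSeries.C (v j) = ((d + 1 : ℕ) : ℚ⟦X⟧) := by
          rw [← map_add, hvc, map_natCast]
        calc ox m * (f * g * (((d + 1 : ℕ) : ℚ⟦X⟧) * ox m ^ d * PowerSeries.C (m : ℚ)) +
            ox m ^ (d + 1) * (f * PowerSeries.derivative ℚ g + g * PowerSeries.derivative ℚ f)) =
            f * g * ((d + 1 : ℕ) : ℚ⟦X⟧) * ox m ^ (d + 1) * PowerSeries.C (m : ℚ) +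
              ox m ^ (d + 1) * (f * (ox m * PowerSeries.derivative ℚ g) +
                g * (ox m * PowerSeries.derivative ℚ f)) := by ring
          _ = 0 := by
              rw [hfo, hgo, ← h2]
              ring
    exact (mul_eq_zero.1 h1).resolve_left (ox_ne m)
  · rw [map_mul, map_mul, map_pow, hf, hg, pm_zero_coeff, pm_zero_coeff, Matrix.one_apply_eq,
      Matrix.one_apply_eq, map_one]
    simp [ox]

end Pool.Agent.Lib.MPf11a48.CG.PsiM

namespace Pool.Agent.Lib.MPf11a48.CG

open Polynomial Matrix
open scoped PowerSeries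
open Pool.Agent.Lib.MPf11a48.CG.PnmM

open PsiM in
theorem specPSI (hTrf : SpecTrf) (hPms : SpecPms) : SpecPsi := by
  intro ι _ _ e l N ψ₀ he hN hd
  refine ⟨fun hskew m => ?_, fun hdet => ?_⟩
  · obtain ⟨h1, h2, h3, -⟩ := hTrf m
    have hpow : ∀ (f : ℚ⟦X⟧) (n : ℕ), trf m (f ^ n) = trf m f ^ n := by
      intro f n
      induction n with
      | zero =>
        rw [pow_zero, pow_zero]
        have := h2 1
        rwa [map_one] at this
      | succ n ih => rw [pow_succ, pow_succ, (h1 _ _).2, ih]
    set v : ι → ℚ := fun i => (l i : ℚ) / e with hv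
    have hcomm : diagonal v * N = N * diagonal v := by
      ext i j
      rw [diagonal_mul, mul_diagonal]
      by_cases h : N i j = 0
      · rw [h, mul_zero, zero_mul]
      · have hl := hN i j h
        rw [hv]
        simp only
        rw [hl, mul_comm]
    have hP : pm m (xp e l N) = pm m (diagonal v) * pm m N := (hPms ι (diagonal v) N hcomm).1 m
    -- the diagonal part
    have hD : (pm m (diagonal v))ᵀ * (psx e l ψ₀).map (fun p : ℚ[X] => (p : ℚ⟦X⟧)) *
        pm m (diagonal v) = (psx e l ψ₀).map fun p : ℚ[X] => trf m (p : ℚ⟦X⟧) := by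
      have hdg : pm m (diagonal v) = diagonal fun i => pm m (diagonal v) i i := by
        ext1 i j
        by_cases hij : i = j
        · subst hij
          rw [diagonal_apply_eq]
        · rw [diagonal_apply_ne _ hij, pm_diag m v i j hij]
      rw [hdg, diagonal_transpose]
      ext1 i j
      rw [mul_diagonal, diagonal_mul, Matrix.map_apply, Matrix.map_apply, psx]
      by_cases h0 : ψ₀ i j = 0
      · rw [h0, Polynomial.C_0, zero_mul, Polynomial.coe_zero, mul_zero, zero_mul]
        have := h2 0
        rw [map_zero] at this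
        exact this.symm
      · obtain ⟨c, hc⟩ := hd i j h0
        have hc' : (l i + l j) / e = c := by
          rw [hc]
          exact Nat.mul_div_cancel_left c (Nat.pos_of_ne_zero he)
        rw [hc', Polynomial.coe_mul, Polynomial.coe_C, Polynomial.coe_pow, Polynomial.coe_X,
          (h1 _ _).2, h2, hpow]
        have h4 := pm_diag_pow m c e l i j he hc
        rw [← hv] at h4
        have h5 : (PowerSeries.X : ℚ⟦X⟧) ^ c = ox m ^ c * trf m PowerSeries.X ^ c := by
          rw [← mul_pow]
          congr 1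
          exact h3.symm
        rw [h5]
        calc pm m (diagonal v) i i * (PowerSeries.C (ψ₀ i j) *
            (ox m ^ c * trf m PowerSeries.X ^ c)) * pm m (diagonal v) j j =
            (pm m (diagonal v) i i * pm m (diagonal v) j j * ox m ^ c) *
              (PowerSeries.C (ψ₀ i j) * trf m PowerSeries.X ^ c) := by ring
          _ = _ := by rw [h4, one_mul]
    have hassoc : (pm m (xp e l N))ᵀ * (psx e l ψ₀).map (fun p : ℚ[X] => (p : ℚ⟦X⟧)) *
        pm m (xp e l N) = (pm m N)ᵀ * ((pm m (diagonal v))ᵀ *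
          (psx e l ψ₀).map (fun p : ℚ[X] => (p : ℚ⟦X⟧)) * pm m (diagonal v)) * pm m N := by
      rw [hP, transpose_mul]
      simp only [Matrix.mul_assoc]
    rw [hassoc, hD]
    -- the nilpotent part
    have hf := pm_form m hskew
    ext1 i j
    have hfij := congrFun (congrFun hf i) j
    rw [Matrix.mul_apply] at hfij ⊢
    simp only [Matrix.mul_apply, Matrix.transpose_apply, Matrix.map_apply] at hfij ⊢
    have hpsx : ∀ a b, trf m ((psx e l ψ₀ a b : ℚ[X]) : ℚ⟦X⟧) =
        PowerSeries.C (ψ₀ a b) * trf m PowerSeries.X ^ ((l a + l b) / e) := by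
      intro a b
      rw [psx, Polynomial.coe_mul, Polynomial.coe_C, Polynomial.coe_pow, Polynomial.coe_X,
          (h1 _ _).2, h2, hpow]
    calc ∑ b, (∑ a, pm m N a i * trf m ((psx e l ψ₀ a b : ℚ[X]) : ℚ⟦X⟧)) * pm m N b j =
        ∑ b, (∑ a, pm m N a i * PowerSeries.C (ψ₀ a b)) * pm m N b j *
          trf m PowerSeries.X ^ ((l i + l j) / e) := by
          refine Finset.sum_congr rfl fun b _ => ?_
          by_cases hb : pm m N b j = 0
          · rw [hb, mul_zero, mul_zero, zero_mul]
          · have hlb := pm_block l m N hN b j hb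
            have h6 : ∑ a, pm m N a i * trf m ((psx e l ψ₀ a b : ℚ[X]) : ℚ⟦X⟧) =
                (∑ a, pm m N a i * PowerSeries.C (ψ₀ a b)) *
                  trf m PowerSeries.X ^ ((l i + l j) / e) := by
              rw [Finset.sum_mul]
              refine Finset.sum_congr rfl fun a _ => ?_
              by_cases ha : pm m N a i = 0
              · rw [ha, zero_mul, zero_mul, zero_mul]
              · have hla := pm_block l m N hN a i ha
                rw [hpsx, hla, hlb, mul_assoc]
            rw [h6, mul_right_comm]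
      _ = (∑ b, (∑ a, pm m N a i * PowerSeries.C (ψ₀ a b)) * pm m N b j) *
          trf m PowerSeries.X ^ ((l i + l j) / e) := by rw [Finset.sum_mul]
      _ = _ := by rw [hfij, hpsx]
  · intro h0
    apply hdet
    have h1 : (psx e l ψ₀).map (Polynomial.evalRingHom (1 : ℚ)) = ψ₀ := by
      ext i j
      rw [Matrix.map_apply, psx]
      simp
    have h2 : ((psx e l ψ₀).map (Polynomial.evalRingHom (1 : ℚ))).det =
        Polynomial.evalRingHom (1 : ℚ) (psx e l ψ₀).det := by
      rw [RingHom.map_det, RingHom.mapMatrix_apply]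
    rw [h1, h0, map_zero] at h2
    exact h2

end Pool.Agent.Lib.MPf11a48.CG
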