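import Pool.Agent.Lib.MP_f11a48_ag.CG.SpecL

/-!
# RAMR: relations between the entries of `y a` give relations between the entries of `ram (y a)`
-/

set_option autoImplicit false

namespace Pool.Agent.Lib.MPf11a48.CG

open Polynomial Matrix
open scoped PowerSeries
open Pool.Agent.Lib.MPf11a48.Tors
open Pool.Agent.Lib.MPf11a48.CM hiding OmegaM
open Pool.Agent.Lib.MPf11a48.GL2T Pool.Agent.Lib.MPf11a48.GF
open Pool.Agent.Lib.MPf11a48.CF (vm ta pl)

namespace RamrM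

variable {ι σ : Type} {e : ℕ}

theorem px_mul (he : e ≠ 0) (f g : ℚ⟦X⟧) : px e (f * g) = px e f * px e g := by
  unfold px
  exact PowerSeries.subst_mul (PowerSeries.HasSubst.X_pow he) f g

theorem px_add (he : e ≠ 0) (f g : ℚ⟦X⟧) : px e (f + g) = px e f + px e g := by
  unfold px
  exact PowerSeries.subst_add (PowerSeries.HasSubst.X_pow he) f g

theorem coeff_px (he : e ≠ 0) (f : ℚ⟦X⟧) (n : ℕ) :
    PowerSeries.coeff n (px e f) = if e ∣ n then PowerSeries.coeff (n / e) f else 0 := by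
  unfold px
  rw [PowerSeries.coeff_subst_X_pow he]
  rfl

theorem px_zero (he : e ≠ 0) : px e (0 : ℚ⟦X⟧) = 0 := by
  ext n
  rw [coeff_px he, map_zero, map_zero, ite_self]

theorem px_pol (he : e ≠ 0) (p : ℚ[X]) : px e (p : ℚ⟦X⟧) = ((expand ℚ e p : ℚ[X]) : ℚ⟦X⟧) := by
  ext n
  rw [coeff_px he, Polynomial.coeff_coe, Polynomial.coeff_coe,
    Polynomial.coeff_expand (Nat.pos_of_ne_zero he)]

theorem key (he : e ≠ 0) (l : ι → ℕ) (y : σ → Matrix ι ι ℚ⟦X⟧)
    (H : MvPolynomial (σ × ι × ι) ℚ[X]) :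
    ∃ (K : ℕ) (F : MvPolynomial (σ × ι × ι) ℚ[X]),
      peval (fun p => ram e l (y p.1) p.2.1 p.2.2) F =
        PowerSeries.X ^ K * px e (peval (fun p => y p.1 p.2.1 p.2.2) H) ∧
      ∀ (u : ℂ) (z : σ × ι × ι → ℂ), u ≠ 0 →
        MvPolynomial.eval z (F.map (Polynomial.aeval u : ℚ[X] →ₐ[ℚ] ℂ).toRingHom) =
          u ^ K * MvPolynomial.eval (fun p => (u ^ l p.2.1)⁻¹ * z p)
            (H.map (Polynomial.aeval (u ^ e) : ℚ[X] →ₐ[ℚ] ℂ).toRingHom) := by
  have ha : ∀ (v : σ × ι × ι → ℚ⟦X⟧) (p q : MvPolynomial (σ × ι × ι) ℚ[X]),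
      peval v (p + q) = peval v p + peval v q := fun v p q => MvPolynomial.eval₂_add _ _
  have hm : ∀ (v : σ × ι × ι → ℚ⟦X⟧) (p q : MvPolynomial (σ × ι × ι) ℚ[X]),
      peval v (p * q) = peval v p * peval v q := fun v p q => MvPolynomial.eval₂_mul _ _
  have hc : ∀ (v : σ × ι × ι → ℚ⟦X⟧) (p : ℚ[X]), peval v (MvPolynomial.C p) = (p : ℚ⟦X⟧) :=
    fun v p => MvPolynomial.eval₂_C _ _ _
  have hX : ∀ (v : σ × ι × ι → ℚ⟦X⟧) (i : σ × ι × ι), peval v (MvPolynomial.X i) = v i :=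
    fun v i => MvPolynomial.eval₂_X _ _ _
  have hXp : ∀ (v : σ × ι × ι → ℚ⟦X⟧) (K : ℕ),
      peval v (MvPolynomial.C ((X : ℚ[X]) ^ K)) = PowerSeries.X ^ K := by
    intro v K
    rw [hc, Polynomial.coe_pow, Polynomial.coe_X]
  have hev : ∀ (u : ℂ) (z : σ × ι × ι → ℂ) (K : ℕ) (F : MvPolynomial (σ × ι × ι) ℚ[X]),
      MvPolynomial.eval z ((MvPolynomial.C ((X : ℚ[X]) ^ K) * F).map
        (Polynomial.aeval u : ℚ[X] →ₐ[ℚ] ℂ).toRingHom) =
      u ^ K * MvPolynomial.eval z (F.map (Polynomial.aeval u : ℚ[X] →ₐ[ℚ] ℂ).toRingHom) := by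
    intro u z K F
    rw [map_mul, map_mul, MvPolynomial.map_C, MvPolynomial.eval_C]
    congr 1
    change Polynomial.aeval u ((X : ℚ[X]) ^ K) = u ^ K
    rw [map_pow, Polynomial.aeval_X]
  induction H using MvPolynomial.induction_on with
  | C p =>
    refine ⟨0, MvPolynomial.C (expand ℚ e p), ?_, fun u z hu => ?_⟩
    · rw [hc, hc, pow_zero, one_mul, px_pol he]
    · rw [MvPolynomial.map_C, MvPolynomial.eval_C, MvPolynomial.map_C, MvPolynomial.eval_C,
        pow_zero, one_mul]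
      change Polynomial.aeval u (expand ℚ e p) = Polynomial.aeval (u ^ e) p
      exact Polynomial.expand_aeval e p u
  | add p q hp hq =>
    obtain ⟨K₁, F₁, h1, h2⟩ := hp
    obtain ⟨K₂, F₂, h3, h4⟩ := hq
    refine ⟨K₁ + K₂, MvPolynomial.C (X ^ K₂) * F₁ + MvPolynomial.C (X ^ K₁) * F₂, ?_,
      fun u z hu => ?_⟩
    · rw [ha, hm, hm, hXp, hXp, h1, h3, ha, px_add he, pow_add]
      ring
    · rw [map_add, map_add, hev, hev, h2 u z hu, h4 u z hu, map_add, map_add, pow_add]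
      ring
  | mul_X p i hp =>
    obtain ⟨K, F, h1, h2⟩ := hp
    refine ⟨K + l i.2.1, F * MvPolynomial.X i, ?_, fun u z hu => ?_⟩
    · rw [hm, hX, h1, hm, hX, px_mul he]
      change _ * (PowerSeries.X ^ l i.2.1 * px e (y i.1 i.2.1 i.2.2)) = _
      rw [pow_add]
      ring
    · rw [map_mul, map_mul, h2 u z hu, map_mul, map_mul, MvPolynomial.map_X, MvPolynomial.map_X,
        MvPolynomial.eval_X, MvPolynomial.eval_X, pow_add]
      have hl : u ^ l i.2.1 ≠ 0 := pow_ne_zero _ hu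
      field_simp

end RamrM

open RamrM in
theorem specRamr : SpecRamr := by
  intro ι σ _ _ e l y H he hH
  obtain ⟨K, F, h1, h2⟩ := key he l y H
  refine ⟨K, F, ?_, h2⟩
  rw [h1, hH, px_zero he, mul_zero]

end Pool.Agent.Lib.MPf11a48.CG
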