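import Pool.Agent.Lib.MP_f11a48_ag.CG.SpecL
import Pool.Agent.Lib.MP_f11a48_ag.CG.Relt

/-!
# Module RELL: joint relations between the values of the translates, arbitrary local monodromy
-/

set_option autoImplicit false

namespace Pool.Agent.Lib.MPf11a48.CG

namespace RellM

open Polynomial Matrix
open scoped PowerSeries

variable {ι : Type} [Fintype ι] [DecidableEq ι]

omit [Fintype ι] in
theorem xp_bd (e : ℕ) (l : ι → ℕ) (N : Matrix ι ι ℚ) (r : ℕ) :
    xp e (fun p : ι × Fin r => l p.1) (blockDiagonal fun _ : Fin r => N) =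
      blockDiagonal fun _ : Fin r => xp e l N := by
  ext i j
  unfold xp
  rw [Matrix.add_apply, blockDiagonal_apply, blockDiagonal_apply, Matrix.diagonal_apply,
    Matrix.add_apply, Matrix.diagonal_apply]
  by_cases h2 : i.2 = j.2
  · rw [if_pos h2, if_pos h2]
    by_cases h1 : i.1 = j.1
    · rw [if_pos h1, if_pos (Prod.ext h1 h2)]
    · rw [if_neg h1, if_neg (fun h => h1 (congrArg Prod.fst h))]
  · rw [if_neg h2, if_neg h2, if_neg (fun h => h2 (congrArg Prod.snd h)), add_zero]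

omit [Fintype ι] [DecidableEq ι] in
theorem com_bd {l : ι → ℕ} {N : Matrix ι ι ℚ} (h : ∀ i j, N i j ≠ 0 → l i = l j) (r : ℕ)
    (i j : ι × Fin r) (hij : (blockDiagonal fun _ : Fin r => N) i j ≠ 0) : l i.1 = l j.1 := by
  rw [blockDiagonal_apply] at hij
  split_ifs at hij
  · exact h _ _ hij
  · exact absurd rfl hij

/-- the value at `u ^ e = a / b` of the coefficients -/
theorem map_eval {μ : Type} (H : MvPolynomial μ ℚ[X]) {F : MvPolynomial μ ℚ} {q : ℚ}
    (hH : H.map (Polynomial.evalRingHom q) = F) {w : ℂ} (hw : w = (q : ℂ)) (z : μ → ℂ) :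
    MvPolynomial.eval z (H.map (Polynomial.aeval w : ℚ[X] →ₐ[ℚ] ℂ).toRingHom) =
      MvPolynomial.aeval z F := by
  have h1 : (Polynomial.aeval w : ℚ[X] →ₐ[ℚ] ℂ).toRingHom =
      (algebraMap ℚ ℂ).comp (Polynomial.evalRingHom q) := by
    refine Polynomial.ringHom_ext (fun a => ?_) ?_
    · simp
    · simp [hw]
  rw [h1, ← MvPolynomial.map_map, hH, MvPolynomial.eval_map, MvPolynomial.aeval_def]

end RellM

open Polynomial Matrix
open scoped PowerSeries
open Pool.Agent.Lib.MPf11a48.GF Pool.Agent.Lib.MPf11a48.GF.EstM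
open Pool.Agent.Lib.MPf11a48.CF (vm)

open CF.MonoM RelM ReltM RellM in
theorem specRell (hM : SpecMonoD) (hGalm : SpecGalm) (hTrm : SpecTrm) (hBlm : SpecBlm)
    (hBnd : SpecBnd) (hPnl : SpecPnl) (hPsi : SpecPsi) (hPxv : SpecPxv) (hRamr : SpecRamr) :
    SpecRell := by
  intro ι _ _ k e l T B N ψ₀ Y G₀ h hN hψ hY hNψ r m hm hmk n
  have hF : FamM T B (xp e l N) (psx e l ψ₀) Y := ⟨h.ne, h.sol, h.g, h.pol⟩
  obtain ⟨hform, hdetΨ⟩ := hPsi ι e l N ψ₀ h.pos h.com h.div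
  have htr := fun x : ℕ => hTrm ι T B (xp e l N) (psx e l ψ₀) Y x hF
    (hPnl ι e l N h.pos h.com hN x).1 (hform hNψ x)
  have h1 : ∀ x : Fin r, ∃ (T' : ℤ[X]) (B' : Matrix ι ι ℤ[X]),
      FamM T' B' (xp e l N) (psx e l ψ₀) (trm (m x) (xp e l N) Y) := fun x => (htr (m x)).1
  choose T1 B1 h1 using h1
  obtain ⟨T', B', h2⟩ := hBlm ι (Fin r) T1 B1 (xp e l N) (psx e l ψ₀)
    (fun x => trm (m x) (xp e l N) Y) h1
  have hdet1 : (blockDiagonal fun _ : Fin r => psx e l ψ₀).det ≠ 0 := by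
    rw [Matrix.det_blockDiagonal]
    exact Finset.prod_ne_zero_iff.mpr fun _ _ => hdetΨ hψ
  have hdet2 : (blockDiagonal fun x : Fin r => trm (m x) (xp e l N) Y).det ≠ 0 := by
    rw [Matrix.det_blockDiagonal]
    exact Finset.prod_ne_zero_iff.mpr fun x _ => (htr (m x)).2 hY
  have hb := hBnd (ι × Fin r) e (fun p => l p.1) (blockDiagonal fun _ : Fin r => N) h.pos
    (com_bd h.com r) (nil hN)
  rw [xp_bd] at hb
  obtain ⟨T₂, B₂, hT₂, hgal, hsol⟩ :=
    hGalm (ι × Fin r) T' B' _ _ _ h2 hb.1 hb.2 hdet1 hdet2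
  obtain ⟨C1, hC1⟩ := hM ((ι × Fin r) × (ι × Fin r)) T₂ B₂
    (fun v => (blockDiagonal fun x : Fin r => trm (m x) (xp e l N) Y) v.1 v.2) hT₂ hgal hsol h2.g n
  obtain ⟨C2, hC2⟩ := sm_of h2.g
  refine ⟨C1 + C2 + 1, fun a b ha hb u hu F hF h0 g hg => ?_⟩
  set z : ℂ := (a : ℂ) / b with hz
  have hb0 : (b : ℂ) ≠ 0 := by
    have h3 : 0 < b := by
      refine lt_of_lt_of_le ?_ hb
      have : 0 < |a| := abs_pos.2 ha
      positivity
    exact_mod_cast h3.ne'
  have hz0 : z ≠ 0 := div_ne_zero (by exact_mod_cast ha) hb0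
  have hu0 : u ≠ 0 := by
    rintro rfl
    rw [zero_pow h.pos] at hu
    exact hz0 hu.symm
  -- the values of the entries of the block diagonal matrix
  have hval : ∀ q : (ι × Fin r) × (ι × Fin r),
      pval ((blockDiagonal fun x : Fin r => trm (m x) (xp e l N) Y) q.1 q.2) z =
        if q.1.2 = q.2.2 then vm (trm (m q.1.2) (xp e l N) Y) z q.1.1 q.2.1 else 0 := by
    intro q
    rw [bd_apply]
    split_ifs
    · rfl
    · simp [pval]
  have hF' : (MvPolynomial.rename bl F).totalDegree ≤ n :=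
    (MvPolynomial.totalDegree_rename_le _ _).trans hF
  have h0' : MvPolynomial.aeval
      (fun q : (ι × Fin r) × (ι × Fin r) =>
        pval ((blockDiagonal fun x : Fin r => trm (m x) (xp e l N) Y) q.1 q.2) z)
      (MvPolynomial.rename bl F) = 0 := by
    rw [MvPolynomial.aeval_rename, ← h0]
    congr 1
    congr 1
    funext p
    simp only [Function.comp_apply]
    rw [hval, Matrix.diagonal_mul, ← mul_assoc, inv_mul_cancel₀ (pow_ne_zero _ hu0), one_mul]
    simp [bl]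
  obtain ⟨H, hH0, hH1⟩ := hC1 a b ha (mono (by omega) ha hb) _ hF' h0'
  have hv := hC2 a b ha (mono (by omega) ha hb)
  set G := MvPolynomial.bind₁ (sb ℚ[X]) H with hG
  have hG0 : peval (fun p : Fin r × ι × ι => trm (m p.1) (xp e l N) Y p.2.1 p.2.2) G = 0 := by
    rw [← hH0, hG]
    unfold peval
    exact eval₂_sb _ _ _ (fun q => rfl) H
  have hG1 : G.map (Polynomial.evalRingHom ((a : ℚ) / b)) = F := by
    rw [hG, map_sb, hH1, bind_rename]
  have hv' : ∀ x (p : ι × ι), Sm (trm (m x) (xp e l N) Y p.1 p.2) (u ^ e) := by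
    intro x p
    have h3 := hv ((p.1, x), (p.2, x))
    rw [bd_apply] at h3
    rw [hu]
    simpa using h3
  obtain ⟨K, F', hF'0, hF'1⟩ := hRamr ι (Fin r) e l
    (fun x => trm (m x) (xp e l N) Y) G h.pos hG0
  have hmon := h.mon r m hm hmk F' hF'0 g hg
  have hx : ∀ p : Fin r × ι × ι,
      SmC (gY (g p.1).1 (ram e l (trm (m p.1) (xp e l N) Y)) p.2.1 p.2.2) u ∧
      cval (gY (g p.1).1 (ram e l (trm (m p.1) (xp e l N) Y)) p.2.1 p.2.2) u =
        ((g p.1).1 * (diagonal (fun i => u ^ l i) * vm (trm (m p.1) (xp e l N) Y) (u ^ e)))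
          p.2.1 p.2.2 := fun p =>
    hPxv.2.2.2 ι e l (trm (m p.1) (xp e l N) Y) (g p.1).1 u h.pos (hv' p.1) p.2.1 p.2.2
  have h3 := (hPxv.2.1 (Fin r × ι × ι)
    (fun p => gY (g p.1).1 (ram e l (trm (m p.1) (xp e l N) Y)) p.2.1 p.2.2) u
    (fun p => (hx p).1) F').2
  rw [hmon, (zero _).2, hF'1 u _ hu0, map_eval G hG1 (by rw [hu, hz]; push_cast; rfl)] at h3
  have h4 := (mul_eq_zero.1 h3.symm).resolve_left (pow_ne_zero _ hu0)
  rw [← h4]
  congr 1
  congr 1
  funext p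
  rw [(hx p).2, hu]

end Pool.Agent.Lib.MPf11a48.CG
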