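import Pool.Agent.Lib.MP_f11a48_ag.CG.SpecL
import Pool.Agent.Lib.MP_f11a48_ag.CG.Tor
import Mathlib.FieldTheory.IntermediateField.Adjoin.Basic

/-!
# Module TORL: values of algebraic functions
-/

set_option autoImplicit false

namespace Pool.Agent.Lib.MPf11a48.CG

open Polynomial Matrix
open scoped PowerSeries
open Pool.Agent.Lib.MPf11a48.GF Pool.Agent.Lib.MPf11a48.GF.EstM
open Pool.Agent.Lib.MPf11a48.CF (vm)
open Pool.Agent.Lib.MPf11a48.GL2 (en)
open Pool.Agent.Lib.MPf11a48.CG.RelM (SmC cval)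

namespace TorlM

/-- a polynomial does not vanish at small numbers `≠ 0` -/
theorem ne_zero_small (p : ℚ[X]) (hp : p ≠ 0) :
    ∃ ε : ℝ, 0 < ε ∧ ∀ u : ℂ, u ≠ 0 → ‖u‖ < ε → Polynomial.aeval u p ≠ 0 := by
  have hq : p.map (algebraMap ℚ ℂ) ≠ 0 :=
    (Polynomial.map_ne_zero_iff (algebraMap ℚ ℂ).injective).2 hp
  have hf : ({z : ℂ | z ≠ 0 ∧ Polynomial.aeval z p = 0}).Finite := by
    refine Set.Finite.subset (p.map (algebraMap ℚ ℂ)).roots.toFinset.finite_toSet ?_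
    rintro z ⟨-, hz⟩
    rw [Finset.mem_coe, Multiset.mem_toFinset, Polynomial.mem_roots hq, Polynomial.IsRoot.def,
      Polynomial.eval_map, ← Polynomial.aeval_def, hz]
  have ho : IsOpen ({z : ℂ | z ≠ 0 ∧ Polynomial.aeval z p = 0})ᶜ := hf.isClosed.isOpen_compl
  obtain ⟨ε, hε, h⟩ := Metric.isOpen_iff.1 ho 0 (fun h => h.1 rfl)
  exact ⟨ε, hε, fun u hu hu' h0 => h (by simpa using hu') ⟨hu, h0⟩⟩

/-- a root of a polynomial of degree `d` over `ℚ(u)`, `u ^ e ∈ ℚ`, has degree `≤ e d` over `ℚ` -/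
theorem deg_le {e : ℕ} (he : e ≠ 0) {u w : ℂ} {ξ : ℚ} (hu : u ^ e = (ξ : ℂ)) (P : ℚ[X][X])
    (hP : Polynomial.aeval u P.leadingCoeff ≠ 0)
    (h0 : (P.map (Polynomial.aeval u : ℚ[X] →ₐ[ℚ] ℂ).toRingHom).eval w = 0) :
    ∃ p : ℚ[X], p ≠ 0 ∧ p.natDegree ≤ e * P.natDegree ∧ Polynomial.aeval w p = 0 := by
  set K := IntermediateField.adjoin ℚ {u} with hK
  have hX0 : (X ^ e - C ξ : ℚ[X]) ≠ 0 := (monic_X_pow_sub_C ξ he).ne_zero
  have hXu : Polynomial.aeval u (X ^ e - C ξ : ℚ[X]) = 0 := by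
    rw [map_sub, map_pow, aeval_X, aeval_C, hu, eq_ratCast, sub_self]
  have hint : IsIntegral ℚ u := ⟨X ^ e - C ξ, monic_X_pow_sub_C ξ he, by
    rw [← Polynomial.aeval_def, hXu]⟩
  have hfin : FiniteDimensional ℚ K := IntermediateField.adjoin.finiteDimensional hint
  have hrk : Module.finrank ℚ K ≤ e := by
    rw [hK, IntermediateField.adjoin.finrank hint]
    have h1 := Polynomial.natDegree_le_natDegree (minpoly.degree_le_of_ne_zero ℚ u hX0 hXu)
    rwa [natDegree_X_pow_sub_C] at h1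
  set φ : ℚ[X] →+* K :=
    (Polynomial.aeval (IntermediateField.AdjoinSimple.gen ℚ u) : ℚ[X] →ₐ[ℚ] K).toRingHom with hφ
  have hφu : (algebraMap K ℂ).comp φ = (Polynomial.aeval u : ℚ[X] →ₐ[ℚ] ℂ).toRingHom := by
    ext
    · simp [hφ]
    · simp [hφ]
  have hQ0 : P.map φ ≠ 0 := by
    intro h
    apply hP
    have h1 := congrArg (fun p : K[X] => algebraMap K ℂ (p.coeff P.natDegree)) h
    simp only [coeff_map, coeff_zero, map_zero] at h1
    have h2 := congrArg (fun f : ℚ[X] →+* ℂ => f (P.coeff P.natDegree)) hφu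
    simp only [RingHom.comp_apply] at h2
    rw [h1] at h2
    exact h2.symm
  have hQw : Polynomial.aeval w (P.map φ) = 0 := by
    rw [Polynomial.aeval_def, Polynomial.eval₂_map, hφu, ← Polynomial.eval_map]
    exact h0
  have hintw : IsIntegral K w := (isAlgebraic_iff_isIntegral).1 ⟨P.map φ, hQ0, hQw⟩
  have hdw : (minpoly K w).natDegree ≤ P.natDegree :=
    (Polynomial.natDegree_le_natDegree (minpoly.degree_le_of_ne_zero K w hQ0 hQw)).trans
      Polynomial.natDegree_map_le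
  set L := IntermediateField.adjoin K {w} with hL
  have hfinL : FiniteDimensional K L := IntermediateField.adjoin.finiteDimensional hintw
  have hrkL : Module.finrank K L ≤ P.natDegree := by
    rw [hL, IntermediateField.adjoin.finrank hintw]
    exact hdw
  have hfinQ : FiniteDimensional ℚ L := FiniteDimensional.trans ℚ K L
  have hrkQ : Module.finrank ℚ L ≤ e * P.natDegree := by
    rw [← Module.finrank_mul_finrank ℚ K L]
    exact Nat.mul_le_mul hrk hrkL
  set γ := IntermediateField.AdjoinSimple.gen K w with hγ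
  have hintγ : IsIntegral ℚ γ := Algebra.IsIntegral.isIntegral γ
  refine ⟨minpoly ℚ γ, minpoly.ne_zero hintγ, (minpoly.natDegree_le γ).trans hrkQ, ?_⟩
  have h1 : Polynomial.aeval (algebraMap L ℂ γ) (minpoly ℚ γ) =
      algebraMap L ℂ (Polynomial.aeval γ (minpoly ℚ γ)) :=
    Polynomial.aeval_algebraMap_apply ℂ γ _
  rw [minpoly.aeval, map_zero] at h1
  exact h1

theorem map_pq {μ : Type} (x : μ → ℂ) (q : MvPolynomial μ ℚ) (P : ℚ[X][X]) (u : ℂ) :
    MvPolynomial.eval x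
        ((TorM.pq q P).map (Polynomial.aeval u : ℚ[X] →ₐ[ℚ] ℂ).toRingHom) =
      (P.map (Polynomial.aeval u : ℚ[X] →ₐ[ℚ] ℂ).toRingHom).eval (MvPolynomial.aeval x q) := by
  unfold TorM.pq
  rw [Polynomial.hom_eval₂, Polynomial.hom_eval₂, Polynomial.eval_map]
  congr 1
  · ext p
    · simp
    · simp
  · rw [MvPolynomial.map_map, MvPolynomial.eval_map, MvPolynomial.aeval_def]
    congr 1
    exact Subsingleton.elim _ _

end TorlM

open TorlM in
theorem specTorl (hPxv : SpecPxv) : SpecTorl := by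
  intro ι _ _ e l Y he hY q hq
  obtain ⟨P, hP, h0⟩ := hq
  obtain ⟨C1, hs⟩ := CF.MonoM.sm_of hY
  obtain ⟨ε, hε, hN⟩ := ne_zero_small P.leadingCoeff (leadingCoeff_ne_zero.2 hP)
  obtain ⟨C2, hC2⟩ := exists_nat_gt ((ε ^ e)⁻¹)
  refine ⟨e * P.natDegree, C1 + C2 + 1, fun a b ha hb u hu => ?_⟩
  have hb0 : 0 < b := CF.PolM.pos (by omega) ha hb
  have hsm := hs a b ha (CF.PolM.mono (by omega) ha hb)
  have h1 := CF.PolM.smallC (C := C1 + C2 + 1) (by omega) ha hb
  have hz : ((a : ℂ) / b) ≠ 0 :=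
    div_ne_zero (by exact_mod_cast ha) (by exact_mod_cast hb0.ne')
  have hu0 : u ≠ 0 := by
    rintro rfl
    rw [zero_pow he] at hu
    exact hz hu.symm
  have hun : ‖u‖ < ε := by
    by_contra h
    push Not at h
    have h2 : ε ^ e ≤ ‖u‖ ^ e := pow_le_pow_left₀ hε.le h e
    rw [← norm_pow, hu] at h2
    have h3 : (C2 : ℝ) * ‖((a : ℂ) / b)‖ ≤ 1 := by
      refine le_trans (mul_le_mul_of_nonneg_right ?_ (norm_nonneg _)) h1
      push_cast
      have : (0 : ℝ) ≤ C1 := Nat.cast_nonneg _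
      linarith
    have h4 : 1 < C2 * ε ^ e := by
      have h5 := mul_lt_mul_of_pos_right hC2 (pow_pos hε e)
      rwa [inv_mul_cancel₀ (pow_pos hε e).ne'] at h5
    have h6 : (C2 : ℝ) * ε ^ e ≤ C2 * ‖((a : ℂ) / b)‖ :=
      mul_le_mul_of_nonneg_left h2 (Nat.cast_nonneg _)
    linarith
  have hsm' : ∀ p : ι × ι, Sm (Y p.1 p.2) (u ^ e) := fun p => by
    rw [hu]
    exact hsm p
  have hg := hPxv.2.2.2 ι e l Y 1 u he hsm'
  have hg1 : ∀ i j, gY (1 : Matrix ι ι ℂ) (ram e l Y) i j =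
      PowerSeries.map (algebraMap ℚ ℂ) (ram e l Y i j) := by
    intro i j
    rw [gY, Matrix.map_one _ (map_zero _) (map_one _), one_mul]
    rfl
  have h5 := (hPxv.2.1 (ι × ι)
    (fun p => PowerSeries.map (algebraMap ℚ ℂ) (ram e l Y p.1 p.2)) u
    (fun p => by rw [← hg1]; exact (hg p.1 p.2).1) (TorM.pq q P)).2
  rw [← hPxv.2.2.1 (ι × ι) (fun p => ram e l Y p.1 p.2) (TorM.pq q P), TorM.peval_pq, h0,
    map_zero, (RelM.zero u).2, map_pq] at h5
  have h6 : (fun p : ι × ι => cval (PowerSeries.map (algebraMap ℚ ℂ) (ram e l Y p.1 p.2)) u) =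
      en (diagonal (fun i => u ^ l i) * vm Y ((a : ℂ) / b)) := by
    funext p
    rw [← hg1, (hg p.1 p.2).2, one_mul, hu]
    rfl
  rw [h6] at h5
  exact deg_le he (ξ := (a : ℚ) / b) (by rw [hu]; push_cast; rfl) P (hN u hu0 hun) h5.symm

end Pool.Agent.Lib.MPf11a48.CG
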