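import Pool.Agent.Lib.MP_f11a48_ag.CG.SpecL
import Pool.Agent.Lib.MP_f11a48_ag.CG.Trq
import Pool.Agent.Lib.MP_f11a48_ag.CG.Pnm

/-!
# Module TRM: the translate of a family (general local monodromy)
-/

set_option autoImplicit false
set_option linter.unusedSectionVars false

namespace Pool.Agent.Lib.MPf11a48.CG

open Polynomial Matrix
open scoped PowerSeries
open Pool.Agent.Lib.MPf11a48.GL2T Pool.Agent.Lib.MPf11a48.GF

open TrqM in
theorem specTRM (hTrf : SpecTrf) : SpecTrm := by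
  intro ι _ _ T B N Ψ Y m h hG hform0
  obtain ⟨h1, h2, h3, h4, h5, h6, h7, h8, h9⟩ := hTrf m
  have p1 := fun i j => PnmM.pm_ode m N i j
  have p2 := PnmM.pm_comm m N
  have p4 := PnmM.pm_det m N
  -- the ring homomorphism
  let S : ℚ⟦X⟧ →+* ℚ⟦X⟧ :=
    { toFun := trf m
      map_one' := by
        have := h2 1
        rwa [map_one] at this
      map_mul' := fun f g => (h1 f g).2
      map_zero' := by
        have := h2 0
        rwa [map_zero] at this
      map_add' := fun f g => (h1 f g).1 }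
  have hS : ∀ f, S f = trf m f := fun _ => rfl
  have hSinj : Function.Injective S := (injective_iff_map_eq_zero S).2 h4
  have hMne : (1 + PowerSeries.C (m : ℚ) * PowerSeries.X : ℚ⟦X⟧) ≠ 0 := by
    intro h0
    have := congrArg PowerSeries.constantCoeff h0
    simp at this
  have htrm : trm m N Y = pm m N * Y.map S := rfl
  have hNS : (N.map (PowerSeries.C : ℚ →+* ℚ⟦X⟧)).map S = N.map (PowerSeries.C : ℚ →+* ℚ⟦X⟧) := by
    ext1 i j
    exact h2 _
  refine ⟨?_, ?_⟩
  · -- degrees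
    obtain ⟨e, he⟩ : ∃ e : ℕ, T.natDegree ≤ e ∧ ∀ i j, (B i j).natDegree ≤ e := by
      refine ⟨T.natDegree + ∑ v : ι × ι, (B v.1 v.2).natDegree, Nat.le_add_right _ _,
        fun i j => ?_⟩
      have := Finset.single_le_sum (f := fun v : ι × ι => (B v.1 v.2).natDegree)
        (fun _ _ => Nat.zero_le _) (Finset.mem_univ (i, j))
      exact le_add_left this
    obtain ⟨T', hT'⟩ := h8 T e he.1
    choose B' hB' using fun i j => h8 (B i j) e (he.2 i j)
    have hzT : ((zq ((1 + C (m : ℤ) * X) ^ 2 * T') : ℚ[X]) : ℚ⟦X⟧) =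
        (1 + PowerSeries.C (m : ℚ) * PowerSeries.X) ^ (e + 2) * S ((zq T : ℚ[X]) : ℚ⟦X⟧) := by
      have : zq ((1 + C (m : ℤ) * X) ^ 2 * T') = (1 + C (m : ℚ) * X) ^ 2 * zq T' := by
        simp [zq, Polynomial.map_mul, Polynomial.map_pow]
      rw [this, Polynomial.coe_mul, ← hT', hS, Polynomial.coe_pow, Polynomial.coe_add,
        Polynomial.coe_mul, Polynomial.coe_C, Polynomial.coe_X, Polynomial.coe_one]
      ring
    have hzT0 : S ((zq T : ℚ[X]) : ℚ⟦X⟧) ≠ 0 := by
      rw [Ne, map_eq_zero_iff S hSinj, Polynomial.coe_eq_zero_iff]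
      exact (Polynomial.map_ne_zero_iff (Int.castRingHom ℚ).injective_int).2 h.ne
    refine ⟨(1 + C (m : ℤ) * X) ^ 2 * T', Matrix.of B', ?_, ?_, ?_, ?_⟩
    · intro h0
      rw [h0] at hzT
      have : ((zq 0 : ℚ[X]) : ℚ⟦X⟧) = 0 := by simp [zq]
      rw [this] at hzT
      exact mul_ne_zero (pow_ne_zero _ hMne) hzT0 hzT.symm
    · intro i j
      have hk := key (1 + PowerSeries.C (m : ℚ) * PowerSeries.X) ((zq T : ℚ[X]) : ℚ⟦X⟧)
        (trf m PowerSeries.X) PowerSeries.X e S (PowerSeries.C (m : ℚ)) rfl h3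
        (Matrix.of fun i j => ((zq (B i j) : ℚ[X]) : ℚ⟦X⟧))
        (N.map (PowerSeries.C : ℚ →+* ℚ⟦X⟧)) (pm m N) Y rfl hNS h6 p1 p2
        (fun i j => by
          have := h.sol i j
          simp only [Polynomial.coe_mul, Polynomial.coe_X] at this
          exact this) i j
      rw [htrm, Polynomial.coe_mul, hzT, Polynomial.coe_X, hk]
      congr 1
      refine Finset.sum_congr rfl fun k _ => ?_
      rw [Polynomial.coe_mul, Polynomial.coe_X, Matrix.of_apply, Matrix.of_apply, ← hB', hS]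
    · exact isG_matmul _ _ hG (h9 (ι × ι) (fun v => Y v.1 v.2) h.g).1
    · obtain ⟨D, hD, hq⟩ := h.pol
      choose q hq using hq
      obtain ⟨e, he⟩ : ∃ e : ℕ, D.natDegree ≤ e ∧ ∀ i j, (q i j).natDegree ≤ e := by
        refine ⟨D.natDegree + ∑ v : ι × ι, (q v.1 v.2).natDegree, Nat.le_add_right _ _,
          fun i j => ?_⟩
        have := Finset.single_le_sum (f := fun v : ι × ι => (q v.1 v.2).natDegree)
          (fun _ _ => Nat.zero_le _) (Finset.mem_univ (i, j))
        exact le_add_left this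
      obtain ⟨D', hD'⟩ := h7 D e he.1
      choose q' hq' using fun i j => h7 (q i j) e (he.2 i j)
      have hform : (trm m N Y)ᵀ * Ψ.map (fun p : ℚ[X] => (p : ℚ⟦X⟧)) * trm m N Y =
          (Yᵀ * Ψ.map (fun p : ℚ[X] => (p : ℚ⟦X⟧)) * Y).map S := by
        have e1 : (Ψ.map (fun p : ℚ[X] => (p : ℚ⟦X⟧))).map S =
            Ψ.map fun p : ℚ[X] => trf m (p : ℚ⟦X⟧) := by
          ext1 i j
          rfl
        rw [Matrix.map_mul, Matrix.map_mul, e1, htrm, Matrix.transpose_mul, ← Matrix.transpose_map]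
        calc (Y.map S)ᵀ * (pm m N)ᵀ * Ψ.map (fun p : ℚ[X] => (p : ℚ⟦X⟧)) * (pm m N * Y.map S)
            = (Y.map S)ᵀ * ((pm m N)ᵀ * Ψ.map (fun p : ℚ[X] => (p : ℚ⟦X⟧)) * pm m N) *
                Y.map S := by
              simp only [Matrix.mul_assoc]
          _ = _ := by rw [hform0, Matrix.transpose_map]
      refine ⟨D', ?_, fun i j => ⟨q' i j, ?_⟩⟩
      · intro h0
        rw [h0, Polynomial.coe_zero] at hD'
        refine mul_ne_zero (pow_ne_zero _ hMne) ?_ hD'
        rw [← hS, Ne, map_eq_zero_iff S hSinj, Polynomial.coe_eq_zero_iff]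
        exact hD
      · rw [hform, Matrix.map_apply, ← hD', ← hq', ← hq, (h1 _ _).2, hS]
        ring
  · intro hY
    rw [htrm, Matrix.det_mul]
    refine mul_ne_zero p4 ?_
    have e1 : (Y.map S).det = S Y.det := by
      rw [RingHom.map_det, RingHom.mapMatrix_apply]
    rw [e1, Ne, map_eq_zero_iff S hSinj]
    exact hY

end Pool.Agent.Lib.MPf11a48.CG
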