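import Pool.Agent.Lib.MP_f11a48_ag.CG.SpecL
import Pool.Agent.Lib.MP_f11a48_ag.CG.Val

/-!
# Module VALM: the values of the translate of a family (general local monodromy)
-/

set_option autoImplicit false

namespace Pool.Agent.Lib.MPf11a48.CG

open Polynomial Matrix
open scoped PowerSeries
open Pool.Agent.Lib.MPf11a48.GF Pool.Agent.Lib.MPf11a48.GF.EstM
open Pool.Agent.Lib.MPf11a48.CF (vm)
open Pool.Agent.Lib.MPf11a48.CF.MonoM (mono sm_of)
open Pool.Agent.Lib.MPf11a48.K3 (cx)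

open ValM in
theorem specVALM (hTrf : SpecTrf) : SpecValm := by
  intro ι _ _ M Y m hP1 hP2 hY
  obtain ⟨-, -, -, -, -, -, -, -, hT⟩ := hTrf m
  obtain ⟨hT1, C0, hT2⟩ := hT (ι × ι) (fun v => Y v.1 v.2) hY
  obtain ⟨C1, hC1⟩ := sm_of hT1
  obtain ⟨C2, hC2⟩ := sm_of hP1
  refine ⟨C0 + C1 + C2 + (m + 1), fun a b ha hb => ?_⟩
  obtain ⟨hb0, hbm⟩ := bounds (m := m) ha (mono (by omega) ha hb)
  have k0 := hT2 a b ha (mono (by omega) ha hb)
  have k1 := hC1 a b ha (mono (by omega) ha hb)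
  have k2 := hC2 a b ha (mono (by omega) ha hb)
  have hn : m * ‖(a : ℂ) / b‖ < 1 := by
    have hb' : (0 : ℝ) < b := by exact_mod_cast hb0
    have hm' : (m : ℝ) * |(a : ℝ)| < b := by exact_mod_cast hbm
    rw [norm_div, Complex.norm_intCast, Complex.norm_intCast, abs_of_pos hb', ← mul_div_assoc,
      div_lt_one hb']
    exact hm'
  have e1 : vm (trm m M Y) ((a : ℂ) / b) =
      NormedSpace.exp (-(Complex.log (1 + m * ((a : ℂ) / b))) • cx M) *
        vm Y ((a : ℂ) / (b + m * a)) := by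
    have h1 : vm (trm m M Y) ((a : ℂ) / b) =
        vm (pm m M) ((a : ℂ) / b) * vm (Y.map (trf m)) ((a : ℂ) / b) := by
      unfold trm
      exact vm_mul k2 k1
    have h2 : vm (Y.map (trf m)) ((a : ℂ) / b) = vm Y ((a : ℂ) / (b + m * a)) := by
      ext i j
      exact k0 (i, j)
    rw [h1, h2, hP2 _ hn]
  rw [e1, ← Matrix.mul_assoc, log_eq ha hb0 hbm, sub_eq_add_neg, add_smul,
    Matrix.exp_add_of_commute]
  exact ((Commute.refl (cx M)).smul_left _).smul_right _

end Pool.Agent.Lib.MPf11a48.CG
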