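import Pool.Agent.Lib.MP_f11a48_ag.CG.AllK
import Pool.Agent.Lib.MP_f11a48_ag.CG.Aril
import Pool.Agent.Lib.MP_f11a48_ag.CG.Blm
import Pool.Agent.Lib.MP_f11a48_ag.CG.Bnd
import Pool.Agent.Lib.MP_f11a48_ag.CG.GALM
import Pool.Agent.Lib.MP_f11a48_ag.CG.MainL
import Pool.Agent.Lib.MP_f11a48_ag.CG.Norml
import Pool.Agent.Lib.MP_f11a48_ag.CG.Nzm
import Pool.Agent.Lib.MP_f11a48_ag.CG.PNL
import Pool.Agent.Lib.MP_f11a48_ag.CG.Pms
import Pool.Agent.Lib.MP_f11a48_ag.CG.Psi
import Pool.Agent.Lib.MP_f11a48_ag.CG.Pxv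
import Pool.Agent.Lib.MP_f11a48_ag.CG.Ramr
import Pool.Agent.Lib.MP_f11a48_ag.CG.Rell
import Pool.Agent.Lib.MP_f11a48_ag.CG.Torl
import Pool.Agent.Lib.MP_f11a48_ag.CG.Trm
import Pool.Agent.Lib.MP_f11a48_ag.CG.Valm

/-!
# Families with arbitrary local monodromy: the theorem, from the modules
-/

set_option autoImplicit false

namespace Pool.Agent.Lib.MPf11a48.CG

theorem aBndl : SpecBnd := specBnd specPms
theorem aPnl : SpecPnl := specPnl specPms aBndl
theorem aPsi : SpecPsi := specPSI specTrf specPms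
theorem aRell : SpecRell :=
  specRell aMonoD specGalm (specTRM specTrf) specBLM aBndl aPnl aPsi specPxv specRamr
theorem aAril : SpecAril :=
  specAril aRell specNorml (specVALM specTrf) (specTorl specPxv) specNZM specDeg aPnl aPsi

/-- sums of fibres of a family with arbitrary local monodromy -/
theorem statementL : StatementL :=
  mainL aAril specDeg specNrm aGt specLies aUltJ (specExc specBas aConn)
    (specPlf specPlk aLfx specDt) specZar specBss aSttj aStnj

end Pool.Agent.Lib.MPf11a48.CG
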