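import Pool.Agent.Lib.MP_f11a48_ag.CG.Spec
import Pool.Agent.Lib.MP_f11a48_ag.CF.Lie

/-!
# Module ADJ: stable subspaces of the space of endomorphisms
-/

set_option autoImplicit false
set_option linter.unusedSectionVars false

namespace Pool.Agent.Lib.MPf11a48.CG.AdjM

open Matrix
open Pool.Agent.Lib.MPf11a48.Tors
open Pool.Agent.Lib.MPf11a48.CF.LieM
open Pool.Agent.Lib.MPf11a48.K3 (cx)

variable {ι : Type} [Fintype ι] [DecidableEq ι]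

theorem map_mul_inv (ψ : Matrix ι ι ℚ) (hψ : (cx ψ).det ≠ 0) (τ : ℂ ≃+* ℂ) (Y : Matrix ι ι ℂ) :
    (Y * (cx ψ)⁻¹).map τ = Y.map τ * (cx ψ)⁻¹ := by
  have hu := isUnit_iff_ne_zero.2 hψ
  have e1 : (Y * (cx ψ)⁻¹ * cx ψ).map (τ : ℂ →+* ℂ) = Y.map (τ : ℂ →+* ℂ) := by
    rw [Matrix.mul_assoc, Matrix.nonsing_inv_mul _ hu, Matrix.mul_one]
  rw [Matrix.map_mul, map_skew] at e1
  change (Y * (cx ψ)⁻¹).map (τ : ℂ →+* ℂ) = Y.map (τ : ℂ →+* ℂ) * (cx ψ)⁻¹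
  rw [← e1, Matrix.mul_assoc, Matrix.mul_nonsing_inv _ hu, Matrix.mul_one]

end Pool.Agent.Lib.MPf11a48.CG.AdjM

namespace Pool.Agent.Lib.MPf11a48.CG

open Matrix
open Pool.Agent.Lib.MPf11a48.Tors
open Pool.Agent.Lib.MPf11a48.CF.LieM
open Pool.Agent.Lib.MPf11a48.K3 (cx)
open Pool.Agent.Lib.MPf11a48.CF (ta)

open AdjM in
theorem specAdj : SpecAdj := by
  intro ι _ _ ψ K G H hS hst A hA hτA g hg X hX
  have hψd := det_cx hS.det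
  have h1 := hst (Fin 2) (by simp) (A.map (wm (cx ψ))) ?_ ?_ g hg _ ⟨X, hX, rfl⟩
  · rw [ta_wm (cx ψ) hψd g 1 (by rw [one_smul]; exact hS.iso g hg), one_smul] at h1
    obtain ⟨Y, hY, hYX⟩ := h1
    rw [← wm_inj (cx ψ) hψd hYX]
    exact hY
  · rintro h hh _ ⟨Y, hY, rfl⟩
    obtain ⟨μ, hμ⟩ := hS.sim h hh
    rw [ta_wm (cx ψ) hψd h μ hμ]
    exact Submodule.smul_mem _ _ ⟨_, hA h hh Y hY, rfl⟩
  · rintro τ hτ _ ⟨Y, hY, rfl⟩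
    refine ⟨Y.map τ, hτA τ hτ Y hY, ?_⟩
    funext J
    rw [wm_apply, ← map_mul_inv ψ hψd τ Y]
    rfl

end Pool.Agent.Lib.MPf11a48.CG
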