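import Pool.Agent.Lib.MP_f11a48_ag.CG.SpecJ
import Pool.Agent.Lib.MP_f11a48_ag.CG.Alg

/-!
# ALGJ: the elimination of the matrix `C` by derivations, with an exceptional set (from DEX)
-/

set_option autoImplicit false

namespace Pool.Agent.Lib.MPf11a48.CG

open Matrix AlgM

theorem specAlgJ (hDex : SpecDex) : SpecAlgJ := by
  intro U _ _ k ι σ _ _ _ _ d r X W C θ y hWC hθ hΦ
  classical
  -- the derivations
  have hex : ∀ q : σ × Fin d, ∃ δ : Derivation k U U, ∀ p : σ × ι × ι,
      δ (y p.1 p.2.1 p.2.2) = if p.1 = q.1 then (X q.2 * y q.1) p.2.1 p.2.2 else 0 := by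
    intro q
    exact hDex U k (σ × ι × ι) (fun p => y p.1 p.2.1 p.2.2)
      (fun p => if p.1 = q.1 then (X q.2 * y q.1) p.2.1 p.2.2 else 0)
      (fun Φ h => hΦ Φ h q.1 q.2)
  choose δ hδ using hex
  -- a maximal independent set of columns
  obtain ⟨κ, em, hem, hspan, hind⟩ :=
    exists_linearIndependent' U (fun (q : σ × Fin d) (i : Fin r) => δ q (θ i))
  have : Fintype κ := Fintype.ofInjective em hem
  have hcard : Fintype.card κ ≤ r := by
    have h1 := hind.fintype_card_le_finrank
    rwa [Module.finrank_fintype_fun_eq_card, Fintype.card_fin] at h1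
  refine ⟨Finset.univ.image (fun c : κ => (em c).1), ?_, ?_⟩
  · exact (Finset.card_image_le).trans (by rwa [Finset.card_univ])
  intro Z hZ
  have hz : ∀ a, ∃ z : Fin d → U, ∑ j, z j • W j = Z a := fun a =>
    (Submodule.mem_span_range_iff_exists_fun U).1 (hZ a)
  choose z hz using hz
  set E : Finset σ := Finset.univ.image (fun c : κ => (em c).1) with hE
  -- the coefficients on the basis
  have hS : ∑ q ∈ Finset.univ.filter (fun q : σ × Fin d => q.1 ∉ E),
      z q.1 q.2 • (fun i : Fin r => δ q (θ i)) ∈ Submodule.span U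
        (Set.range ((fun (q : σ × Fin d) (i : Fin r) => δ q (θ i)) ∘ em)) := by
    rw [hspan]
    exact Submodule.sum_mem _ fun q _ => Submodule.smul_mem _ _ (Submodule.subset_span ⟨q, rfl⟩)
  obtain ⟨c, hc⟩ := (Submodule.mem_span_range_iff_exists_fun U).1 hS
  let D : Derivation k U U :=
    (∑ q ∈ Finset.univ.filter (fun q : σ × Fin d => q.1 ∉ E), z q.1 q.2 • δ q)
      - ∑ e : κ, c e • δ (em e)
  have hDap : ∀ u : U, D u
      = (∑ q ∈ Finset.univ.filter (fun q : σ × Fin d => q.1 ∉ E), z q.1 q.2 * δ q u)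
        - ∑ e : κ, c e * δ (em e) u := by
    intro u
    simp only [D, Derivation.sub_apply, sum_ap, Derivation.smul_apply, smul_eq_mul]
  have hDθ : ∀ i, D (θ i) = 0 := by
    intro i
    have h1 := congrFun hc i
    rw [Finset.sum_apply, Finset.sum_apply] at h1
    rw [hDap, sub_eq_zero]
    exact h1.symm
  have hDC : ∀ i j, D (C i j) = 0 := hθ D hDθ
  refine ⟨D, hDC, ?_⟩
  intro a ha i l
  have hDCm : C.map D = 0 := by
    ext i j
    exact hDC i j
  have hDy : (y a).map D = (∑ j, z a j • X j) * y a := by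
    ext i l
    rw [Matrix.map_apply, hDap]
    have h2 : ∀ e : κ, δ (em e) (y a i l) = 0 := by
      intro e
      have h3 := hδ (em e) (a, i, l)
      have h4 : a ≠ (em e).1 := by
        intro h
        exact ha (Finset.mem_image.2 ⟨e, Finset.mem_univ _, h.symm⟩)
      simpa [h4] using h3
    have h5 : ∑ e : κ, c e * δ (em e) (y a i l) = 0 :=
      Finset.sum_eq_zero fun e _ => by rw [h2 e, mul_zero]
    rw [h5, sub_zero, Finset.sum_filter, Fintype.sum_prod_type]
    have h6 : ∀ b : σ, ∑ j : Fin d, (if b ∉ E then z b j * δ (b, j) (y a i l) else 0)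
        = if b = a then ∑ j : Fin d, z b j * (X j * y b) i l else 0 := by
      intro b
      by_cases hb : b = a
      · subst hb
        rw [if_pos rfl]
        refine Finset.sum_congr rfl fun j _ => ?_
        rw [if_pos ha]
        have h7 := hδ (b, j) (b, i, l)
        simp only [if_true] at h7
        rw [h7]
      · rw [if_neg hb]
        refine Finset.sum_eq_zero fun j _ => ?_
        have h7 := hδ (b, j) (a, i, l)
        have h8 : δ (b, j) (y a i l) = 0 := by simpa [Ne.symm hb] using h7
        rw [h8, mul_zero, ite_self]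
    rw [Finset.sum_congr rfl (fun b _ => h6 b), Finset.sum_ite_eq' Finset.univ a,
      if_pos (Finset.mem_univ a), Matrix.sum_mul, Matrix.sum_apply]
    refine Finset.sum_congr rfl fun j _ => ?_
    rw [Matrix.smul_mul, Matrix.smul_apply, smul_eq_mul]
  have hDc : (C * y a).map D = Z a * (C * y a) := by
    rw [der_mul, hDCm, hDy, Matrix.zero_mul, zero_add, ← hz a]
    have h1 : C * (∑ j, z a j • X j) = (∑ j, z a j • W j) * C := by
      rw [Matrix.mul_sum, Matrix.sum_mul]
      refine Finset.sum_congr rfl fun j _ => ?_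
      rw [Matrix.mul_smul, Matrix.smul_mul, hWC]
    rw [← Matrix.mul_assoc C, h1, Matrix.mul_assoc]
  exact congrFun (congrFun hDc i) l

end Pool.Agent.Lib.MPf11a48.CG
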