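import Pool.Agent.Lib.MP_f11a48_ag.CG.SpecK
import Pool.Agent.Lib.MP_f11a48_ag.CG.Bss

/-!
# NCLB: the condition on the automorphisms for block diagonal matrices
-/

set_option autoImplicit false
set_option linter.unusedSectionVars false

namespace Pool.Agent.Lib.MPf11a48.CG

open Matrix
open Pool.Agent.Lib.MPf11a48.Tors
open Pool.Agent.Lib.MPf11a48.CM hiding OmegaM
open Pool.Agent.Lib.MPf11a48.GL2 (lie van)

namespace NclbM

open BssM

variable {ι : Type} [Fintype ι] [DecidableEq ι] {r : ℕ}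

/-- the block diagonal matrix with only one block -/
noncomputable def sg (a : Fin r) : Matrix ι ι ℂ →ₗ[ℂ] Matrix (ι × Fin r) (ι × Fin r) ℂ where
  toFun W := blockDiagonal (Function.update (fun _ => (0 : Matrix ι ι ℂ)) a W)
  map_add' W W' := by
    rw [← blockDiagonal_add]
    congr 1
    funext i
    by_cases hi : i = a
    · subst hi
      simp
    · simp [Function.update_of_ne hi]
  map_smul' c W := by
    rw [RingHom.id_apply, ← blockDiagonal_smul]
    congr 1
    funext i
    by_cases hi : i = a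
    · subst hi
      simp
    · simp [Function.update_of_ne hi]

theorem sg_apply (a : Fin r) (W : Matrix ι ι ℂ) :
    sg a W = blockDiagonal (Function.update (fun _ => (0 : Matrix ι ι ℂ)) a W) := rfl

theorem blockDiag_sg (a : Fin r) (W : Matrix ι ι ℂ) : blockDiag (sg a W) a = W := by
  rw [sg_apply, blockDiag_blockDiagonal, Function.update_self]

/-- conjugation of a block diagonal matrix in one block -/
theorem conj_update (a : Fin r) (g : GL ι ℂ) (X : Fin r → Matrix ι ι ℂ) :
    (gb (Function.update (1 : Fin r → GL ι ℂ) a g)).1 * blockDiagonal X *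
      (gb (Function.update (1 : Fin r → GL ι ℂ) a g))⁻¹.1 =
      blockDiagonal (Function.update X a (g.1 * X a * g⁻¹.1)) := by
  rw [gb_val, gb_inv, ← blockDiagonal_mul, ← blockDiagonal_mul]
  congr 1
  funext i
  by_cases hi : i = a
  · subst hi
    simp only [Function.update_self]
  · simp only [Function.update_of_ne hi, Pi.one_apply, Units.val_one, inv_one, Matrix.one_mul,
      Matrix.mul_one]

theorem mem_update {G : Subgroup (GL ι ℂ)} {g : GL ι ℂ} (hg : g ∈ G) (a : Fin r) :
    gb (Function.update (1 : Fin r → GL ι ℂ) a g) ∈ bd G r := by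
  refine gb_mem fun i => ?_
  by_cases hi : i = a
  · subst hi
    rw [Function.update_self]
    exact hg
  · rw [Function.update_of_ne hi]
    exact G.one_mem

theorem exists_conj_ne {G : Subgroup (GL ι ℂ)} (hSS : IsSS G) {X : Matrix ι ι ℂ}
    (hX : X ∈ lie (G : Set (GL ι ℂ))) (h0 : X ≠ 0) : ∃ g ∈ G, g.1 * X * g⁻¹.1 ≠ X := by
  by_contra hcon
  push Not at hcon
  refine h0 ?_
  have h1 := hSS.ss (Submodule.span ℂ {X}) ?_ ?_ ?_
  · have h2 : X ∈ Submodule.span ℂ {X} := Submodule.mem_span_singleton_self X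
    rw [h1] at h2
    exact (Submodule.mem_bot ℂ).1 h2
  · rw [Submodule.span_singleton_le_iff_mem]
    exact hX
  · intro g hg Y hY
    obtain ⟨c, rfl⟩ := Submodule.mem_span_singleton.1 hY
    rw [Matrix.mul_smul, Matrix.smul_mul, hcon g hg]
    exact hY
  · intro Y hY Y' hY'
    obtain ⟨c, rfl⟩ := Submodule.mem_span_singleton.1 hY
    obtain ⟨c', rfl⟩ := Submodule.mem_span_singleton.1 hY'
    rw [Matrix.smul_mul, Matrix.mul_smul, Matrix.smul_mul, Matrix.mul_smul, smul_comm]

theorem inv_bd {P : Matrix ι ι ℂ} (hP : P.det ≠ 0) :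
    (blockDiagonal fun _ : Fin r => P)⁻¹ = blockDiagonal fun _ : Fin r => P⁻¹ := by
  refine Matrix.inv_eq_right_inv ?_
  rw [← blockDiagonal_mul]
  have h : (fun _ : Fin r => P * P⁻¹) = 1 := by
    funext i
    exact Matrix.mul_nonsing_inv _ (isUnit_iff_ne_zero.2 hP)
  rw [h, blockDiagonal_one]

theorem diag_cond {P : Matrix ι ι ℂ} (hP : P.det ≠ 0) {s : ι → ℂ} {l : GL ι ℂ}
    (hl : ∀ i j, (P⁻¹ * l.1 * P) i j ≠ 0 → s i / s j ∈ Qbar) (i j : ι × Fin r)
    (hij : ((blockDiagonal fun _ : Fin r => P)⁻¹ * (gb fun _ : Fin r => l).1 *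
      (blockDiagonal fun _ : Fin r => P)) i j ≠ 0) : s i.1 / s j.1 ∈ Qbar := by
  rw [inv_bd hP, gb_val, ← blockDiagonal_mul, ← blockDiagonal_mul, blockDiagonal_apply'] at hij
  by_cases h : i.2 = j.2
  · rw [if_pos h] at hij
    exact hl _ _ hij
  · rw [if_neg h] at hij
    exact absurd rfl hij

end NclbM

open BssM NclbM

theorem specNclb : SpecNclb := by
  intro ι _ _ G P s r hSS hP hN
  obtain ⟨l₁, hl₁, l₂, hl₂, h1, h2, h3⟩ := hN
  refine ⟨gb fun _ => l₁, gb_mem fun _ => hl₁, gb fun _ => l₂, gb_mem fun _ => hl₂,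
    diag_cond hP h1, diag_cond hP h2, ?_⟩
  intro h hh h0 hA
  obtain ⟨Z, hZ, hZ0⟩ := Submodule.exists_mem_ne_zero_of_ne_bot h0
  obtain ⟨X, hX, rfl⟩ := (lie_iff Z).1 (hh hZ)
  obtain ⟨a, ha⟩ : ∃ a, X a ≠ 0 := by
    by_contra hcon
    push Not at hcon
    refine hZ0 ?_
    have : X = 0 := funext hcon
    rw [this, blockDiagonal_zero]
  obtain ⟨g, hg, hgX⟩ := exists_conj_ne hSS (hX a) ha
  have hY : sg a (g.1 * X a * g⁻¹.1 - X a) ∈ h := by
    have e1 := h.sub_mem (hA _ (mem_update hg a) _ hZ) hZ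
    rw [conj_update, ← blockDiagonal_sub] at e1
    have e2 : Function.update X a (g.1 * X a * g⁻¹.1) - X =
        Function.update (fun _ => 0) a (g.1 * X a * g⁻¹.1 - X a) := by
      funext i
      by_cases hi : i = a
      · subst hi
        simp
      · simp [Function.update_of_ne hi]
    rw [e2] at e1
    rw [sg_apply]
    exact e1
  have q1 : h.comap (sg a) ≤ lie (G : Set (GL ι ℂ)) := by
    intro W hW
    obtain ⟨X', hX', e⟩ := (lie_iff _).1 (hh hW)
    have e1 := congrArg (fun M => blockDiag M a) e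
    simp only [blockDiag_sg, blockDiag_blockDiagonal] at e1
    rw [e1]
    exact hX' a
  have q2 : h.comap (sg a) ≠ ⊥ := by
    rw [Submodule.ne_bot_iff]
    exact ⟨_, hY, sub_ne_zero.2 hgX⟩
  have q3 : ∀ g' ∈ G, ∀ W ∈ h.comap (sg a), g'.1 * W * g'⁻¹.1 ∈ h.comap (sg a) := by
    intro g' hg' W hW
    have e1 := hA _ (mem_update hg' a) _ hW
    rw [sg_apply, conj_update, Function.update_self, Function.update_idem] at e1
    exact e1
  obtain ⟨W, hW, hW'⟩ := h3 (h.comap (sg a)) q1 q2 q3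
  refine ⟨sg a W, hW, fun hcon => hW' ?_⟩
  have e1 := congrArg (fun M => blockDiag M a) hcon
  change blockDiag _ a = blockDiag _ a at e1
  have e2 : (((gb fun _ : Fin r => l₁) * (gb fun _ => l₂) * (gb fun _ => l₁)⁻¹ *
      (gb fun _ => l₂)⁻¹ : GL (ι × Fin r) ℂ)).1 =
      blockDiagonal fun _ : Fin r => (l₁ * l₂ * l₁⁻¹ * l₂⁻¹).1 := by
    rw [Units.val_mul, Units.val_mul, Units.val_mul, gb_inv, gb_inv, gb_val, gb_val,
      ← blockDiagonal_mul, ← blockDiagonal_mul, ← blockDiagonal_mul]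
    rfl
  rw [e2, sg_apply, ← blockDiagonal_mul, ← blockDiagonal_mul, blockDiag_blockDiagonal,
    blockDiag_blockDiagonal, Function.update_self] at e1
  exact e1

end Pool.Agent.Lib.MPf11a48.CG
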