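import Pool.Agent.Lib.MP_f11a48_ag.CG.SpecK

/-!
# Module RELB: joint relations are relations between the entries of block diagonal matrices
-/

set_option autoImplicit false

namespace Pool.Agent.Lib.MPf11a48.CG

open Matrix
open Pool.Agent.Lib.MPf11a48.CG.MainJM (bl)

namespace RelbM

variable {ι σ : Type} [Fintype ι] [DecidableEq ι] {r : ℕ}

/-- the substitution: the variables outside the blocks are replaced by `0` -/
noncomputable def sb (R : Type) [CommSemiring R] (m : Fin r → σ)
    (q : (ι × Fin r) × (ι × Fin r)) : MvPolynomial (σ × ι × ι) R :=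
  if q.1.2 = q.2.2 then MvPolynomial.X (m q.1.2, q.1.1, q.2.1) else 0

omit [DecidableEq ι] in
theorem totalDegree_sb_le {R : Type} [Field R] (m : Fin r → σ)
    (u : MvPolynomial ((ι × Fin r) × (ι × Fin r)) R) :
    (MvPolynomial.aeval (sb R m) u).totalDegree ≤ u.totalDegree := by
  rw [MvPolynomial.aeval_def, MvPolynomial.eval₂_eq']
  refine MvPolynomial.totalDegree_finsetSum_le fun e he => ?_
  refine (MvPolynomial.totalDegree_mul _ _).trans ?_
  have h0 : (algebraMap R (MvPolynomial (σ × ι × ι) R) (MvPolynomial.coeff e u)).totalDegree = 0 :=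
    MvPolynomial.totalDegree_C _
  rw [h0, zero_add]
  refine (MvPolynomial.totalDegree_finsetProd _ _).trans ?_
  have h1 : ∀ a ∈ (Finset.univ : Finset ((ι × Fin r) × (ι × Fin r))),
      (sb R m a ^ e a).totalDegree ≤ e a := by
    intro a _
    refine (MvPolynomial.totalDegree_pow _ _).trans ?_
    have h2 : (sb R m a).totalDegree ≤ 1 := by
      unfold sb
      split_ifs
      · exact (MvPolynomial.totalDegree_X _).le
      · rw [MvPolynomial.totalDegree_zero]
        exact Nat.zero_le _
    calc e a * (sb R m a).totalDegree ≤ e a * 1 := Nat.mul_le_mul_left _ h2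
      _ = e a := Nat.mul_one _
  refine (Finset.sum_le_sum h1).trans ?_
  have h3 := MvPolynomial.le_totalDegree he
  rwa [Finsupp.sum_fintype _ _ (fun _ => rfl)] at h3

omit [Fintype ι] [DecidableEq ι] in
theorem aeval_sb {R : Type} [Field R] [Algebra R ℂ] (m : Fin r → σ) (y : σ → Matrix ι ι ℂ)
    (u : MvPolynomial ((ι × Fin r) × (ι × Fin r)) R) :
    MvPolynomial.aeval (fun p : σ × ι × ι => y p.1 p.2.1 p.2.2) (MvPolynomial.aeval (sb R m) u) =
      MvPolynomial.aeval (fun p : (ι × Fin r) × (ι × Fin r) =>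
        blockDiagonal (fun i => y (m i)) p.1 p.2) u := by
  rw [← AlgHom.comp_apply]
  congr 1
  refine MvPolynomial.algHom_ext fun q => ?_
  rw [AlgHom.comp_apply, MvPolynomial.aeval_X, MvPolynomial.aeval_X]
  unfold sb
  split_ifs with h
  · rw [MvPolynomial.aeval_X, blockDiagonal_apply, if_pos h]
  · rw [map_zero, blockDiagonal_apply, if_neg h]

end RelbM

open RelbM in
theorem specRelb : SpecRelb := by
  intro ι σ _ _ _ _ K n r y G₀ m hm h F hF h0 g hg
  obtain ⟨w, hw, hgw⟩ := hg
  set gt : σ → GL ι ℂ := fun a => if h : ∃ i, m i = a then w h.choose else 1 with hgt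
  have hgm : ∀ i, gt (m i) = w i := by
    intro i
    have hex : ∃ j, m j = m i := ⟨i, rfl⟩
    rw [hgt]
    simp only
    rw [dif_pos hex]
    exact congrArg w (hm hex.choose_spec)
  have hgG : ∀ a, gt a ∈ G₀ := by
    intro a
    rw [hgt]
    simp only
    split_ifs with ha
    · exact hw _
    · exact G₀.one_mem
  have h1 := h (MvPolynomial.aeval (sb K m) F) ((totalDegree_sb_le m F).trans hF)
    (by rw [aeval_sb m (fun a => (y a).1) F]; exact h0) gt hgG
  rw [aeval_sb m (fun a => (gt a).1 * (y a).1) F] at h1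
  rw [← h1]
  congr 1
  refine MvPolynomial.algHom_ext fun q => ?_
  rw [MvPolynomial.aeval_X, MvPolynomial.aeval_X, hgw]
  change ((blockDiagonal fun i => (w i).1) * (blockDiagonal fun i => (y (m i)).1)) q.1 q.2 = _
  rw [← blockDiagonal_mul]
  congr 2
  funext i
  rw [hgm]

end Pool.Agent.Lib.MPf11a48.CG
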