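import Pool.Agent.Lib.MP_f11a48_ag.CG.SpecK

/-!
# STNJ: stable subspaces for all sums of fibres near a fibre with many automorphisms
-/

set_option autoImplicit false
set_option linter.unusedSectionVars false

namespace Pool.Agent.Lib.MPf11a48.CG

open Matrix
open Pool.Agent.Lib.MPf11a48.Tors
open Pool.Agent.Lib.MPf11a48.CM hiding OmegaM
open Pool.Agent.Lib.MPf11a48.GL2T
open Pool.Agent.Lib.MPf11a48.K3 (cx)
open Pool.Agent.Lib.MPf11a48.K3.KCurM (gl)
open Pool.Agent.Lib.MPf11a48.CG.MainJM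

theorem specStnj (hSt : SpecSt) (hNclb : SpecNclb) (hRelb : SpecRelb) (hBss : SpecBss) :
    SpecStnj := by
  classical
  intro ι _ _ C₀ G G₀ P Q d hG hGG hPQ hP hQ hN s k D
  have hPdet : P.det ≠ 0 := by
    have h1 := CF.MainM.det_unit C₀
    rw [hPQ, det_mul, det_mul] at h1
    exact left_ne_zero_of_mul (left_ne_zero_of_mul h1)
  have hPQ' : ∀ r : ℕ, (bl fun _ : Fin r => C₀).1 = (blockDiagonal fun _ : Fin r => P) *
      diagonal (fun p : ι × Fin r => d p.1) * blockDiagonal fun _ : Fin r => Q := by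
    intro r
    have h1 : diagonal (fun p : ι × Fin r => d p.1) =
        blockDiagonal fun _ : Fin r => diagonal d := by
      rw [blockDiagonal_diagonal]
    rw [h1, ← blockDiagonal_mul, ← blockDiagonal_mul]
    change (blockDiagonal fun _ : Fin r => C₀.1) = _
    rw [hPQ]
  have hAlg : ∀ (r : ℕ) (M : Matrix ι ι ℂ), IsAlg M →
      IsAlg (blockDiagonal fun _ : Fin r => M) := by
    intro r M hM p q
    rw [blockDiagonal_apply]
    split_ifs
    · exact hM _ _
    · exact Qbar.zero_mem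
  have hst := fun r : ℕ => hSt (ι × Fin r) (bl fun _ : Fin r => C₀)
    (blockDiagonal fun _ : Fin r => P) (blockDiagonal fun _ : Fin r => Q)
    (fun p => d p.1) (bd G r) (bd G₀ r) (hBss ι G r hG).1 (conj_bd hGG) (hPQ' r) (hAlg r P hP)
    (hAlg r Q hQ) (hNclb ι G P d r hG hPdet hN)
  choose δ₀ hδ₀ using hst
  refine ⟨∑ r ∈ Finset.range (k + 1), Fintype.card (ι × Fin r) ^ D r * D r,
    ∑ r ∈ Finset.range (k + 1), δ₀ r, ?_⟩
  intro t K hK y hrel
  refine ⟨∅, Nat.zero_le _, ?_⟩
  intro r m hm _ R T hR hT hc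
  have hrk : r ≤ k := by
    have := Fintype.card_le_of_injective m hm
    rwa [Fintype.card_fin, Fintype.card_fin] at this
  have hgl : gl (cx (0 : Matrix ι ι ℚ)) t = 1 := by
    refine Units.ext ?_
    change NormedSpace.exp (t • cx (0 : Matrix ι ι ℚ)) = 1
    have h0 : cx (0 : Matrix ι ι ℚ) = 0 := by
      refine Matrix.ext fun i j => ?_
      change ((0 : ℚ) : ℂ) = 0
      exact Rat.cast_zero
    rw [h0, smul_zero, NormedSpace.exp_zero]
  have hc' : bl (fun _ : Fin r => C₀) * bl (fun i => y (m i)) * R ∈ T := by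
    rw [← bl_mul]
    simpa only [hgl, mul_one] using hc
  refine hδ₀ r (D r) K hK (bl fun i => y (m i)) ?_ R hR T hT hc'
  intro K' hKK' hK' hfin
  have h1 := hrel K' hKK' hK' (hfin.trans (Nat.mul_le_mul_left _
    (Finset.single_le_sum (f := δ₀) (fun _ _ => Nat.zero_le _)
      (Finset.mem_range.2 (Nat.lt_succ_of_le hrk)))))
  have h2 := hRelb ι (Fin k) K' _ r y G₀ m hm h1
  intro F hF hF0
  exact h2 F (hF.trans (Finset.single_le_sum
    (f := fun r => Fintype.card (ι × Fin r) ^ D r * D r) (fun _ _ => Nat.zero_le _)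
      (Finset.mem_range.2 (Nat.lt_succ_of_le hrk)))) hF0

end Pool.Agent.Lib.MPf11a48.CG
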