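import Pool.Agent.Lib.MP_f11a48_ag.CG.SpecK
import Pool.Agent.Lib.MP_f11a48_ag.CG.Stt
import Pool.Agent.Lib.MP_f11a48_ag.CG.Cod

/-!
# STTJ: stable subspaces for all sums of all but `s` fibres
-/

set_option autoImplicit false

namespace Pool.Agent.Lib.MPf11a48.CG

open Matrix
open Pool.Agent.Lib.MPf11a48.Tors
open Pool.Agent.Lib.MPf11a48.CM hiding OmegaM
open Pool.Agent.Lib.MPf11a48.GL2T
open Pool.Agent.Lib.MPf11a48.CF (ta pl)
open Pool.Agent.Lib.MPf11a48.GL2 (lie van en Geo tang lr)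
open Pool.Agent.Lib.MPf11a48.K3 (cx)
open Pool.Agent.Lib.MPf11a48.K3.KCurM (gl)
open Pool.Agent.Lib.MPf11a48.CG.MainJM (bl)

namespace SttjM

open CodM
open Pool.Agent.Lib.MPf11a48.CF.CorM (ta_mul ta_one ta_apply)

/-- the codimension of the stabiliser of a line, for a vector whose coordinates satisfy many
relations -/
theorem codAbs {M 𝓙 : Type} [AddCommGroup M] [Module ℂ M] [FiniteDimensional ℂ M] [Fintype 𝓙]
    [DecidableEq 𝓙] (r n : ℕ) (K : IntermediateField ℚ ℂ) (B : 𝓙 → ℂ) (hB : B ≠ 0)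
    (Ψ : M →ₗ[ℂ] (𝓙 → ℂ))
    (hrel : ∀ (J : Fin (r + 2) → 𝓙) (m : ℕ) (F : MvPolynomial (Fin (r + 2)) K), m ≤ n →
      F.IsHomogeneous m → MvPolynomial.aeval (fun i => B (J i)) F = 0 → ∀ X,
      ∑ i, Ψ X (J i) * MvPolynomial.aeval (fun i => B (J i)) (MvPolynomial.pderiv i F) = 0)
    (hF : ∀ J : Fin (r + 2) → 𝓙, ∃ F : MvPolynomial (Fin (r + 2)) K, F ≠ 0 ∧
      F.IsHomogeneous n ∧ MvPolynomial.aeval (fun i => B (J i)) F = 0)
    (S : Submodule ℂ M) (hS : ∀ X, (∃ c : ℂ, Ψ X = c • B) → X ∈ S) :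
    Module.finrank ℂ M ≤ Module.finrank ℂ S + r := by
  classical
  obtain ⟨J₀, hBJ₀⟩ : ∃ J, B J ≠ 0 := by
    by_contra hcon
    push Not at hcon
    exact hB (funext hcon)
  set V : Submodule ℂ (𝓙 → ℂ) := LinearMap.range Ψ ⊔ Submodule.span ℂ {B} with hV
  have hVd : ∀ X, Ψ X ∈ V := fun X => Submodule.mem_sup_left ⟨X, rfl⟩
  have hVb : B ∈ V := Submodule.mem_sup_right (Submodule.mem_span_singleton_self B)
  have hrelV : ∀ (J : Fin (r + 2) → 𝓙) (m : ℕ) (F : MvPolynomial (Fin (r + 2)) K), m ≤ n →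
      F.IsHomogeneous m → MvPolynomial.aeval (fun i => B (J i)) F = 0 → ∀ v ∈ V,
      ∑ i, v (J i) * MvPolynomial.aeval (fun i => B (J i)) (MvPolynomial.pderiv i F) = 0 := by
    intro J m F hm hFh hFb v hv
    rw [hV, Submodule.mem_sup] at hv
    obtain ⟨v1, hv1, v2, hv2, rfl⟩ := hv
    obtain ⟨X, rfl⟩ := hv1
    obtain ⟨t, rfl⟩ := Submodule.mem_span_singleton.1 hv2
    have hX' := hrel J m F hm hFh hFb X
    have hb' : ∑ i, B (J i) * MvPolynomial.aeval (fun i => B (J i))
        (MvPolynomial.pderiv i F) = 0 := by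
      have e1 := congrArg (MvPolynomial.aeval (fun i => B (J i))) hFh.sum_X_mul_pderiv
      simp only [map_sum, map_mul, MvPolynomial.aeval_X, map_nsmul, hFb, smul_zero] at e1
      exact e1
    have e5 : ∀ i, (Ψ X + t • B) (J i) = Ψ X (J i) + t * B (J i) := fun i => rfl
    simp only [e5, add_mul, Finset.sum_add_distrib, mul_assoc, ← Finset.mul_sum, hX', hb',
      mul_zero, add_zero]
  -- the dimension of `V`
  have hdim : Module.finrank ℂ V ≤ r + 1 := by
    by_contra hcon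
    push Not at hcon
    obtain ⟨ρ, _, _, a, w, hwV, hwa, hv⟩ := Pool.Agent.Lib.MPf11a48.CM.exists_pivot V
    have hcard : Module.finrank ℂ V ≤ Fintype.card ρ := by
      have h1 : V ≤ Submodule.span ℂ (Set.range w) := by
        intro v hv'
        rw [hv v hv']
        exact Submodule.sum_mem _ fun p _ =>
          Submodule.smul_mem _ _ (Submodule.subset_span ⟨p, rfl⟩)
      exact (Submodule.finrank_mono h1).trans (finrank_range_le_card w)
    have hcard' : Fintype.card (Fin (r + 2)) ≤ Fintype.card ρ := by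
      rw [Fintype.card_fin]
      omega
    obtain ⟨e⟩ := Function.Embedding.nonempty_of_card_le hcard'
    let J : Fin (r + 2) → 𝓙 := fun i => a (e i)
    have hex : ∃ m, ∃ F : MvPolynomial (Fin (r + 2)) K, F ≠ 0 ∧ F.IsHomogeneous m ∧
        MvPolynomial.aeval (fun i => B (J i)) F = 0 := ⟨n, hF J⟩
    obtain ⟨F, hF0, hFh, hFb⟩ := Nat.find_spec hex
    have hmn : Nat.find hex ≤ n := Nat.find_min' hex (hF J)
    have hG : ∀ i, MvPolynomial.aeval (fun i => B (J i)) (MvPolynomial.pderiv i F) = 0 := by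
      intro i
      have h1 := hrelV J _ F hmn hFh hFb (w (e i)) (hwV _)
      have h2 : ∀ i', w (e i) (J i') = if i' = i then 1 else 0 := by
        intro i'
        rw [hwa]
        by_cases h : i' = i
        · rw [if_pos (by rw [h]), if_pos h]
        · rw [if_neg (fun h' => h (e.injective h').symm), if_neg h]
      simp only [h2, ite_mul, one_mul, zero_mul, Finset.sum_ite_eq', Finset.mem_univ, if_true] at h1
      exact h1
    have hpos : Nat.find hex ≠ 0 := by
      intro h0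
      rw [h0] at hFh
      rw [← MvPolynomial.totalDegree_zero_iff_isHomogeneous,
        MvPolynomial.totalDegree_eq_zero_iff_eq_C] at hFh
      rw [hFh, MvPolynomial.aeval_C] at hFb
      have h1 : MvPolynomial.coeff 0 F = 0 := by
        exact (map_eq_zero (algebraMap K ℂ)).1 hFb
      rw [h1, map_zero] at hFh
      exact hF0 hFh
    have hp0 : ∀ i, MvPolynomial.pderiv i F = 0 := by
      intro i
      by_contra hne
      have h1 : Nat.find hex ≤ Nat.find hex - 1 :=
        Nat.find_min' hex ⟨_, hne, hFh.pderiv, hG i⟩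
      omega
    have h2 := hFh.sum_X_mul_pderiv
    simp only [hp0, mul_zero, Finset.sum_const_zero] at h2
    rcases smul_eq_zero.1 h2.symm with h3 | h3
    · exact hpos h3
    · exact hF0 h3
  -- the stabiliser of the line
  let Φ : M →ₗ[ℂ] (𝓙 → ℂ) :=
    (LinearMap.id - ((LinearMap.proj J₀ : (𝓙 → ℂ) →ₗ[ℂ] ℂ).smulRight
      ((B J₀)⁻¹ • B))).comp Ψ
  have hΦ : ∀ X, Φ X = Ψ X - (Ψ X J₀ * (B J₀)⁻¹) • B := by
    intro X
    simp only [Φ, LinearMap.comp_apply, LinearMap.sub_apply, LinearMap.id_apply,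
      LinearMap.smulRight_apply, LinearMap.proj_apply, smul_smul]
  have hrange : LinearMap.range Φ < V := by
    refine lt_of_le_of_ne ?_ ?_
    · rintro _ ⟨X, rfl⟩
      rw [hΦ]
      exact V.sub_mem (hVd X) (V.smul_mem _ hVb)
    · intro h
      have h1 : B ∈ LinearMap.range Φ := by
        rw [h]
        exact hVb
      obtain ⟨X, hX⟩ := h1
      have h2 := congrFun hX J₀
      rw [hΦ] at h2
      simp only [Pi.sub_apply, Pi.smul_apply, smul_eq_mul] at h2
      rw [inv_mul_cancel_right₀ hBJ₀, sub_self] at h2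
      exact hBJ₀ h2.symm
  have h1 := Submodule.finrank_lt_finrank_of_lt hrange
  have h2 := LinearMap.finrank_range_add_finrank_ker Φ
  have h3 : Module.finrank ℂ (LinearMap.ker Φ) ≤ Module.finrank ℂ S := by
    refine Submodule.finrank_mono fun X hX => hS X ⟨Ψ X J₀ * (B J₀)⁻¹, ?_⟩
    have e2 : Φ X = 0 := hX
    rw [hΦ] at e2
    exact sub_eq_zero.1 e2
  omega

/-- the change of one index in the derivative of a product -/
theorem upd {W : Type} [Fintype W] [DecidableEq W] {T : W → Type} (b d : ∀ a, T a → ℂ)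
    (J₀ : ∀ a, T a) (a : W) : ∃ u : ℂ, ∀ I : T a,
      ∑ a', (∏ c ∈ Finset.univ.erase a', b c (Function.update J₀ a I c)) *
        d a' (Function.update J₀ a I a') =
      (∏ c ∈ Finset.univ.erase a, b c (J₀ c)) * d a I + b a I * u := by
  refine ⟨∑ a' ∈ Finset.univ.erase a, (∏ c ∈ (Finset.univ.erase a').erase a, b c (J₀ c)) *
    d a' (J₀ a'), fun I => ?_⟩
  rw [← Finset.add_sum_erase Finset.univ _ (Finset.mem_univ a)]
  congr 1
  · rw [Function.update_self]
    congr 1
    refine Finset.prod_congr rfl fun c hc => ?_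
    rw [Function.update_of_ne (Finset.ne_of_mem_erase hc)]
  · rw [Finset.mul_sum]
    refine Finset.sum_congr rfl fun a' ha' => ?_
    have hne := Finset.ne_of_mem_erase ha'
    rw [Function.update_of_ne hne, ← Finset.mul_prod_erase (Finset.univ.erase a') _
      (Finset.mem_erase.2 ⟨hne.symm, Finset.mem_univ a⟩), Function.update_self, ← mul_assoc]
    congr 2
    refine Finset.prod_congr rfl fun c hc => ?_
    rw [Function.update_of_ne (Finset.ne_of_mem_erase hc)]

theorem prod_upd {W : Type} [Fintype W] [DecidableEq W] {T : W → Type} (b : ∀ a, T a → ℂ)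
    (J₀ : ∀ a, T a) (a : W) (I : T a) : ∏ c, b c (Function.update J₀ a I c) =
      b a I * ∏ c ∈ Finset.univ.erase a, b c (J₀ c) := by
  rw [← Finset.mul_prod_erase Finset.univ _ (Finset.mem_univ a), Function.update_self]
  congr 1
  refine Finset.prod_congr rfl fun c hc => ?_
  rw [Function.update_of_ne (Finset.ne_of_mem_erase hc)]

variable {ι σ κ : Type} [Fintype ι] [DecidableEq ι] [Fintype σ] [DecidableEq σ] [Fintype κ]
  [DecidableEq κ] {r : ℕ}

/-- the coordinates are polynomials in the blocks -/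
theorem coordPolyB {K : IntermediateField ℚ ℂ} (m : Fin r → σ) (α : (κ → ι × Fin r) → K)
    (J : κ → ι × Fin r) :
    ∃ F : MvPolynomial (σ × ι × ι) K, F.IsHomogeneous (Fintype.card κ) ∧
      ∀ x : σ → Matrix ι ι ℂ, MvPolynomial.aeval (fun p : σ × ι × ι => x p.1 p.2.1 p.2.2) F =
        ta (blockDiagonal fun i => x (m i)) (fun I => (α I : ℂ)) J := by
  obtain ⟨P, hPh, hPe⟩ := coordPoly α J
  let φ : (ι × Fin r) × (ι × Fin r) → MvPolynomial (σ × ι × ι) K := fun v =>
    if v.1.2 = v.2.2 then MvPolynomial.X (m v.1.2, v.1.1, v.2.1) else 0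
  refine ⟨MvPolynomial.aeval φ P, ?_, fun x => ?_⟩
  · have h1 : ∀ v, (φ v).IsHomogeneous 1 := by
      intro v
      simp only [φ]
      split_ifs
      · exact MvPolynomial.isHomogeneous_X K _
      · exact MvPolynomial.isHomogeneous_zero _ _ _
    have h2 := hPh.aeval φ h1
    rwa [one_mul] at h2
  · rw [← hPe]
    have e1 : (MvPolynomial.aeval (fun p : σ × ι × ι => x p.1 p.2.1 p.2.2)).comp
        (MvPolynomial.aeval (R := K) φ) =
        MvPolynomial.aeval (R := K) fun p : (ι × Fin r) × (ι × Fin r) =>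
          (blockDiagonal fun i => x (m i)) p.1 p.2 := by
      refine MvPolynomial.algHom_ext fun v => ?_
      rw [AlgHom.comp_apply, MvPolynomial.aeval_X, MvPolynomial.aeval_X]
      simp only [φ]
      rw [blockDiagonal_apply']
      split_ifs
      · rw [MvPolynomial.aeval_X]
      · rw [map_zero]
    exact DFunLike.congr_fun e1 P

/-- the one-parameter group of a block diagonal matrix -/
theorem one_bl (X : Fin r → Matrix ι ι ℂ) :
    One (fun s => bl fun i => gl (X i) s) (blockDiagonal X) where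
  add s s' := by
    rw [← MainJM.bl_mul]
    congr 1
    funext i
    exact (one_gl (X i)).add s s'
  der p q := by
    change HasDerivAt (fun s => blockDiagonal (fun i => (gl (X i) s).1) p q)
      (blockDiagonal X p q) 0
    simp only [blockDiagonal_apply]
    split_ifs
    · exact (one_gl (X p.2)).der p.1 q.1
    · exact hasDerivAt_const _ _

theorem derTa (hDt : SpecDt) (X : Fin r → Matrix ι ι ℂ) (b : (κ → ι × Fin r) → ℂ)
    (J : κ → ι × Fin r) : HasDerivAt (fun s => ta (bl fun j => gl (X j) s).1 b J)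
      (dt (blockDiagonal X) b J) 0 :=
  ((hDt (ι × Fin r) κ).2.2 (fun s => bl fun j => gl (X j) s) (blockDiagonal X) (one_bl X)).1 b J

theorem gl_zero' (X : Fin r → Matrix ι ι ℂ) : (bl fun i => gl (X i) 0) = 1 := by
  have h : (fun i => gl (X i) 0) = fun _ => 1 := by
    funext i
    exact K3.KCurM.gl_zero _
  rw [h]
  refine Units.ext ?_
  change (blockDiagonal fun _ => (1 : GL ι ℂ).1) = 1
  exact blockDiagonal_one

/-- the sets with at most `s` elements -/
abbrev Wt (k s : ℕ) : Type := {E : Finset (Fin k) // E.card ≤ s}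

section codB

variable {k : ℕ} {W : Type} [Fintype W] [DecidableEq W] {q ρ : W → ℕ}

/-- the derivative of one tensor -/
def DB (m : ∀ E, Fin (ρ E) → Fin k) (b : ∀ E, (Fin (q E) → ι × Fin (ρ E)) → ℂ) (E : W) :
    (Fin k → Matrix ι ι ℂ) →ₗ[ℂ] ((Fin (q E) → ι × Fin (ρ E)) → ℂ) where
  toFun X := dt (blockDiagonal fun i => X (m E i)) (b E)
  map_add' X Y := by
    have h1 : (blockDiagonal fun i => (X + Y) (m E i)) =
        (blockDiagonal fun i => X (m E i)) + blockDiagonal fun i => Y (m E i) := by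
      rw [← blockDiagonal_add]
      rfl
    rw [h1, ← dtL_apply, map_add, dtL_apply, dtL_apply]
  map_smul' c X := by
    have h1 : (blockDiagonal fun i => (c • X) (m E i)) =
        c • (blockDiagonal fun i => X (m E i)) := by
      rw [← blockDiagonal_smul]
      rfl
    rw [h1, ← dtL_apply, map_smul, dtL_apply]
    rfl

theorem DB_apply (m : ∀ E, Fin (ρ E) → Fin k) (b : ∀ E, (Fin (q E) → ι × Fin (ρ E)) → ℂ) (E : W)
    (X : Fin k → Matrix ι ι ℂ) : DB m b E X = dt (blockDiagonal fun i => X (m E i)) (b E) := rfl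

/-- the derivative of the product of the tensors -/
def PB (m : ∀ E, Fin (ρ E) → Fin k) (b : ∀ E, (Fin (q E) → ι × Fin (ρ E)) → ℂ) :
    (Fin k → Matrix ι ι ℂ) →ₗ[ℂ] ((∀ E, Fin (q E) → ι × Fin (ρ E)) → ℂ) where
  toFun X J := ∑ E, (∏ c ∈ Finset.univ.erase E, b c (J c)) * DB m b E X (J E)
  map_add' X Y := by
    funext J
    simp only [Pi.add_apply, map_add, mul_add, Finset.sum_add_distrib]
  map_smul' c X := by
    funext J
    simp only [Pi.smul_apply, map_smul, smul_eq_mul, RingHom.id_apply, Finset.mul_sum]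
    exact Finset.sum_congr rfl fun _ _ => by ring

theorem PB_apply (m : ∀ E, Fin (ρ E) → Fin k) (b : ∀ E, (Fin (q E) → ι × Fin (ρ E)) → ℂ)
    (X : Fin k → Matrix ι ι ℂ) (J : ∀ E, Fin (q E) → ι × Fin (ρ E)) :
    PB m b X J = ∑ E, (∏ c ∈ Finset.univ.erase E, b c (J c)) * DB m b E X (J E) := rfl

/-- the stabiliser of the lines of all tensors -/
def stB (m : ∀ E, Fin (ρ E) → Fin k) (b : ∀ E, (Fin (q E) → ι × Fin (ρ E)) → ℂ)
    (L : Submodule ℂ (Matrix ι ι ℂ)) : Submodule ℂ (Fin k → Matrix ι ι ℂ) where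
  carrier := {X | (∀ a, X a ∈ L) ∧ ∀ E, ∃ c : ℂ, DB m b E X = c • b E}
  add_mem' := by
    rintro X Y ⟨hX, hX'⟩ ⟨hY, hY'⟩
    refine ⟨fun a => L.add_mem (hX a) (hY a), fun E => ?_⟩
    obtain ⟨c, hc⟩ := hX' E
    obtain ⟨d, hd⟩ := hY' E
    exact ⟨c + d, by rw [map_add, hc, hd, add_smul]⟩
  zero_mem' := ⟨fun a => L.zero_mem, fun E => ⟨0, by rw [map_zero, zero_smul]⟩⟩
  smul_mem' := by
    rintro t X ⟨hX, hX'⟩
    refine ⟨fun a => L.smul_mem t (hX a), fun E => ?_⟩
    obtain ⟨c, hc⟩ := hX' E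
    exact ⟨t * c, by rw [map_smul, hc, smul_smul]⟩

theorem stB_br (m : ∀ E, Fin (ρ E) → Fin k) (b : ∀ E, (Fin (q E) → ι × Fin (ρ E)) → ℂ)
    {G₀ : Subgroup (GL ι ℂ)} : ∀ X ∈ stB m b (lie (G₀ : Set (GL ι ℂ))),
      ∀ Y ∈ stB m b (lie (G₀ : Set (GL ι ℂ))),
      (fun a => X a * Y a - Y a * X a) ∈ stB m b (lie (G₀ : Set (GL ι ℂ))) := by
  rintro X ⟨hX, hX'⟩ Y ⟨hY, hY'⟩
  refine ⟨fun a => GL2.lie_br (hX a) (hY a), fun E => ⟨0, ?_⟩⟩
  obtain ⟨c, hc⟩ := hX' E
  obtain ⟨d, hd⟩ := hY' E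
  rw [DB_apply] at hc hd ⊢
  have e1 : (blockDiagonal fun i => X (m E i) * Y (m E i) - Y (m E i) * X (m E i)) =
      (blockDiagonal fun i => X (m E i)) * (blockDiagonal fun i => Y (m E i)) -
      (blockDiagonal fun i => Y (m E i)) * (blockDiagonal fun i => X (m E i)) := by
    rw [← blockDiagonal_mul, ← blockDiagonal_mul, ← blockDiagonal_sub]
    rfl
  rw [e1, CodM.dt_br, hc, hd, map_smul, map_smul, hc, hd, smul_smul, smul_smul, mul_comm,
    sub_self, zero_smul]

/-- the product of the coordinates is a polynomial in the matrices -/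
theorem polB {K : IntermediateField ℚ ℂ} (m : ∀ E, Fin (ρ E) → Fin k)
    (α : ∀ E, (Fin (q E) → ι × Fin (ρ E)) → K) (J : ∀ E, Fin (q E) → ι × Fin (ρ E)) :
    ∃ F : MvPolynomial (Fin k × ι × ι) K,
      F.IsHomogeneous (∑ E, q E) ∧ ∀ x : Fin k → Matrix ι ι ℂ,
        MvPolynomial.aeval (fun p : Fin k × ι × ι => x p.1 p.2.1 p.2.2) F =
          ∏ E, ta (blockDiagonal fun i => x (m E i)) (fun I => (α E I : ℂ)) (J E) := by
  choose F hFh hFe using fun E => coordPolyB (m E) (α E) (J E)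
  refine ⟨∏ E, F E, ?_, fun x => ?_⟩
  · refine MvPolynomial.IsHomogeneous.prod _ _ _ fun E _ => ?_
    have h := hFh E
    rwa [Fintype.card_fin] at h
  · rw [map_prod]
    exact Finset.prod_congr rfl fun E _ => hFe E x

/-- the relations for the orbit -/
theorem relB {K : IntermediateField ℚ ℂ} {G₀ : Subgroup (GL ι ℂ)} (m : ∀ E, Fin (ρ E) → Fin k)
    (y : Fin k → GL ι ℂ) (α : ∀ E, (Fin (q E) → ι × Fin (ρ E)) → K) {r n : ℕ}
    (hRel : HasRelT K (n * ∑ E, q E) (fun a => (y a).1) G₀)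
    (J : Fin (r + 2) → ∀ E, Fin (q E) → ι × Fin (ρ E)) {m' : ℕ}
    {F : MvPolynomial (Fin (r + 2)) K} (hm : m' ≤ n) (hFh : F.IsHomogeneous m')
    (hFb : MvPolynomial.aeval
      (fun i => ∏ E, ta (bl fun i => y (m E i)).1 (fun I => (α E I : ℂ)) (J i E)) F = 0)
    (h : Fin k → GL ι ℂ) (hh : ∀ a, h a ∈ G₀) :
    MvPolynomial.aeval (fun i => ∏ E, ta (bl fun j => h (m E j)).1
      (ta (bl fun i => y (m E i)).1 (fun I => (α E I : ℂ))) (J i E)) F = 0 := by
  choose PJ hPh hPe using polB m α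
  have e : ∀ x : Fin k → Matrix ι ι ℂ,
      MvPolynomial.aeval (fun p : Fin k × ι × ι => x p.1 p.2.1 p.2.2)
      (MvPolynomial.aeval (fun i => PJ (J i)) F) =
      MvPolynomial.aeval (fun i => ∏ E, ta (blockDiagonal fun j => x (m E j))
        (fun I => (α E I : ℂ)) (J i E)) F := by
    intro x
    have e1 : (MvPolynomial.aeval (fun p : Fin k × ι × ι => x p.1 p.2.1 p.2.2)).comp
        (MvPolynomial.aeval (R := K) (fun i => PJ (J i))) =
        MvPolynomial.aeval (R := K) (fun i => ∏ E, ta (blockDiagonal fun j => x (m E j))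
          (fun I => (α E I : ℂ)) (J i E)) := by
      refine MvPolynomial.algHom_ext fun i => ?_
      rw [AlgHom.comp_apply, MvPolynomial.aeval_X, MvPolynomial.aeval_X, hPe]
    exact DFunLike.congr_fun e1 F
  have e2 := hRel (MvPolynomial.aeval (fun i => PJ (J i)) F)
    (by
      refine (hFh.aeval _ fun i => hPh (J i)).totalDegree_le.trans ?_
      rw [mul_comm]
      exact Nat.mul_le_mul_right _ hm)
    (by
      rw [e fun a => (y a).1]
      exact hFb) h hh
  rw [e fun a => (h a).1 * (y a).1] at e2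
  have e3 : ∀ i, (∏ E, ta (blockDiagonal fun j => (h (m E j)).1 * (y (m E j)).1)
      (fun I => (α E I : ℂ)) (J i E)) =
      ∏ E, ta (bl fun j => h (m E j)).1
        (ta (bl fun i => y (m E i)).1 (fun I => (α E I : ℂ))) (J i E) := by
    intro i
    refine Finset.prod_congr rfl fun E _ => ?_
    rw [← ta_mul, ← Units.val_mul, ← MainJM.bl_mul]
    rfl
  simp only [e3] at e2
  exact e2

/-- the derivative of the relations -/
theorem derB (hDt : SpecDt) {K : IntermediateField ℚ ℂ} {G₀ : Subgroup (GL ι ℂ)}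
    (hgeo : Geo (G₀ : Set (GL ι ℂ))) (m : ∀ E, Fin (ρ E) → Fin k)
    (b : ∀ E, (Fin (q E) → ι × Fin (ρ E)) → ℂ) {r : ℕ}
    (J : Fin (r + 2) → ∀ E, Fin (q E) → ι × Fin (ρ E)) (F : MvPolynomial (Fin (r + 2)) K)
    (h1 : ∀ h : Fin k → GL ι ℂ, (∀ a, h a ∈ G₀) →
      MvPolynomial.aeval (fun i => ∏ E, ta (bl fun j => h (m E j)).1 (b E) (J i E)) F = 0)
    (X : Fin k → Matrix ι ι ℂ) (hX : ∀ a, X a ∈ lie (G₀ : Set (GL ι ℂ))) :
    ∑ i, PB m b X (J i) * MvPolynomial.aeval (fun i => ∏ E, b E (J i E))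
      (MvPolynomial.pderiv i F) = 0 := by
  have e0 : ∀ E, ta (bl fun j => gl (X (m E j)) 0).1 (b E) = b E := by
    intro E
    rw [gl_zero', Units.val_one, ta_one]
  have e1 := hasDerivAt_aeval F
    (fun s i => ∏ E, ta (bl fun j => gl (X (m E j)) s).1 (b E) (J i E))
    (fun i => PB m b X (J i)) (fun i => by
      have h2 := HasDerivAt.fun_finsetProd (u := Finset.univ) (x := (0 : ℂ))
        (f := fun E s => ta (bl fun j => gl (X (m E j)) s).1 (b E) (J i E))
        (f' := fun E => dt (blockDiagonal fun j => X (m E j)) (b E) (J i E))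
        (fun E _ => derTa hDt (fun j => X (m E j)) (b E) (J i E))
      refine h2.congr_deriv ?_
      rw [PB_apply]
      refine Finset.sum_congr rfl fun E _ => ?_
      rw [smul_eq_mul]
      congr 1
      refine Finset.prod_congr rfl fun c _ => ?_
      rw [e0])
  have e2 : (fun s => MvPolynomial.aeval
      (fun i => ∏ E, ta (bl fun j => gl (X (m E j)) s).1 (b E) (J i E)) F) = fun _ => 0 := by
    funext s
    exact h1 (fun a => gl (X a) s) fun a => gl_mem hgeo (hX a) s
  rw [e2] at e1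
  have e3 := (hasDerivAt_const (0 : ℂ) (0 : ℂ)).unique e1
  have e4 : (fun i => ∏ E, ta (bl fun j => gl (X (m E j)) 0).1 (b E) (J i E)) =
      fun i => ∏ E, b E (J i E) := by
    funext i
    refine Finset.prod_congr rfl fun E _ => ?_
    rw [e0]
  rw [e4] at e3
  exact e3.symm

/-- the elements which stabilise the line of the product stabilise the line of each tensor -/
theorem lineB (m : ∀ E, Fin (ρ E) → Fin k) (b : ∀ E, (Fin (q E) → ι × Fin (ρ E)) → ℂ)
    (hne : ∀ E, b E ≠ 0) (X : Fin k → Matrix ι ι ℂ) (c : ℂ)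
    (hc : PB m b X = c • fun J => ∏ E, b E (J E)) (E : W) : ∃ d : ℂ, DB m b E X = d • b E := by
  have hJ : ∀ E, ∃ J, b E J ≠ 0 := by
    intro E
    by_contra hc
    push Not at hc
    exact hne E (funext hc)
  choose J₀ hJ₀ using hJ
  obtain ⟨u, hu⟩ := upd b (fun E I => DB m b E X I) J₀ E
  set p : ℂ := ∏ c ∈ Finset.univ.erase E, b c (J₀ c) with hp
  have hp0 : p ≠ 0 := Finset.prod_ne_zero_iff.2 fun c _ => hJ₀ c
  refine ⟨c - u * p⁻¹, ?_⟩
  funext I
  have e3 := congrFun hc (Function.update J₀ E I)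
  have e4 : PB m b X (Function.update J₀ E I) = p * DB m b E X I + b E I * u := hu I
  have e5 : (∏ E', b E' (Function.update J₀ E I E')) = b E I * p := prod_upd b J₀ E I
  rw [e4, Pi.smul_apply, e5, smul_eq_mul] at e3
  change DB m b E X I = (c - u * p⁻¹) * b E I
  have e6 : p * DB m b E X I = p * ((c - u * p⁻¹) * b E I) := by
    have e7 : p * ((c - u * p⁻¹) * b E I) =
        c * (b E I * p) - b E I * u * (p * p⁻¹) := by ring
    rw [e7, mul_inv_cancel₀ hp0, mul_one, ← e3]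
    ring
  exact mul_left_cancel₀ hp0 e6

/-- the codimension of the stabiliser -/
theorem codB (hDt : SpecDt) {K : IntermediateField ℚ ℂ} {G₀ : Subgroup (GL ι ℂ)}
    (hgeo : Geo (G₀ : Set (GL ι ℂ))) (m : ∀ E, Fin (ρ E) → Fin k)
    (y : Fin k → GL ι ℂ) (α : ∀ E, (Fin (q E) → ι × Fin (ρ E)) → K) {r n : ℕ}
    (hne : ∀ E, ta (bl fun i => y (m E i)).1 (fun I => (α E I : ℂ)) ≠ 0)
    (hRel : HasRelT K (n * ∑ E, q E) (fun a => (y a).1) G₀)
    (hF : ∀ J : Fin (r + 2) → ∀ E, Fin (q E) → ι × Fin (ρ E),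
      ∃ F : MvPolynomial (Fin (r + 2)) K, F ≠ 0 ∧ F.IsHomogeneous n ∧ MvPolynomial.aeval
        (fun i => ∏ E, ta (bl fun i => y (m E i)).1 (fun I => (α E I : ℂ)) (J i E)) F = 0) :
    k * Module.finrank ℂ (lie (G₀ : Set (GL ι ℂ))) ≤
      Module.finrank ℂ (stB m (fun E => ta (bl fun i => y (m E i)).1 fun I => (α E I : ℂ))
        (lie (G₀ : Set (GL ι ℂ)))) + r := by
  set b : ∀ E, (Fin (q E) → ι × Fin (ρ E)) → ℂ :=
    fun E => ta (bl fun i => y (m E i)).1 (fun I => (α E I : ℂ)) with hb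
  set L : Submodule ℂ (Matrix ι ι ℂ) := lie (G₀ : Set (GL ι ℂ)) with hL
  let incl : (Fin k → L) →ₗ[ℂ] (Fin k → Matrix ι ι ℂ) := LinearMap.pi fun a =>
    L.subtype.comp (LinearMap.proj a)
  have hincl : ∀ X : Fin k → L, incl X = fun a => (X a).1 := fun X => rfl
  have hB : (fun J : ∀ E, Fin (q E) → ι × Fin (ρ E) => ∏ E, b E (J E)) ≠ 0 := by
    intro h0
    have hJ : ∀ E, ∃ J, b E J ≠ 0 := by
      intro E
      by_contra hc
      push Not at hc
      exact hne E (funext hc)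
    choose J₀ hJ₀ using hJ
    have h1 : ∏ E, b E (J₀ E) ≠ 0 := Finset.prod_ne_zero_iff.2 fun E _ => hJ₀ E
    exact h1 (congrFun h0 J₀)
  have hcod := codAbs r n K (fun J : ∀ E, Fin (q E) → ι × Fin (ρ E) => ∏ E, b E (J E)) hB
    ((PB m b).comp incl)
    (by
      intro J m' F hm hFh hFb X
      exact derB hDt hgeo m b J F (relB m y α hRel J hm hFh hFb) (incl X) fun a => (X a).2)
    hF ((stB m b L).comap incl) (by
      rintro X ⟨c, hc⟩
      exact ⟨fun a => (X a).2, lineB m b hne (incl X) c hc⟩)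
  have hfr : Module.finrank ℂ ((stB m b L).comap incl) ≤ Module.finrank ℂ (stB m b L) := by
    have hi : Function.Injective incl := by
      intro X Y hXY
      funext a
      exact Subtype.ext (congrFun hXY a)
    rw [(Submodule.equivMapOfInjective incl hi ((stB m b L).comap incl)).finrank_eq]
    exact Submodule.finrank_mono (Submodule.map_comap_le _ _)
  have hfk : Module.finrank ℂ (Fin k → L) = k * Module.finrank ℂ L := by
    rw [Module.finrank_pi_fintype ℂ, Finset.sum_const, Finset.card_univ, smul_eq_mul,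
      Fintype.card_fin]
  omega

end codB

end SttjM

open St2M StN SttM SttjM CodM in
open Pool.Agent.Lib.MPf11a48.CF.StM in
open Pool.Agent.Lib.MPf11a48.CF.CorM (ta_mul ta_one ta_apply) in
theorem specSttj (hCnt : SpecCnt) (hExq : SpecExq) (hDt : SpecDt) (hLfx : SpecLfx)
    (hPlk : SpecPlk) (hBss : SpecBss) (hSubj : SpecSubj) : SpecSttj := by
  classical
  intro ι _ _ C₀ N G G₀ s hSS hG₀c hG₀ hN hNlie hFew k D
  obtain ⟨r₀, θ, l, hl, halg, hno⟩ := hFew
  set r : ℕ := r₀ + (if N = 0 then 0 else 1) with hr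
  have hSS₀ := isSS hG₀ hSS hG₀c
  have hgeo := isSS_geo hSS₀
  -- the matrix `M = (l C₀)⁻¹` over the algebraic closure of `ℚ(θ)`
  let E : IntermediateField ℚ ℂ := IntermediateField.adjoin ℚ (Set.range θ)
  let A : Subfield ℂ := (algebraicClosure E ℂ).toSubfield
  have hA : ∀ x : ℂ, x ∈ A ↔ IsAlgebraic E x := fun x => mem_algebraicClosure_iff
  let M : Matrix ι ι ℂ := l⁻¹ • C₀⁻¹.1
  have hMA : ∀ i j, M i j ∈ A := inv_mem hl C₀ fun i j => (hA _).2 (halg i j)
  -- the polynomials in `t`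
  have hex : ∀ q : ℕ, ∃ (d : ℕ) (P : (Fin q → ι) → (Fin q → ι) → Fin (d + 1) → ℂ) (n : ℕ),
      (∀ (t : ℂ) (J J' : Fin q → ι),
        ∏ x, ((gl (cx N) t)⁻¹.1 * M) (J x) (J' x) = ∑ j, P J J' j * t ^ (j : ℕ)) ∧
      ∀ (t : ℂ) (K : IntermediateField ℚ ℂ) (u : Fin (r + 2) → (Fin q → ι) × (Fin q → ι) → K),
        ∃ F : MvPolynomial (Fin (r + 2)) K, F ≠ 0 ∧ F.IsHomogeneous n ∧
          MvPolynomial.aeval (fun a => ∑ i, (u a i : ℂ) * ∑ j : Fin (d + 1), P i.1 i.2 j *
            t ^ (j : ℕ)) F = 0 := by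
    intro q
    obtain ⟨d, P, hd, hPA, hP⟩ := hExq ι (Fin q) N M A hN hMA
    obtain ⟨n, hn⟩ := hCnt ((Fin q → ι) × (Fin q → ι)) d (fun i j => P i.1 i.2 j) r₀ θ
      (fun i j => (hA _).1 (hPA _ _ _)) (r + 2)
      (by
        rw [hr]
        by_cases h0 : N = 0
        · rw [if_pos h0, if_pos (hd h0)]
        · rw [if_neg h0]
          split_ifs <;> omega)
    exact ⟨d, P, n, hP, hn⟩
  choose d P nn hP hnn using hex
  set bnd : ℕ := ∑ r' ∈ Finset.range (k + 1), Fintype.card (ι × Fin r') ^ D r' * D r' with hbnd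
  refine ⟨∑ q ∈ Finset.range (Fintype.card (Wt k s) * bnd + 1), nn q * q, 1, ?_⟩
  intro t K hK y hRel'
  have hRel := hRel' K le_rfl hK (by rw [mul_one])
  clear hRel'
  by_contra hcon
  push Not at hcon
  choose ρ m hinj hmE R T hR hT hcT hnot using fun E : Wt k s => hcon E.1 E.2
  have hρ : ∀ E, ρ E ≤ k := by
    intro E
    have h1 := Fintype.card_le_of_injective (m E) (hinj E)
    rwa [Fintype.card_fin, Fintype.card_fin] at h1
  have hglG : gl (cx N) t ∈ G₀ := CodM.gl_mem (CodM.isSS_geo hSS₀) hNlie t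
  set C₁ : GL ι ℂ := C₀ * gl (cx N) t with hC₁
  have hG₁ : ∀ g, g ∈ G₀ ↔ C₁ * g * C₁⁻¹ ∈ G := by
    intro g
    have e : C₁ * g * C₁⁻¹ = C₀ * (gl (cx N) t * g * (gl (cx N) t)⁻¹) * C₀⁻¹ := by
      rw [hC₁]
      group
    rw [e, ← hG₀]
    constructor
    · intro hg
      exact G₀.mul_mem (G₀.mul_mem hglG hg) (G₀.inv_mem hglG)
    · intro hg
      have h1 := G₀.mul_mem (G₀.mul_mem (G₀.inv_mem hglG) hg) hglG
      have e2 : (gl (cx N) t)⁻¹ * (gl (cx N) t * g * (gl (cx N) t)⁻¹) * gl (cx N) t = g := by group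
      rwa [e2] at h1
  -- the tensors
  have hplk := fun E => hPlk (ι × Fin (ρ E)) K (bl fun _ => C₁) (bl fun i => y (m E i)) (R E)
    (bd G (ρ E)) (bd G₀ (ρ E)) (T E) (D (ρ E)) (MainJM.conj_bd hG₁) (hR E) (hT E)
    (by
      have h1 := hcT E
      rwa [MainJM.bl_mul (fun _ => C₁) fun i => y (m E i)] at h1)
    (hnot E)
  choose q α β z hq hne hz hg using hplk
  set Q : ℕ := ∑ E, q E with hQ
  have hQle : Q ≤ Fintype.card (Wt k s) * bnd := by
    have h1 := Finset.sum_le_card_nsmul Finset.univ q bnd fun E _ => by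
      refine (hq E).trans ?_
      rw [hbnd]
      exact Finset.single_le_sum (f := fun r' => Fintype.card (ι × Fin r') ^ D r' * D r')
        (fun _ _ => Nat.zero_le _) (Finset.mem_range.2 (Nat.lt_succ_of_le (hρ E)))
    rwa [Finset.card_univ, smul_eq_mul] at h1
  have hcard : Fintype.card (Σ E, Fin (q E)) = Q := by
    rw [Fintype.card_sigma]
    simp only [Fintype.card_fin]
    rfl
  let ε : Fin Q ≃ Σ E, Fin (q E) := Fintype.equivOfCardEq (by rw [Fintype.card_fin, hcard])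
  -- the indices
  let J₂ : (∀ E, Fin (q E) → ι × Fin (ρ E)) → (Fin Q → ι) := fun J x => (J (ε x).1 (ε x).2).1
  have hJ₂ : ∀ (J : ∀ E, Fin (q E) → ι × Fin (ρ E)) (x : Fin Q),
      J₂ J x = (J (ε x).1 (ε x).2).1 := fun J x => rfl
  let mt : (∀ E, Fin (q E) → ι × Fin (ρ E)) → (∀ E, Fin (q E) → ι × Fin (ρ E)) → Prop :=
    fun J J' => ∀ E x, (J E x).2 = (J' E x).2
  set b : ∀ E, (Fin (q E) → ι × Fin (ρ E)) → ℂ :=
    fun E => ta (bl fun i => y (m E i)).1 (fun I => (α E I : ℂ)) with hb'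
  -- the coordinates of the product of the tensors
  have hb : ∀ J : ∀ E, Fin (q E) → ι × Fin (ρ E), ∏ E, b E (J E) =
      ((∏ E, z E) * l ^ Q) * ∑ J' : ∀ E, Fin (q E) → ι × Fin (ρ E),
        (if mt J J' then (∏ E, (β E (J' E) : ℂ)) else 0) *
        ∑ j, P Q (J₂ J) (J₂ J') j * t ^ (j : ℕ) := by
    intro J
    have h1 : ∀ E, b E (J E) =
        z E * ∑ J' : Fin (q E) → ι × Fin (ρ E), (∏ x, (if (J E x).2 = (J' x).2 then
          C₁⁻¹.1 (J E x).1 (J' x).1 else 0)) * β E J' := by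
      intro E
      have e1 : b E = z E • ta (bl fun _ : Fin (ρ E) => C₁)⁻¹.1 fun I => (β E I : ℂ) := by
        rw [← map_smul, ← hz E, ta_gl_mul (bl fun _ : Fin (ρ E) => C₁) (bl fun i => y (m E i)),
          ta_inv_ta]
      rw [e1, Pi.smul_apply, smul_eq_mul, ta_apply]
      congr 1
    simp only [h1]
    rw [Finset.prod_mul_distrib, Finset.prod_univ_sum, Fintype.piFinset_univ, mul_assoc]
    congr 1
    rw [Finset.mul_sum]
    refine Finset.sum_congr rfl fun J' _ => ?_
    rw [Finset.prod_mul_distrib]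
    by_cases hmt : mt J J'
    · rw [if_pos hmt]
      have h3 : C₁⁻¹.1 = l • ((gl (cx N) t)⁻¹.1 * M) := by
        simp only [M]
        rw [Matrix.mul_smul, smul_smul, mul_inv_cancel₀ hl, one_smul, hC₁, _root_.mul_inv_rev,
          Units.val_mul]
      have h4 : ∏ E, ∏ x, (if (J E x).2 = (J' E x).2 then
          C₁⁻¹.1 (J E x).1 (J' E x).1 else 0) =
          l ^ Q * ∑ j, P Q (J₂ J) (J₂ J') j * t ^ (j : ℕ) := by
        rw [← hP Q t (J₂ J) (J₂ J')]
        have e0 : ∏ E, ∏ x, (if (J E x).2 = (J' E x).2 then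
          C₁⁻¹.1 (J E x).1 (J' E x).1 else 0) = ∏ E, ∏ x, C₁⁻¹.1 (J E x).1 (J' E x).1 := by
          refine Finset.prod_congr rfl fun E _ => Finset.prod_congr rfl fun x _ => ?_
          rw [if_pos (hmt E x)]
        have e2 : ∏ E, ∏ x, C₁⁻¹.1 (J E x).1 (J' E x).1 =
            ∏ p : Σ E, Fin (q E), C₁⁻¹.1 (J p.1 p.2).1 (J' p.1 p.2).1 :=
          (Fintype.prod_sigma fun p : Σ E, Fin (q E) => C₁⁻¹.1 (J p.1 p.2).1 (J' p.1 p.2).1).symm
        rw [e0, e2,
          ← Equiv.prod_comp ε fun p : Σ E, Fin (q E) => C₁⁻¹.1 (J p.1 p.2).1 (J' p.1 p.2).1]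
        have e3 : ∀ x : Fin Q, C₁⁻¹.1 (J (ε x).1 (ε x).2).1 (J' (ε x).1 (ε x).2).1 =
            l * ((gl (cx N) t)⁻¹.1 * M) (J₂ J x) (J₂ J' x) := by
          intro x
          rw [h3, hJ₂, hJ₂]
          rfl
        simp only [e3]
        rw [Finset.prod_mul_distrib, Finset.prod_const, Finset.card_univ, Fintype.card_fin]
      rw [h4]
      ring
    · rw [if_neg hmt, zero_mul, mul_zero]
      simp only [mt] at hmt
      push Not at hmt
      obtain ⟨E, x, hx⟩ := hmt
      rw [Finset.prod_eq_zero (Finset.mem_univ E)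
        (Finset.prod_eq_zero (Finset.mem_univ x) (if_neg hx)), zero_mul]
  set B : (∀ E, Fin (q E) → ι × Fin (ρ E)) → ℂ := fun J => ∏ E, b E (J E) with hB
  have hF : ∀ J : Fin (r + 2) → ∀ E, Fin (q E) → ι × Fin (ρ E),
      ∃ F : MvPolynomial (Fin (r + 2)) K, F ≠ 0 ∧
      F.IsHomogeneous (nn Q) ∧
      MvPolynomial.aeval (fun i => B (J i)) F = 0 := by
    intro J
    obtain ⟨F, hF0, hFh, hFe⟩ := hnn Q t K fun a i =>
      if i.1 = J₂ (J a) then ∑ J' : ∀ E, Fin (q E) → ι × Fin (ρ E),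
        (if J₂ J' = i.2 then (if mt (J a) J' then ∏ E, β E (J' E) else 0) else 0) else 0
    refine ⟨F, hF0, hFh, ?_⟩
    have h1 : (fun i => B (J i)) = fun a =>
        ((∏ E, z E) * l ^ Q) * ∑ i : (Fin Q → ι) × (Fin Q → ι),
          (((if i.1 = J₂ (J a) then ∑ J' : ∀ E, Fin (q E) → ι × Fin (ρ E),
            (if J₂ J' = i.2 then (if mt (J a) J' then ∏ E, β E (J' E) else 0) else 0)
              else 0 : K)) : ℂ) *
            ∑ j, P Q i.1 i.2 j * t ^ (j : ℕ) := by
      funext a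
      rw [hB]
      change ∏ E, b E (J a E) = _
      rw [hb]
      congr 1
      rw [Fintype.sum_prod_type, Finset.sum_eq_single (J₂ (J a))]
      · simp only [if_true]
        have e1 : ∀ x : Fin Q → ι, ((∑ J' : ∀ E, Fin (q E) → ι × Fin (ρ E),
            (if J₂ J' = x then (if mt (J a) J' then ∏ E, β E (J' E) else 0) else 0 : K) : K) : ℂ) =
            ∑ J' : ∀ E, Fin (q E) → ι × Fin (ρ E),
              (if J₂ J' = x then (if mt (J a) J' then (∏ E, (β E (J' E) : ℂ)) else 0) else 0) := by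
          intro x
          have e2 := map_sum (algebraMap K ℂ) (fun J' : ∀ E, Fin (q E) → ι × Fin (ρ E) =>
            (if J₂ J' = x then (if mt (J a) J' then ∏ E, β E (J' E) else 0) else 0 : K))
            Finset.univ
          refine e2.trans (Finset.sum_congr rfl fun J' _ => ?_)
          split_ifs
          · exact map_prod (algebraMap K ℂ) _ _
          · exact map_zero _
          · exact map_zero _
        simp only [e1, Finset.sum_mul]
        rw [Finset.sum_comm]
        refine Finset.sum_congr rfl fun J' _ => ?_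
        rw [Finset.sum_eq_single (J₂ J')]
        · rw [if_pos rfl]
        · intro x _ hx
          rw [if_neg (Ne.symm hx), zero_mul]
        · intro h
          exact absurd (Finset.mem_univ _) h
      · intro J₁ _ hne
        refine Finset.sum_eq_zero fun J₂ _ => ?_
        simp [hne]
      · intro h
        exact absurd (Finset.mem_univ _) h
    rw [h1, aeval_mul hFh, hFe, mul_zero]
  set L : Submodule ℂ (Matrix ι ι ℂ) := lie (G₀ : Set (GL ι ℂ)) with hL
  have hdeg : HasRelT K (nn Q * ∑ E, q E) (fun a => (y a).1) G₀ :=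
    hasRelT_mono (Finset.single_le_sum (f := fun q => nn q * q) (fun _ _ => Nat.zero_le _)
      (Finset.mem_range.2 (Nat.lt_succ_of_le hQle))) hRel
  have hcod := codB hDt hgeo m y α hne hdeg hF
  -- the subalgebra of `L ^ k`
  obtain ⟨E₀, hE₀, hE₁⟩ := hSubj ι k s r L (stB m b L) (fun X hX => hX.1) (stB_br m b)
    (by
      intro h' hh' hbr hne'
      have h1 := hno (h'.map (cj C₀).toLinearMap)
        (by
          rw [← map_lie hG₀]
          exact Submodule.map_mono hh')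
        (by
          rintro _ ⟨X, hX, rfl⟩ _ ⟨Y, hY, rfl⟩
          refine ⟨X * Y - Y * X, hbr X hX Y hY, ?_⟩
          change cj C₀ (X * Y - Y * X) = cj C₀ X * cj C₀ Y - cj C₀ Y * cj C₀ X
          rw [map_sub, cj_mul, cj_mul])
        (by
          intro h0
          refine hne' ?_
          rw [← map_lie hG₀] at h0
          exact Submodule.map_injective_of_injective (cj C₀).injective h0)
      rw [← map_lie hG₀, finrank_cj, finrank_cj] at h1
      have hLf : Module.finrank ℂ L = Module.finrank ℂ (lie (G₀ : Set (GL ι ℂ))) := rfl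
      rw [hr, hLf]
      omega)
    hcod
  -- the contradiction
  set E' : Wt k s := ⟨E₀, hE₀⟩ with hE'
  have hlin : ∀ Z ∈ lie (bd G₀ (ρ E') : Set (GL (ι × Fin (ρ E')) ℂ)),
      ∃ c : ℂ, dt Z (b E') = c • b E' := by
    intro Z hZ
    obtain ⟨X', hX', rfl⟩ := ((hBss ι G₀ (ρ E') hSS₀).2 Z).1 hZ
    obtain ⟨Y, hY, hYX⟩ := hE₁ (Function.extend (m E') X' 0) (by
      intro a
      by_cases ha : a ∈ Set.range (m E')
      · obtain ⟨i, rfl⟩ := ha
        rw [(hinj E').extend_apply]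
        exact hX' i
      · have h1 : Function.extend (m E') X' 0 a = 0 :=
          Function.extend_apply' _ _ _ fun ⟨i, hi⟩ => ha ⟨i, hi⟩
        rw [h1]
        exact L.zero_mem)
    obtain ⟨c, hc⟩ := hY.2 E'
    refine ⟨c, ?_⟩
    have e1 : (fun i => Y (m E' i)) = X' := by
      funext i
      rw [hYX (m E' i) (hmE E' i), (hinj E').extend_apply]
    rw [← hc, DB_apply, e1]
  have hfix := hLfx (ι × Fin (ρ E')) (Fin (q E')) (bd G₀ (ρ E')) (b E')
    (hBss ι G₀ (ρ E') hSS₀).1 hlin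
  obtain ⟨g, hgG, hgne⟩ := hg E'
  refine hgne ?_
  rw [ta_gl_mul]
  exact hfix g hgG

end Pool.Agent.Lib.MPf11a48.CG
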