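import Pool.Agent.Lib.MP_f11a48_ag.CG.SpecK

/-!
# SUBJ: subalgebras of small codimension of a power
-/

set_option autoImplicit false

namespace Pool.Agent.Lib.MPf11a48.CG

open Matrix

theorem specSubj : SpecSubj := by
  classical
  intro ι _ _ k s r g h hg hbr hsub hdim
  -- the filtration
  let H : ℕ → Submodule ℂ (Fin k → Matrix ι ι ℂ) := fun i =>
    { carrier := {X | X ∈ h ∧ ∀ a : Fin k, a.val < i → X a = 0}
      add_mem' := by
        rintro X Y ⟨hX, hX'⟩ ⟨hY, hY'⟩
        refine ⟨h.add_mem hX hY, fun a ha => ?_⟩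
        rw [Pi.add_apply, hX' a ha, hY' a ha, add_zero]
      zero_mem' := ⟨h.zero_mem, fun a _ => rfl⟩
      smul_mem' := by
        rintro t X ⟨hX, hX'⟩
        refine ⟨h.smul_mem t hX, fun a ha => ?_⟩
        rw [Pi.smul_apply, hX' a ha, smul_zero] }
  let p : Fin k → Submodule ℂ (Matrix ι ι ℂ) := fun i =>
    (H i).map (LinearMap.proj i : (Fin k → Matrix ι ι ℂ) →ₗ[ℂ] Matrix ι ι ℂ)
  have hpg : ∀ i, p i ≤ g := by
    rintro i _ ⟨X, hX, rfl⟩
    exact hg X hX.1 i
  have hpbr : ∀ i, ∀ X ∈ p i, ∀ Y ∈ p i, X * Y - Y * X ∈ p i := by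
    rintro i _ ⟨X, hX, rfl⟩ _ ⟨Y, hY, rfl⟩
    refine ⟨fun a => X a * Y a - Y a * X a, ⟨hbr X hX.1 Y hY.1, fun a ha => ?_⟩, rfl⟩
    change X a * Y a - Y a * X a = 0
    rw [hX.2 a ha, hY.2 a ha, zero_mul, sub_self]
  have hstep : ∀ i : Fin k, Module.finrank ℂ (H i) ≤
      Module.finrank ℂ (p i) + Module.finrank ℂ (H (i + 1)) := by
    intro i
    let φ : H i →ₗ[ℂ] Matrix ι ι ℂ :=
      (LinearMap.proj i : (Fin k → Matrix ι ι ℂ) →ₗ[ℂ] Matrix ι ι ℂ).comp (H i).subtype
    have h1 := LinearMap.finrank_range_add_finrank_ker φ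
    have h2 : Module.finrank ℂ (LinearMap.range φ) ≤ Module.finrank ℂ (p i) := by
      refine Submodule.finrank_mono ?_
      rintro _ ⟨X, rfl⟩
      exact ⟨X.1, X.2, rfl⟩
    have h3 : Module.finrank ℂ (LinearMap.ker φ) ≤ Module.finrank ℂ (H (i + 1)) := by
      have e1 : (LinearMap.ker φ).map (H i).subtype ≤ H (i + 1) := by
        rintro _ ⟨X, hX, rfl⟩
        refine ⟨X.2.1, fun a ha => ?_⟩
        rcases Nat.lt_succ_iff_lt_or_eq.1 ha with ha | ha
        · exact X.2.2 a ha
        · have e2 : φ X = 0 := hX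
          have e3 : a = i := Fin.ext ha
          rw [e3]
          exact e2
      have e3 : Module.finrank ℂ ((LinearMap.ker φ).map (H i).subtype) =
          Module.finrank ℂ (LinearMap.ker φ) :=
        (Submodule.equivMapOfInjective (H i).subtype (H i).injective_subtype
          (LinearMap.ker φ)).finrank_eq.symm
      rw [← e3]
      exact Submodule.finrank_mono e1
    omega
  have hH0 : H 0 = h := by
    refine le_antisymm (fun X hX => hX.1) fun X hX => ⟨hX, fun a ha => ?_⟩
    exact absurd ha (Nat.not_lt_zero _)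
  have hHk : Module.finrank ℂ (H k) = 0 := by
    have h1 : H k = ⊥ := by
      rw [eq_bot_iff]
      intro X hX
      rw [Submodule.mem_bot]
      funext a
      exact hX.2 a a.2
    rw [h1, finrank_bot]
  have hsum : ∀ j, j ≤ k → Module.finrank ℂ h ≤
      (∑ i ∈ Finset.univ.filter (fun i : Fin k => i.val < j), Module.finrank ℂ (p i)) +
        Module.finrank ℂ (H j) := by
    intro j
    induction j with
    | zero =>
      intro _
      rw [hH0]
      omega
    | succ j ih =>
      intro hj
      have h1 := ih (by omega)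
      have h2 := hstep ⟨j, by omega⟩
      have h3 : (Finset.univ.filter fun i : Fin k => i.val < j + 1) =
          insert ⟨j, by omega⟩ (Finset.univ.filter fun i : Fin k => i.val < j) := by
        ext i
        simp only [Finset.mem_filter, Finset.mem_univ, true_and, Finset.mem_insert, Fin.ext_iff]
        omega
      rw [h3, Finset.sum_insert (by simp)]
      change Module.finrank ℂ (H j) ≤ _ + Module.finrank ℂ (H (j + 1)) at h2
      omega
  have htot : Module.finrank ℂ h ≤ ∑ i, Module.finrank ℂ (p i) := by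
    have h1 := hsum k le_rfl
    rw [hHk, add_zero] at h1
    refine h1.trans (Finset.sum_le_sum_of_subset (Finset.subset_univ _))
  -- the exceptional set
  let E : Finset (Fin k) := Finset.univ.filter fun i => p i ≠ g
  have hE : E.card ≤ s := by
    by_contra hcon
    push Not at hcon
    have h1 : ∑ i, ((s + 1) * Module.finrank ℂ (p i) + if i ∈ E then r + 1 else 0) ≤
        ∑ _i : Fin k, (s + 1) * Module.finrank ℂ g := by
      refine Finset.sum_le_sum fun i _ => ?_
      by_cases hi : i ∈ E
      · rw [if_pos hi]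
        have := hsub (p i) (hpg i) (hpbr i) (Finset.mem_filter.1 hi).2
        omega
      · rw [if_neg hi, add_zero]
        exact Nat.mul_le_mul_left _ (Submodule.finrank_mono (hpg i))
    rw [Finset.sum_add_distrib, ← Finset.mul_sum, Finset.sum_ite_mem, Finset.univ_inter,
      Finset.sum_const, Finset.sum_const, Finset.card_univ, Fintype.card_fin, smul_eq_mul,
      smul_eq_mul] at h1
    have h2 : k * ((s + 1) * Module.finrank ℂ g) ≤ (s + 1) * (∑ i, Module.finrank ℂ (p i)) +
        (s + 1) * r := by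
      calc k * ((s + 1) * Module.finrank ℂ g) = (s + 1) * (k * Module.finrank ℂ g) := by ring
        _ ≤ (s + 1) * (Module.finrank ℂ h + r) := Nat.mul_le_mul_left _ hdim
        _ ≤ (s + 1) * (∑ i, Module.finrank ℂ (p i) + r) :=
            Nat.mul_le_mul_left _ (Nat.add_le_add_right htot _)
        _ = _ := by ring
    have h3 : (s + 1) * (r + 1) ≤ E.card * (r + 1) := Nat.mul_le_mul_right _ hcon
    have h4 : (s + 1) * (r + 1) = (s + 1) * r + (s + 1) := by ring
    omega
  refine ⟨E, hE, fun X hX => ?_⟩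
  have key : ∀ j, j ≤ k → ∃ Y ∈ h, ∀ a : Fin k, a.val < j → a ∉ E → Y a = X a := by
    intro j
    induction j with
    | zero => exact fun _ => ⟨0, h.zero_mem, fun a ha => absurd ha (Nat.not_lt_zero _)⟩
    | succ j ih =>
      intro hj
      obtain ⟨Y, hY, hYa⟩ := ih (by omega)
      by_cases hi : (⟨j, by omega⟩ : Fin k) ∈ E
      · refine ⟨Y, hY, fun a ha haE => hYa a ?_ haE⟩
        rcases Nat.lt_succ_iff_lt_or_eq.1 ha with ha | ha
        · exact ha
        · exfalso
          apply haE
          have : a = ⟨j, by omega⟩ := Fin.ext ha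
          rw [this]
          exact hi
      · have hp : p ⟨j, by omega⟩ = g := by
          by_contra hne
          exact hi (Finset.mem_filter.2 ⟨Finset.mem_univ _, hne⟩)
        have h1 : X ⟨j, by omega⟩ - Y ⟨j, by omega⟩ ∈ p ⟨j, by omega⟩ := by
          rw [hp]
          exact g.sub_mem (hX _) (hg Y hY _)
        obtain ⟨Z, hZ, hZe⟩ := h1
        have hZe' : Z ⟨j, by omega⟩ = X ⟨j, by omega⟩ - Y ⟨j, by omega⟩ := hZe
        refine ⟨Y + Z, h.add_mem hY hZ.1, fun a ha haE => ?_⟩
        rw [Pi.add_apply]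
        rcases Nat.lt_succ_iff_lt_or_eq.1 ha with ha | ha
        · rw [hZ.2 a ha, add_zero]
          exact hYa a ha haE
        · have : a = ⟨j, by omega⟩ := Fin.ext ha
          rw [this, hZe', add_sub_cancel]
  obtain ⟨Y, hY, hYa⟩ := key k le_rfl
  exact ⟨Y, hY, fun a ha => hYa a a.2 ha⟩

end Pool.Agent.Lib.MPf11a48.CG
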