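import Pool.Agent.Lib.MP_f11a48_ag.CG.AllJ
import Pool.Agent.Lib.MP_f11a48_ag.CG.MainK
import Pool.Agent.Lib.MP_f11a48_ag.CG.Nclb
import Pool.Agent.Lib.MP_f11a48_ag.CG.Relb
import Pool.Agent.Lib.MP_f11a48_ag.CG.Stnj
import Pool.Agent.Lib.MP_f11a48_ag.CG.Sttj
import Pool.Agent.Lib.MP_f11a48_ag.CG.Subj

/-!
# Sums of fibres of a family: the theorem, from the modules
-/

set_option autoImplicit false

namespace Pool.Agent.Lib.MPf11a48.CG

theorem aSttj : SpecSttj := specSttj specCnt specExq specDt aLfx specPlk specBss specSubj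
theorem aStnj : SpecStnj := specStnj aSt specNclb specRelb specBss

/-- sums of fibres of a family with unipotent local monodromy -/
theorem statementK : StatementK :=
  mainK aRelt specNormt aVal specTor specDeg specNrm aGt specLies aUltJ (specExc specBas aConn)
    (specPlf specPlk aLfx specDt) specZar specBss aSttj aStnj

end Pool.Agent.Lib.MPf11a48.CG
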