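import Pool.Agent.Lib.MP_f11a48_ag.CG.SpecK
import Pool.Agent.Lib.MP_f11a48_ag.CG.MainJ

/-!
# ARI: the arithmetic of a family with unipotent local monodromy
-/

set_option autoImplicit false
set_option linter.unusedSectionVars false

namespace Pool.Agent.Lib.MPf11a48.CG.MainKM

open Polynomial Matrix
open scoped PowerSeries
open Pool.Agent.Lib.MPf11a48.Tors
open Pool.Agent.Lib.MPf11a48.CM hiding OmegaM
open Pool.Agent.Lib.MPf11a48.GL2 (lie van en Geo glmul glinv glinv' closedOver_mono geo_of_torsor)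
open Pool.Agent.Lib.MPf11a48.GL2T
open Pool.Agent.Lib.MPf11a48.GF Pool.Agent.Lib.MPf11a48.GF.EstM
open Pool.Agent.Lib.MPf11a48.CF (vm ta pl)
open Pool.Agent.Lib.MPf11a48.K3 (cx)
open Pool.Agent.Lib.MPf11a48.K3.KCurM (gl)
open Pool.Agent.Lib.MPf11a48.CG.MainJM

variable {ι : Type} [Fintype ι] [DecidableEq ι]

theorem ari (hRelt : SpecRelt) (hNormt : SpecNormt) (hVal : SpecVal) (hTor : SpecTor)
    (hDeg : SpecDeg) {T : ℤ[X]} {B : Matrix ι ι ℤ[X]} {Y : Matrix ι ι ℚ⟦X⟧}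
    {G G₀ : Subgroup (GL ι ℂ)} {ψ₀ N : Matrix ι ι ℚ} {C₀ : GL ι ℂ} (hG : IsSS G)
    (hG₀ : ClosedOver ⊥ (G₀ : Set (GL ι ℂ))) (hGG : ∀ g, g ∈ G₀ ↔ C₀ * g * C₀⁻¹ ∈ G)
    (hF : FamT T B N ψ₀ Y G₀) (hN : IsNilpotent N) (hN₀ : cx N ∈ lie (G₀ : Set (GL ι ℂ)))
    (hd₀ : ψ₀.det ≠ 0) (hNψ : Nᵀ * ψ₀ + ψ₀ * N = 0) (hY : Y.det ≠ 0) :
    Ari G₀ N fun z => NormedSpace.exp (Complex.log z • cx N) * vm Y z := by
  classical
  intro k n δ
  have hcast : ∀ (a b : ℤ) (m : ℕ), ((a : ℂ) / ((b + m * a : ℤ) : ℂ)) = (a : ℂ) / (b + m * a) := by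
    intro a b m
    push_cast
    rfl
  obtain ⟨r₀, p, hsep, halg⟩ := hF.tor
  choose e Ct hCt using fun x => hTor ι Y hF.g (p x) (halg x)
  set E₀ : ℕ := ∑ x, e x with hE₀
  set δ' : ℕ := (max δ E₀) ^ (Fintype.card Unit * (Fintype.card (Fin k × Fin r₀) + 1)) with hδ'
  obtain ⟨N₁, hN₁⟩ := hNormt ι (Fin k) G₀ r₀ p n (δ' * δ) hG₀ (MainM.irred_conj hG hGG) hsep
  choose Cv hCv using fun m : ℕ => hVal ι N Y m hN hF.g
  obtain ⟨Cr, hCr⟩ := hRelt ι T B N ψ₀ Y G₀ hF hN hd₀ hY hNψ k (fun x : Fin k => (x : ℕ))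
    (fun x y h => Fin.ext h) N₁
  obtain ⟨Cz, hCz⟩ := nz hF hd₀ hY
  refine ⟨Cr + Cz + (∑ x, Ct x) + (∑ m ∈ Finset.range k, Cv m) + k + 1, δ', ?_⟩
  intro a b ha hb L₀ hL₀f hL₀d
  -- the matrices
  have hdet : ∀ x : Fin k, (vm Y ((a : ℂ) / (b + (x : ℕ) * a))).det ≠ 0 := by
    intro x
    have h1 := hCz a (b + (x : ℕ) * a) ha (MainAM.shift (by have := x.2; omega) ha hb)
    rwa [hcast] at h1
  have hy' : ∀ x : Fin k, ∃ y : GL ι ℂ, y.1 = vm Y ((a : ℂ) / (b + (x : ℕ) * a)) := fun x =>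
    ⟨Matrix.GeneralLinearGroup.mkOfDetNeZero _ (hdet x), rfl⟩
  choose y' hy' using hy'
  have hv : ∀ x : Fin k, Cv x ≤ ∑ m ∈ Finset.range k, Cv m := fun x =>
    Finset.single_le_sum (f := Cv) (fun _ _ => Nat.zero_le _) (Finset.mem_range.2 x.2)
  have hval := fun x : Fin k => hCv x a b ha (CF.PolM.mono (by have := hv x; omega) ha hb)
  set u : Fin k → GL ι ℂ := fun x =>
    gl (cx N) (-(Complex.log (1 + (x : ℕ) * ((a : ℂ) / b)))) with hu
  have huG : ∀ x, u x ∈ G₀ := fun x => MainM.gl_mem hG₀ hN₀ _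
  set y : Fin k → GL ι ℂ := fun x => u x * y' x with hy
  have hyv : ∀ x : Fin k, (y x).1 = vm (trm (x : ℕ) N Y) ((a : ℂ) / b) := by
    intro x
    rw [(hval x).2, ← hy' x]
    rfl
  -- the invariants
  have hpy : ∀ x j, MvPolynomial.aeval (en (y x).1) (p j) =
      MvPolynomial.aeval (en (y' x).1) (p j) := by
    intro x j
    refine (hsep (y' x) (y x)).1 ?_ j
    have h1 : y x * (y' x)⁻¹ = u x := by
      rw [hy]
      simp only
      group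
    rw [h1]
    exact huG x
  have halgv : ∀ x j, ∃ q : ℚ[X], q ≠ 0 ∧ q.natDegree ≤ E₀ ∧
      aeval (MvPolynomial.aeval (en (y x).1) (p j)) q = 0 := by
    intro x j
    have h1 : Ct j ≤ ∑ x, Ct x :=
      Finset.single_le_sum (f := Ct) (fun _ _ => Nat.zero_le _) (Finset.mem_univ j)
    obtain ⟨q, hq, hq2, hq3⟩ := hCt j a (b + (x : ℕ) * a) ha
      (MainAM.shift (by have := x.2; omega) ha hb)
    rw [hcast, ← hy' x] at hq3
    have h2 : e j ≤ E₀ := Finset.single_le_sum (f := e) (fun _ _ => Nat.zero_le _)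
      (Finset.mem_univ j)
    refine ⟨q, hq, hq2.trans h2, ?_⟩
    rw [hpy]
    exact hq3
  obtain ⟨L, hKL, hLf, hxL, hLd⟩ := exists_field' hDeg Unit (Fin k × Fin r₀) E₀ δ (fun _ => L₀)
    (fun _ => hL₀f) (fun _ => hL₀d) (fun q => MvPolynomial.aeval (en (y q.1).1) (p q.2))
    (fun q => halgv q.1 q.2)
  refine ⟨L, hKL (), hLf, hLd, Complex.log ((a : ℂ) / b), y, ?_, ?_, ?_⟩
  · intro x
    change NormedSpace.exp (Complex.log ((a : ℂ) / (b + (x : ℕ) * a)) • cx N) *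
      vm Y ((a : ℂ) / (b + (x : ℕ) * a)) = _
    rw [(hval x).1, ← hyv x]
  · intro x τ hτ
    refine (hsep (y x) (tw τ (y x))).2 fun j => ?_
    have h1 := MainM.aeval_fix τ (p j) (y x)
    have h2 : τ (MvPolynomial.aeval (en (y x).1) (p j)) = MvPolynomial.aeval (en (y x).1) (p j) :=
      hτ _ (hxL (x, j))
    rw [h2] at h1
    exact h1
  · intro L' hLL' hL'f hL'd
    refine hN₁ y L' hL'f (hL'd.trans (Nat.mul_le_mul_right _ hLd)) (fun x j => hLL' (hxL (x, j))) ?_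
    have h1 := hCr a b ha (CF.PolM.mono (by omega) ha hb)
    have h3 : (fun x => (y x).1) = fun x : Fin k => vm (trm (x : ℕ) N Y) ((a : ℂ) / b) :=
      funext hyv
    rw [h3]
    exact h1

end Pool.Agent.Lib.MPf11a48.CG.MainKM
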