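import Pool.Agent.Lib.MP_f11a48_ag.CF.Defs
import Pool.Agent.Lib.MP_f11a48_ag.helper92.Lie

/-!
# Families near an object of CM type with semisimple monodromy: definitions
-/

set_option autoImplicit false

namespace Pool.Agent.Lib.MPf11a48.CG

open Polynomial Matrix
open scoped PowerSeries
open Pool.Agent.Lib.MPf11a48.Tors
open Pool.Agent.Lib.MPf11a48.CM hiding OmegaM
open Pool.Agent.Lib.MPf11a48.GL2T Pool.Agent.Lib.MPf11a48.GF Pool.Agent.Lib.MPf11a48.CF
open Pool.Agent.Lib.MPf11a48.GL2 (lie van)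
open Pool.Agent.Lib.MPf11a48.K3 (cx)

variable {ι : Type} [Fintype ι] [DecidableEq ι]

/-- `h` is stable under the adjoint action of `G`. -/
def Adst (G : Subgroup (GL ι ℂ)) (h : Submodule ℂ (Matrix ι ι ℂ)) : Prop :=
  ∀ g ∈ G, ∀ X ∈ h, g.1 * X * g⁻¹.1 ∈ h

/-- `G` is (the group of complex points of) a connected semisimple subgroup of `GL_ι` which is
defined over `ℚ`: it is the set of zeros of polynomials over `ℚ`, it is irreducible (the
polynomials vanishing on `G` are a prime ideal), and its Lie algebra has no commutative subspace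
`≠ 0` which is stable under the adjoint action of `G`. -/
structure IsSS (G : Subgroup (GL ι ℂ)) : Prop where
  closed : ClosedOver ⊥ (G : Set (GL ι ℂ))
  irred : ∀ p q : MvPolynomial (ι × ι) ℂ, p * q ∈ van (G : Set (GL ι ℂ)) →
    p ∈ van (G : Set (GL ι ℂ)) ∨ q ∈ van (G : Set (GL ι ℂ))
  ss : ∀ h : Submodule ℂ (Matrix ι ι ℂ), h ≤ lie (G : Set (GL ι ℂ)) → Adst G h →
    (∀ X ∈ h, ∀ Y ∈ h, X * Y = Y * X) → h = ⊥

/-- The value of a polynomial over `ℚ(X)` in several variables at complex power series. -/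
noncomputable def pevalC {μ : Type} (v : μ → ℂ⟦X⟧) (F : MvPolynomial μ ℚ[X]) : ℂ⟦X⟧ :=
  MvPolynomial.eval₂ ((PowerSeries.map (algebraMap ℚ ℂ)).comp
    (Polynomial.coeToPowerSeries.ringHom (R := ℚ))) v F

/-- The matrix `g Y` of complex power series. -/
noncomputable def gY (g : Matrix ι ι ℂ) (Y : Matrix ι ι ℚ⟦X⟧) : Matrix ι ι ℂ⟦X⟧ :=
  g.map (PowerSeries.C : ℂ →+* ℂ⟦X⟧) * Y.map (PowerSeries.map (algebraMap ℚ ℂ))

/-- `Y` is a matrix of G-functions with rational coefficients, whose entries are a solution of the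
system `T y' = B y`, the system satisfies Galochkin's condition, and `G₀` is, up to finite index,
the differential Galois group:
* the polynomial relations over `ℚ(X)` between the entries of `Y` hold for the entries of `g Y`,
  for all `g ∈ G₀`;
* there are finitely many polynomials `p a` over `ℚ` in the matrix entries whose common level sets
  in `GL_ι(ℂ)` are the cosets `G₀ z`, such that the power series `p a (Y)` are algebraic over
  `ℚ(X)`. -/
structure Fam (T : ℤ[X]) (B : Matrix (ι × ι) (ι × ι) ℤ[X]) (Y : Matrix ι ι ℚ⟦X⟧)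
    (G₀ : Subgroup (GL ι ℂ)) : Prop where
  ne : T ≠ 0
  gal : IsGal T B
  sol : IsSol (zq T) (B.map zq) fun v => Y v.1 v.2
  g : IsG fun v : ι × ι => Y v.1 v.2
  mon : ∀ F : MvPolynomial (ι × ι) ℚ[X], peval (fun p => Y p.1 p.2) F = 0 →
    ∀ g ∈ G₀, pevalC (fun p => gY g.1 Y p.1 p.2) F = 0
  tor : ∃ (r : ℕ) (p : Fin r → MvPolynomial (ι × ι) ℚ),
    (∀ z z' : GL ι ℂ, z' * z⁻¹ ∈ G₀ ↔ ∀ a, MvPolynomial.aeval (fun v : ι × ι => z'.1 v.1 v.2) (p a) =
      MvPolynomial.aeval (fun v : ι × ι => z.1 v.1 v.2) (p a)) ∧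
    ∀ a, IsAlgebraic ℚ[X] (MvPolynomial.aeval (fun v : ι × ι => Y v.1 v.2) (p a) : ℚ⟦X⟧)

/-- The fibre at `0` has, over `Qbar`, sufficiently many automorphisms in `G`: there are two
elements of `G` which respect the decomposition of the fibre at `0` into isotypic parts (`P` is
the matrix of a basis of eigenvectors with periods `s i`; the eigenvectors `i` and `j` belong to the
same part if `s i / s j` is algebraic) and whose commutator acts non-trivially on every subspace
`≠ 0` of the Lie algebra of `G` which is stable under the adjoint action of `G`. -/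
def Ncl (G : Subgroup (GL ι ℂ)) (P : Matrix ι ι ℂ) (s : ι → ℂ) : Prop :=
  ∃ l₁ ∈ G, ∃ l₂ ∈ G, (∀ i j, (P⁻¹ * l₁.1 * P) i j ≠ 0 → s i / s j ∈ Qbar) ∧
    (∀ i j, (P⁻¹ * l₂.1 * P) i j ≠ 0 → s i / s j ∈ Qbar) ∧
    ∀ h : Submodule ℂ (Matrix ι ι ℂ), h ≤ lie (G : Set (GL ι ℂ)) → h ≠ ⊥ → Adst G h →
      ∃ X ∈ h, (l₁ * l₂ * l₁⁻¹ * l₂⁻¹).1 * X ≠ X * (l₁ * l₂ * l₁⁻¹ * l₂⁻¹).1

/-- The fibre at `0` (with period matrix `C₀` and local monodromy `exp (2 π i N)`) has few periods,
compared to the group `G`: up to a scalar, the entries of `C₀` are algebraic over a field generated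
by `r` numbers (for example: the ratios of the periods generate a field of transcendence degree
`≤ r`), and the Lie algebra of `G` has no Lie subalgebra of codimension `≤ r` (`≤ r + 1` if
`N ≠ 0`) except itself. -/
def Few (G : Subgroup (GL ι ℂ)) (C₀ : Matrix ι ι ℂ) (N : Matrix ι ι ℚ) : Prop :=
  ∃ (r : ℕ) (θ : Fin r → ℂ) (l : ℂ), l ≠ 0 ∧
    (∀ i j, IsAlgebraic (IntermediateField.adjoin ℚ (Set.range θ)) (l * C₀ i j)) ∧
    ∀ h : Submodule ℂ (Matrix ι ι ℂ), h ≤ lie (G : Set (GL ι ℂ)) →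
      (∀ X ∈ h, ∀ Y ∈ h, X * Y - Y * X ∈ h) →
      Module.finrank ℂ (lie (G : Set (GL ι ℂ))) ≤
        Module.finrank ℂ h + r + (if N = 0 then 0 else 1) →
      h = lie (G : Set (GL ι ℂ))

end Pool.Agent.Lib.MPf11a48.CG
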