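import Pool.Agent.Lib.MP_f11a48_ag.CG.Defs

/-!
# Almost all fibres of a family: definitions
-/

set_option autoImplicit false

namespace Pool.Agent.Lib.MPf11a48.CG

open Polynomial Matrix
open scoped PowerSeries
open Pool.Agent.Lib.MPf11a48.Tors
open Pool.Agent.Lib.MPf11a48.CM hiding OmegaM
open Pool.Agent.Lib.MPf11a48.GL2T Pool.Agent.Lib.MPf11a48.GF Pool.Agent.Lib.MPf11a48.CF
open Pool.Agent.Lib.MPf11a48.GL2 (lie van)
open Pool.Agent.Lib.MPf11a48.K3 (cx)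

variable {ι : Type} [Fintype ι] [DecidableEq ι]

/-- the binomial coefficients `N (N - 1) ⋯ (N - a + 1) / a!` of a matrix -/
noncomputable def bn (N : Matrix ι ι ℚ) : ℕ → Matrix ι ι ℚ
  | 0 => 1
  | a + 1 => ((a + 1 : ℕ) : ℚ)⁻¹ • (bn N a * (N - (a : ℚ) • (1 : Matrix ι ι ℚ)))

/-- the matrix of power series `(1 + m x) ^ (-N)` -/
noncomputable def pm (m : ℕ) (N : Matrix ι ι ℚ) : Matrix ι ι ℚ⟦X⟧ := fun i j =>
  PowerSeries.mk fun a => bn (-N) a i j * (m : ℚ) ^ a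

/-- the power series `f(x / (1 + m x))` -/
noncomputable def trf (m : ℕ) (f : ℚ⟦X⟧) : ℚ⟦X⟧ :=
  PowerSeries.subst ((PowerSeries.X : ℚ⟦X⟧) * (1 + PowerSeries.C (m : ℚ) * PowerSeries.X)⁻¹) f

/-- The matrix `(1 + m x) ^ (-N) Y(x / (1 + m x))`. The substitution of `x / (1 + m x)` for `x` maps
`x ^ N Y(x)` to `x ^ N` times this matrix; with `t = 1 / x` it is the translation of `t` to `t + m`. -/
noncomputable def trm (m : ℕ) (N : Matrix ι ι ℚ) (Y : Matrix ι ι ℚ⟦X⟧) : Matrix ι ι ℚ⟦X⟧ :=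
  pm m N * Y.map (trf m)

/-- The rows of `x ^ N Y(x)` are solutions of the system `T y' = B y` (`exp (2 π i N)` is the local
monodromy at `x = 0`, `t = 1 / x = ∞`), the entries of `Y` are G-functions with rational
coefficients, the form `ψ₀` is horizontal (the entries of `Yᵀ ψ₀ Y` are rational functions), `G₀` is,
up to finite index, the differential Galois group, and the translates of the family under
`t ↦ t + m` are independent:
* the polynomial relations over `ℚ(X)` between the entries of the matrices of the translates of the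
  family under `t ↦ t + m a`, for different `m a`, hold for the entries of the products of these
  matrices with any elements `g a` of `G₀`;
* there are finitely many polynomials `p a` over `ℚ` in the matrix entries whose common level sets
  in `GL_ι(ℂ)` are the cosets `G₀ z`, such that the power series `p a (Y)` are algebraic over
  `ℚ(X)`. -/
structure FamT (T : ℤ[X]) (B : Matrix ι ι ℤ[X]) (N ψ₀ : Matrix ι ι ℚ) (Y : Matrix ι ι ℚ⟦X⟧)
    (G₀ : Subgroup (GL ι ℂ)) : Prop where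
  ne : T ≠ 0
  sol : ∀ i j, ((X * zq T : ℚ[X]) : ℚ⟦X⟧) * PowerSeries.derivative ℚ (Y i j) =
    ∑ k, ((X * zq (B j k) : ℚ[X]) : ℚ⟦X⟧) * Y i k -
      ((zq T : ℚ[X]) : ℚ⟦X⟧) * (N.map (PowerSeries.C : ℚ →+* ℚ⟦X⟧) * Y) i j
  g : IsG fun v : ι × ι => Y v.1 v.2
  pol : ∃ D : ℚ[X], D ≠ 0 ∧ ∀ i j, ∃ q : ℚ[X],
    (D : ℚ⟦X⟧) * (Yᵀ * ψ₀.map (PowerSeries.C : ℚ →+* ℚ⟦X⟧) * Y) i j = (q : ℚ⟦X⟧)
  mon : ∀ (r : ℕ) (m : Fin r → ℕ), Function.Injective m →
    ∀ F : MvPolynomial (Fin r × ι × ι) ℚ[X],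
      peval (fun p => trm (m p.1) N Y p.2.1 p.2.2) F = 0 →
      ∀ g : Fin r → GL ι ℂ, (∀ a, g a ∈ G₀) →
        pevalC (fun p => gY (g p.1).1 (trm (m p.1) N Y) p.2.1 p.2.2) F = 0
  tor : ∃ (r : ℕ) (p : Fin r → MvPolynomial (ι × ι) ℚ),
    (∀ z z' : GL ι ℂ, z' * z⁻¹ ∈ G₀ ↔ ∀ a, MvPolynomial.aeval (fun v : ι × ι => z'.1 v.1 v.2) (p a) =
      MvPolynomial.aeval (fun v : ι × ι => z.1 v.1 v.2) (p a)) ∧
    ∀ a, IsAlgebraic ℚ[X] (MvPolynomial.aeval (fun v : ι × ι => Y v.1 v.2) (p a) : ℚ⟦X⟧)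

/-- The limit at `0` (with period matrix `C₀` and local monodromy `exp (2 π i N)`) has few periods,
compared to the group `G` and the number `s`: up to a scalar, the entries of `C₀` are algebraic over
a field generated by `r` numbers, and `s + 1` times the codimension of every Lie subalgebra (except
itself) of the Lie algebra of `G` is larger than `r` (than `r + 1` if `N ≠ 0`). -/
def FewS (G : Subgroup (GL ι ℂ)) (C₀ : Matrix ι ι ℂ) (N : Matrix ι ι ℚ) (s : ℕ) : Prop :=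
  ∃ (r : ℕ) (θ : Fin r → ℂ) (l : ℂ), l ≠ 0 ∧
    (∀ i j, IsAlgebraic (IntermediateField.adjoin ℚ (Set.range θ)) (l * C₀ i j)) ∧
    ∀ h : Submodule ℂ (Matrix ι ι ℂ), h ≤ lie (G : Set (GL ι ℂ)) →
      (∀ X ∈ h, ∀ Y ∈ h, X * Y - Y * X ∈ h) → h ≠ lie (G : Set (GL ι ℂ)) →
      (s + 1) * Module.finrank ℂ h + r + (if N = 0 then 0 else 1) <
        (s + 1) * Module.finrank ℂ (lie (G : Set (GL ι ℂ)))

/-- The result for the fibre at `x = z`: with period matrix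
`c = C₀ * exp (log z N) * Y(z) * R` in a basis of its de Rham space over a number field `K` of degree
`≤ δ` one has: `G c` is contained in the torsor `Ω_M`, and if the torsor `Ω_S` of a set `S` of
classes, with `ψ ∈ S`, is contained in `ℂˣ G Aut(ℂ/K) c`, then `Ω_M = Ω^dRB_M = Ω_S`. -/
def Good (G : Subgroup (GL ι ℂ)) (ψ N : Matrix ι ι ℚ) (Y : Matrix ι ι ℚ⟦X⟧) (C₀ : Matrix ι ι ℂ)
    (w : ℤ) (δ : ℕ) (z : ℂ) : Prop :=
  ∀ (K : IntermediateField ℚ ℂ), FiniteDimensional ℚ K → Module.finrank ℚ K ≤ δ →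
    ∀ (R : Matrix ι ι K) (c : GL ι ℂ),
      c.1 = C₀ * NormedSpace.exp (Complex.log z • cx N) * vm Y z * R.map (fun x => (x : ℂ)) →
      (∀ g ∈ G, g * c ∈ Tors.OmegaM K c) ∧
      ∀ (ψdR : Matrix ι ι K) (S : Set (TPair K ι)), w ≠ 0 → Polarised w c ψdR ψ →
        (∀ α ∈ S, Fixes c α) → polPair ψdR ψ ∈ S →
        (∀ f ∈ OmegaS S, ∃ (z : ℂ) (g : GL ι ℂ) (τ : ℂ ≃+* ℂ), g ∈ G ∧ FixesField K τ ∧
          f.1 = z • (g * tw τ c).1) →
        Tors.OmegaM K c = OmegaS S ∧ OmegaDRB K c = OmegaS S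

end Pool.Agent.Lib.MPf11a48.CG
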