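import Pool.Agent.Lib.MP_f11a48_ag.CG.DefsA

/-!
# Almost all fibres of a family: definitions for the closure in bounded degree
-/

set_option autoImplicit false

namespace Pool.Agent.Lib.MPf11a48.CG

open Polynomial Matrix
open scoped PowerSeries
open Pool.Agent.Lib.MPf11a48.Tors
open Pool.Agent.Lib.MPf11a48.CM hiding OmegaM
open Pool.Agent.Lib.MPf11a48.GL2T Pool.Agent.Lib.MPf11a48.GF Pool.Agent.Lib.MPf11a48.CF
open Pool.Agent.Lib.MPf11a48.GL2 (lie van)
open Pool.Agent.Lib.MPf11a48.K3 (cx)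

variable {ι : Type} [Fintype ι] [DecidableEq ι]

/-- The closure `Z_M^(D)` of the point `c = c_M` in degree `≤ D`: the set of all `f` such that every
polynomial over `K` of degree `≤ D` in the matrix entries which vanishes at `c` vanishes at `f`. The
intersection of these sets for all `D` is the Zariski closure `Z_M` of `c_M` over `K`. -/
def ZarD (K : IntermediateField ℚ ℂ) (D : ℕ) (c : GL ι ℂ) : Set (GL ι ℂ) :=
  {f | ∀ F : MvPolynomial (ι × ι) K, F.totalDegree ≤ D →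
    MvPolynomial.aeval (fun p : ι × ι => c.1 p.1 p.2) F = 0 →
    MvPolynomial.aeval (fun p : ι × ι => f.1 p.1 p.2) F = 0}

/-- The result for the fibre at `x = z`: with period matrix
`c = C₀ * exp (log z N) * Y(z) * R` in a basis of its de Rham space over a number field `K` of degree
`≤ δ` one has: `G c` is contained in the torsor `Ω_M` and in `Z_M^(D)` (every polynomial relation of
degree `≤ D` over `K` between the periods holds on `G c`), and if the torsor `Ω_S` of a set `S` of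
classes, with `ψ ∈ S`, is contained in `ℂˣ G Aut(ℂ/K) c`, then
`Z_M ⊆ Ω_M = Ω^dRB_M = Ω_S ⊆ Z_M^(D)`. -/
def GoodB (G : Subgroup (GL ι ℂ)) (ψ N : Matrix ι ι ℚ) (Y : Matrix ι ι ℚ⟦X⟧) (C₀ : Matrix ι ι ℂ)
    (w : ℤ) (δ D : ℕ) (z : ℂ) : Prop :=
  ∀ (K : IntermediateField ℚ ℂ), FiniteDimensional ℚ K → Module.finrank ℚ K ≤ δ →
    ∀ (R : Matrix ι ι K) (c : GL ι ℂ),
      c.1 = C₀ * NormedSpace.exp (Complex.log z • cx N) * vm Y z * R.map (fun x => (x : ℂ)) →
      (∀ g ∈ G, g * c ∈ Tors.OmegaM K c ∧ g * c ∈ ZarD K D c) ∧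
      ∀ (ψdR : Matrix ι ι K) (S : Set (TPair K ι)), w ≠ 0 → Polarised w c ψdR ψ →
        (∀ α ∈ S, Fixes c α) → polPair ψdR ψ ∈ S →
        (∀ f ∈ OmegaS S, ∃ (z : ℂ) (g : GL ι ℂ) (τ : ℂ ≃+* ℂ), g ∈ G ∧ FixesField K τ ∧
          f.1 = z • (g * tw τ c).1) →
        Tors.OmegaM K c = OmegaS S ∧ OmegaDRB K c = OmegaS S ∧ OmegaS S ⊆ ZarD K D c

end Pool.Agent.Lib.MPf11a48.CG
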