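import Pool.Agent.Lib.MP_f11a48_ag.CG.DefsB

/-!
# Sums of fibres of a family: definitions
-/

set_option autoImplicit false

namespace Pool.Agent.Lib.MPf11a48.CG

open Polynomial Matrix
open scoped PowerSeries
open Pool.Agent.Lib.MPf11a48.Tors
open Pool.Agent.Lib.MPf11a48.CM hiding OmegaM
open Pool.Agent.Lib.MPf11a48.GL2T Pool.Agent.Lib.MPf11a48.GF Pool.Agent.Lib.MPf11a48.CF
open Pool.Agent.Lib.MPf11a48.GL2 (lie van)
open Pool.Agent.Lib.MPf11a48.K3 (cx)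

variable {ι : Type} [Fintype ι] [DecidableEq ι]

/-- the group of the block diagonal matrices with `r` blocks in `G` -/
def bd (G : Subgroup (GL ι ℂ)) (r : ℕ) : Subgroup (GL (ι × Fin r) ℂ) where
  carrier := {g | ∃ h : Fin r → GL ι ℂ, (∀ i, h i ∈ G) ∧ g.1 = blockDiagonal fun i => (h i).1}
  mul_mem' := by
    rintro g g' ⟨h, hG, hg⟩ ⟨h', hG', hg'⟩
    refine ⟨fun i => h i * h' i, fun i => G.mul_mem (hG i) (hG' i), ?_⟩
    rw [Units.val_mul, hg, hg', ← blockDiagonal_mul]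
    rfl
  one_mem' := ⟨fun _ => 1, fun _ => G.one_mem, by
    rw [Units.val_one]
    exact (blockDiagonal_one (m := ι) (o := Fin r) (α := ℂ)).symm⟩
  inv_mem' := by
    rintro g ⟨h, hG, hg⟩
    refine ⟨fun i => (h i)⁻¹, fun i => G.inv_mem (hG i), ?_⟩
    have h1 : g.1 * (blockDiagonal fun i => (h i)⁻¹.1) = 1 := by
      rw [hg, ← blockDiagonal_mul]
      have h2 : (fun i => (h i).1 * (h i)⁻¹.1) = 1 := by
        funext i
        exact (h i).mul_inv
      rw [h2, blockDiagonal_one]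
    have h3 : g⁻¹.1 * g.1 = 1 := g.inv_mul
    calc g⁻¹.1 = g⁻¹.1 * (g.1 * (blockDiagonal fun i => (h i)⁻¹.1)) := by
          rw [h1, Matrix.mul_one]
      _ = blockDiagonal fun i => (h i)⁻¹.1 := by rw [← Matrix.mul_assoc, h3, Matrix.one_mul]

/-- The entries of `C₀` are algebraic over a field generated by `r` numbers with `r ≤ s` (`r + 1 ≤ s` if
`N ≠ 0`): the periods of the fibre (limit) at `0` generate a field of transcendence degree `≤ s`
(`≤ s - 1` if `N ≠ 0`). -/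
def TrS (C₀ : Matrix ι ι ℂ) (N : Matrix ι ι ℚ) (s : ℕ) : Prop :=
  ∃ (r : ℕ) (θ : Fin r → ℂ),
    (∀ i j, IsAlgebraic (IntermediateField.adjoin ℚ (Set.range θ)) (C₀ i j)) ∧
    r + (if N = 0 then 0 else 1) ≤ s

/-- The result for the de Rham-Betti objects with period matrix `c = P * R` in bases of their
de Rham spaces over number fields `K` of degree `≤ δ`: `G c` is contained in the torsor `Ω_M` and in
`Z_M^(D)`, and if the torsor `Ω_S` of a set `S` of classes, with `ψ ∈ S`, is contained in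
`ℂˣ G Aut(ℂ/K) c`, then `Z_M ⊆ Ω_M = Ω^dRB_M = Ω_S ⊆ Z_M^(D)`. -/
def GoodP (G : Subgroup (GL ι ℂ)) (ψ : Matrix ι ι ℚ) (P : Matrix ι ι ℂ) (w : ℤ) (δ D : ℕ) : Prop :=
  ∀ (K : IntermediateField ℚ ℂ), FiniteDimensional ℚ K → Module.finrank ℚ K ≤ δ →
    ∀ (R : Matrix ι ι K) (c : GL ι ℂ), c.1 = P * R.map (fun x => (x : ℂ)) →
      (∀ g ∈ G, g * c ∈ Tors.OmegaM K c ∧ g * c ∈ ZarD K D c) ∧
      ∀ (ψdR : Matrix ι ι K) (S : Set (TPair K ι)), w ≠ 0 → Polarised w c ψdR ψ →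
        (∀ α ∈ S, Fixes c α) → polPair ψdR ψ ∈ S →
        (∀ f ∈ OmegaS S, ∃ (z : ℂ) (g : GL ι ℂ) (τ : ℂ ≃+* ℂ), g ∈ G ∧ FixesField K τ ∧
          f.1 = z • (g * tw τ c).1) →
        Tors.OmegaM K c = OmegaS S ∧ OmegaDRB K c = OmegaS S ∧ OmegaS S ⊆ ZarD K D c

end Pool.Agent.Lib.MPf11a48.CG
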