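import Pool.Agent.Lib.MP_f11a48_ag.CG.DefsJ

/-!
# Sums of fibres of a family and their forms: definitions
-/

set_option autoImplicit false

namespace Pool.Agent.Lib.MPf11a48.CG

open Polynomial Matrix
open scoped PowerSeries
open Pool.Agent.Lib.MPf11a48.Tors
open Pool.Agent.Lib.MPf11a48.CM hiding OmegaM
open Pool.Agent.Lib.MPf11a48.GL2T Pool.Agent.Lib.MPf11a48.GF Pool.Agent.Lib.MPf11a48.CF
open Pool.Agent.Lib.MPf11a48.GL2 (lie van)
open Pool.Agent.Lib.MPf11a48.K3 (cx)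

variable {ι : Type} [Fintype ι] [DecidableEq ι]

/-- The result for the de Rham-Betti objects `M` over number fields `K` which become, over a number
field `L ⊇ K` of degree `≤ δ`, isomorphic to the object with period matrix `P` (the period matrix of
`M` is `c = P * R` with `R` over `L`; for example quadratic twists): `G c` is contained in the torsor
`Ω_M` and in `Z_M^(D)`, and if the torsor `Ω_S` of a set `S` of classes, with `ψ ∈ S`, is contained in
`ℂˣ G Aut(ℂ/K) c`, then `Z_M ⊆ Ω_M = Ω^dRB_M = Ω_S ⊆ Z_M^(D)`. -/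
def GoodK (G : Subgroup (GL ι ℂ)) (ψ : Matrix ι ι ℚ) (P : Matrix ι ι ℂ) (w : ℤ) (δ D : ℕ) : Prop :=
  ∀ (K L : IntermediateField ℚ ℂ), K ≤ L → FiniteDimensional ℚ L → Module.finrank ℚ L ≤ δ →
    ∀ (R : Matrix ι ι L) (c : GL ι ℂ), c.1 = P * R.map (fun x => (x : ℂ)) →
      (∀ g ∈ G, g * c ∈ Tors.OmegaM K c ∧ g * c ∈ ZarD K D c) ∧
      ∀ (ψdR : Matrix ι ι K) (S : Set (TPair K ι)), w ≠ 0 → Polarised w c ψdR ψ →
        (∀ α ∈ S, Fixes c α) → polPair ψdR ψ ∈ S →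
        (∀ f ∈ OmegaS S, ∃ (z : ℂ) (g : GL ι ℂ) (τ : ℂ ≃+* ℂ), g ∈ G ∧ FixesField K τ ∧
          f.1 = z • (g * tw τ c).1) →
        Tors.OmegaM K c = OmegaS S ∧ OmegaDRB K c = OmegaS S ∧ OmegaS S ⊆ ZarD K D c

end Pool.Agent.Lib.MPf11a48.CG
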