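import Pool.Agent.Lib.MP_f11a48_ag.CG.DefsK

/-!
# Families with arbitrary local monodromy: definitions
-/

set_option autoImplicit false

namespace Pool.Agent.Lib.MPf11a48.CG

open Polynomial Matrix
open scoped PowerSeries
open Pool.Agent.Lib.MPf11a48.Tors
open Pool.Agent.Lib.MPf11a48.CM hiding OmegaM
open Pool.Agent.Lib.MPf11a48.GL2T Pool.Agent.Lib.MPf11a48.GF Pool.Agent.Lib.MPf11a48.CF
open Pool.Agent.Lib.MPf11a48.GL2 (lie van)
open Pool.Agent.Lib.MPf11a48.K3 (cx)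

variable {ι : Type} [Fintype ι] [DecidableEq ι]

/-- the matrix `Λ + N`, where `Λ` is the diagonal matrix with entries `l i / e` -/
def xp (e : ℕ) (l : ι → ℕ) (N : Matrix ι ι ℚ) : Matrix ι ι ℚ :=
  diagonal (fun i => (l i : ℚ) / e) + N

/-- the power series `f(u ^ e)` -/
noncomputable def px (e : ℕ) (f : ℚ⟦X⟧) : ℚ⟦X⟧ :=
  PowerSeries.subst ((PowerSeries.X : ℚ⟦X⟧) ^ e) f

/-- the matrix `x ^ Λ Y(x)` as a matrix of power series in `u = x ^ (1 / e)` -/
noncomputable def ram (e : ℕ) (l : ι → ℕ) (Y : Matrix ι ι ℚ⟦X⟧) : Matrix ι ι ℚ⟦X⟧ := fun i j =>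
  PowerSeries.X ^ l i * px e (Y i j)

/-- the matrix `x ^ Λ ψ₀ x ^ Λ` of polynomials in `x` (if `e` divides `l i + l j` whenever
`ψ₀ i j ≠ 0`) -/
noncomputable def psx (e : ℕ) (l : ι → ℕ) (ψ₀ : Matrix ι ι ℚ) : Matrix ι ι ℚ[X] := fun i j =>
  C (ψ₀ i j) * X ^ ((l i + l j) / e)

/-- The rows of `x ^ (Λ + N) Y(x)`, where `Λ` is the diagonal matrix with entries `l i / e` and `N`
commutes with `Λ`, are solutions of the system `T y' = B y` (`exp (2 π i (Λ + N))` is the local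
monodromy at `x = 0`, `t = 1 / x = ∞`), the entries of `Y` are G-functions with rational
coefficients, the form `ψ₀` is respected by `exp (2 π i Λ)` and horizontal (the entries of
`Yᵀ x ^ Λ ψ₀ x ^ Λ Y` are rational functions), `G₀` is, up to finite index, the differential Galois
group, and the translates of the family under `t ↦ t + m`, `m < k`, are independent (for `k = 1` this
is no condition): for the matrices `x ^ Λ Y(x)` and their translates, as matrices of power series in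
`u = x ^ (1 / e)`,
* the polynomial relations over `ℚ(u)` between the entries of the matrices of the translates of the
  family under `t ↦ t + m a`, for different `m a < k`, hold for the entries of the products of these
  matrices with any elements `g a` of `G₀`;
* there are finitely many polynomials `p a` over `ℚ` in the matrix entries whose common level sets
  in `GL_ι(ℂ)` are the cosets `G₀ z`, such that the power series `p a (x ^ Λ Y(x))` are algebraic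
  over `ℚ(u)`. -/
structure FamR (k e : ℕ) (l : ι → ℕ) (T : ℤ[X]) (B : Matrix ι ι ℤ[X]) (N ψ₀ : Matrix ι ι ℚ)
    (Y : Matrix ι ι ℚ⟦X⟧) (G₀ : Subgroup (GL ι ℂ)) : Prop where
  pos : e ≠ 0
  com : ∀ i j, N i j ≠ 0 → l i = l j
  div : ∀ i j, ψ₀ i j ≠ 0 → e ∣ l i + l j
  ne : T ≠ 0
  sol : ∀ i j, ((X * zq T : ℚ[X]) : ℚ⟦X⟧) * PowerSeries.derivative ℚ (Y i j) =
    ∑ k, ((X * zq (B j k) : ℚ[X]) : ℚ⟦X⟧) * Y i k -
      ((zq T : ℚ[X]) : ℚ⟦X⟧) * ((xp e l N).map (PowerSeries.C : ℚ →+* ℚ⟦X⟧) * Y) i j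
  g : IsG fun v : ι × ι => Y v.1 v.2
  pol : ∃ D : ℚ[X], D ≠ 0 ∧ ∀ i j, ∃ q : ℚ[X],
    (D : ℚ⟦X⟧) * (Yᵀ * (psx e l ψ₀).map (fun p : ℚ[X] => (p : ℚ⟦X⟧)) * Y) i j = (q : ℚ⟦X⟧)
  mon : ∀ (r : ℕ) (m : Fin r → ℕ), Function.Injective m → (∀ i, m i < k) →
    ∀ F : MvPolynomial (Fin r × ι × ι) ℚ[X],
      peval (fun p => ram e l (trm (m p.1) (xp e l N) Y) p.2.1 p.2.2) F = 0 →
      ∀ g : Fin r → GL ι ℂ, (∀ a, g a ∈ G₀) →
        pevalC (fun p => gY (g p.1).1 (ram e l (trm (m p.1) (xp e l N) Y)) p.2.1 p.2.2) F = 0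
  tor : ∃ (r : ℕ) (p : Fin r → MvPolynomial (ι × ι) ℚ),
    (∀ z z' : GL ι ℂ, z' * z⁻¹ ∈ G₀ ↔ ∀ a, MvPolynomial.aeval (fun v : ι × ι => z'.1 v.1 v.2) (p a) =
      MvPolynomial.aeval (fun v : ι × ι => z.1 v.1 v.2) (p a)) ∧
    ∀ a, IsAlgebraic ℚ[X]
      (MvPolynomial.aeval (fun v : ι × ι => ram e l Y v.1 v.2) (p a) : ℚ⟦X⟧)

end Pool.Agent.Lib.MPf11a48.CG
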