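import Pool.Agent.Lib.MP_f11a48_ag.CG.SpecB

/-!
# Theorem B, module DEX: existence of derivations of a field of characteristic `0`

`k[y] → U[ε]`, `p(y) ↦ p(y) + ε dv p y v` is well defined by hypothesis, and `k[y] → U` is formally
smooth: it lifts to `U → U[ε]`.
-/

set_option autoImplicit false

namespace Pool.Agent.Lib.MPf11a48.CG

namespace DexM

variable {U : Type} [Field U]

/-- dual numbers over `U`, without any algebra structure -/
def DN (U : Type) [Field U] : Type := DualNumber U

noncomputable instance : CommRing (DN U) := inferInstanceAs (CommRing (DualNumber U))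

/-- the projection of the dual numbers -/
noncomputable def DN.fst : DN U →+* U := (TrivSqZeroExt.fstHom U U U).toRingHom

/-- the coefficient of the dual numbers -/
noncomputable def DN.snd : DN U →+ U where
  toFun x := TrivSqZeroExt.snd x
  map_zero' := rfl
  map_add' _ _ := rfl

theorem dual_snd_mul (x y : DualNumber U) :
    TrivSqZeroExt.snd (x * y) = TrivSqZeroExt.fst x * TrivSqZeroExt.snd y +
      TrivSqZeroExt.fst y * TrivSqZeroExt.snd x := by
  rw [TrivSqZeroExt.snd_mul, smul_eq_mul, op_smul_eq_mul, mul_comm (TrivSqZeroExt.snd x)]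

theorem DN.snd_mul (x y : DN U) : DN.snd (x * y) = DN.fst x * DN.snd y + DN.fst y * DN.snd x :=
  dual_snd_mul x y

theorem DN.ext {x y : DN U} (h1 : DN.fst x = DN.fst y) (h2 : DN.snd x = DN.snd y) : x = y :=
  TrivSqZeroExt.ext h1 h2

/-- the inclusion in the dual numbers -/
noncomputable def DN.inl : U →+* DN U := TrivSqZeroExt.inlHom U U

theorem DN.fst_inl (z : U) : DN.fst (DN.inl z) = z := rfl

theorem DN.snd_inl (z : U) : DN.snd (DN.inl z) = 0 := rfl

/-- the dual number `x + w ε` -/
noncomputable def DN.pt (x w : U) : DN U :=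
  (TrivSqZeroExt.inl x + TrivSqZeroExt.inr w : DualNumber U)

theorem DN.fst_pt (x w : U) : DN.fst (DN.pt x w) = x := by
  change x + 0 = x
  rw [add_zero]

theorem DN.snd_pt (x w : U) : DN.snd (DN.pt x w) = w := by
  change (0 : U) + w = w
  rw [zero_add]

open scoped IntermediateField.algebraAdjoinAdjoin in
theorem formallySmooth_adjoin [CharZero U] {k : Subfield U} (S : Set U) :
    Algebra.FormallySmooth (Algebra.adjoin k S) U := by
  have h1 : Algebra.FormallySmooth (Algebra.adjoin k S)
      (IntermediateField.adjoin k S) :=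
    .of_isLocalization (nonZeroDivisors _)
  have h2 : Algebra.FormallySmooth (IntermediateField.adjoin k S) U := by
    obtain ⟨J, w, hw⟩ := exists_isTranscendenceBasis'
      (IntermediateField.adjoin k S) U
    have := hw.isAlgebraic_field
    exact .of_algebraicIndependent_of_isSeparable hw.1
  exact .comp _ (IntermediateField.adjoin k S) _

open MvPolynomial in
/-- the homomorphism `F ↦ F(y + ε v)` -/
noncomputable def phi {k : Subfield U} {I : Type} (y v : I → U) : MvPolynomial I k →+* DN U :=
  eval₂Hom (DN.inl.comp (algebraMap k U)) fun i => DN.pt (y i) (v i)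

theorem fst_phi {k : Subfield U} {I : Type} (y v : I → U) (F : MvPolynomial I k) :
    DN.fst (phi y v F) = MvPolynomial.aeval y F := by
  have : DN.fst.comp (phi y v) = (MvPolynomial.aeval (R := k) y).toRingHom := by
    apply MvPolynomial.ringHom_ext
    · intro a
      change DN.fst (phi y v (MvPolynomial.C a)) = MvPolynomial.aeval y (MvPolynomial.C a)
      rw [phi, MvPolynomial.eval₂Hom_C, MvPolynomial.algHom_C]
      rfl
    · intro i
      change DN.fst (phi y v (MvPolynomial.X i)) = MvPolynomial.aeval y (MvPolynomial.X i)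
      rw [phi, MvPolynomial.eval₂Hom_X', MvPolynomial.aeval_X, DN.fst_pt]
  exact RingHom.congr_fun this F

theorem snd_phi {k : Subfield U} {I : Type} [Fintype I] (y v : I → U) (F : MvPolynomial I k) :
    DN.snd (phi y v F) = dv F y v := by
  classical
  induction F using MvPolynomial.induction_on with
  | C a =>
    rw [phi, MvPolynomial.eval₂Hom_C, dv]
    simp only [MvPolynomial.pderiv_C, map_zero, zero_mul, Finset.sum_const_zero]
    rfl
  | add p q hp hq =>
    rw [map_add, map_add, hp, hq, dv, dv, dv, ← Finset.sum_add_distrib]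
    exact Finset.sum_congr rfl fun i _ => by rw [map_add, map_add, add_mul]
  | mul_X p i hp =>
    rw [map_mul, DN.snd_mul, hp, fst_phi, fst_phi, MvPolynomial.aeval_X]
    have h1 : DN.snd (phi (k := k) y v (MvPolynomial.X i)) = v i := by
      rw [phi, MvPolynomial.eval₂Hom_X', DN.snd_pt]
    rw [h1, dv, dv]
    have h2 : ∀ j, MvPolynomial.aeval y (MvPolynomial.pderiv j (p * MvPolynomial.X i)) * v j =
        y i * (MvPolynomial.aeval y (MvPolynomial.pderiv j p) * v j) +
          (if j = i then MvPolynomial.aeval y p * v j else 0) := by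
      intro j
      rw [Derivation.leibniz, map_add, smul_eq_mul, smul_eq_mul, map_mul, map_mul,
        MvPolynomial.aeval_X, MvPolynomial.pderiv_X]
      by_cases hj : j = i
      · subst hj
        rw [Pi.single_eq_same, map_one, if_pos rfl]
        ring
      · rw [Pi.single_eq_of_ne (fun h => hj h.symm), map_zero, if_neg hj]
        ring
    rw [Finset.sum_congr rfl fun j _ => h2 j, Finset.sum_add_distrib, ← Finset.mul_sum,
      Finset.sum_ite_eq' Finset.univ i]
    simp only [Finset.mem_univ, if_true]
    ring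

theorem exists_der [CharZero U] (k : Subfield U) (I : Type) [Fintype I] (y v : I → U)
    (hF : ∀ F : MvPolynomial I k, MvPolynomial.aeval y F = 0 → dv F y v = 0) :
    ∃ δ : Derivation k U U, ∀ i, δ (y i) = v i := by
  have hsm := formallySmooth_adjoin (k := k) (Set.range y)
  let A := Algebra.adjoin k (Set.range y)
  let π : MvPolynomial I k →ₐ[k] A :=
    MvPolynomial.aeval fun i => (⟨y i, Algebra.subset_adjoin ⟨i, rfl⟩⟩ : A)
  have hπ : ∀ F, ((π F : A) : U) = MvPolynomial.aeval y F := by
    intro F
    have : A.val.comp π = MvPolynomial.aeval y := by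
      apply MvPolynomial.algHom_ext
      intro i
      rw [AlgHom.comp_apply, MvPolynomial.aeval_X, MvPolynomial.aeval_X]
      rfl
    exact DFunLike.congr_fun this F
  have hπs : Function.Surjective π := by
    intro a
    have ha : (a : U) ∈ Algebra.adjoin k (Set.range y) := a.2
    rw [Algebra.adjoin_range_eq_range_aeval] at ha
    obtain ⟨F, hFa⟩ := ha
    exact ⟨F, Subtype.ext ((hπ F).trans hFa)⟩
  have hker : RingHom.ker (π : MvPolynomial I k →+* A) ≤ RingHom.ker (phi (k := k) y v) := by
    intro F h0
    have h1 : π F = 0 := h0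
    have h2 : MvPolynomial.aeval y F = 0 := by rw [← hπ, h1]; rfl
    rw [RingHom.mem_ker]
    refine DN.ext ?_ ?_
    · rw [fst_phi, h2, map_zero]
    · rw [snd_phi, hF F h2, map_zero]
  let φ : A →+* DN U := RingHom.liftOfSurjective (π : MvPolynomial I k →+* A) hπs
    ⟨phi (k := k) y v, hker⟩
  have hφ : ∀ F, φ (π F) = phi (k := k) y v F := fun F =>
    RingHom.liftOfRightInverse_comp_apply _ _ _ ⟨phi (k := k) y v, hker⟩ F
  let _ : Algebra A (DN U) := φ.toAlgebra
  let g : DN U →ₐ[A] U := { DN.fst with
    commutes' := by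
      intro a
      obtain ⟨F, rfl⟩ := hπs a
      change DN.fst (φ (π F)) = ((π F : A) : U)
      rw [hφ, fst_phi, hπ] }
  have hg : Function.Surjective g := by
    intro z
    exact ⟨DN.inl z, rfl⟩
  have hkn : IsNilpotent (RingHom.ker (g : DN U →+* U)) := by
    refine ⟨2, ?_⟩
    rw [pow_two, Ideal.zero_eq_bot, eq_bot_iff, Ideal.mul_le]
    intro a ha b hb
    have ha' : DN.fst a = 0 := ha
    have hb' : DN.fst b = 0 := hb
    rw [Ideal.mem_bot]
    refine DN.ext ?_ ?_
    · rw [map_mul, ha', zero_mul, map_zero]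
    · rw [DN.snd_mul, ha', hb', zero_mul, zero_mul, add_zero, map_zero]
  let ψ : U →ₐ[A] DN U := Algebra.FormallySmooth.liftOfSurjective (AlgHom.id A U) g hg hkn
  have hψ : ∀ z, DN.fst (ψ z) = z := fun z =>
    Algebra.FormallySmooth.liftOfSurjective_apply (AlgHom.id A U) g hg hkn z
  have hψF : ∀ F, ψ (MvPolynomial.aeval y F) = phi (k := k) y v F := by
    intro F
    have h1 : ψ (algebraMap A U (π F)) = algebraMap A (DN U) (π F) := ψ.commutes (π F)
    rw [← hπ, ← hφ]
    exact h1
  have hQ2 : ∀ a : k, DN.snd (ψ (a : U)) = 0 := by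
    intro a
    have h1 := hψF (MvPolynomial.C a)
    rw [MvPolynomial.algHom_C] at h1
    change ψ (a : U) = _ at h1
    rw [h1, phi, MvPolynomial.eval₂Hom_C]
    rfl
  have hleib : ∀ z w, DN.snd (ψ (z * w)) = z * DN.snd (ψ w) + w * DN.snd (ψ z) := by
    intro z w
    rw [map_mul, DN.snd_mul, hψ, hψ]
  let L : U →ₗ[k] U :=
    { toFun := fun z => DN.snd (ψ z)
      map_add' := fun z w => by rw [map_add, map_add]
      map_smul' := fun a z => by
        rw [Algebra.smul_def, RingHom.id_apply, Algebra.smul_def]
        change DN.snd (ψ ((a : U) * z)) = (a : U) * _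
        rw [hleib, hQ2, mul_zero, add_zero] }
  refine ⟨Derivation.mk' L fun z w => hleib z w, fun i => ?_⟩
  change DN.snd (ψ (y i)) = v i
  have h3 := hψF (MvPolynomial.X i)
  rw [MvPolynomial.aeval_X] at h3
  rw [h3, phi, MvPolynomial.eval₂Hom_X', DN.snd_pt]

end DexM

theorem specDex : SpecDex := by
  intro U _ _ k I _ y v hF
  exact DexM.exists_der k I y v hF

end Pool.Agent.Lib.MPf11a48.CG
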