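import Pool.Agent.Lib.MP_f11a48_ag.CG.Spec
import Pool.Agent.Lib.MP_f11a48_ag.K3.Curve

/-!
# Families with semisimple monodromy, GT: the result of Part C
-/

set_option autoImplicit false
set_option linter.unusedSectionVars false

namespace Pool.Agent.Lib.MPf11a48.CG

open Matrix MvPolynomial NormedSpace
open Pool.Agent.Lib.MPf11a48.Tors
open Pool.Agent.Lib.MPf11a48.CM hiding OmegaM
open Pool.Agent.Lib.MPf11a48.CF (ta)
open Pool.Agent.Lib.MPf11a48.GL2 (lie van en Geo tang lr eval_lr tang_lr geo_of_torsor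
  closedOver_mono glmul glinv glinv')
open Pool.Agent.Lib.MPf11a48.K3 (cx)
open Pool.Agent.Lib.MPf11a48.K3.KCurM (gl gl_zero dv_gl dv_gl_inv Dv)

namespace GtM

variable {ι : Type} [Fintype ι] [DecidableEq ι]

/-! ### closed groups and one-parameter groups -/

theorem geo_of {K : IntermediateField ℚ ℂ} (hK : K ≤ Qbar) {H : Subgroup (GL ι ℂ)}
    (hH : ClosedOver K (H : Set (GL ι ℂ))) : Geo (H : Set (GL ι ℂ)) :=
  geo_of_torsor ⟨closedOver_mono hK hH, ⟨1, H.one_mem⟩,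
    fun _ ha _ hb _ hd => H.mul_mem (H.mul_mem ha (H.inv_mem hb)) hd⟩

theorem gl_mem {H : Subgroup (GL ι ℂ)} (hH : Geo (H : Set (GL ι ℂ))) {X : Matrix ι ι ℂ}
    (hX : X ∈ lie (H : Set (GL ι ℂ))) (s : ℂ) : gl X s ∈ H := by
  have h := K3.specCurve ι (H : Set (GL ι ℂ)) hH X hX (gl X) (gl_zero X)
    (fun s i j => dv_gl X s i j) 1 H.one_mem s
  rw [mul_one] at h
  exact h

theorem gl_add (X : Matrix ι ι ℂ) (s s' : ℂ) : gl X (s + s') = gl X s * gl X s' := by
  refine Units.ext ?_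
  change exp ((s + s') • X) = exp (s • X) * exp (s' • X)
  rw [add_smul, Matrix.exp_add_of_commute]
  exact ((Commute.refl X).smul_left s).smul_right s'

/-- the derivative of the conjugation by a one-parameter group -/
theorem der_conj (X Y : Matrix ι ι ℂ) (i j : ι) :
    HasDerivAt (fun s => ((gl X s).1 * Y * (gl X s)⁻¹.1) i j) ((X * Y - Y * X) i j) 0 := by
  have h := (((dv_gl X).mul (Dv.const Y)).mul (dv_gl_inv X)) 0 i j
  refine h.congr_deriv ?_
  have h0 : (gl X 0).1 = 1 := by rw [gl_zero, Units.val_one]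
  simp only [h0, zero_smul, exp_zero, Matrix.mul_one, Matrix.one_mul, Matrix.mul_zero, add_zero,
    Matrix.mul_neg]
  rw [sub_eq_add_neg]

/-- a functional in terms of the entries -/
theorem functional (φ : Matrix ι ι ℂ →ₗ[ℂ] ℂ) (M : Matrix ι ι ℂ) :
    φ M = ∑ i, ∑ j, M i j * φ (Matrix.single i j 1) := by
  conv_lhs => rw [Matrix.matrix_eq_sum_single M]
  rw [map_sum]
  refine Finset.sum_congr rfl fun i _ => ?_
  rw [map_sum]
  refine Finset.sum_congr rfl fun j _ => ?_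
  have : Matrix.single i j (M i j) = M i j • Matrix.single i j (1 : ℂ) := by
    rw [Matrix.smul_single, smul_eq_mul, mul_one]
  rw [this, map_smul, smul_eq_mul]

theorem der_functional {F : ℂ → Matrix ι ι ℂ} {F' : Matrix ι ι ℂ}
    (h : ∀ i j, HasDerivAt (fun s => F s i j) (F' i j) 0) (φ : Matrix ι ι ℂ →ₗ[ℂ] ℂ) :
    HasDerivAt (fun s => φ (F s)) (φ F') 0 := by
  have h1 : (fun s => φ (F s)) = fun s => ∑ i, ∑ j, F s i j * φ (Matrix.single i j 1) := by
    funext s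
    exact functional φ _
  rw [h1, functional φ F']
  exact HasDerivAt.fun_sum fun i _ => HasDerivAt.fun_sum fun j _ => (h i j).mul_const _

theorem der_mem {A : Submodule ℂ (Matrix ι ι ℂ)} {F : ℂ → Matrix ι ι ℂ} {F' : Matrix ι ι ℂ}
    (h : ∀ i j, HasDerivAt (fun s => F s i j) (F' i j) 0) (hF : ∀ s, F s ∈ A) : F' ∈ A := by
  by_contra hn
  obtain ⟨φ, h1, h2⟩ := Submodule.exists_le_ker_of_notMem hn
  have h3 := der_functional h φ
  have h4 : (fun s => φ (F s)) = fun _ => 0 := by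
    funext s
    exact h2 (hF s)
  rw [h4] at h3
  exact h1 (h3.unique (hasDerivAt_const (0 : ℂ) (0 : ℂ)))

/-- the adjoint action of a group on a stable subspace: derivative -/
theorem br_mem {A : Submodule ℂ (Matrix ι ι ℂ)} {X Y : Matrix ι ι ℂ}
    (h : ∀ s, (gl X s).1 * Y * (gl X s)⁻¹.1 ∈ A) : X * Y - Y * X ∈ A :=
  der_mem (der_conj X Y) h

theorem adst_lie {H : Subgroup (GL ι ℂ)} (hH : Geo (H : Set (GL ι ℂ))) :
    Adst H (lie (H : Set (GL ι ℂ))) := by
  intro x hx X hX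
  rw [hH.conj_mem_iff hx H.one_mem]
  intro p hp
  have h := hX 1 H.one_mem p hp
  rw [Units.val_one, Matrix.mul_one] at h
  rw [Units.val_one, Matrix.one_mul]
  exact h

theorem norm_lie {G : Subgroup (GL ι ℂ)} (hG : Geo (G : Set (GL ι ℂ))) {x : GL ι ℂ}
    (hx : ∀ g ∈ G, x * g * x⁻¹ ∈ G) {X : Matrix ι ι ℂ} (hX : X ∈ lie (G : Set (GL ι ℂ))) :
    x.1 * X * x⁻¹.1 ∈ lie (G : Set (GL ι ℂ)) := by
  refine hG.mem_lie_of G.one_mem fun p hp => ?_
  have h1 : lr x.1 x⁻¹.1 p ∈ van (G : Set (GL ι ℂ)) := by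
    intro g hg
    rw [eval_lr, ← glmul, ← glmul]
    exact hp _ (hx g hg)
  have h2 := hX 1 G.one_mem _ h1
  rw [Units.val_one, Matrix.mul_one, tang_lr, Matrix.mul_one, glinv] at h2
  rw [Units.val_one, Matrix.mul_one]
  exact h2

theorem conj_conj (x : GL ι ℂ) (X : Matrix ι ι ℂ) :
    x.1 * (x⁻¹.1 * X * x⁻¹⁻¹.1) * x⁻¹.1 = X := by
  rw [inv_inv]
  calc x.1 * (x⁻¹.1 * X * x.1) * x⁻¹.1 = (x.1 * x⁻¹.1) * X * (x.1 * x⁻¹.1) := by
        simp only [Matrix.mul_assoc]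
    _ = X := by rw [glinv, Matrix.one_mul, Matrix.mul_one]

theorem adst_cen {G L : Subgroup (GL ι ℂ)} {h : Submodule ℂ (Matrix ι ι ℂ)}
    (h1 : Adst L (lie (G : Set (GL ι ℂ)))) (h2 : Adst L h) : Adst L (cen G h) := by
  intro x hx X hX
  refine ⟨h1 x hx X hX.1, fun Y hY => ?_⟩
  have h3 := hX.2 _ (h2 x⁻¹ (L.inv_mem hx) Y hY)
  rw [inv_inv] at h3
  have e1 : x.1 * X * x⁻¹.1 * Y = x.1 * (X * (x⁻¹.1 * Y * x.1)) * x⁻¹.1 := by
    have : x.1 * (X * (x⁻¹.1 * Y * x.1)) * x⁻¹.1 = x.1 * X * x⁻¹.1 * Y * (x.1 * x⁻¹.1) := by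
      simp only [Matrix.mul_assoc]
    rw [this, glinv, Matrix.mul_one]
  have e2 : Y * (x.1 * X * x⁻¹.1) = x.1 * (x⁻¹.1 * Y * x.1 * X) * x⁻¹.1 := by
    have : x.1 * (x⁻¹.1 * Y * x.1 * X) * x⁻¹.1 = (x.1 * x⁻¹.1) * Y * (x.1 * X * x⁻¹.1) := by
      simp only [Matrix.mul_assoc]
    rw [this, glinv, Matrix.one_mul]
  rw [e1, e2, h3]

theorem adst_inf {L : Subgroup (GL ι ℂ)} {a b : Submodule ℂ (Matrix ι ι ℂ)} (ha : Adst L a)
    (hb : Adst L b) : Adst L (a ⊓ b) := fun x hx X hX => ⟨ha x hx X hX.1, hb x hx X hX.2⟩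

theorem map_map_symm (τ : ℂ ≃+* ℂ) (X : Matrix ι ι ℂ) : (X.map τ.symm).map τ = X := by
  ext i j
  exact τ.apply_symm_apply _

theorem map_mul_ring (τ : ℂ ≃+* ℂ) (X Y : Matrix ι ι ℂ) :
    (X * Y).map τ = X.map τ * Y.map τ := by
  ext i j
  simp only [Matrix.map_apply, Matrix.mul_apply, map_sum, map_mul]

/-! ### the matrices of the conjugations in a basis -/

section rho

variable {d : ℕ} {e : Fin d → Matrix ι ι ℂ}

theorem sum_ext (he : LinearIndependent ℂ e) {u v : Fin d → ℂ}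
    (h : ∑ a, u a • e a = ∑ a, v a • e a) : u = v := by
  have h1 : ∑ a, (u a - v a) • e a = 0 := by
    simp only [sub_smul, Finset.sum_sub_distrib, h, sub_self]
  funext a
  exact sub_eq_zero.1 (Fintype.linearIndependent_iff.1 he _ h1 a)

theorem rho_unique (he : LinearIndependent ℂ e) {x : GL ι ℂ} {r r' : Matrix (Fin d) (Fin d) ℂ}
    (h : Rho e x r) (h' : Rho e x r') : r = r' := by
  ext a b
  have h1 : ∑ a, r a b • e a = ∑ a, r' a b • e a := by rw [← h b, ← h' b]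
  exact congrFun (sum_ext he h1) a

theorem rho_one_of {x : GL ι ℂ} (h : ∀ b, x.1 * e b = e b * x.1) : Rho e x 1 := by
  intro b
  rw [h b, Matrix.mul_assoc, glinv, Matrix.mul_one, Finset.sum_eq_single b]
  · rw [Matrix.one_apply_eq, one_smul]
  · intro a _ ha
    rw [Matrix.one_apply_ne ha, zero_smul]
  · intro h
    exact absurd (Finset.mem_univ b) h

theorem rho_one : Rho e 1 1 := by
  refine rho_one_of fun b => ?_
  rw [Units.val_one, Matrix.one_mul, Matrix.mul_one]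

theorem conj_sum {x : GL ι ℂ} (u : Fin d → ℂ) :
    x.1 * (∑ a, u a • e a) * x⁻¹.1 = ∑ a, u a • (x.1 * e a * x⁻¹.1) := by
  rw [Finset.mul_sum, Finset.sum_mul]
  refine Finset.sum_congr rfl fun a _ => ?_
  rw [Matrix.mul_smul, Matrix.smul_mul]

theorem sum_rho {x : GL ι ℂ} {r : Matrix (Fin d) (Fin d) ℂ} (h : Rho e x r) (u : Fin d → ℂ) :
    ∑ a, u a • (x.1 * e a * x⁻¹.1) = ∑ c, (∑ a, r c a * u a) • e c := by
  simp only [h _, Finset.smul_sum, smul_smul]
  rw [Finset.sum_comm]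
  refine Finset.sum_congr rfl fun c _ => ?_
  rw [Finset.sum_smul]
  refine Finset.sum_congr rfl fun a _ => ?_
  rw [mul_comm]

theorem rho_mul {x x' : GL ι ℂ} {r r' : Matrix (Fin d) (Fin d) ℂ} (h : Rho e x r)
    (h' : Rho e x' r') : Rho e (x * x') (r * r') := by
  intro b
  have e1 : (x * x').1 * e b * (x * x')⁻¹.1 = x.1 * (x'.1 * e b * x'⁻¹.1) * x⁻¹.1 := by
    rw [_root_.mul_inv_rev, glmul, glmul]
    simp only [Matrix.mul_assoc]
  rw [e1, h' b, conj_sum, sum_rho h]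
  rfl

theorem rho_inv {x : GL ι ℂ} {r : GL (Fin d) ℂ} (h : Rho e x r.1) : Rho e x⁻¹ r⁻¹.1 := by
  intro b
  have h1 : x.1 * (∑ a, r⁻¹.1 a b • e a) * x⁻¹.1 = e b := by
    rw [conj_sum, sum_rho h, Finset.sum_eq_single b]
    · have : ∑ a, r.1 b a * r⁻¹.1 a b = (r.1 * r⁻¹.1) b b := rfl
      rw [this, r.mul_inv, Matrix.one_apply_eq, one_smul]
    · intro c _ hc
      have : ∑ a, r.1 c a * r⁻¹.1 a b = (r.1 * r⁻¹.1) c b := rfl
      rw [this, r.mul_inv, Matrix.one_apply_ne hc, zero_smul]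
    · intro h
      exact absurd (Finset.mem_univ b) h
  rw [inv_inv]
  conv_lhs => rw [← h1]
  calc x⁻¹.1 * (x.1 * (∑ a, r⁻¹.1 a b • e a) * x⁻¹.1) * x.1
      = (x⁻¹.1 * x.1) * (∑ a, r⁻¹.1 a b • e a) * (x⁻¹.1 * x.1) := by
        simp only [Matrix.mul_assoc]
    _ = ∑ a, r⁻¹.1 a b • e a := by rw [glinv', Matrix.one_mul, Matrix.mul_one]

theorem exists_rho {x : GL ι ℂ}
    (h : ∀ b, x.1 * e b * x⁻¹.1 ∈ Submodule.span ℂ (Set.range e)) : ∃ r, Rho e x r := by
  choose r hr using fun b => (Submodule.mem_span_range_iff_exists_fun ℂ).1 (h b)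
  exact ⟨Matrix.of fun a b => r b a, fun b => (hr b).symm⟩

theorem exists_rho_gl (he : LinearIndependent ℂ e) {L : Subgroup (GL ι ℂ)}
    (hL : Adst L (Submodule.span ℂ (Set.range e))) {x : GL ι ℂ} (hx : x ∈ L) :
    ∃ r : GL (Fin d) ℂ, Rho e x r.1 := by
  have hm : ∀ b, e b ∈ Submodule.span ℂ (Set.range e) := fun b => Submodule.subset_span ⟨b, rfl⟩
  obtain ⟨r, hr⟩ := exists_rho (fun b => hL x hx _ (hm b))
  obtain ⟨r', hr'⟩ := exists_rho (fun b => hL x⁻¹ (L.inv_mem hx) _ (hm b))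
  have h1 : r * r' = 1 := by
    have := rho_mul hr hr'
    rw [mul_inv_cancel] at this
    exact rho_unique he this rho_one
  have h2 : r' * r = 1 := by
    have := rho_mul hr' hr
    rw [inv_mul_cancel] at this
    exact rho_unique he this rho_one
  exact ⟨⟨r, r', h1, h2⟩, hr⟩

/-- the image of a group -/
def Gam (e : Fin d → Matrix ι ι ℂ) (H : Subgroup (GL ι ℂ)) : Subgroup (GL (Fin d) ℂ) where
  carrier := {r | ∃ x ∈ H, Rho e x r.1}
  mul_mem' := by
    rintro a b ⟨x, hx, ha⟩ ⟨y, hy, hb⟩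
    exact ⟨x * y, H.mul_mem hx hy, rho_mul ha hb⟩
  one_mem' := ⟨1, H.one_mem, rho_one⟩
  inv_mem' := by
    rintro a ⟨x, hx, ha⟩
    exact ⟨x⁻¹, H.inv_mem hx, rho_inv ha⟩

/-- dual functionals -/
theorem exists_dual (he : LinearIndependent ℂ e) :
    ∃ φ : Fin d → (Matrix ι ι ℂ →ₗ[ℂ] ℂ), ∀ (u : Fin d → ℂ) (a : Fin d),
      φ a (∑ b, u b • e b) = u a := by
  classical
  obtain ⟨L, hL⟩ := (LinearMap.exists_leftInverse_of_injective (Fintype.linearCombination ℂ e)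
    (LinearMap.ker_eq_bot.2 fun u v huv => by
      rw [Fintype.linearCombination_apply, Fintype.linearCombination_apply] at huv
      exact sum_ext he huv))
  refine ⟨fun a => (LinearMap.proj a).comp L, fun u a => ?_⟩
  have h1 := congrFun (congrArg DFunLike.coe hL) u
  change L (Fintype.linearCombination ℂ e u) = u at h1
  rw [Fintype.linearCombination_apply] at h1
  change L (∑ b, u b • e b) a = u a
  rw [h1]

/-- the one-parameter group of matrices given by `Y` in the subspace -/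
theorem exists_one (he : LinearIndependent ℂ e) {G : Subgroup (GL ι ℂ)}
    (hG : Adst G (Submodule.span ℂ (Set.range e))) {Y : Matrix ι ι ℂ} (hY : ∀ s, gl Y s ∈ G) :
    ∃ (t : ℂ → GL (Fin d) ℂ) (Z : Matrix (Fin d) (Fin d) ℂ), One t Z ∧
      (∀ s, Rho e (gl Y s) (t s).1) ∧ ∀ b, Y * e b - e b * Y = ∑ a, Z a b • e a := by
  choose t ht using fun s => exists_rho_gl he hG (hY s)
  obtain ⟨φ, hφ⟩ := exists_dual he
  have hm : ∀ b, e b ∈ Submodule.span ℂ (Set.range e) := fun b => Submodule.subset_span ⟨b, rfl⟩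
  have h1 : ∀ b, ∃ u : Fin d → ℂ, ∑ a, u a • e a = Y * e b - e b * Y := fun b =>
    (Submodule.mem_span_range_iff_exists_fun ℂ).1 (br_mem fun s => hG _ (hY s) _ (hm b))
  choose u hu using h1
  refine ⟨t, Matrix.of fun a b => u b a, ⟨fun s s' => ?_, fun a b => ?_⟩, ht, fun b => ?_⟩
  · refine Units.ext (rho_unique he (ht (s + s')) ?_)
    rw [gl_add, Units.val_mul]
    exact rho_mul (ht s) (ht s')
  · have h2 := der_functional (der_conj Y (e b)) (φ a)
    rw [← hu b, hφ] at h2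
    have h3 : (fun s => φ a ((gl Y s).1 * e b * (gl Y s)⁻¹.1)) = fun s => (t s).1 a b := by
      funext s
      rw [ht s b, hφ]
    rw [h3] at h2
    exact h2
  · exact (hu b).symm

end rho

/-- the centraliser of a set of matrices -/
def Cn (S : Set (Matrix ι ι ℂ)) : Subgroup (GL ι ℂ) where
  carrier := {x | ∀ Y ∈ S, x.1 * Y = Y * x.1}
  mul_mem' := by
    intro a b ha hb Y hY
    rw [glmul, Matrix.mul_assoc, hb Y hY, ← Matrix.mul_assoc, ha Y hY, Matrix.mul_assoc]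
  one_mem' := by
    intro Y _
    rw [Units.val_one, Matrix.one_mul, Matrix.mul_one]
  inv_mem' := by
    intro a ha Y hY
    have h := ha Y hY
    calc a⁻¹.1 * Y = a⁻¹.1 * (Y * a.1) * a⁻¹.1 := by
          rw [Matrix.mul_assoc, Matrix.mul_assoc, glinv, Matrix.mul_one]
      _ = a⁻¹.1 * (a.1 * Y) * a⁻¹.1 := by rw [h]
      _ = Y * a⁻¹.1 := by rw [← Matrix.mul_assoc, glinv', Matrix.one_mul]

theorem Cn_closed (S : Set (Matrix ι ι ℂ)) : ClosedC (Cn S : Set (GL ι ℂ)) := by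
  refine ⟨{p | ∃ Y ∈ S, ∃ i j, p = ∑ k, (X (i, k) * C (Y k j) - C (Y i k) * X (k, j))}, ?_⟩
  ext x
  constructor
  · intro hx p hp
    obtain ⟨Y, hY, i, j, rfl⟩ := hp
    have h := congrFun (congrFun (hx Y hY) i) j
    rw [Matrix.mul_apply, Matrix.mul_apply] at h
    simp only [map_sum, map_sub, map_mul, aeval_X, algHom_C, Algebra.algebraMap_self,
      RingHom.id_apply, Finset.sum_sub_distrib]
    exact sub_eq_zero.2 h
  · intro hx Y hY
    ext i j
    have h := hx _ ⟨Y, hY, i, j, rfl⟩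
    simp only [map_sum, map_sub, map_mul, aeval_X, algHom_C, Algebra.algebraMap_self,
      RingHom.id_apply, Finset.sum_sub_distrib] at h
    rw [Matrix.mul_apply, Matrix.mul_apply]
    exact sub_eq_zero.1 h

end GtM

open GtM in
theorem specGt (hKil : SpecKil) (hFix : SpecFix) (hConn : SpecConn) (hBas : SpecBas)
    (hAdj : SpecAdj) (hInv : SpecInv) (hFg : SpecFg) : SpecGt := by
  classical
  intro ι _ _
  choose M hM using hFg
  refine ⟨max 2 (2 * (Finset.range (Fintype.card ι ^ 2 + 1)).sup M), ?_⟩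
  intro ψ K G H S hStab
  have hst : ∀ D' ≤ max 2 (2 * (Finset.range (Fintype.card ι ^ 2 + 1)).sup M),
      Stab K (H : Set (GL ι ℂ)) G D' := fun D' hD' κ _ _ hκ => hStab κ (hκ.trans hD')
  have hst2 : Stab K (H : Set (GL ι ℂ)) G 2 := hst 2 (le_max_left _ _)
  have hgH : Geo (H : Set (GL ι ℂ)) := geo_of S.alg S.closed
  have hgG : Geo (G : Set (GL ι ℂ)) := geo_of bot_le S.ss.closed
  -- the Lie algebras
  have hGG : Adst G (lie (G : Set (GL ι ℂ))) := adst_lie hgG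
  have hHH : Adst H (lie (H : Set (GL ι ℂ))) := adst_lie hgH
  have hHG : Adst H (lie (G : Set (GL ι ℂ))) := fun x hx X hX => norm_lie hgG (S.norm x hx) hX
  have hτH : ∀ τ : ℂ ≃+* ℂ, FixesField K τ → ∀ X ∈ lie (H : Set (GL ι ℂ)),
      X.map τ ∈ lie (H : Set (GL ι ℂ)) :=
    (hBas ι K).2 _ fun τ hτ f hf => S.closed.tw_mem hτ hf
  have hτG : ∀ τ : ℂ ≃+* ℂ, FixesField K τ → ∀ X ∈ lie (G : Set (GL ι ℂ)),
      X.map τ ∈ lie (G : Set (GL ι ℂ)) :=
    (hBas ι K).2 _ fun τ _ f hf => S.ss.closed.tw_mem (fixesField_bot τ) hf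
  have hGH : Adst G (lie (H : Set (GL ι ℂ))) := hAdj ι ψ K G H S hst2 _ hHH hτH
  set g1 : Submodule ℂ (Matrix ι ι ℂ) := lie (G : Set (GL ι ℂ)) ⊓ lie (H : Set (GL ι ℂ)) with hg1
  have hg1G : Adst G g1 := adst_inf hGG hGH
  have hg1H : Adst H g1 := adst_inf hHG hHH
  obtain ⟨hk1, hk2⟩ := (hKil ι G S.ss).1 g1 inf_le_left hg1G
  set W : Submodule ℂ (Matrix ι ι ℂ) := cen G g1 with hW
  have hWG : Adst G W := adst_cen hGG hg1G
  have hWH : Adst H W := adst_cen hHG hg1H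
  have hWle : W ≤ lie (G : Set (GL ι ℂ)) := fun X hX => hX.1
  have hτW : ∀ τ : ℂ ≃+* ℂ, FixesField K τ → ∀ X ∈ W, X.map τ ∈ W := by
    intro τ hτ X hX
    refine ⟨hτG τ hτ X hX.1, fun Y hY => ?_⟩
    have h1 : Y.map τ.symm ∈ g1 := ⟨hτG _ hτ.symm Y hY.1, hτH _ hτ.symm Y hY.2⟩
    have h2 := congrArg (fun A : Matrix ι ι ℂ => A.map τ) (hX.2 _ h1)
    simp only [map_mul_ring, map_map_symm] at h2
    exact h2
  -- the Lie algebra of `H` centralises `W`
  have hcomm : ∀ X ∈ lie (H : Set (GL ι ℂ)), ∀ Y ∈ W, X * Y = Y * X := by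
    intro X hX Y hY
    have h1 : X * Y - Y * X ∈ W := br_mem fun s => hWH _ (gl_mem hgH hX s) Y hY
    have h2 : Y * X - X * Y ∈ lie (H : Set (GL ι ℂ)) :=
      br_mem fun s => hGH _ (gl_mem hgG hY.1 s) X hX
    have h3 : X * Y - Y * X ∈ g1 ⊓ W := by
      refine ⟨⟨hWle h1, ?_⟩, h1⟩
      rw [← neg_sub]
      exact Submodule.neg_mem _ h2
    rw [hk1, Submodule.mem_bot] at h3
    exact sub_eq_zero.1 h3
  by_cases hW0 : W = ⊥
  · rw [hW0, sup_bot_eq] at hk2
    refine hConn ι G H S.ss S.closed.closedC fun X hX s => gl_mem hgH ?_ s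
    rw [← hk2] at hX
    exact hX.2
  exfalso
  apply hW0
  -- a basis of `W`
  obtain ⟨d, e, hd, he, heK, hspan⟩ := (hBas ι K).1 W hτW
  have hem : ∀ b, e b ∈ W := fun b => hspan ▸ Submodule.subset_span ⟨b, rfl⟩
  have hsG : Adst G (Submodule.span ℂ (Set.range e)) := hspan.symm ▸ hWG
  have hsH : Adst H (Submodule.span ℂ (Set.range e)) := hspan.symm ▸ hWH
  have hsle : Submodule.span ℂ (Set.range e) ≤ lie (G : Set (GL ι ℂ)) := hspan.symm ▸ hWle
  obtain ⟨κ, hκ, hκ'⟩ := (hKil ι G S.ss).2 d e he hsle hsG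
  have hcW := (hKil ι G S.ss).1 W hWle hWG
  -- the finite group
  have hfin : (Gam e H : Set (GL (Fin d) ℂ)).Finite := by
    obtain ⟨F, hF, hF'⟩ := hFix ι H (Cn (W : Set (Matrix ι ι ℂ))) hgH (Cn_closed _)
      fun X hX s Y hY => by
        have h1 : Commute Y X := (hcomm X hX Y hY).symm
        exact (((h1.smul_right s).exp_right).symm).eq
    have hch : ∀ f : GL ι ℂ, ∃ r : GL (Fin d) ℂ, f ∈ F → Rho e f r.1 := by
      intro f
      by_cases hf : f ∈ F
      · obtain ⟨r, hr⟩ := exists_rho_gl he hsH (hF f hf)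
        exact ⟨r, fun _ => hr⟩
      · exact ⟨1, fun h => absurd h hf⟩
    choose ρ hρ using hch
    refine (F.finite_toSet.image ρ).subset ?_
    rintro r ⟨x, hx, hr⟩
    obtain ⟨f, hf, hfx⟩ := hF' x hx
    refine ⟨f, hf, Units.ext ?_⟩
    have h1 : Rho e (f⁻¹ * x) 1 := rho_one_of fun b => hfx (e b) (hem b)
    have h2 := rho_mul (hρ f hf) h1
    rw [mul_inv_cancel_left, Matrix.mul_one] at h2
    exact rho_unique he h2 hr
  -- the one-parameter groups
  set 𝒵 : Set ((ℂ → GL (Fin d) ℂ) × Matrix (Fin d) (Fin d) ℂ) :=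
    {x | One x.1 x.2 ∧ ∃ Y ∈ W, ∀ s, Rho e (gl Y s) (x.1 s).1} with h𝒵
  have hex : ∀ Y ∈ W, ∃ x ∈ 𝒵, ∀ b, Y * e b - e b * Y = ∑ a, x.2 a b • e a := by
    intro Y hY
    obtain ⟨t, Z, h1, h2, h3⟩ := exists_one he hsG (fun s => gl_mem hgG hY.1 s)
    exact ⟨(t, Z), ⟨h1, Y, hY, h2⟩, h3⟩
  have hzero := hM d κ (Gam e H) 𝒵 hκ hfin ?_ ?_ ?_ ?_
  · -- `W` is commutative
    refine S.ss.ss W hWle hWG fun X hX Y hY => ?_
    obtain ⟨x, hx, hxb⟩ := hex X hX
    have h0 := hzero x hx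
    have hb : ∀ b, X * e b = e b * X := by
      intro b
      have h1 := hxb b
      rw [h0] at h1
      simp only [Matrix.zero_apply, zero_smul, Finset.sum_const_zero] at h1
      exact sub_eq_zero.1 h1
    rw [← hspan] at hY
    induction hY using Submodule.span_induction with
    | mem Y hY =>
      obtain ⟨b, rfl⟩ := hY
      exact hb b
    | zero => rw [Matrix.mul_zero, Matrix.zero_mul]
    | add Y Y' _ _ h h' => rw [Matrix.mul_add, Matrix.add_mul, h, h']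
    | smul a Y _ h => rw [Matrix.mul_smul, Matrix.smul_mul, h]
  · rintro γ ⟨x, hx, hγ⟩
    exact hκ' x γ.1 (fun X hX => hHG x hx X hX) hγ
  · rintro x ⟨h1, Y, hY, h2⟩
    exact ⟨h1, fun s => hκ' _ _ (fun X hX => hGG _ (gl_mem hgG hY.1 s) X hX) (h2 s)⟩
  · rintro m hm w hw x ⟨h1, Y, hY, h2⟩ s
    have hMd : M d ≤ (Finset.range (Fintype.card ι ^ 2 + 1)).sup M :=
      Finset.le_sup (f := M) (Finset.mem_range.2 (by omega))
    have h3 : Stab K (H : Set (GL ι ℂ)) G (2 * m) := hst _ (by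
      refine le_trans ?_ (le_max_right _ _)
      omega)
    refine hInv ι ψ K G H S m d e he heK hsle hsG hsH hst2 h3 w ?_ Y (hspan.symm ▸ hY) s _ (h2 s)
    intro y hy r hr
    obtain ⟨r', hr'⟩ := exists_rho_gl he hsH hy
    rw [rho_unique he hr hr']
    exact hw r' ⟨y, hy, hr'⟩
  · rintro z ⟨x, hx, hz⟩ hzc
    -- `x` commutes with `W`
    have had : ∀ Y ∈ W, ∀ X ∈ W, x.1 * (Y * X - X * Y) * x⁻¹.1 =
        Y * (x.1 * X * x⁻¹.1) - (x.1 * X * x⁻¹.1) * Y := by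
      intro Y hY X hX
      obtain ⟨y, hy, hyb⟩ := hex Y hY
      have hc := hzc y hy
      rw [← hspan] at hX
      induction hX using Submodule.span_induction with
      | mem X hX =>
        obtain ⟨b, rfl⟩ := hX
        rw [hyb b, conj_sum, sum_rho hz, hz b]
        have e1 : Y * (∑ a, z.1 a b • e a) - (∑ a, z.1 a b • e a) * Y =
            ∑ a, z.1 a b • (Y * e a - e a * Y) := by
          rw [Finset.mul_sum, Finset.sum_mul, ← Finset.sum_sub_distrib]
          refine Finset.sum_congr rfl fun a _ => ?_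
          rw [Matrix.mul_smul, Matrix.smul_mul, smul_sub]
        rw [e1]
        simp only [hyb, Finset.smul_sum, smul_smul]
        rw [Finset.sum_comm]
        refine Finset.sum_congr rfl fun c _ => ?_
        rw [← Finset.sum_smul]
        congr 1
        have h1 := congrFun (congrFun hc c) b
        rw [Matrix.mul_apply, Matrix.mul_apply] at h1
        rw [h1]
        exact Finset.sum_congr rfl fun a _ => mul_comm _ _
      | zero => simp only [Matrix.mul_zero, Matrix.zero_mul, sub_zero]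
      | add X X' _ _ h h' =>
        have e1 : Y * (X + X') - (X + X') * Y = (Y * X - X * Y) + (Y * X' - X' * Y) := by
          noncomm_ring
        rw [e1, Matrix.mul_add, Matrix.add_mul, h, h']
        noncomm_ring
      | smul a X _ h =>
        have e1 : Y * (a • X) - (a • X) * Y = a • (Y * X - X * Y) := by
          rw [Matrix.mul_smul, Matrix.smul_mul, smul_sub]
        rw [e1, Matrix.mul_smul, Matrix.smul_mul, h, Matrix.mul_smul, Matrix.smul_mul,
          Matrix.mul_smul, Matrix.smul_mul, smul_sub]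
    have hfix : ∀ Y ∈ W, x.1 * Y * x⁻¹.1 = Y := by
      intro Y hY
      have h1 : x.1 * Y * x⁻¹.1 - Y ∈ W ⊓ cen G W := by
        have h2 : x.1 * Y * x⁻¹.1 - Y ∈ W := Submodule.sub_mem _ (hWH x hx Y hY) hY
        refine ⟨h2, hWle h2, fun X hX => ?_⟩
        have h3 := hWH x⁻¹ (H.inv_mem hx) X hX
        have h4 := had Y hY _ h3
        rw [conj_conj] at h4
        have h5 : x.1 * (Y * (x⁻¹.1 * X * x⁻¹⁻¹.1) - (x⁻¹.1 * X * x⁻¹⁻¹.1) * Y) * x⁻¹.1 =
            (x.1 * Y * x⁻¹.1) * X - X * (x.1 * Y * x⁻¹.1) := by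
          rw [inv_inv]
          calc x.1 * (Y * (x⁻¹.1 * X * x.1) - (x⁻¹.1 * X * x.1) * Y) * x⁻¹.1
              = x.1 * Y * x⁻¹.1 * X * (x.1 * x⁻¹.1) -
                (x.1 * x⁻¹.1) * X * (x.1 * Y * x⁻¹.1) := by noncomm_ring
            _ = _ := by rw [glinv, Matrix.mul_one, Matrix.one_mul]
        rw [h5] at h4
        rw [Matrix.sub_mul, Matrix.mul_sub]
        have h6 : x.1 * Y * x⁻¹.1 * X - Y * X - (X * (x.1 * Y * x⁻¹.1) - X * Y) =
            (x.1 * Y * x⁻¹.1 * X - X * (x.1 * Y * x⁻¹.1)) - (Y * X - X * Y) := by abel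
        rw [← sub_eq_zero, h6, h4, sub_self]
      rw [hcW.1, Submodule.mem_bot] at h1
      exact sub_eq_zero.1 h1
    refine Units.ext (rho_unique he hz ?_)
    rw [Units.val_one]
    refine rho_one_of fun b => ?_
    have h1 := hfix (e b) (hem b)
    calc x.1 * e b = x.1 * e b * (x⁻¹.1 * x.1) := by rw [glinv', Matrix.mul_one]
      _ = (x.1 * e b * x⁻¹.1) * x.1 := by simp only [Matrix.mul_assoc]
      _ = e b * x.1 := by rw [h1]

end Pool.Agent.Lib.MPf11a48.CG
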