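import Pool.Agent.Lib.MP_f11a48_ag.CG.Spec

/-!
# Families near an object of CM type with semisimple monodromy, NRM: the normaliser torsor
-/

set_option autoImplicit false

namespace Pool.Agent.Lib.MPf11a48.CG

open Matrix
open Pool.Agent.Lib.MPf11a48.Tors
open Pool.Agent.Lib.MPf11a48.K3 (cx)

namespace NrmM

variable {ι : Type} [Fintype ι] [DecidableEq ι]

/-- the similitudes of `ψ` -/
def Siml (ψ : Matrix ι ι ℂ) (x : GL ι ℂ) : Prop := ∃ z : ℂ, x.1ᵀ * ψ * x.1 = z • ψ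

/-- the elements which normalise `G` and are similitudes of `ψ` -/
def NS (G : Subgroup (GL ι ℂ)) (ψ : Matrix ι ι ℂ) : Set (GL ι ℂ) :=
  {x | (∀ g ∈ G, x * g * x⁻¹ ∈ G) ∧ (∀ g ∈ G, x⁻¹ * g * x ∈ G) ∧ Siml ψ x}

theorem siml_one (ψ : Matrix ι ι ℂ) : Siml ψ (1 : GL ι ℂ) := by
  refine ⟨1, ?_⟩
  rw [Units.val_one, Matrix.transpose_one, Matrix.one_mul, Matrix.mul_one, one_smul]

theorem siml_mul {ψ : Matrix ι ι ℂ} {x y : GL ι ℂ} (hx : Siml ψ x) (hy : Siml ψ y) :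
    Siml ψ (x * y) := by
  obtain ⟨z, hz⟩ := hx
  obtain ⟨w, hw⟩ := hy
  refine ⟨z * w, ?_⟩
  have h1 : (x * y).1ᵀ * ψ * (x * y).1 = y.1ᵀ * (x.1ᵀ * ψ * x.1) * y.1 := by
    rw [Units.val_mul, Matrix.transpose_mul]
    simp only [Matrix.mul_assoc]
  rw [h1, hz, Matrix.mul_smul, Matrix.smul_mul, hw, smul_smul]

theorem val_mul_inv (x : GL ι ℂ) : x.1 * x⁻¹.1 = 1 := x.mul_inv

theorem conj_back {ψ χ : Matrix ι ι ℂ} {x : GL ι ℂ} (h : x.1ᵀ * ψ * x.1 = χ) :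
    ψ = x⁻¹.1ᵀ * χ * x⁻¹.1 := by
  have h1 : x⁻¹.1ᵀ * x.1ᵀ = 1 := by
    rw [← Matrix.transpose_mul, val_mul_inv, Matrix.transpose_one]
  have h2 : x⁻¹.1ᵀ * (x.1ᵀ * ψ * x.1) * x⁻¹.1 = ψ := by
    calc x⁻¹.1ᵀ * (x.1ᵀ * ψ * x.1) * x⁻¹.1 = (x⁻¹.1ᵀ * x.1ᵀ) * ψ * (x.1 * x⁻¹.1) := by
          simp only [Matrix.mul_assoc]
      _ = ψ := by rw [h1, val_mul_inv, Matrix.one_mul, Matrix.mul_one]
  rw [← h, h2]

theorem siml_inv {ψ : Matrix ι ι ℂ} {x : GL ι ℂ} (hx : Siml ψ x) : Siml ψ x⁻¹ := by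
  obtain ⟨z, hz⟩ := hx
  have h1 := conj_back hz
  rw [Matrix.mul_smul, Matrix.smul_mul] at h1
  by_cases h0 : z = 0
  · rw [h0, zero_smul] at h1
    refine ⟨0, ?_⟩
    rw [h1, Matrix.mul_zero, Matrix.zero_mul, smul_zero]
  · refine ⟨z⁻¹, ?_⟩
    calc x⁻¹.1ᵀ * ψ * x⁻¹.1 = z⁻¹ • (z • (x⁻¹.1ᵀ * ψ * x⁻¹.1)) := by
          rw [smul_smul, inv_mul_cancel₀ h0, one_smul]
      _ = z⁻¹ • ψ := by rw [← h1]

/-- `NS` as a group -/
def NSG (G : Subgroup (GL ι ℂ)) (ψ : Matrix ι ι ℂ) : Subgroup (GL ι ℂ) where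
  carrier := NS G ψ
  mul_mem' := by
    rintro a b ⟨ha1, ha2, ha3⟩ ⟨hb1, hb2, hb3⟩
    refine ⟨fun g hg => ?_, fun g hg => ?_, siml_mul ha3 hb3⟩
    · have h := ha1 _ (hb1 g hg)
      have e : a * b * g * (a * b)⁻¹ = a * (b * g * b⁻¹) * a⁻¹ := by group
      rw [e]
      exact h
    · have h := hb2 _ (ha2 g hg)
      have e : (a * b)⁻¹ * g * (a * b) = b⁻¹ * (a⁻¹ * g * a) * b := by group
      rw [e]
      exact h
  one_mem' := by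
    refine ⟨fun g hg => ?_, fun g hg => ?_, siml_one ψ⟩
    · rwa [one_mul, inv_one, mul_one]
    · rwa [mul_one, inv_one, one_mul]
  inv_mem' := by
    rintro a ⟨h1, h2, h3⟩
    refine ⟨fun g hg => ?_, fun g hg => ?_, siml_inv h3⟩
    · rw [inv_inv]
      exact h2 g hg
    · rw [inv_inv]
      exact h1 g hg

theorem closedC_of_poly (P : MvPolynomial ((ι × ι) ⊕ (ι × ι)) ℂ) :
    ClosedC {f : GL ι ℂ | MvPolynomial.aeval (Sum.elim (ent f) (ent f⁻¹)) P = 0} := by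
  obtain ⟨M, q, hq⟩ := clear_inverse P
  refine ⟨{q}, ?_⟩
  ext f
  simp only [Set.mem_ofPred_eq, Set.mem_singleton_iff, forall_eq]
  rw [hq]
  have hu : f.1.det ≠ 0 := ((Matrix.isUnit_iff_isUnit_det _).1 f.isUnit).ne_zero
  simp [hu]

theorem closedC_conj (p : MvPolynomial (ι × ι) ℂ) (g : GL ι ℂ) :
    ClosedC {x : GL ι ℂ | MvPolynomial.aeval (ent (x * g * x⁻¹)) p = 0} := by
  let q : ι × ι → MvPolynomial ((ι × ι) ⊕ (ι × ι)) ℂ := fun ij =>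
    ∑ b, (∑ a, MvPolynomial.X (Sum.inl (ij.1, a)) * MvPolynomial.C (g.1 a b)) *
      MvPolynomial.X (Sum.inr (b, ij.2))
  have hq : ∀ x : GL ι ℂ, MvPolynomial.aeval (Sum.elim (ent x) (ent x⁻¹))
      (MvPolynomial.aeval q p) = MvPolynomial.aeval (ent (x * g * x⁻¹)) p := by
    intro x
    rw [← AlgHom.comp_apply]
    congr 1
    ext ij
    simp [q, ent, Matrix.mul_apply]
  have := closedC_of_poly (MvPolynomial.aeval q p)
  simp only [hq] at this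
  exact this

theorem closedC_conj' (p : MvPolynomial (ι × ι) ℂ) (g : GL ι ℂ) :
    ClosedC {x : GL ι ℂ | MvPolynomial.aeval (ent (x⁻¹ * g * x)) p = 0} := by
  let q : ι × ι → MvPolynomial ((ι × ι) ⊕ (ι × ι)) ℂ := fun ij =>
    ∑ b, (∑ a, MvPolynomial.X (Sum.inr (ij.1, a)) * MvPolynomial.C (g.1 a b)) *
      MvPolynomial.X (Sum.inl (b, ij.2))
  have hq : ∀ x : GL ι ℂ, MvPolynomial.aeval (Sum.elim (ent x) (ent x⁻¹))
      (MvPolynomial.aeval q p) = MvPolynomial.aeval (ent (x⁻¹ * g * x)) p := by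
    intro x
    rw [← AlgHom.comp_apply]
    congr 1
    ext ij
    simp [q, ent, Matrix.mul_apply]
  have := closedC_of_poly (MvPolynomial.aeval q p)
  simp only [hq] at this
  exact this

theorem closedC_siml4 (ψ : Matrix ι ι ℂ) (i j k l : ι) :
    ClosedC {x : GL ι ℂ | (x.1ᵀ * ψ * x.1) i j * ψ k l - (x.1ᵀ * ψ * x.1) k l * ψ i j = 0} := by
  let q : ι → ι → MvPolynomial ((ι × ι) ⊕ (ι × ι)) ℂ := fun i j =>
    ∑ b, (∑ a, MvPolynomial.X (Sum.inl (a, i)) * MvPolynomial.C (ψ a b)) *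
      MvPolynomial.X (Sum.inl (b, j))
  have hq : ∀ (x : GL ι ℂ) (i j : ι), MvPolynomial.aeval (Sum.elim (ent x) (ent x⁻¹)) (q i j) =
      (x.1ᵀ * ψ * x.1) i j := by
    intro x i j
    simp [q, ent, Matrix.mul_apply]
  have := closedC_of_poly (q i j * MvPolynomial.C (ψ k l) - q k l * MvPolynomial.C (ψ i j))
  simp only [map_sub, map_mul, hq, MvPolynomial.algHom_C] at this
  exact this

theorem closedC_inter {A B : Set (GL ι ℂ)} (hA : ClosedC A) (hB : ClosedC B) :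
    ClosedC (A ∩ B) := by
  obtain ⟨S, rfl⟩ := hA
  obtain ⟨S', rfl⟩ := hB
  refine ⟨S ∪ S', ?_⟩
  ext g
  constructor
  · rintro ⟨h1, h2⟩ p (hp | hp)
    · exact h1 p hp
    · exact h2 p hp
  · intro h
    exact ⟨fun p hp => h p (Or.inl hp), fun p hp => h p (Or.inr hp)⟩

omit [DecidableEq ι] in
theorem siml_iff [DecidableEq ι] (ψ : Matrix ι ι ℂ) (x : GL ι ℂ) : Siml ψ x ↔ ∀ i j k l,
    (x.1ᵀ * ψ * x.1) i j * ψ k l - (x.1ᵀ * ψ * x.1) k l * ψ i j = 0 := by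
  constructor
  · rintro ⟨z, hz⟩ i j k l
    rw [hz, Matrix.smul_apply, Matrix.smul_apply, smul_eq_mul, smul_eq_mul]
    ring
  · intro h
    by_cases h0 : ψ = 0
    · refine ⟨0, ?_⟩
      rw [h0, Matrix.mul_zero, Matrix.zero_mul, smul_zero]
    · have h1 : ∃ k l, ψ k l ≠ 0 := by
        by_contra hc
        push Not at hc
        exact h0 (Matrix.ext hc)
      obtain ⟨k, l, hkl⟩ := h1
      refine ⟨(x.1ᵀ * ψ * x.1) k l / ψ k l, ?_⟩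
      refine Matrix.ext fun i j => ?_
      rw [Matrix.smul_apply, smul_eq_mul, div_mul_eq_mul_div, eq_div_iff hkl]
      exact sub_eq_zero.1 (h i j k l)

theorem closedC_NS {G : Subgroup (GL ι ℂ)} (hG : ClosedC (G : Set (GL ι ℂ)))
    (ψ : Matrix ι ι ℂ) : ClosedC (NS G ψ) := by
  obtain ⟨S, hS⟩ := hG
  have hmem : ∀ g : GL ι ℂ, g ∈ G ↔ ∀ p ∈ S, MvPolynomial.aeval (ent g) p = 0 := by
    intro g
    have : g ∈ (G : Set (GL ι ℂ)) ↔ g ∈ {g | ∀ p ∈ S, MvPolynomial.aeval (ent g) p = 0} := by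
      rw [hS]
    exact this
  have e : NS G ψ = (⋂ w : G × S, {x : GL ι ℂ |
      MvPolynomial.aeval (ent (x * w.1.1 * x⁻¹)) w.2.1 = 0}) ∩
      ((⋂ w : G × S, {x : GL ι ℂ | MvPolynomial.aeval (ent (x⁻¹ * w.1.1 * x)) w.2.1 = 0}) ∩
      (⋂ w : (ι × ι) × (ι × ι), {x : GL ι ℂ |
        (x.1ᵀ * ψ * x.1) w.1.1 w.1.2 * ψ w.2.1 w.2.2 -
          (x.1ᵀ * ψ * x.1) w.2.1 w.2.2 * ψ w.1.1 w.1.2 = 0})) := by
    ext x
    simp only [Set.mem_inter_iff, Set.mem_iInter, Set.mem_ofPred_eq]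
    constructor
    · rintro ⟨h1, h2, h3⟩
      refine ⟨fun w => ?_, fun w => ?_, fun w => ?_⟩
      · exact (hmem _).1 (h1 w.1.1 w.1.2) _ w.2.2
      · exact (hmem _).1 (h2 w.1.1 w.1.2) _ w.2.2
      · exact (siml_iff ψ x).1 h3 _ _ _ _
    · rintro ⟨h1, h2, h3⟩
      refine ⟨fun g hg => (hmem _).2 fun p hp => h1 (⟨g, hg⟩, ⟨p, hp⟩),
        fun g hg => (hmem _).2 fun p hp => h2 (⟨g, hg⟩, ⟨p, hp⟩), ?_⟩
      exact (siml_iff ψ x).2 fun i j k l => h3 ((i, j), (k, l))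
  rw [e]
  exact closedC_inter (closedC_iInter fun w => closedC_conj _ _)
    (closedC_inter (closedC_iInter fun w => closedC_conj' _ _)
      (closedC_iInter fun w => closedC_siml4 ψ _ _ _ _))

theorem tw_form (τ : ℂ ≃+* ℂ) (ψ χ : Matrix ι ι ℚ) (ϖ : ℂ) (x : GL ι ℂ)
    (h : x.1ᵀ * cx ψ * x.1 = ϖ • cx χ) :
    (tw τ x).1ᵀ * cx ψ * (tw τ x).1 = τ ϖ • cx χ := by
  have h0 : ∀ θ : Matrix ι ι ℚ, (cx θ).map (τ : ℂ →+* ℂ) = cx θ := by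
    intro θ
    refine Matrix.ext fun i j => ?_
    rw [Matrix.map_apply]
    change τ ((θ i j : ℚ) : ℂ) = ((θ i j : ℚ) : ℂ)
    exact map_ratCast τ _
  have h1 : (tw τ x).1 = x.1.map (τ : ℂ →+* ℂ) := rfl
  have h2 := congrArg (fun M : Matrix ι ι ℂ => M.map (τ : ℂ →+* ℂ)) h
  simp only [Matrix.map_mul] at h2
  rw [h0, Matrix.transpose_map] at h2
  rw [h1, h2]
  refine Matrix.ext fun i j => ?_
  have h3 : (τ : ℂ →+* ℂ) (cx χ i j) = cx χ i j := congrFun (congrFun (h0 χ) i) j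
  rw [Matrix.map_apply, Matrix.smul_apply, Matrix.smul_apply, smul_eq_mul, smul_eq_mul, map_mul, h3]
  rfl

end NrmM

open NrmM

theorem specNrm : SpecNrm := by
  intro ι _ _ ψ₀ ψ ϖ C₀ y R G G₀ L T _ hϖ hSS hψ hG₀ hGG hC₀ hy hR hT hc
  have hGc := hSS.closed
  have hGtw : ∀ (τ : ℂ ≃+* ℂ), ∀ g ∈ G, tw τ g ∈ G := fun τ g hg =>
    hGc.tw_mem (fun z hz => fixesField_bot τ z hz) hg
  have hG₀tw : ∀ (τ : ℂ ≃+* ℂ), ∀ g ∈ G₀, tw τ g ∈ G₀ := fun τ g hg =>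
    hG₀.tw_mem (fun z hz => fixesField_bot τ z hz) hg
  set c : GL ι ℂ := C₀ * y * R with hcdef
  -- elements of `G` are in `NS`
  have hGN : ∀ g ∈ G, g ∈ NSG G (cx ψ) := by
    intro g hg
    refine ⟨fun a ha => G.mul_mem (G.mul_mem hg ha) (G.inv_mem hg),
      fun a ha => G.mul_mem (G.mul_mem (G.inv_mem hg) ha) hg, 1, ?_⟩
    rw [one_smul]
    exact hψ g hg
  -- `NS` is stable
  have hNtw : ∀ (τ : ℂ ≃+* ℂ), ∀ x ∈ NSG G (cx ψ), tw τ x ∈ NSG G (cx ψ) := by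
    rintro τ x ⟨h1, h2, z, hz⟩
    refine ⟨fun g hg => ?_, fun g hg => ?_, τ z, tw_form τ ψ ψ z x hz⟩
    · have h3 := hGtw τ _ (h1 _ (hGtw τ.symm g hg))
      rwa [map_mul, map_mul, map_inv, tw_tw_symm] at h3
    · have h3 := hGtw τ _ (h2 _ (hGtw τ.symm g hg))
      rwa [map_mul, map_mul, map_inv, tw_tw_symm] at h3
  have hin : ∀ g ∈ G, C₀⁻¹ * g * C₀ ∈ G₀ := by
    intro g hg
    rw [hGG]
    have e : C₀ * (C₀⁻¹ * g * C₀) * C₀⁻¹ = g := by group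
    rwa [e]
  have hC₀N : ∀ τ : ℂ ≃+* ℂ, tw τ C₀ * C₀⁻¹ ∈ NSG G (cx ψ) := by
    intro τ
    refine ⟨fun g hg => ?_, fun g hg => ?_, τ ϖ * ϖ⁻¹, ?_⟩
    · have h1 := hG₀tw τ.symm _ (hin g hg)
      have h2 := hGtw τ _ ((hGG _).1 h1)
      rw [map_mul, map_mul, map_inv, tw_tw_symm] at h2
      have e : tw τ C₀ * C₀⁻¹ * g * (tw τ C₀ * C₀⁻¹)⁻¹ =
          tw τ C₀ * (C₀⁻¹ * g * C₀) * (tw τ C₀)⁻¹ := by group
      rw [e]
      exact h2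
    · have h1 := hG₀tw τ _ (hin _ (hGtw τ.symm g hg))
      have h2 := (hGG _).1 h1
      rw [map_mul, map_mul, map_inv, tw_tw_symm] at h2
      have e : (tw τ C₀ * C₀⁻¹)⁻¹ * g * (tw τ C₀ * C₀⁻¹) =
          C₀ * ((tw τ C₀)⁻¹ * g * tw τ C₀) * C₀⁻¹ := by group
      rw [e]
      exact h2
    · have h1 := tw_form τ ψ ψ₀ ϖ C₀ hC₀
      have h2 := conj_back hC₀
      rw [Matrix.mul_smul, Matrix.smul_mul] at h2
      have h3 : (tw τ C₀ * C₀⁻¹).1ᵀ * cx ψ * (tw τ C₀ * C₀⁻¹).1 =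
          C₀⁻¹.1ᵀ * ((tw τ C₀).1ᵀ * cx ψ * (tw τ C₀).1) * C₀⁻¹.1 := by
        rw [Units.val_mul, Matrix.transpose_mul]
        simp only [Matrix.mul_assoc]
      rw [h3, h1, Matrix.mul_smul, Matrix.smul_mul]
      conv_rhs => rw [h2]
      rw [smul_smul, inv_mul_cancel_right₀ hϖ]
  have hcN : ∀ τ : ℂ ≃+* ℂ, FixesField L τ → tw τ c * c⁻¹ ∈ NSG G (cx ψ) := by
    intro τ hτ
    have hRτ : tw τ R = R := by
      apply Units.ext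
      refine Matrix.ext fun i j => ?_
      exact hτ _ (hR i j)
    have h1 : C₀ * (tw τ y * y⁻¹) * C₀⁻¹ ∈ G := (hGG _).1 (hy τ hτ)
    have e : tw τ c * c⁻¹ = (tw τ C₀ * C₀⁻¹) * (C₀ * (tw τ y * y⁻¹) * C₀⁻¹) := by
      rw [hcdef, map_mul, map_mul, hRτ]
      group
    rw [e]
    exact (NSG G (cx ψ)).mul_mem (hC₀N τ) (hGN _ h1)
  let T₁ : Set (GL ι ℂ) := T ∩ {f : GL ι ℂ | f * c⁻¹ ∈ NS G (cx ψ)}
  have hcT₁ : c ∈ T₁ := by
    refine ⟨hc, ?_⟩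
    change c * c⁻¹ ∈ NSG G (cx ψ)
    rw [mul_inv_cancel]
    exact (NSG G (cx ψ)).one_mem
  have hgrp : ∀ h ∈ grp T₁, h ∈ NSG G (cx ψ) := by
    rintro _ ⟨a, ha, b, hb, rfl⟩
    have e : a * b⁻¹ = (a * c⁻¹) * (b * c⁻¹)⁻¹ := by group
    rw [e]
    exact (NSG G (cx ψ)).mul_mem ha.2 ((NSG G (cx ψ)).inv_mem hb.2)
  refine ⟨T₁, Set.inter_subset_left, ⟨?_, ⟨c, hcT₁⟩, ?_⟩, hcT₁, fun h hh g hg => (hgrp h hh).1 g hg,
    fun h hh => (hgrp h hh).2.2⟩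
  · refine closedOver_of_stable L
      (closedC_inter hT.closed.closedC ((closedC_NS hGc.closedC (cx ψ)).mul_right c⁻¹)) ?_
    rintro τ hτ f ⟨hf1, hf2⟩
    refine ⟨hT.closed.tw_mem hτ hf1, ?_⟩
    change tw τ f * c⁻¹ ∈ NSG G (cx ψ)
    have h1 := hNtw τ _ hf2
    rw [map_mul, map_inv] at h1
    have e : tw τ f * c⁻¹ = (tw τ f * (tw τ c)⁻¹) * (tw τ c * c⁻¹) := by group
    rw [e]
    exact (NSG G (cx ψ)).mul_mem h1 (hcN τ hτ)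
  · rintro a ⟨ha1, ha2⟩ b ⟨hb1, hb2⟩ d ⟨hd1, hd2⟩
    refine ⟨hT.heap a ha1 b hb1 d hd1, ?_⟩
    have e : a * b⁻¹ * d * c⁻¹ = (a * c⁻¹) * (b * c⁻¹)⁻¹ * (d * c⁻¹) := by group
    change a * b⁻¹ * d * c⁻¹ ∈ NSG G (cx ψ)
    rw [e]
    exact (NSG G (cx ψ)).mul_mem ((NSG G (cx ψ)).mul_mem ha2 ((NSG G (cx ψ)).inv_mem hb2)) hd2

end Pool.Agent.Lib.MPf11a48.CG
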