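import Pool.Agent.Lib.MP_f11a48_ag.CG.SpecL

/-!
# PXV: the values of `f(u ^ e)` and of polynomials over `ℚ[u]` in power series
-/

set_option autoImplicit false

namespace Pool.Agent.Lib.MPf11a48.CG

open Polynomial Matrix
open scoped PowerSeries
open Pool.Agent.Lib.MPf11a48.Tors
open Pool.Agent.Lib.MPf11a48.CM hiding OmegaM
open Pool.Agent.Lib.MPf11a48.GL2T Pool.Agent.Lib.MPf11a48.GF
open Pool.Agent.Lib.MPf11a48.CF (vm ta pl)
open Pool.Agent.Lib.MPf11a48.GL2 (lie van en Geo)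
open Pool.Agent.Lib.MPf11a48.K3 (cx)
open Pool.Agent.Lib.MPf11a48.CG.RelM (SmC cval)
open Pool.Agent.Lib.MPf11a48.GF.EstM (Sm)

namespace PxvM

open RelM (tc)

theorem coeff_px {e : ℕ} (he : e ≠ 0) (f : ℚ⟦X⟧) (n : ℕ) :
    PowerSeries.coeff n (px e f) = if e ∣ n then PowerSeries.coeff (n / e) f else 0 := by
  unfold px
  rw [PowerSeries.coeff_subst_X_pow he]
  rfl

theorem tc_px {e : ℕ} (he : e ≠ 0) (f : ℚ⟦X⟧) (u : ℂ) (k : ℕ) :
    tc (PowerSeries.map (algebraMap ℚ ℂ) (px e f)) u (e * k) =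
      ((PowerSeries.coeff k f : ℚ) : ℂ) * (u ^ e) ^ k := by
  rw [tc, PowerSeries.coeff_map, coeff_px he, if_pos (Dvd.intro k rfl),
    Nat.mul_div_cancel_left _ (Nat.pos_of_ne_zero he), ← pow_mul]
  rfl

theorem tc_px_zero {e : ℕ} (he : e ≠ 0) (f : ℚ⟦X⟧) (u : ℂ) (n : ℕ)
    (hn : n ∉ Set.range fun k : ℕ => e * k) :
    tc (PowerSeries.map (algebraMap ℚ ℂ) (px e f)) u n = 0 := by
  have h : ¬ e ∣ n := by
    rintro ⟨k, rfl⟩
    exact hn ⟨k, rfl⟩
  rw [tc, PowerSeries.coeff_map, coeff_px he, if_neg h, map_zero, zero_mul]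

theorem px_val {e : ℕ} (he : e ≠ 0) {f : ℚ⟦X⟧} {u : ℂ} (hf : Sm f (u ^ e)) :
    SmC (PowerSeries.map (algebraMap ℚ ℂ) (px e f)) u ∧
      cval (PowerSeries.map (algebraMap ℚ ℂ) (px e f)) u = pval f (u ^ e) := by
  have hi : Function.Injective fun k : ℕ => e * k := by
    intro a b h
    exact Nat.eq_of_mul_eq_mul_left (Nat.pos_of_ne_zero he) h
  constructor
  · change Summable fun n => ‖tc (PowerSeries.map (algebraMap ℚ ℂ) (px e f)) u n‖
    rw [← hi.summable_iff]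
    · have h1 : ((fun n => ‖tc (PowerSeries.map (algebraMap ℚ ℂ) (px e f)) u n‖) ∘
          fun k : ℕ => e * k) = fun k => ‖((PowerSeries.coeff k f : ℚ) : ℂ) * (u ^ e) ^ k‖ := by
        funext k
        rw [Function.comp_apply, tc_px he]
      rw [h1]
      exact hf
    · intro n hn
      rw [tc_px_zero he f u n hn, norm_zero]
  · change ∑' n, tc (PowerSeries.map (algebraMap ℚ ℂ) (px e f)) u n =
      ∑' k, ((PowerSeries.coeff k f : ℚ) : ℂ) * (u ^ e) ^ k
    rw [← hi.tsum_eq]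
    · exact tsum_congr fun k => tc_px he f u k
    · intro n hn
      by_contra hcon
      exact hn (tc_px_zero he f u n hcon)

theorem pow_val (l : ℕ) (u : ℂ) :
    SmC (PowerSeries.map (algebraMap ℚ ℂ) ((PowerSeries.X : ℚ⟦X⟧) ^ l)) u ∧
      cval (PowerSeries.map (algebraMap ℚ ℂ) ((PowerSeries.X : ℚ⟦X⟧) ^ l)) u = u ^ l := by
  have h := specEval.2.2.1 ((X : ℚ[X]) ^ l) u
  have e : (((X : ℚ[X]) ^ l : ℚ[X]) : ℚ⟦X⟧) = (PowerSeries.X : ℚ⟦X⟧) ^ l := by
    rw [Polynomial.coe_pow, Polynomial.coe_X]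
  rw [e] at h
  refine ⟨(RelM.rat h.1).1, ?_⟩
  rw [(RelM.rat h.1).2, h.2, map_pow, Polynomial.aeval_X]

theorem cval_peval {μ : Type} (v : μ → ℂ⟦X⟧) (u : ℂ) (hv : ∀ i, SmC (v i) u)
    (G : MvPolynomial μ ℚ[X]) :
    SmC (pevalC v G) u ∧ cval (pevalC v G) u =
      MvPolynomial.eval (fun i => cval (v i) u)
        (G.map (Polynomial.aeval u : ℚ[X] →ₐ[ℚ] ℂ).toRingHom) := by
  induction G using MvPolynomial.induction_on with
  | C p =>
    have h := specEval.2.2.1 p u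
    have e : pevalC v (MvPolynomial.C p) = PowerSeries.map (algebraMap ℚ ℂ) (p : ℚ⟦X⟧) := by
      unfold pevalC
      rw [MvPolynomial.eval₂_C]
      rfl
    rw [e]
    refine ⟨(RelM.rat h.1).1, ?_⟩
    rw [(RelM.rat h.1).2, h.2, MvPolynomial.map_C, MvPolynomial.eval_C]
    rfl
  | add p q hp hq =>
    have e : pevalC v (p + q) = pevalC v p + pevalC v q := by
      unfold pevalC
      exact MvPolynomial.eval₂_add _ _
    rw [e]
    refine ⟨(RelM.add hp.1 hq.1).1, ?_⟩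
    rw [(RelM.add hp.1 hq.1).2, hp.2, hq.2, map_add, map_add]
  | mul_X p i hp =>
    have e : pevalC v (p * MvPolynomial.X i) = pevalC v p * v i := by
      unfold pevalC
      rw [MvPolynomial.eval₂_mul, MvPolynomial.eval₂_X]
    rw [e]
    refine ⟨(RelM.mul hp.1 (hv i)).1, ?_⟩
    rw [(RelM.mul hp.1 (hv i)).2, hp.2, map_mul, map_mul, MvPolynomial.map_X, MvPolynomial.eval_X]

end PxvM

open PxvM in
theorem specPxv : SpecPxv := by
  refine ⟨fun e f u he hf => px_val he hf, fun μ v u hv F => cval_peval v u hv F, ?_, ?_⟩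
  · intro μ v F
    unfold peval pevalC
    exact MvPolynomial.eval₂_comp_left _ _ _ _
  · intro ι _ _ e l Y g u he hY i j
    have h1 : ∀ k, SmC ((g.map (PowerSeries.C : ℂ →+* ℂ⟦X⟧)) i k *
          ((ram e l Y).map (PowerSeries.map (algebraMap ℚ ℂ))) k j) u ∧
        cval ((g.map (PowerSeries.C : ℂ →+* ℂ⟦X⟧)) i k *
          ((ram e l Y).map (PowerSeries.map (algebraMap ℚ ℂ))) k j) u =
          g i k * (u ^ l k * pval (Y k j) (u ^ e)) := by
      intro k
      have e1 : ((ram e l Y).map (PowerSeries.map (algebraMap ℚ ℂ))) k j =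
          PowerSeries.map (algebraMap ℚ ℂ) ((PowerSeries.X : ℚ⟦X⟧) ^ l k) *
            PowerSeries.map (algebraMap ℚ ℂ) (px e (Y k j)) := by
        rw [← map_mul]
        rfl
      rw [e1, Matrix.map_apply]
      have h3 := px_val he (hY (k, j))
      have h4 := pow_val (l k) u
      have h5 := RelM.mul h4.1 h3.1
      have h6 := RelM.mul (RelM.const (g i k) u).1 h5.1
      refine ⟨h6.1, h6.2.trans ?_⟩
      rw [(RelM.const (g i k) u).2, h5.2, h4.2, h3.2]
    have h3 := RelM.sum Finset.univ fun k _ => (h1 k).1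
    rw [gY, Matrix.mul_apply, Matrix.mul_apply]
    refine ⟨h3.1, h3.2.trans ?_⟩
    refine Finset.sum_congr rfl fun k _ => (h1 k).2.trans ?_
    rw [Matrix.diagonal_mul]
    rfl

end Pool.Agent.Lib.MPf11a48.CG
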