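import Pool.Agent.Lib.MP_f11a48_ag.CG.Stmt
import Pool.Agent.Lib.MP_f11a48_ag.CF.Spec
import Pool.Agent.Lib.MP_f11a48_ag.helper17.AutC
import Pool.Agent.Lib.MP_f11a48_ag.K3.KCur

/-!
# Families near an object of CM type with semisimple monodromy: specifications
-/

set_option autoImplicit false

namespace Pool.Agent.Lib.MPf11a48.CG

open Polynomial Matrix
open scoped PowerSeries
open Pool.Agent.Lib.MPf11a48.Tors
open Pool.Agent.Lib.MPf11a48.CM hiding OmegaM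
open Pool.Agent.Lib.MPf11a48.GL2T Pool.Agent.Lib.MPf11a48.GF
open Pool.Agent.Lib.MPf11a48.CF (vm ta pl)
open Pool.Agent.Lib.MPf11a48.GL2 (lie van en Geo)
open Pool.Agent.Lib.MPf11a48.K3 (cx)
open Pool.Agent.Lib.MPf11a48.K3.KCurM (gl)

/-! ## Part A: relations between values -/

/-- MONOD: relations of degree `≤ n` between the values of the components of a solution (from
CF.LIFT) -/
def SpecMonoD : Prop :=
  ∀ (μ : Type) [Fintype μ] [DecidableEq μ] (T : ℤ[X]) (B : Matrix μ μ ℤ[X]) (v : μ → ℚ⟦X⟧),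
    T ≠ 0 → IsGal T B → IsSol (zq T) (B.map zq) v → IsG v → ∀ n : ℕ,
    ∃ C : ℕ, ∀ a b : ℤ, a ≠ 0 → (C : ℤ) * |a| ^ C ≤ b →
      ∀ F : MvPolynomial μ ℚ, F.totalDegree ≤ n →
        MvPolynomial.aeval (fun i => pval (v i) ((a : ℂ) / b)) F = 0 →
        ∃ H : MvPolynomial μ ℚ[X], peval v H = 0 ∧
          H.map (Polynomial.evalRingHom ((a : ℚ) / b)) = F

/-- the polynomial relations of degree `≤ n` over `k` between the entries of `y` hold for the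
entries of `g y`, for all `g ∈ G₀` -/
def HasRel (k : Type) [Field k] [Algebra k ℂ] {ι : Type} [Fintype ι] [DecidableEq ι] (n : ℕ)
    (y : Matrix ι ι ℂ) (G₀ : Subgroup (GL ι ℂ)) : Prop :=
  ∀ F : MvPolynomial (ι × ι) k, F.totalDegree ≤ n →
    MvPolynomial.aeval (fun p => y p.1 p.2) F = 0 →
    ∀ g ∈ G₀, MvPolynomial.aeval (fun p => (g.1 * y) p.1 p.2) F = 0

/-- REL: relations over `ℚ` between the values (from MONOD) -/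
def SpecRel : Prop :=
  ∀ (ι : Type) [Fintype ι] [DecidableEq ι] (T : ℤ[X]) (B : Matrix (ι × ι) (ι × ι) ℤ[X])
    (Y : Matrix ι ι ℚ⟦X⟧) (G₀ : Subgroup (GL ι ℂ)), Fam T B Y G₀ → ∀ n : ℕ,
    ∃ C : ℕ, ∀ a b : ℤ, a ≠ 0 → (C : ℤ) * |a| ^ C ≤ b → HasRel ℚ n (vm Y ((a : ℂ) / b)) G₀

/-- TOR: values of algebraic functions -/
def SpecTor : Prop :=
  ∀ (ι : Type) [Fintype ι] [DecidableEq ι] (Y : Matrix ι ι ℚ⟦X⟧),
    (IsG fun v : ι × ι => Y v.1 v.2) → ∀ q : MvPolynomial (ι × ι) ℚ,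
    IsAlgebraic ℚ[X] (MvPolynomial.aeval (fun v : ι × ι => Y v.1 v.2) q : ℚ⟦X⟧) →
    ∃ e C : ℕ, ∀ a b : ℤ, a ≠ 0 → (C : ℤ) * |a| ^ C ≤ b →
      ∃ p : ℚ[X], p ≠ 0 ∧ p.natDegree ≤ e ∧
        aeval (MvPolynomial.aeval (fun v : ι × ι => vm Y ((a : ℂ) / b) v.1 v.2) q) p = 0

/-- DEG: fields generated by algebraic numbers of bounded degree -/
def SpecDeg : Prop :=
  ∀ (r e : ℕ) (K : IntermediateField ℚ ℂ), FiniteDimensional ℚ K → ∀ x : Fin r → ℂ,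
    (∀ a, ∃ p : ℚ[X], p ≠ 0 ∧ p.natDegree ≤ e ∧ aeval (x a) p = 0) →
    ∃ L : IntermediateField ℚ ℂ, K ≤ L ∧ FiniteDimensional ℚ L ∧ (∀ a, x a ∈ L) ∧
      Module.finrank ℚ L ≤ Module.finrank ℚ K * e ^ r

/-- NORM: relations over number fields -/
def SpecNorm : Prop :=
  ∀ (ι : Type) [Fintype ι] [DecidableEq ι] (G₀ : Subgroup (GL ι ℂ)) (r : ℕ)
    (p : Fin r → MvPolynomial (ι × ι) ℚ) (n δ : ℕ), ClosedOver ⊥ (G₀ : Set (GL ι ℂ)) →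
    (∀ f g : MvPolynomial (ι × ι) ℂ, f * g ∈ van (G₀ : Set (GL ι ℂ)) →
      f ∈ van (G₀ : Set (GL ι ℂ)) ∨ g ∈ van (G₀ : Set (GL ι ℂ))) →
    (∀ z z' : GL ι ℂ, z' * z⁻¹ ∈ G₀ ↔ ∀ a, MvPolynomial.aeval (en z'.1) (p a) =
      MvPolynomial.aeval (en z.1) (p a)) →
    ∃ N : ℕ, ∀ (y : GL ι ℂ) (L : IntermediateField ℚ ℂ), FiniteDimensional ℚ L →
      Module.finrank ℚ L ≤ δ → (∀ a, MvPolynomial.aeval (en y.1) (p a) ∈ L) →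
      HasRel ℚ N y.1 G₀ → HasRel L n y.1 G₀

/-! ## Part B: stable subspaces of tensor spaces -/

/-- CORE: commutators of block diagonal elements act trivially. `J ~ J'` if all
`s (J k) / s (J' k)` are in `K`. -/
def SpecCore : Prop :=
  ∀ (ι κ : Type) [Fintype ι] [DecidableEq ι] [Fintype κ] [DecidableEq κ]
    (K : IntermediateField ℚ ℂ) (y Q : GL ι ℂ) (G₀ : Subgroup (GL ι ℂ)) (s : ι → ℂ)
    (α : (κ → ι) → K), HasRel K (Fintype.card κ) y.1 G₀ → (∀ i j, Q.1 i j ∈ K) →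
    (∀ i, s i ≠ 0) →
    (∀ J J' : κ → ι, (∀ k, s (J k) / s (J' k) ∈ K) →
      ta (Q.1 * y.1) (fun I => (α I : ℂ)) J' ≠ 0 →
      ta (Q.1 * y.1) (fun I => (α I : ℂ)) J / ta (Q.1 * y.1) (fun I => (α I : ℂ)) J' ∈ K) →
    ∀ l₁ ∈ G₀, ∀ l₂ ∈ G₀, (∀ i j, (Q * l₁ * Q⁻¹).1 i j ≠ 0 → s i / s j ∈ K) →
    (∀ i j, (Q * l₂ * Q⁻¹).1 i j ≠ 0 → s i / s j ∈ K) → ∀ g ∈ G₀,
    ta (l₁ * l₂ * l₁⁻¹ * l₂⁻¹ * g * y).1 (fun I => (α I : ℂ)) = ta (g * y).1 fun I => (α I : ℂ)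

/-- the derivative of the action on tensors -/
def dt {ι κ : Type} [Fintype ι] [DecidableEq ι] [Fintype κ] [DecidableEq κ] (X : Matrix ι ι ℂ) :
    ((κ → ι) → ℂ) →ₗ[ℂ] ((κ → ι) → ℂ) where
  toFun w J := ∑ k, ∑ i, X (J k) i * w (Function.update J k i)
  map_add' u v := by
    funext J
    simp only [Pi.add_apply, mul_add, Finset.sum_add_distrib]
  map_smul' a v := by
    funext J
    simp only [Pi.smul_apply, smul_eq_mul, RingHom.id_apply, Finset.mul_sum]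
    exact Finset.sum_congr rfl fun _ _ => Finset.sum_congr rfl fun _ _ => by ring

/-- `t` is a one-parameter group with derivative `Z` at `0` -/
structure One {ι : Type} [Fintype ι] [DecidableEq ι] (t : ℂ → GL ι ℂ) (Z : Matrix ι ι ℂ) :
    Prop where
  add : ∀ s s', t (s + s') = t s * t s'
  der : ∀ i j, HasDerivAt (fun s => (t s).1 i j) (Z i j) 0

/-- DT: properties of `dt` -/
def SpecDt : Prop :=
  ∀ (ι κ : Type) [Fintype ι] [DecidableEq ι] [Fintype κ] [DecidableEq κ],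
    (∀ (X Y : Matrix ι ι ℂ) (a : ℂ) (w : (κ → ι) → ℂ), dt (X + a • Y) w = dt X w + a • dt Y w) ∧
    (∀ (g : GL ι ℂ) (X : Matrix ι ι ℂ) (w : (κ → ι) → ℂ),
      dt (g.1 * X * g⁻¹.1) w = ta g.1 (dt X (ta g⁻¹.1 w))) ∧
    ∀ (t : ℂ → GL ι ℂ) (Z : Matrix ι ι ℂ), One t Z →
      (∀ (w : (κ → ι) → ℂ) (J : κ → ι), HasDerivAt (fun s => ta (t s).1 w J) (dt Z w J) 0) ∧
      (∀ w : (κ → ι) → ℂ, dt Z w = 0 → ∀ s, ta (t s).1 w = w) ∧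
      ∀ U : Submodule ℂ ((κ → ι) → ℂ), (∀ s, ∀ w ∈ U, ta (t s).1 w ∈ U) → ∀ w ∈ U, dt Z w ∈ U

/-- FIX: a closed subgroup with the same Lie algebra has finite index -/
def SpecFix : Prop :=
  ∀ (ι : Type) [Fintype ι] [DecidableEq ι] (G N : Subgroup (GL ι ℂ)), Geo (G : Set (GL ι ℂ)) →
    ClosedC (N : Set (GL ι ℂ)) → (∀ X ∈ lie (G : Set (GL ι ℂ)), ∀ s, gl X s ∈ N) →
    ∃ F : Finset (GL ι ℂ), (∀ f ∈ F, f ∈ G) ∧ ∀ g ∈ G, ∃ f ∈ F, f⁻¹ * g ∈ N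

/-- CONN: a connected group has no proper closed subgroup with the same Lie algebra (from FIX) -/
def SpecConn : Prop :=
  ∀ (ι : Type) [Fintype ι] [DecidableEq ι] (G N : Subgroup (GL ι ℂ)), IsSS G →
    ClosedC (N : Set (GL ι ℂ)) → (∀ X ∈ lie (G : Set (GL ι ℂ)), ∀ s, gl X s ∈ N) → G ≤ N

/-- the centraliser of `h` in the Lie algebra of `G` -/
def cen {ι : Type} [Fintype ι] [DecidableEq ι] (G : Subgroup (GL ι ℂ))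
    (h : Submodule ℂ (Matrix ι ι ℂ)) : Submodule ℂ (Matrix ι ι ℂ) where
  carrier := {X | X ∈ lie (G : Set (GL ι ℂ)) ∧ ∀ Y ∈ h, X * Y = Y * X}
  add_mem' := by
    rintro a b ⟨ha, ha'⟩ ⟨hb, hb'⟩
    exact ⟨Submodule.add_mem _ ha hb, fun Y hY => by
      rw [Matrix.add_mul, Matrix.mul_add, ha' Y hY, hb' Y hY]⟩
  zero_mem' := ⟨Submodule.zero_mem _, fun Y _ => by rw [Matrix.zero_mul, Matrix.mul_zero]⟩
  smul_mem' := by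
    rintro t a ⟨ha, ha'⟩
    exact ⟨Submodule.smul_mem _ _ ha, fun Y hY => by
      rw [Matrix.smul_mul, Matrix.mul_smul, ha' Y hY]⟩

/-- `r` is the matrix of the conjugation by `x` in the family `e` -/
def Rho {ι : Type} [Fintype ι] [DecidableEq ι] {d : ℕ} (e : Fin d → Matrix ι ι ℂ) (x : GL ι ℂ)
    (r : Matrix (Fin d) (Fin d) ℂ) : Prop :=
  ∀ b, x.1 * e b * x⁻¹.1 = ∑ a, r a b • e a

/-- KIL: complements of ideals, and the Killing form (from CONN, DT) -/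
def SpecKil : Prop :=
  ∀ (ι : Type) [Fintype ι] [DecidableEq ι] (G : Subgroup (GL ι ℂ)), IsSS G →
    (∀ h : Submodule ℂ (Matrix ι ι ℂ), h ≤ lie (G : Set (GL ι ℂ)) → Adst G h →
      h ⊓ cen G h = ⊥ ∧ h ⊔ cen G h = lie (G : Set (GL ι ℂ))) ∧
    ∀ (d : ℕ) (e : Fin d → Matrix ι ι ℂ), LinearIndependent ℂ e →
      Submodule.span ℂ (Set.range e) ≤ lie (G : Set (GL ι ℂ)) →
      Adst G (Submodule.span ℂ (Set.range e)) →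
      ∃ κ : Matrix (Fin d) (Fin d) ℂ, κ.det ≠ 0 ∧ ∀ (x : GL ι ℂ) (r : Matrix (Fin d) (Fin d) ℂ),
        (∀ X ∈ lie (G : Set (GL ι ℂ)), x.1 * X * x⁻¹.1 ∈ lie (G : Set (GL ι ℂ))) → Rho e x r →
        rᵀ * κ * r = κ

/-- KER: an element which acts trivially on a stable subspace of a tensor space (from DT, KIL,
CONN) -/
def SpecKer : Prop :=
  ∀ (ι κ : Type) [Fintype ι] [DecidableEq ι] [Fintype κ] [DecidableEq κ]
    (G : Subgroup (GL ι ℂ)), IsSS G → ∀ U : Submodule ℂ ((κ → ι) → ℂ),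
    (∀ g ∈ G, ∀ w ∈ U, ta g.1 w ∈ U) → ∀ l ∈ G,
    (∀ h : Submodule ℂ (Matrix ι ι ℂ), h ≤ lie (G : Set (GL ι ℂ)) → h ≠ ⊥ → Adst G h →
      ∃ X ∈ h, l.1 * X ≠ X * l.1) →
    (∀ w ∈ U, ta l.1 w = w) → ∀ g ∈ G, ∀ w ∈ U, ta g.1 w = w

/-- the subspaces of the tensor powers of degree `≤ D` which are defined over `K` and stable under
`H` are stable under `G` -/
def Stab {ι : Type} [Fintype ι] [DecidableEq ι] (K : IntermediateField ℚ ℂ)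
    (H : Set (GL ι ℂ)) (G : Subgroup (GL ι ℂ)) (D : ℕ) : Prop :=
  ∀ (κ : Type) [Fintype κ] [DecidableEq κ], Fintype.card κ ≤ D →
    ∀ U : Submodule ℂ ((κ → ι) → ℂ), (∀ g ∈ H, ∀ w ∈ U, ta g.1 w ∈ U) →
      (∀ τ : ℂ ≃+* ℂ, FixesField K τ → ∀ w ∈ U, (fun J => τ (w J)) ∈ U) →
      ∀ g ∈ G, ∀ w ∈ U, ta g.1 w ∈ U

/-- ST: the result of Part B (from CORE, KER; uses CF/Pl) -/
def SpecSt : Prop :=
  ∀ (ι : Type) [Fintype ι] [DecidableEq ι] (C₀ : GL ι ℂ) (P Q : Matrix ι ι ℂ) (s : ι → ℂ)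
    (G G₀ : Subgroup (GL ι ℂ)), IsSS G → (∀ g, g ∈ G₀ ↔ C₀ * g * C₀⁻¹ ∈ G) →
    C₀.1 = P * diagonal s * Q → IsAlg P → IsAlg Q → Ncl G P s →
    ∃ δ₀ : ℕ, ∀ (D : ℕ) (K : IntermediateField ℚ ℂ), FiniteDimensional ℚ K → ∀ y : GL ι ℂ,
      (∀ K' : IntermediateField ℚ ℂ, K ≤ K' → FiniteDimensional ℚ K' →
        Module.finrank ℚ K' ≤ Module.finrank ℚ K * δ₀ →
        HasRel K' (Fintype.card ι ^ D * D) y.1 G₀) →
      ∀ R : GL ι ℂ, (∀ i j, R.1 i j ∈ K) → ∀ T, IsTorsor K T → C₀ * y * R ∈ T →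
        Stab K (grp T) G D

/-- CNT: homogeneous relations of bounded degree between `r + 2` linear combinations over `K` of
polynomials in `t` whose coefficients are algebraic over a field generated by `r` numbers (`r + 3` if
the polynomials are not constant) -/
def SpecCnt : Prop :=
  ∀ (μ : Type) [Fintype μ] (k : ℕ) (m : μ → Fin (k + 1) → ℂ) (r : ℕ) (θ : Fin r → ℂ),
    (∀ i j, IsAlgebraic (IntermediateField.adjoin ℚ (Set.range θ)) (m i j)) →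
    ∀ R : ℕ, r + (if k = 0 then 0 else 1) + 2 ≤ R →
    ∃ n : ℕ, ∀ (t : ℂ) (K : IntermediateField ℚ ℂ) (u : Fin R → μ → K),
      ∃ F : MvPolynomial (Fin R) K, F ≠ 0 ∧ F.IsHomogeneous n ∧
        MvPolynomial.aeval (fun a => ∑ i, (u a i : ℂ) * ∑ j : Fin (k + 1), m i j * t ^ (j : ℕ)) F = 0

/-- ST2: stable subspaces near a fibre (smooth or degenerate) with few periods (from CNT, COD, EXQ;
uses CF/Pl) -/
def SpecSt2 : Prop :=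
  ∀ (ι : Type) [Fintype ι] [DecidableEq ι] (C₀ : GL ι ℂ) (N : Matrix ι ι ℚ)
    (G G₀ : Subgroup (GL ι ℂ)), IsSS G → ClosedOver ⊥ (G₀ : Set (GL ι ℂ)) →
    (∀ g, g ∈ G₀ ↔ C₀ * g * C₀⁻¹ ∈ G) → IsNilpotent N → cx N ∈ lie (G₀ : Set (GL ι ℂ)) →
    Few G C₀.1 N → ∀ D : ℕ, ∃ n : ℕ, ∀ (t : ℂ) (K : IntermediateField ℚ ℂ),
      FiniteDimensional ℚ K → ∀ y : GL ι ℂ, HasRel K n y.1 G₀ →
      ∀ R : GL ι ℂ, (∀ i j, R.1 i j ∈ K) → ∀ T, IsTorsor K T →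
        C₀ * gl (cx N) t * y * R ∈ T → Stab K (grp T) G D

/-! ## Part C: the group -/

/-- the situation of Part C -/
structure Setup {ι : Type} [Fintype ι] [DecidableEq ι] (ψ : Matrix ι ι ℚ)
    (K : IntermediateField ℚ ℂ) (G H : Subgroup (GL ι ℂ)) : Prop where
  det : ψ.det ≠ 0
  ss : IsSS G
  iso : ∀ g ∈ G, g.1ᵀ * cx ψ * g.1 = cx ψ
  alg : K ≤ Qbar
  closed : ClosedOver K (H : Set (GL ι ℂ))
  norm : ∀ h ∈ H, ∀ g ∈ G, h * g * h⁻¹ ∈ G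
  sim : ∀ h ∈ H, ∃ z : ℂ, h.1ᵀ * cx ψ * h.1 = z • cx ψ

/-- BAS: subspaces defined over `K` -/
def SpecBas : Prop :=
  ∀ (ι : Type) [Fintype ι] [DecidableEq ι] (K : IntermediateField ℚ ℂ),
    (∀ A : Submodule ℂ (Matrix ι ι ℂ), (∀ τ : ℂ ≃+* ℂ, FixesField K τ → ∀ X ∈ A, X.map τ ∈ A) →
      ∃ (d : ℕ) (e : Fin d → Matrix ι ι ℂ), d ≤ Fintype.card ι ^ 2 ∧ LinearIndependent ℂ e ∧
        (∀ a i j, e a i j ∈ K) ∧ Submodule.span ℂ (Set.range e) = A) ∧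
    ∀ T : Set (GL ι ℂ), (∀ τ : ℂ ≃+* ℂ, FixesField K τ → ∀ f ∈ T, tw τ f ∈ T) →
      ∀ τ : ℂ ≃+* ℂ, FixesField K τ → ∀ X ∈ lie T, X.map τ ∈ lie T

/-- ADJ: stable subspaces of `End V` -/
def SpecAdj : Prop :=
  ∀ (ι : Type) [Fintype ι] [DecidableEq ι] (ψ : Matrix ι ι ℚ) (K : IntermediateField ℚ ℂ)
    (G H : Subgroup (GL ι ℂ)), Setup ψ K G H → Stab K H G 2 →
    ∀ A : Submodule ℂ (Matrix ι ι ℂ), Adst H A →
      (∀ τ : ℂ ≃+* ℂ, FixesField K τ → ∀ X ∈ A, X.map τ ∈ A) → Adst G A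

/-- TEN: stable subspaces of the tensor powers of a subspace of `End V` -/
def SpecTen : Prop :=
  ∀ (ι : Type) [Fintype ι] [DecidableEq ι] (ψ : Matrix ι ι ℚ) (K : IntermediateField ℚ ℂ)
    (G H : Subgroup (GL ι ℂ)), Setup ψ K G H → ∀ (m d : ℕ) (e : Fin d → Matrix ι ι ℂ),
    LinearIndependent ℂ e → (∀ a i j, e a i j ∈ K) → (∀ x ∈ H, ∃ r, Rho e x r) →
    Stab K H G (2 * m) → ∀ U : Submodule ℂ ((Fin m → Fin d) → ℂ),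
    (∀ x ∈ H, ∀ r, Rho e x r → ∀ w ∈ U, ta r w ∈ U) →
    (∀ τ : ℂ ≃+* ℂ, FixesField K τ → ∀ w ∈ U, (fun J => τ (w J)) ∈ U) →
    ∀ g ∈ G, ∀ r, Rho e g r → ∀ w ∈ U, ta r w ∈ U

/-- INV: invariant tensors (from DT, KIL, ADJ, TEN, BAS) -/
def SpecInv : Prop :=
  ∀ (ι : Type) [Fintype ι] [DecidableEq ι] (ψ : Matrix ι ι ℚ) (K : IntermediateField ℚ ℂ)
    (G H : Subgroup (GL ι ℂ)), Setup ψ K G H → ∀ (m d : ℕ) (e : Fin d → Matrix ι ι ℂ),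
    LinearIndependent ℂ e → (∀ a i j, e a i j ∈ K) →
    Submodule.span ℂ (Set.range e) ≤ lie (G : Set (GL ι ℂ)) →
    Adst G (Submodule.span ℂ (Set.range e)) → Adst H (Submodule.span ℂ (Set.range e)) →
    Stab K H G 2 → Stab K H G (2 * m) → ∀ w : (Fin m → Fin d) → ℂ,
    (∀ x ∈ H, ∀ r, Rho e x r → ta r w = w) →
    ∀ Y ∈ Submodule.span ℂ (Set.range e), ∀ s r, Rho e (gl Y s) r → ta r w = w

/-- END: a condition for the hypothesis of UNI (`κ` any non-degenerate bilinear form) -/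
def SpecEnd : Prop :=
  ∀ (d : ℕ) (κ : Matrix (Fin d) (Fin d) ℂ), κ.det ≠ 0 → ∀ Γ : Subgroup (GL (Fin d) ℂ),
    (Γ : Set (GL (Fin d) ℂ)).Finite → (∀ γ ∈ Γ, γ.1ᵀ * κ * γ.1 = κ) →
    ∀ A : Submodule ℂ (Matrix (Fin d) (Fin d) ℂ), (∀ γ ∈ Γ, ∀ X ∈ A, γ.1 * X * γ⁻¹.1 ∈ A) →
    ∀ g : GL (Fin d) ℂ, g.1ᵀ * κ * g.1 = κ →
    (∀ w : (Fin 4 → Fin d) → ℂ, (∀ γ ∈ Γ, ta γ.1 w = w) → ta g.1 w = w) →
    ∀ X ∈ A, g.1 * X * g⁻¹.1 ∈ A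

/-- UNI: a finite group of large order contains an element `z ≠ 1` which commutes with the
derivatives of all one-parameter groups preserving the same subspaces of `End V` -/
def SpecUni : Prop :=
  ∀ d : ℕ, ∃ M : ℕ, ∀ Γ : Subgroup (GL (Fin d) ℂ), (Γ : Set (GL (Fin d) ℂ)).Finite →
    M < Nat.card Γ → ∃ z ∈ Γ, z ≠ 1 ∧ ∀ (t : ℂ → GL (Fin d) ℂ) (Z : Matrix (Fin d) (Fin d) ℂ),
      One t Z →
      (∀ A : Submodule ℂ (Matrix (Fin d) (Fin d) ℂ), (∀ γ ∈ Γ, ∀ X ∈ A, γ.1 * X * γ⁻¹.1 ∈ A) →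
        ∀ s, ∀ X ∈ A, (t s).1 * X * (t s)⁻¹.1 ∈ A) → z.1 * Z = Z * z.1

/-- ORD: one-parameter groups which fix all invariant tensors of a finite group are trivial -/
def SpecOrd : Prop :=
  ∀ (d : ℕ) (Γ : Subgroup (GL (Fin d) ℂ)), (Γ : Set (GL (Fin d) ℂ)).Finite →
    ∀ (t : ℂ → GL (Fin d) ℂ) (Z : Matrix (Fin d) (Fin d) ℂ), One t Z →
    (∀ m ≤ 2 * Nat.card Γ, ∀ w : (Fin m → Fin d) → ℂ, (∀ γ ∈ Γ, ta γ.1 w = w) →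
      ∀ s, ta (t s).1 w = w) → Z = 0

/-- FG: finite groups with the same invariant tensors as a family `𝒵` of one-parameter groups
(from END, UNI, ORD) -/
def SpecFg : Prop :=
  ∀ d : ℕ, ∃ M : ℕ, ∀ (κ : Matrix (Fin d) (Fin d) ℂ) (Γ : Subgroup (GL (Fin d) ℂ))
    (𝒵 : Set ((ℂ → GL (Fin d) ℂ) × Matrix (Fin d) (Fin d) ℂ)), κ.det ≠ 0 →
    (Γ : Set (GL (Fin d) ℂ)).Finite → (∀ γ ∈ Γ, γ.1ᵀ * κ * γ.1 = κ) →
    (∀ x ∈ 𝒵, One x.1 x.2 ∧ ∀ s, (x.1 s).1ᵀ * κ * (x.1 s).1 = κ) →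
    (∀ m ≤ M, ∀ w : (Fin m → Fin d) → ℂ, (∀ γ ∈ Γ, ta γ.1 w = w) →
      ∀ x ∈ 𝒵, ∀ s, ta (x.1 s).1 w = w) →
    (∀ z ∈ Γ, (∀ x ∈ 𝒵, z.1 * x.2 = x.2 * z.1) → z = 1) → ∀ x ∈ 𝒵, x.2 = 0

/-- GT: the result of Part C (from KIL, FIX, CONN, BAS, ADJ, INV, FG) -/
def SpecGt : Prop :=
  ∀ (ι : Type) [Fintype ι] [DecidableEq ι], ∃ D : ℕ, ∀ (ψ : Matrix ι ι ℚ)
    (K : IntermediateField ℚ ℂ) (G H : Subgroup (GL ι ℂ)), Setup ψ K G H → Stab K H G D → G ≤ H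

/-! ## Part D: the theorem -/

/-- LIES: the Lie algebra of a torsor which is contained in the union of the sets `ℂˣ G τ(c)` -/
def SpecLies : Prop :=
  ∀ (ι : Type) [Fintype ι] [DecidableEq ι] (ψ : Matrix ι ι ℚ) (K : IntermediateField ℚ ℂ)
    (G : Subgroup (GL ι ℂ)) (T : Set (GL ι ℂ)) (c : GL ι ℂ), ψ.det ≠ 0 → IsSS G →
    (∀ g ∈ G, g.1ᵀ * cx ψ * g.1 = cx ψ) → K ≤ Qbar → IsTorsor K T → c ∈ T →
    (∀ f ∈ T, ∃ (z : ℂ) (g : GL ι ℂ) (τ : ℂ ≃+* ℂ), g ∈ G ∧ FixesField K τ ∧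
      f.1 = z • (g * tw τ c).1) →
    (∀ f ∈ T, ∃ z : ℂ, f.1ᵀ * cx ψ * f.1 = z • (c.1ᵀ * cx ψ * c.1)) →
    ∀ X ∈ lie T, ∃ t : ℂ, X - t • (1 : Matrix ι ι ℂ) ∈ lie (G : Set (GL ι ℂ))

/-- NRM: the torsor of the elements of `T` which normalise `G` and respect `ψ` up to scalars -/
def SpecNrm : Prop :=
  ∀ (ι : Type) [Fintype ι] [DecidableEq ι] (ψ₀ ψ : Matrix ι ι ℚ) (ϖ : ℂ) (C₀ y R : GL ι ℂ)
    (G G₀ : Subgroup (GL ι ℂ)) (L : IntermediateField ℚ ℂ) (T : Set (GL ι ℂ)), ψ.det ≠ 0 →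
    ϖ ≠ 0 → IsSS G → (∀ g ∈ G, g.1ᵀ * cx ψ * g.1 = cx ψ) →
    ClosedOver ⊥ (G₀ : Set (GL ι ℂ)) → (∀ g, g ∈ G₀ ↔ C₀ * g * C₀⁻¹ ∈ G) →
    C₀.1ᵀ * cx ψ * C₀.1 = ϖ • cx ψ₀ → (∀ τ, FixesField L τ → tw τ y * y⁻¹ ∈ G₀) →
    (∀ i j, R.1 i j ∈ L) → IsTorsor L T → C₀ * y * R ∈ T →
    ∃ T₁ ⊆ T, IsTorsor L T₁ ∧ C₀ * y * R ∈ T₁ ∧ (∀ h ∈ grp T₁, ∀ g ∈ G, h * g * h⁻¹ ∈ G) ∧
      ∀ h ∈ grp T₁, ∃ z : ℂ, h.1ᵀ * cx ψ * h.1 = z • cx ψ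

end Pool.Agent.Lib.MPf11a48.CG
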