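import Pool.Agent.Lib.MP_f11a48_ag.CG.Spec

/-!
# Families near an object with few periods: specifications
-/

set_option autoImplicit false

namespace Pool.Agent.Lib.MPf11a48.CG

open Polynomial Matrix
open scoped PowerSeries
open Pool.Agent.Lib.MPf11a48.Tors
open Pool.Agent.Lib.MPf11a48.CM hiding OmegaM
open Pool.Agent.Lib.MPf11a48.GL2T Pool.Agent.Lib.MPf11a48.GF
open Pool.Agent.Lib.MPf11a48.CF (vm ta pl)
open Pool.Agent.Lib.MPf11a48.GL2 (lie van en Geo)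
open Pool.Agent.Lib.MPf11a48.K3 (cx)
open Pool.Agent.Lib.MPf11a48.K3.KCurM (gl)

/-- COD: the group fixes a tensor whose coordinates satisfy many relations (from DT, KIL, CONN) -/
def SpecCod : Prop :=
  ∀ (ι κ : Type) [Fintype ι] [DecidableEq ι] [Fintype κ] [DecidableEq κ] (r n : ℕ)
    (K : IntermediateField ℚ ℂ) (y : GL ι ℂ) (G₀ : Subgroup (GL ι ℂ)) (α : (κ → ι) → K),
    IsSS G₀ →
    (∀ h : Submodule ℂ (Matrix ι ι ℂ), h ≤ lie (G₀ : Set (GL ι ℂ)) →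
      (∀ X ∈ h, ∀ Y ∈ h, X * Y - Y * X ∈ h) →
      Module.finrank ℂ (lie (G₀ : Set (GL ι ℂ))) ≤ Module.finrank ℂ h + r →
      h = lie (G₀ : Set (GL ι ℂ))) →
    HasRel K (n * Fintype.card κ) y.1 G₀ →
    (∀ J : Fin (r + 2) → (κ → ι), ∃ F : MvPolynomial (Fin (r + 2)) K, F ≠ 0 ∧
      F.IsHomogeneous n ∧ MvPolynomial.aeval (fun i => ta y.1 (fun I => (α I : ℂ)) (J i)) F = 0) →
    ∀ g ∈ G₀, ta (g * y).1 (fun I => (α I : ℂ)) = ta y.1 fun I => (α I : ℂ)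

end Pool.Agent.Lib.MPf11a48.CG
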