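import Pool.Agent.Lib.MP_f11a48_ag.CG.StmtP
import Pool.Agent.Lib.MP_f11a48_ag.CG.DefsA
import Pool.Agent.Lib.MP_f11a48_ag.GF.Spec

/-!
# Galochkin's condition for systems with a full matrix of solutions which are G-functions
-/

set_option autoImplicit false

namespace Pool.Agent.Lib.MPf11a48.CG

open Polynomial Matrix
open scoped PowerSeries
open Pool.Agent.Lib.MPf11a48.GF

variable {ι : Type} [Fintype ι] [DecidableEq ι]

/-- the polynomial of the system of the entries of `Y`: `q X T` -/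
noncomputable def TT (q : ℤ) (T : ℤ[X]) : ℤ[X] := C q * X * T

/-- the matrix of the system of the entries of `Y` (`N₁ = q N`) -/
noncomputable def BP (q : ℤ) (T : ℤ[X]) (B : Matrix ι ι ℤ[X]) (N₁ : Matrix ι ι ℤ) :
    Matrix (ι × ι) (ι × ι) ℤ[X] :=
  fun v w => (if v.1 = w.1 then C q * X * B v.2 w.2 else 0) -
    if v.2 = w.2 then C (N₁ v.1 w.1) * T else 0

/-- DDF: the divided derivatives of the system of the entries of `Y` -/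
def SpecDdf : Prop :=
  ∀ (ι : Type) [Fintype ι] [DecidableEq ι] (T : ℤ[X]) (B : Matrix ι ι ℤ[X]) (N : Matrix ι ι ℚ)
    (N₁ : Matrix ι ι ℤ) (q : ℤ), (∀ i j, (q : ℚ) * N i j = N₁ i j) → ∀ (m : ℕ) (k i l j : ι),
    dd (zq (TT q T)) ((BP q T B N₁).map zq) (Pi.single (k, i) 1) m (l, j) =
      C ((q : ℚ) ^ m) * ∑ x ∈ Finset.HasAntidiagonal.antidiagonal m,
        C (bn (-N) x.1 k l) * X ^ x.2 * (zq T) ^ x.1 *
          dd (zq T) (B.map zq) (Pi.single i 1) x.2 j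

/-- BNM: common denominators of the binomial coefficients of a nilpotent matrix -/
def SpecBnm : Prop :=
  ∀ (ι : Type) [Fintype ι] [DecidableEq ι] (N : Matrix ι ι ℚ), IsNilpotent N →
    ∃ C : ℕ, ∀ n : ℕ, ∃ q : ℕ, 0 < q ∧ q ≤ C ^ (n + 1) ∧ ∀ a ≤ n, ∀ i j, ∃ z : ℤ,
      (q : ℚ) * bn N a i j = z

/-- YDD: the divided derivatives of the system and the matrix of solutions -/
def SpecYdd : Prop :=
  ∀ (ι : Type) [Fintype ι] [DecidableEq ι] (T : ℤ[X]) (B : Matrix ι ι ℤ[X]) (N : Matrix ι ι ℚ)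
    (Y : Matrix ι ι ℚ⟦X⟧),
    (∀ i j, ((X * zq T : ℚ[X]) : ℚ⟦X⟧) * PowerSeries.derivative ℚ (Y i j) =
      ∑ k, ((X * zq (B j k) : ℚ[X]) : ℚ⟦X⟧) * Y i k -
        ((zq T : ℚ[X]) : ℚ⟦X⟧) * (N.map (PowerSeries.C : ℚ →+* ℚ⟦X⟧) * Y) i j) →
    ∀ (b : ℕ) (k i : ι),
      ((X ^ b : ℚ[X]) : ℚ⟦X⟧) *
        ∑ j, Y k j * ((dd (zq T) (B.map zq) (Pi.single i 1) b j : ℚ[X]) : ℚ⟦X⟧) =
      (((zq T) ^ b : ℚ[X]) : ℚ⟦X⟧) * ∑ x ∈ Finset.HasAntidiagonal.antidiagonal b,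
        ((X ^ x.2 : ℚ[X]) : ℚ⟦X⟧) * ∑ l, PowerSeries.C (bn N x.1 k l) * hs x.2 (Y l i)

/-- GAU: Gauss's lemma for common denominators: if `s f ∈ ℤ[X]` with `s ∈ ℤ[X]`, `s ≠ 0`, then
`c f ∈ ℤ[X]`, `c` the content of `s` -/
def SpecGau : Prop :=
  ∀ s : ℤ[X], s ≠ 0 → ∃ c : ℕ, 0 < c ∧ ∀ f : ℚ[X], (∃ z : ℤ[X], zq s * f = zq z) →
    ∃ z : ℤ[X], (c : ℚ[X]) * f = zq z

/-- GALY: Galochkin's condition for the system `T y' = B y` (from BNM, YDD, GAU). With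
`M := Yᵀ ψ₀ Y = Q / D`: `det Q * X ^ b * dd = (D adj(Q) Yᵀ ψ₀) * (X ^ b Y dd)`; the right hand side of
YDD has coefficients with small common denominators up to order `c b + c'`, the degree of `dd`. -/
def SpecGaly : Prop :=
  ∀ (ι : Type) [Fintype ι] [DecidableEq ι] (T : ℤ[X]) (B : Matrix ι ι ℤ[X]) (N ψ₀ : Matrix ι ι ℚ)
    (Y : Matrix ι ι ℚ⟦X⟧) (G₀ : Subgroup (GL ι ℂ)), FamP T B N ψ₀ Y G₀ → IsNilpotent N →
    ψ₀.det ≠ 0 → Y.det ≠ 0 → IsGal T B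

/-- GALX: the system of the entries of `Y` satisfies Galochkin's condition (from DDF, BNM, GALY) -/
def SpecGalx : Prop :=
  ∀ (ι : Type) [Fintype ι] [DecidableEq ι] (T : ℤ[X]) (B : Matrix ι ι ℤ[X]) (N ψ₀ : Matrix ι ι ℚ)
    (Y : Matrix ι ι ℚ⟦X⟧) (G₀ : Subgroup (GL ι ℂ)), FamP T B N ψ₀ Y G₀ → IsNilpotent N →
    ψ₀.det ≠ 0 → Y.det ≠ 0 → ∃ (T₂ : ℤ[X]) (B₂ : Matrix (ι × ι) (ι × ι) ℤ[X]),
      Fam T₂ B₂ Y G₀

end Pool.Agent.Lib.MPf11a48.CG
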