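import Pool.Agent.Lib.MP_f11a48_ag.CG.StmtA
import Pool.Agent.Lib.MP_f11a48_ag.CG.SpecP
import Pool.Agent.Lib.MP_f11a48_ag.CG.Spec

/-!
# Almost all fibres of a family: specifications
-/

set_option autoImplicit false

namespace Pool.Agent.Lib.MPf11a48.CG

open Polynomial Matrix
open scoped PowerSeries
open Pool.Agent.Lib.MPf11a48.Tors
open Pool.Agent.Lib.MPf11a48.CM hiding OmegaM
open Pool.Agent.Lib.MPf11a48.GL2T Pool.Agent.Lib.MPf11a48.GF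
open Pool.Agent.Lib.MPf11a48.CF (vm ta pl)
open Pool.Agent.Lib.MPf11a48.GL2 (lie van en Geo)
open Pool.Agent.Lib.MPf11a48.K3 (cx)
open Pool.Agent.Lib.MPf11a48.K3.KCurM (gl)

/-! ## Part A: translations -/

/-- the hypotheses on one system -/
structure FamQ {ι : Type} [Fintype ι] [DecidableEq ι] (T : ℤ[X]) (B : Matrix ι ι ℤ[X])
    (N ψ₀ : Matrix ι ι ℚ) (Y : Matrix ι ι ℚ⟦X⟧) : Prop where
  ne : T ≠ 0
  sol : ∀ i j, ((X * zq T : ℚ[X]) : ℚ⟦X⟧) * PowerSeries.derivative ℚ (Y i j) =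
    ∑ k, ((X * zq (B j k) : ℚ[X]) : ℚ⟦X⟧) * Y i k -
      ((zq T : ℚ[X]) : ℚ⟦X⟧) * (N.map (PowerSeries.C : ℚ →+* ℚ⟦X⟧) * Y) i j
  g : IsG fun v : ι × ι => Y v.1 v.2
  pol : ∃ D : ℚ[X], D ≠ 0 ∧ ∀ i j, ∃ q : ℚ[X],
    (D : ℚ⟦X⟧) * (Yᵀ * ψ₀.map (PowerSeries.C : ℚ →+* ℚ⟦X⟧) * Y) i j = (q : ℚ⟦X⟧)

/-- GALQ: the system of the entries of `Y` (from DDF, BNM, and the core of GALY) -/
def SpecGalq : Prop :=
  ∀ (ι : Type) [Fintype ι] [DecidableEq ι] (T : ℤ[X]) (B : Matrix ι ι ℤ[X]) (N ψ₀ : Matrix ι ι ℚ)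
    (Y : Matrix ι ι ℚ⟦X⟧), FamQ T B N ψ₀ Y → IsNilpotent N → ψ₀.det ≠ 0 → Y.det ≠ 0 →
    ∃ (T₂ : ℤ[X]) (B₂ : Matrix (ι × ι) (ι × ι) ℤ[X]), T₂ ≠ 0 ∧ IsGal T₂ B₂ ∧
      IsSol (zq T₂) (B₂.map zq) fun v => Y v.1 v.2

/-- TRF: the substitution of `x / (1 + m x)` -/
def SpecTrf : Prop :=
  ∀ m : ℕ,
    (∀ f g : ℚ⟦X⟧, trf m (f + g) = trf m f + trf m g ∧ trf m (f * g) = trf m f * trf m g) ∧
    (∀ q : ℚ, trf m (PowerSeries.C q) = PowerSeries.C q) ∧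
    ((1 + PowerSeries.C (m : ℚ) * PowerSeries.X) * trf m PowerSeries.X = PowerSeries.X) ∧
    (∀ f : ℚ⟦X⟧, trf m f = 0 → f = 0) ∧ (m = 0 → ∀ f : ℚ⟦X⟧, trf m f = f) ∧
    (∀ f : ℚ⟦X⟧, (1 + PowerSeries.C (m : ℚ) * PowerSeries.X) ^ 2 *
      PowerSeries.derivative ℚ (trf m f) = trf m (PowerSeries.derivative ℚ f)) ∧
    (∀ (p : ℚ[X]) (e : ℕ), p.natDegree ≤ e → ∃ q : ℚ[X],
      (1 + PowerSeries.C (m : ℚ) * PowerSeries.X) ^ e * trf m (p : ℚ⟦X⟧) = (q : ℚ⟦X⟧)) ∧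
    (∀ (p : ℤ[X]) (e : ℕ), p.natDegree ≤ e → ∃ q : ℤ[X],
      (1 + PowerSeries.C (m : ℚ) * PowerSeries.X) ^ e * trf m ((zq p : ℚ[X]) : ℚ⟦X⟧) =
        ((zq q : ℚ[X]) : ℚ⟦X⟧)) ∧
    ∀ (μ : Type) [Fintype μ] (u : μ → ℚ⟦X⟧), IsG u → (IsG fun i => trf m (u i)) ∧
      ∃ C : ℕ, ∀ a b : ℤ, a ≠ 0 → (C : ℤ) * |a| ^ C ≤ b → ∀ i,
        pval (trf m (u i)) ((a : ℂ) / b) = pval (u i) ((a : ℂ) / (b + m * a))

/-- PNM: the matrix `(1 + m x) ^ (-N)` (from BNM) -/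
def SpecPnm : Prop :=
  ∀ (ι : Type) [Fintype ι] [DecidableEq ι] (m : ℕ) (N : Matrix ι ι ℚ),
    (∀ i j, (1 + PowerSeries.C (m : ℚ) * PowerSeries.X) * PowerSeries.derivative ℚ (pm m N i j) =
      -(PowerSeries.C (m : ℚ) * (N.map (PowerSeries.C : ℚ →+* ℚ⟦X⟧) * pm m N) i j)) ∧
    N.map (PowerSeries.C : ℚ →+* ℚ⟦X⟧) * pm m N = pm m N * N.map (PowerSeries.C : ℚ →+* ℚ⟦X⟧) ∧
    (∀ ψ₀ : Matrix ι ι ℚ, Nᵀ * ψ₀ + ψ₀ * N = 0 →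
      (pm m N)ᵀ * ψ₀.map (PowerSeries.C : ℚ →+* ℚ⟦X⟧) * pm m N =
        ψ₀.map (PowerSeries.C : ℚ →+* ℚ⟦X⟧)) ∧
    (pm m N).det ≠ 0 ∧ pm 0 N = 1 ∧
    (IsNilpotent N → (IsG fun v : ι × ι => pm m N v.1 v.2) ∧
      ∀ z : ℂ, m * ‖z‖ < 1 →
        vm (pm m N) z = NormedSpace.exp (-(Complex.log (1 + m * z)) • cx N))

/-- TRQ: the translate of a family (from TRF, PNM). With `S = trf m`, `P = pm m N`:
`T' = (1 + m X) ^ (e + 2) S(T)`, `B' = (1 + m X) ^ e S(B)`. -/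
def SpecTrq : Prop :=
  ∀ (ι : Type) [Fintype ι] [DecidableEq ι] (T : ℤ[X]) (B : Matrix ι ι ℤ[X]) (N ψ₀ : Matrix ι ι ℚ)
    (Y : Matrix ι ι ℚ⟦X⟧) (m : ℕ), FamQ T B N ψ₀ Y → Nᵀ * ψ₀ + ψ₀ * N = 0 → IsNilpotent N →
    (∃ (T' : ℤ[X]) (B' : Matrix ι ι ℤ[X]), FamQ T' B' N ψ₀ (trm m N Y)) ∧
      (Y.det ≠ 0 → (trm m N Y).det ≠ 0) ∧ trm 0 N Y = Y

/-- BLK: direct sums -/
def SpecBlk : Prop :=
  ∀ (ι σ : Type) [Fintype ι] [DecidableEq ι] [Fintype σ] [DecidableEq σ] (T : σ → ℤ[X])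
    (B : σ → Matrix ι ι ℤ[X]) (N ψ₀ : Matrix ι ι ℚ) (Y : σ → Matrix ι ι ℚ⟦X⟧),
    (∀ a, FamQ (T a) (B a) N ψ₀ (Y a)) →
    ∃ (T' : ℤ[X]) (B' : Matrix (ι × σ) (ι × σ) ℤ[X]),
      FamQ T' B' (blockDiagonal fun _ : σ => N) (blockDiagonal fun _ : σ => ψ₀) (blockDiagonal Y)

/-- VAL: the values of the translate of a family (from TRF, PNM) -/
def SpecVal : Prop :=
  ∀ (ι : Type) [Fintype ι] [DecidableEq ι] (N : Matrix ι ι ℚ) (Y : Matrix ι ι ℚ⟦X⟧) (m : ℕ),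
    IsNilpotent N → (IsG fun v : ι × ι => Y v.1 v.2) →
    ∃ C : ℕ, ∀ a b : ℤ, a ≠ 0 → (C : ℤ) * |a| ^ C ≤ b →
      NormedSpace.exp (Complex.log ((a : ℂ) / (b + m * a)) • cx N) *
          vm Y ((a : ℂ) / (b + m * a)) =
        NormedSpace.exp (Complex.log ((a : ℂ) / b) • cx N) * vm (trm m N Y) ((a : ℂ) / b) ∧
      vm (trm m N Y) ((a : ℂ) / b) =
        NormedSpace.exp (-(Complex.log (1 + m * ((a : ℂ) / b))) • cx N) *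
          vm Y ((a : ℂ) / (b + m * a))

/-! ## Part B: joint relations -/

/-- the polynomial relations of degree `≤ n` over `k` between the entries of the matrices `y a` hold
for the entries of the matrices `g a * y a`, for all families `g` of elements of `G₀` -/
def HasRelT (k : Type) [Field k] [Algebra k ℂ] {ι σ : Type} [Fintype ι] [DecidableEq ι] (n : ℕ)
    (y : σ → Matrix ι ι ℂ) (G₀ : Subgroup (GL ι ℂ)) : Prop :=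
  ∀ F : MvPolynomial (σ × ι × ι) k, F.totalDegree ≤ n →
    MvPolynomial.aeval (fun p => y p.1 p.2.1 p.2.2) F = 0 →
    ∀ g : σ → GL ι ℂ, (∀ a, g a ∈ G₀) →
      MvPolynomial.aeval (fun p => ((g p.1).1 * y p.1) p.2.1 p.2.2) F = 0

/-- RELT: relations over `ℚ` between the values (from MONOD, GALQ, TRQ, BLK) -/
def SpecRelt : Prop :=
  ∀ (ι : Type) [Fintype ι] [DecidableEq ι] (T : ℤ[X]) (B : Matrix ι ι ℤ[X]) (N ψ₀ : Matrix ι ι ℚ)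
    (Y : Matrix ι ι ℚ⟦X⟧) (G₀ : Subgroup (GL ι ℂ)), FamT T B N ψ₀ Y G₀ → IsNilpotent N →
    ψ₀.det ≠ 0 → Y.det ≠ 0 → Nᵀ * ψ₀ + ψ₀ * N = 0 → ∀ (r : ℕ) (m : Fin r → ℕ),
    Function.Injective m → ∀ n : ℕ, ∃ C : ℕ, ∀ a b : ℤ, a ≠ 0 → (C : ℤ) * |a| ^ C ≤ b →
      HasRelT ℚ n (fun x => vm (trm (m x) N Y) ((a : ℂ) / b)) G₀

/-- NORMT: relations over number fields (as NORM) -/
def SpecNormt : Prop :=
  ∀ (ι σ : Type) [Fintype ι] [DecidableEq ι] [Fintype σ] [DecidableEq σ]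
    (G₀ : Subgroup (GL ι ℂ)) (r : ℕ) (p : Fin r → MvPolynomial (ι × ι) ℚ) (n δ : ℕ),
    ClosedOver ⊥ (G₀ : Set (GL ι ℂ)) →
    (∀ f g : MvPolynomial (ι × ι) ℂ, f * g ∈ van (G₀ : Set (GL ι ℂ)) →
      f ∈ van (G₀ : Set (GL ι ℂ)) ∨ g ∈ van (G₀ : Set (GL ι ℂ))) →
    (∀ z z' : GL ι ℂ, z' * z⁻¹ ∈ G₀ ↔ ∀ a, MvPolynomial.aeval (en z'.1) (p a) =
      MvPolynomial.aeval (en z.1) (p a)) →
    ∃ N : ℕ, ∀ (y : σ → GL ι ℂ) (L : IntermediateField ℚ ℂ), FiniteDimensional ℚ L →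
      Module.finrank ℚ L ≤ δ → (∀ x a, MvPolynomial.aeval (en (y x).1) (p a) ∈ L) →
      HasRelT ℚ N (fun x => (y x).1) G₀ → HasRelT L n (fun x => (y x).1) G₀

/-! ## Part C: stable subspaces -/

/-- CODA: the stabiliser of the line generated by a tensor whose coordinates satisfy many relations
(from DT; the first half of the proof of COD) -/
def SpecCoda : Prop :=
  ∀ (ι κ : Type) [Fintype ι] [DecidableEq ι] [Fintype κ] [DecidableEq κ] (r n : ℕ)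
    (K : IntermediateField ℚ ℂ) (y : GL ι ℂ) (G : Subgroup (GL ι ℂ))
    (L S : Submodule ℂ (Matrix ι ι ℂ)) (α : (κ → ι) → K),
    (∀ X ∈ L, ∀ s, gl X s ∈ G) → ta y.1 (fun I => (α I : ℂ)) ≠ 0 →
    HasRel K (n * Fintype.card κ) y.1 G →
    (∀ J : Fin (r + 2) → (κ → ι), ∃ F : MvPolynomial (Fin (r + 2)) K, F ≠ 0 ∧
      F.IsHomogeneous n ∧ MvPolynomial.aeval (fun i => ta y.1 (fun I => (α I : ℂ)) (J i)) F = 0) →
    (∀ X ∈ L, (∃ c : ℂ, dt X (ta y.1 fun I => (α I : ℂ)) = c • ta y.1 fun I => (α I : ℂ)) →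
      X ∈ S) →
    Module.finrank ℂ L ≤ Module.finrank ℂ S + r

/-- CODT: the stabilisers of the lines generated by several tensors whose coordinates satisfy many
joint relations (from CODA, applied to the block diagonal matrix of the `y a` and to the tensor
product of the tensors) -/
def SpecCodt : Prop :=
  ∀ (ι σ : Type) [Fintype ι] [DecidableEq ι] [Fintype σ] [DecidableEq σ] (q : σ → ℕ) (r n : ℕ)
    (K : IntermediateField ℚ ℂ) (y : σ → GL ι ℂ) (G₀ : Subgroup (GL ι ℂ))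
    (α : ∀ a, (Fin (q a) → ι) → K) (S : σ → Submodule ℂ (Matrix ι ι ℂ)), IsSS G₀ →
    (∀ a, ta (y a).1 (fun I => (α a I : ℂ)) ≠ 0) →
    HasRelT K (n * ∑ a, q a) (fun a => (y a).1) G₀ →
    (∀ J : Fin (r + 2) → ∀ a, Fin (q a) → ι, ∃ F : MvPolynomial (Fin (r + 2)) K, F ≠ 0 ∧
      F.IsHomogeneous n ∧
      MvPolynomial.aeval (fun i => ∏ a, ta (y a).1 (fun I => (α a I : ℂ)) (J i a)) F = 0) →
    (∀ a, ∀ X ∈ lie (G₀ : Set (GL ι ℂ)),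
      (∃ c : ℂ, dt X (ta (y a).1 fun I => (α a I : ℂ)) = c • ta (y a).1 fun I => (α a I : ℂ)) →
      X ∈ S a) →
    Fintype.card σ * Module.finrank ℂ (lie (G₀ : Set (GL ι ℂ))) ≤
      (∑ a, Module.finrank ℂ (S a)) + r

/-- LFX: a line which is stable under the Lie algebra (from DT, KIL, CONN; the second half of the
proof of COD) -/
def SpecLfx : Prop :=
  ∀ (ι κ : Type) [Fintype ι] [DecidableEq ι] [Fintype κ] [DecidableEq κ]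
    (G₀ : Subgroup (GL ι ℂ)) (b : (κ → ι) → ℂ), IsSS G₀ →
    (∀ X ∈ lie (G₀ : Set (GL ι ℂ)), ∃ c : ℂ, dt X b = c • b) → ∀ g ∈ G₀, ta g.1 b = b

/-- PLK: a stable subspace which is not stable under `G` gives a tensor which is not fixed (uses
PL; parts of the proof of ST2) -/
def SpecPlk : Prop :=
  ∀ (ι : Type) [Fintype ι] [DecidableEq ι] (K : IntermediateField ℚ ℂ) (C y R : GL ι ℂ)
    (G G₀ : Subgroup (GL ι ℂ)) (T : Set (GL ι ℂ)) (D : ℕ),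
    (∀ g, g ∈ G₀ ↔ C * g * C⁻¹ ∈ G) → (∀ i j, R.1 i j ∈ K) → IsTorsor K T → C * y * R ∈ T →
    ¬ Stab K (grp T) G D →
    ∃ (q : ℕ) (α β : (Fin q → ι) → K) (z : ℂ), q ≤ Fintype.card ι ^ D * D ∧
      ta y.1 (fun I => (α I : ℂ)) ≠ 0 ∧
      ta (C * y).1 (fun I => (α I : ℂ)) = z • (fun I => (β I : ℂ)) ∧
      ∃ g ∈ G₀, ta (g * y).1 (fun I => (α I : ℂ)) ≠ ta y.1 fun I => (α I : ℂ)

/-- STT: stable subspaces for one of `s + 1` fibres (from CNT, EXQ, CODT, LFX, PLK) -/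
def SpecStt : Prop :=
  ∀ (ι : Type) [Fintype ι] [DecidableEq ι] (C₀ : GL ι ℂ) (N : Matrix ι ι ℚ)
    (G G₀ : Subgroup (GL ι ℂ)) (s : ℕ), IsSS G → ClosedOver ⊥ (G₀ : Set (GL ι ℂ)) →
    (∀ g, g ∈ G₀ ↔ C₀ * g * C₀⁻¹ ∈ G) → IsNilpotent N → cx N ∈ lie (G₀ : Set (GL ι ℂ)) →
    FewS G C₀.1 N s → ∀ D : ℕ, ∃ n : ℕ, ∀ (t : ℂ) (K : IntermediateField ℚ ℂ),
      FiniteDimensional ℚ K → ∀ y : Fin (s + 1) → GL ι ℂ, HasRelT K n (fun a => (y a).1) G₀ →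
      ∀ (R : Fin (s + 1) → GL ι ℂ) (T : Fin (s + 1) → Set (GL ι ℂ)),
        (∀ a i j, (R a).1 i j ∈ K) → (∀ a, IsTorsor K (T a)) →
        (∀ a, C₀ * gl (cx N) t * y a * R a ∈ T a) → ∃ a, Stab K (grp (T a)) G D

/-- FEWN: the case of no condition on `C₀` -/
def SpecFewn : Prop :=
  ∀ (ι : Type) [Fintype ι] [DecidableEq ι] (C₀ : GL ι ℂ) (N : Matrix ι ι ℚ)
    (G : Subgroup (GL ι ℂ)) (s : ℕ), Fintype.card ι ^ 2 ≤ s → FewS G C₀.1 N s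

end Pool.Agent.Lib.MPf11a48.CG
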