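import Pool.Agent.Lib.MP_f11a48_ag.CG.StmtB
import Pool.Agent.Lib.MP_f11a48_ag.CG.SpecA

/-!
# Almost all fibres of a family, with the closure in bounded degree: specifications
-/

set_option autoImplicit false

namespace Pool.Agent.Lib.MPf11a48.CG

open Polynomial Matrix
open scoped PowerSeries
open Pool.Agent.Lib.MPf11a48.Tors
open Pool.Agent.Lib.MPf11a48.CM hiding OmegaM
open Pool.Agent.Lib.MPf11a48.GL2T Pool.Agent.Lib.MPf11a48.GF
open Pool.Agent.Lib.MPf11a48.CF (vm ta pl)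
open Pool.Agent.Lib.MPf11a48.GL2 (lie van en Geo)
open Pool.Agent.Lib.MPf11a48.K3 (cx)
open Pool.Agent.Lib.MPf11a48.K3.KCurM (gl)

/-- the derivative of the polynomial `F` at `y` in the direction `v` -/
noncomputable def dv {I k U : Type} [Fintype I] [CommRing k] [CommRing U] [Algebra k U]
    (F : MvPolynomial I k) (y v : I → U) : U :=
  ∑ i, MvPolynomial.aeval y (MvPolynomial.pderiv i F) * v i

/-- DEX: existence of derivations of a field of characteristic `0` (cf. helper92/Deriv.lean) -/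
def SpecDex : Prop :=
  ∀ (U : Type) [Field U] [CharZero U] (k : Subfield U) (I : Type) [Fintype I] (y v : I → U),
    (∀ F : MvPolynomial I k, MvPolynomial.aeval y F = 0 → dv F y v = 0) →
    ∃ δ : Derivation k U U, ∀ i, δ (y i) = v i

/-- ALG: the elimination of the matrix `C` (from DEX). For `x : σ × Fin d → U` with
`∑ x (a, j) δ_(a,j) (C) = 0` one has `∑_j x (a, j) dv (F a) (c a) (W j * c a) = 0` for all `a`: so
`|σ| d - |ι| ^ 2 ≤ |σ| d - |σ|`. -/
def SpecAlg : Prop :=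
  ∀ (U : Type) [Field U] [CharZero U] (k : Subfield U) (ι σ : Type) [Fintype ι] [DecidableEq ι]
    [Fintype σ] [DecidableEq σ] (d : ℕ) (X W : Fin d → Matrix ι ι U) (C : Matrix ι ι U)
    (y R Z : σ → Matrix ι ι U) (F : σ → MvPolynomial (ι × ι) k),
    Fintype.card ι ^ 2 < Fintype.card σ → (∀ a i j, R a i j ∈ k) →
    (∀ j, W j * C = C * X j) → (∀ a, Z a ∈ Submodule.span U (Set.range W)) →
    (∀ Φ : MvPolynomial (σ × ι × ι) k, MvPolynomial.aeval (fun p => y p.1 p.2.1 p.2.2) Φ = 0 →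
      ∀ a j, dv Φ (fun p => y p.1 p.2.1 p.2.2)
        (fun p => if p.1 = a then (X j * y a) p.2.1 p.2.2 else 0) = 0) →
    (∀ a, MvPolynomial.aeval (fun p : ι × ι => (C * y a * R a) p.1 p.2) (F a) = 0) →
    ∃ a, dv (F a) (fun p : ι × ι => (C * y a * R a) p.1 p.2)
      (fun p => (Z a * (C * y a * R a)) p.1 p.2) = 0

/-- ULT: the elimination of `C` in bounded degree (from ALG, in the ultraproduct
`Filter.Germ (hyperfilter ℕ) ℂ` of a sequence of counterexamples; `Geo G₀` gives `gl X s ∈ G₀`) -/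
def SpecUlt : Prop :=
  ∀ (ι σ : Type) [Fintype ι] [DecidableEq ι] [Fintype σ] [DecidableEq σ]
    (G G₀ : Subgroup (GL ι ℂ)) (D : ℕ), Fintype.card ι ^ 2 < Fintype.card σ →
    Geo (G₀ : Set (GL ι ℂ)) →
    ∃ n : ℕ, ∀ (K : IntermediateField ℚ ℂ) (C : GL ι ℂ) (y R : σ → GL ι ℂ)
      (F : σ → MvPolynomial (ι × ι) K) (Z : σ → Matrix ι ι ℂ),
      (∀ g, g ∈ G₀ ↔ C * g * C⁻¹ ∈ G) → (∀ a i j, (R a).1 i j ∈ K) →
      HasRelT K n (fun a => (y a).1) G₀ → (∀ a, (F a).totalDegree ≤ D) →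
      (∀ a, MvPolynomial.aeval (fun p : ι × ι => (C * y a * R a).1 p.1 p.2) (F a) = 0) →
      (∀ a, Z a ∈ lie (G : Set (GL ι ℂ))) →
      ∃ a, dv (F a) (fun p : ι × ι => (C * y a * R a).1 p.1 p.2)
        (fun p => (Z a * (C * y a * R a).1) p.1 p.2) = 0

/-- EXC: a polynomial relation which does not hold on the orbit gives a relation whose derivative
along the orbit does not vanish (from BAS, CONN, DT-style one-parameter groups) -/
def SpecExc : Prop :=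
  ∀ (ι : Type) [Fintype ι] [DecidableEq ι] (G : Subgroup (GL ι ℂ)) (K : IntermediateField ℚ ℂ)
    (c : GL ι ℂ) (F : MvPolynomial (ι × ι) K), IsSS G →
    MvPolynomial.aeval (fun p : ι × ι => c.1 p.1 p.2) F = 0 →
    (∃ g ∈ G, MvPolynomial.aeval (fun p : ι × ι => (g * c).1 p.1 p.2) F ≠ 0) →
    ∃ F' : MvPolynomial (ι × ι) K, F'.totalDegree ≤ F.totalDegree ∧
      MvPolynomial.aeval (fun p : ι × ι => c.1 p.1 p.2) F' = 0 ∧
      ∃ Z ∈ lie (G : Set (GL ι ℂ)),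
        dv F' (fun p : ι × ι => c.1 p.1 p.2) (fun p => (Z * c.1) p.1 p.2) ≠ 0

/-- PLF: a stable subspace which is not stable under `G` gives a polynomial relation which does not
hold on the orbit (from PLK, LFX, DT). With `α' = ta R⁻¹ α`:
`F f = (ta f α') J * β J' - (ta f α') J' * β J`. -/
def SpecPlf : Prop :=
  ∀ (ι : Type) [Fintype ι] [DecidableEq ι] (K : IntermediateField ℚ ℂ) (C y R : GL ι ℂ)
    (G G₀ : Subgroup (GL ι ℂ)) (T : Set (GL ι ℂ)) (D : ℕ), IsSS G₀ →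
    (∀ g, g ∈ G₀ ↔ C * g * C⁻¹ ∈ G) → (∀ i j, R.1 i j ∈ K) → IsTorsor K T → C * y * R ∈ T →
    ¬ Stab K (grp T) G D →
    ∃ F : MvPolynomial (ι × ι) K, F.totalDegree ≤ Fintype.card ι ^ D * D ∧
      MvPolynomial.aeval (fun p : ι × ι => (C * y * R).1 p.1 p.2) F = 0 ∧
      ∃ g ∈ G, MvPolynomial.aeval (fun p : ι × ι => (g * (C * y * R)).1 p.1 p.2) F ≠ 0

/-- ZAR: from the orbit of `G` to the torsor. For a derivation `δ` of `ℂ` over `Qbar` with
`δ((2 π i) ^ w) ≠ 0` one has `δ(c) c⁻¹ = t + Y`, `t ≠ 0`, `Y ∈ lie G`; apply `δ` to `F(g c) = 0`: the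
homogeneous components of `F` vanish on `G c`. -/
def SpecZar : Prop :=
  ∀ (ι : Type) [Fintype ι] [DecidableEq ι] (ψ : Matrix ι ι ℚ) (K : IntermediateField ℚ ℂ)
    (G : Subgroup (GL ι ℂ)) (c : GL ι ℂ) (ψdR : Matrix ι ι K) (w : ℤ) (F : MvPolynomial (ι × ι) K),
    K ≤ Qbar → IsSS G → (∀ g ∈ G, g.1ᵀ * cx ψ * g.1 = cx ψ) → w ≠ 0 → Polarised w c ψdR ψ →
    (∀ X ∈ lie (Tors.OmegaM K c), ∃ t : ℂ,
      X - t • (1 : Matrix ι ι ℂ) ∈ lie (G : Set (GL ι ℂ))) →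
    (∀ g ∈ G, MvPolynomial.aeval (fun p : ι × ι => (g * c).1 p.1 p.2) F = 0) →
    ∀ (z : ℂ) (g : GL ι ℂ) (τ : ℂ ≃+* ℂ), g ∈ G → FixesField K τ →
      MvPolynomial.aeval (fun p : ι × ι => (z • (g * tw τ c).1) p.1 p.2) F = 0

end Pool.Agent.Lib.MPf11a48.CG
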