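import Pool.Agent.Lib.MP_f11a48_ag.CG.StmtJ
import Pool.Agent.Lib.MP_f11a48_ag.CG.SpecB

/-!
# Sums of fibres of a family: specifications
-/

set_option autoImplicit false

namespace Pool.Agent.Lib.MPf11a48.CG

open Polynomial Matrix
open scoped PowerSeries
open Pool.Agent.Lib.MPf11a48.Tors
open Pool.Agent.Lib.MPf11a48.CM hiding OmegaM
open Pool.Agent.Lib.MPf11a48.GL2T Pool.Agent.Lib.MPf11a48.GF
open Pool.Agent.Lib.MPf11a48.CF (vm ta pl)
open Pool.Agent.Lib.MPf11a48.GL2 (lie van en Geo)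
open Pool.Agent.Lib.MPf11a48.K3 (cx)
open Pool.Agent.Lib.MPf11a48.K3.KCurM (gl)

/-- ALGJ: the elimination of the matrix `C` (from DEX). Let `δ_(a,j)` be a derivation of `U` over `k`
with `δ (y a) = X j * y a`, `δ (y b) = 0` for `b ≠ a` (DEX). Let `B` be a maximal linearly
independent set of the columns `(δ_(a,j) (θ i))_i` in `U ^ r` and `E` the set of the `a` with
`(a, j) ∈ B` for some `j`. For `Z a = ∑_j z (a, j) W j`, `a ∉ E`, there are `x (a, j)` with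
`x (a, j) = z (a, j)` for `a ∉ E` and `∑ x (a, j) δ_(a,j) (θ i) = 0` for all `i`; `δ = ∑ x (a, j) δ_(a,j)`
has `δ C = 0` and `δ (C * y a) = Z a * (C * y a)` for `a ∉ E`. -/
def SpecAlgJ : Prop :=
  ∀ (U : Type) [Field U] [CharZero U] (k : Subfield U) (ι σ : Type) [Fintype ι] [DecidableEq ι]
    [Fintype σ] [DecidableEq σ] (d r : ℕ) (X W : Fin d → Matrix ι ι U) (C : Matrix ι ι U)
    (θ : Fin r → U) (y : σ → Matrix ι ι U), (∀ j, W j * C = C * X j) →
    (∀ δ : Derivation k U U, (∀ i, δ (θ i) = 0) → ∀ i j, δ (C i j) = 0) →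
    (∀ Φ : MvPolynomial (σ × ι × ι) k, MvPolynomial.aeval (fun p => y p.1 p.2.1 p.2.2) Φ = 0 →
      ∀ a j, dv Φ (fun p => y p.1 p.2.1 p.2.2)
        (fun p => if p.1 = a then (X j * y a) p.2.1 p.2.2 else 0) = 0) →
    ∃ E : Finset σ, E.card ≤ r ∧
      ∀ Z : σ → Matrix ι ι U, (∀ a, Z a ∈ Submodule.span U (Set.range W)) →
        ∃ δ : Derivation k U U, (∀ i j, δ (C i j) = 0) ∧
          ∀ a, a ∉ E → ∀ i j, δ ((C * y a) i j) = (Z a * (C * y a)) i j

/-- ULTJ: the elimination of `C` in bounded degree (from ALGJ, in the ultraproduct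
`Filter.Germ (hyperfilter ℕ) ℂ` of a sequence of counterexamples: for every `n` and every `E` with at
most `s` elements there are `F`, `Z`). In the case `TrS` the derivations which kill the germs of the
constants `θ i` and the germ of the `t`'s kill the entries of `C = C₀ * exp (t N)`. -/
def SpecUltJ : Prop :=
  ∀ (ι σ : Type) [Fintype ι] [DecidableEq ι] [Fintype σ] [DecidableEq σ] (C₀ : GL ι ℂ)
    (N : Matrix ι ι ℚ) (G G₀ : Subgroup (GL ι ℂ)) (D s : ℕ),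
    (Fintype.card ι ^ 2 ≤ s ∨ TrS C₀.1 N s) → IsNilpotent N → Geo (G₀ : Set (GL ι ℂ)) →
    ∃ n : ℕ, ∀ (t : ℂ) (K : IntermediateField ℚ ℂ) (y : σ → GL ι ℂ),
      (∀ g, g ∈ G₀ ↔ C₀ * gl (cx N) t * g * (C₀ * gl (cx N) t)⁻¹ ∈ G) →
      HasRelT K n (fun a => (y a).1) G₀ →
      ∃ E : Finset σ, E.card ≤ s ∧
        ∀ (F : MvPolynomial (σ × ι × ι) K) (Z : σ → Matrix ι ι ℂ), F.totalDegree ≤ D →
          (∀ p ∈ F.vars, p.1 ∉ E) → (∀ a, Z a ∈ lie (G : Set (GL ι ℂ))) →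
          MvPolynomial.aeval (fun p => (C₀ * gl (cx N) t * y p.1).1 p.2.1 p.2.2) F = 0 →
          dv F (fun p => (C₀ * gl (cx N) t * y p.1).1 p.2.1 p.2.2)
            (fun p => (Z p.1 * (C₀ * gl (cx N) t * y p.1).1) p.2.1 p.2.2) = 0

/-- BSS: the group of block diagonal matrices is connected and semisimple, its Lie algebra is the
space of the block diagonal matrices with blocks in the Lie algebra of `G` -/
def SpecBss : Prop :=
  ∀ (ι : Type) [Fintype ι] [DecidableEq ι] (G : Subgroup (GL ι ℂ)) (r : ℕ), IsSS G →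
    IsSS (bd G r) ∧ ∀ Z : Matrix (ι × Fin r) (ι × Fin r) ℂ,
      Z ∈ lie (bd G r : Set (GL (ι × Fin r) ℂ)) ↔
        ∃ X : Fin r → Matrix ι ι ℂ, (∀ i, X i ∈ lie (G : Set (GL ι ℂ))) ∧ Z = blockDiagonal X

/-- BCL: the group of block diagonal matrices is closed -/
def SpecBcl : Prop :=
  ∀ (ι : Type) [Fintype ι] [DecidableEq ι] (G : Subgroup (GL ι ℂ)) (r : ℕ),
    ClosedOver ⊥ (G : Set (GL ι ℂ)) → ClosedOver ⊥ (bd G r : Set (GL (ι × Fin r) ℂ))

/-- TR1: the case of one block: transport along `ι × Fin 1 = ι` (only the definition of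
`Tors.OmegaM` by torsors and closed sets is used) -/
def SpecTr1 : Prop :=
  ∀ (ι : Type) [Fintype ι] [DecidableEq ι] (G : Subgroup (GL ι ℂ)) (K : IntermediateField ℚ ℂ)
    (c : GL (ι × Fin 1) ℂ),
    (∀ c' : GL ι ℂ, (∀ i j, c'.1 i j = c.1 (i, 0) (j, 0)) → ∀ g ∈ G, g * c' ∈ Tors.OmegaM K c') →
    ∀ g ∈ bd G 1, g * c ∈ Tors.OmegaM K c

end Pool.Agent.Lib.MPf11a48.CG
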