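import Pool.Agent.Lib.MP_f11a48_ag.CG.StmtK
import Pool.Agent.Lib.MP_f11a48_ag.CG.MainJ0

/-!
# Sums of fibres of a family and their forms: specifications
-/

set_option autoImplicit false

namespace Pool.Agent.Lib.MPf11a48.CG

open Polynomial Matrix
open scoped PowerSeries
open Pool.Agent.Lib.MPf11a48.Tors
open Pool.Agent.Lib.MPf11a48.CM hiding OmegaM
open Pool.Agent.Lib.MPf11a48.GL2T Pool.Agent.Lib.MPf11a48.GF
open Pool.Agent.Lib.MPf11a48.CF (vm ta pl)
open Pool.Agent.Lib.MPf11a48.GL2 (lie van en Geo)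
open Pool.Agent.Lib.MPf11a48.K3 (cx)
open Pool.Agent.Lib.MPf11a48.K3.KCurM (gl)
open Pool.Agent.Lib.MPf11a48.CG.MainJM (bl)

/-! ## The interface between the arithmetic part and the rest -/

/-- The arithmetic of a family with period matrices `C₀ * Pf(z)` near `z = 0`: for all `n`, `δ`
there are `C` and `δ'` such that for `ξ = a / b`, `C |a| ^ C ≤ b` and every number field `L₀` of degree
`≤ δ` there are a number field `L ⊇ L₀` of degree `≤ δ'`, a number `t` and matrices `y x`, `x < k`,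
with `Pf(a / (b + x a)) = exp(t N) y x`, such that the fields of definition of the cosets `G₀ (y x)` are
contained in `L` and the joint polynomial relations of degree `≤ n` over extensions `L'` of `L` with
`[L' : L] ≤ δ` between the entries of the `y x` are trivial. -/
def Arik {ι : Type} [Fintype ι] [DecidableEq ι] (k : ℕ) (G₀ : Subgroup (GL ι ℂ))
    (N : Matrix ι ι ℚ) (Pf : ℂ → Matrix ι ι ℂ) : Prop :=
  ∀ n δ : ℕ, ∃ C δ' : ℕ, ∀ a b : ℤ, a ≠ 0 → (C : ℤ) * |a| ^ C ≤ b →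
    ∀ L₀ : IntermediateField ℚ ℂ, FiniteDimensional ℚ L₀ → Module.finrank ℚ L₀ ≤ δ →
      ∃ L : IntermediateField ℚ ℂ, L₀ ≤ L ∧ FiniteDimensional ℚ L ∧ Module.finrank ℚ L ≤ δ' ∧
        ∃ (t : ℂ) (y : Fin k → GL ι ℂ),
          (∀ x : Fin k, Pf ((a : ℂ) / (b + (x : ℕ) * a)) = NormedSpace.exp (t • cx N) * (y x).1) ∧
          (∀ x τ, FixesField L τ → tw τ (y x) * (y x)⁻¹ ∈ G₀) ∧
          ∀ L' : IntermediateField ℚ ℂ, L ≤ L' → FiniteDimensional ℚ L' →
            Module.finrank ℚ L' ≤ Module.finrank ℚ L * δ → HasRelT L' n (fun x => (y x).1) G₀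

/-- The arithmetic of a family, for all `k`. -/
def Ari {ι : Type} [Fintype ι] [DecidableEq ι] (G₀ : Subgroup (GL ι ℂ)) (N : Matrix ι ι ℚ)
    (Pf : ℂ → Matrix ι ι ℂ) : Prop :=
  ∀ k : ℕ, Arik k G₀ N Pf

/-! ## Stable subspaces for sums of fibres -/

/-- The stable subspaces for all sums of all but `s` fibres: see `SpecSttj`. -/
def Exj {ι : Type} [Fintype ι] [DecidableEq ι] (C₀ : GL ι ℂ) (N : Matrix ι ι ℚ)
    (G G₀ : Subgroup (GL ι ℂ)) (s k : ℕ) (D : ℕ → ℕ) : Prop :=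
  ∃ n δ₀ : ℕ, ∀ (t : ℂ) (K : IntermediateField ℚ ℂ), FiniteDimensional ℚ K →
    ∀ y : Fin k → GL ι ℂ, (∀ L : IntermediateField ℚ ℂ, K ≤ L → FiniteDimensional ℚ L →
      Module.finrank ℚ L ≤ Module.finrank ℚ K * δ₀ → HasRelT L n (fun a => (y a).1) G₀) →
    ∃ E : Finset (Fin k), E.card ≤ s ∧ ∀ (r : ℕ) (m : Fin r → Fin k), Function.Injective m →
      (∀ i, m i ∉ E) → ∀ (R : GL (ι × Fin r) ℂ) (T : Set (GL (ι × Fin r) ℂ)),
        (∀ i j, R.1 i j ∈ K) → IsTorsor K T → bl (fun i => C₀ * gl (cx N) t * y (m i)) * R ∈ T →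
        Stab K (grp T) (bd G r) (D r)

/-- SUBJ: subalgebras `h` of small codimension of `g ^ k`. Let `h_i` be the set of the elements of `h`
whose components `< i` are `0` and `p_i` the set of the `i`-th components of the elements of `h_i`:
subalgebras of `g` with `∑ (dim g - dim p_i) ≤ r`. `E` is the set of the `i` with `p_i ≠ g`. -/
def SpecSubj : Prop :=
  ∀ (ι : Type) [Fintype ι] [DecidableEq ι] (k s r : ℕ) (g : Submodule ℂ (Matrix ι ι ℂ))
    (h : Submodule ℂ (Fin k → Matrix ι ι ℂ)), (∀ X ∈ h, ∀ a, X a ∈ g) →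
    (∀ X ∈ h, ∀ Y ∈ h, (fun a => X a * Y a - Y a * X a) ∈ h) →
    (∀ h' : Submodule ℂ (Matrix ι ι ℂ), h' ≤ g →
      (∀ X ∈ h', ∀ Y ∈ h', X * Y - Y * X ∈ h') → h' ≠ g →
      (s + 1) * Module.finrank ℂ h' + r < (s + 1) * Module.finrank ℂ g) →
    k * Module.finrank ℂ g ≤ Module.finrank ℂ h + r →
    ∃ E : Finset (Fin k), E.card ≤ s ∧ ∀ X : Fin k → Matrix ι ι ℂ, (∀ a, X a ∈ g) →
      ∃ Y ∈ h, ∀ a, a ∉ E → Y a = X a

/-- RELB: joint relations between the entries of matrices `y a` are relations between the entries of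
block diagonal matrices -/
def SpecRelb : Prop :=
  ∀ (ι σ : Type) [Fintype ι] [DecidableEq ι] [Fintype σ] [DecidableEq σ]
    (K : IntermediateField ℚ ℂ) (n r : ℕ) (y : σ → GL ι ℂ) (G₀ : Subgroup (GL ι ℂ)) (m : Fin r → σ),
    Function.Injective m → HasRelT K n (fun a => (y a).1) G₀ →
    HasRel K n (bl fun i => y (m i)).1 (bd G₀ r)

/-- NCLB: the condition on the automorphisms for block diagonal matrices. If `h ≠ 0` is stable under
`G ^ r`, take `X ∈ h`, `X a ≠ 0`: there is `g ∈ G` with `g X a g⁻¹ ≠ X a` (otherwise the line of `X a` is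
commutative and stable); so `h` contains a matrix `≠ 0` with only one block `≠ 0`, and the set of the
`Z ∈ lie G` which, placed in the block `a`, are in `h` is stable under `G`. -/
def SpecNclb : Prop :=
  ∀ (ι : Type) [Fintype ι] [DecidableEq ι] (G : Subgroup (GL ι ℂ)) (P : Matrix ι ι ℂ) (s : ι → ℂ)
    (r : ℕ), IsSS G → P.det ≠ 0 → Ncl G P s →
    Ncl (bd G r) (blockDiagonal fun _ : Fin r => P) fun p : ι × Fin r => s p.1

/-- STTJ: stable subspaces for all sums of all but `s` fibres, few periods (from CNT, EXQ, CODA, LFX,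
PLK, BSS, RELB, SUBJ; `δ₀ = 1`). Assume that for every `E` there are `r`, `m`, `R`, `T` such that the
conclusion is false. PLK (for `ι × Fin r`, `bl C₁`, `bl (y ∘ m)`, `bd G r`) gives a tensor `b_E` whose
line is not stable under `lie (bd G₀ r)` (LFX). Extend `b_E` by `0` to a tensor on `ι × Fin k` and let
`b` be the product of the `b_E` for all `E` with `|E| ≤ s`: its coordinates are, up to a common scalar,
polynomials over `K` in the entries of `C₁⁻¹`, so CODA (for `bd G₀ k` and `bl y`) bounds the codimension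
of the stabiliser `h` of the line of `b` by `r₀ + [N ≠ 0]`; `h` is the intersection of the stabilisers of
the lines of the `b_E`. Let `E` be the set of SUBJ for `h`: the stabiliser of the line of `b_E` contains
`lie (bd G₀ r)`, contradiction. -/
def SpecSttj : Prop :=
  ∀ (ι : Type) [Fintype ι] [DecidableEq ι] (C₀ : GL ι ℂ) (N : Matrix ι ι ℚ)
    (G G₀ : Subgroup (GL ι ℂ)) (s : ℕ), IsSS G → ClosedOver ⊥ (G₀ : Set (GL ι ℂ)) →
    (∀ g, g ∈ G₀ ↔ C₀ * g * C₀⁻¹ ∈ G) → IsNilpotent N → cx N ∈ lie (G₀ : Set (GL ι ℂ)) →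
    FewS G C₀.1 N s → ∀ (k : ℕ) (D : ℕ → ℕ), Exj C₀ N G G₀ s k D

/-- STNJ: stable subspaces for all sums of fibres near a fibre with many automorphisms (from ST, NCLB,
RELB, BSS; `E = ∅`) -/
def SpecStnj : Prop :=
  ∀ (ι : Type) [Fintype ι] [DecidableEq ι] (C₀ : GL ι ℂ) (G G₀ : Subgroup (GL ι ℂ))
    (P Q : Matrix ι ι ℂ) (d : ι → ℂ), IsSS G →
    (∀ g, g ∈ G₀ ↔ C₀ * g * C₀⁻¹ ∈ G) → C₀.1 = P * diagonal d * Q → IsAlg P → IsAlg Q →
    Ncl G P d → ∀ (s k : ℕ) (D : ℕ → ℕ), Exj C₀ 0 G G₀ s k D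

end Pool.Agent.Lib.MPf11a48.CG
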