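import Pool.Agent.Lib.MP_f11a48_ag.CG.StmtL
import Pool.Agent.Lib.MP_f11a48_ag.CG.SpecK
import Pool.Agent.Lib.MP_f11a48_ag.CG.Rel

/-!
# Families with arbitrary local monodromy: specifications

`M = xp e l N = Λ + N`. Only the arithmetic part changes: the result is `Ari G₀ N Pf` for
`Pf z = exp (log z M) Y(z)`.
-/

set_option autoImplicit false

namespace Pool.Agent.Lib.MPf11a48.CG

open Polynomial Matrix
open scoped PowerSeries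
open Pool.Agent.Lib.MPf11a48.Tors
open Pool.Agent.Lib.MPf11a48.CM hiding OmegaM
open Pool.Agent.Lib.MPf11a48.GL2T Pool.Agent.Lib.MPf11a48.GF
open Pool.Agent.Lib.MPf11a48.CF (vm ta pl)
open Pool.Agent.Lib.MPf11a48.GL2 (lie van en Geo)
open Pool.Agent.Lib.MPf11a48.K3 (cx)
open Pool.Agent.Lib.MPf11a48.CG.RelM (SmC cval)
open Pool.Agent.Lib.MPf11a48.GF.EstM (Sm)

/-! ## Part 1: the matrix `M` -/

/-- common denominators of the binomial coefficients of a matrix -/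
def Bnd {ι : Type} [Fintype ι] [DecidableEq ι] (M : Matrix ι ι ℚ) : Prop :=
  ∃ C : ℕ, ∀ n : ℕ, ∃ q : ℕ, 0 < q ∧ q ≤ C ^ (n + 1) ∧ ∀ a ≤ n, ∀ i j, ∃ z : ℤ,
    (q : ℚ) * bn M a i j = z

/-- PMS: `(1 + m x) ^ (-(A + B))` for commuting matrices (from `PnmM.eq_pm`, Pnm.lean; both sides
satisfy the same differential equation, `PnmM.pm_dM`, `PnmM.dM_mul`, `PnmM.pm_comm`). The second
statement is the coefficient of `x ^ a` of the first one for `m = 1`, `-A`, `-B`. -/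
def SpecPms : Prop :=
  ∀ (ι : Type) [Fintype ι] [DecidableEq ι] (A B : Matrix ι ι ℚ), A * B = B * A →
    (∀ m : ℕ, pm m (A + B) = pm m A * pm m B) ∧
    ∀ a : ℕ, bn (A + B) a = ∑ x ∈ Finset.HasAntidiagonal.antidiagonal a, bn A x.1 * bn B x.2

/-- BND: common denominators of the binomial coefficients of `M` and `-M` (from BNM, PMS). For a
rational number `p / e` the number `e ^ (2 a) * binom(p / e, a) = e ^ a (∏ (p - e k)) / a !` is an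
integer: let `a ! = A B`, `A` prime to `e`, `B ∣ e ^ a`; `A` divides `∏_(k < a) (p - e k)` because
`e` is invertible modulo `A` (compare with `e ^ a ∏ (p' - k)`, `p' e ≡ p` modulo `A`, and
`a ! ∣ ∏ (p' - k)`); `B ∣ e ^ a` because `v_ℓ(a !) ≤ a` for all primes `ℓ`. -/
def SpecBnd : Prop :=
  ∀ (ι : Type) [Fintype ι] [DecidableEq ι] (e : ℕ) (l : ι → ℕ) (N : Matrix ι ι ℚ), e ≠ 0 →
    (∀ i j, N i j ≠ 0 → l i = l j) → IsNilpotent N → Bnd (xp e l N) ∧ Bnd (-xp e l N)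

/-- PNL: the matrix `(1 + m x) ^ (-M)` consists of G-functions (cf. `PnmM.isG`; this uses only
`Bnd (-M)`), and its values (from PMS, the nilpotent case `PnmM.val`, and the binomial series
`Complex.one_add_cpow_hasFPowerSeriesOnBall_zero` for the diagonal matrix `Λ`) -/
def SpecPnl : Prop :=
  ∀ (ι : Type) [Fintype ι] [DecidableEq ι] (e : ℕ) (l : ι → ℕ) (N : Matrix ι ι ℚ), e ≠ 0 →
    (∀ i j, N i j ≠ 0 → l i = l j) → IsNilpotent N → ∀ m : ℕ,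
    (IsG fun v : ι × ι => pm m (xp e l N) v.1 v.2) ∧
      ∀ z : ℂ, m * ‖z‖ < 1 →
        vm (pm m (xp e l N)) z = NormedSpace.exp (-(Complex.log (1 + m * z)) • cx (xp e l N))

/-- PSI: the form. Here `(1 + m x) ^ (-Λ)` is a diagonal matrix; entries with
`l i + l j = e c` of both sides have the factors `(1 + m x) ^ (-c) x ^ c`; `N` is skew for
`psx e l ψ₀`. The determinant of `psx e l ψ₀` becomes `u ^ (2 ∑ l i) det ψ₀` for `x = u ^ e`. -/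
def SpecPsi : Prop :=
  ∀ (ι : Type) [Fintype ι] [DecidableEq ι] (e : ℕ) (l : ι → ℕ) (N ψ₀ : Matrix ι ι ℚ), e ≠ 0 →
    (∀ i j, N i j ≠ 0 → l i = l j) → (∀ i j, ψ₀ i j ≠ 0 → e ∣ l i + l j) →
    (Nᵀ * ψ₀ + ψ₀ * N = 0 → ∀ m : ℕ,
      (pm m (xp e l N))ᵀ * (psx e l ψ₀).map (fun p : ℚ[X] => (p : ℚ⟦X⟧)) * pm m (xp e l N) =
        (psx e l ψ₀).map fun p : ℚ[X] => trf m (p : ℚ⟦X⟧)) ∧
    (ψ₀.det ≠ 0 → (psx e l ψ₀).det ≠ 0)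

/-! ## Part 2: systems -/

/-- the hypotheses on one system -/
structure FamM {ι : Type} [Fintype ι] [DecidableEq ι] (T : ℤ[X]) (B : Matrix ι ι ℤ[X])
    (M : Matrix ι ι ℚ) (Ψ : Matrix ι ι ℚ[X]) (Y : Matrix ι ι ℚ⟦X⟧) : Prop where
  ne : T ≠ 0
  sol : ∀ i j, ((X * zq T : ℚ[X]) : ℚ⟦X⟧) * PowerSeries.derivative ℚ (Y i j) =
    ∑ k, ((X * zq (B j k) : ℚ[X]) : ℚ⟦X⟧) * Y i k -
      ((zq T : ℚ[X]) : ℚ⟦X⟧) * (M.map (PowerSeries.C : ℚ →+* ℚ⟦X⟧) * Y) i j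
  g : IsG fun v : ι × ι => Y v.1 v.2
  pol : ∃ D : ℚ[X], D ≠ 0 ∧ ∀ i j, ∃ q : ℚ[X],
    (D : ℚ⟦X⟧) * (Yᵀ * Ψ.map (fun p : ℚ[X] => (p : ℚ⟦X⟧)) * Y) i j = (q : ℚ⟦X⟧)

/-- GALM: the system of the entries of `Y` satisfies Galochkin's condition (as GALY, GALX, GALQ:
`GalyM.core` with `Bnd M` instead of BNM and `Ψ` instead of `ψ₀`, `GalxM.gal` with `Bnd (-M)`) -/
def SpecGalm : Prop :=
  ∀ (ι : Type) [Fintype ι] [DecidableEq ι] (T : ℤ[X]) (B : Matrix ι ι ℤ[X]) (M : Matrix ι ι ℚ)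
    (Ψ : Matrix ι ι ℚ[X]) (Y : Matrix ι ι ℚ⟦X⟧), FamM T B M Ψ Y → Bnd M → Bnd (-M) →
    Ψ.det ≠ 0 → Y.det ≠ 0 →
    ∃ (T₂ : ℤ[X]) (B₂ : Matrix (ι × ι) (ι × ι) ℤ[X]), T₂ ≠ 0 ∧ IsGal T₂ B₂ ∧
      IsSol (zq T₂) (B₂.map zq) fun v => Y v.1 v.2

/-- TRM: the translate of a family (as TRQ; `TrqM.key` can be used) -/
def SpecTrm : Prop :=
  ∀ (ι : Type) [Fintype ι] [DecidableEq ι] (T : ℤ[X]) (B : Matrix ι ι ℤ[X]) (M : Matrix ι ι ℚ)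
    (Ψ : Matrix ι ι ℚ[X]) (Y : Matrix ι ι ℚ⟦X⟧) (m : ℕ), FamM T B M Ψ Y →
    (IsG fun v : ι × ι => pm m M v.1 v.2) →
    ((pm m M)ᵀ * Ψ.map (fun p : ℚ[X] => (p : ℚ⟦X⟧)) * pm m M =
      Ψ.map fun p : ℚ[X] => trf m (p : ℚ⟦X⟧)) →
    (∃ (T' : ℤ[X]) (B' : Matrix ι ι ℤ[X]), FamM T' B' M Ψ (trm m M Y)) ∧
      (Y.det ≠ 0 → (trm m M Y).det ≠ 0)

/-- BLM: direct sums (as BLK) -/
def SpecBlm : Prop :=
  ∀ (ι σ : Type) [Fintype ι] [DecidableEq ι] [Fintype σ] [DecidableEq σ] (T : σ → ℤ[X])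
    (B : σ → Matrix ι ι ℤ[X]) (M : Matrix ι ι ℚ) (Ψ : Matrix ι ι ℚ[X])
    (Y : σ → Matrix ι ι ℚ⟦X⟧), (∀ a, FamM (T a) (B a) M Ψ (Y a)) →
    ∃ (T' : ℤ[X]) (B' : Matrix (ι × σ) (ι × σ) ℤ[X]),
      FamM T' B' (blockDiagonal fun _ : σ => M) (blockDiagonal fun _ : σ => Ψ) (blockDiagonal Y)

/-- VALM: the values of the translate of a family (as VAL) -/
def SpecValm : Prop :=
  ∀ (ι : Type) [Fintype ι] [DecidableEq ι] (M : Matrix ι ι ℚ) (Y : Matrix ι ι ℚ⟦X⟧) (m : ℕ),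
    (IsG fun v : ι × ι => pm m M v.1 v.2) →
    (∀ z : ℂ, m * ‖z‖ < 1 →
      vm (pm m M) z = NormedSpace.exp (-(Complex.log (1 + m * z)) • cx M)) →
    (IsG fun v : ι × ι => Y v.1 v.2) →
    ∃ C : ℕ, ∀ a b : ℤ, a ≠ 0 → (C : ℤ) * |a| ^ C ≤ b →
      NormedSpace.exp (Complex.log ((a : ℂ) / (b + m * a)) • cx M) *
          vm Y ((a : ℂ) / (b + m * a)) =
        NormedSpace.exp (Complex.log ((a : ℂ) / b) • cx M) * vm (trm m M Y) ((a : ℂ) / b)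

/-- NZM: the determinant of `Y` does not vanish at small numbers (as `MainJM.nz`, MainJ0.lean: `D`,
`pol` and `det Ψ` do not vanish there) -/
def SpecNzm : Prop :=
  ∀ (ι : Type) [Fintype ι] [DecidableEq ι] (T : ℤ[X]) (B : Matrix ι ι ℤ[X]) (M : Matrix ι ι ℚ)
    (Ψ : Matrix ι ι ℚ[X]) (Y : Matrix ι ι ℚ⟦X⟧), FamM T B M Ψ Y → Ψ.det ≠ 0 → Y.det ≠ 0 →
    ∃ C : ℕ, ∀ a b : ℤ, a ≠ 0 → (C : ℤ) * |a| ^ C ≤ b → (vm Y ((a : ℂ) / b)).det ≠ 0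

/-! ## Part 3: ramification -/

/-- PXV: the values of `f(u ^ e)`, and of polynomials over `ℚ[u]` in power series (as
`RelM.cval_peval`, at any complex number) -/
def SpecPxv : Prop :=
  (∀ (e : ℕ) (f : ℚ⟦X⟧) (u : ℂ), e ≠ 0 → Sm f (u ^ e) →
    SmC (PowerSeries.map (algebraMap ℚ ℂ) (px e f)) u ∧
      cval (PowerSeries.map (algebraMap ℚ ℂ) (px e f)) u = pval f (u ^ e)) ∧
  (∀ (μ : Type) (v : μ → ℂ⟦X⟧) (u : ℂ), (∀ i, SmC (v i) u) → ∀ F : MvPolynomial μ ℚ[X],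
    SmC (pevalC v F) u ∧ cval (pevalC v F) u =
      MvPolynomial.eval (fun i => cval (v i) u) (F.map (Polynomial.aeval u : ℚ[X] →ₐ[ℚ] ℂ).toRingHom)) ∧
  (∀ (μ : Type) (v : μ → ℚ⟦X⟧) (F : MvPolynomial μ ℚ[X]),
    PowerSeries.map (algebraMap ℚ ℂ) (peval v F) =
      pevalC (fun i => PowerSeries.map (algebraMap ℚ ℂ) (v i)) F) ∧
  ∀ (ι : Type) [Fintype ι] [DecidableEq ι] (e : ℕ) (l : ι → ℕ) (Y : Matrix ι ι ℚ⟦X⟧)
    (g : Matrix ι ι ℂ) (u : ℂ), e ≠ 0 → (∀ p : ι × ι, Sm (Y p.1 p.2) (u ^ e)) → ∀ i j,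
    SmC (gY g (ram e l Y) i j) u ∧
      cval (gY g (ram e l Y) i j) u = (g * (diagonal (fun i => u ^ l i) * vm Y (u ^ e))) i j

/-- RAMR: relations between the entries of `y a` give relations between the entries of `ram (y a)`
(induction on `H`) -/
def SpecRamr : Prop :=
  ∀ (ι σ : Type) [Fintype ι] [DecidableEq ι] (e : ℕ) (l : ι → ℕ) (y : σ → Matrix ι ι ℚ⟦X⟧)
    (H : MvPolynomial (σ × ι × ι) ℚ[X]), e ≠ 0 →
    peval (fun p => y p.1 p.2.1 p.2.2) H = 0 →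
    ∃ (K : ℕ) (F : MvPolynomial (σ × ι × ι) ℚ[X]),
      peval (fun p => ram e l (y p.1) p.2.1 p.2.2) F = 0 ∧
      ∀ (u : ℂ) (z : σ × ι × ι → ℂ), u ≠ 0 →
        MvPolynomial.eval z (F.map (Polynomial.aeval u : ℚ[X] →ₐ[ℚ] ℂ).toRingHom) =
          u ^ K * MvPolynomial.eval (fun p => (u ^ l p.2.1)⁻¹ * z p)
            (H.map (Polynomial.aeval (u ^ e) : ℚ[X] →ₐ[ℚ] ℂ).toRingHom)

/-- the joint polynomial relations of degree `≤ n` over `ℚ` between the entries of the matrices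
`d * y a` (`d` diagonal) hold for the entries of the matrices `d * g a * y a` -/
def HasRelR {ι σ : Type} [Fintype ι] [DecidableEq ι] (n : ℕ) (d : ι → ℂ)
    (y : σ → Matrix ι ι ℂ) (G₀ : Subgroup (GL ι ℂ)) : Prop :=
  ∀ F : MvPolynomial (σ × ι × ι) ℚ, F.totalDegree ≤ n →
    MvPolynomial.aeval (fun p => d p.2.1 * y p.1 p.2.1 p.2.2) F = 0 →
    ∀ g : σ → GL ι ℂ, (∀ a, g a ∈ G₀) →
      MvPolynomial.aeval (fun p => d p.2.1 * ((g p.1).1 * y p.1) p.2.1 p.2.2) F = 0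

/-- RELL: relations over `ℚ` between the values (as RELT; from MONOD, GALM, TRM, BLM, BND, PNL, PSI,
PXV, RAMR; `blockDiagonal (xp e l N) = xp e (l ∘ fst) (blockDiagonal N)`). -/
def SpecRell : Prop :=
  ∀ (ι : Type) [Fintype ι] [DecidableEq ι] (k e : ℕ) (l : ι → ℕ) (T : ℤ[X]) (B : Matrix ι ι ℤ[X])
    (N ψ₀ : Matrix ι ι ℚ) (Y : Matrix ι ι ℚ⟦X⟧) (G₀ : Subgroup (GL ι ℂ)),
    FamR k e l T B N ψ₀ Y G₀ → IsNilpotent N → ψ₀.det ≠ 0 → Y.det ≠ 0 → Nᵀ * ψ₀ + ψ₀ * N = 0 →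
    ∀ (r : ℕ) (m : Fin r → ℕ), Function.Injective m → (∀ i, m i < k) → ∀ n : ℕ,
    ∃ C : ℕ, ∀ a b : ℤ, a ≠ 0 → (C : ℤ) * |a| ^ C ≤ b → ∀ u : ℂ, u ^ e = (a : ℂ) / b →
      HasRelR n (fun i => (u ^ l i)⁻¹)
        (fun x => diagonal (fun i => u ^ l i) * vm (trm (m x) (xp e l N) Y) ((a : ℂ) / b)) G₀

/-- NORML: relations over number fields. Let `F` over `L` vanish at `y`, `D_v = diag (v ^ l i)`,
`F°(Z) = F(D_u Z)`, `h_(x,a)(Z) = p_a(D_u Z_x) - p_a(y_x)` (over `L ∋ u`), and for `t ∈ ℚ` let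
`H_t = F° + ∑ t ^ k h_k` (`k = 1, …, R` numbers the pairs `(x, a)`), `P_t = ∏_φ H_t ^ φ`, `φ` all
embeddings of `L`: a polynomial over `ℚ` of bounded degree which vanishes at `D_u⁻¹ y`. By `HasRelR` it
vanishes at all `D_u⁻¹ g y`, so (`NormtM.prime_fam`) some `H_t ^ φ` does; some `φ` works for more than
`R` values of `t` among `0, …, δ (R + 1)`, so `(F°) ^ φ` and all `h_k ^ φ` vanish at all `D_u⁻¹ g y`.
Let `τ` extend `φ`, `ρ = D_(τ u) D_u⁻¹`, `ρ ^ e = 1`. (A) `F^τ(ρ g y) = 0` for all `g`. (B)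
`p_a(ρ g_x y_x) = p_a(τ(y_x))`: `ρ g_x y_x ∈ G₀ τ(y_x)` for all `g_x ∈ G₀`; so `ρ = h_x τ(y_x) y_x⁻¹`,
`h_x ∈ G₀`, and `ρ G₀ ρ⁻¹ ⊆ G₀`, hence `ρ⁻¹ G₀ ρ = ρ ^ (e - 1) G₀ ρ ^ (1 - e) ⊆ G₀`. Now
`τ(g_x y_x) = τ(g_x) h_x⁻¹ ρ y_x = ρ g'_x y_x` with `g'_x ∈ G₀`, so `F^τ(τ(g y)) = 0` by (A). -/
def SpecNorml : Prop :=
  ∀ (ι σ : Type) [Fintype ι] [DecidableEq ι] [Fintype σ] [DecidableEq σ] (e : ℕ) (l : ι → ℕ)
    (G₀ : Subgroup (GL ι ℂ)) (r : ℕ) (p : Fin r → MvPolynomial (ι × ι) ℚ) (n δ : ℕ), e ≠ 0 →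
    ClosedOver ⊥ (G₀ : Set (GL ι ℂ)) →
    (∀ f g : MvPolynomial (ι × ι) ℂ, f * g ∈ van (G₀ : Set (GL ι ℂ)) →
      f ∈ van (G₀ : Set (GL ι ℂ)) ∨ g ∈ van (G₀ : Set (GL ι ℂ))) →
    (∀ z z' : GL ι ℂ, z' * z⁻¹ ∈ G₀ ↔ ∀ a, MvPolynomial.aeval (en z'.1) (p a) =
      MvPolynomial.aeval (en z.1) (p a)) →
    ∃ n₁ : ℕ, ∀ (u : ℂ) (y : σ → GL ι ℂ) (L : IntermediateField ℚ ℂ), u ≠ 0 →
      (∃ q : ℚ, u ^ e = (q : ℂ)) → FiniteDimensional ℚ L → Module.finrank ℚ L ≤ δ → u ∈ L →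
      (∀ x a, MvPolynomial.aeval (en (y x).1) (p a) ∈ L) →
      HasRelR n₁ (fun i => (u ^ l i)⁻¹) (fun x => (y x).1) G₀ → HasRelT L n (fun x => (y x).1) G₀

/-- TORL: values of algebraic functions. If `P(u, f(u)) = 0` (`TorM.pq`), then for small `u` with
rational `u ^ e` the value is a root of a polynomial `≠ 0` of degree `≤ deg P` over `ℚ(u)` (the
leading coefficient of `P` does not vanish at small `u ≠ 0`), so the minimal polynomial over `ℚ` has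
degree `≤ e deg P`. -/
def SpecTorl : Prop :=
  ∀ (ι : Type) [Fintype ι] [DecidableEq ι] (e : ℕ) (l : ι → ℕ) (Y : Matrix ι ι ℚ⟦X⟧), e ≠ 0 →
    (IsG fun v : ι × ι => Y v.1 v.2) → ∀ q : MvPolynomial (ι × ι) ℚ,
    IsAlgebraic ℚ[X] (MvPolynomial.aeval (fun v : ι × ι => ram e l Y v.1 v.2) q : ℚ⟦X⟧) →
    ∃ d C : ℕ, ∀ a b : ℤ, a ≠ 0 → (C : ℤ) * |a| ^ C ≤ b → ∀ u : ℂ, u ^ e = (a : ℂ) / b →
      ∃ p : ℚ[X], p ≠ 0 ∧ p.natDegree ≤ d ∧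
        aeval (MvPolynomial.aeval
          (en (diagonal (fun i => u ^ l i) * vm Y ((a : ℂ) / b))) q) p = 0

/-! ## Part 4: the result -/

/-- ARIL: the arithmetic of the family (from RELL, NORML, VALM, TORL, NZM, DEG) -/
def SpecAril : Prop :=
  ∀ (ι : Type) [Fintype ι] [DecidableEq ι] (k e : ℕ) (l : ι → ℕ) (T : ℤ[X]) (B : Matrix ι ι ℤ[X])
    (N ψ₀ : Matrix ι ι ℚ) (Y : Matrix ι ι ℚ⟦X⟧) (G₀ : Subgroup (GL ι ℂ)),
    FamR k e l T B N ψ₀ Y G₀ → IsSS G₀ → IsNilpotent N → cx N ∈ lie (G₀ : Set (GL ι ℂ)) →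
    ψ₀.det ≠ 0 → Y.det ≠ 0 → Nᵀ * ψ₀ + ψ₀ * N = 0 →
    Arik k G₀ N fun z => NormedSpace.exp (Complex.log z • cx (xp e l N)) * vm Y z

end Pool.Agent.Lib.MPf11a48.CG
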