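import Pool.Agent.Lib.MP_f11a48_ag.CG.Defs

/-!
# Families near an object of CM type with semisimple monodromy: the theorem
-/

set_option autoImplicit false

namespace Pool.Agent.Lib.MPf11a48.CG

open Polynomial Matrix
open scoped PowerSeries
open Pool.Agent.Lib.MPf11a48.Tors
open Pool.Agent.Lib.MPf11a48.CM hiding OmegaM
open Pool.Agent.Lib.MPf11a48.GL2T Pool.Agent.Lib.MPf11a48.GF Pool.Agent.Lib.MPf11a48.CF
open Pool.Agent.Lib.MPf11a48.GL2 (lie van)
open Pool.Agent.Lib.MPf11a48.K3 (cx)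

/-- The theorem. `C₀ * exp (log x N) * Y(x)` is the period matrix of a family of de Rham-Betti
objects over `ℚ` in a neighbourhood of `x = 0`: `C₀` is the period matrix of the fibre at `0`
(`N = 0`: the family extends to `0`) or of the limit of the family at `0` (`exp (2 π i N)` is the
local monodromy, unipotent). `G` is a connected semisimple group over `ℚ` of isometries of `ψ`
which is respected by `C₀`. Assumption: the fibre (limit) at `0` has few periods, or (`N = 0`) is a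
sum of objects of rank one over `Qbar` with sufficiently many automorphisms in `G`. Then for the
fibre at `x = a / b`, with period matrix `c` in a basis of its de Rham space over a number field
`K` of degree `≤ δ`: `G c` is contained in the torsor `Ω_M`, and if the torsor `Ω_S` of a set `S` of
classes, with `ψ ∈ S`, is contained in `ℂˣ G Aut(ℂ/K) c`, then `Ω_M = Ω^dRB_M = Ω_S`. -/
def Statement : Prop :=
  ∀ (ι : Type) [Fintype ι] [DecidableEq ι] (T : ℤ[X]) (B : Matrix (ι × ι) (ι × ι) ℤ[X])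
    (Y : Matrix ι ι ℚ⟦X⟧) (G G₀ : Subgroup (GL ι ℂ)) (ψ₀ ψ N : Matrix ι ι ℚ) (C₀ : GL ι ℂ)
    (w : ℤ) (δ : ℕ),
    IsSS G → (∀ g ∈ G, g.1ᵀ * cx ψ * g.1 = cx ψ) → ψ.det ≠ 0 →
    ClosedOver ⊥ (G₀ : Set (GL ι ℂ)) → (∀ g, g ∈ G₀ ↔ C₀ * g * C₀⁻¹ ∈ G) → Fam T B Y G₀ →
    C₀.1ᵀ * cx ψ * C₀.1 = (2 * Real.pi * Complex.I) ^ w • cx ψ₀ →
    IsNilpotent N → cx N ∈ lie (G₀ : Set (GL ι ℂ)) →
    (Few G C₀.1 N ∨ N = 0 ∧ ∃ (P Q : Matrix ι ι ℂ) (s : ι → ℂ), C₀.1 = P * diagonal s * Q ∧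
      IsAlg P ∧ IsAlg Q ∧ Ncl G P s) →
    ∃ C : ℕ, ∀ a b : ℤ, a ≠ 0 → (C : ℤ) * |a| ^ C ≤ b →
      ∀ (K : IntermediateField ℚ ℂ), FiniteDimensional ℚ K → Module.finrank ℚ K ≤ δ →
      ∀ (R : Matrix ι ι K) (c : GL ι ℂ),
        c.1 = C₀.1 * NormedSpace.exp (Complex.log ((a : ℂ) / b) • cx N) *
          vm Y ((a : ℂ) / b) * R.map (fun x => (x : ℂ)) →
        (∀ g ∈ G, g * c ∈ Tors.OmegaM K c) ∧
        ∀ (ψdR : Matrix ι ι K) (S : Set (TPair K ι)), w ≠ 0 → Polarised w c ψdR ψ →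
          (∀ α ∈ S, Fixes c α) → polPair ψdR ψ ∈ S →
          (∀ f ∈ OmegaS S, ∃ (z : ℂ) (g : GL ι ℂ) (τ : ℂ ≃+* ℂ), g ∈ G ∧ FixesField K τ ∧
            f.1 = z • (g * tw τ c).1) →
          Tors.OmegaM K c = OmegaS S ∧ OmegaDRB K c = OmegaS S

end Pool.Agent.Lib.MPf11a48.CG
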