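import Pool.Agent.Lib.MP_f11a48_ag.CG.DefsB

/-!
# Almost all fibres of a family: the theorem with the closure in bounded degree
-/

set_option autoImplicit false

namespace Pool.Agent.Lib.MPf11a48.CG

open Polynomial Matrix
open scoped PowerSeries
open Pool.Agent.Lib.MPf11a48.Tors
open Pool.Agent.Lib.MPf11a48.CM hiding OmegaM
open Pool.Agent.Lib.MPf11a48.GL2T Pool.Agent.Lib.MPf11a48.GF Pool.Agent.Lib.MPf11a48.CF
open Pool.Agent.Lib.MPf11a48.GL2 (lie van)
open Pool.Agent.Lib.MPf11a48.K3 (cx)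

/-- The theorem. `C₀ * exp (log x N) * Y(x)` is the period matrix of a family `M_t`, `t = 1 / x`, of
de Rham-Betti objects over `ℚ` in a neighbourhood of `x = 0`, `t = ∞`: `C₀` is the period matrix of
the fibre at `x = 0` (`N = 0`: the family extends to `x = 0`) or of the limit of the family
(`exp (2 π i N)` is the local monodromy, unipotent). `G` is a connected semisimple group over `ℚ` of
isometries of `ψ` which is respected by `C₀`. Let `D`, `δ` be any numbers and `s` the square of the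
rank of the family (whatever `C₀` is). (For `D = 0`, that is without a statement on `Z_M`, one can
take for `s` also any number such that the fibre (limit) at `x = 0` has few periods compared to
`s`, or `0` if (`N = 0`) the fibre at `x = 0` is a sum of objects of rank one over `Qbar` with
sufficiently many automorphisms in `G`.) Then for every `k` there is `C` such that for all rational
numbers `t = b / a` with `C |a| ^ C ≤ b` all but at most `s` of the fibres at `t`, `t + 1`, ...,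
`t + k - 1` are good: `Z_M ⊆ Ω_M = Ω^dRB_M = Ω_S ⊆ Z_M^(D)`. -/
def StatementB : Prop :=
  ∀ (ι : Type) [Fintype ι] [DecidableEq ι] (T : ℤ[X]) (B : Matrix ι ι ℤ[X])
    (Y : Matrix ι ι ℚ⟦X⟧) (G G₀ : Subgroup (GL ι ℂ)) (ψ₀ ψ N : Matrix ι ι ℚ) (C₀ : GL ι ℂ)
    (w : ℤ) (δ D s : ℕ),
    IsSS G → (∀ g ∈ G, g.1ᵀ * cx ψ * g.1 = cx ψ) → ψ.det ≠ 0 →
    ClosedOver ⊥ (G₀ : Set (GL ι ℂ)) → (∀ g, g ∈ G₀ ↔ C₀ * g * C₀⁻¹ ∈ G) →
    FamT T B N ψ₀ Y G₀ →
    C₀.1ᵀ * cx ψ * C₀.1 = (2 * Real.pi * Complex.I) ^ w • cx ψ₀ →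
    IsNilpotent N → cx N ∈ lie (G₀ : Set (GL ι ℂ)) →
    (Fintype.card ι ^ 2 ≤ s ∨ D = 0 ∧ (FewS G C₀.1 N s ∨
      N = 0 ∧ ∃ (P Q : Matrix ι ι ℂ) (d : ι → ℂ),
        C₀.1 = P * diagonal d * Q ∧ IsAlg P ∧ IsAlg Q ∧ Ncl G P d)) →
    ∀ k : ℕ, ∃ C : ℕ, ∀ a b : ℤ, a ≠ 0 → (C : ℤ) * |a| ^ C ≤ b →
      {m : ℕ | m < k ∧ ¬ GoodB G ψ N Y C₀.1 w δ D ((a : ℂ) / (b + m * a))}.ncard ≤ s

end Pool.Agent.Lib.MPf11a48.CG
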