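import Pool.Agent.Lib.MP_f11a48_ag.CG.DefsL

/-!
# Sums of fibres of a family with arbitrary local monodromy: the theorem
-/

set_option autoImplicit false

namespace Pool.Agent.Lib.MPf11a48.CG

open Polynomial Matrix
open scoped PowerSeries
open Pool.Agent.Lib.MPf11a48.Tors
open Pool.Agent.Lib.MPf11a48.CM hiding OmegaM
open Pool.Agent.Lib.MPf11a48.GL2T Pool.Agent.Lib.MPf11a48.GF Pool.Agent.Lib.MPf11a48.CF
open Pool.Agent.Lib.MPf11a48.GL2 (lie van)
open Pool.Agent.Lib.MPf11a48.K3 (cx)

/-- The theorem. `C₀ * x ^ (Λ + N) * Y(x)`, where `Λ` is the diagonal matrix with entries `l i / e`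
and `N` is nilpotent and commutes with `Λ`, is the period matrix of a family `M_t`, `t = 1 / x`, of
de Rham-Betti objects over `ℚ` in a punctured neighbourhood of `x = 0`, `t = ∞`; the local monodromy
is `exp (2 π i (Λ + N))`; the translates of the family under `t ↦ t + m`, `m < k`, are independent (no
condition if `k = 1`); `C₀` is the period matrix of the limit of the family (of the fibre at
`x = 0` of the base change by `u ^ e = x`, if `N = 0`). `G` is a connected semisimple group over `ℚ`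
of isometries of `ψ` which is respected by `C₀`. Let `s` be the square of the rank of the family
(whatever `C₀` is), or the transcendence degree of the periods of the limit (plus `1` if `N ≠ 0`); or
let `D = 0` and let `s` be any number such that the limit has few periods compared to `s`, or, if
`N = 0` and the limit is a sum of objects of rank one over `Qbar` with sufficiently many
automorphisms in `G`, any number. Then for every `δ` there is `C` such that for all rational
numbers `t = b / a` with `C |a| ^ C ≤ b` there is a set `E` of at most `s` numbers with the following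
property: for all different numbers `m i < k` which are not in `E`, all forms `M` of the direct sum
of the fibres at `t + m i` satisfy `Z_M ⊆ Ω_M = Ω^dRB_M = Ω_S ⊆ Z_M^(D)` (over number fields of
degree `≤ δ`). -/
def StatementL : Prop :=
  ∀ (ι : Type) [Fintype ι] [DecidableEq ι] (e : ℕ) (l : ι → ℕ) (T : ℤ[X]) (B : Matrix ι ι ℤ[X])
    (Y : Matrix ι ι ℚ⟦X⟧) (G G₀ : Subgroup (GL ι ℂ)) (ψ₀ ψ N : Matrix ι ι ℚ) (C₀ : GL ι ℂ)
    (w : ℤ) (δ D s k : ℕ),
    IsSS G → (∀ g ∈ G, g.1ᵀ * cx ψ * g.1 = cx ψ) → ψ.det ≠ 0 →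
    ClosedOver ⊥ (G₀ : Set (GL ι ℂ)) → (∀ g, g ∈ G₀ ↔ C₀ * g * C₀⁻¹ ∈ G) →
    FamR k e l T B N ψ₀ Y G₀ →
    C₀.1ᵀ * cx ψ * C₀.1 = (2 * Real.pi * Complex.I) ^ w • cx ψ₀ →
    IsNilpotent N → cx N ∈ lie (G₀ : Set (GL ι ℂ)) →
    (Fintype.card ι ^ 2 ≤ s ∨ TrS C₀.1 N s ∨ D = 0 ∧ (FewS G C₀.1 N s ∨
      N = 0 ∧ ∃ (P Q : Matrix ι ι ℂ) (d : ι → ℂ),
        C₀.1 = P * diagonal d * Q ∧ IsAlg P ∧ IsAlg Q ∧ Ncl G P d)) →
    ∃ C : ℕ, ∀ a b : ℤ, a ≠ 0 → (C : ℤ) * |a| ^ C ≤ b →
      ∃ E : Finset ℕ, E.card ≤ s ∧ ∀ r : ℕ, 1 ≤ r →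
        ∀ m : Fin r → ℕ, Function.Injective m → (∀ i, m i < k ∧ m i ∉ E) →
          GoodK (bd G r) (blockDiagonal fun _ : Fin r => ψ)
            (blockDiagonal fun i => C₀.1 *
              NormedSpace.exp (Complex.log ((a : ℂ) / (b + m i * a)) • cx (xp e l N)) *
              vm Y ((a : ℂ) / (b + m i * a))) w δ D

end Pool.Agent.Lib.MPf11a48.CG
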