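import Pool.Agent.Lib.MP_f11a48_ag.CG.Stmt

/-!
# Families near a fibre with few periods: the theorem without Galochkin's condition
-/

set_option autoImplicit false

namespace Pool.Agent.Lib.MPf11a48.CG

open Polynomial Matrix
open scoped PowerSeries
open Pool.Agent.Lib.MPf11a48.Tors
open Pool.Agent.Lib.MPf11a48.CM hiding OmegaM
open Pool.Agent.Lib.MPf11a48.GL2T Pool.Agent.Lib.MPf11a48.GF Pool.Agent.Lib.MPf11a48.CF
open Pool.Agent.Lib.MPf11a48.GL2 (lie van)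
open Pool.Agent.Lib.MPf11a48.K3 (cx)

variable {ι : Type} [Fintype ι] [DecidableEq ι]

/-- The rows of `x ^ N Y(x)` are solutions of the system `T y' = B y` (`exp (2 π i N)` is the local
monodromy at `0`), the entries of `Y` are G-functions with rational coefficients, the form `ψ₀` is
horizontal (the entries of `Yᵀ ψ₀ Y` are rational functions), and `G₀` is, up to finite index, the
differential Galois group:
* the polynomial relations over `ℚ(X)` between the entries of `Y` hold for the entries of `g Y`,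
  for all `g ∈ G₀`;
* there are finitely many polynomials `p a` over `ℚ` in the matrix entries whose common level sets
  in `GL_ι(ℂ)` are the cosets `G₀ z`, such that the power series `p a (Y)` are algebraic over
  `ℚ(X)`. -/
structure FamP (T : ℤ[X]) (B : Matrix ι ι ℤ[X]) (N ψ₀ : Matrix ι ι ℚ) (Y : Matrix ι ι ℚ⟦X⟧)
    (G₀ : Subgroup (GL ι ℂ)) : Prop where
  ne : T ≠ 0
  sol : ∀ i j, ((X * zq T : ℚ[X]) : ℚ⟦X⟧) * PowerSeries.derivative ℚ (Y i j) =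
    ∑ k, ((X * zq (B j k) : ℚ[X]) : ℚ⟦X⟧) * Y i k -
      ((zq T : ℚ[X]) : ℚ⟦X⟧) * (N.map (PowerSeries.C : ℚ →+* ℚ⟦X⟧) * Y) i j
  g : IsG fun v : ι × ι => Y v.1 v.2
  pol : ∃ D : ℚ[X], D ≠ 0 ∧ ∀ i j, ∃ q : ℚ[X],
    (D : ℚ⟦X⟧) * (Yᵀ * ψ₀.map (PowerSeries.C : ℚ →+* ℚ⟦X⟧) * Y) i j = (q : ℚ⟦X⟧)
  mon : ∀ F : MvPolynomial (ι × ι) ℚ[X], peval (fun p => Y p.1 p.2) F = 0 →
    ∀ g ∈ G₀, pevalC (fun p => gY g.1 Y p.1 p.2) F = 0
  tor : ∃ (r : ℕ) (p : Fin r → MvPolynomial (ι × ι) ℚ),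
    (∀ z z' : GL ι ℂ, z' * z⁻¹ ∈ G₀ ↔ ∀ a, MvPolynomial.aeval (fun v : ι × ι => z'.1 v.1 v.2) (p a) =
      MvPolynomial.aeval (fun v : ι × ι => z.1 v.1 v.2) (p a)) ∧
    ∀ a, IsAlgebraic ℚ[X] (MvPolynomial.aeval (fun v : ι × ι => Y v.1 v.2) (p a) : ℚ⟦X⟧)

/-- The theorem. `C₀ * exp (log x N) * Y(x)` is the period matrix of a family of de Rham-Betti
objects over `ℚ` in a neighbourhood of `x = 0`: `C₀` is the period matrix of the fibre at `0`
(`N = 0`: the family extends to `0`) or of the limit of the family at `0` (`exp (2 π i N)` is the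
local monodromy, unipotent). `G` is a connected semisimple group over `ℚ` of isometries of `ψ`
which is respected by `C₀`. Assumption: the fibre (limit) at `0` has few periods, or (`N = 0`) is a
sum of objects of rank one over `Qbar` with sufficiently many automorphisms in `G`. Then for the
fibre at `x = a / b`, with period matrix `c` in a basis of its de Rham space over a number field
`K` of degree `≤ δ`: `G c` is contained in the torsor `Ω_M`, and if the torsor `Ω_S` of a set `S` of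
classes, with `ψ ∈ S`, is contained in `ℂˣ G Aut(ℂ/K) c`, then `Ω_M = Ω^dRB_M = Ω_S`. -/
def StatementP : Prop :=
  ∀ (ι : Type) [Fintype ι] [DecidableEq ι] (T : ℤ[X]) (B : Matrix ι ι ℤ[X])
    (Y : Matrix ι ι ℚ⟦X⟧) (G G₀ : Subgroup (GL ι ℂ)) (ψ₀ ψ N : Matrix ι ι ℚ) (C₀ : GL ι ℂ)
    (w : ℤ) (δ : ℕ),
    IsSS G → (∀ g ∈ G, g.1ᵀ * cx ψ * g.1 = cx ψ) → ψ.det ≠ 0 →
    ClosedOver ⊥ (G₀ : Set (GL ι ℂ)) → (∀ g, g ∈ G₀ ↔ C₀ * g * C₀⁻¹ ∈ G) →
    FamP T B N ψ₀ Y G₀ →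
    C₀.1ᵀ * cx ψ * C₀.1 = (2 * Real.pi * Complex.I) ^ w • cx ψ₀ →
    IsNilpotent N → cx N ∈ lie (G₀ : Set (GL ι ℂ)) →
    (Few G C₀.1 N ∨ N = 0 ∧ ∃ (P Q : Matrix ι ι ℂ) (s : ι → ℂ), C₀.1 = P * diagonal s * Q ∧
      IsAlg P ∧ IsAlg Q ∧ Ncl G P s) →
    ∃ C : ℕ, ∀ a b : ℤ, a ≠ 0 → (C : ℤ) * |a| ^ C ≤ b →
      ∀ (K : IntermediateField ℚ ℂ), FiniteDimensional ℚ K → Module.finrank ℚ K ≤ δ →
      ∀ (R : Matrix ι ι K) (c : GL ι ℂ),
        c.1 = C₀.1 * NormedSpace.exp (Complex.log ((a : ℂ) / b) • cx N) *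
          vm Y ((a : ℂ) / b) * R.map (fun x => (x : ℂ)) →
        (∀ g ∈ G, g * c ∈ Tors.OmegaM K c) ∧
        ∀ (ψdR : Matrix ι ι K) (S : Set (TPair K ι)), w ≠ 0 → Polarised w c ψdR ψ →
          (∀ α ∈ S, Fixes c α) → polPair ψdR ψ ∈ S →
          (∀ f ∈ OmegaS S, ∃ (z : ℂ) (g : GL ι ℂ) (τ : ℂ ≃+* ℂ), g ∈ G ∧ FixesField K τ ∧
            f.1 = z • (g * tw τ c).1) →
          Tors.OmegaM K c = OmegaS S ∧ OmegaDRB K c = OmegaS S

end Pool.Agent.Lib.MPf11a48.CG
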