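import Pool.Agent.Lib.MP_f11a48_ag.CG.SpecJ

/-!
# Module TR1: transport of torsors along `ι × Fin 1 = ι`
-/

set_option autoImplicit false

namespace Pool.Agent.Lib.MPf11a48.CG

open Matrix
open Pool.Agent.Lib.MPf11a48.Tors

namespace Tr1M

variable {ι : Type} [Fintype ι] [DecidableEq ι]

/-- `GL (ι × Fin 1) = GL ι` -/
noncomputable def Φ : GL (ι × Fin 1) ℂ ≃* GL ι ℂ :=
  Units.mapEquiv (Matrix.reindexAlgEquiv ℂ ℂ (Equiv.prodUnique ι (Fin 1))).toMulEquiv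

theorem Φ_apply (c : GL (ι × Fin 1) ℂ) (i j : ι) : (Φ c).1 i j = c.1 (i, 0) (j, 0) := rfl

theorem Φ_symm_apply (c : GL ι ℂ) (i j : ι × Fin 1) : (Φ.symm c).1 i j = c.1 i.1 j.1 := rfl

theorem isTorsor {K : IntermediateField ℚ ℂ} {T : Set (GL (ι × Fin 1) ℂ)} (hT : IsTorsor K T) :
    IsTorsor K (Φ.symm ⁻¹' T) where
  closed := by
    obtain ⟨S, hS⟩ := hT.closed
    refine ⟨MvPolynomial.rename (fun ij : (ι × Fin 1) × (ι × Fin 1) => (ij.1.1, ij.2.1)) '' S, ?_⟩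
    ext g
    rw [Set.mem_preimage, hS, Set.mem_ofPred_eq, Set.mem_ofPred_eq, Set.forall_mem_image]
    refine forall₂_congr fun p _ => ?_
    rw [MvPolynomial.aeval_rename]
    rfl
  nonempty := by
    obtain ⟨c, hc⟩ := hT.nonempty
    exact ⟨Φ c, by rwa [Set.mem_preimage, MulEquiv.symm_apply_apply]⟩
  heap := by
    intro a ha b hb d hd
    rw [Set.mem_preimage, map_mul, map_mul, map_inv]
    exact hT.heap _ ha _ hb _ hd

end Tr1M

open Tr1M

theorem specTr1 : SpecTr1 := by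
  intro ι _ _ G K c h g hg T hT hc
  obtain ⟨k, hk, hgk⟩ := hg
  have h1 := h (Φ c) (fun i j => Φ_apply c i j) (k 0) (hk 0) _ (isTorsor hT)
    (by rwa [Set.mem_preimage, MulEquiv.symm_apply_apply])
  rw [Set.mem_preimage, map_mul, MulEquiv.symm_apply_apply] at h1
  have h2 : Φ.symm (k 0) = g := by
    apply Units.ext
    ext ⟨i, a⟩ ⟨j, b⟩
    rw [Φ_symm_apply, hgk, blockDiagonal_apply, Subsingleton.elim a 0, Subsingleton.elim b 0]
    simp
  rwa [h2] at h1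

end Pool.Agent.Lib.MPf11a48.CG
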